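import Mathlib

set_option autoImplicit false

namespace Pool.Agent.H6.Andre

/-- The irreducible complex characters of a group. -/
def Irr (G : Type) [Group G] : Set (G → ℂ) :=
  {χ | ∃ (V : Type) (_ : AddCommGroup V) (_ : Module ℂ V) (_ : FiniteDimensional ℂ V)
    (ρ : Representation ℂ G V), ρ.IsIrreducible ∧ χ = ρ.character}

/-- A supercharacter theory (Diaconis-Isaacs) of a finite group. -/
structure SupercharacterTheory (G : Type) [Group G] where
  /-- the partition of the irreducible characters -/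
  X : Set (Set (G → ℂ))
  /-- the partition of the group -/
  K : Set (Set G)
  X_sub : ∀ B ∈ X, B ⊆ Irr G
  X_nonempty : ∀ B ∈ X, B.Nonempty
  X_unique : ∀ χ ∈ Irr G, ∃! B, B ∈ X ∧ χ ∈ B
  K_nonempty : ∀ C ∈ K, C.Nonempty
  K_unique : ∀ g : G, ∃! C, C ∈ K ∧ g ∈ C
  card_eq : Nat.card X = Nat.card K
  one_mem : {1} ∈ K
  const : ∀ B ∈ X, ∀ C ∈ K, ∀ g ∈ C, ∀ h ∈ C,
    (∑ᶠ ψ ∈ B, ψ 1 * ψ g) = ∑ᶠ ψ ∈ B, ψ 1 * ψ h

variable {n : ℕ} {F : Type} [Field F]

/-- `g` is upper unitriangular -/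
def IsUT (g : Matrix (Fin n) (Fin n) F) : Prop :=
  (∀ i, g i i = 1) ∧ ∀ i j, j < i → g i j = 0

lemma IsUT.mul {g h : Matrix (Fin n) (Fin n) F} (hg : IsUT g) (hh : IsUT h) : IsUT (g * h) := by
  refine ⟨fun i => ?_, fun i j hij => ?_⟩
  · rw [Matrix.mul_apply, Finset.sum_eq_single i]
    · rw [hg.1, hh.1, one_mul]
    · intro k _ hk
      rcases lt_or_gt_of_ne hk with h' | h'
      · rw [hg.2 i k h', zero_mul]
      · rw [hh.2 k i h', mul_zero]
    · intro h; exact absurd (Finset.mem_univ i) h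
  · rw [Matrix.mul_apply]
    apply Finset.sum_eq_zero
    intro k _
    by_cases hk : k < i
    · rw [hg.2 i k hk, zero_mul]
    · rw [hh.2 k j (lt_of_lt_of_le hij (not_lt.1 hk)), mul_zero]

/-- The group of upper unitriangular `n × n` matrices over `F`. -/
def UT (n : ℕ) (F : Type) [Field F] : Subgroup (Matrix (Fin n) (Fin n) F)ˣ where
  carrier := {g | IsUT (g : Matrix (Fin n) (Fin n) F)}
  mul_mem' := by
    intro g h hg hh
    exact hg.mul hh
  one_mem' := by
    refine ⟨fun i => by simp, fun i j hij => ?_⟩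
    simp [Matrix.one_apply, hij.ne']
  inv_mem' := by
    intro g hg
    have : Invertible (g : Matrix (Fin n) (Fin n) F) := g.invertible
    have hb : Matrix.BlockTriangular (g : Matrix (Fin n) (Fin n) F) id := fun i j hij => hg.2 i j hij
    have hb' := Matrix.blockTriangular_inv_of_blockTriangular hb
    have hcoe : ((g⁻¹ : (Matrix (Fin n) (Fin n) F)ˣ) : Matrix (Fin n) (Fin n) F) =
        (g : Matrix (Fin n) (Fin n) F)⁻¹ := Matrix.coe_units_inv g
    have h0 : ∀ i j, j < i → ((g⁻¹ : (Matrix (Fin n) (Fin n) F)ˣ) : Matrix (Fin n) (Fin n) F) i j = 0 := by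
      intro i j hij
      rw [hcoe]
      exact hb' hij
    refine ⟨fun i => ?_, h0⟩
    have h1 : ((g : Matrix (Fin n) (Fin n) F) *
      ((g⁻¹ : (Matrix (Fin n) (Fin n) F)ˣ) : Matrix (Fin n) (Fin n) F)) i i = 1 := by
      rw [Units.mul_inv, Matrix.one_apply_eq]
    rw [Matrix.mul_apply, Finset.sum_eq_single i] at h1
    · rwa [hg.1, one_mul] at h1
    · intro k _ hk
      rcases lt_or_gt_of_ne hk with h' | h'
      · rw [hg.2 i k h', zero_mul]
      · rw [h0 k i h', mul_zero]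
    · intro h; exact absurd (Finset.mem_univ i) h

/-- the matrix of an element of `UT n F` -/
def mat (g : UT n F) : Matrix (Fin n) (Fin n) F := ((g : (Matrix (Fin n) (Fin n) F)ˣ) : Matrix (Fin n) (Fin n) F)

lemma mat_isUT (g : UT n F) : IsUT (mat g) := g.2

/-- strictly upper triangular matrices -/
def NN (n : ℕ) (F : Type) [Field F] : Type :=
  {y : Matrix (Fin n) (Fin n) F // ∀ i j, j ≤ i → y i j = 0}

lemma IsUT.strict_mul {g y : Matrix (Fin n) (Fin n) F} (hg : IsUT g)
    (hy : ∀ i j, j ≤ i → y i j = 0) : ∀ i j, j ≤ i → (g * y) i j = 0 := by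
  intro i j hij
  rw [Matrix.mul_apply]
  apply Finset.sum_eq_zero
  intro k _
  by_cases hk : k < i
  · rw [hg.2 i k hk, zero_mul]
  · rw [hy k j (hij.trans (not_lt.1 hk)), mul_zero]

lemma IsUT.mul_strict {g y : Matrix (Fin n) (Fin n) F} (hg : IsUT g)
    (hy : ∀ i j, j ≤ i → y i j = 0) : ∀ i j, j ≤ i → (y * g) i j = 0 := by
  intro i j hij
  rw [Matrix.mul_apply]
  apply Finset.sum_eq_zero
  intro k _
  by_cases hk : j < k
  · rw [hg.2 k j hk, mul_zero]
  · rw [hy i k ((not_lt.1 hk).trans hij), zero_mul]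

/-- `y ↦ u y v` on strictly upper triangular matrices -/
def act (u v : UT n F) (y : NN n F) : NN n F :=
  ⟨mat u * y.1 * mat v, (mat_isUT v).mul_strict ((mat_isUT u).strict_mul y.2)⟩

/-- `g ↦ g - 1` -/
def sub1 (g : UT n F) : NN n F :=
  ⟨mat g - 1, by
    intro i j hij
    rcases hij.eq_or_lt with rfl | h
    · simp [(mat_isUT g).1]
    · simp [(mat_isUT g).2 i j h, Matrix.one_apply, h.ne']⟩

/-- the two-sided orbit `U μ U` of a function on strictly upper triangular matrices -/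
def orbit (μ : NN n F → F) : Set (NN n F → F) :=
  {ν | ∃ u v : UT n F, ν = fun y => μ (act u v y)}

/-- the single-box functional `y ↦ a y_{ij}` -/
def box (i j : Fin n) (a : F) : NN n F → F := fun y => a * y.1 i j

/-- `g ↦ ∑_{ν ∈ U μ U} θ (ν (g - 1))` -/
noncomputable def superchar (θ : AddChar F ℂ) (μ : NN n F → F) (g : UT n F) : ℂ :=
  ∑ᶠ ν ∈ orbit μ, θ (ν (sub1 g))

/-- Andre's superclass of `g`: all `h` with `h - 1 ∈ U (g - 1) U` -/
def andreClass (g : UT n F) : Set (UT n F) :=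
  {h | ∃ u v : UT n F, mat h - 1 = mat u * (mat g - 1) * mat v}

end Pool.Agent.H6.Andre
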