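import Mathlib
import Pool.Agent.H6.AndreDefs

set_option autoImplicit false

namespace Pool.Agent.H6.Andre

open Finset Matrix

variable {n : ℕ} {F : Type} [Field F]

lemma isUT_one : IsUT (1 : Matrix (Fin n) (Fin n) F) :=
  ⟨fun i => by simp, fun i j hij => by simp [hij.ne']⟩

lemma exists_UT {g : Matrix (Fin n) (Fin n) F} (hg : IsUT g) : ∃ u : UT n F, mat u = g := by
  have hdet : g.det = 1 := by
    rw [Matrix.det_of_isUpperTriangular (fun i j hij => hg.2 i j hij)]
    exact prod_eq_one (fun i _ => hg.1 i)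
  have hu : IsUnit g := by
    rw [Matrix.isUnit_iff_isUnit_det, hdet]
    exact isUnit_one
  obtain ⟨w, hw⟩ := hu
  refine ⟨⟨w, ?_⟩, hw⟩
  show IsUT (w : Matrix (Fin n) (Fin n) F)
  rw [hw]
  exact hg

/-- partial normal form -/
def Good (k : ℕ) (z : Matrix (Fin n) (Fin n) F) : Prop :=
  ∀ r : Fin n, n - k ≤ r.1 → (∀ j j', z r j ≠ 0 → z r j' ≠ 0 → j = j') ∧
    (∀ j r', z r j ≠ 0 → z r' j ≠ 0 → r' = r)

lemma good_step (k : ℕ) (hk : k < n) (x : Matrix (Fin n) (Fin n) F) (hx : Good k x) :
    ∃ u v : Matrix (Fin n) (Fin n) F, IsUT u ∧ IsUT v ∧ Good (k + 1) (u * x * v) := by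
  classical
  obtain ⟨i, hi⟩ : ∃ i : Fin n, i.1 = n - k - 1 := ⟨⟨n - k - 1, by omega⟩, rfl⟩
  have hgt : ∀ r : Fin n, n - (k + 1) ≤ r.1 → r ≠ i → n - k ≤ r.1 ∧ i < r := by
    intro r hr hri
    have h1 : r.1 ≠ i.1 := fun h => hri (Fin.ext h)
    refine ⟨by omega, ?_⟩
    rw [Fin.lt_def]
    omega
  by_cases hrow : ∀ j, x i j = 0
  · refine ⟨1, 1, isUT_one, isUT_one, ?_⟩
    rw [one_mul, mul_one]
    intro r hr
    by_cases hri : r = i
    · subst hri
      exact ⟨fun j j' h => absurd (hrow j) h, fun j r' h => absurd (hrow j) h⟩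
    · exact hx r (hgt r hr hri).1
  · push Not at hrow
    obtain ⟨j, hj, hjmin⟩ : ∃ j, x i j ≠ 0 ∧ ∀ b, b < j → x i b = 0 := by
      have hne : (univ.filter (fun j => x i j ≠ 0)).Nonempty := by
        obtain ⟨j, hj⟩ := hrow
        exact ⟨j, by simp [hj]⟩
      refine ⟨(univ.filter (fun j => x i j ≠ 0)).min' hne, ?_, ?_⟩
      · have := (univ.filter (fun j => x i j ≠ 0)).min'_mem hne
        simpa using this
      · intro b hb
        by_contra h
        have := (univ.filter (fun j => x i j ≠ 0)).min'_le b (by simp [h])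
        exact absurd hb (not_lt.2 this)
    -- entries below row i in column j vanish
    have hbelow : ∀ r, i < r → x r j = 0 := by
      intro r hr
      by_contra h
      have h1 := (hx r (by rw [Fin.lt_def] at hr; omega)).2 j i h hj
      exact absurd h1 hr.ne
    obtain ⟨v, hv⟩ : ∃ v : Matrix (Fin n) (Fin n) F, v = fun a b =>
      (if a = b then 1 else 0) - (if a = j ∧ b ≠ j then x i b / x i j else 0) := ⟨_, rfl⟩
    obtain ⟨u, hu⟩ : ∃ u : Matrix (Fin n) (Fin n) F, u = fun a b =>
      (if a = b then 1 else 0) - (if b = i ∧ a ≠ i then x a j / x i j else 0) := ⟨_, rfl⟩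
    have hvUT : IsUT v := by
      refine ⟨fun a => ?_, fun a b hab => ?_⟩
      · rw [hv]
        by_cases h : a = j <;> simp [h]
      · rw [hv]
        simp only
        rw [if_neg hab.ne']
        by_cases h : a = j
        · subst h
          rw [if_pos ⟨rfl, hab.ne⟩, hjmin b hab]
          simp
        · rw [if_neg (fun h' => h h'.1)]
          simp
    have huUT : IsUT u := by
      refine ⟨fun a => ?_, fun a b hab => ?_⟩
      · rw [hu]
        by_cases h : a = i <;> simp [h]
      · rw [hu]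
        simp only
        rw [if_neg hab.ne']
        by_cases h : b = i
        · subst h
          rw [if_pos ⟨rfl, hab.ne'⟩, hbelow a hab]
          simp
        · rw [if_neg (fun h' => h h'.1)]
          simp
    have hxv : ∀ r b, (x * v) r b = x r b - (if b ≠ j then x r j * (x i b / x i j) else 0) := by
      intro r b
      rw [Matrix.mul_apply, hv]
      simp only [mul_sub, sum_sub_distrib]
      congr 1
      · simp
      · by_cases h : b = j
        · simp [h]
        · simp [h]
    have huxv : ∀ r b, (u * x * v) r b =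
        (x * v) r b - (if r ≠ i then (x r j / x i j) * (x * v) i b else 0) := by
      intro r b
      rw [Matrix.mul_assoc, Matrix.mul_apply, hu]
      simp only [sub_mul, sum_sub_distrib]
      congr 1
      · simp
      · by_cases h : r = i
        · simp [h]
        · simp [h]
    have hyi : ∀ b, (x * v) i b = if b = j then x i j else 0 := by
      intro b
      rw [hxv]
      by_cases h : b = j
      · simp [h]
      · rw [if_pos h, if_neg h]
        field_simp
        ring
    have hz : ∀ r b, (u * x * v) r b = if r = i then (if b = j then x i j else 0)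
        else if b = j then 0 else x r b - x r j * (x i b / x i j) := by
      intro r b
      rw [huxv, hyi]
      by_cases hr : r = i
      · subst hr
        rw [hyi]
        simp
      · rw [if_pos hr, if_neg hr, hxv]
        by_cases h : b = j
        · subst h
          simp only [ne_eq, not_true_eq_false, if_false, if_true, sub_zero]
          rw [div_mul_cancel₀ _ hj, sub_self]
        · rw [if_pos h, if_neg h, if_neg h]
          ring
    refine ⟨u, v, huUT, hvUT, ?_⟩
    intro r hr
    by_cases hri : r = i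
    · subst hri
      constructor
      · intro b b' hb hb'
        rw [hz] at hb hb'
        simp only [if_true, ne_eq, ite_eq_right_iff, not_forall] at hb hb'
        rw [hb.1, hb'.1]
      · intro b r' hb hb'
        rw [hz] at hb hb'
        simp only [if_true, ne_eq, ite_eq_right_iff, not_forall] at hb
        by_contra h
        rw [if_neg h, if_pos hb.1] at hb'
        exact hb' rfl
    · obtain ⟨hr1, hr2⟩ := hgt r hr hri
      have hrj := hbelow r hr2
      have hzr : ∀ b, (u * x * v) r b = x r b := by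
        intro b
        rw [hz, if_neg hri]
        by_cases h : b = j
        · rw [if_pos h, h, hrj]
        · rw [if_neg h, hrj]; ring
      constructor
      · intro b b' hb hb'
        rw [hzr] at hb hb'
        exact (hx r hr1).1 b b' hb hb'
      · intro b r' hb hb'
        rw [hzr] at hb
        by_contra h
        have h1 : x r' b = 0 := by
          by_contra h'
          exact h ((hx r hr1).2 b r' hb h')
        have h2 : x i b = 0 := by
          by_contra h'
          exact absurd ((hx r hr1).2 b i hb h') hr2.ne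
        apply hb'
        rw [hz]
        by_cases hr' : r' = i
        · rw [if_pos hr']
          by_cases hbj : b = j
          · exact absurd (hbj ▸ h2) hj
          · rw [if_neg hbj]
        · rw [if_neg hr', h1, h2]
          simp

/-- monomial matrices: at most one nonzero entry in each row and column -/
def Mono (z : Matrix (Fin n) (Fin n) F) : Prop :=
  (∀ r j j', z r j ≠ 0 → z r j' ≠ 0 → j = j') ∧ (∀ r j r', z r j ≠ 0 → z r' j ≠ 0 → r' = r)

lemma normal_form (x : Matrix (Fin n) (Fin n) F) :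
    ∃ u v : Matrix (Fin n) (Fin n) F, IsUT u ∧ IsUT v ∧ Mono (u * x * v) := by
  have key : ∀ k ≤ n, ∃ u v : Matrix (Fin n) (Fin n) F, IsUT u ∧ IsUT v ∧ Good k (u * x * v) := by
    intro k
    induction k with
    | zero =>
      intro _
      refine ⟨1, 1, isUT_one, isUT_one, ?_⟩
      intro r hr
      exact absurd r.2 (by omega)
    | succ k ih =>
      intro hk
      obtain ⟨u, v, hu, hv, hg⟩ := ih (by omega)
      obtain ⟨u', v', hu', hv', hg'⟩ := good_step k (by omega) _ hg
      refine ⟨u' * u, v * v', hu'.mul hu, hv.mul hv', ?_⟩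
      have e : u' * u * x * (v * v') = u' * (u * x * v) * v' := by
        simp only [Matrix.mul_assoc]
      rw [e]
      exact hg'
  obtain ⟨u, v, hu, hv, hg⟩ := key n le_rfl
  exact ⟨u, v, hu, hv, fun r => (hg r (by omega)).1, fun r => (hg r (by omega)).2⟩

section sums

variable [Fintype F]

open Classical in
/-- the set of unitriangular matrices -/
noncomputable def UU (n : ℕ) (F : Type) [Field F] [Fintype F] : Finset (Matrix (Fin n) (Fin n) F) :=
  univ.filter IsUT

lemma mem_UU {g : Matrix (Fin n) (Fin n) F} : g ∈ UU n F ↔ IsUT g := by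
  classical
  simp [UU]

/-- the exponential sum -/
noncomputable def S (θ : AddChar F ℂ) (i j : Fin n) (a : F) (x : Matrix (Fin n) (Fin n) F) : ℂ :=
  ∑ u ∈ UU n F, ∑ v ∈ UU n F, θ (a * (u * x * v) i j)

lemma S_inv (θ : AddChar F ℂ) (i j : Fin n) (a : F) (x : Matrix (Fin n) (Fin n) F)
    (g h : UT n F) : S θ i j a (mat g * x * mat h) = S θ i j a x := by
  unfold S
  have hg : mat g * mat g⁻¹ = 1 := by
    show ((g : (Matrix (Fin n) (Fin n) F)ˣ) : Matrix (Fin n) (Fin n) F) *
      (((g⁻¹ : UT n F) : (Matrix (Fin n) (Fin n) F)ˣ) : Matrix (Fin n) (Fin n) F) = 1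
    rw [Subgroup.coe_inv, Units.mul_inv]
  have hg' : mat g⁻¹ * mat g = 1 := by
    show (((g⁻¹ : UT n F) : (Matrix (Fin n) (Fin n) F)ˣ) : Matrix (Fin n) (Fin n) F) *
      ((g : (Matrix (Fin n) (Fin n) F)ˣ) : Matrix (Fin n) (Fin n) F) = 1
    rw [Subgroup.coe_inv, Units.inv_mul]
  have hh : mat h * mat h⁻¹ = 1 := by
    show ((h : (Matrix (Fin n) (Fin n) F)ˣ) : Matrix (Fin n) (Fin n) F) *
      (((h⁻¹ : UT n F) : (Matrix (Fin n) (Fin n) F)ˣ) : Matrix (Fin n) (Fin n) F) = 1
    rw [Subgroup.coe_inv, Units.mul_inv]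
  have hh' : mat h⁻¹ * mat h = 1 := by
    show (((h⁻¹ : UT n F) : (Matrix (Fin n) (Fin n) F)ˣ) : Matrix (Fin n) (Fin n) F) *
      ((h : (Matrix (Fin n) (Fin n) F)ˣ) : Matrix (Fin n) (Fin n) F) = 1
    rw [Subgroup.coe_inv, Units.inv_mul]
  refine sum_bij' (fun u _ => u * mat g) (fun u _ => u * mat g⁻¹) ?_ ?_ ?_ ?_ ?_
  · intro u hu
    rw [mem_UU] at hu ⊢
    exact hu.mul (mat_isUT g)
  · intro u hu
    rw [mem_UU] at hu ⊢
    exact hu.mul (mat_isUT _)
  · intro u _
    rw [Matrix.mul_assoc, hg, mul_one]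
  · intro u _
    rw [Matrix.mul_assoc, hg', mul_one]
  · intro u _
    refine sum_bij' (fun v _ => mat h * v) (fun v _ => mat h⁻¹ * v) ?_ ?_ ?_ ?_ ?_
    · intro v hv
      rw [mem_UU] at hv ⊢
      exact (mat_isUT h).mul hv
    · intro v hv
      rw [mem_UU] at hv ⊢
      exact (mat_isUT _).mul hv
    · intro v _
      rw [← Matrix.mul_assoc, hh', one_mul]
    · intro v _
      rw [← Matrix.mul_assoc, hh, one_mul]
    · intro v _
      simp only [Matrix.mul_assoc]

omit [Fintype F] in
lemma exists_ne_one {θ : AddChar F ℂ} (hθ : ∃ x, θ x ≠ 1) {c : F} (hc : c ≠ 0) :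
    ∃ s, θ (c * s) ≠ 1 := by
  obtain ⟨x, hx⟩ := hθ
  refine ⟨x / c, ?_⟩
  rwa [mul_div_cancel₀ _ hc]

/-- adding `s` at a strictly upper position is a bijection of the unitriangular matrices -/
lemma sum_shift (l j : Fin n) (hlj : l < j) (s : F) (f : Matrix (Fin n) (Fin n) F → ℂ) :
    ∑ v ∈ UU n F, f (v + Matrix.single l j s) = ∑ v ∈ UU n F, f v := by
  have key : ∀ (s : F) (v : Matrix (Fin n) (Fin n) F), v ∈ UU n F →
      v + Matrix.single l j s ∈ UU n F := by
    intro s v hv
    rw [mem_UU] at hv ⊢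
    refine ⟨fun a => ?_, fun a b hab => ?_⟩
    · rw [Matrix.add_apply, hv.1, Matrix.single_apply_of_ne, add_zero]
      rintro ⟨rfl, rfl⟩
      exact lt_irrefl _ hlj
    · rw [Matrix.add_apply, hv.2 a b hab, Matrix.single_apply_of_ne, add_zero]
      rintro ⟨rfl, rfl⟩
      exact absurd hab (not_lt.2 hlj.le)
  refine sum_bij' (fun v _ => v + Matrix.single l j s) (fun v _ => v + Matrix.single l j (-s))
    (fun v hv => key s v hv) (fun v hv => key (-s) v hv) ?_ ?_ (fun _ _ => rfl)
  · intro v _
    rw [add_assoc, ← Matrix.single_add, add_neg_cancel, Matrix.single_zero, add_zero]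
  · intro v _
    rw [add_assoc, ← Matrix.single_add, neg_add_cancel, Matrix.single_zero, add_zero]

lemma inner_zero {θ : AddChar F ℂ} (hθ : ∃ x, θ x ≠ 1) {a : F} (ha : a ≠ 0) (i j l : Fin n)
    (hlj : l < j) (y : Matrix (Fin n) (Fin n) F) (hy : y i l ≠ 0) :
    ∑ v ∈ UU n F, θ (a * (y * v) i j) = 0 := by
  obtain ⟨s, hs⟩ := exists_ne_one hθ (mul_ne_zero ha hy)
  have h1 := sum_shift l j hlj s (fun v => θ (a * (y * v) i j))
  have h2 : ∀ v : Matrix (Fin n) (Fin n) F, θ (a * (y * (v + Matrix.single l j s)) i j) =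
      θ (a * y i l * s) * θ (a * (y * v) i j) := by
    intro v
    rw [← AddChar.map_add_eq_mul, Matrix.mul_add, Matrix.add_apply]
    congr 1
    have : (y * Matrix.single l j s) i j = y i l * s := by
      simp
    rw [this]
    ring
  simp only [h2, ← mul_sum] at h1
  have h3 : (θ (a * y i l * s) - 1) * ∑ v ∈ UU n F, θ (a * (y * v) i j) = 0 := by
    rw [sub_mul, h1, one_mul, sub_self]
  rcases mul_eq_zero.1 h3 with h | h
  · exact absurd (sub_eq_zero.1 h) hs
  · exact h

lemma inner_zero' {θ : AddChar F ℂ} (hθ : ∃ x, θ x ≠ 1) {a : F} (ha : a ≠ 0) (i j k : Fin n)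
    (hik : i < k) (y : Matrix (Fin n) (Fin n) F) (hy : y k j ≠ 0) :
    ∑ u ∈ UU n F, θ (a * (u * y) i j) = 0 := by
  obtain ⟨s, hs⟩ := exists_ne_one hθ (mul_ne_zero ha hy)
  have h1 := sum_shift i k hik s (fun u => θ (a * (u * y) i j))
  have h2 : ∀ u : Matrix (Fin n) (Fin n) F, θ (a * ((u + Matrix.single i k s) * y) i j) =
      θ (a * y k j * s) * θ (a * (u * y) i j) := by
    intro u
    rw [← AddChar.map_add_eq_mul, Matrix.add_mul, Matrix.add_apply]
    congr 1
    have : (Matrix.single i k s * y) i j = s * y k j := by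
      simp
    rw [this]
    ring
  simp only [h2, ← mul_sum] at h1
  have h3 : (θ (a * y k j * s) - 1) * ∑ u ∈ UU n F, θ (a * (u * y) i j) = 0 := by
    rw [sub_mul, h1, one_mul, sub_self]
  rcases mul_eq_zero.1 h3 with h | h
  · exact absurd (sub_eq_zero.1 h) hs
  · exact h

/-- evaluation of the sum on monomial matrices -/
lemma S_mono {θ : AddChar F ℂ} (hθ : ∃ x, θ x ≠ 1) {a : F} (ha : a ≠ 0) (i j : Fin n)
    (m : Matrix (Fin n) (Fin n) F) (hm : Mono m) :
    (S θ i j a m ≠ 0 → (∀ l < j, m i l = 0) ∧ (∀ k, i < k → m k j = 0)) ∧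
    ((∀ l < j, m i l = 0) → (∀ k, i < k → m k j = 0) →
      ∃ P : ℕ, 0 < P ∧ S θ i j a m = P * θ (a * m i j)) := by
  constructor
  · intro hS
    constructor
    · intro l hl
      by_contra h
      apply hS
      unfold S
      apply sum_eq_zero
      intro u hu
      rw [mem_UU] at hu
      apply inner_zero hθ ha i j l hl
      rw [Matrix.mul_apply, sum_eq_single i]
      · rw [hu.1, one_mul]; exact h
      · intro k _ hk
        by_cases h' : m k l = 0
        · rw [h', mul_zero]
        · exact absurd (hm.2 i l k h h') hk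
      · intro h'; exact absurd (mem_univ i) h'
    · intro k hk
      by_contra h
      apply hS
      unfold S
      rw [sum_comm]
      apply sum_eq_zero
      intro v hv
      rw [mem_UU] at hv
      simp only [Matrix.mul_assoc]
      apply inner_zero' hθ ha i j k hk
      rw [Matrix.mul_apply, sum_eq_single j]
      · rw [hv.1, mul_one]; exact h
      · intro l _ hl
        by_cases h' : m k l = 0
        · rw [h', zero_mul]
        · exact absurd (hm.1 k j l h h').symm hl
      · intro h'; exact absurd (mem_univ j) h'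
  · intro hrow hcol
    classical
    refine ⟨(UU n F).card * ((UU n F).filter (fun u => ∀ l < j, (u * m) i l = 0)).card, ?_, ?_⟩
    · apply Nat.mul_pos
      · exact card_pos.2 ⟨1, mem_UU.2 isUT_one⟩
      · refine card_pos.2 ⟨1, mem_filter.2 ⟨mem_UU.2 isUT_one, fun l hl => ?_⟩⟩
        rw [one_mul]
        exact hrow l hl
    · have hT : ∀ u ∈ UU n F, ∑ v ∈ UU n F, θ (a * (u * m * v) i j) =
          if (∀ l < j, (u * m) i l = 0) then ((UU n F).card : ℂ) * θ (a * m i j) else 0 := by
        intro u hu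
        rw [mem_UU] at hu
        by_cases h : ∀ l < j, (u * m) i l = 0
        · rw [if_pos h]
          have hv : ∀ v ∈ UU n F, θ (a * (u * m * v) i j) = θ (a * m i j) := by
            intro v hv
            rw [mem_UU] at hv
            congr 2
            rw [Matrix.mul_apply, sum_eq_single j]
            · rw [hv.1, mul_one, Matrix.mul_apply, sum_eq_single i]
              · rw [hu.1, one_mul]
              · intro k _ hk
                rcases lt_or_gt_of_ne hk with h' | h'
                · rw [hu.2 i k h', zero_mul]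
                · rw [hcol k h', mul_zero]
              · intro h'; exact absurd (mem_univ i) h'
            · intro l _ hl
              rcases lt_or_gt_of_ne hl with h' | h'
              · rw [h l h', zero_mul]
              · rw [hv.2 l j h', mul_zero]
            · intro h'; exact absurd (mem_univ j) h'
          rw [sum_congr rfl hv, sum_const, nsmul_eq_mul]
        · rw [if_neg h]
          push Not at h
          obtain ⟨l, hl, hne⟩ := h
          exact inner_zero hθ ha i j l hl _ hne
      unfold S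
      rw [sum_congr rfl hT, ← sum_filter, sum_const, nsmul_eq_mul]
      push_cast
      ring

lemma mono_eq {θ : AddChar F ℂ} (hθ : ∃ x, θ x ≠ 1) {m m' : Matrix (Fin n) (Fin n) F}
    (hm : Mono m) (hm' : Mono m') (hs : ∀ i j, j ≤ i → m i j = 0)
    (hS : ∀ i j, i < j → ∀ a ≠ 0, S θ i j a m = S θ i j a m') (i j : Fin n) (hij : m i j ≠ 0) :
    m' i j = m i j := by
  have hlt : i < j := by
    by_contra h
    exact hij (hs i j (not_lt.1 h))
  have hrow : ∀ l < j, m i l = 0 := by
    intro l hl
    by_contra h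
    exact hl.ne (hm.1 i l j h hij)
  have hcol : ∀ k, i < k → m k j = 0 := by
    intro k hk
    by_contra h
    exact hk.ne' (hm.2 i j k hij h)
  by_contra hne
  have hc : m i j - m' i j ≠ 0 := fun h => hne (sub_eq_zero.1 h).symm
  obtain ⟨a, ha⟩ := exists_ne_one hθ hc
  have ha0 : a ≠ 0 := by
    rintro rfl
    rw [mul_zero, AddChar.map_zero_eq_one] at ha
    exact ha rfl
  obtain ⟨P, hP, h1⟩ := (S_mono hθ ha0 i j m hm).2 hrow hcol
  have hnorm : ∀ x, ‖θ x‖ = 1 := fun x => AddChar.norm_apply θ x
  have hne0 : ∀ x, θ x ≠ 0 := by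
    intro x h
    have := hnorm x
    rw [h, norm_zero] at this
    exact zero_ne_one this
  have h2 : S θ i j a m' ≠ 0 := by
    rw [← hS i j hlt a ha0, h1]
    exact mul_ne_zero (by exact_mod_cast hP.ne') (hne0 _)
  obtain ⟨h3, h4⟩ := (S_mono hθ ha0 i j m' hm').1 h2
  obtain ⟨P', hP', h5⟩ := (S_mono hθ ha0 i j m' hm').2 h3 h4
  have h6 : (P : ℂ) * θ (a * m i j) = P' * θ (a * m' i j) := by
    rw [← h1, ← h5]
    exact hS i j hlt a ha0
  have h7 : (P : ℝ) = P' := by
    have := congrArg norm h6
    rw [norm_mul, norm_mul, hnorm, hnorm, mul_one, mul_one] at this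
    simpa using this
  have h8 : (P : ℂ) = P' := by exact_mod_cast h7
  rw [h8] at h6
  have h9 : θ (a * m i j) = θ (a * m' i j) := mul_left_cancel₀ (by exact_mod_cast hP'.ne') h6
  apply ha
  have h10 : a * m i j = (m i j - m' i j) * a + a * m' i j := by ring
  rw [h10, AddChar.map_add_eq_mul] at h9
  have h11 : (θ ((m i j - m' i j) * a) - 1) * θ (a * m' i j) = 0 := by
    rw [sub_mul, h9, one_mul, sub_self]
  rcases mul_eq_zero.1 h11 with h | h
  · exact sub_eq_zero.1 h
  · exact absurd h (hne0 _)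

/-- the sums determine the two-sided orbit -/
lemma orbit_of_S {θ : AddChar F ℂ} (hθ : ∃ x, θ x ≠ 1) {x x' : Matrix (Fin n) (Fin n) F}
    (hx : ∀ i j, j ≤ i → x i j = 0) (hx' : ∀ i j, j ≤ i → x' i j = 0)
    (hS : ∀ i j, i < j → ∀ a ≠ 0, S θ i j a x = S θ i j a x') :
    ∃ u v : UT n F, x' = mat u * x * mat v := by
  obtain ⟨u, v, hu, hv, hm⟩ := normal_form x
  obtain ⟨u', v', hu', hv', hm'⟩ := normal_form x'
  obtain ⟨g, rfl⟩ := exists_UT hu
  obtain ⟨h, rfl⟩ := exists_UT hv
  obtain ⟨g', rfl⟩ := exists_UT hu'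
  obtain ⟨h', rfl⟩ := exists_UT hv'
  have hs : ∀ i j, j ≤ i → (mat g * x * mat h) i j = 0 :=
    (mat_isUT h).mul_strict ((mat_isUT g).strict_mul hx)
  have hs' : ∀ i j, j ≤ i → (mat g' * x' * mat h') i j = 0 :=
    (mat_isUT h').mul_strict ((mat_isUT g').strict_mul hx')
  have hSS : ∀ i j, i < j → ∀ a ≠ 0, S θ i j a (mat g * x * mat h) =
      S θ i j a (mat g' * x' * mat h') := by
    intro i j hij a ha
    rw [S_inv, S_inv]
    exact hS i j hij a ha
  have heq : mat g * x * mat h = mat g' * x' * mat h' := by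
    ext i j
    by_cases h1 : (mat g * x * mat h) i j = 0
    · by_cases h2 : (mat g' * x' * mat h') i j = 0
      · rw [h1, h2]
      · exact mono_eq hθ hm' hm hs' (fun i j hij a ha => (hSS i j hij a ha).symm) i j h2
    · exact (mono_eq hθ hm hm' hs hSS i j h1).symm
  have inv1 : ∀ w : UT n F, mat w⁻¹ * mat w = 1 := by
    intro w
    show (((w⁻¹ : UT n F) : (Matrix (Fin n) (Fin n) F)ˣ) : Matrix (Fin n) (Fin n) F) *
      ((w : (Matrix (Fin n) (Fin n) F)ˣ) : Matrix (Fin n) (Fin n) F) = 1
    rw [Subgroup.coe_inv, Units.inv_mul]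
  have inv2 : ∀ w : UT n F, mat w * mat w⁻¹ = 1 := by
    intro w
    show ((w : (Matrix (Fin n) (Fin n) F)ˣ) : Matrix (Fin n) (Fin n) F) *
      (((w⁻¹ : UT n F) : (Matrix (Fin n) (Fin n) F)ˣ) : Matrix (Fin n) (Fin n) F) = 1
    rw [Subgroup.coe_inv, Units.mul_inv]
  refine ⟨g'⁻¹ * g, h * h'⁻¹, ?_⟩
  have e1 : mat (g'⁻¹ * g) = mat g'⁻¹ * mat g := rfl
  have e2 : mat (h * h'⁻¹) = mat h * mat h'⁻¹ := rfl
  rw [e1, e2]
  calc x' = (mat g'⁻¹ * mat g') * x' * (mat h' * mat h'⁻¹) := by
        rw [inv1, inv2, one_mul, mul_one]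
    _ = mat g'⁻¹ * (mat g' * x' * mat h') * mat h'⁻¹ := by simp only [Matrix.mul_assoc]
    _ = mat g'⁻¹ * (mat g * x * mat h) * mat h'⁻¹ := by rw [heq]
    _ = mat g'⁻¹ * mat g * x * (mat h * mat h'⁻¹) := by simp only [Matrix.mul_assoc]

noncomputable instance : Fintype (UT n F) := by
  classical
  exact Fintype.ofFinite _

instance : Finite (NN n F) := Subtype.finite

omit [Fintype F] in
lemma act_one (y : NN n F) : act 1 1 y = y := by
  apply Subtype.ext
  show (1 : Matrix (Fin n) (Fin n) F) * y.1 * 1 = y.1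
  rw [one_mul, mul_one]

omit [Fintype F] in
lemma act_act (u v u' v' : UT n F) (y : NN n F) :
    act u v (act u' v' y) = act (u * u') (v' * v) y := by
  apply Subtype.ext
  show mat u * (mat u' * y.1 * mat v') * mat v = (mat u * mat u') * y.1 * (mat v' * mat v)
  simp only [Matrix.mul_assoc]

lemma superchar_S (θ : AddChar F ℂ) (i j : Fin n) (a : F) :
    ∃ k : ℕ, 0 < k ∧ ∀ g : UT n F, k * superchar θ (box i j a) g = S θ i j a (mat g - 1) := by
  classical
  obtain ⟨ν, hν⟩ : ∃ ν : UT n F × UT n F → (NN n F → F),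
    ν = fun p y => box i j a (act p.1 p.2 y) := ⟨_, rfl⟩
  obtain ⟨O, hO⟩ : ∃ O : Finset (NN n F → F), O = univ.image ν := ⟨_, rfl⟩
  have hOorb : (O : Set (NN n F → F)) = orbit (box i j a) := by
    ext μ
    rw [hO]
    simp only [coe_image, coe_univ, Set.image_univ, Set.mem_range, orbit, Set.mem_ofPred_eq]
    constructor
    · rintro ⟨p, rfl⟩
      exact ⟨p.1, p.2, by rw [hν]⟩
    · rintro ⟨u, v, rfl⟩
      exact ⟨(u, v), by rw [hν]⟩
  -- fibres have constant size
  have hfib : ∀ μ ∈ O, (univ.filter (fun p => ν p = μ)).card =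
      (univ.filter (fun p => ν p = ν 1)).card := by
    intro μ hμ
    rw [hO, mem_image] at hμ
    obtain ⟨p0, _, rfl⟩ := hμ
    symm
    refine card_bij' (fun p _ => (p.1 * p0.1, p0.2 * p.2)) (fun p _ => (p.1 * p0.1⁻¹, p0.2⁻¹ * p.2))
      ?_ ?_ ?_ ?_
    · intro p hp
      simp only [mem_filter, mem_univ, true_and] at hp ⊢
      rw [hν] at hp ⊢
      funext y
      have := congrFun hp (act p0.1 p0.2 y)
      simp only at this ⊢
      rw [act_act] at this
      rw [this]
      congr 1
      show act 1 1 (act p0.1 p0.2 y) = _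
      rw [act_one]
    · intro p hp
      simp only [mem_filter, mem_univ, true_and] at hp ⊢
      rw [hν] at hp ⊢
      funext y
      have := congrFun hp (act p0.1⁻¹ p0.2⁻¹ y)
      simp only at this ⊢
      rw [act_act, act_act, mul_inv_cancel, inv_mul_cancel] at this
      exact this
    · intro p _
      ext <;> simp
    · intro p _
      ext <;> simp
  refine ⟨(univ.filter (fun p => ν p = ν 1)).card, card_pos.2 ⟨1, by simp⟩, fun g => ?_⟩
  have h1 : superchar θ (box i j a) g = ∑ μ ∈ O, θ (μ (sub1 g)) := by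
    unfold superchar
    rw [← hOorb, finsum_mem_coe_finset]
  have h2 : S θ i j a (mat g - 1) = ∑ p : UT n F × UT n F, θ (ν p (sub1 g)) := by
    unfold S
    rw [Fintype.sum_prod_type]
    refine (sum_bij (fun (u : UT n F) _ => mat u) ?_ ?_ ?_ ?_).symm
    · intro u _; exact mem_UU.2 (mat_isUT u)
    · intro u _ u' _ h; exact Subtype.ext (Units.ext h)
    · intro m hm
      obtain ⟨u, hu⟩ := exists_UT (mem_UU.1 hm)
      exact ⟨u, mem_univ _, hu⟩
    · intro u _
      refine sum_bij (fun (v : UT n F) _ => mat v) ?_ ?_ ?_ ?_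
      · intro v _; exact mem_UU.2 (mat_isUT v)
      · intro v _ v' _ h; exact Subtype.ext (Units.ext h)
      · intro m hm
        obtain ⟨v, hv⟩ := exists_UT (mem_UU.1 hm)
        exact ⟨v, mem_univ _, hv⟩
      · intro v _
        rw [hν]
        rfl
  rw [h1, h2, ← sum_fiberwise_of_maps_to (s := univ) (t := O) (g := ν)
    (fun p _ => by rw [hO]; exact mem_image_of_mem _ (mem_univ p)), mul_sum]
  apply sum_congr rfl
  intro μ hμ
  have h3 : ∀ p ∈ univ.filter (fun p => ν p = μ), θ (ν p (sub1 g)) = θ (μ (sub1 g)) := by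
    intro p hp
    rw [(mem_filter.1 hp).2]
  rw [sum_congr rfl h3, sum_const, hfib μ hμ, nsmul_eq_mul]

end sums

/-- Core statement. -/
lemma main {n : ℕ} {F : Type} [Field F] [Finite F] {θ : AddChar F ℂ} (hθ : ∃ x, θ x ≠ 1)
    {g h : UT n F}
    (hS : ∀ i j : Fin n, i < j → ∀ a : F, a ≠ 0 →
      superchar θ (box i j a) g = superchar θ (box i j a) h) : h ∈ andreClass g := by
  have : Fintype F := Fintype.ofFinite F
  have h1 : ∀ i j : Fin n, i < j → ∀ a : F, a ≠ 0 →
      S θ i j a (mat g - 1) = S θ i j a (mat h - 1) := by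
    intro i j hij a ha
    obtain ⟨k, _, hk⟩ := superchar_S (n := n) θ i j a
    rw [← hk, ← hk, hS i j hij a ha]
  exact orbit_of_S hθ (sub1 g).2 (sub1 h).2 h1

/-- the supercharacter at the identity is a positive integer -/
lemma superchar_one_ne {n : ℕ} {F : Type} [Field F] [Finite F] {θ : AddChar F ℂ} (i j : Fin n) (a : F) :
    superchar θ (box i j a) 1 ≠ 0 := by
  have : Fintype F := Fintype.ofFinite F
  obtain ⟨k, hk0, hk⟩ := superchar_S (n := n) θ i j a
  intro h
  have h1 := hk 1
  rw [h, mul_zero] at h1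
  have h2 : mat (1 : UT n F) - 1 = 0 := by
    show (1 : Matrix (Fin n) (Fin n) F) - 1 = 0
    rw [sub_self]
  rw [h2] at h1
  unfold S at h1
  simp only [mul_zero, zero_mul, Matrix.zero_apply, AddChar.map_zero_eq_one, sum_const,
    nsmul_eq_mul, mul_one] at h1
  have h3 : (UU n F).card ≠ 0 := by
    rw [Finset.card_ne_zero]
    exact ⟨1, mem_UU.2 isUT_one⟩
  have h4 : ((UU n F).card : ℂ) ≠ 0 := by exact_mod_cast h3
  exact (mul_ne_zero h4 h4) h1.symm

end Pool.Agent.H6.Andre
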