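import Pool.Agent.H6.CCDefs

namespace Pool.Agent.H6.CC

open Pool.Agent.H6.CCDefs

section
variable {p q : ℝ} {k : ℕ} (hp : 0 < p) (hq : 0 < q) (hk : 2 ≤ k)
include hp hq hk

theorem tstar_spec : 0 < tstar p q k ∧ tstar p q k < 1 ∧
    ((k : ℝ) - 1) * (q - p) * (tstar p q k) ^ 2 + ((k + 1) * p - (k - 2) * (q - p)) * tstar p q k -
      k * p = 0 := by
  have hk' : (2 : ℝ) ≤ k := by exact_mod_cast hk
  set D : ℝ := (k + 1) * p - (k - 2) * (q - p) with hD
  set c : ℝ := (k - 1) * (q - p) with hc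
  have hcD : c + D = q + k * p := by rw [hc, hD]; ring
  have hkp : 0 < k * p := by positivity
  set Δ : ℝ := D ^ 2 + 4 * k * (k - 1) * p * (q - p) with hΔ
  have hΔc : Δ = D ^ 2 + 4 * (k * p) * c := by rw [hΔ, hc]; ring
  have hΔ0 : 0 ≤ Δ := by
    have : Δ = (q + k * p - c) ^ 2 + 4 * (k * p) * c := by
      rw [hΔc]; rw [← hcD]; ring
    rw [this]
    by_cases h : 0 ≤ c
    · positivity
    · push Not at h
      nlinarith [sq_nonneg (k * p + c), mul_pos hq hkp]
  set S := Real.sqrt Δ with hS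
  have hSS : S ^ 2 = Δ := Real.sq_sqrt hΔ0
  have hS0 : 0 ≤ S := Real.sqrt_nonneg _
  have hDS : 0 < D + S := by
    by_cases h : 0 < D
    · linarith
    · push Not at h
      have hc0 : 0 < c := by linarith
      have : D ^ 2 < S ^ 2 := by
        rw [hSS, hΔc]
        have : 0 < 4 * (k * p) * c := by positivity
        linarith
      nlinarith
  have ht : tstar p q k = 2 * k * p / (D + S) := rfl
  rw [ht]
  refine ⟨by positivity, ?_, ?_⟩
  · rw [div_lt_one hDS]
    by_contra hcon
    push Not at hcon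
    have h1 : S ≤ 2 * (k * p) - D := by linarith
    have h2 : S ^ 2 ≤ (2 * (k * p) - D) ^ 2 := pow_le_pow_left₀ hS0 h1 2
    rw [hSS, hΔc] at h2
    have h3 : (k * p) * (c + D) ≤ (k * p) * (k * p) := by nlinarith
    have h4 := le_of_mul_le_mul_left h3 hkp
    linarith
  · have h5 : 4 * (k * p) * c = S ^ 2 - D ^ 2 := by rw [hSS, hΔc]; ring
    have hne : D + S ≠ 0 := hDS.ne'
    have e : c * (2 * k * p / (D + S)) ^ 2 + D * (2 * k * p / (D + S)) - k * p =
      (k * p) * (4 * (k * p) * c + 2 * D * (D + S) - (D + S) ^ 2) / (D + S) ^ 2 := by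
      field_simp
      ring
    rw [e, h5]
    have : S ^ 2 - D ^ 2 + 2 * D * (D + S) - (D + S) ^ 2 = 0 := by ring
    rw [this, mul_zero, zero_div]

theorem bound_pos : 0 < bound p q k := by
  obtain ⟨h0, h1, _⟩ := tstar_spec hp hq hk
  have h2 : 0 < 1 - tstar p q k := by linarith
  have h3 : 0 < Real.sqrt (1 - tstar p q k) := Real.sqrt_pos.2 h2
  have h4 : 0 < Real.sqrt (tstar p q k) := Real.sqrt_pos.2 h0
  unfold bound
  positivity

/-- logarithm of the function to be minimised -/
noncomputable def gg (p q : ℝ) (k : ℕ) (t : ℝ) : ℝ :=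
  Real.log (p * (1 - t) + q * t) - Real.log (1 - t) / 2 - k * Real.log t / 2

theorem gg_deriv {t : ℝ} (h0 : 0 < t) (h1 : t < 1) :
    HasDerivAt (gg p q k) ((((k : ℝ) - 1) * (q - p) * t ^ 2 + ((k + 1) * p - (k - 2) * (q - p)) * t -
      k * p) / (2 * t * (1 - t) * (p * (1 - t) + q * t))) t := by
  have h2 : 0 < 1 - t := by linarith
  have h3 : 0 < p * (1 - t) + q * t := by positivity
  have d1 : HasDerivAt (fun t : ℝ => p * (1 - t) + q * t) (p * (0 - 1) + q * 1) t := by
    exact (((hasDerivAt_const t (1 : ℝ)).sub (hasDerivAt_id t)).const_mul p).add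
      ((hasDerivAt_id t).const_mul q)
  have d2 : HasDerivAt (fun t : ℝ => 1 - t) (0 - 1) t := (hasDerivAt_const t (1 : ℝ)).sub (hasDerivAt_id t)
  have e1 := d1.log h3.ne'
  have e2 := (d2.log h2.ne').div_const 2
  have e3 := ((Real.hasDerivAt_log h0.ne').const_mul (k : ℝ)).div_const 2
  have := (e1.sub e2).sub e3
  refine HasDerivAt.congr_deriv (f := gg p q k) this ?_
  field_simp
  ring

theorem gg_min {t : ℝ} (h0 : 0 < t) (h1 : t < 1) : gg p q k (tstar p q k) ≤ gg p q k t := by
  obtain ⟨s0, s1, hs⟩ := tstar_spec hp hq hk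
  set s := tstar p q k with hsdef
  have hk' : (2 : ℝ) ≤ k := by exact_mod_cast hk
  have fact : ∀ t : ℝ, ((k : ℝ) - 1) * (q - p) * t ^ 2 + ((k + 1) * p - (k - 2) * (q - p)) * t -
      k * p = (t - s) * (((k : ℝ) - 1) * (q - p) * (t + s) + ((k + 1) * p - (k - 2) * (q - p))) := by
    intro t
    linear_combination hs
  set c : ℝ := ((k : ℝ) - 1) * (q - p) with hc
  set Dd : ℝ := (k + 1) * p - (k - 2) * (q - p) with hDd
  have pos0 : 0 < c * s + Dd := by
    have : s * (c * s + Dd) = k * p := by linear_combination hs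
    have h2 : 0 < s * (c * s + Dd) := by rw [this]; positivity
    exact (pos_iff_pos_of_mul_pos h2).1 s0
  have pos1 : 0 < c * (1 + s) + Dd := by
    have h2 : (1 - s) * (c * (1 + s) + Dd) = q := by
      have := fact 1
      have e : c * 1 ^ 2 + Dd * 1 - k * p = q := by rw [hc, hDd]; ring
      linarith
    have h3 : 0 < (1 - s) * (c * (1 + s) + Dd) := by rw [h2]; exact hq
    exact (pos_iff_pos_of_mul_pos h3).1 (by linarith)
  have posall : ∀ t : ℝ, 0 ≤ t → t ≤ 1 → 0 < c * (t + s) + Dd := by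
    intro t ht0 ht1
    have e : c * (t + s) + Dd = (1 - t) * (c * s + Dd) + t * (c * (1 + s) + Dd) := by ring
    rw [e]
    rcases ht0.eq_or_lt with h | h
    · rw [← h]; simpa using pos0
    · have a1 : 0 ≤ (1 - t) * (c * s + Dd) := mul_nonneg (by linarith) pos0.le
      have a2 : 0 < t * (c * (1 + s) + Dd) := mul_pos h pos1
      linarith
  have hcont : ∀ t : ℝ, 0 < t → t < 1 → ContinuousAt (gg p q k) t := fun t h0 h1 =>
    (gg_deriv hp hq hk h0 h1).continuousAt
  rcases le_total t s with hts | hts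
  · have hanti : AntitoneOn (gg p q k) (Set.Ioc 0 s) := by
      apply antitoneOn_of_deriv_nonpos (convex_Ioc 0 s)
      · intro x hx
        exact (hcont x hx.1 (lt_of_le_of_lt hx.2 s1)).continuousWithinAt
      · intro x hx
        rw [interior_Ioc] at hx
        exact (gg_deriv hp hq hk hx.1 (hx.2.trans s1)).differentiableAt.differentiableWithinAt
      · intro x hx
        rw [interior_Ioc] at hx
        have hx1 : x < 1 := hx.2.trans s1
        rw [(gg_deriv hp hq hk hx.1 hx1).deriv, fact]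
        apply div_nonpos_of_nonpos_of_nonneg
        · exact mul_nonpos_of_nonpos_of_nonneg (by linarith [hx.2]) (posall x hx.1.le hx1.le).le
        · have : 0 < 1 - x := by linarith
          have := hx.1
          positivity
    exact hanti ⟨h0, hts⟩ ⟨s0, le_rfl⟩ hts
  · have hmono : MonotoneOn (gg p q k) (Set.Ico s 1) := by
      apply monotoneOn_of_deriv_nonneg (convex_Ico s 1)
      · intro x hx
        exact (hcont x (lt_of_lt_of_le s0 hx.1) hx.2).continuousWithinAt
      · intro x hx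
        rw [interior_Ico] at hx
        exact (gg_deriv hp hq hk (s0.trans hx.1) hx.2).differentiableAt.differentiableWithinAt
      · intro x hx
        rw [interior_Ico] at hx
        have hx0 : 0 < x := s0.trans hx.1
        rw [(gg_deriv hp hq hk hx0 hx.2).deriv, fact]
        apply div_nonneg
        · exact mul_nonneg (by linarith [hx.1]) (posall x hx0.le hx.2.le).le
        · have : 0 < 1 - x := by linarith [hx.2]
          positivity
    exact hmono ⟨le_rfl, s1⟩ ⟨hts, h1⟩ hts

theorem exp_gg {t : ℝ} (h0 : 0 < t) (h1 : t < 1) : Real.exp (gg p q k t) =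
    (p * (1 - t) + q * t) / (Real.sqrt (1 - t) * (Real.sqrt t) ^ k) := by
  have h2 : 0 < 1 - t := by linarith
  have h3 : 0 < p * (1 - t) + q * t := by positivity
  rw [gg, Real.exp_sub, Real.exp_sub, Real.exp_log h3, div_div]
  congr 2
  · rw [← Real.log_sqrt h2.le, Real.exp_log (Real.sqrt_pos.2 h2)]
  · rw [mul_div_assoc, ← Real.log_sqrt h0.le, Real.exp_nat_mul, Real.exp_log (Real.sqrt_pos.2 h0)]

theorem min_bound {t : ℝ} (h0 : 0 < t) (h1 : t < 1) :
    bound p q k * (Real.sqrt (1 - t) * (Real.sqrt t) ^ k) ≤ p * (1 - t) + q * t := by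
  obtain ⟨s0, s1, _⟩ := tstar_spec hp hq hk
  have := Real.exp_le_exp.2 (gg_min hp hq hk h0 h1)
  rw [exp_gg hp hq hk h0 h1, exp_gg hp hq hk s0 s1, le_div_iff₀] at this
  · exact this
  · have : 0 < 1 - t := by linarith
    have h3 := Real.sqrt_pos.2 this
    have h4 := Real.sqrt_pos.2 h0
    positivity

end

/-- the polynomial inequality behind the extremal maps -/
theorem min_bound' {p q : ℝ} {k : ℕ} (hp : 0 < p) (hq : 0 < q) (hk : 2 ≤ k) {x y : ℝ} (hx : 0 ≤ x)
    (hy : 0 ≤ y) (hxy : 0 < x ^ 2 + y ^ 2) (hxy1 : x ^ 2 + y ^ 2 < 1) :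
    bound p q k * (x * y ^ k) < p * x ^ 2 + q * y ^ 2 := by
  have hb := bound_pos hp hq hk
  rcases hx.eq_or_lt with h | hx
  · rw [← h] at hxy ⊢
    have : 0 < q * y ^ 2 := by
      have : 0 < y ^ 2 := by simpa using hxy
      positivity
    simpa using this
  rcases hy.eq_or_lt with h | hy
  · rw [← h]
    have : (0 : ℝ) ^ k = 0 := zero_pow (by omega)
    rw [this]
    have : 0 < p * x ^ 2 := by positivity
    simpa using this
  set r := Real.sqrt (x ^ 2 + y ^ 2) with hr
  have hr0 : 0 < r := Real.sqrt_pos.2 hxy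
  have hrr : r ^ 2 = x ^ 2 + y ^ 2 := Real.sq_sqrt hxy.le
  have hr1 : r < 1 := by
    by_contra hcon
    push Not at hcon
    have : 1 ≤ r ^ 2 := one_le_pow₀ hcon
    linarith
  set t := y ^ 2 / r ^ 2 with ht
  have ht0 : 0 < t := by positivity
  have ht1 : 1 - t = x ^ 2 / r ^ 2 := by
    rw [ht, hrr]
    field_simp
    ring
  have ht1' : t < 1 := by
    have : 0 < 1 - t := by rw [ht1]; positivity
    linarith
  have h1 := min_bound hp hq hk ht0 ht1'
  have s1 : Real.sqrt (1 - t) = x / r := by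
    rw [ht1, ← div_pow, Real.sqrt_sq (by positivity)]
  have s2 : Real.sqrt t = y / r := by
    rw [ht, ← div_pow, Real.sqrt_sq (by positivity)]
  rw [s1, s2] at h1
  have h2 : p * (1 - t) + q * t = (p * x ^ 2 + q * y ^ 2) / r ^ 2 := by
    rw [ht1, ht]; ring
  rw [h2, le_div_iff₀ (by positivity)] at h1
  have h3 : x / r * (y / r) ^ k * r ^ 2 = (x * y ^ k) * (r / r ^ k) := by
    rw [div_pow]; field_simp
  have h4 : 1 < r / r ^ k := by
    rw [lt_div_iff₀ (by positivity), one_mul]
    calc r ^ k ≤ r ^ 2 := pow_le_pow_of_le_one hr0.le hr1.le hk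
      _ < r := by nlinarith
  have h5 : bound p q k * (x * y ^ k) < bound p q k * (x / r * (y / r) ^ k * r ^ 2) := by
    rw [h3]
    apply mul_lt_mul_of_pos_left _ hb
    have : 0 < x * y ^ k := by positivity
    nlinarith
  linarith

end Pool.Agent.H6.CC
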