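import Pool.Agent.H6.CC1

namespace Pool.Agent.H6.CC

open Pool.Agent.H6.CCDefs ComplexConjugate Metric Real

/-- coefficient extraction -/
theorem avg_coef {f : ℂ → ℂ} {R : ℝ} (hR : 0 < R) (n : ℕ) (hf : DifferentiableOn ℂ f (closedBall 0 R)) :
    circleAverage (fun ζ => (ζ ^ n)⁻¹ * f ζ) 0 R = iteratedDeriv n f 0 / (n.factorial : ℂ) := by
  rw [circleAverage_eq_circleIntegral hR.ne']
  have h := hf.circleIntegral_one_div_sub_center_pow_smul hR n
  have e : (∮ z in C(0, R), (z - 0)⁻¹ • ((z ^ n)⁻¹ * f z)) = ∮ z in C(0, R), (1 / (z - 0) ^ (n + 1)) • f z := by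
    congr 1
    funext z
    simp only [sub_zero, smul_eq_mul, one_div, pow_succ, mul_inv]
    ring
  rw [e, h, smul_eq_mul, smul_eq_mul]
  have hpi : (2 * (π : ℂ) * Complex.I) ≠ 0 := Complex.two_pi_I_ne_zero
  have hfac : (n.factorial : ℂ) ≠ 0 := by exact_mod_cast n.factorial_ne_zero
  field_simp

theorem cint {f : ℂ → ℂ} (n : ℕ) (hf : DifferentiableOn ℂ f (closedBall 0 1)) :
    CircleIntegrable (fun ζ => (ζ ^ n)⁻¹ * f ζ) 0 1 := by
  apply ContinuousOn.circleIntegrable zero_le_one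
  intro z hz
  have hz0 : z ≠ 0 := by
    intro h
    rw [h] at hz
    simp at hz
  have h1 : ContinuousWithinAt (fun ζ : ℂ => (ζ ^ n)⁻¹) (sphere 0 1) z :=
    ((continuous_pow n).continuousAt.inv₀ (pow_ne_zero n hz0)).continuousWithinAt
  exact h1.mul ((hf.continuousOn.mono sphere_subset_closedBall) z hz)

section
variable {p q : ℝ} {k : ℕ} {h : ℂ × ℂ → ℂ × ℂ}

theorem isOpen_ball2 : IsOpen ball2 := by
  have : Continuous (fun z : ℂ × ℂ => ‖z.1‖ ^ 2 + ‖z.2‖ ^ 2) := by fun_prop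
  exact isOpen_lt this continuous_const

theorem core (hk : 2 ≤ k) (hh : h ∈ NA p q) (z1 : ℂ) {y : ℝ} (hy : 0 < y)
    (hz : ‖z1‖ ^ 2 + y ^ 2 < 1) :
    0 ≤ p * ‖z1‖ ^ 2 + q * y ^ 2 + (conj z1 * coef1 k h).re * y ^ k := by
  obtain ⟨han, h0, hD, hpos⟩ := hh
  have hmem : ∀ ζ : ℂ, ‖ζ‖ ≤ 1 → (ζ ^ k * z1, ζ * (y : ℂ)) ∈ ball2 := by
    intro ζ hζ
    show ‖ζ ^ k * z1‖ ^ 2 + ‖ζ * (y : ℂ)‖ ^ 2 < 1
    rw [norm_mul, norm_mul, norm_pow, Complex.norm_real, Real.norm_of_nonneg hy.le, mul_pow, mul_pow]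
    have a1 : (‖ζ‖ ^ k) ^ 2 ≤ 1 := pow_le_one₀ (by positivity) (pow_le_one₀ (norm_nonneg _) hζ)
    have a2 : ‖ζ‖ ^ 2 ≤ 1 := pow_le_one₀ (norm_nonneg _) hζ
    nlinarith [sq_nonneg ‖z1‖, sq_nonneg y]
  have hmem0 : ∀ ζ : ℂ, ‖ζ‖ ≤ 1 → ((0 : ℂ), ζ * (y : ℂ)) ∈ ball2 := by
    intro ζ hζ
    show ‖(0 : ℂ)‖ ^ 2 + ‖ζ * (y : ℂ)‖ ^ 2 < 1
    rw [norm_zero, norm_mul, Complex.norm_real, Real.norm_of_nonneg hy.le, mul_pow]
    have a2 : ‖ζ‖ ^ 2 ≤ 1 := pow_le_one₀ (norm_nonneg _) hζ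
    nlinarith [sq_nonneg ‖z1‖, sq_nonneg y]
  set cu : ℂ → ℂ × ℂ := fun ζ => (ζ ^ k * z1, ζ * (y : ℂ)) with hcu
  set cv : ℂ → ℂ × ℂ := fun ζ => ((0 : ℂ), ζ * (y : ℂ)) with hcv
  have hcud : Differentiable ℂ cu := by
    rw [hcu]; fun_prop
  have hcvd : Differentiable ℂ cv := by
    rw [hcv]; fun_prop
  have dcu : ∀ ζ : ℂ, ‖ζ‖ ≤ 1 → DifferentiableAt ℂ (fun ζ => h (cu ζ)) ζ := fun ζ hζ =>
    (han _ (hmem ζ hζ)).differentiableAt.comp ζ (hcud ζ)
  have dcv : ∀ ζ : ℂ, ‖ζ‖ ≤ 1 → DifferentiableAt ℂ (fun ζ => h (cv ζ)) ζ := fun ζ hζ =>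
    (han _ (hmem0 ζ hζ)).differentiableAt.comp ζ (hcvd ζ)
  set g1 : ℂ → ℂ := fun ζ => (h (cu ζ)).1 with hg1
  set g2 : ℂ → ℂ := fun ζ => (h (cu ζ)).2 with hg2
  set u : ℂ → ℂ := fun ζ => (h (cv ζ)).1 with hu
  have dg1 : ∀ ζ : ℂ, ‖ζ‖ ≤ 1 → DifferentiableAt ℂ g1 ζ := fun ζ hζ => (dcu ζ hζ).fst
  have dg2 : ∀ ζ : ℂ, ‖ζ‖ ≤ 1 → DifferentiableAt ℂ g2 ζ := fun ζ hζ => (dcu ζ hζ).snd
  have du : ∀ ζ : ℂ, ‖ζ‖ ≤ 1 → DifferentiableAt ℂ u ζ := fun ζ hζ => (dcv ζ hζ).fst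
  have on1 : ∀ {f : ℂ → ℂ}, (∀ ζ : ℂ, ‖ζ‖ ≤ 1 → DifferentiableAt ℂ f ζ) →
      DifferentiableOn ℂ f (closedBall 0 1) := fun hf ζ hζ =>
    (hf ζ (by simpa using hζ)).differentiableWithinAt
  have h0mem : (0 : ℂ × ℂ) ∈ ball2 := by simp [ball2]
  have hstrict : HasStrictFDerivAt h (fderiv ℂ h 0) 0 := (han 0 h0mem).hasStrictFDerivAt
  -- the linear coefficient of the second component
  have c1 : iteratedDeriv 1 g2 0 / ((Nat.factorial 1 : ℕ) : ℂ) = q * y := by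
    have hcud0 : HasDerivAt cu ((0 : ℂ), (y : ℂ)) 0 := by
      have a1 : HasDerivAt (fun ζ : ℂ => ζ ^ k * z1) 0 0 := by
        have := (hasDerivAt_pow k (0 : ℂ)).mul_const z1
        have e : (k : ℂ) * 0 ^ (k - 1) * z1 = 0 := by
          rw [zero_pow (by omega)]; ring
        rwa [e] at this
      have a2 : HasDerivAt (fun ζ : ℂ => ζ * (y : ℂ)) (y : ℂ) 0 := by
        simpa using (hasDerivAt_id (0 : ℂ)).mul_const (y : ℂ)
      exact a1.prodMk a2
    have hcu0 : cu 0 = 0 := by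
      simp [hcu, zero_pow (show k ≠ 0 by omega)]
    have hh0 : HasFDerivAt h (fderiv ℂ h 0) (cu 0) := by rw [hcu0]; exact hstrict.hasFDerivAt
    have hcomp := hh0.comp_hasDerivAt (0 : ℂ) hcud0
    have hsnd : HasDerivAt g2 (fderiv ℂ h 0 ((0 : ℂ), (y : ℂ))).2 0 :=
      (hasFDerivAt_snd (𝕜 := ℂ) (E := ℂ) (F := ℂ)).comp_hasDerivAt (0 : ℂ) hcomp
    rw [iteratedDeriv_one, hsnd.deriv, hD]
    simp
  -- the coefficient of the first component
  have ck : circleAverage (fun ζ => (ζ ^ k)⁻¹ * g1 ζ) 0 1 = coef1 k h * (y : ℂ) ^ k + p * z1 := by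
    have hyc : (y : ℂ) ≠ 0 := by exact_mod_cast hy.ne'
    have s1 : circleAverage (fun ζ => (ζ ^ k)⁻¹ * u ζ) 0 1 = coef1 k h * (y : ℂ) ^ k := by
      have hfy : DifferentiableOn ℂ (fun w : ℂ => (h (0, w)).1) (closedBall 0 y) := by
        intro w hw
        have hw' : ‖w‖ ≤ y := by simpa using hw
        have hm : ((0 : ℂ), w) ∈ ball2 := by
          show ‖(0 : ℂ)‖ ^ 2 + ‖w‖ ^ 2 < 1
          rw [norm_zero]
          nlinarith [sq_nonneg ‖z1‖, norm_nonneg w]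
        have hd : DifferentiableAt ℂ (fun w : ℂ => ((0 : ℂ), w)) w := by fun_prop
        exact (((han _ hm).differentiableAt.comp w hd).fst).differentiableWithinAt
      have a1 := avg_coef hy k hfy
      rw [circleAverage_eq_circleAverage_zero_one] at a1
      have e : (fun z : ℂ => (((y : ℂ) * z + 0) ^ k)⁻¹ * (h (0, (y : ℂ) * z + 0)).1) =
          fun z => ((y : ℂ) ^ k)⁻¹ • ((z ^ k)⁻¹ * u z) := by
        funext z
        simp only [add_zero, hu, hcv, smul_eq_mul, mul_pow, mul_inv]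
        rw [mul_comm (y : ℂ) z]
        ring
      rw [e, circleAverage_fun_smul, smul_eq_mul] at a1
      rw [coef1, ← a1]
      have : (y : ℂ) ^ k ≠ 0 := pow_ne_zero _ hyc
      field_simp
    have s2 : circleAverage (fun ζ => (ζ ^ k)⁻¹ * (g1 ζ - u ζ)) 0 1 = p * z1 := by
      classical
      set K : ℂ → ℂ := fun ζ => if ζ = 0 then (p : ℂ) * z1 else (ζ ^ k)⁻¹ * (g1 ζ - u ζ) with hK
      have hcongr : circleAverage (fun ζ => (ζ ^ k)⁻¹ * (g1 ζ - u ζ)) 0 1 = circleAverage K 0 1 := by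
        apply circleAverage_congr_sphere
        intro z hz
        have hz0 : z ≠ 0 := by
          intro h
          rw [h] at hz
          simp at hz
        simp only [hK, if_neg hz0]
      have hKne : ∀ z : ℂ, z ≠ 0 → ‖z‖ ≤ 1 → DifferentiableAt ℂ K z := by
        intro z hz0 hz1
        have hev : K =ᶠ[nhds z] fun ζ => (ζ ^ k)⁻¹ * (g1 ζ - u ζ) := by
          filter_upwards [isOpen_ne.mem_nhds hz0] with w hw
          simp only [hK]
          rw [if_neg hw]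
        rw [hev.differentiableAt_iff]
        have a1 : DifferentiableAt ℂ (fun ζ : ℂ => (ζ ^ k)⁻¹) z :=
          ((differentiableAt_id.pow k).inv (pow_ne_zero k hz0))
        exact a1.mul ((dg1 z hz1).sub (du z hz1))
      have hK0 : ContinuousAt K 0 := by
        rw [continuousAt_iff_punctured_nhds]
        have hK00 : K 0 = p * z1 := by simp [hK]
        rw [hK00]
        have hlit := hstrict.isLittleO
        have htend : Filter.Tendsto (fun ζ : ℂ => (cu ζ, cv ζ)) (nhds 0) (nhds ((0 : ℂ × ℂ), (0 : ℂ × ℂ))) := by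
          have hc : Continuous (fun ζ : ℂ => (cu ζ, cv ζ)) := hcud.continuous.prodMk hcvd.continuous
          have := hc.tendsto 0
          have e : (cu 0, cv 0) = ((0 : ℂ × ℂ), (0 : ℂ × ℂ)) := by
            simp [hcu, hcv, zero_pow (show k ≠ 0 by omega)]
          rwa [e] at this
        have hlit2 := (hlit.comp_tendsto htend).mono (nhdsWithin_le_nhds (s := {(0 : ℂ)}ᶜ))
        have hO : (fun ζ : ℂ => K ζ - p * z1) =o[nhdsWithin 0 {(0 : ℂ)}ᶜ] (fun _ : ℂ => (1 : ℝ)) := by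
          rw [Asymptotics.isLittleO_iff] at hlit2 ⊢
          intro c hc
          have hc' : 0 < c / (‖z1‖ + 1) := by positivity
          filter_upwards [hlit2 hc', self_mem_nhdsWithin] with ζ h1 hζ
          have hζ0 : ζ ≠ 0 := hζ
          have hzk : ζ ^ k ≠ 0 := pow_ne_zero k hζ0
          simp only [Function.comp_apply] at h1
          have hdiff : cu ζ - cv ζ = (ζ ^ k * z1, 0) := by simp [hcu, hcv]
          rw [hdiff, hD] at h1
          have h2 : ‖g1 ζ - u ζ - (p : ℂ) * (ζ ^ k * z1)‖ ≤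
              ‖h (cu ζ) - h (cv ζ) - ((p : ℂ) * (ζ ^ k * z1), (q : ℂ) * 0)‖ :=
            norm_fst_le (h (cu ζ) - h (cv ζ) - ((p : ℂ) * (ζ ^ k * z1), (q : ℂ) * 0))
          have h3 : ‖((ζ ^ k * z1, (0 : ℂ)) : ℂ × ℂ)‖ = ‖ζ ^ k‖ * ‖z1‖ := by
            rw [Prod.norm_def]
            simp only [norm_zero, norm_mul]
            exact max_eq_left (by positivity)
          rw [h3] at h1
          have e : K ζ - p * z1 = (ζ ^ k)⁻¹ * (g1 ζ - u ζ - (p : ℂ) * (ζ ^ k * z1)) := by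
            simp only [hK, if_neg hζ0]
            field_simp
          rw [e, norm_mul, norm_inv, norm_one, mul_one]
          have h4 : 0 < ‖ζ ^ k‖ := norm_pos_iff.2 hzk
          rw [inv_mul_le_iff₀ h4]
          calc _ ≤ _ := h2
            _ ≤ _ := h1
            _ ≤ ‖ζ ^ k‖ * c := by
                have : c / (‖z1‖ + 1) * ‖z1‖ ≤ c := by
                  rw [div_mul_eq_mul_div, div_le_iff₀ (by positivity)]
                  nlinarith [norm_nonneg z1]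
                nlinarith
        rw [Asymptotics.isLittleO_one_iff] at hO
        have := hO.add_const ((p : ℂ) * z1)
        simpa using this
      rw [hcongr]
      have hKc : ContinuousOn K (closedBall 0 |1|) := by
        intro z hz
        have hz1 : ‖z‖ ≤ 1 := by simpa using hz
        by_cases hz0 : z = 0
        · rw [hz0]; exact hK0.continuousWithinAt
        · exact (hKne z hz0 hz1).continuousAt.continuousWithinAt
      have := circleAverage_of_differentiable_on_off_countable (f := K) (c := 0) (R := 1)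
        (Set.countable_singleton (0 : ℂ)) hKc (fun z hz => hKne z hz.2 (by
          have : ‖z‖ < 1 := by simpa using hz.1
          exact this.le))
      rw [this]
      simp [hK]
    have e : (fun ζ => (ζ ^ k)⁻¹ * g1 ζ) = (fun ζ => (ζ ^ k)⁻¹ * u ζ + (ζ ^ k)⁻¹ * (g1 ζ - u ζ)) := by
      funext ζ; ring
    rw [e, circleAverage_fun_add (cint k (on1 du)) (cint k (f := fun ζ => g1 ζ - u ζ)
      (on1 fun ζ hζ => (dg1 ζ hζ).sub (du ζ hζ))), s1, s2]
  -- the average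
  set F : ℂ → ℂ := fun ζ => conj z1 * ((ζ ^ k)⁻¹ * g1 ζ) + (y : ℂ) * ((ζ ^ 1)⁻¹ * g2 ζ) with hF
  have i1 : CircleIntegrable (fun ζ => conj z1 * ((ζ ^ k)⁻¹ * g1 ζ)) 0 1 := by
    exact (cint k (on1 dg1)).const_mul _
  have i2 : CircleIntegrable (fun ζ => (y : ℂ) * ((ζ ^ 1)⁻¹ * g2 ζ)) 0 1 := by
    exact (cint 1 (on1 dg2)).const_mul _
  have hFavg : circleAverage F 0 1 = conj z1 * (coef1 k h * (y : ℂ) ^ k + p * z1) + y * (q * y) := by
    rw [hF, circleAverage_fun_add i1 i2]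
    have a1 : circleAverage (fun ζ => conj z1 * ((ζ ^ k)⁻¹ * g1 ζ)) 0 1 =
        conj z1 * circleAverage (fun ζ => (ζ ^ k)⁻¹ * g1 ζ) 0 1 :=
      circleAverage_fun_smul (a := conj z1)
    have a2 : circleAverage (fun ζ => (y : ℂ) * ((ζ ^ 1)⁻¹ * g2 ζ)) 0 1 =
        (y : ℂ) * circleAverage (fun ζ => (ζ ^ 1)⁻¹ * g2 ζ) 0 1 :=
      circleAverage_fun_smul (a := (y : ℂ))
    rw [a1, a2, ck, avg_coef one_pos 1 (on1 dg2), c1]
  have hre : 0 ≤ (circleAverage F 0 1).re := by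
    have hcomm := Complex.reCLM.circleAverage_comp_comm (f := F) (c := 0) (R := 1) (i1.add i2)
    have : (circleAverage F 0 1).re = circleAverage (Complex.reCLM ∘ F) 0 1 := by
      rw [hcomm]; rfl
    rw [this]
    apply circleAverage_nonneg_of_nonneg
    intro ζ hζ
    have hζ1 : ‖ζ‖ = 1 := by simpa using hζ
    have hζ0 : ζ ≠ 0 := by
      intro h; rw [h, norm_zero] at hζ1; norm_num at hζ1
    have hconj : conj ζ = ζ⁻¹ := by
      rw [Complex.inv_def, Complex.normSq_eq_norm_sq, hζ1]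
      simp
    have hne : cu ζ ≠ 0 := by
      intro h
      have := congrArg Prod.snd h
      simp only [hcu, Prod.snd_zero, mul_eq_zero, Complex.ofReal_eq_zero] at this
      rcases this with h | h
      · exact hζ0 h
      · exact hy.ne' h
    have hp := hpos (cu ζ) (hmem ζ hζ1.le) hne
    have e : F ζ = (h (cu ζ)).1 * conj (cu ζ).1 + (h (cu ζ)).2 * conj (cu ζ).2 := by
      simp only [hF, hcu, map_mul, map_pow, hconj, Complex.conj_ofReal, pow_one, inv_pow]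
      ring
    show 0 ≤ (F ζ).re
    rw [e]
    exact hp.le
  rw [hFavg] at hre
  have e1 : (conj z1 * (coef1 k h * (y : ℂ) ^ k + p * z1) + y * (q * y)).re =
      p * ‖z1‖ ^ 2 + q * y ^ 2 + (conj z1 * coef1 k h).re * y ^ k := by
    have e2 : conj z1 * (coef1 k h * (y : ℂ) ^ k + p * z1) + y * (q * y) =
        (conj z1 * coef1 k h) * ((y ^ k : ℝ) : ℂ) + ((p * ‖z1‖ ^ 2 + q * y ^ 2 : ℝ) : ℂ) := by
      have e3 : conj z1 * z1 = ((‖z1‖ ^ 2 : ℝ) : ℂ) := by
        rw [mul_comm, Complex.mul_conj, Complex.normSq_eq_norm_sq]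
      push_cast at e3 ⊢
      linear_combination (p : ℂ) * e3
    rw [e2, Complex.add_re, Complex.ofReal_re, Complex.re_mul_ofReal]
    ring
  rw [e1] at hre
  exact hre

end

end Pool.Agent.H6.CC
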