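import Pool.Agent.H6.CC2

namespace Pool.Agent.H6.CC

open Pool.Agent.H6.CCDefs ComplexConjugate Metric Real

variable {p q : ℝ} {k : ℕ} {h : ℂ × ℂ → ℂ × ℂ}

/-- the upper bound -/
theorem upper (hp : 0 < p) (hq : 0 < q) (hk : 2 ≤ k) (hh : h ∈ NA p q) :
    ‖coef1 k h‖ ≤ bound p q k := by
  have hb := bound_pos hp hq hk
  obtain ⟨t0, t1, _⟩ := tstar_spec hp hq hk
  set c := coef1 k h with hc
  set t := tstar p q k with ht
  by_cases hc0 : c = 0
  · rw [hc0, norm_zero]; exact hb.le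
  have hcn : 0 < ‖c‖ := norm_pos_iff.2 hc0
  set x := Real.sqrt (1 - t) with hx
  set y := Real.sqrt t with hy
  have hx0 : 0 < x := Real.sqrt_pos.2 (by linarith)
  have hy0 : 0 < y := Real.sqrt_pos.2 t0
  have hxx : x ^ 2 = 1 - t := Real.sq_sqrt (by linarith)
  have hyy : y ^ 2 = t := Real.sq_sqrt t0.le
  have key : ∀ r : ℝ, 0 < r → r < 1 →
      ‖c‖ * (r ^ (k + 1) * (x * y ^ k)) ≤ r ^ 2 * (p * (1 - t) + q * t) := by
    intro r r0 r1
    set z1 : ℂ := -((r * x / ‖c‖ : ℝ) : ℂ) * c with hz1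
    have hz1n : ‖z1‖ = r * x := by
      rw [hz1, norm_mul, norm_neg, Complex.norm_real, Real.norm_of_nonneg (by positivity)]
      field_simp
    have hlt : ‖z1‖ ^ 2 + (r * y) ^ 2 < 1 := by
      rw [hz1n, mul_pow, mul_pow, hxx, hyy]
      nlinarith
    have h1 := core hk hh z1 (mul_pos r0 hy0) hlt
    have h2 : (conj z1 * c).re = -(r * x * ‖c‖) := by
      have : conj z1 * c = ((-(r * x * ‖c‖) : ℝ) : ℂ) := by
        rw [hz1]
        simp only [map_mul, map_neg, Complex.conj_ofReal]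
        have e : conj c * c = ((‖c‖ ^ 2 : ℝ) : ℂ) := by
          rw [mul_comm, Complex.mul_conj, Complex.normSq_eq_norm_sq]
        rw [mul_assoc, e, ← Complex.ofReal_neg, ← Complex.ofReal_mul]
        congr 1
        field_simp
      rw [this, Complex.ofReal_re]
    rw [← hc, h2, hz1n, mul_pow, mul_pow, mul_pow, hxx, hyy] at h1
    have e2 : ‖c‖ * (r ^ (k + 1) * (x * y ^ k)) = r * x * ‖c‖ * (r ^ k * y ^ k) := by
      rw [pow_succ]; ring
    rw [e2]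
    linarith
  have lim : ‖c‖ * ((1 : ℝ) ^ (k + 1) * (x * y ^ k)) ≤ (1 : ℝ) ^ 2 * (p * (1 - t) + q * t) := by
    have c1 : Continuous (fun r : ℝ => ‖c‖ * (r ^ (k + 1) * (x * y ^ k))) := by fun_prop
    have c2 : Continuous (fun r : ℝ => r ^ 2 * (p * (1 - t) + q * t)) := by fun_prop
    have l1 := (c1.tendsto 1).mono_left (nhdsWithin_le_nhds (s := Set.Iio (1 : ℝ)))
    have l2 := (c2.tendsto 1).mono_left (nhdsWithin_le_nhds (s := Set.Iio (1 : ℝ)))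
    refine le_of_tendsto_of_tendsto l1 l2 ?_
    filter_upwards [Ioo_mem_nhdsLT (show (0 : ℝ) < 1 by norm_num)] with r hr
    exact key r hr.1 hr.2
  rw [one_pow, one_mul, one_pow, one_mul] at lim
  unfold bound
  rw [le_div_iff₀ (by positivity)]
  exact lim

/-- the extremal map -/
noncomputable def ext (p q : ℝ) (k : ℕ) : ℂ × ℂ → ℂ × ℂ := fun z =>
  ((p : ℂ) * z.1 + (bound p q k : ℂ) * z.2 ^ k, (q : ℂ) * z.2)

theorem ext_coef (hk : 2 ≤ k) : coef1 k (ext p q k) = (bound p q k : ℂ) := by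
  have e : (fun w : ℂ => (ext p q k (0, w)).1) = fun w : ℂ => (bound p q k : ℂ) * w ^ k := by
    funext w
    simp [ext]
  rw [coef1, e, iteratedDeriv_const_mul_field, iteratedDeriv_pow]
  simp only [Nat.sub_self, pow_zero, mul_one, Nat.descFactorial_self]
  have : (k.factorial : ℂ) ≠ 0 := by exact_mod_cast k.factorial_ne_zero
  field_simp

theorem ext_mem (hp : 0 < p) (hq : 0 < q) (hk : 2 ≤ k) : ext p q k ∈ NA p q := by
  have hd : Differentiable ℂ (ext p q k) := by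
    unfold ext; fun_prop
  refine ⟨?_, ?_, ?_, ?_⟩
  · intro z _
    have : AnalyticAt ℂ (fun z : ℂ × ℂ => ((p : ℂ) * z.1 + (bound p q k : ℂ) * z.2 ^ k, (q : ℂ) * z.2)) z :=
      ((analyticAt_const.mul analyticAt_fst).add (analyticAt_const.mul (analyticAt_snd.pow k))).prod
        (analyticAt_const.mul analyticAt_snd)
    exact this
  · simp [ext, zero_pow (show k ≠ 0 by omega)]
  · intro v
    have h1 : HasFDerivAt (fun z : ℂ × ℂ => z.1) (ContinuousLinearMap.fst ℂ ℂ ℂ) 0 := hasFDerivAt_fst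
    have h2 : HasFDerivAt (fun z : ℂ × ℂ => z.2) (ContinuousLinearMap.snd ℂ ℂ ℂ) 0 := hasFDerivAt_snd
    have h3 := h2.pow k
    have h4 := ((h1.const_mul (p : ℂ)).add (h3.const_mul (bound p q k : ℂ))).prodMk (h2.const_mul (q : ℂ))
    have h5 : HasFDerivAt (ext p q k) _ 0 := h4
    rw [h5.fderiv]
    simp [zero_pow (show k - 1 ≠ 0 by omega)]
  · intro z hz hz0
    have hxy : 0 < ‖z.1‖ ^ 2 + ‖z.2‖ ^ 2 := by
      by_contra hcon
      push Not at hcon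
      have a1 : ‖z.1‖ = 0 := by nlinarith [sq_nonneg ‖z.1‖, sq_nonneg ‖z.2‖]
      have a2 : ‖z.2‖ = 0 := by nlinarith [sq_nonneg ‖z.1‖, sq_nonneg ‖z.2‖]
      exact hz0 (Prod.ext (norm_eq_zero.1 a1) (norm_eq_zero.1 a2))
    have h1 := min_bound' hp hq hk (norm_nonneg z.1) (norm_nonneg z.2) hxy hz
    have e : (ext p q k z).1 * conj z.1 + (ext p q k z).2 * conj z.2 =
        ((p * ‖z.1‖ ^ 2 + q * ‖z.2‖ ^ 2 : ℝ) : ℂ) + (bound p q k : ℂ) * (z.2 ^ k * conj z.1) := by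
      have e1 : z.1 * conj z.1 = ((‖z.1‖ ^ 2 : ℝ) : ℂ) := by
        rw [Complex.mul_conj, Complex.normSq_eq_norm_sq]
      have e2 : z.2 * conj z.2 = ((‖z.2‖ ^ 2 : ℝ) : ℂ) := by
        rw [Complex.mul_conj, Complex.normSq_eq_norm_sq]
      simp only [ext]
      push_cast at e1 e2 ⊢
      linear_combination (p : ℂ) * e1 + (q : ℂ) * e2
    rw [e, Complex.add_re, Complex.ofReal_re, Complex.re_ofReal_mul]
    have h2 : -(‖z.1‖ * ‖z.2‖ ^ k) ≤ (z.2 ^ k * conj z.1).re := by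
      have a1 := Complex.abs_re_le_norm (z.2 ^ k * conj z.1)
      rw [norm_mul, norm_pow, RCLike.norm_conj] at a1
      have := (abs_le.1 a1).1
      rw [mul_comm] at this
      linarith
    have hb := bound_pos hp hq hk
    nlinarith

/-- swapping the coordinates -/
theorem swap_mem (hh : h ∈ NA p q) : (fun z => (h z.swap).swap) ∈ NA q p := by
  obtain ⟨han, h0, hD, hpos⟩ := hh
  have hmem : ∀ z : ℂ × ℂ, z ∈ ball2 → z.swap ∈ ball2 := by
    intro z hz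
    show ‖z.2‖ ^ 2 + ‖z.1‖ ^ 2 < 1
    rw [add_comm]; exact hz
  have hsw : ∀ z : ℂ × ℂ, AnalyticAt ℂ (fun z : ℂ × ℂ => (z.2, z.1)) z := by
    intro z; exact analyticAt_snd.prod analyticAt_fst
  refine ⟨?_, ?_, ?_, ?_⟩
  · intro z hz
    have a1 : AnalyticAt ℂ (fun z : ℂ × ℂ => h (z.2, z.1)) z :=
      AnalyticAt.comp' (g := h) (f := fun z : ℂ × ℂ => (z.2, z.1)) (han (z.2, z.1) (hmem z hz)) (hsw z)
    have a2 : AnalyticAt ℂ (fun z : ℂ × ℂ => (((h (z.2, z.1)).2, (h (z.2, z.1)).1) : ℂ × ℂ)) z :=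
      AnalyticAt.comp' (g := fun z : ℂ × ℂ => (z.2, z.1)) (f := fun z : ℂ × ℂ => h (z.2, z.1))
        (hsw (h (z.2, z.1))) a1
    exact a2
  · show (h (0 : ℂ × ℂ).swap).swap = 0
    have : (0 : ℂ × ℂ).swap = 0 := rfl
    rw [this, h0, this]
  · intro v
    have h0mem : (0 : ℂ × ℂ) ∈ ball2 := by simp [ball2]
    have d0 : HasFDerivAt h (fderiv ℂ h 0) 0 := (han 0 h0mem).differentiableAt.hasFDerivAt
    have L := (ContinuousLinearEquiv.prodComm ℂ ℂ ℂ)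
    have d1 : HasFDerivAt (fun z : ℂ × ℂ => (ContinuousLinearEquiv.prodComm ℂ ℂ ℂ) z)
      ((ContinuousLinearEquiv.prodComm ℂ ℂ ℂ : (ℂ × ℂ) ≃L[ℂ] (ℂ × ℂ)) : (ℂ × ℂ) →L[ℂ] (ℂ × ℂ)) 0 :=
      ContinuousLinearEquiv.hasFDerivAt _
    have d0' : HasFDerivAt h (fderiv ℂ h 0) ((ContinuousLinearEquiv.prodComm ℂ ℂ ℂ) (0 : ℂ × ℂ)) := by
      rw [map_zero]; exact d0
    have d2 := d0'.comp (0 : ℂ × ℂ) d1
    have d3 : HasFDerivAt (fun z : ℂ × ℂ => (ContinuousLinearEquiv.prodComm ℂ ℂ ℂ) z)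
      ((ContinuousLinearEquiv.prodComm ℂ ℂ ℂ : (ℂ × ℂ) ≃L[ℂ] (ℂ × ℂ)) : (ℂ × ℂ) →L[ℂ] (ℂ × ℂ))
      (h ((ContinuousLinearEquiv.prodComm ℂ ℂ ℂ) (0 : ℂ × ℂ))) :=
      ContinuousLinearEquiv.hasFDerivAt _
    have d4 := HasFDerivAt.comp (g := fun z : ℂ × ℂ => (ContinuousLinearEquiv.prodComm ℂ ℂ ℂ) z)
      (f := h ∘ ⇑(ContinuousLinearEquiv.prodComm ℂ ℂ ℂ)) (0 : ℂ × ℂ) d3 d2
    have d5 : HasFDerivAt (fun z : ℂ × ℂ => (h z.swap).swap) _ 0 := d4
    rw [d5.fderiv]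
    simp only [ContinuousLinearMap.comp_apply]
    show (fderiv ℂ h 0 v.swap).swap = _
    rw [hD]
    rfl
  · intro z hz hz0
    have hne : z.swap ≠ 0 := by
      intro h
      apply hz0
      have := congrArg Prod.swap h
      simpa using this
    have := hpos z.swap (hmem z hz) hne
    show 0 < ((h z.swap).2 * conj z.1 + (h z.swap).1 * conj z.2).re
    rw [add_comm]
    exact this

theorem swap_coef2 : coef2 k (fun z => (h z.swap).swap) = coef1 k h := rfl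

theorem swap_coef1 : coef1 k (fun z => (h z.swap).swap) = coef2 k h := rfl

theorem greatest1 (hp : 0 < p) (hq : 0 < q) (hk : 2 ≤ k) :
    IsGreatest {r : ℝ | ∃ h ∈ NA p q, r = ‖coef1 k h‖} (bound p q k) := by
  refine ⟨⟨ext p q k, ext_mem hp hq hk, ?_⟩, ?_⟩
  · rw [ext_coef hk, Complex.norm_real, Real.norm_of_nonneg (bound_pos hp hq hk).le]
  · rintro r ⟨h, hh, rfl⟩
    exact upper hp hq hk hh

theorem greatest2 (hp : 0 < p) (hq : 0 < q) (hk : 2 ≤ k) :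
    IsGreatest {r : ℝ | ∃ h ∈ NA p q, r = ‖coef2 k h‖} (bound q p k) := by
  obtain ⟨⟨h, hh, hb⟩, hub⟩ := greatest1 hq hp hk
  refine ⟨⟨fun z => (h z.swap).swap, swap_mem hh, ?_⟩, ?_⟩
  · rw [swap_coef2]; exact hb
  · rintro r ⟨h, hh, rfl⟩
    exact hub ⟨_, swap_mem hh, by rw [swap_coef1]⟩

theorem tstar_one (hk : 2 ≤ k) : tstar 1 1 k = k / (k + 1) := by
  have hk' : (2 : ℝ) ≤ k := by exact_mod_cast hk
  unfold tstar
  have e : ((k : ℝ) + 1) * 1 - (k - 2) * (1 - 1) = k + 1 := by ring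
  have e2 : ((k : ℝ) + 1) ^ 2 + 4 * k * (k - 1) * 1 * (1 - 1) = (k + 1) ^ 2 := by ring
  rw [e, e2, Real.sqrt_sq (by linarith)]
  field_simp
  ring

theorem bound_one (hk : 2 ≤ k) : bound 1 1 k = Real.sqrt ((k + 1 : ℝ) ^ (k + 1) / k ^ k) := by
  have hk' : (2 : ℝ) ≤ k := by exact_mod_cast hk
  have hk0 : (0 : ℝ) < k := by linarith
  unfold bound
  rw [tstar_one hk]
  have e1 : 1 - (k : ℝ) / (k + 1) = 1 / (k + 1) := by field_simp; ring
  rw [e1, one_mul, one_mul, ← add_div, add_comm (1 : ℝ), div_self (by positivity)]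
  symm
  rw [Real.sqrt_eq_iff_mul_self_eq (by positivity) (by positivity)]
  rw [div_mul_div_comm, one_mul]
  have s1 : Real.sqrt (1 / ((k : ℝ) + 1)) * Real.sqrt (1 / ((k : ℝ) + 1)) = 1 / (k + 1) :=
    Real.mul_self_sqrt (by positivity)
  have s2 : Real.sqrt ((k : ℝ) / (k + 1)) * Real.sqrt ((k : ℝ) / (k + 1)) = k / (k + 1) :=
    Real.mul_self_sqrt (by positivity)
  have e3 : Real.sqrt (1 / ((k : ℝ) + 1)) * Real.sqrt ((k : ℝ) / (k + 1)) ^ k *
      (Real.sqrt (1 / ((k : ℝ) + 1)) * Real.sqrt ((k : ℝ) / (k + 1)) ^ k) =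
      (Real.sqrt (1 / ((k : ℝ) + 1)) * Real.sqrt (1 / ((k : ℝ) + 1))) *
      (Real.sqrt ((k : ℝ) / (k + 1)) * Real.sqrt ((k : ℝ) / (k + 1))) ^ k := by
    rw [mul_pow]; ring
  rw [e3, s1, s2, div_pow, pow_succ]
  field_simp

end Pool.Agent.H6.CC
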