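import Pool.Agent.H6.CC3

namespace Pool.Agent.H6.CC

open Pool.Agent.H6.CCDefs

theorem main :
    (∀ (lam : ℝ) (k : ℕ), 1 ≤ lam → lam < 2 → 2 ≤ k →
      (0 < tstar lam 1 k ∧ tstar lam 1 k < 1 ∧
        IsGreatest {r : ℝ | ∃ h ∈ NA lam 1, r = ‖coef1 k h‖} (bound lam 1 k)) ∧
      (0 < tstar 1 lam k ∧ tstar 1 lam k < 1 ∧
        IsGreatest {r : ℝ | ∃ h ∈ NA lam 1, r = ‖coef2 k h‖} (bound 1 lam k))) ∧
    (∀ k : ℕ, 2 ≤ k → bound 1 1 k = Real.sqrt ((k + 1 : ℝ) ^ (k + 1) / (k : ℝ) ^ k)) := by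
  refine ⟨fun lam k h1 _ hk => ?_, fun k hk => bound_one hk⟩
  have h0 : 0 < lam := by linarith
  obtain ⟨a1, a2, _⟩ := tstar_spec h0 one_pos hk
  obtain ⟨b1, b2, _⟩ := tstar_spec one_pos h0 hk
  exact ⟨⟨a1, a2, greatest1 h0 one_pos hk⟩, ⟨b1, b2, greatest2 h0 one_pos hk⟩⟩

end Pool.Agent.H6.CC
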