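import Mathlib

/-!
Caratheodory-type families on the Euclidean unit ball of the two-dimensional complex space.
-/

namespace Pool.Agent.H6.CCDefs

open ComplexConjugate

/-- The open Euclidean unit ball of `ℂ²`. -/
def ball2 : Set (ℂ × ℂ) := {z | ‖z.1‖ ^ 2 + ‖z.2‖ ^ 2 < 1}

/-- The family `N_A` for `A = diag(p, q)`: holomorphic maps `h` of the unit ball with `h(0) = 0`,
`Dh(0) = A` and `Re ⟨h(z), z⟩ > 0` for `z ≠ 0`. -/
def NA (p q : ℝ) : Set (ℂ × ℂ → ℂ × ℂ) :=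
  {h | AnalyticOnNhd ℂ h ball2 ∧ h 0 = 0 ∧
    (∀ v : ℂ × ℂ, fderiv ℂ h 0 v = ((p : ℂ) * v.1, (q : ℂ) * v.2)) ∧
    ∀ z ∈ ball2, z ≠ 0 → 0 < ((h z).1 * conj z.1 + (h z).2 * conj z.2).re}

/-- The coefficient of `z₂^k` in the first component `h₁`. -/
noncomputable def coef1 (k : ℕ) (h : ℂ × ℂ → ℂ × ℂ) : ℂ :=
  iteratedDeriv k (fun w : ℂ => (h (0, w)).1) 0 / (k.factorial : ℂ)

/-- The coefficient of `z₁^k` in the second component `h₂`. -/
noncomputable def coef2 (k : ℕ) (h : ℂ × ℂ → ℂ × ℂ) : ℂ :=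
  iteratedDeriv k (fun w : ℂ => (h (w, 0)).2) 0 / (k.factorial : ℂ)

/-- The explicit minimum point. -/
noncomputable def tstar (p q : ℝ) (k : ℕ) : ℝ :=
  2 * k * p / (((k + 1) * p - (k - 2) * (q - p)) +
    Real.sqrt (((k + 1) * p - (k - 2) * (q - p)) ^ 2 + 4 * k * (k - 1) * p * (q - p)))

/-- The explicit sharp bound, `(p (1 - t) + q t) / ((1 - t)^{1/2} t^{k/2})` at `t = tstar`. -/
noncomputable def bound (p q : ℝ) (k : ℕ) : ℝ :=
  (p * (1 - tstar p q k) + q * tstar p q k) /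
    (Real.sqrt (1 - tstar p q k) * (Real.sqrt (tstar p q k)) ^ k)

end Pool.Agent.H6.CCDefs
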