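import Mathlib

namespace Pool.Agent.H6.CLP

open Finset

abbrev V (n : ℕ) := Fin n → ZMod 2

/-- monomial function -/
def chi {n : ℕ} (S : Finset (Fin n)) (x : V n) : ZMod 2 := ∏ i ∈ S, x i

lemma zpow_eq (x : ZMod 2) (m : ℕ) (hm : m ≠ 0) : x ^ m = x := by
  have h : ∀ x : ZMod 2, x = 0 ∨ x = 1 := by decide
  rcases h x with rfl | rfl
  · exact zero_pow hm
  · exact one_pow m

lemma eval_eq {n : ℕ} (p : MvPolynomial (Fin n) (ZMod 2)) (x : V n) :
    MvPolynomial.eval x p = ∑ m ∈ p.support, p.coeff m * chi m.support x := by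
  rw [MvPolynomial.eval_eq]
  refine Finset.sum_congr rfl fun m _ => ?_
  congr 1
  unfold chi
  refine Finset.prod_congr rfl fun i hi => ?_
  exact zpow_eq _ _ (Finsupp.mem_support_iff.mp hi)

lemma card_support_le {n : ℕ} (m : Fin n →₀ ℕ) : m.support.card ≤ m.sum fun _ e => e := by
  rw [Finsupp.sum, Finset.card_eq_sum_ones]
  exact Finset.sum_le_sum fun i hi => Nat.one_le_iff_ne_zero.mpr (Finsupp.mem_support_iff.mp hi)

lemma chi_add {n : ℕ} (S : Finset (Fin n)) (a b : V n) :
    chi S (a + b) = ∑ I ∈ S.powerset, chi I a * chi (S \ I) b := by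
  unfold chi
  simp only [Pi.add_apply]
  rw [Finset.prod_add]

/-- small sets -/
def sm (n s : ℕ) : Finset (Finset (Fin n)) := Finset.univ.filter fun I => I.card < s

lemma card_sm (n s : ℕ) : (sm n s).card = ∑ i ∈ range s, n.choose i := by
  have : sm n s = (range s).biUnion fun i => Finset.powersetCard i (Finset.univ : Finset (Fin n)) := by
    ext I
    simp [sm, Finset.mem_powersetCard]
  rw [this, Finset.card_biUnion]
  · simp
  · intro i _ j _ hij
    rw [Function.onFun, Finset.disjoint_left]
    intro I hI hJ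
    rw [Finset.mem_powersetCard] at hI hJ
    exact hij (hI.2.symm.trans hJ.2)

/-- decomposable functions of two variables -/
def Dec (n s t : ℕ) (f : V n → V n → ZMod 2) : Prop :=
  ∃ (g : Finset (Fin n) → V n → ZMod 2) (h : Finset (Fin n) → V n → ZMod 2),
    ∀ a b, f a b = ∑ I ∈ sm n s, chi I a * g I b + ∑ J ∈ sm n t, h J a * chi J b

lemma Dec.zero (n s t : ℕ) : Dec n s t (fun _ _ => 0) :=
  ⟨fun _ _ => 0, fun _ _ => 0, by simp⟩

lemma Dec.add {n s t : ℕ} {f f' : V n → V n → ZMod 2} (h : Dec n s t f) (h' : Dec n s t f') :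
    Dec n s t (fun a b => f a b + f' a b) := by
  obtain ⟨g, k, e⟩ := h
  obtain ⟨g', k', e'⟩ := h'
  refine ⟨fun I b => g I b + g' I b, fun J a => k J a + k' J a, fun a b => ?_⟩
  simp only [e, e', mul_add, add_mul, Finset.sum_add_distrib]
  ring

lemma Dec.smul {n s t : ℕ} {f : V n → V n → ZMod 2} (c : ZMod 2) (h : Dec n s t f) :
    Dec n s t (fun a b => c * f a b) := by
  obtain ⟨g, k, e⟩ := h
  refine ⟨fun I b => c * g I b, fun J a => c * k J a, fun a b => ?_⟩
  simp only [e, mul_add, Finset.mul_sum]
  congr 1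
  · exact Finset.sum_congr rfl fun I _ => by ring
  · exact Finset.sum_congr rfl fun I _ => by ring

lemma Dec.sum {n s t : ℕ} {ι : Type*} (T : Finset ι) (f : ι → V n → V n → ZMod 2)
    (h : ∀ i ∈ T, Dec n s t (f i)) : Dec n s t (fun a b => ∑ i ∈ T, f i a b) := by
  classical
  induction T using Finset.induction_on with
  | empty => simpa using Dec.zero n s t
  | insert i T hi ih =>
    simp only [Finset.sum_insert hi]
    exact (h i (Finset.mem_insert_self _ _)).add
      (ih fun j hj => h j (Finset.mem_insert_of_mem hj))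

lemma Dec.left {n s t : ℕ} (I J : Finset (Fin n)) (hI : I.card < s) :
    Dec n s t (fun a b => chi I a * chi J b) := by
  classical
  refine ⟨fun I' b => if I' = I then chi J b else 0, fun _ _ => 0, fun a b => ?_⟩
  have : I ∈ sm n s := by simp [sm, hI]
  simp [this]

lemma Dec.right {n s t : ℕ} (I J : Finset (Fin n)) (hJ : J.card < t) :
    Dec n s t (fun a b => chi I a * chi J b) := by
  classical
  refine ⟨fun _ _ => 0, fun J' a => if J' = J then chi I a else 0, fun a b => ?_⟩
  have : J ∈ sm n t := by simp [sm, hJ]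
  simp [this]

lemma Dec.poly {n s t d : ℕ} (hst : d < s + t) (p : MvPolynomial (Fin n) (ZMod 2))
    (hp : p.totalDegree ≤ d) : Dec n s t (fun a b => MvPolynomial.eval (a + b) p) := by
  have h1 : (fun a b : V n => MvPolynomial.eval (a + b) p) = fun a b =>
      ∑ m ∈ p.support, p.coeff m * ∑ I ∈ m.support.powerset, chi I a * chi (m.support \ I) b := by
    funext a b
    rw [eval_eq]
    refine Finset.sum_congr rfl fun m _ => ?_
    rw [chi_add]
  rw [h1]
  refine Dec.sum _ _ fun m hm => Dec.smul _ (Dec.sum _ _ fun I hI => ?_)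
  have hc : m.support.card ≤ d :=
    (card_support_le m).trans ((MvPolynomial.le_totalDegree hm).trans hp)
  rw [Finset.mem_powerset] at hI
  by_cases hs : I.card < s
  · exact Dec.left _ _ hs
  · refine Dec.right _ _ ?_
    have := Finset.card_sdiff_add_card_eq_card hI
    omega

lemma upper {n s t d : ℕ} (hst : d < s + t) (A : Finset (V n))
    (p : MvPolynomial (Fin n) (ZMod 2)) (hp : p.totalDegree ≤ d)
    (hA : ∀ a ∈ A, ∀ b ∈ A, a ≠ b → MvPolynomial.eval (a + b) p = 0)
    (h0 : MvPolynomial.eval 0 p ≠ 0) :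
    A.card ≤ ∑ i ∈ range s, n.choose i + ∑ i ∈ range t, n.choose i := by
  classical
  obtain ⟨g, h, e⟩ := Dec.poly hst p hp
  let L : (A → ZMod 2) →ₗ[ZMod 2] ((sm n s → ZMod 2) × (sm n t → ZMod 2)) :=
    { toFun := fun v => (fun I => ∑ a : A, v a * chi I.1 a.1, fun J => ∑ a : A, v a * h J.1 a.1)
      map_add' := by
        intro v w
        ext1
        · funext I
          simp [add_mul, Finset.sum_add_distrib]
        · funext I
          simp [add_mul, Finset.sum_add_distrib]
      map_smul' := by
        intro c v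
        ext1
        · funext I
          simp [Finset.mul_sum, mul_assoc]
        · funext I
          simp [Finset.mul_sum, mul_assoc] }
  have hL : Function.Injective L := by
    rw [injective_iff_map_eq_zero]
    intro v hv
    have hv1 : ∀ I ∈ sm n s, ∑ a : A, v a * chi I a.1 = 0 := by
      intro I hI
      have := congrFun (congrArg Prod.fst hv) ⟨I, hI⟩
      exact this
    have hv2 : ∀ J ∈ sm n t, ∑ a : A, v a * h J a.1 = 0 := by
      intro J hJ
      have := congrFun (congrArg Prod.snd hv) ⟨J, hJ⟩
      exact this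
    funext b
    have hb : ∑ a : A, v a * MvPolynomial.eval (a.1 + b.1) p = 0 := by
      have : ∀ a : A, v a * MvPolynomial.eval (a.1 + b.1) p =
          ∑ I ∈ sm n s, (v a * chi I a.1) * g I b.1 + ∑ J ∈ sm n t, (v a * h J a.1) * chi J b.1 := by
        intro a
        have := e a.1 b.1
        simp only at this
        rw [this, mul_add, Finset.mul_sum, Finset.mul_sum]
        congr 1
        · exact Finset.sum_congr rfl fun I _ => by ring
        · exact Finset.sum_congr rfl fun I _ => by ring
      simp only [this, Finset.sum_add_distrib]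
      rw [Finset.sum_comm, Finset.sum_comm (s := (Finset.univ : Finset A)) (t := sm n t)]
      simp only [← Finset.sum_mul]
      rw [Finset.sum_eq_zero (fun I hI => by rw [hv1 I hI, zero_mul]),
        Finset.sum_eq_zero (fun I hI => by rw [hv2 I hI, zero_mul]), add_zero]
    have hb2 : ∑ a : A, v a * MvPolynomial.eval (a.1 + b.1) p =
        v b * MvPolynomial.eval 0 p := by
      rw [Finset.sum_eq_single b]
      · have hbb : (b.1 + b.1 : V n) = 0 := by
          funext i
          exact CharTwo.add_self_eq_zero _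
        rw [hbb]
      · intro a _ hab
        rw [hA a.1 a.2 b.1 b.2 (fun h => hab (Subtype.ext h)), mul_zero]
      · simp
    rw [hb2] at hb
    rcases mul_eq_zero.mp hb with h' | h'
    · exact h'
    · exact absurd h' h0
  have := LinearMap.finrank_le_finrank_of_injective hL
  simp only [Module.finrank_fintype_fun_eq_card, Fintype.card_coe, Module.finrank_prod] at this
  rwa [card_sm, card_sm] at this

/-- the lower bound polynomial -/
noncomputable def q (n k : ℕ) : MvPolynomial (Fin n) (ZMod 2) :=
  ∑ S ∈ sm n (2 * k + 1), ∏ i ∈ S, MvPolynomial.X i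

/-- support of a vector -/
def supp {n : ℕ} (x : V n) : Finset (Fin n) := Finset.univ.filter fun i => x i ≠ 0

lemma q_deg (n k : ℕ) : (q n k).totalDegree ≤ 2 * k := by
  refine MvPolynomial.totalDegree_finsetSum_le fun S hS => ?_
  refine (MvPolynomial.totalDegree_finset_prod _ _).trans ?_
  simp only [MvPolynomial.totalDegree_X, Finset.sum_const, smul_eq_mul, mul_one]
  simp [sm] at hS
  omega

lemma chi_eq {n : ℕ} (S : Finset (Fin n)) (x : V n) :
    chi S x = if S ⊆ supp x then 1 else 0 := by
  split_ifs with h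
  · refine Finset.prod_eq_one fun i hi => ?_
    have h1 := h hi
    simp only [supp, Finset.mem_filter, Finset.mem_univ, true_and] at h1
    have h2 : ∀ x : ZMod 2, x = 0 ∨ x = 1 := by decide
    exact (h2 (x i)).resolve_left h1
  · rw [Finset.not_subset] at h
    obtain ⟨i, hi, hx⟩ := h
    refine Finset.prod_eq_zero hi ?_
    simpa [supp] using hx

lemma q_eval {n k : ℕ} (x : V n) : MvPolynomial.eval x (q n k) =
    ∑ S ∈ sm n (2 * k + 1), chi S x := by
  simp [q, chi, map_sum, map_prod]

lemma q_zero (n k : ℕ) : MvPolynomial.eval 0 (q n k) = 1 := by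
  rw [q_eval, Finset.sum_eq_single ∅]
  · simp [chi]
  · intro S _ hS
    obtain ⟨i, hi⟩ := Finset.nonempty_iff_ne_empty.mpr hS
    exact Finset.prod_eq_zero hi rfl
  · intro h
    exact absurd (by simp [sm]) h

lemma q_van {n k : ℕ} (x : V n) (hx : x ≠ 0) (hc : (supp x).card ≤ 2 * k) :
    MvPolynomial.eval x (q n k) = 0 := by
  rw [q_eval]
  simp only [chi_eq]
  rw [Finset.sum_ite, Finset.sum_const_zero, add_zero, Finset.sum_const]
  have h1 : (sm n (2 * k + 1)).filter (fun S => S ⊆ supp x) = (supp x).powerset := by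
    ext S
    simp only [sm, Finset.mem_filter, Finset.mem_univ, true_and, Finset.mem_powerset]
    constructor
    · exact fun h => h.2
    · intro h
      have := Finset.card_le_card h
      exact ⟨by omega, h⟩
  rw [h1, Finset.card_powerset]
  have h2 : (supp x).card ≠ 0 := by
    intro h0
    rw [Finset.card_eq_zero] at h0
    apply hx
    funext i
    by_contra hi
    have : i ∈ supp x := by simpa [supp] using hi
    rw [h0] at this
    simp at this
  rw [nsmul_eq_mul, mul_one, Nat.cast_pow]
  have : ((2 : ℕ) : ZMod 2) = 0 := by decide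
  rw [this, zero_pow h2]

lemma supp_add {n : ℕ} (a b : V n) : supp (a + b) ⊆ supp a ∪ supp b := by
  intro i
  simp only [supp, Finset.mem_filter, Finset.mem_univ, true_and, Finset.mem_union, Pi.add_apply]
  intro h
  by_contra hc
  push Not at hc
  rw [hc.1, hc.2] at h
  simp at h

/-- the ball of radius `k` -/
def ball (n k : ℕ) : Finset (V n) := Finset.univ.filter fun x => (supp x).card ≤ k

lemma card_ball (n k : ℕ) : (ball n k).card = ∑ i ∈ range (k + 1), n.choose i := by
  rw [← card_sm]
  refine Finset.card_bij (fun x _ => supp x) ?_ ?_ ?_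
  · intro x hx
    simp only [ball, Finset.mem_filter, Finset.mem_univ, true_and] at hx
    simp only [sm, Finset.mem_filter, Finset.mem_univ, true_and]
    omega
  · intro x _ y _ h
    funext i
    have h2 : ∀ x : ZMod 2, x = 0 ∨ x = 1 := by decide
    have h3 : i ∈ supp x ↔ i ∈ supp y := by rw [h]
    simp only [supp, Finset.mem_filter, Finset.mem_univ, true_and] at h3
    rcases h2 (x i) with h4 | h4 <;> rcases h2 (y i) with h5 | h5 <;> simp_all
  · intro S hS
    refine ⟨fun i => if i ∈ S then 1 else 0, ?_, ?_⟩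
    · simp only [ball, supp, Finset.mem_filter, Finset.mem_univ, true_and]
      simp only [sm, Finset.mem_filter, Finset.mem_univ, true_and] at hS
      simp
      omega
    · ext i
      simp [supp]

lemma ball_van {n k : ℕ} {a b : V n} (ha : a ∈ ball n k) (hb : b ∈ ball n k) (hab : a + b ≠ 0) :
    MvPolynomial.eval (a + b) (q n k) = 0 := by
  refine q_van _ hab ?_
  simp only [ball, Finset.mem_filter, Finset.mem_univ, true_and] at ha hb
  have h1 := Finset.card_le_card (supp_add a b)
  have h2 := Finset.card_union_le (supp a) (supp b)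
  omega

lemma add_ne_zero_of_ne {n : ℕ} {a b : V n} (h : a ≠ b) : a + b ≠ 0 := by
  intro h0
  apply h
  funext i
  have h2 : ∀ x y : ZMod 2, x + y = 0 → x = y := by decide
  exact h2 _ _ (congrFun h0 i)

/-- odd case polynomial -/
noncomputable def q' (n k : ℕ) : MvPolynomial (Fin (n + 1)) (ZMod 2) :=
  (1 + MvPolynomial.X 0) * MvPolynomial.rename Fin.succ (q n k)

lemma q'_deg (n k : ℕ) : (q' n k).totalDegree ≤ 2 * k + 1 := by
  refine (MvPolynomial.totalDegree_mul _ _).trans ?_
  have h1 : (1 + MvPolynomial.X 0 : MvPolynomial (Fin (n + 1)) (ZMod 2)).totalDegree ≤ 1 := by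
    refine (MvPolynomial.totalDegree_add _ _).trans ?_
    simp
  have h2 : (MvPolynomial.rename Fin.succ (q n k)).totalDegree ≤ 2 * k :=
    (MvPolynomial.totalDegree_rename_le _ _).trans (q_deg n k)
  omega

lemma q'_eval {n k : ℕ} (x : V (n + 1)) : MvPolynomial.eval x (q' n k) =
    (1 + x 0) * MvPolynomial.eval (Fin.tail x) (q n k) := by
  simp only [q', map_mul, map_add, map_one, MvPolynomial.eval_X, MvPolynomial.eval_rename]
  rfl

/-- cylinder over the ball -/
def cyl (n k : ℕ) : Finset (V (n + 1)) := Finset.univ.filter fun x => Fin.tail x ∈ ball n k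

lemma card_cyl (n k : ℕ) : (cyl n k).card = 2 * ∑ i ∈ range (k + 1), n.choose i := by
  rw [← card_ball]
  have : (cyl n k).card = ((Finset.univ : Finset (ZMod 2)) ×ˢ ball n k).card := by
    refine Finset.card_bij (fun x _ => (x 0, Fin.tail x)) ?_ ?_ ?_
    · intro x hx
      simp only [cyl, Finset.mem_filter, Finset.mem_univ, true_and] at hx
      simp [hx]
    · intro x _ y _ h
      simp only [Prod.mk.injEq] at h
      rw [← Fin.cons_self_tail x, ← Fin.cons_self_tail y, h.1, h.2]
    · rintro ⟨c, y⟩ hy
      refine ⟨Fin.cons c y, ?_, ?_⟩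
      · simp only [Finset.mem_product] at hy
        simp only [cyl, Finset.mem_filter, Finset.mem_univ, true_and, Fin.tail_cons]
        exact hy.2
      · simp
  rw [this, Finset.card_product]
  simp [ZMod.card]

lemma cyl_van {n k : ℕ} {a b : V (n + 1)} (ha : a ∈ cyl n k) (hb : b ∈ cyl n k) (hab : a ≠ b) :
    MvPolynomial.eval (a + b) (q' n k) = 0 := by
  rw [q'_eval]
  simp only [cyl, Finset.mem_filter, Finset.mem_univ, true_and] at ha hb
  by_cases h : Fin.tail (a + b) = 0
  · have h0 : (a + b) 0 ≠ 0 := by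
      intro h1
      apply add_ne_zero_of_ne hab
      rw [← Fin.cons_self_tail (a + b), h, h1]
      funext i
      refine Fin.cases ?_ ?_ i <;> simp
    have h2 : ∀ x : ZMod 2, x ≠ 0 → 1 + x = 0 := by decide
    rw [h2 _ h0, zero_mul]
  · have : MvPolynomial.eval (Fin.tail (a + b)) (q n k) = 0 := ball_van ha hb h
    rw [this, mul_zero]

lemma q'_zero (n k : ℕ) : MvPolynomial.eval 0 (q' n k) = 1 := by
  rw [q'_eval]
  have : MvPolynomial.eval (Fin.tail (0 : V (n + 1))) (q n k) = 1 := q_zero n k
  rw [this]
  simp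

end Pool.Agent.H6.CLP
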