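import Mathlib

set_option autoImplicit false

/-! No convergent solution of Euler's equation `s² φ' = s + φ`. -/

namespace Pool.Agent.H6.Euler

open Filter Topology Complex

lemma no_solution (φ : ℂ → ℂ) (hφ : AnalyticAt ℂ φ 0)
    (h : ∀ᶠ s in 𝓝 (0 : ℂ), s ^ 2 * deriv φ s = s + φ s) : False := by
  -- a radius on which everything holds
  have hev := hφ.eventually_analyticAt.and h
  obtain ⟨R, hR, hball⟩ := Metric.eventually_nhds_iff_ball.1 hev
  obtain ⟨r, hr0, hrR⟩ : ∃ r, 0 < r ∧ r < R := exists_between hR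
  have hsph : ∀ z ∈ Metric.sphere (0 : ℂ) r, z ∈ Metric.ball (0 : ℂ) R := by
    intro z hz
    rw [mem_sphere_zero_iff_norm] at hz
    rw [mem_ball_zero_iff, hz]
    exact hrR
  have hne : ∀ z ∈ Metric.sphere (0 : ℂ) r, z ≠ 0 := by
    intro z hz h0
    rw [mem_sphere_zero_iff_norm, h0, norm_zero] at hz
    linarith
  have hcont : ∀ (n : ℤ), ContinuousOn (fun z => φ z * z ^ n) (Metric.sphere (0 : ℂ) r) := by
    intro n z hz
    apply ContinuousAt.continuousWithinAt
    exact (hball z (hsph z hz)).1.continuousAt.mul (continuousAt_zpow₀ z n (Or.inl (hne z hz)))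
  have hcontd : ∀ (n : ℤ), ContinuousOn (fun z => deriv φ z * z ^ n) (Metric.sphere (0 : ℂ) r) := by
    intro n z hz
    apply ContinuousAt.continuousWithinAt
    exact (hball z (hsph z hz)).1.deriv.continuousAt.mul
      (continuousAt_zpow₀ z n (Or.inl (hne z hz)))
  -- the coefficients
  obtain ⟨a, ha⟩ : ∃ a : ℤ → ℂ, ∀ n, a n = ∮ z in C(0, r), φ z * z ^ n := ⟨_, fun _ => rfl⟩
  -- integration by parts
  have hparts : ∀ n : ℤ, (∮ z in C(0, r), deriv φ z * z ^ n) = -n * a (n - 1) := by
    intro n
    have h1 : (∮ z in C(0, r), (deriv φ z * z ^ n + φ z * (n * z ^ (n - 1)))) = 0 := by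
      apply circleIntegral.integral_eq_zero_of_hasDerivWithinAt hr0.le
        (f := fun z => φ z * z ^ n)
      intro z hz
      apply HasDerivAt.hasDerivWithinAt
      have e1 := (hball z (hsph z hz)).1.differentiableAt.hasDerivAt
      have e2 := hasDerivAt_zpow n z (Or.inl (hne z hz))
      exact e1.mul e2
    rw [circleIntegral.integral_add] at h1
    · have h2 : (∮ z in C(0, r), φ z * (n * z ^ (n - 1))) = n * a (n - 1) := by
        rw [ha, ← circleIntegral.integral_const_mul]
        congr 1
        funext z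
        ring
      rw [h2] at h1
      linear_combination h1
    · exact (hcontd n).circleIntegrable hr0.le
    · have : (fun z => φ z * (n * z ^ (n - 1))) = fun z => n * (φ z * z ^ (n - 1)) := by
        funext z; ring
      rw [this]
      exact ((continuousOn_const.mul (hcont (n - 1)))).circleIntegrable hr0.le
  -- the recursion
  have hrec : ∀ n : ℤ, -(n + 2) * a (n + 1) = (∮ z in C(0, r), z ^ (n + 1)) + a n := by
    intro n
    have h1 : (∮ z in C(0, r), deriv φ z * z ^ (n + 2)) =
        ∮ z in C(0, r), (z ^ (n + 1) + φ z * z ^ n) := by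
      apply circleIntegral.integral_congr hr0.le
      intro z hz
      have e := (hball z (hsph z hz)).2
      have hz0 := hne z hz
      simp only
      rw [zpow_add₀ hz0, zpow_add₀ hz0, zpow_one]
      have : z ^ (2 : ℤ) = z ^ 2 := by norm_cast
      rw [this]
      linear_combination z ^ n * e
    rw [hparts, circleIntegral.integral_add, ← ha] at h1
    · rw [← h1]
      push_cast
      rw [show n + 2 - 1 = n + 1 by ring]
    · apply ContinuousOn.circleIntegrable hr0.le
      intro z hz
      exact (continuousAt_zpow₀ z _ (Or.inl (hne z hz))).continuousWithinAt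
    · exact (hcont n).circleIntegrable hr0.le
  have hint : ∀ n : ℤ, n ≠ -1 → (∮ z in C(0, r), z ^ n) = 0 := by
    intro n hn
    have := circleIntegral.integral_sub_zpow_of_ne hn (0 : ℂ) 0 r
    simpa using this
  have hint1 : (∮ z in C(0, r), z ^ (-1 : ℤ)) = 2 * Real.pi * I := by
    have := circleIntegral.integral_sub_center_inv (0 : ℂ) hr0.ne'
    simpa using this
  -- closed form
  have hclosed : ∀ m : ℕ, a (-(m : ℤ) - 2) = -(2 * Real.pi * I) * (m.factorial : ℂ) := by
    intro m
    induction m with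
    | zero =>
      have := hrec (-2)
      rw [show (-2 : ℤ) + 1 = -1 by norm_num, hint1] at this
      simp at this
      simp
      linear_combination -this
    | succ m ih =>
      have := hrec (-(m : ℤ) - 3)
      rw [show -(m : ℤ) - 3 + 1 = -(m : ℤ) - 2 by ring, hint _ (by omega), ih] at this
      rw [show -((m + 1 : ℕ) : ℤ) - 2 = -(m : ℤ) - 3 by push_cast; ring, Nat.factorial_succ]
      push_cast at this ⊢
      linear_combination -this
  -- bound
  obtain ⟨M, hM⟩ : ∃ M, ∀ z ∈ Metric.sphere (0 : ℂ) r, ‖φ z‖ ≤ M := by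
    have := (isCompact_sphere (0 : ℂ) r).exists_bound_of_continuousOn
      (f := φ) (fun z hz => (hball z (hsph z hz)).1.continuousAt.continuousWithinAt)
    exact this
  have hbound : ∀ m : ℕ, ‖a (-(m : ℤ) - 2)‖ ≤ 2 * Real.pi * r * (M * (r⁻¹) ^ (m + 2)) := by
    intro m
    rw [ha]
    apply circleIntegral.norm_integral_le_of_norm_le_const hr0.le
    intro z hz
    have hz' := hz
    rw [mem_sphere_zero_iff_norm] at hz'
    rw [norm_mul, norm_zpow, hz']
    have : r ^ (-(m : ℤ) - 2) = (r⁻¹) ^ (m + 2) := by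
      rw [show -(m : ℤ) - 2 = -((m + 2 : ℕ) : ℤ) by push_cast; ring, zpow_neg, zpow_natCast, inv_pow]
    rw [this]
    exact mul_le_mul_of_nonneg_right (hM z hz) (by positivity)
  have hfac : ∀ m : ℕ, (m.factorial : ℝ) ≤ (r * M * (r⁻¹) ^ 2) * (r⁻¹) ^ m := by
    intro m
    have h1 := hbound m
    rw [hclosed, norm_mul, norm_neg, norm_mul, norm_mul, Complex.norm_I] at h1
    have h2 : ‖(m.factorial : ℂ)‖ = m.factorial := by simp
    have h3 : ‖(Real.pi : ℂ)‖ = Real.pi := by
      rw [Complex.norm_real, Real.norm_eq_abs, abs_of_pos Real.pi_pos]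
    rw [h2, h3] at h1
    have h4 : ‖(2 : ℂ)‖ = 2 := by simp
    rw [h4, pow_add] at h1
    have hpi : 0 < 2 * Real.pi := by positivity
    have h5 : (2 * Real.pi) * (m.factorial : ℝ) ≤
        (2 * Real.pi) * ((r * M * (r⁻¹) ^ 2) * (r⁻¹) ^ m) := by linarith
    exact le_of_mul_le_mul_left h5 hpi
  have hlim := FloorSemiring.tendsto_pow_div_factorial_atTop (r⁻¹ : ℝ)
  have hlim2 := hlim.const_mul (r * M * (r⁻¹) ^ 2)
  rw [mul_zero] at hlim2
  have hev2 := hlim2.eventually (gt_mem_nhds (show (0 : ℝ) < 1 by norm_num))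
  obtain ⟨m, hm⟩ := hev2.exists
  have h1 := hfac m
  have h2 : (0 : ℝ) < m.factorial := by exact_mod_cast m.factorial_pos
  rw [← mul_div_assoc, div_lt_one h2] at hm
  linarith

end Pool.Agent.H6.Euler
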