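import Mathlib

set_option autoImplicit false

/-! The two-variable function `I(τ,x) = ∫₀^τ e^{-s} x / (1 - s x) ds`. -/

namespace Pool.Agent.H6.ExpInt

open MeasureTheory Set

abbrev A : Type := C(unitInterval, ℂ)

/-- the coordinate function -/
noncomputable def U : A := ⟨fun u => ((u : ℝ) : ℂ), by fun_prop⟩

/-- integration as a continuous linear functional -/
noncomputable def Lam : A →L[ℂ] ℂ :=
  LinearMap.mkContinuous
    { toFun := fun F => ∫ u in (0 : ℝ)..1, F (projIcc 0 1 zero_le_one u)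
      map_add' := by
        intro F G
        have hF : Continuous (fun u : ℝ => F (projIcc 0 1 zero_le_one u)) :=
          F.continuous.comp continuous_projIcc
        have hG : Continuous (fun u : ℝ => G (projIcc 0 1 zero_le_one u)) :=
          G.continuous.comp continuous_projIcc
        simp only [ContinuousMap.add_apply]
        exact intervalIntegral.integral_add (hF.intervalIntegrable _ _) (hG.intervalIntegrable _ _)
      map_smul' := by
        intro c F
        simp only [ContinuousMap.smul_apply, RingHom.id_apply]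
        exact intervalIntegral.integral_smul _ _ }
    1 (by
      intro F
      have : ‖∫ u in (0 : ℝ)..1, F (projIcc 0 1 zero_le_one u)‖ ≤ ‖F‖ * |1 - 0| :=
        intervalIntegral.norm_integral_le_of_norm_le_const (fun u _ => F.norm_coe_le_norm _)
      simpa using this)

lemma Lam_apply (F : A) : Lam F = ∫ u in (0 : ℝ)..1, F (projIcc 0 1 zero_le_one u) := rfl

/-- the kernel -/
noncomputable def K (τ b : ℂ) : A := NormedSpace.exp (-τ • U) * Ring.inverse (1 - b • U)

lemma isUnit_one_sub (b : ℂ) (hb : ‖b‖ < 1) : IsUnit (1 - b • U : A) := by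
  rw [ContinuousMap.isUnit_iff_forall_isUnit]
  intro u
  rw [isUnit_iff_ne_zero]
  intro h
  have h1 : (1 : ℂ) - b * ((u : ℝ) : ℂ) = 0 := h
  have h2 : ‖b * ((u : ℝ) : ℂ)‖ < 1 := by
    rw [norm_mul]
    have : ‖((u : ℝ) : ℂ)‖ ≤ 1 := by
      rw [Complex.norm_real, Real.norm_eq_abs, abs_of_nonneg u.2.1]
      exact u.2.2
    calc ‖b‖ * ‖((u : ℝ) : ℂ)‖ ≤ ‖b‖ * 1 := by gcongr
      _ < 1 := by linarith
  have h3 : b * ((u : ℝ) : ℂ) = 1 := by linear_combination -h1
  rw [h3] at h2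
  simp at h2

lemma exp_apply (F : A) (u : unitInterval) : (NormedSpace.exp F) u = Complex.exp (F u) := by
  have h := NormedSpace.map_exp (ContinuousMap.evalAlgHom ℂ ℂ u : A →ₐ[ℂ] ℂ)
    (by exact continuous_eval_const u) F
  rw [Complex.exp_eq_exp_ℂ]
  exact h

lemma K_apply (τ b : ℂ) (hb : ‖b‖ < 1) (u : unitInterval) :
    K τ b u = Complex.exp (-(τ * ((u : ℝ) : ℂ))) / (1 - b * ((u : ℝ) : ℂ)) := by
  unfold K
  rw [ContinuousMap.mul_apply, exp_apply]
  have h1 : ((-τ • U : A)) u = -(τ * ((u : ℝ) : ℂ)) := by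
    simp [U]
  rw [h1]
  have h2 : (Ring.inverse (1 - b • U : A)) u * (1 - b * ((u : ℝ) : ℂ)) = 1 := by
    have h3 : Ring.inverse (1 - b • U : A) * (1 - b • U) = 1 :=
      Ring.inverse_mul_cancel _ (isUnit_one_sub b hb)
    have h4 := congrArg (fun F : A => F u) h3
    simpa [U] using h4
  have h5 : (1 - b * ((u : ℝ) : ℂ)) ≠ 0 := right_ne_zero_of_mul_eq_one h2
  rw [eq_div_iff h5, mul_assoc, h2, mul_one]

lemma K_analytic (τ b : ℂ) (hb : ‖b‖ < 1) :
    AnalyticAt ℂ (fun p : ℂ × ℂ => K p.1 p.2) (τ, b) := by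
  unfold K
  apply AnalyticAt.mul
  · have h1 : AnalyticAt ℂ (fun p : ℂ × ℂ => (-p.1) • U) (τ, b) :=
      (analyticAt_fst.neg).smul analyticAt_const
    exact AnalyticAt.fun_comp (g := (NormedSpace.exp : A → A))
      (f := fun p : ℂ × ℂ => (-p.1) • U) (NormedSpace.exp_analytic (𝕂 := ℂ) _) h1
  · have h1 : AnalyticAt ℂ (fun p : ℂ × ℂ => (1 : A) - p.2 • U) (τ, b) :=
      analyticAt_const.sub (analyticAt_snd.smul analyticAt_const)
    obtain ⟨z, hz⟩ := isUnit_one_sub b hb
    have h2 : AnalyticAt ℂ Ring.inverse (1 - b • U : A) := by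
      rw [← hz]
      exact analyticAt_inverse z
    exact AnalyticAt.fun_comp (g := (Ring.inverse : A → A))
      (f := fun p : ℂ × ℂ => (1 : A) - p.2 • U) h2 h1

/-- the function `H(τ,b) = ∫₀¹ e^{-τu}/(1-bu) du`. -/
noncomputable def H (τ b : ℂ) : ℂ := Lam (K τ b)

lemma H_analytic (τ b : ℂ) (hb : ‖b‖ < 1) :
    AnalyticAt ℂ (fun p : ℂ × ℂ => H p.1 p.2) (τ, b) :=
  AnalyticAt.fun_comp (g := Lam) (f := fun p : ℂ × ℂ => K p.1 p.2) (Lam.analyticAt _)
    (K_analytic τ b hb)

lemma H_zero : H 0 0 = 1 := by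
  unfold H
  rw [Lam_apply]
  have : ∀ u : ℝ, K 0 0 (projIcc 0 1 zero_le_one u) = 1 := by
    intro u
    rw [K_apply 0 0 (by simp)]
    simp
  simp [this]

/-- the function `I`. -/
noncomputable def Ifun (τ x : ℂ) : ℂ := τ * x * H τ (τ * x)

lemma Ifun_zero (x : ℂ) : Ifun 0 x = 0 := by simp [Ifun]

lemma Ifun_eq (τ x : ℂ) (h : ‖τ * x‖ < 1) :
    Ifun τ x = ∫ u in (0 : ℝ)..1, (Complex.exp (-(τ * (u : ℂ))) * x / (1 - τ * u * x)) * τ := by
  unfold Ifun H
  rw [Lam_apply, ← intervalIntegral.integral_const_mul]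
  apply intervalIntegral.integral_congr
  intro u hu
  rw [uIcc_of_le zero_le_one] at hu
  simp only
  rw [K_apply _ _ h, projIcc_of_mem zero_le_one hu]
  simp only
  ring_nf

lemma Ifun_deriv (τ x : ℂ) (h : ‖τ * x‖ < 1) :
    HasDerivAt (fun t => Ifun t x) (Complex.exp (-τ) * x / (1 - τ * x)) τ := by
  by_cases hx : x = 0
  · subst hx
    simp only [mul_zero, zero_div]
    have : (fun t : ℂ => Ifun t 0) = fun _ => 0 := by
      funext t; simp [Ifun]
    rw [this]
    exact hasDerivAt_const _ _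
  have hxn : 0 < ‖x‖ := norm_pos_iff.2 hx
  have hball : ∀ s ∈ Metric.ball (0 : ℂ) (1 / ‖x‖), ‖s * x‖ < 1 := by
    intro s hs
    rw [mem_ball_zero_iff, lt_div_iff₀ hxn] at hs
    rw [norm_mul]; exact hs
  have hne : ∀ s ∈ Metric.ball (0 : ℂ) (1 / ‖x‖), 1 - s * x ≠ 0 := by
    intro s hs h0
    have h1 := hball s hs
    have h3 : s * x = 1 := by linear_combination -h0
    rw [h3] at h1
    simp at h1
  have hdiff : DifferentiableOn ℂ (fun s => Complex.exp (-s) * x / (1 - s * x))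
      (Metric.ball (0 : ℂ) (1 / ‖x‖)) := by
    intro s hs
    apply DifferentiableAt.differentiableWithinAt
    apply DifferentiableAt.div
    · fun_prop
    · fun_prop
    · exact hne s hs
  obtain ⟨P, hP⟩ := hdiff.isExactOn_ball
  have hI : ∀ s ∈ Metric.ball (0 : ℂ) (1 / ‖x‖), Ifun s x = P s - P 0 := by
    intro s hs
    rw [Ifun_eq s x (hball s hs)]
    have hsu : ∀ u ∈ uIcc (0 : ℝ) 1, s * (u : ℂ) ∈ Metric.ball (0 : ℂ) (1 / ‖x‖) := by
      intro u hu
      rw [uIcc_of_le zero_le_one] at hu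
      rw [mem_ball_zero_iff] at hs ⊢
      rw [norm_mul, Complex.norm_real, Real.norm_eq_abs, abs_of_nonneg hu.1]
      calc ‖s‖ * u ≤ ‖s‖ * 1 := by
            gcongr
            exact hu.2
        _ < _ := by linarith
    have key := intervalIntegral.integral_eq_sub_of_hasDerivAt (a := (0 : ℝ)) (b := 1)
      (f := fun u : ℝ => P (s * u))
      (f' := fun u : ℝ => (Complex.exp (-(s * (u : ℂ))) * x / (1 - s * u * x)) * s) ?_ ?_
    · rw [key]
      simp
    · intro u hu
      have h1 := hP _ (hsu u hu)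
      have h2 : HasDerivAt (fun u : ℝ => s * (u : ℂ)) s u := by
        simpa using (Complex.ofRealCLM.hasDerivAt (x := u)).const_mul s
      exact h1.comp_of_eq u h2 rfl
    · apply ContinuousOn.intervalIntegrable
      intro u hu
      apply ContinuousAt.continuousWithinAt
      apply ContinuousAt.mul _ continuousAt_const
      apply ContinuousAt.div
      · fun_prop
      · fun_prop
      · exact hne _ (hsu u hu)
  have hτ : τ ∈ Metric.ball (0 : ℂ) (1 / ‖x‖) := by
    rw [mem_ball_zero_iff, lt_div_iff₀ hxn, ← norm_mul]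
    exact h
  have h1 := (hP τ hτ).sub_const (P 0)
  refine h1.congr_of_eventuallyEq ?_
  filter_upwards [Metric.isOpen_ball.mem_nhds hτ] with s hs
  exact hI s hs


/-- the cocycle identity. -/
lemma Ifun_cocycle (σ τ x : ℂ) (h : (‖σ‖ + ‖τ‖) * ‖x‖ < 1) :
    Ifun (σ + τ) x = Ifun τ x + Complex.exp (-τ) * Ifun σ (x / (1 - τ * x)) := by
  have hτx : ‖τ * x‖ < 1 := by
    rw [norm_mul]
    nlinarith [norm_nonneg σ, norm_nonneg τ, norm_nonneg x, mul_nonneg (norm_nonneg σ) (norm_nonneg x)]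
  have hne : ∀ t : ℂ, ‖t * x‖ < 1 → 1 - t * x ≠ 0 := by
    intro t ht h0
    have h3 : t * x = 1 := by linear_combination -h0
    rw [h3] at ht
    simp at ht
  have hτne := hne τ hτx
  -- bounds
  have hden : 1 - ‖τ‖ * ‖x‖ ≤ ‖1 - τ * x‖ := by
    calc 1 - ‖τ‖ * ‖x‖ = ‖(1 : ℂ)‖ - ‖τ * x‖ := by rw [norm_mul, norm_one]
      _ ≤ ‖1 - τ * x‖ := norm_sub_norm_le _ _
  have hdenpos : 0 < 1 - ‖τ‖ * ‖x‖ := by
    rw [norm_mul] at hτx
    linarith
  have hseg : ∀ s : ℂ, ‖s‖ ≤ ‖σ‖ → ‖(s + τ) * x‖ < 1 ∧ ‖s * (x / (1 - τ * x))‖ < 1 := by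
    intro s hs
    constructor
    · rw [norm_mul]
      calc ‖s + τ‖ * ‖x‖ ≤ (‖s‖ + ‖τ‖) * ‖x‖ := by
            gcongr
            exact norm_add_le _ _
        _ ≤ (‖σ‖ + ‖τ‖) * ‖x‖ := by gcongr
        _ < 1 := h
    · rw [norm_mul, norm_div, ← mul_div_assoc, div_lt_one (by linarith)]
      have : ‖s‖ * ‖x‖ ≤ ‖σ‖ * ‖x‖ := by gcongr
      nlinarith
  -- difference function on the closed ball of radius ‖σ‖
  obtain ⟨D, hD⟩ : ∃ D : ℂ → ℂ, D = fun s => Ifun (s + τ) x -
    Complex.exp (-τ) * Ifun s (x / (1 - τ * x)) := ⟨_, rfl⟩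
  have hderiv : ∀ s ∈ Metric.closedBall (0 : ℂ) ‖σ‖, HasDerivWithinAt D 0
      (Metric.closedBall (0 : ℂ) ‖σ‖) s := by
    intro s hs
    apply HasDerivAt.hasDerivWithinAt
    rw [mem_closedBall_zero_iff] at hs
    obtain ⟨h1, h2⟩ := hseg s hs
    have e1 := (Ifun_deriv (s + τ) x h1).comp_add_const s τ
    have e2 := (Ifun_deriv s (x / (1 - τ * x)) h2).const_mul (Complex.exp (-τ))
    have e3 := e1.sub e2
    rw [hD]
    refine e3.congr_deriv ?_
    have h5 := hne (s + τ) h1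
    have h6 : 1 - s * (x / (1 - τ * x)) ≠ 0 := by
      intro h0
      have : s * (x / (1 - τ * x)) = 1 := by linear_combination -h0
      rw [this] at h2
      simp at h2
    have h7 : (1 - s * (x / (1 - τ * x))) * (1 - τ * x) = 1 - (s + τ) * x := by
      have h10 : x / (1 - τ * x) * (1 - τ * x) = x := div_mul_cancel₀ _ hτne
      linear_combination (-s) * h10
    have h8 : Complex.exp (-(s + τ)) = Complex.exp (-τ) * Complex.exp (-s) := by
      rw [← Complex.exp_add]
      ring_nf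
    have h9 : x / (1 - τ * x) / (1 - s * (x / (1 - τ * x))) = x / (1 - (s + τ) * x) := by
      rw [div_div, mul_comm (1 - τ * x), h7]
    rw [h8, mul_div_assoc (Complex.exp (-s)), h9]
    ring
  have hconv : Convex ℝ (Metric.closedBall (0 : ℂ) ‖σ‖) := convex_closedBall _ _
  have hconst := hconv.norm_image_sub_le_of_norm_hasDerivWithin_le (f := D) (f' := fun _ => 0)
    (C := 0) hderiv (fun s _ => by simp) (x := 0) (y := σ)
    (Metric.mem_closedBall_self (norm_nonneg σ)) (by simp)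
  have hz : D σ = D 0 := by
    have : ‖D σ - D 0‖ ≤ 0 := by simpa using hconst
    exact sub_eq_zero.1 (norm_le_zero_iff.1 this)
  rw [hD] at hz
  simp only [zero_add, Ifun_zero, mul_zero, sub_zero] at hz
  linear_combination hz

end Pool.Agent.H6.ExpInt
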