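import Pool.Agent.H6.FADefs

namespace Pool.Agent.H6.FA

open Filter Topology

universe u v

theorem locConvex_pi : LocConvex (ℕ → ℂ) := by
  intro U hU
  rw [nhds_pi, Filter.mem_pi] at hU
  obtain ⟨I, hI, t, ht, hsub⟩ := hU
  have : ∀ i, ∃ r > 0, Metric.ball (0 : ℂ) r ⊆ t i := fun i => Metric.mem_nhds_iff.1 (ht i)
  choose r hr hrt using this
  refine ⟨I.pi fun i => Metric.ball (0 : ℂ) (r i), ?_, ?_, ?_⟩
  · exact set_pi_mem_nhds hI fun i _ => Metric.ball_mem_nhds _ (hr i)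
  · intro x hx
    exact hsub fun i hi => hrt i (hx i hi)
  · intro x hx y hy s hs0 hs1 i hi
    have h1 := hx i hi
    have h2 := hy i hi
    rw [mem_ball_zero_iff] at h1 h2 ⊢
    have h3 : ‖((s : ℂ) • x + (1 - s : ℂ) • y) i‖ ≤ s * ‖x i‖ + (1 - s) * ‖y i‖ := by
      have e : ((s : ℂ) • x + (1 - s : ℂ) • y) i = (s : ℂ) * x i + ((1 - s : ℝ) : ℂ) * y i := by
        simp
      rw [e]
      refine (norm_add_le _ _).trans ?_
      rw [norm_mul, norm_mul, Complex.norm_real, Complex.norm_real, Real.norm_of_nonneg hs0,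
        Real.norm_of_nonneg (by linarith)]
    have h4 : s * ‖x i‖ + (1 - s) * ‖y i‖ < r i := by
      rcases hs0.eq_or_lt with h | h
      · rw [← h]; linarith
      · nlinarith
    linarith

theorem frechet_pi : IsFrechet (ℕ → ℂ) :=
  ⟨inferInstance, inferInstance, locConvex_pi, inferInstance, inferInstance, inferInstance⟩

theorem locConvex_C : LocConvex ℂ := by
  intro U hU
  obtain ⟨r, hr, hrU⟩ := Metric.mem_nhds_iff.1 hU
  refine ⟨Metric.ball 0 r, Metric.ball_mem_nhds _ hr, hrU, ?_⟩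
  intro x hx y hy s hs0 hs1
  rw [mem_ball_zero_iff] at hx hy ⊢
  have h3 : ‖(s : ℂ) • x + (1 - s : ℂ) • y‖ ≤ s * ‖x‖ + (1 - s) * ‖y‖ := by
    have e : (s : ℂ) • x + (1 - s : ℂ) • y = (s : ℂ) * x + ((1 - s : ℝ) : ℂ) * y := by
      simp
    rw [e]
    refine (norm_add_le _ _).trans ?_
    rw [norm_mul, norm_mul, Complex.norm_real, Complex.norm_real, Real.norm_of_nonneg hs0,
      Real.norm_of_nonneg (by linarith)]
  have h4 : s * ‖x‖ + (1 - s) * ‖y‖ < r := by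
    rcases hs0.eq_or_lt with h | h
    · rw [← h]; linarith
    · nlinarith
  linarith

theorem frechet_C : IsFrechet ℂ :=
  ⟨inferInstance, inferInstance, locConvex_C, inferInstance, inferInstance, inferInstance⟩

theorem locConvex_prod {X Y : Type*} [AddCommGroup X] [Module ℂ X] [TopologicalSpace X]
    [AddCommGroup Y] [Module ℂ Y] [TopologicalSpace Y] (hX : LocConvex X) (hY : LocConvex Y) :
    LocConvex (X × Y) := by
  intro U hU
  have hU' : U ∈ 𝓝 ((0 : X), (0 : Y)) := hU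
  rw [nhds_prod_eq, Filter.mem_prod_iff] at hU'
  obtain ⟨U1, h1, U2, h2, hsub⟩ := hU'
  obtain ⟨V1, hV1, hs1, hc1⟩ := hX U1 h1
  obtain ⟨V2, hV2, hs2, hc2⟩ := hY U2 h2
  refine ⟨V1 ×ˢ V2, ?_, fun p hp => hsub ⟨hs1 hp.1, hs2 hp.2⟩, ?_⟩
  · show V1 ×ˢ V2 ∈ 𝓝 ((0 : X), (0 : Y))
    exact prod_mem_nhds hV1 hV2
  · intro x hx y hy t ht0 ht1
    exact ⟨hc1 x.1 hx.1 y.1 hy.1 t ht0 ht1, hc2 x.2 hx.2 y.2 hy.2 t ht0 ht1⟩

theorem frechet_prod {X Y : Type*} [AddCommGroup X] [Module ℂ X] [UniformSpace X]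
    [AddCommGroup Y] [Module ℂ Y] [UniformSpace Y] (hX : IsFrechet X) (hY : IsFrechet Y) :
    IsFrechet (X × Y) := by
  haveI := hX.ugrp; haveI := hY.ugrp; haveI := hX.csmul; haveI := hY.csmul
  haveI := hX.complete; haveI := hY.complete; haveI := hX.hausdorff; haveI := hY.hausdorff
  haveI := hX.countable; haveI := hY.countable
  exact ⟨inferInstance, inferInstance, locConvex_prod hX.convex hY.convex, inferInstance,
    inferInstance, inferInstance⟩

/-- the Frechet space of all complex sequences -/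
noncomputable def seqSp : FSp.{0} := ⟨ℕ → ℂ, frechet_pi⟩

/-- product with the line -/
noncomputable def prodSp (X : FSp.{v}) : FSp.{v} := ⟨X × ℂ, frechet_prod X.frechet frechet_C⟩

/-- all sequences, with the zero product -/
noncomputable def zeroAlg : FAlg.{0} where
  A := seqSp
  mul := fun _ _ => 0
  bilin := ⟨continuous_const, by simp, by simp, by simp⟩
  assoc := by intro a b c; rfl

theorem act_zero_left {𝒜 : FAlg.{u}} (X : FMod.{u, v} 𝒜) (x : X.X) : X.act 0 x = 0 := by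
  have := (X.bilin.2.2.2 0 0 x).1
  rwa [zero_smul, zero_smul] at this

theorem act_zero_right {𝒜 : FAlg.{u}} (X : FMod.{u, v} 𝒜) (a : 𝒜.A) : X.act a 0 = 0 := by
  have := (X.bilin.2.2.2 0 a 0).2
  rwa [zero_smul, zero_smul] at this

variable (X : FMod.{0, v} zeroAlg)

theorem act_zero' (a b : zeroAlg.A) (x : X.X) : X.act a (X.act b x) = 0 := by
  rw [← X.assoc]
  exact act_zero_left X x

/-- the action on the extension of `X` by a line -/
noncomputable def bil (x₀ : X.X) (j : ℕ) (a : ℕ → ℂ) (y : X.X × ℂ) : X.X × ℂ :=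
  (X.act a y.1 + (y.2 * a j) • x₀, 0)

/-- the extension of `X` by a line -/
noncomputable def extMod (x₀ : X.X) (h : ∀ a : zeroAlg.A, X.act a x₀ = 0) (j : ℕ) :
    FMod.{0, v} zeroAlg where
  X := prodSp X.X
  act := bil X x₀ j
  bilin := by
    haveI := X.X.frechet.ugrp
    haveI := X.X.frechet.csmul
    obtain ⟨b1, b2, b3, b4⟩ := X.bilin
    refine ⟨?_, ?_, ?_, ?_⟩
    · have h1 : Continuous fun p : (ℕ → ℂ) × (X.X × ℂ) => X.act p.1 p.2.1 :=
        b1.comp (continuous_fst.prodMk (continuous_fst.comp continuous_snd))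
      have h2 : Continuous fun p : (ℕ → ℂ) × (X.X × ℂ) => (p.2.2 * p.1 j) • x₀ :=
        ((continuous_snd.comp continuous_snd).mul ((continuous_apply j).comp continuous_fst)).smul
          continuous_const
      exact (h1.add h2).prodMk continuous_const
    · intro a b (y : X.X × ℂ)
      show ((X.act (a + b) y.1 + (y.2 * ((show ℕ → ℂ from a) j + (show ℕ → ℂ from b) j)) • x₀, 0) : X.X × ℂ) =
        (X.act a y.1 + (y.2 * (show ℕ → ℂ from a) j) • x₀ + (X.act b y.1 + (y.2 * (show ℕ → ℂ from b) j) • x₀),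
          (0 : ℂ) + 0)
      rw [b2, mul_add, add_smul, add_zero]
      congr 1
      abel
    · intro a (y : X.X × ℂ) (z : X.X × ℂ)
      show ((X.act a (y.1 + z.1) + ((y.2 + z.2) * (show ℕ → ℂ from a) j) • x₀, 0) : X.X × ℂ) =
        (X.act a y.1 + (y.2 * (show ℕ → ℂ from a) j) • x₀ + (X.act a z.1 + (z.2 * (show ℕ → ℂ from a) j) • x₀),
          (0 : ℂ) + 0)
      rw [b3, add_mul, add_smul, add_zero]
      congr 1
      abel
    · intro c a (y : X.X × ℂ)
      constructor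
      · show ((X.act (c • a) y.1 + (y.2 * (c * (show ℕ → ℂ from a) j)) • x₀, 0) : X.X × ℂ) =
          (c • (X.act a y.1 + (y.2 * (show ℕ → ℂ from a) j) • x₀), c * 0)
        rw [(b4 c a y.1).1, smul_add, smul_smul, mul_zero]
        congr 3
        ring
      · show ((X.act a (c • y.1) + ((c * y.2) * (show ℕ → ℂ from a) j) • x₀, 0) : X.X × ℂ) =
          (c • (X.act a y.1 + (y.2 * (show ℕ → ℂ from a) j) • x₀), c * 0)
        rw [(b4 c a y.1).2, smul_add, smul_smul, mul_zero]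
        congr 3
        ring
  assoc := by
    intro a b (y : X.X × ℂ)
    obtain ⟨b1, b2, b3, b4⟩ := X.bilin
    show ((X.act 0 y.1 + (y.2 * 0) • x₀, 0) : X.X × ℂ) =
      (X.act a (X.act b y.1 + (y.2 * (show ℕ → ℂ from b) j) • x₀) + ((0 : ℂ) * (show ℕ → ℂ from a) j) • x₀, 0)
    rw [b3, (b4 _ a x₀).2, h a, act_zero', act_zero_left]
    simp

theorem inl_hom {𝒜 : FAlg.{u}} (X : FSp.{v}) : CLin X (prodSp X) (fun x => (x, (0 : ℂ))) := by
  refine ⟨?_, ?_, ?_⟩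
  · show Continuous fun x : X => ((x, 0) : X × ℂ)
    exact continuous_id.prodMk continuous_const
  · intro x y
    show ((x + y, 0) : X × ℂ) = (x + y, 0 + 0)
    rw [add_zero]
  · intro c x
    show ((c • x, 0) : X × ℂ) = (c • x, c * 0)
    rw [mul_zero]

theorem fst_hom (X : FSp.{v}) : CLin (prodSp X) X (fun y => Prod.fst (α := X) (β := ℂ) y) :=
  ⟨continuous_fst, fun _ _ => rfl, fun _ _ => rfl⟩

theorem main1 (hX : ∃ x : X.X, x ≠ 0) : ¬ Injective X := by
  intro hinj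
  haveI := X.X.frechet.ugrp
  haveI := X.X.frechet.csmul
  haveI := X.X.frechet.hausdorff
  obtain ⟨x₀, hx₀, h0⟩ : ∃ x₀ : X.X, x₀ ≠ 0 ∧ ∀ a : zeroAlg.A, X.act a x₀ = 0 := by
    obtain ⟨x, hx⟩ := hX
    by_cases h : ∀ a : zeroAlg.A, X.act a x = 0
    · exact ⟨x, hx, h⟩
    · push Not at h
      obtain ⟨b, hb⟩ := h
      exact ⟨X.act b x, hb, fun a => act_zero' X a b x⟩
  have hW : ({x₀}ᶜ : Set X.X) ∈ 𝓝 (0 : X.X) := isOpen_compl_singleton.mem_nhds (by
    simpa using hx₀.symm)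
  have hc : Tendsto (fun p : (ℕ → ℂ) × X.X => X.act p.1 p.2) (𝓝 (0, 0)) (𝓝 0) := by
    have := X.bilin.1.tendsto ((0 : ℕ → ℂ), (0 : X.X))
    have e : X.act (0 : ℕ → ℂ) (0 : X.X) = 0 := act_zero_right X _
    simp only at this
    rw [e] at this
    exact this
  have hpre := hc hW
  rw [Filter.mem_map, nhds_prod_eq, Filter.mem_prod_iff] at hpre
  obtain ⟨U, hU, V, hV, hUV⟩ := hpre
  obtain ⟨I, hI⟩ : ∃ I : Finset ℕ, ∀ e : ℕ → ℂ, (∀ i ∈ I, e i = 0) → e ∈ U := by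
    rw [nhds_pi, Filter.mem_pi] at hU
    obtain ⟨I, hIf, t, ht, hsub⟩ := hU
    refine ⟨hIf.toFinset, fun e he => hsub ?_⟩
    intro i hi
    rw [he i (hIf.mem_toFinset.2 hi)]
    exact mem_of_mem_nhds (ht i)
  obtain ⟨j, hj⟩ := Infinite.exists_notMem_finset I
  obtain ⟨ψ, ⟨_, hψ⟩, hψ'⟩ := hinj (extMod X x₀ h0 j) trivial (fun x => ((x, 0) : X.X × ℂ))
    ⟨inl_hom (𝒜 := zeroAlg) X.X, by
      intro a x
      show ((X.act a x, 0) : X.X × ℂ) = (X.act a x + ((0 : ℂ) * (show ℕ → ℂ from a) j) • x₀, 0)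
      simp⟩
    ⟨_, fst_hom X.X, fun x => rfl⟩
  set θ : X.X := ψ ((0, 1) : X.X × ℂ) with hθ
  have hact : ∀ a : ℕ → ℂ, X.act a θ = a j • x₀ := by
    intro a
    have h1 : ψ (bil X x₀ j a ((0, 1) : X.X × ℂ)) = X.act a θ := hψ a ((0, 1) : X.X × ℂ)
    have h2 : bil X x₀ j a ((0, 1) : X.X × ℂ) = ((a j • x₀, 0) : X.X × ℂ) := by
      show ((X.act a 0 + ((1 : ℂ) * a j) • x₀, 0) : X.X × ℂ) = _
      rw [act_zero_right, zero_add, one_mul]
    have h3 : ψ ((a j • x₀, 0) : X.X × ℂ) = a j • x₀ := hψ' (a j • x₀)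
    rw [h2, h3] at h1
    exact h1.symm
  have hs : Tendsto (fun s : ℂ => s • θ) (𝓝 0) (𝓝 0) := by
    have : Continuous (fun s : ℂ => s • θ) := continuous_id.smul continuous_const
    simpa using this.tendsto 0
  obtain ⟨s, hsV, hs0⟩ : ∃ s : ℂ, s • θ ∈ V ∧ s ≠ 0 := by
    have h1 : ∀ᶠ s in 𝓝[≠] (0 : ℂ), s • θ ∈ V := (hs.mono_left nhdsWithin_le_nhds) hV
    have h2 : ∀ᶠ s in 𝓝[≠] (0 : ℂ), s ≠ 0 := self_mem_nhdsWithin
    exact (h1.and h2).exists
  have hmem : (Pi.single j (s⁻¹) : ℕ → ℂ) ∈ U := by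
    apply hI
    intro i hi
    rw [Pi.single_eq_of_ne]
    intro hij
    exact hj (hij ▸ hi)
  have := hUV (Set.mk_mem_prod hmem hsV)
  apply this
  show X.act (Pi.single j (s⁻¹) : ℕ → ℂ) (s • θ) = x₀
  rw [(X.bilin.2.2.2 s _ θ).2, hact, Pi.single_eq_same, smul_smul, mul_inv_cancel₀ hs0, one_smul]

end Pool.Agent.H6.FA
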