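import Pool.Agent.H6.FA1

namespace Pool.Agent.H6.FA

open Filter Topology

universe v

/-- pairs (number, sequence) -/
noncomputable def uSp : FSp.{0} := ⟨ℂ × (ℕ → ℂ), frechet_prod frechet_C frechet_pi⟩

/-- product on pairs: the sequences form a square zero ideal -/
noncomputable def uMul (p q : ℂ × (ℕ → ℂ)) : ℂ × (ℕ → ℂ) := (p.1 * q.1, p.1 • q.2 + q.1 • p.2)

noncomputable def uAlg : FAlg.{0} where
  A := uSp
  mul := uMul
  bilin := by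
    refine ⟨?_, ?_, ?_, ?_⟩
    · show Continuous fun p : (ℂ × (ℕ → ℂ)) × (ℂ × (ℕ → ℂ)) => (p.1.1 * p.2.1, p.1.1 • p.2.2 + p.2.1 • p.1.2)
      fun_prop
    · intro (a : ℂ × (ℕ → ℂ)) (b : ℂ × (ℕ → ℂ)) (y : ℂ × (ℕ → ℂ))
      show uMul (a + b) y = uMul a y + uMul b y
      unfold uMul
      apply Prod.ext
      · simp [add_mul]
      · funext i; simp; ring
    · intro (a : ℂ × (ℕ → ℂ)) (y : ℂ × (ℕ → ℂ)) (z : ℂ × (ℕ → ℂ))
      show uMul a (y + z) = uMul a y + uMul a z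
      unfold uMul
      apply Prod.ext
      · simp [mul_add]
      · funext i; simp; ring
    · intro c (a : ℂ × (ℕ → ℂ)) (y : ℂ × (ℕ → ℂ))
      constructor
      · show uMul (c • a) y = c • uMul a y
        unfold uMul
        apply Prod.ext
        · simp [mul_assoc]
        · funext i; simp; ring
      · show uMul a (c • y) = c • uMul a y
        unfold uMul
        apply Prod.ext
        · simp; ring
        · funext i; simp; ring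
  assoc := by
    intro (a : ℂ × (ℕ → ℂ)) (b : ℂ × (ℕ → ℂ)) (c : ℂ × (ℕ → ℂ))
    show uMul (uMul a b) c = uMul a (uMul b c)
    unfold uMul
    apply Prod.ext
    · simp; ring
    · funext i; simp; ring

noncomputable def uOne : ℂ × (ℕ → ℂ) := (1, 0)

theorem uUnit : IsUnitComm uAlg uOne := by
  refine ⟨fun (a : ℂ × (ℕ → ℂ)) => ⟨?_, ?_⟩, fun (a : ℂ × (ℕ → ℂ)) (b : ℂ × (ℕ → ℂ)) => ?_⟩
  · show uMul uOne a = a
    unfold uMul
    apply Prod.ext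
    · simp [uOne]
    · funext i; simp [uOne]
  · show uMul a uOne = a
    unfold uMul
    apply Prod.ext
    · simp [uOne]
    · funext i; simp [uOne]
  · show uMul a b = uMul b a
    unfold uMul
    apply Prod.ext
    · show a.1 * b.1 = b.1 * a.1
      ring
    · funext i
      show a.1 * b.2 i + b.1 * a.2 i = b.1 * a.2 i + a.1 * b.2 i
      ring

variable (X : FMod.{0, v} uAlg) (hU : Unital (𝒜 := uAlg) uOne X)

include hU in
theorem act_decomp (p : ℂ × (ℕ → ℂ)) (x : X.X) :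
    X.act p x = p.1 • x + X.act ((0, p.2) : ℂ × (ℕ → ℂ)) x := by
  have h1 : p = p.1 • uOne + ((0, p.2) : ℂ × (ℕ → ℂ)) := by
    apply Prod.ext
    · simp [uOne]
    · simp [uOne]
  obtain ⟨b1, b2, b3, b4⟩ := X.bilin
  have h3 : X.act (p.1 • uOne + ((0, p.2) : ℂ × (ℕ → ℂ))) x =
    X.act (p.1 • uOne) x + X.act ((0, p.2) : ℂ × (ℕ → ℂ)) x := b2 _ _ x
  have h4 : X.act (p.1 • uOne) x = p.1 • X.act uOne x := (b4 p.1 uOne x).1
  conv_lhs => rw [h1]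
  rw [h3, h4, hU x]

theorem act_zero2 (a b : ℕ → ℂ) (x : X.X) :
    X.act ((0, a) : ℂ × (ℕ → ℂ)) (X.act ((0, b) : ℂ × (ℕ → ℂ)) x) = 0 := by
  have h := X.assoc ((0, a) : ℂ × (ℕ → ℂ)) ((0, b) : ℂ × (ℕ → ℂ)) x
  rw [← h]
  have h1 : uAlg.mul ((0, a) : ℂ × (ℕ → ℂ)) ((0, b) : ℂ × (ℕ → ℂ)) = (0 : ℂ × (ℕ → ℂ)) := by
    show uMul _ _ = _
    unfold uMul
    apply Prod.ext
    · simp
    · simp
  rw [h1]
  exact act_zero_left X x

noncomputable def bil2 (x₀ : X.X) (j : ℕ) (a : ℂ × (ℕ → ℂ)) (y : X.X × ℂ) : X.X × ℂ :=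
  (X.act a y.1 + (y.2 * a.2 j) • x₀, a.1 * y.2)

/-- the extension of `X` by a line -/
noncomputable def extMod2 (hU : Unital (𝒜 := uAlg) uOne X) (x₀ : X.X)
    (h : ∀ a : ℕ → ℂ, X.act ((0, a) : ℂ × (ℕ → ℂ)) x₀ = 0) (j : ℕ) :
    FMod.{0, v} uAlg where
  X := prodSp X.X
  act := bil2 X x₀ j
  bilin := by
    haveI := X.X.frechet.ugrp
    haveI := X.X.frechet.csmul
    obtain ⟨b1, b2, b3, b4⟩ := X.bilin
    refine ⟨?_, ?_, ?_, ?_⟩
    · have h1 : Continuous fun p : (ℂ × (ℕ → ℂ)) × (X.X × ℂ) => X.act p.1 p.2.1 :=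
        b1.comp (continuous_fst.prodMk (continuous_fst.comp continuous_snd))
      have h2 : Continuous fun p : (ℂ × (ℕ → ℂ)) × (X.X × ℂ) => (p.2.2 * p.1.2 j) • x₀ :=
        ((continuous_snd.comp continuous_snd).mul ((continuous_apply j).comp
          (continuous_snd.comp continuous_fst))).smul continuous_const
      have h3 : Continuous fun p : (ℂ × (ℕ → ℂ)) × (X.X × ℂ) => p.1.1 * p.2.2 := by fun_prop
      exact (h1.add h2).prodMk h3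
    · intro (a : ℂ × (ℕ → ℂ)) (b : ℂ × (ℕ → ℂ)) (y : X.X × ℂ)
      show ((X.act (a + b) y.1 + (y.2 * (a.2 j + b.2 j)) • x₀, (a.1 + b.1) * y.2) : X.X × ℂ) =
        (X.act a y.1 + (y.2 * a.2 j) • x₀ + (X.act b y.1 + (y.2 * b.2 j) • x₀),
          a.1 * y.2 + b.1 * y.2)
      have e : X.act (a + b) y.1 = X.act a y.1 + X.act b y.1 := b2 a b y.1
      rw [e, mul_add, add_smul, add_mul]
      congr 1
      abel
    · intro (a : ℂ × (ℕ → ℂ)) (y : X.X × ℂ) (z : X.X × ℂ)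
      show ((X.act a (y.1 + z.1) + ((y.2 + z.2) * a.2 j) • x₀, a.1 * (y.2 + z.2)) : X.X × ℂ) =
        (X.act a y.1 + (y.2 * a.2 j) • x₀ + (X.act a z.1 + (z.2 * a.2 j) • x₀),
          a.1 * y.2 + a.1 * z.2)
      rw [b3, add_mul, add_smul, mul_add]
      congr 1
      abel
    · intro c (a : ℂ × (ℕ → ℂ)) (y : X.X × ℂ)
      constructor
      · show ((X.act (c • a) y.1 + (y.2 * (c * a.2 j)) • x₀, (c * a.1) * y.2) : X.X × ℂ) =
          (c • (X.act a y.1 + (y.2 * a.2 j) • x₀), c * (a.1 * y.2))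
        have e : X.act (c • a) y.1 = c • X.act a y.1 := (b4 c a y.1).1
        rw [e, smul_add, smul_smul, mul_assoc]
        congr 3
        ring
      · show ((X.act a (c • y.1) + ((c * y.2) * a.2 j) • x₀, a.1 * (c * y.2)) : X.X × ℂ) =
          (c • (X.act a y.1 + (y.2 * a.2 j) • x₀), c * (a.1 * y.2))
        have e : X.act a (c • y.1) = c • X.act a y.1 := (b4 c a y.1).2
        rw [e, smul_add, smul_smul]
        congr 1
        · congr 2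
          ring
        · ring
  assoc := by
    intro (a : ℂ × (ℕ → ℂ)) (b : ℂ × (ℕ → ℂ)) (y : X.X × ℂ)
    obtain ⟨b1, b2, b3, b4⟩ := X.bilin
    have h1 : X.act (uMul a b) y.1 = X.act a (X.act b y.1) := X.assoc a b y.1
    have h2 : X.act a x₀ = a.1 • x₀ := by
      rw [act_decomp X hU, h, add_zero]
    have h3 : X.act a (X.act b y.1 + (y.2 * b.2 j) • x₀) =
      X.act a (X.act b y.1) + (y.2 * b.2 j) • X.act a x₀ := by rw [b3, (b4 _ a x₀).2]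
    show ((X.act (uMul a b) y.1 + (y.2 * (a.1 * b.2 j + b.1 * a.2 j)) • x₀, (a.1 * b.1) * y.2) : X.X × ℂ) =
        (X.act a (X.act b y.1 + (y.2 * b.2 j) • x₀) + ((b.1 * y.2) * a.2 j) • x₀, a.1 * (b.1 * y.2))
    rw [h1, h3, h2, smul_smul, add_assoc, ← add_smul, mul_assoc]
    congr 3
    ring

theorem extMod2_unital (x₀ : X.X) (h : ∀ a : ℕ → ℂ, X.act ((0, a) : ℂ × (ℕ → ℂ)) x₀ = 0) (j : ℕ) :
    Unital (𝒜 := uAlg) uOne (extMod2 X hU x₀ h j) := by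
  intro (y : X.X × ℂ)
  show ((X.act uOne y.1 + (y.2 * 0) • x₀, 1 * y.2) : X.X × ℂ) = y
  have h1 : X.act uOne y.1 = y.1 := hU y.1
  rw [h1]
  simp

include hU in
theorem main2 (hX : ∃ x : X.X, x ≠ 0) : ¬ InjectiveIn (Unital (𝒜 := uAlg) uOne) X := by
  intro hinj
  haveI := X.X.frechet.ugrp
  haveI := X.X.frechet.csmul
  haveI := X.X.frechet.hausdorff
  obtain ⟨x₀, hx₀, h0⟩ : ∃ x₀ : X.X, x₀ ≠ 0 ∧ ∀ a : ℕ → ℂ, X.act ((0, a) : ℂ × (ℕ → ℂ)) x₀ = 0 := by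
    obtain ⟨x, hx⟩ := hX
    by_cases h : ∀ a : ℕ → ℂ, X.act ((0, a) : ℂ × (ℕ → ℂ)) x = 0
    · exact ⟨x, hx, h⟩
    · push Not at h
      obtain ⟨b, hb⟩ := h
      exact ⟨X.act ((0, b) : ℂ × (ℕ → ℂ)) x, hb, fun a => act_zero2 X a b x⟩
  have hW : ({x₀}ᶜ : Set X.X) ∈ 𝓝 (0 : X.X) := isOpen_compl_singleton.mem_nhds (by
    simpa using hx₀.symm)
  have hc : Tendsto (fun p : (ℕ → ℂ) × X.X => X.act ((0, p.1) : ℂ × (ℕ → ℂ)) p.2) (𝓝 (0, 0)) (𝓝 0) := by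
    have hcont : Continuous (fun p : (ℕ → ℂ) × X.X => X.act ((0, p.1) : ℂ × (ℕ → ℂ)) p.2) :=
      X.bilin.1.comp ((continuous_const.prodMk continuous_fst).prodMk continuous_snd)
    have := hcont.tendsto ((0 : ℕ → ℂ), (0 : X.X))
    have e : X.act ((0, (0 : ℕ → ℂ)) : ℂ × (ℕ → ℂ)) (0 : X.X) = 0 := act_zero_right X _
    simp only at this
    rw [e] at this
    exact this
  have hpre := hc hW
  rw [Filter.mem_map, nhds_prod_eq, Filter.mem_prod_iff] at hpre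
  obtain ⟨U, hU', V, hV, hUV⟩ := hpre
  obtain ⟨I, hI⟩ : ∃ I : Finset ℕ, ∀ e : ℕ → ℂ, (∀ i ∈ I, e i = 0) → e ∈ U := by
    rw [nhds_pi, Filter.mem_pi] at hU'
    obtain ⟨I, hIf, t, ht, hsub⟩ := hU'
    refine ⟨hIf.toFinset, fun e he => hsub ?_⟩
    intro i hi
    rw [he i (hIf.mem_toFinset.2 hi)]
    exact mem_of_mem_nhds (ht i)
  obtain ⟨j, hj⟩ := Infinite.exists_notMem_finset I
  obtain ⟨ψ, ⟨_, hψ⟩, hψ'⟩ := hinj (extMod2 X hU x₀ h0 j) (extMod2_unital X hU x₀ h0 j)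
    (fun x => ((x, 0) : X.X × ℂ))
    ⟨inl_hom (𝒜 := uAlg) X.X, by
      intro (a : ℂ × (ℕ → ℂ)) x
      show ((X.act a x, 0) : X.X × ℂ) = (X.act a x + ((0 : ℂ) * a.2 j) • x₀, a.1 * 0)
      simp⟩
    ⟨_, fst_hom X.X, fun x => rfl⟩
  set θ : X.X := ψ ((0, 1) : X.X × ℂ) with hθ
  have hact : ∀ a : ℕ → ℂ, X.act ((0, a) : ℂ × (ℕ → ℂ)) θ = a j • x₀ := by
    intro a
    have h1 : ψ (bil2 X x₀ j ((0, a) : ℂ × (ℕ → ℂ)) ((0, 1) : X.X × ℂ)) =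
      X.act ((0, a) : ℂ × (ℕ → ℂ)) θ := hψ ((0, a) : ℂ × (ℕ → ℂ)) ((0, 1) : X.X × ℂ)
    have h2 : bil2 X x₀ j ((0, a) : ℂ × (ℕ → ℂ)) ((0, 1) : X.X × ℂ) = ((a j • x₀, 0) : X.X × ℂ) := by
      show ((X.act ((0, a) : ℂ × (ℕ → ℂ)) 0 + ((1 : ℂ) * a j) • x₀, (0 : ℂ) * 1) : X.X × ℂ) = _
      rw [act_zero_right, zero_add, one_mul, zero_mul]
    have h3 : ψ ((a j • x₀, 0) : X.X × ℂ) = a j • x₀ := hψ' (a j • x₀)
    rw [h2, h3] at h1
    exact h1.symm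
  have hs : Tendsto (fun s : ℂ => s • θ) (𝓝 0) (𝓝 0) := by
    have : Continuous (fun s : ℂ => s • θ) := continuous_id.smul continuous_const
    simpa using this.tendsto 0
  obtain ⟨s, hsV, hs0⟩ : ∃ s : ℂ, s • θ ∈ V ∧ s ≠ 0 := by
    have h1 : ∀ᶠ s in 𝓝[≠] (0 : ℂ), s • θ ∈ V := (hs.mono_left nhdsWithin_le_nhds) hV
    have h2 : ∀ᶠ s in 𝓝[≠] (0 : ℂ), s ≠ 0 := self_mem_nhdsWithin
    exact (h1.and h2).exists
  have hmem : (Pi.single j (s⁻¹) : ℕ → ℂ) ∈ U := by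
    apply hI
    intro i hi
    rw [Pi.single_eq_of_ne]
    intro hij
    exact hj (hij ▸ hi)
  have := hUV (Set.mk_mem_prod hmem hsV)
  apply this
  show X.act ((0, (Pi.single j (s⁻¹) : ℕ → ℂ)) : ℂ × (ℕ → ℂ)) (s • θ) = x₀
  rw [(X.bilin.2.2.2 s _ θ).2, hact, Pi.single_eq_same, smul_smul, mul_inv_cancel₀ hs0, one_smul]

theorem main :
    (∃ 𝒜 : FAlg.{0}, ∀ X : FMod.{0, v} 𝒜, (∃ x : X.X, x ≠ 0) → ¬ Injective X) ∧
    (∃ (𝒜 : FAlg.{0}) (e : 𝒜.A), IsUnitComm 𝒜 e ∧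
      ∀ X : FMod.{0, v} 𝒜, Unital e X → (∃ x : X.X, x ≠ 0) → ¬ InjectiveIn (Unital e) X) :=
  ⟨⟨zeroAlg, fun X hX => main1 X hX⟩, ⟨uAlg, uOne, uUnit, fun X hU hX => main2 X hU hX⟩⟩

end Pool.Agent.H6.FA
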