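import Pool.Agent.H6.FADefs

/-!
Coresolutions of Frechet modules.
-/

namespace Pool.Agent.H6.FA

universe u v

variable {𝒜 : FAlg.{u}}

/-- `0 → X → J 0 → J 1 → ⋯` (with maps `ε` and `d k`) is a coresolution of `X`: `ε` and the `d k`
are module morphisms, consecutive compositions vanish, and there is a contracting homotopy
(`σ`, `s k`) made of continuous linear maps. -/
structure IsCoresolution (X : FMod.{u, v} 𝒜) (J : ℕ → FMod.{u, v} 𝒜) (ε : X.X → (J 0).X)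
    (d : ∀ k, (J k).X → (J (k + 1)).X) : Prop where
  ε_hom : IsHom X (J 0) ε
  d_hom : ∀ k, IsHom (J k) (J (k + 1)) (d k)
  d_ε : ∀ x, d 0 (ε x) = 0
  d_d : ∀ k y, d (k + 1) (d k y) = 0
  homotopy : ∃ (σ : (J 0).X → X.X) (s : ∀ k, (J (k + 1)).X → (J k).X),
    CLin (J 0).X X.X σ ∧ (∀ k, CLin (J (k + 1)).X (J k).X (s k)) ∧
    (∀ x, σ (ε x) = x) ∧ (∀ y, ε (σ y) + s 0 (d 0 y) = y) ∧
    ∀ k y, d k (s k y) + s (k + 1) (d (k + 1) y) = y

/-- `X` has an injective coresolution within the class of the modules satisfying `P`. -/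
def HasInjCoresIn (P : FMod.{u, v} 𝒜 → Prop) (X : FMod.{u, v} 𝒜) : Prop :=
  ∃ (J : ℕ → FMod.{u, v} 𝒜) (ε : X.X → (J 0).X) (d : ∀ k, (J k).X → (J (k + 1)).X),
    IsCoresolution X J ε d ∧ ∀ k, P (J k) ∧ InjectiveIn P (J k)

end Pool.Agent.H6.FA
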