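import Pool.Agent.H6.FACores
import Pool.Agent.H6.FA2

namespace Pool.Agent.H6.FA

universe u v

theorem IsCoresolution.ne_zero {𝒜 : FAlg.{u}} {X : FMod.{u, v} 𝒜} {J : ℕ → FMod.{u, v} 𝒜}
    {ε : X.X → (J 0).X}
    {d : ∀ k, (J k).X → (J (k + 1)).X} (h : IsCoresolution X J ε d) (hX : ∃ x : X.X, x ≠ 0) :
    ∃ y : (J 0).X, y ≠ 0 := by
  obtain ⟨x, hx⟩ := hX
  obtain ⟨σ, s, hσ, -, h1, -⟩ := h.homotopy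
  refine ⟨ε x, fun h0 => hx ?_⟩
  rw [← h1 x, h0]
  have := hσ.2.2 0 0
  simpa using this

theorem mainCores :
    (∃ 𝒜 : FAlg.{0}, (∃ X : FMod.{0, 0} 𝒜, ∃ x : X.X, x ≠ 0) ∧
      ∀ X : FMod.{0, v} 𝒜, (∃ x : X.X, x ≠ 0) → ¬ HasInjCoresIn (fun _ => True) X) ∧
    (∃ (𝒜 : FAlg.{0}) (e : 𝒜.A), IsUnitComm 𝒜 e ∧
      (∃ X : FMod.{0, 0} 𝒜, Unital e X ∧ ∃ x : X.X, x ≠ 0) ∧
      ∀ X : FMod.{0, v} 𝒜, Unital e X → (∃ x : X.X, x ≠ 0) → ¬ HasInjCoresIn (Unital e) X) := by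
  refine ⟨⟨zeroAlg, ⟨⟨zeroAlg.A, zeroAlg.mul, zeroAlg.bilin, zeroAlg.assoc⟩,
    (fun _ => 1 : ℕ → ℂ), ?_⟩, ?_⟩, ⟨uAlg, uOne, uUnit,
    ⟨⟨uAlg.A, uAlg.mul, uAlg.bilin, uAlg.assoc⟩, fun a => (uUnit.1 a).1, uOne, ?_⟩, ?_⟩⟩
  · intro h
    have : (fun _ => 1 : ℕ → ℂ) 0 = 0 := congrFun h 0
    exact one_ne_zero this
  · rintro X hX ⟨J, ε, d, h, hJ⟩
    exact main1 (J 0) (h.ne_zero hX) (hJ 0).2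
  · intro h
    have : (uOne).1 = 0 := congrArg Prod.fst h
    exact one_ne_zero this
  · rintro X - hX ⟨J, ε, d, h, hJ⟩
    exact main2 (J 0) (hJ 0).1 (h.ne_zero hX) (hJ 0).2

end Pool.Agent.H6.FA
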