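import Mathlib

/-!
Frechet spaces, Frechet algebras and (left) Frechet modules over the complex numbers.
-/

namespace Pool.Agent.H6.FA

open scoped Uniformity Topology

universe u v w

/-- Local convexity: the neighbourhoods of `0` have a basis of convex sets. -/
def LocConvex (X : Type u) [AddCommGroup X] [Module ℂ X] [TopologicalSpace X] : Prop :=
  ∀ U ∈ 𝓝 (0 : X), ∃ V ∈ 𝓝 (0 : X), V ⊆ U ∧
    ∀ x ∈ V, ∀ y ∈ V, ∀ t : ℝ, 0 ≤ t → t ≤ 1 → (t : ℂ) • x + (1 - t : ℂ) • y ∈ V

/-- A Frechet space over `ℂ`: a complete metrizable (Hausdorff, first countable) locally convex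
topological vector space. -/
structure IsFrechet (X : Type u) [AddCommGroup X] [Module ℂ X] [UniformSpace X] : Prop where
  ugrp : IsUniformAddGroup X
  csmul : ContinuousSMul ℂ X
  convex : LocConvex X
  complete : CompleteSpace X
  hausdorff : T2Space X
  countable : (𝓤 X).IsCountablyGenerated

/-- The bundled version. -/
structure FSp : Type (u + 1) where
  carrier : Type u
  [grp : AddCommGroup carrier]
  [mod : Module ℂ carrier]
  [uni : UniformSpace carrier]
  frechet : IsFrechet carrier

attribute [instance] FSp.grp FSp.mod FSp.uni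

instance : CoeSort FSp.{u} (Type u) := ⟨FSp.carrier⟩

/-- Jointly continuous bilinear maps. -/
def CBilin (X : FSp.{u}) (Y : FSp.{v}) (Z : FSp.{w}) (f : X → Y → Z) : Prop :=
  (Continuous fun p : X × Y => f p.1 p.2) ∧
    (∀ x x' y, f (x + x') y = f x y + f x' y) ∧ (∀ x y y', f x (y + y') = f x y + f x y') ∧
    ∀ (c : ℂ) x y, f (c • x) y = c • f x y ∧ f x (c • y) = c • f x y

/-- Continuous linear maps. -/
def CLin (X : FSp.{u}) (Y : FSp.{v}) (f : X → Y) : Prop :=
  Continuous f ∧ (∀ x x', f (x + x') = f x + f x') ∧ ∀ (c : ℂ) x, f (c • x) = c • f x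

/-- A Frechet algebra: a Frechet space with a jointly continuous associative bilinear product. -/
structure FAlg : Type (u + 1) where
  A : FSp.{u}
  mul : A → A → A
  bilin : CBilin A A A mul
  assoc : ∀ a b c : A, mul (mul a b) c = mul a (mul b c)

/-- A left Frechet module over a Frechet algebra, with jointly continuous action. -/
structure FMod (𝒜 : FAlg.{u}) : Type (max (u + 1) (v + 1)) where
  X : FSp.{v}
  act : 𝒜.A → X → X
  bilin : CBilin 𝒜.A X X act
  assoc : ∀ (a b : 𝒜.A) (x : X), act (𝒜.mul a b) x = act a (act b x)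

variable {𝒜 : FAlg.{u}}

/-- Module morphisms: continuous linear maps commuting with the action. -/
def IsHom (X Y : FMod.{u, v} 𝒜) (f : X.X → Y.X) : Prop :=
  CLin X.X Y.X f ∧ ∀ (a : 𝒜.A) (x : X.X), f (X.act a x) = Y.act a (f x)

/-- Injectivity of `X` in the full subcategory of the modules satisfying `P`: every module morphism
from `X` to such a module which has a continuous linear left inverse has a left inverse which is a
module morphism. -/
def InjectiveIn (P : FMod.{u, v} 𝒜 → Prop) (X : FMod.{u, v} 𝒜) : Prop :=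
  ∀ Y : FMod.{u, v} 𝒜, P Y → ∀ φ : X.X → Y.X, IsHom X Y φ →
    (∃ ψ : Y.X → X.X, CLin Y.X X.X ψ ∧ ∀ x, ψ (φ x) = x) →
    ∃ ψ : Y.X → X.X, IsHom Y X ψ ∧ ∀ x, ψ (φ x) = x

/-- Injectivity in the category of all Frechet modules. -/
def Injective (X : FMod.{u, v} 𝒜) : Prop := InjectiveIn (fun _ => True) X

/-- `e` is a two-sided unit and the algebra is commutative. -/
def IsUnitComm (𝒜 : FAlg.{u}) (e : 𝒜.A) : Prop :=
  (∀ a, 𝒜.mul e a = a ∧ 𝒜.mul a e = a) ∧ ∀ a b, 𝒜.mul a b = 𝒜.mul b a

/-- Unital modules (with respect to `e`). -/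
def Unital (e : 𝒜.A) (X : FMod.{u, v} 𝒜) : Prop := ∀ x : X.X, X.act e x = x

end Pool.Agent.H6.FA
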