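import Mathlib

namespace Pool.Agent.H6.FG4

open FreeGroup

variable {α : Type*} [DecidableEq α]

lemma toWord_mk_mul (w : α × Bool) (x : FreeGroup α) (h : x.toWord.head? ≠ some (w.1, !w.2)) :
    (mk [w] * x).toWord = w :: x.toWord := by
  rw [toWord_mul, toWord_mk, reduce_singleton, List.singleton_append]
  refine IsReduced.reduce_eq ?_
  have hx : IsReduced x.toWord := isReduced_toWord
  cases hL : x.toWord with
  | nil => exact IsReduced.singleton
  | cons z L =>
    rw [hL] at hx h
    rw [isReduced_cons_cons]
    refine ⟨fun h1 => ?_, hx⟩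
    simp only [List.head?_cons, ne_eq, Option.some.injEq] at h
    by_contra h2
    apply h
    ext
    · exact h1.symm
    · simp only
      cases hw : w.2 <;> cases hz : z.2 <;> simp_all

lemma isReduced_append_singleton {L : List (α × Bool)} {z : α × Bool} (hL : IsReduced L)
    (h : L.getLast? ≠ some (z.1, !z.2)) : IsReduced (L ++ [z]) := by
  unfold FreeGroup.IsReduced at *
  rw [List.isChain_append]
  refine ⟨hL, List.isChain_singleton _, ?_⟩
  intro x hx y hy hxy
  simp only [List.head?_cons, Option.mem_def, Option.some.injEq] at hx hy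
  subst hy
  by_contra h2
  apply h
  rw [hx]
  congr 1
  ext
  · exact hxy
  · simp only
    cases hw : x.2 <;> cases hz : z.2 <;> simp_all

lemma toWord_mul_mk (w : α × Bool) (x : FreeGroup α) (h : x.toWord.getLast? ≠ some (w.1, !w.2)) :
    (x * mk [w]).toWord = x.toWord ++ [w] := by
  rw [toWord_mul, toWord_mk, reduce_singleton]
  exact IsReduced.reduce_eq (isReduced_append_singleton isReduced_toWord h)

/-- first letter after two-sided multiplication -/
lemma head_conj (i j : α) (hij : i ≠ j) (b c : Bool) (x : FreeGroup α)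
    (h : x.toWord.head? ≠ some (i, !b)) :
    (mk [(i, b)] * x * mk [(j, c)]).toWord.head? = some (i, b) := by
  have h1 := toWord_mk_mul (i, b) x h
  by_cases h2 : (mk [(i, b)] * x).toWord.getLast? = some (j, !c)
  · have hred : IsReduced ((i, b) :: x.toWord) := h1 ▸ isReduced_toWord
    rcases List.eq_nil_or_concat x.toWord with hL | ⟨L, z, hL⟩
    · rw [h1, hL] at h2
      simp at h2
      exact absurd h2.1 hij
    · have hL' : x.toWord = L ++ [z] := by simpa using hL
      rw [h1, hL'] at h2
      have hz : z = (j, !c) := by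
        have : ((i, b) :: (L ++ [z])).getLast? = some z := by
          rw [← List.cons_append, List.getLast?_append]
          simp
        rw [this] at h2
        exact Option.some.inj h2
      subst hz
      have h3 : mk [(i, b)] * x * mk [(j, c)] = mk ((i, b) :: L) := by
        have hx : x = mk L * mk [(j, !c)] := by rw [mul_mk, ← hL', mk_toWord]
        have h4 : (mk [(j, !c)] : FreeGroup α) * mk [(j, c)] = 1 := by
          have : (mk [(j, !c)] : FreeGroup α) = (mk [(j, c)])⁻¹ := by
            rw [inv_mk]; rfl
          rw [this, inv_mul_cancel]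
        have h5 : (mk ((i, b) :: L) : FreeGroup α) = mk [(i, b)] * mk L := by
          rw [mul_mk]; rfl
        rw [hx, h5, mul_assoc, mul_assoc, h4, mul_one]
      have h6 : IsReduced ((i, b) :: L) := by
        rw [hL', ← List.cons_append] at hred
        unfold FreeGroup.IsReduced at hred ⊢
        exact (List.isChain_append.mp hred).1
      rw [h3, toWord_mk, h6.reduce_eq]
      rfl
  · rw [toWord_mul_mk (j, c) _ h2, h1]
    rfl

/-- good for conjugation by the letter `k` -/
def Good (k : α) (x : FreeGroup α) : Prop :=
  x.toWord ≠ [] ∧ x.toWord.head? ≠ some (k, false) ∧ x.toWord.getLast? ≠ some (k, true)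

lemma conj_word (k : α) (x : FreeGroup α) (h : Good k x) :
    (mk [(k, true)] * x * mk [(k, false)]).toWord = (k, true) :: (x.toWord ++ [(k, false)]) := by
  have h1 := toWord_mk_mul (k, true) x h.2.1
  rw [toWord_mul_mk, h1]
  · simp
  · rw [h1]
    rcases List.eq_nil_or_concat x.toWord with hL | ⟨L, z, hL⟩
    · exact absurd hL h.1
    · have hL' : x.toWord = L ++ [z] := by simpa using hL
      rw [hL']
      have h2 := h.2.2
      rw [hL'] at h2
      rw [← List.cons_append, List.getLast?_append]
      simpa using h2

lemma conj_good (k : α) (x : FreeGroup α) (h : Good k x) :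
    Good k (mk [(k, true)] * x * mk [(k, false)]) := by
  refine ⟨?_, ?_, ?_⟩
  · rw [conj_word k x h]; simp
  · rw [conj_word k x h]; simp
  · rw [conj_word k x h, ← List.cons_append, List.getLast?_append]; simp

lemma iter_length (k : α) (x : FreeGroup α) (h : Good k x) (n : ℕ) :
    Good k ((of k) ^ n * x * ((of k) ^ n)⁻¹) ∧
    ((of k) ^ n * x * ((of k) ^ n)⁻¹).toWord.length = x.toWord.length + 2 * n := by
  induction n with
  | zero => simpa using h
  | succ n ih =>
    have e : (of k) ^ (n + 1) * x * ((of k) ^ (n + 1))⁻¹ =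
        mk [(k, true)] * ((of k) ^ n * x * ((of k) ^ n)⁻¹) * mk [(k, false)] := by
      have e1 : (mk [(k, true)] : FreeGroup α) = of k := rfl
      have e2 : (mk [(k, false)] : FreeGroup α) = (of k)⁻¹ := by
        rw [of, inv_mk]; rfl
      rw [e1, e2, pow_succ']
      group
    rw [e]
    refine ⟨conj_good k _ ih.1, ?_⟩
    rw [conj_word k _ ih.1]
    simp [ih.2]
    ring

lemma iter_inj (k : α) (x : FreeGroup α) (h : Good k x) :
    Function.Injective fun n : ℕ => (of k) ^ n * x * ((of k) ^ n)⁻¹ := by
  intro m n hmn
  have h1 := (iter_length k x h m).2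
  have h2 := (iter_length k x h n).2
  simp only at hmn
  rw [hmn] at h1
  omega

/-- conjugacy classes are infinite -/
lemma icc (x : FreeGroup (Fin 4)) (hx : x ≠ 1) :
    ∃ k : Fin 4, Function.Injective fun n : ℕ => (of k) ^ n * x * ((of k) ^ n)⁻¹ := by
  have hw : x.toWord ≠ [] := fun h => hx (toWord_eq_nil_iff.mp h)
  obtain ⟨k, hk1, hk2⟩ : ∃ k : Fin 4, k ≠ (x.toWord.head hw).1 ∧ k ≠ (x.toWord.getLast hw).1 := by
    generalize (x.toWord.head hw).1 = u
    generalize (x.toWord.getLast hw).1 = v
    revert u v
    decide
  refine ⟨k, iter_inj k x ⟨hw, ?_, ?_⟩⟩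
  · rw [List.head?_eq_some_head hw]
    intro h
    exact hk1 (by rw [Option.some.inj h])
  · rw [List.getLast?_eq_some_getLast hw]
    intro h
    exact hk2 (by rw [Option.some.inj h])

end Pool.Agent.H6.FG4
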