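import Mathlib
import Pool.Agent.H6.ExpInt

set_option autoImplicit false

/-! The flow of `Z = w ∂_w + x² ∂_x + (y + x + w) ∂_y` and the germ `f`. -/

namespace Pool.Agent.H6.Flow

open Filter Topology Pool.Agent.H6.ExpInt

noncomputable def Phi (τ : ℂ) (p : Fin 3 → ℂ) : Fin 3 → ℂ :=
  ![p 0 * Complex.exp τ, p 1 / (1 - τ * p 1), Complex.exp τ * (p 2 + p 0 * τ + Ifun τ (p 1))]

@[simp] lemma Phi_0 (τ : ℂ) (p : Fin 3 → ℂ) : Phi τ p 0 = p 0 * Complex.exp τ := rfl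
@[simp] lemma Phi_1 (τ : ℂ) (p : Fin 3 → ℂ) : Phi τ p 1 = p 1 / (1 - τ * p 1) := rfl
@[simp] lemma Phi_2 (τ : ℂ) (p : Fin 3 → ℂ) :
    Phi τ p 2 = Complex.exp τ * (p 2 + p 0 * τ + Ifun τ (p 1)) := rfl

lemma ext3 {a b : Fin 3 → ℂ} (h0 : a 0 = b 0) (h1 : a 1 = b 1) (h2 : a 2 = b 2) : a = b := by
  funext i
  fin_cases i
  · exact h0
  · exact h1
  · exact h2

lemma Phi_zero (p : Fin 3 → ℂ) : Phi 0 p = p := by
  apply ext3 <;> simp [Ifun_zero]

lemma Phi_comp (a b : ℂ) (p : Fin 3 → ℂ) (h : (‖a‖ + ‖b‖) * ‖p 1‖ < 1) :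
    Phi a (Phi b p) = Phi (a + b) p := by
  have hb : ‖b * p 1‖ < 1 := by
    rw [norm_mul]
    nlinarith [mul_nonneg (norm_nonneg a) (norm_nonneg (p 1))]
  have hbne : 1 - b * p 1 ≠ 0 := by
    intro h0
    have h3 : b * p 1 = 1 := by linear_combination -h0
    rw [h3] at hb
    simp at hb
  have habne : 1 - (a + b) * p 1 ≠ 0 := by
    intro h0
    have h3 : (a + b) * p 1 = 1 := by linear_combination -h0
    have h4 : ‖(a + b) * p 1‖ < 1 := by
      rw [norm_mul]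
      refine lt_of_le_of_lt ?_ h
      gcongr
      exact norm_add_le _ _
    rw [h3] at h4
    simp at h4
  apply ext3
  · simp only [Phi_0]
    rw [mul_assoc, ← Complex.exp_add, add_comm b a]
  · simp only [Phi_1]
    have h1 : 1 - a * (p 1 / (1 - b * p 1)) ≠ 0 := by
      intro h0
      apply habne
      have h10 : p 1 / (1 - b * p 1) * (1 - b * p 1) = p 1 := div_mul_cancel₀ _ hbne
      have : (1 - a * (p 1 / (1 - b * p 1))) * (1 - b * p 1) = 1 - (a + b) * p 1 := by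
        linear_combination (-a) * h10
      rw [← this, h0, zero_mul]
    rw [div_eq_div_iff h1 habne]
    have h10 : p 1 / (1 - b * p 1) * (1 - b * p 1) = p 1 := div_mul_cancel₀ _ hbne
    linear_combination h10
  · simp only [Phi_2, Phi_1, Phi_0]
    rw [Ifun_cocycle a b (p 1) h, Complex.exp_add]
    have hexp : Complex.exp b * Complex.exp (-b) = 1 := by
      rw [← Complex.exp_add]; simp
    linear_combination (-(Complex.exp a) * Ifun a (p 1 / (1 - b * p 1))) * hexp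

lemma analyticAt_coord (i : Fin 3) (p : Fin 3 → ℂ) : AnalyticAt ℂ (fun q : Fin 3 → ℂ => q i) p :=
  (ContinuousLinearMap.proj (R := ℂ) (φ := fun _ : Fin 3 => ℂ) i).analyticAt p

lemma Phi_analytic (s : ℂ → ℂ) (p : Fin 3 → ℂ) (hs : AnalyticAt ℂ s (p 0)) (h : ‖s (p 0) * p 1‖ < 1) :
    AnalyticAt ℂ (fun q : Fin 3 → ℂ => Phi (s (q 0)) q) p := by
  have h0 := analyticAt_coord 0 p
  have h1 := analyticAt_coord 1 p
  have h2 := analyticAt_coord 2 p
  have hs0 : AnalyticAt ℂ (fun q : Fin 3 → ℂ => s (q 0)) p :=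
    AnalyticAt.fun_comp (g := s) (f := fun q : Fin 3 → ℂ => q 0) hs h0
  have hexp : AnalyticAt ℂ (fun q : Fin 3 → ℂ => Complex.exp (s (q 0))) p := hs0.cexp
  have hI : AnalyticAt ℂ (fun q : Fin 3 → ℂ => Ifun (s (q 0)) (q 1)) p := by
    unfold Ifun
    apply AnalyticAt.mul
    · exact hs0.mul h1
    · exact AnalyticAt.fun_comp (g := fun p : ℂ × ℂ => H p.1 p.2)
        (f := fun q : Fin 3 → ℂ => (s (q 0), s (q 0) * q 1)) (H_analytic _ _ h)
        (hs0.prod (hs0.mul h1))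
  have hne : 1 - s (p 0) * p 1 ≠ 0 := by
    intro h0
    have h3 : s (p 0) * p 1 = 1 := by linear_combination -h0
    rw [h3] at h
    simp at h
  rw [analyticAt_pi_iff]
  intro i
  fin_cases i
  · exact h0.mul hexp
  · exact h1.div (analyticAt_const.sub (hs0.mul h1)) hne
  · exact hexp.mul ((h2.add (h0.mul hs0)).add hI)

/-- time functions -/
noncomputable def sf (w : ℂ) : ℂ := -Complex.log (1 - w)
noncomputable def sg (w : ℂ) : ℂ := -Complex.log (1 + w)

lemma sf_analytic {w : ℂ} (hw : ‖w‖ < 1) : AnalyticAt ℂ sf w := by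
  unfold sf
  apply AnalyticAt.neg
  apply AnalyticAt.clog
  · exact analyticAt_const.sub analyticAt_id
  · left
    have : w.re < 1 := lt_of_le_of_lt (Complex.re_le_norm w) hw
    simpa using this

lemma sg_analytic {w : ℂ} (hw : ‖w‖ < 1) : AnalyticAt ℂ sg w := by
  unfold sg
  apply AnalyticAt.neg
  apply AnalyticAt.clog
  · exact analyticAt_const.add analyticAt_id
  · left
    have : |w.re| < 1 := lt_of_le_of_lt (Complex.abs_re_le_norm w) hw
    have := (abs_lt.1 this).1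
    simp
    linarith

@[simp] lemma sf_zero : sf 0 = 0 := by simp [sf]
@[simp] lemma sg_zero : sg 0 = 0 := by simp [sg]

lemma exp_sf {w : ℂ} (hw : ‖w‖ < 1) : Complex.exp (sf w) = 1 / (1 - w) := by
  unfold sf
  rw [Complex.exp_neg, Complex.exp_log, one_div]
  intro h
  have : w = 1 := by linear_combination -h
  rw [this] at hw
  simp at hw

lemma exp_sg {w : ℂ} (hw : ‖w‖ < 1) : Complex.exp (sg w) = 1 / (1 + w) := by
  unfold sg
  rw [Complex.exp_neg, Complex.exp_log, one_div]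
  intro h
  have : w = -1 := by linear_combination h
  rw [this] at hw
  simp at hw

noncomputable def f (p : Fin 3 → ℂ) : Fin 3 → ℂ := Phi (sf (p 0)) p
noncomputable def fi (p : Fin 3 → ℂ) : Fin 3 → ℂ := Phi (sg (p 0)) p
noncomputable def h (p : Fin 3 → ℂ) : Fin 3 → ℂ := Phi (Real.pi * Complex.I) p
noncomputable def hi (p : Fin 3 → ℂ) : Fin 3 → ℂ := Phi (-(Real.pi * Complex.I)) p

lemma f_analytic : AnalyticAt ℂ f 0 := Phi_analytic sf 0 (sf_analytic (by simp)) (by simp)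
lemma fi_analytic : AnalyticAt ℂ fi 0 := Phi_analytic sg 0 (sg_analytic (by simp)) (by simp)
lemma h_analytic : AnalyticAt ℂ h 0 :=
  Phi_analytic (fun _ => Real.pi * Complex.I) 0 analyticAt_const (by simp)
lemma hi_analytic : AnalyticAt ℂ hi 0 :=
  Phi_analytic (fun _ => -(Real.pi * Complex.I)) 0 analyticAt_const (by simp)

lemma Phi_at_zero (τ : ℂ) : Phi τ 0 = 0 := by
  apply ext3 <;> simp [Ifun]

lemma f_zero : f 0 = 0 := Phi_at_zero _
lemma fi_zero : fi 0 = 0 := Phi_at_zero _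
lemma h_zero : h 0 = 0 := Phi_at_zero _
lemma hi_zero : hi 0 = 0 := Phi_at_zero _

/-- smallness conditions that hold near `0`. -/
lemma small : ∀ᶠ p : Fin 3 → ℂ in 𝓝 0, ‖p 0‖ < 1 / 2 ∧
    (2 * Real.pi + 2 * ‖sf (p 0)‖ + 2 * ‖sg (p 0)‖) * ‖p 1‖ < 1 := by
  have hc0 : ContinuousAt (fun p : Fin 3 → ℂ => p 0) 0 := (analyticAt_coord 0 0).continuousAt
  have hc1 : ContinuousAt (fun p : Fin 3 → ℂ => p 1) 0 := (analyticAt_coord 1 0).continuousAt
  have h1 : ContinuousAt (fun p : Fin 3 → ℂ => sf (p 0)) 0 :=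
    ContinuousAt.comp (g := sf) (f := fun p : Fin 3 → ℂ => p 0) (sf_analytic (by simp)).continuousAt hc0
  have h2 : ContinuousAt (fun p : Fin 3 → ℂ => sg (p 0)) 0 :=
    ContinuousAt.comp (g := sg) (f := fun p : Fin 3 → ℂ => p 0) (sg_analytic (by simp)).continuousAt hc0
  have h3 : ContinuousAt (fun p : Fin 3 → ℂ =>
      (2 * Real.pi + 2 * ‖sf (p 0)‖ + 2 * ‖sg (p 0)‖) * ‖p 1‖) 0 :=
    ((continuousAt_const.add (continuousAt_const.mul h1.norm)).add
      (continuousAt_const.mul h2.norm)).mul hc1.norm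
  refine (hc0.norm.eventually_lt continuousAt_const (by simp)).and
    (h3.eventually_lt continuousAt_const (by simp))

lemma one_sub_ne {w : ℂ} (hw : ‖w‖ < 1 / 2) : 1 - w ≠ 0 := by
  intro h
  have : w = 1 := by linear_combination -h
  rw [this] at hw
  norm_num at hw

lemma one_add_ne {w : ℂ} (hw : ‖w‖ < 1 / 2) : 1 + w ≠ 0 := by
  intro h
  have : w = -1 := by linear_combination h
  rw [this] at hw
  norm_num at hw

lemma sf_neg_arg {w : ℂ} (hw : ‖w‖ < 1 / 2) : sf (-(w / (1 - w))) = -sf w := by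
  unfold sf
  have h1 := one_sub_ne hw
  have h2 : 1 - -(w / (1 - w)) = (1 - w)⁻¹ := by field_simp; ring
  rw [h2, Complex.log_inv]
  intro harg
  have hre : (1 - w).re < 0 := (Complex.arg_eq_pi_iff.1 harg).1
  have : w.re < 1 / 2 := lt_of_le_of_lt (Complex.re_le_norm w) hw
  simp at hre
  linarith

lemma sf_arg2 {w : ℂ} (hw : ‖w‖ < 1 / 2) : sf (w / (1 + w)) = -sg w := by
  unfold sf sg
  have h1 := one_add_ne hw
  have h2 : 1 - (w / (1 + w)) = (1 + w)⁻¹ := by field_simp; ring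
  rw [h2, Complex.log_inv]
  intro harg
  have hre : (1 + w).re < 0 := (Complex.arg_eq_pi_iff.1 harg).1
  have : |w.re| < 1 / 2 := lt_of_le_of_lt (Complex.abs_re_le_norm w) hw
  have := (abs_lt.1 this).1
  simp at hre
  linarith

lemma sg_arg2 {w : ℂ} (hw : ‖w‖ < 1 / 2) : sg (w / (1 - w)) = -sf w := by
  unfold sf sg
  have h1 := one_sub_ne hw
  have h2 : 1 + (w / (1 - w)) = (1 - w)⁻¹ := by field_simp; ring
  rw [h2, Complex.log_inv]
  intro harg
  have hre : (1 - w).re < 0 := (Complex.arg_eq_pi_iff.1 harg).1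
  have : w.re < 1 / 2 := lt_of_le_of_lt (Complex.re_le_norm w) hw
  simp at hre
  linarith

lemma f_fi : f ∘ fi =ᶠ[𝓝 (0 : Fin 3 → ℂ)] id := by
  filter_upwards [small] with p hp
  obtain ⟨h0, h1⟩ := hp
  have hpi := Real.pi_pos
  have n1 := norm_nonneg (sf (p 0))
  have n2 := norm_nonneg (sg (p 0))
  have n3 := norm_nonneg (p 1)
  show Phi (sf (Phi (sg (p 0)) p 0)) (Phi (sg (p 0)) p) = p
  have e : Phi (sg (p 0)) p 0 = p 0 / (1 + p 0) := by
    rw [Phi_0, exp_sg (by linarith), mul_one_div]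
  rw [e, sf_arg2 h0, Phi_comp, neg_add_cancel, Phi_zero]
  rw [norm_neg]
  nlinarith [mul_nonneg n1 n3, mul_nonneg n2 n3, mul_nonneg hpi.le n3]

lemma fi_f : fi ∘ f =ᶠ[𝓝 (0 : Fin 3 → ℂ)] id := by
  filter_upwards [small] with p hp
  obtain ⟨h0, h1⟩ := hp
  have hpi := Real.pi_pos
  have n1 := norm_nonneg (sf (p 0))
  have n2 := norm_nonneg (sg (p 0))
  have n3 := norm_nonneg (p 1)
  show Phi (sg (Phi (sf (p 0)) p 0)) (Phi (sf (p 0)) p) = p
  have e : Phi (sf (p 0)) p 0 = p 0 / (1 - p 0) := by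
    rw [Phi_0, exp_sf (by linarith), mul_one_div]
  rw [e, sg_arg2 h0, Phi_comp, neg_add_cancel, Phi_zero]
  rw [norm_neg]
  nlinarith [mul_nonneg n1 n3, mul_nonneg n2 n3, mul_nonneg hpi.le n3]

lemma norm_piI : ‖(Real.pi * Complex.I : ℂ)‖ = Real.pi := by
  rw [norm_mul, Complex.norm_I, mul_one, Complex.norm_real, Real.norm_eq_abs,
    abs_of_pos Real.pi_pos]

lemma h_hi : h ∘ hi =ᶠ[𝓝 (0 : Fin 3 → ℂ)] id := by
  filter_upwards [small] with p hp
  obtain ⟨h0, h1⟩ := hp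
  have hpi := Real.pi_pos
  have n1 := norm_nonneg (sf (p 0))
  have n2 := norm_nonneg (sg (p 0))
  have n3 := norm_nonneg (p 1)
  show Phi _ (Phi _ p) = p
  rw [Phi_comp, add_neg_cancel, Phi_zero]
  rw [norm_neg, norm_piI]
  nlinarith [mul_nonneg n1 n3, mul_nonneg n2 n3, mul_nonneg hpi.le n3]

lemma hi_h : hi ∘ h =ᶠ[𝓝 (0 : Fin 3 → ℂ)] id := by
  filter_upwards [small] with p hp
  obtain ⟨h0, h1⟩ := hp
  have hpi := Real.pi_pos
  have n1 := norm_nonneg (sf (p 0))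
  have n2 := norm_nonneg (sg (p 0))
  have n3 := norm_nonneg (p 1)
  show Phi _ (Phi _ p) = p
  rw [Phi_comp, neg_add_cancel, Phi_zero]
  rw [norm_neg, norm_piI]
  nlinarith [mul_nonneg n1 n3, mul_nonneg n2 n3, mul_nonneg hpi.le n3]

lemma fhf : f ∘ h ∘ f =ᶠ[𝓝 (0 : Fin 3 → ℂ)] h := by
  filter_upwards [small] with p hp
  obtain ⟨h0, h1⟩ := hp
  have hpi := Real.pi_pos
  have n1 := norm_nonneg (sf (p 0))
  have n2 := norm_nonneg (sg (p 0))
  have n3 := norm_nonneg (p 1)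
  obtain ⟨σ, hσ⟩ : ∃ σ, σ = sf (p 0) := ⟨_, rfl⟩
  show Phi (sf (Phi (Real.pi * Complex.I) (Phi (sf (p 0)) p) 0))
    (Phi (Real.pi * Complex.I) (Phi (sf (p 0)) p)) = Phi (Real.pi * Complex.I) p
  have e1 : Phi (Real.pi * Complex.I) (Phi (sf (p 0)) p) = Phi (Real.pi * Complex.I + sf (p 0)) p := by
    apply Phi_comp
    rw [norm_piI]
    nlinarith [mul_nonneg n1 n3, mul_nonneg n2 n3, mul_nonneg hpi.le n3]
  have e2 : Phi (Real.pi * Complex.I + sf (p 0)) p 0 = -(p 0 / (1 - p 0)) := by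
    rw [Phi_0, Complex.exp_add, Complex.exp_pi_mul_I, exp_sf (by linarith)]
    ring
  rw [e1, e2, sf_neg_arg h0, Phi_comp]
  · congr 1
    ring
  · rw [norm_neg]
    have : ‖Real.pi * Complex.I + sf (p 0)‖ ≤ Real.pi + ‖sf (p 0)‖ := by
      refine le_trans (norm_add_le _ _) ?_
      rw [norm_piI]
    nlinarith [mul_nonneg n1 n3, mul_nonneg n2 n3, mul_nonneg hpi.le n3]

end Pool.Agent.H6.Flow
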