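import Mathlib

namespace Pool.Agent.H6.HA

open MvPolynomial

theorem hc_mul {σ F : Type*} [CommRing F] (r h : MvPolynomial σ F) {k : ℕ} (hh : h.IsHomogeneous k)
    (m : ℕ) : homogeneousComponent (m + k) (r * h) = homogeneousComponent m r * h := by
  conv_lhs => rw [← sum_homogeneousComponent r]
  rw [Finset.sum_mul, map_sum]
  have h1 : ∀ i, homogeneousComponent (m + k) (homogeneousComponent i r * h) =
      if m = i then homogeneousComponent i r * h else 0 := by
    intro i
    have h2 : homogeneousComponent i r * h ∈ homogeneousSubmodule σ F (i + k) :=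
      (homogeneousComponent_isHomogeneous i r).mul hh
    rw [homogeneousComponent_of_mem h2]
    by_cases hmi : m = i
    · rw [if_pos hmi, if_pos (by omega)]
    · rw [if_neg hmi, if_neg (by omega)]
  simp_rw [h1]
  rw [Finset.sum_ite_eq]
  split_ifs with hm
  · rfl
  · rw [Finset.mem_range, not_lt] at hm
    rw [homogeneousComponent_eq_zero _ _ (by omega), zero_mul]

theorem aeval_hom {σ τ F : Type*} [CommRing F] (y : σ → MvPolynomial τ F) {d : ℕ}
    (hy : ∀ i, (y i).IsHomogeneous d) {q : MvPolynomial σ F} {k : ℕ} (hq : q.IsHomogeneous k) :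
    (aeval y q).IsHomogeneous (k * d) := by
  have := hq.aeval y hy
  rwa [mul_comm] at this

theorem hc_aeval {σ τ F : Type*} [CommRing F] (y : σ → MvPolynomial τ F) {d : ℕ} (hd : 1 ≤ d)
    (hy : ∀ i, (y i).IsHomogeneous d) (q : MvPolynomial σ F) (k : ℕ) :
    homogeneousComponent (k * d) (aeval y q) = aeval y (homogeneousComponent k q) := by
  conv_lhs => rw [← sum_homogeneousComponent q]
  rw [map_sum, map_sum]
  have h1 : ∀ i, homogeneousComponent (k * d) (aeval y (homogeneousComponent i q)) =
      if k = i then aeval y (homogeneousComponent i q) else 0 := by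
    intro i
    have h2 : aeval y (homogeneousComponent i q) ∈ homogeneousSubmodule τ F (i * d) :=
      aeval_hom y hy (homogeneousComponent_isHomogeneous i q)
    rw [homogeneousComponent_of_mem h2]
    by_cases hki : k = i
    · rw [if_pos hki, if_pos (by rw [hki])]
    · rw [if_neg hki, if_neg (fun h => hki (Nat.eq_of_mul_eq_mul_right (by omega) h))]
  simp_rw [h1]
  rw [Finset.sum_ite_eq]
  split_ifs with hm
  · rfl
  · rw [Finset.mem_range, not_lt] at hm
    rw [homogeneousComponent_eq_zero _ _ (by omega), map_zero]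

/-- numeric lemma -/
theorem numeric {n d e : ℕ} (h : ∀ s : ℕ, e * (n + s).choose n ≤ (n + (s + e - 1) * d).choose n) :
    e ≤ d ^ n := by
  set c : ℕ := e * d + n with hc
  have h1 : ∀ t : ℕ, 1 ≤ t → e * t ^ n ≤ (d * t + c) ^ n := by
    intro t ht
    obtain ⟨s, rfl⟩ : ∃ s, t = s + 1 := ⟨t - 1, by omega⟩
    have h2 := Nat.mul_le_mul_left n.factorial (h s)
    have h3 : (s + 1) ^ n ≤ n.factorial * (n + s).choose n := by
      rw [← Nat.descFactorial_eq_factorial_mul_choose]
      have := Nat.pow_sub_le_descFactorial (n + s) n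
      have e1 : n + s + 1 - n = s + 1 := by omega
      rwa [e1] at this
    have h4 : n.factorial * (n + (s + e - 1) * d).choose n ≤ (n + (s + e - 1) * d) ^ n := by
      rw [← Nat.descFactorial_eq_factorial_mul_choose]
      exact Nat.descFactorial_le_pow _ _
    have h5 : (n + (s + e - 1) * d) ^ n ≤ (d * (s + 1) + c) ^ n := by
      apply Nat.pow_le_pow_left
      have : (s + e - 1) * d ≤ (s + 1 + e) * d := Nat.mul_le_mul_right _ (by omega)
      rw [hc]
      nlinarith
    calc e * (s + 1) ^ n ≤ e * (n.factorial * (n + s).choose n) := Nat.mul_le_mul_left _ h3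
      _ = n.factorial * (e * (n + s).choose n) := by ring
      _ ≤ _ := h2
      _ ≤ _ := h4
      _ ≤ _ := h5
  have hlim : Filter.Tendsto (fun t : ℕ => ((d : ℝ) + c / (t : ℝ)) ^ n) Filter.atTop
      (nhds (((d : ℝ) + 0) ^ n)) :=
    (tendsto_const_nhds.add (tendsto_const_div_atTop_nhds_zero_nat (c : ℝ))).pow n
  rw [add_zero] at hlim
  have : (e : ℝ) ≤ (d : ℝ) ^ n := by
    refine ge_of_tendsto hlim ?_
    filter_upwards [Filter.eventually_ge_atTop 1] with t ht
    have ht' : (0 : ℝ) < t := by exact_mod_cast ht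
    have h2 : (e : ℝ) * (t : ℝ) ^ n ≤ ((d : ℝ) * t + c) ^ n := by exact_mod_cast h1 t ht
    have h3 : (d : ℝ) + c / t = (d * t + c) / t := by field_simp
    rw [h3, div_pow, le_div_iff₀ (by positivity)]
    exact h2
  exact_mod_cast this

end Pool.Agent.H6.HA
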