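import Pool.Agent.H6.HA1

namespace Pool.Agent.H6.HA

open MvPolynomial

variable {F : Type*} [Field F] {n d : ℕ}

/-- polynomial with prescribed coefficients -/
noncomputable def mk (s : ℕ)
    (c : (Finset.univ : Finset (Fin (n+1))).finsuppAntidiag s → F) : MvPolynomial (Fin (n+1)) F :=
  ∑ σ, monomial σ.1 (c σ)

theorem mem_fa {s : ℕ} {σ : Fin (n+1) →₀ ℕ} :
    σ ∈ (Finset.univ : Finset (Fin (n+1))).finsuppAntidiag s ↔ σ.degree = s := by
  rw [Finset.mem_finsuppAntidiag]
  constructor
  · rintro ⟨h, _⟩
    rw [← h, Finsupp.degree_eq_sum]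
  · intro h
    exact ⟨by rw [← h, Finsupp.degree_eq_sum], Finset.subset_univ _⟩

theorem mk_hom (s : ℕ) (c : (Finset.univ : Finset (Fin (n+1))).finsuppAntidiag s → F) :
    (mk s c).IsHomogeneous s := by
  unfold mk
  apply IsHomogeneous.sum
  intro σ _
  exact isHomogeneous_monomial _ (mem_fa.1 σ.2)

theorem mk_coeff (s : ℕ) (c : (Finset.univ : Finset (Fin (n+1))).finsuppAntidiag s → F)
    (σ : (Finset.univ : Finset (Fin (n+1))).finsuppAntidiag s) : coeff σ.1 (mk s c) = c σ := by
  unfold mk
  rw [coeff_sum, Finset.sum_eq_single σ]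
  · rw [coeff_monomial, if_pos rfl]
  · intro τ _ h
    rw [coeff_monomial, if_neg (fun h2 => h (Subtype.ext h2))]
  · intro h; exact absurd (Finset.mem_univ _) h

/-- key degree bound -/
theorem count_bound (e : ℕ) (he : 1 ≤ e) (y : Fin (n+1) → MvPolynomial (Fin (n+1)) F)
    (hy : ∀ i, (y i).IsHomogeneous d) (hyi : AlgebraicIndependent F y)
    (b : MvPolynomial (Fin (n+1)) F) (hb : b.IsHomogeneous d)
    (hli : ∀ a : ℕ → MvPolynomial (Fin (n+1)) F,
      ∑ j ∈ Finset.range e, aeval y (a j) * b ^ j = 0 → ∀ j < e, a j = 0) (s : ℕ) :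
    e * (n + s).choose n ≤ (n + (s + e - 1) * d).choose n := by
  set S := (Finset.univ : Finset (Fin (n+1))).finsuppAntidiag s with hS
  set T := (Finset.univ : Finset (Fin (n+1))).finsuppAntidiag ((s + e - 1) * d) with hT
  let P : (Fin e → S → F) → MvPolynomial (Fin (n+1)) F := fun c =>
    ∑ j : Fin e, aeval y (X 0 ^ (e - 1 - j.val) * mk s (c j)) * b ^ j.val
  have hPhom : ∀ c, (P c).IsHomogeneous ((s + e - 1) * d) := by
    intro c
    apply IsHomogeneous.sum
    intro j _
    have h1 : (X 0 ^ (e - 1 - j.val) * mk s (c j)).IsHomogeneous (e - 1 - j.val + s) := by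
      have := ((isHomogeneous_X F (0 : Fin (n+1))).pow (e - 1 - j.val)).mul (mk_hom s (c j))
      rwa [one_mul] at this
    have h2 := (aeval_hom y hy h1).mul (hb.pow j.val)
    have h3 : (e - 1 - j.val + s) * d + d * j.val = (s + e - 1) * d := by
      have := j.2
      obtain ⟨k, hk⟩ : ∃ k, e = j.val + 1 + k := ⟨e - (j.val + 1), by omega⟩
      have e1 : e - 1 - j.val = k := by omega
      have e2 : s + e - 1 = s + j.val + k := by omega
      rw [e1, e2]; ring
    rwa [h3] at h2
  let Ψ : (Fin e → S → F) →ₗ[F] (T → F) :=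
    { toFun := fun c σ => coeff σ.1 (P c)
      map_add' := by
        intro c c'
        funext σ
        have hmk : ∀ u v : S → F, mk s (u + v) = mk s u + mk s v := by
          intro u v
          unfold mk
          rw [← Finset.sum_add_distrib]
          apply Finset.sum_congr rfl
          intro τ _
          rw [Pi.add_apply, map_add]
        have : P (c + c') = P c + P c' := by
          change ∑ j : Fin e, _ = ∑ j : Fin e, _ + ∑ j : Fin e, _
          rw [← Finset.sum_add_distrib]
          apply Finset.sum_congr rfl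
          intro j _
          rw [Pi.add_apply, hmk, mul_add, map_add, add_mul]
        simp only [this, coeff_add, Pi.add_apply]
      map_smul' := by
        intro a c
        funext σ
        have hmk : ∀ u : S → F, mk s (a • u) = C a * mk s u := by
          intro u
          unfold mk
          rw [Finset.mul_sum]
          apply Finset.sum_congr rfl
          intro τ _
          rw [Pi.smul_apply, smul_eq_mul, C_mul_monomial]
        have : P (a • c) = C a * P c := by
          change ∑ j : Fin e, _ = C a * ∑ j : Fin e, _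
          rw [Finset.mul_sum]
          apply Finset.sum_congr rfl
          intro j _
          rw [Pi.smul_apply, hmk, mul_left_comm, map_mul, ← algebraMap_eq, AlgHom.commutes, mul_assoc]
        simp only [this, coeff_C_mul, Pi.smul_apply, smul_eq_mul, RingHom.id_apply] }
  have hΨ : Function.Injective Ψ := by
    rw [← LinearMap.ker_eq_bot, LinearMap.ker_eq_bot']
    intro c hc
    have hP0 : P c = 0 := by
      ext σ
      rw [coeff_zero]
      by_cases hσ : σ.degree = (s + e - 1) * d
      · exact congrFun hc ⟨σ, mem_fa.2 hσ⟩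
      · exact (hPhom c).coeff_eq_zero hσ
    have h1 := hli (fun j => if h : j < e then X 0 ^ (e - 1 - j) * mk s (c ⟨j, h⟩) else 0) (by
      rw [Finset.sum_range, ← hP0]
      apply Finset.sum_congr rfl
      intro j _
      rw [dif_pos j.2])
    funext j σ
    have h2 := h1 j.val j.2
    simp only [dif_pos j.2] at h2
    have h3 : mk s (c j) = 0 := by
      rcases mul_eq_zero.1 h2 with h4 | h4
      · exact absurd h4 (pow_ne_zero _ (X_ne_zero _))
      · exact h4
    have h5 := mk_coeff s (c j) σ
    rw [h3, coeff_zero] at h5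
    exact h5.symm
  have hrank := LinearMap.finrank_le_finrank_of_injective hΨ
  rw [Module.finrank_fintype_fun_eq_card, Module.finrank_pi_fintype] at hrank
  simp only [Module.finrank_fintype_fun_eq_card, Fintype.card_coe, Finset.sum_const,
    Finset.card_univ, Fintype.card_fin, smul_eq_mul] at hrank
  rw [hS, hT, Finset.card_finsuppAntidiag_nat_eq_choose, Finset.card_finsuppAntidiag_nat_eq_choose,
    Finset.card_univ, Fintype.card_fin] at hrank
  have e1 : ∀ t, (n + 1 + t - 1).choose t = (n + t).choose n := by
    intro t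
    have : n + 1 + t - 1 = n + t := by omega
    rw [this, Nat.choose_symm_add]
  rwa [e1, e1] at hrank

/-- minimal polynomials over integrally closed domains, in ring hom form -/
theorem minpoly_gen {A B : Type*} [CommRing A] [IsDomain A] [IsIntegrallyClosed A] [CommRing B]
    [IsDomain B] (f : A →+* B) (hf : Function.Injective f) (b : B) (p : Polynomial A)
    (hp : p.Monic) (hpb : Polynomial.eval₂ f b p = 0) :
    ∃ q : Polynomial A, q.Monic ∧ Polynomial.eval₂ f b q = 0 ∧
      ∀ r : Polynomial A, r ≠ 0 → Polynomial.eval₂ f b r = 0 → q.natDegree ≤ r.natDegree := by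
  letI := f.toAlgebra
  have hint : IsIntegral A b := ⟨p, hp, hpb⟩
  have htf : Module.IsTorsionFree A B := by
    rw [Module.isTorsionFree_iff_algebraMap_injective]
    exact hf
  refine ⟨minpoly A b, minpoly.monic hint, minpoly.aeval A b, ?_⟩
  intro r hr hrb
  exact Polynomial.natDegree_le_natDegree (minpoly.IsIntegrallyClosed.degree_le_of_ne_zero hr hrb)

/-- A homogeneous relation of small degree. -/
theorem small_rel (hd : 1 ≤ d) (y : Fin (n+1) → MvPolynomial (Fin (n+1)) F)
    (hy : ∀ i, (y i).IsHomogeneous d) (hyi : AlgebraicIndependent F y)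
    (b : MvPolynomial (Fin (n+1)) F) (hb : b.IsHomogeneous d)
    (p : Polynomial (MvPolynomial (Fin (n+1)) F)) (hp : p.Monic)
    (hpb : Polynomial.eval₂ (aeval y : MvPolynomial (Fin (n+1)) F →ₐ[F] _).toRingHom b p = 0) :
    ∃ e ≤ d ^ n, ∃ q : ℕ → MvPolynomial (Fin (n+1)) F,
      (∀ j ≤ e, (q j).IsHomogeneous (e - j)) ∧ q e = 1 ∧
      ∑ j ∈ Finset.range (e + 1), aeval y (q j) * b ^ j = 0 := by
  set α : MvPolynomial (Fin (n+1)) F →ₐ[F] MvPolynomial (Fin (n+1)) F := aeval y with hα
  obtain ⟨μ, hμ, hμb, hmin⟩ := minpoly_gen α.toRingHom hyi b p hp hpb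
  set e := μ.natDegree with he
  have he1 : 1 ≤ e := by
    by_contra hcon
    have h0 : μ.natDegree = 0 := by omega
    rw [hμ.natDegree_eq_zero.1 h0] at hμb
    simp at hμb
  have hli : ∀ a : ℕ → MvPolynomial (Fin (n+1)) F,
      ∑ j ∈ Finset.range e, aeval y (a j) * b ^ j = 0 → ∀ j < e, a j = 0 := by
    intro a ha
    by_contra hcon
    push Not at hcon
    obtain ⟨j, hj, hj2⟩ := hcon
    set r : Polynomial (MvPolynomial (Fin (n+1)) F) :=
      ∑ j ∈ Finset.range e, Polynomial.C (a j) * Polynomial.X ^ j with hr
    have hcoef : ∀ j < e, r.coeff j = a j := by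
      intro j hj
      rw [hr, Polynomial.finset_sum_coeff, Finset.sum_eq_single j]
      · simp
      · intro k _ hk
        rw [Polynomial.coeff_C_mul, Polynomial.coeff_X_pow, if_neg (Ne.symm hk), mul_zero]
      · intro h; exact absurd (Finset.mem_range.2 hj) h
    have hr0 : r ≠ 0 := by
      intro h
      apply hj2
      rw [← hcoef j hj, h, Polynomial.coeff_zero]
    have hdeg : r.natDegree < e := by
      rw [hr]
      have : (∑ j ∈ Finset.range e, Polynomial.C (a j) * Polynomial.X ^ j).natDegree ≤ e - 1 := by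
        apply Polynomial.natDegree_sum_le_of_forall_le
        intro k hk
        refine (Polynomial.natDegree_C_mul_X_pow_le _ _).trans ?_
        have := Finset.mem_range.1 hk
        omega
      omega
    have := hmin r hr0 (by
      rw [hr, Polynomial.eval₂_finset_sum, ← ha]
      apply Finset.sum_congr rfl
      intro k _
      rw [Polynomial.eval₂_mul, Polynomial.eval₂_C, Polynomial.eval₂_pow, Polynomial.eval₂_X]
      rfl)
    omega
  have hbound : e ≤ d ^ n :=
    numeric (fun s => count_bound e he1 y hy hyi b hb hli s)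
  refine ⟨e, hbound, fun j => homogeneousComponent (e - j) (μ.coeff j), ?_, ?_, ?_⟩
  · intro j _
    exact homogeneousComponent_isHomogeneous _ _
  · change homogeneousComponent (e - e) (μ.coeff e) = 1
    rw [hμ.coeff_natDegree, Nat.sub_self, homogeneousComponent_zero]
    simp
  · have h1 := congrArg (homogeneousComponent (e * d)) hμb
    rw [map_zero, Polynomial.eval₂_eq_sum_range, map_sum] at h1
    rw [← h1]
    apply Finset.sum_congr rfl
    intro j hj
    have hj : j ≤ e := Nat.lt_succ_iff.1 (Finset.mem_range.1 hj)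
    have e1 : e * d = (e - j) * d + d * j := by
      obtain ⟨k, hk⟩ : ∃ k, e = j + k := ⟨e - j, by omega⟩
      rw [hk]
      have : j + k - j = k := by omega
      rw [this]; ring
    rw [e1, hc_mul _ _ (hb.pow j)]
    change _ = homogeneousComponent ((e - j) * d) (aeval y (μ.coeff j)) * b ^ j
    rw [hc_aeval y hd hy]

end Pool.Agent.H6.HA
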