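import Pool.Agent.H6.HA2

namespace Pool.Agent.H6.HA

open MvPolynomial

theorem alg_transport {R1 R2 B : Type*} [CommRing R1] [CommRing R2] [CommRing B] [Algebra R1 B]
    [Algebra R2 B] (hinj : Function.Injective (algebraMap R1 B))
    (h : ∀ r : R1, ∃ r' : R2, algebraMap R2 B r' = algebraMap R1 B r) {x : B}
    (hx : IsAlgebraic R1 x) : IsAlgebraic R2 x := by
  obtain ⟨p, hp, hpx⟩ := hx
  choose φ hφ using h
  set p' : Polynomial R2 := ∑ i ∈ p.support, Polynomial.monomial i (φ (p.coeff i)) with hp'
  have hcoef : ∀ i ∈ p.support, p'.coeff i = φ (p.coeff i) := by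
    intro i hi
    rw [hp', Polynomial.finsetSum_coeff, Finset.sum_eq_single i]
    · rw [Polynomial.coeff_monomial_same]
    · intro j _ hj
      rw [Polynomial.coeff_monomial_of_ne _ (Ne.symm hj)]
    · intro h; exact absurd hi h
  refine ⟨p', ?_, ?_⟩
  · intro h0
    obtain ⟨i, hi⟩ := Polynomial.nonempty_support_iff.2 hp
    have h1 := hcoef i hi
    rw [h0, Polynomial.coeff_zero] at h1
    have h2 := hφ (p.coeff i)
    rw [← h1, map_zero] at h2
    exact Polynomial.mem_support_iff.1 hi (hinj (by rw [← h2, map_zero]))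
  · rw [hp', map_sum, ← hpx, Polynomial.aeval_def, Polynomial.eval₂_eq_sum, Polynomial.sum]
    apply Finset.sum_congr rfl
    intro i _
    rw [Polynomial.aeval_monomial, hφ]

section lead
variable {F R ι : Type*} [CommRing F] [CommRing R] [Algebra F R] (w : ι → R) (c : ι → F)

noncomputable def Phi : MvPolynomial ι F →ₐ[F] Polynomial R :=
  aeval (fun j => Polynomial.C (w j) + Polynomial.C (algebraMap F R (c j)) * Polynomial.X)

theorem Phi_mon (s : ι →₀ ℕ) : (Phi w c (monomial s 1)).natDegree ≤ s.degree ∧
    (Phi w c (monomial s 1)).coeff s.degree = algebraMap F R (eval c (monomial s 1)) := by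
  induction s using Finsupp.induction_linear with
  | zero =>
    have : (monomial (0 : ι →₀ ℕ) (1 : F)) = 1 := rfl
    rw [this, map_one, map_one]
    simp
  | add f g hf hg =>
    have e1 : (monomial (f + g) (1 : F)) = monomial f 1 * monomial g 1 := by
      rw [monomial_mul, one_mul]
    rw [e1, map_mul, map_mul, map_add]
    refine ⟨(Polynomial.natDegree_mul_le).trans (add_le_add hf.1 hg.1), ?_⟩
    rw [Polynomial.coeff_mul_add_eq_of_natDegree_le hf.1 hg.1, hf.2, hg.2, map_mul]
  | single i e =>
    have e1 : (monomial (Finsupp.single i e) (1 : F)) = X i ^ e := by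
      rw [X_pow_eq_monomial]
    have h1 : (Polynomial.C (w i) + Polynomial.C (algebraMap F R (c i)) * Polynomial.X).natDegree ≤ 1 := by
      refine (Polynomial.natDegree_add_le _ _).trans (max_le ?_ ?_)
      · simp
      · exact (Polynomial.natDegree_C_mul_le _ _).trans Polynomial.natDegree_X_le
    rw [e1, map_pow, map_pow, Phi, aeval_X, eval_X, Finsupp.degree_single]
    constructor
    · refine (Polynomial.natDegree_pow_le).trans ?_
      calc e * _ ≤ e * 1 := Nat.mul_le_mul_left _ h1
        _ = e := mul_one _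
    · have := Polynomial.coeff_pow_of_natDegree_le h1 (m := e)
      rw [mul_one] at this
      rw [this, map_pow]
      simp

theorem Phi_lead {Q : MvPolynomial ι F} {t : ℕ} (hQ : Q.IsHomogeneous t) :
    (Phi w c Q).natDegree ≤ t ∧ (Phi w c Q).coeff t = algebraMap F R (eval c Q) := by
  have e1 : Q = ∑ s ∈ Q.support, C (coeff s Q) * monomial s 1 := by
    conv_lhs => rw [Q.as_sum]
    apply Finset.sum_congr rfl
    intro s _
    rw [C_mul_monomial, mul_one]
  have hdeg : ∀ s ∈ Q.support, s.degree = t := fun s hs => by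
    by_contra h
    exact (mem_support_iff.1 hs) (hQ.coeff_eq_zero h)
  have hC : ∀ a : F, Phi w c (C a) = Polynomial.C (algebraMap F R a) := fun a =>
    (Phi w c).commutes a
  constructor
  · rw [e1, map_sum]
    apply Polynomial.natDegree_sum_le_of_forall_le
    intro s hs
    rw [map_mul, hC]
    refine (Polynomial.natDegree_C_mul_le _ _).trans ?_
    rw [← hdeg s hs]
    exact (Phi_mon w c s).1
  · conv_lhs => rw [e1]
    conv_rhs => rw [e1]
    rw [map_sum, map_sum, map_sum, Polynomial.finsetSum_coeff]
    apply Finset.sum_congr rfl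
    intro s hs
    rw [map_mul, hC, Polynomial.coeff_C_mul, ← hdeg s hs, (Phi_mon w c s).2, map_mul, map_mul, eval_C]

end lead

theorem exists_rel {F : Type} [Field F] [Infinite F] {n d : ℕ} (hd : 1 ≤ d)
    (g : Fin (n+2) → MvPolynomial (Fin (n+1)) F) (hg : ∀ i, (g i).IsHomogeneous d)
    (halg : Algebra.IsAlgebraic (Algebra.adjoin F (Set.range g)) (MvPolynomial (Fin (n+1)) F)) :
    ∃ e ≤ d ^ n, ∃ P : MvPolynomial (Fin (n+2)) F, P ≠ 0 ∧ P.IsHomogeneous e ∧ aeval g P = 0 := by
  classical
  have htr : Algebra.trdeg F (MvPolynomial (Fin (n+1)) F) = (n + 1 : ℕ) := by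
    rw [MvPolynomial.trdeg_of_isDomain]
    simp
  -- algebraic dependence
  have hdep : ¬ AlgebraicIndependent F g := by
    intro h
    have := h.cardinalMk_le_trdeg
    rw [htr, Cardinal.mk_fin] at this
    have := Nat.cast_le.1 this
    omega
  obtain ⟨Q, hQg, hQ0⟩ : ∃ Q : MvPolynomial (Fin (n+2)) F, aeval g Q = 0 ∧ Q ≠ 0 := by
    by_contra hcon
    push Not at hcon
    apply hdep
    rw [algebraicIndependent_iff]
    exact hcon
  obtain ⟨t, ht⟩ : ∃ t, homogeneousComponent t Q ≠ 0 := by
    by_contra hcon
    push Not at hcon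
    apply hQ0
    rw [← sum_homogeneousComponent Q]
    exact Finset.sum_eq_zero fun i _ => hcon i
  set Qt := homogeneousComponent t Q with hQt
  have hQth : Qt.IsHomogeneous t := homogeneousComponent_isHomogeneous _ _
  have hQtg : aeval g Qt = 0 := by
    rw [hQt, ← hc_aeval g hd hg, hQg, map_zero]
  obtain ⟨c, hc⟩ : ∃ c, eval c Qt ≠ 0 := by
    by_contra hcon
    push Not at hcon
    exact ht (MvPolynomial.funext (fun c => by rw [hcon c, map_zero]))
  have ht1 : t ≠ 0 := by
    rintro rfl
    have : Qt = C (coeff 0 Q) := by rw [hQt, homogeneousComponent_zero]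
    rw [this] at hQtg hc
    rw [aeval_C] at hQtg
    rw [eval_C] at hc
    exact hc ((algebraMap F (MvPolynomial (Fin (n+1)) F)).injective (by rw [hQtg, map_zero]))
  obtain ⟨i0, hi0⟩ : ∃ i0, c i0 ≠ 0 := by
    by_contra hcon
    push Not at hcon
    have : c = 0 := funext hcon
    apply hc
    rw [this, eval_zero, constantCoeff_eq]
    exact hQth.coeff_eq_zero (by simpa using Ne.symm ht1)
  -- new coordinates
  set b : MvPolynomial (Fin (n+1)) F := C (c i0)⁻¹ * g i0 with hb
  set y : Fin (n+1) → MvPolynomial (Fin (n+1)) F :=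
    fun k => g (i0.succAbove k) - C (c (i0.succAbove k)) * b with hy
  have hbh : b.IsHomogeneous d := by
    have := (isHomogeneous_C (Fin (n+1)) (c i0)⁻¹).mul (hg i0)
    rwa [zero_add] at this
  have hyh : ∀ k, (y k).IsHomogeneous d := by
    intro k
    have := (isHomogeneous_C (Fin (n+1)) (c (i0.succAbove k))).mul hbh
    rw [zero_add] at this
    exact (hg _).sub this
  have hgi0 : g i0 = C (c i0) * b := by
    rw [hb, ← mul_assoc, ← C_mul, mul_inv_cancel₀ hi0, C_1, one_mul]
  -- integrality, generic form
  have hinteg : ∀ {R : Type} [CommRing R] [Algebra F R] (f : R →ₐ[F] MvPolynomial (Fin (n+1)) F)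
      (w : Fin (n+1) → R), (∀ k, f (w k) = y k) →
      ∃ p : Polynomial R, p.Monic ∧ Polynomial.eval₂ f.toRingHom b p = 0 := by
    intro R _ _ f w hw
    set W : Fin (n+2) → R := i0.insertNth (0 : R) w with hW
    have hlead := Phi_lead W c hQth
    refine ⟨Polynomial.C (algebraMap F R (eval c Qt)⁻¹) * Phi W c Qt, ?_, ?_⟩
    · have h1 : (Polynomial.C (algebraMap F R (eval c Qt)⁻¹) * Phi W c Qt).natDegree ≤ t :=
        (Polynomial.natDegree_C_mul_le _ _).trans hlead.1
      refine Polynomial.monic_of_natDegree_le_of_coeff_eq_one t h1 ?_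
      rw [Polynomial.coeff_C_mul, hlead.2, ← map_mul, inv_mul_cancel₀ hc, map_one]
    · rw [Polynomial.eval₂_mul]
      have h2 : Polynomial.eval₂ f.toRingHom b (Phi W c Qt) = 0 := by
        have h3 : ∀ Q : MvPolynomial (Fin (n+2)) F,
            Polynomial.eval₂ f.toRingHom b (Phi W c Q) = aeval g Q := by
          intro Q
          induction Q using MvPolynomial.induction_on with
          | C a =>
            have : Phi W c (C a) = Polynomial.C (algebraMap F R a) := (Phi W c).commutes a
            rw [this, Polynomial.eval₂_C, aeval_C]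
            exact f.commutes a
          | add p q hp hq => rw [map_add, Polynomial.eval₂_add, hp, hq, map_add]
          | mul_X p j hp =>
            rw [map_mul, Polynomial.eval₂_mul, hp, map_mul, aeval_X]
            congr 1
            rw [Phi, aeval_X, Polynomial.eval₂_add, Polynomial.eval₂_mul, Polynomial.eval₂_C,
              Polynomial.eval₂_C, Polynomial.eval₂_X]
            have h4 : f.toRingHom (algebraMap F R (c j)) = C (c j) := f.commutes _
            rw [h4]
            rcases Fin.eq_self_or_eq_succAbove i0 j with hj | ⟨k, hk⟩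
            · rw [hj, hW, Fin.insertNth_apply_same, map_zero, zero_add, hgi0]
            · rw [hk, hW, Fin.insertNth_apply_succAbove]
              have : f.toRingHom (w k) = y k := hw k
              rw [this, hy]
              ring
        rw [h3, hQtg]
      rw [h2, mul_zero]
  -- algebraicity over the subalgebra generated by y
  have halgy : Algebra.IsAlgebraic (Algebra.adjoin F (Set.range y)) (MvPolynomial (Fin (n+1)) F) := by
    set A' := Algebra.adjoin F (Set.range y) with hA'
    have hyA : ∀ k, y k ∈ A' := fun k => Algebra.subset_adjoin ⟨k, rfl⟩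
    have hbint : IsIntegral A' b := by
      obtain ⟨p, hp, hpb⟩ := hinteg (R := A') A'.val (fun k => ⟨y k, hyA k⟩) (fun k => rfl)
      exact ⟨p, hp, hpb⟩
    have hFS : ∀ a : F, (C a : MvPolynomial (Fin (n+1)) F) ∈ A' := fun a => A'.algebraMap_mem a
    have hgS : ∀ j, g j ∈ integralClosure A' (MvPolynomial (Fin (n+1)) F) := by
      intro j
      have hCm : ∀ a : F, (C a : MvPolynomial (Fin (n+1)) F) ∈ integralClosure A' (MvPolynomial (Fin (n+1)) F) :=
        fun a => (integralClosure A' (MvPolynomial (Fin (n+1)) F)).algebraMap_mem ⟨C a, hFS a⟩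
      rcases Fin.eq_self_or_eq_succAbove i0 j with hj | ⟨k, hk⟩
      · rw [hj, hgi0]
        exact mul_mem (hCm _) hbint
      · have : g j = y k + C (c (i0.succAbove k)) * b := by rw [hk, hy]; ring
        rw [this]
        exact add_mem ((integralClosure A' (MvPolynomial (Fin (n+1)) F)).algebraMap_mem ⟨y k, hyA k⟩)
          (mul_mem (hCm _) hbint)
    have hsub : ∀ r : Algebra.adjoin F (Set.range g),
        (r : MvPolynomial (Fin (n+1)) F) ∈ integralClosure A' (MvPolynomial (Fin (n+1)) F) := by
      intro r
      have h1 : Algebra.adjoin F (Set.range g) ≤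
          (integralClosure A' (MvPolynomial (Fin (n+1)) F)).restrictScalars F := by
        rw [Algebra.adjoin_le_iff]
        rintro _ ⟨j, rfl⟩
        exact hgS j
      exact h1 r.2
    have halgS : Algebra.IsAlgebraic (integralClosure A' (MvPolynomial (Fin (n+1)) F))
        (MvPolynomial (Fin (n+1)) F) := by
      constructor
      intro x
      refine alg_transport (R1 := Algebra.adjoin F (Set.range g)) Subtype.val_injective ?_
        (halg.isAlgebraic x)
      intro r
      exact ⟨⟨r, hsub r⟩, rfl⟩
    exact Algebra.IsIntegral.trans_isAlgebraic A'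
      (integralClosure A' (MvPolynomial (Fin (n+1)) F)) (MvPolynomial (Fin (n+1)) F)
  have hyi : AlgebraicIndependent F y := by
    have := Algebra.IsAlgebraic.isTranscendenceBasis_of_le_trdeg_of_finite F y (by
      rw [htr, Cardinal.mk_fin])
    exact this.1
  obtain ⟨p, hp, hpb⟩ := hinteg (R := MvPolynomial (Fin (n+1)) F) (aeval y) X (fun k => aeval_X _ _)
  obtain ⟨e, he, q, hq, hqe, hrel⟩ := small_rel hd y hyh hyi b hbh p hp hpb
  refine ⟨e, he, ?_⟩
  set Bf : MvPolynomial (Fin (n+2)) F := C (c i0)⁻¹ * X i0 with hBf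
  set Yf : Fin (n+1) → MvPolynomial (Fin (n+2)) F :=
    fun k => X (i0.succAbove k) - C (c (i0.succAbove k)) * Bf with hYf
  have hBfh : Bf.IsHomogeneous 1 := isHomogeneous_C_mul_X _ _
  have hYfh : ∀ k, (Yf k).IsHomogeneous 1 := by
    intro k
    have := (isHomogeneous_C (Fin (n+2)) (c (i0.succAbove k))).mul hBfh
    rw [zero_add] at this
    exact (isHomogeneous_X F _).sub this
  have hgB : aeval g Bf = b := by rw [hBf, map_mul, aeval_C, aeval_X]; rfl
  have hgY : ∀ k, aeval g (Yf k) = y k := by
    intro k
    rw [hYf]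
    simp only
    rw [map_sub, map_mul, aeval_C, aeval_X, hgB]; rfl
  have hcB : eval c Bf = 1 := by
    rw [hBf, map_mul, eval_C, eval_X, inv_mul_cancel₀ hi0]
  have hcY : ∀ k, eval c (Yf k) = 0 := by
    intro k
    rw [hYf]
    simp only
    rw [map_sub, map_mul, eval_C, eval_X, hcB, mul_one, sub_self]
  refine ⟨∑ j ∈ Finset.range (e + 1), aeval Yf (q j) * Bf ^ j, ?_, ?_, ?_⟩
  · intro h0
    have h1 := congrArg (eval c) h0
    rw [map_zero, map_sum, Finset.sum_range_succ, Finset.sum_eq_zero, zero_add] at h1
    · rw [hqe, map_one, one_mul, map_pow, hcB, one_pow] at h1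
      exact one_ne_zero h1
    · intro j hj
      have hj := Finset.mem_range.1 hj
      rw [map_mul]
      have h2 : eval c (aeval Yf (q j)) = 0 := by
        have h3 : ∀ r : MvPolynomial (Fin (n+1)) F, eval c (aeval Yf r) = eval 0 r := by
          intro r
          induction r using MvPolynomial.induction_on with
          | C a => rw [aeval_C, eval_C]; exact eval_C a
          | add p q hp hq => rw [map_add, map_add, hp, hq, map_add]
          | mul_X p k hp => rw [map_mul, map_mul, hp, aeval_X, hcY, map_mul, eval_X]; rfl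
        rw [h3, eval_zero, constantCoeff_eq]
        exact (hq j hj.le).coeff_eq_zero (by
          rw [map_zero]; omega)
      rw [h2, zero_mul]
  · apply IsHomogeneous.sum
    intro j hj
    have hj : j ≤ e := Nat.lt_succ_iff.1 (Finset.mem_range.1 hj)
    have h1 := (aeval_hom Yf hYfh (hq j hj)).mul (hBfh.pow j)
    have e1 : (e - j) * 1 + 1 * j = e := by omega
    rwa [e1] at h1
  · rw [map_sum, ← hrel]
    apply Finset.sum_congr rfl
    intro j _
    rw [map_mul, map_pow, hgB]
    congr 1
    have h3 : ∀ r : MvPolynomial (Fin (n+1)) F, aeval g (aeval Yf r) = aeval y r := by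
      intro r
      induction r using MvPolynomial.induction_on with
      | C a => rw [aeval_C, aeval_C]; exact (aeval g).commutes a
      | add p q hp hq => rw [map_add, map_add, hp, hq, map_add]
      | mul_X p k hp => rw [map_mul, map_mul, hp, aeval_X, hgY, map_mul, aeval_X]
    exact h3 _

end Pool.Agent.H6.HA
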