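import Pool.Agent.H6.HA3

namespace Pool.Agent.H6.HA

open MvPolynomial

theorem alg_map {R1 S1 R2 S2 : Type*} [CommRing R1] [CommRing R2] [CommRing S1] [CommRing S2]
    [Algebra R1 S1] [Algebra R2 S2] (f : S1 →+* S2) (hf : Function.Injective f)
    (hinj : Function.Injective (algebraMap R1 S1))
    (h : ∀ r : R1, ∃ r' : R2, algebraMap R2 S2 r' = f (algebraMap R1 S1 r)) {x : S1}
    (hx : IsAlgebraic R1 x) : IsAlgebraic R2 (f x) := by
  obtain ⟨p, hp, hpx⟩ := hx
  choose φ hφ using h
  set p' : Polynomial R2 := ∑ i ∈ p.support, Polynomial.monomial i (φ (p.coeff i)) with hp'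
  have hcoef : ∀ i ∈ p.support, p'.coeff i = φ (p.coeff i) := by
    intro i hi
    rw [hp', Polynomial.finsetSum_coeff, Finset.sum_eq_single i]
    · rw [Polynomial.coeff_monomial_same]
    · intro j _ hj
      rw [Polynomial.coeff_monomial_of_ne _ (Ne.symm hj)]
    · intro h; exact absurd hi h
  refine ⟨p', ?_, ?_⟩
  · intro h0
    obtain ⟨i, hi⟩ := Polynomial.nonempty_support_iff.2 hp
    have h1 := hcoef i hi
    rw [h0, Polynomial.coeff_zero] at h1
    have h2 := hφ (p.coeff i)
    rw [← h1, map_zero] at h2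
    exact Polynomial.mem_support_iff.1 hi (hinj (hf (by rw [← h2, map_zero, map_zero])))
  · have h3 : f (Polynomial.aeval x p) = 0 := by rw [hpx, map_zero]
    rw [hp', map_sum, ← h3, Polynomial.aeval_def, Polynomial.eval₂_eq_sum, Polynomial.sum, map_sum]
    apply Finset.sum_congr rfl
    intro i _
    rw [Polynomial.aeval_monomial, hφ, map_mul, map_pow]

section
variable {K : Type} [Field K] {n : ℕ}

/-- images of the variables: the last coordinate is eliminated using `l = T * x_0` -/
noncomputable def vv (a : Fin (n+2) → K) : Fin (n+2) → MvPolynomial (Fin (n+1)) (Polynomial K) :=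
  Fin.snoc (fun i => X i)
    (C (Polynomial.C (a (Fin.last (n+1)))⁻¹) * (C Polynomial.X * X 0 -
      ∑ i : Fin (n+1), C (Polynomial.C (a i.castSucc)) * X i))

noncomputable def psi0 (a : Fin (n+2) → K) :
    MvPolynomial (Fin (n+2)) K →ₐ[K] MvPolynomial (Fin (n+1)) (Polynomial K) := aeval (vv a)

noncomputable def evx (a x : Fin (n+2) → K) : MvPolynomial (Fin (n+1)) (Polynomial K) →+* K :=
  eval₂Hom (Polynomial.evalRingHom ((∑ i, a i * x i) / x 0)) (fun i => x i.castSucc)

theorem evx_psi0 (a x : Fin (n+2) → K) (ha : a (Fin.last (n+1)) ≠ 0) (hx : x 0 ≠ 0)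
    (p : MvPolynomial (Fin (n+2)) K) : evx a x (psi0 a p) = eval x p := by
  induction p using MvPolynomial.induction_on with
  | C c =>
    have : psi0 a (C c) = C (Polynomial.C c) := (psi0 a).commutes c
    rw [this, evx, eval₂Hom_C, eval_C]
    simp
  | add p q hp hq => rw [map_add, map_add, hp, hq, map_add]
  | mul_X p j hp =>
    rw [map_mul, map_mul, hp, map_mul, eval_X]
    congr 1
    rw [psi0, aeval_X]
    refine Fin.lastCases ?_ (fun i => ?_) j
    · rw [vv, Fin.snoc_last, map_mul, map_sub, map_mul, map_sum]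
      simp only [evx, eval₂Hom_C, eval₂Hom_X', Polynomial.coe_evalRingHom, Polynomial.eval_C,
        Polynomial.eval_X, map_mul]
      rw [Fin.sum_univ_castSucc, Fin.castSucc_zero]
      field_simp
      ring
    · rw [vv, Fin.snoc_castSucc, evx, eval₂Hom_X']

theorem psi0_inj [Infinite K] (a : Fin (n+2) → K) (ha : a (Fin.last (n+1)) ≠ 0) :
    Function.Injective (psi0 a) := by
  rw [injective_iff_map_eq_zero]
  intro p hp
  have h1 : X 0 * p = 0 := by
    apply MvPolynomial.funext
    intro x
    rw [map_mul, map_zero, eval_X]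
    by_cases hx : x 0 = 0
    · rw [hx, zero_mul]
    · rw [← evx_psi0 a x ha hx p, hp, map_zero, mul_zero]
  exact (mul_eq_zero.1 h1).resolve_left (X_ne_zero _)

theorem vv_hom (a : Fin (n+2) → K) (i : Fin (n+2)) : (vv a i).IsHomogeneous 1 := by
  refine Fin.lastCases ?_ (fun i => ?_) i
  · rw [vv, Fin.snoc_last]
    have h1 : (C Polynomial.X * X 0 - ∑ i : Fin (n+1), C (Polynomial.C (a i.castSucc)) * X i :
        MvPolynomial (Fin (n+1)) (Polynomial K)).IsHomogeneous 1 :=
      (isHomogeneous_C_mul_X _ _).sub (IsHomogeneous.sum _ _ _ fun i _ => isHomogeneous_C_mul_X _ _)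
    have := (isHomogeneous_C (Fin (n+1)) (Polynomial.C (a (Fin.last (n+1)))⁻¹)).mul h1
    rwa [zero_add] at this
  · rw [vv, Fin.snoc_castSucc]
    exact isHomogeneous_X _ _

theorem psi0_hom (a : Fin (n+2) → K) {p : MvPolynomial (Fin (n+2)) K} {k : ℕ}
    (hp : p.IsHomogeneous k) : (psi0 a p).IsHomogeneous k := by
  have := hp.aeval (vv a) (vv_hom a)
  rwa [one_mul] at this

/-- the relation over `K(T)` -/
theorem rel_KT [Infinite K] {d : ℕ} (hd : 1 ≤ d) (f : Fin (n+2) → MvPolynomial (Fin (n+2)) K)
    (hf : ∀ i, (f i).IsHomogeneous d) (hfi : AlgebraicIndependent K f)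
    (a : Fin (n+2) → K) (ha : a (Fin.last (n+1)) ≠ 0) :
    ∃ e ≤ d ^ n, ∃ P : MvPolynomial (Fin (n+2)) (Polynomial K), P ≠ 0 ∧ P.IsHomogeneous e ∧
      aeval (fun i => psi0 a (f i)) P = 0 := by
  set F := FractionRing (Polynomial K) with hF
  set io : MvPolynomial (Fin (n+1)) (Polynomial K) →+* MvPolynomial (Fin (n+1)) F :=
    map (algebraMap (Polynomial K) F) with hio
  have hKF : Function.Injective (algebraMap (Polynomial K) F) := IsFractionRing.injective _ _
  have hioinj : Function.Injective io := map_injective _ hKF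
  haveI : Infinite F := Infinite.of_injective _ (hKF.comp (Polynomial.C_injective (R := K)))
  set g : Fin (n+2) → MvPolynomial (Fin (n+1)) F := fun i => io (psi0 a (f i)) with hg
  have hgh : ∀ i, (g i).IsHomogeneous d := fun i => (psi0_hom a (hf i)).map _
  have htb : IsTranscendenceBasis K f :=
    hfi.isTranscendenceBasis_of_trdeg_le_of_finite (by
      rw [MvPolynomial.trdeg_of_isDomain]; simp)
  have halg1 := htb.isAlgebraic
  have halg : Algebra.IsAlgebraic (Algebra.adjoin F (Set.range g)) (MvPolynomial (Fin (n+1)) F) := by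
    set A2 := Algebra.adjoin F (Set.range g) with hA2
    have hgA : ∀ i, g i ∈ A2 := fun i => Algebra.subset_adjoin ⟨i, rfl⟩
    set ψ : MvPolynomial (Fin (n+2)) K →+* MvPolynomial (Fin (n+1)) F :=
      io.comp (psi0 a).toRingHom with hψ
    have hψinj : Function.Injective ψ := hioinj.comp (psi0_inj a ha)
    have hCψ : ∀ c : K, ψ (C c) ∈ A2 := by
      intro c
      have h1 : ψ (C c) = algebraMap F (MvPolynomial (Fin (n+1)) F)
          (algebraMap (Polynomial K) F (Polynomial.C c)) := by
        rw [hψ]
        change io (psi0 a (C c)) = _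
        have : psi0 a (C c) = C (Polynomial.C c) := (psi0 a).commutes c
        rw [this, hio, map_C]; rfl
      rw [h1]
      exact A2.algebraMap_mem _
    have hX : ∀ i, IsAlgebraic A2 (ψ (X i)) := by
      intro i
      refine alg_map (R1 := Algebra.adjoin K (Set.range f)) ψ hψinj Subtype.val_injective ?_
        (halg1.isAlgebraic (X i))
      intro r
      have h1 : ∀ z ∈ Algebra.adjoin K (Set.range f), ψ z ∈ A2 := by
        intro z hz
        induction hz using Algebra.adjoin_induction with
        | mem x hx =>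
          obtain ⟨i, rfl⟩ := hx
          exact hgA i
        | algebraMap c => exact hCψ c
        | add x y _ _ hx hy => rw [map_add]; exact add_mem hx hy
        | mul x y _ _ hx hy => rw [map_mul]; exact mul_mem hx hy
      exact ⟨⟨_, h1 r.1 r.2⟩, rfl⟩
    constructor
    intro p
    change p ∈ Subalgebra.algebraicClosure A2 (MvPolynomial (Fin (n+1)) F)
    induction p using MvPolynomial.induction_on with
    | C c =>
      exact (Subalgebra.algebraicClosure A2 (MvPolynomial (Fin (n+1)) F)).algebraMap_mem
        ⟨C c, A2.algebraMap_mem c⟩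
    | add p q hp hq => exact add_mem hp hq
    | mul_X p i hp =>
      refine mul_mem hp ?_
      have h1 : ψ (X i.castSucc) = X i := by
        rw [hψ]
        change io (psi0 a (X i.castSucc)) = _
        rw [psi0, aeval_X, vv, Fin.snoc_castSucc, hio, map_X]
      rw [← h1]
      exact hX i.castSucc
  obtain ⟨e, he, P, hP0, hPh, hPg⟩ := exists_rel hd g hgh halg
  -- clear denominators
  obtain ⟨b, hb⟩ := IsLocalization.exist_integer_multiples_of_finset
    (nonZeroDivisors (Polynomial K)) (P.coeffs)
  have hb0 : algebraMap (Polynomial K) F (b : Polynomial K) ≠ 0 := by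
    intro h
    exact nonZeroDivisors.ne_zero b.2 (hKF (by rw [h, map_zero]))
  have hbP : ∃ P0 : MvPolynomial (Fin (n+2)) (Polynomial K),
      map (algebraMap (Polynomial K) F) P0 = C (algebraMap (Polynomial K) F b) * P := by
    have : C (algebraMap (Polynomial K) F b) * P ∈
        Set.range (map (σ := Fin (n+2)) (algebraMap (Polynomial K) F)) := by
      rw [mem_range_map_iff_coeffs_subset]
      intro c hc
      rw [Finset.mem_coe, mem_coeffs_iff] at hc
      obtain ⟨s, hs, rfl⟩ := hc
      rw [coeff_C_mul]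
      have hsP : coeff s P ∈ P.coeffs := by
        apply coeff_mem_coeffs
        intro h
        rw [mem_support_iff, coeff_C_mul, h, mul_zero] at hs
        exact hs rfl
      obtain ⟨r, hr⟩ := hb _ hsP
      refine ⟨r, ?_⟩
      rw [hr, Algebra.smul_def]
    exact this
  obtain ⟨P0, hP0eq⟩ := hbP
  refine ⟨e, he, P0, ?_, ?_, ?_⟩
  · rintro rfl
    rw [map_zero] at hP0eq
    rcases mul_eq_zero.1 hP0eq.symm with h | h
    · exact hb0 (C_injective _ _ (by rw [h, map_zero]))
    · exact hP0 h
  · apply IsHomogeneous.of_map hKF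
    rw [hP0eq]
    have := (isHomogeneous_C (Fin (n+2)) (algebraMap (Polynomial K) F b)).mul hPh
    rwa [zero_add] at this
  · apply hioinj
    rw [map_zero]
    have h1 : ∀ Q : MvPolynomial (Fin (n+2)) (Polynomial K),
        io (aeval (fun i => psi0 a (f i)) Q) = aeval g (map (algebraMap (Polynomial K) F) Q) := by
      intro Q
      induction Q using MvPolynomial.induction_on with
      | C c =>
        rw [aeval_C, map_C, aeval_C]
        change io (C c) = C _
        rw [hio, map_C]
      | add p q hp hq => rw [map_add, map_add, hp, hq, map_add, map_add]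
      | mul_X p i hp => rw [map_mul, map_mul, hp, aeval_X, map_mul, map_X, map_mul, aeval_X]
    rw [h1, hP0eq, map_mul, hPg, mul_zero]

end

end Pool.Agent.H6.HA
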