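import Pool.Agent.H6.HA4

namespace Pool.Agent.H6.HA

open MvPolynomial

section
variable {K : Type} [Field K] {n : ℕ}

/-- the coefficient of `T ^ k` -/
noncomputable def ck (P : MvPolynomial (Fin (n+2)) (Polynomial K)) (k : ℕ) :
    MvPolynomial (Fin (n+2)) K :=
  ∑ s ∈ P.support, monomial s ((coeff s P).coeff k)

theorem coeff_ck (P : MvPolynomial (Fin (n+2)) (Polynomial K)) (k : ℕ) (s : Fin (n+2) →₀ ℕ) :
    coeff s (ck P k) = (coeff s P).coeff k := by
  unfold ck
  rw [coeff_sum]
  by_cases hs : s ∈ P.support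
  · rw [Finset.sum_eq_single s]
    · rw [coeff_monomial, if_pos rfl]
    · intro t _ ht
      rw [coeff_monomial, if_neg ht]
    · intro h; exact absurd hs h
  · rw [notMem_support_iff.1 hs, Polynomial.coeff_zero]
    apply Finset.sum_eq_zero
    intro t ht
    rw [coeff_monomial, if_neg]
    rintro rfl
    exact hs ht

theorem eval_ck (P : MvPolynomial (Fin (n+2)) (Polynomial K)) (M : ℕ)
    (hM : ∀ s, (coeff s P).natDegree ≤ M) (u : K) (y : Fin (n+2) → K) :
    eval y (map (Polynomial.evalRingHom u) P) =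
      ∑ k ∈ Finset.range (M + 1), eval y (ck P k) * u ^ k := by
  have h1 : ∀ k, eval y (ck P k) = ∑ s ∈ P.support, (coeff s P).coeff k * ∏ i, y i ^ s i := by
    intro k
    unfold ck
    rw [map_sum]
    apply Finset.sum_congr rfl
    intro s _
    rw [eval_monomial, Finsupp.prod_fintype _ _ (fun i => pow_zero _)]
  simp_rw [h1, Finset.sum_mul]
  rw [Finset.sum_comm, eval_map, eval₂_eq']
  apply Finset.sum_congr rfl
  intro s _
  rw [Polynomial.coe_evalRingHom, Polynomial.eval_eq_sum_range' (Nat.lt_succ_of_le (hM s)),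
    Finset.sum_mul]
  apply Finset.sum_congr rfl
  intro k _
  ring

/-- the algebraic input -/
theorem alg_main [Infinite K] {d : ℕ} (hd : 1 ≤ d) (f : Fin (n+2) → MvPolynomial (Fin (n+2)) K)
    (hf : ∀ i, (f i).IsHomogeneous d) (hfi : AlgebraicIndependent K f)
    (a : Fin (n+2) → K) (ha : a (Fin.last (n+1)) ≠ 0) :
    ∃ e ≤ d ^ n, ∃ (m : ℕ) (c : ℕ → MvPolynomial (Fin (n+2)) K), (∀ k, (c k).IsHomogeneous e) ∧
      c m ≠ 0 ∧ (∀ k, m < k → c k = 0) ∧ ∀ x : Fin (n+2) → K, x 0 ≠ 0 →
        ∑ k ∈ Finset.range (m + 1), eval (fun i => eval x (f i)) (c k) *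
          ((∑ i, a i * x i) / x 0) ^ k = 0 := by
  obtain ⟨e, he, P, hP0, hPh, hPf⟩ := rel_KT hd f hf hfi a ha
  set m := P.support.sup (fun s => (coeff s P).natDegree) with hm
  have hmle : ∀ s, (coeff s P).natDegree ≤ m := by
    intro s
    by_cases hs : s ∈ P.support
    · exact Finset.le_sup (f := fun s => (coeff s P).natDegree) hs
    · rw [notMem_support_iff.1 hs]; simp
  refine ⟨e, he, m, ck P, ?_, ?_, ?_, ?_⟩
  · intro k s hs
    apply hPh
    intro h
    apply hs
    rw [coeff_ck, h, Polynomial.coeff_zero]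
  · have hne : P.support.Nonempty := by
      rw [Finset.nonempty_iff_ne_empty]
      intro h
      exact hP0 (support_eq_empty.1 h)
    obtain ⟨s, hs, hs2⟩ := Finset.exists_mem_eq_sup P.support hne (fun s => (coeff s P).natDegree)
    intro h0
    have h1 := coeff_ck P m s
    rw [h0, coeff_zero, hm, hs2] at h1
    exact (mem_support_iff.1 hs) (Polynomial.leadingCoeff_eq_zero.1 h1.symm)
  · intro k hk
    ext s
    rw [coeff_ck, coeff_zero]
    exact Polynomial.coeff_eq_zero_of_natDegree_lt (lt_of_le_of_lt (hmle s) hk)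
  · intro x hx
    rw [← eval_ck P m hmle]
    have h1 : ∀ Q : MvPolynomial (Fin (n+2)) (Polynomial K),
        evx a x (aeval (fun i => psi0 a (f i)) Q) = eval (fun i => eval x (f i))
          (map (Polynomial.evalRingHom ((∑ i, a i * x i) / x 0)) Q) := by
      intro Q
      induction Q using MvPolynomial.induction_on with
      | C c =>
        rw [aeval_C, map_C, eval_C]
        change evx a x (C c) = _
        rw [evx, eval₂Hom_C]
      | add p q hp hq => rw [map_add, map_add, hp, hq, map_add, map_add]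
      | mul_X p i hp =>
        rw [map_mul, map_mul, hp, aeval_X, map_mul, map_X, map_mul, eval_X, evx_psi0 a x ha hx]
    rw [← h1, hPf, map_zero]

end

end Pool.Agent.H6.HA
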