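import Mathlib

namespace Pool.Agent.H6.HT

open Height NumberField

universe u v

/-- archimedean part via embeddings -/
theorem arch_emb {K : Type*} [Field K] [NumberField K] {ι : Type*} (x : ι → K) :
    (∏ v : InfinitePlace K, (⨆ i, v (x i)) ^ v.mult) = ∏ φ : K →+* ℂ, ⨆ i, ‖φ (x i)‖ := by
  classical
  rw [← Finset.prod_fiberwise Finset.univ InfinitePlace.mk (fun φ : K →+* ℂ => ⨆ i, ‖φ (x i)‖)]
  apply Finset.prod_congr rfl
  intro w _
  have (φ) (hφ : φ ∈ ({φ | InfinitePlace.mk φ = w} : Finset (K →+* ℂ))) :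
      (⨆ i, ‖φ (x i)‖) = ⨆ i, w (x i) := by
    rw [← (Finset.mem_filter.mp hφ).2]
    rfl
  rw [Finset.prod_congr rfl this, Finset.prod_const, InfinitePlace.card_filter_mk_eq]

theorem emb_card {K L : Type*} [Field K] [NumberField K] [Field L] [NumberField L] [Algebra K L]
    (φ : K →+* ℂ) [DecidableEq (K →+* ℂ)] :
    (Finset.univ.filter (fun ψ : L →+* ℂ => ψ.comp (algebraMap K L) = φ)).card =
      Module.finrank K L := by
  letI := φ.toAlgebra
  rw [← AlgHom.card K L ℂ]
  symm
  rw [← Finset.card_univ]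
  refine Finset.card_bij (fun (f : L →ₐ[K] ℂ) _ => f.toRingHom) ?_ ?_ ?_
  · intro f _
    rw [Finset.mem_filter]
    refine ⟨Finset.mem_univ _, ?_⟩
    ext a
    exact f.commutes a
  · intro f _ g _ h
    exact AlgHom.coe_ringHom_injective h
  · intro ψ hψ
    rw [Finset.mem_filter] at hψ
    refine ⟨{ ψ with commutes' := fun a => ?_ }, Finset.mem_univ _, rfl⟩
    exact DFunLike.congr_fun hψ.2 a

theorem arch_ext {K L : Type*} [Field K] [NumberField K] [Field L] [NumberField L] [Algebra K L]
    {ι : Type*} (x : ι → K) :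
    (∏ φ : L →+* ℂ, ⨆ i, ‖φ (algebraMap K L (x i))‖) =
      (∏ φ : K →+* ℂ, ⨆ i, ‖φ (x i)‖) ^ Module.finrank K L := by
  classical
  rw [← Finset.prod_fiberwise Finset.univ (fun ψ : L →+* ℂ => ψ.comp (algebraMap K L))
    (fun φ : L →+* ℂ => ⨆ i, ‖φ (algebraMap K L (x i))‖), ← Finset.prod_pow]
  apply Finset.prod_congr rfl
  intro φ _
  rw [← emb_card (L := L) φ, ← Finset.prod_const]
  apply Finset.prod_congr rfl
  intro ψ hψ
  rw [Finset.mem_filter] at hψ
  rw [← hψ.2]
  rfl

theorem mulHeight_ext_int {K L : Type*} [Field K] [NumberField K] [Field L] [NumberField L]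
    [Algebra K L] {ι : Type*} [Finite ι] (x : ι → 𝓞 K) (hx : x ≠ 0) :
    mulHeight (fun i => algebraMap K L (x i : K)) =
      mulHeight (fun i => (x i : K)) ^ Module.finrank K L := by
  have hx1 : (fun i => (x i : K)) ≠ 0 := by
    intro h
    apply hx
    funext i
    exact RingOfIntegers.coe_injective (congrFun h i)
  have hx2 : (fun i => algebraMap K L (x i : K)) ≠ 0 := by
    intro h
    apply hx1
    funext i
    exact (algebraMap K L).injective (by rw [congrFun h i]; simp)
  let y : ι → 𝓞 L := fun i => algebraMap (𝓞 K) (𝓞 L) (x i)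
  have hy : y ≠ 0 := by
    intro h
    apply hx
    funext i
    have := congrFun h i
    exact (FaithfulSMul.algebraMap_injective (𝓞 K) (𝓞 L)) (by rw [show algebraMap (𝓞 K) (𝓞 L) (x i) = 0 from this]; simp)
  have hyx : ∀ i, ((y i : 𝓞 L) : L) = algebraMap K L (x i : K) := fun i => rfl
  rw [NumberField.mulHeight_eq hx1, NumberField.mulHeight_eq hx2, arch_emb, arch_emb, arch_ext,
    mul_pow]
  congr 1
  have h1 := absNorm_mul_finprod_finitePlace_eq_one hx
  have h2 := absNorm_mul_finprod_finitePlace_eq_one hy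
  have h3 : Ideal.span (Set.range y) = (Ideal.span (Set.range x)).map (algebraMap (𝓞 K) (𝓞 L)) := by
    rw [Ideal.map_span]
    congr 1
    rw [← Set.range_comp]
    rfl
  have h4 : (Ideal.span (Set.range y)).absNorm =
      (Ideal.span (Set.range x)).absNorm ^ Module.finrank K L := by
    rw [h3, Ideal.absNorm_algebraMap]
    congr 1
    exact (IsFractionRing.finrank_eq (𝓞 K) K (𝓞 L) L).symm
  have h5 : ((Ideal.span (Set.range x)).absNorm : ℝ) ≠ 0 := by
    intro h
    rw [h, zero_mul] at h1
    exact zero_ne_one h1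
  rw [h4] at h2
  push_cast at h2
  have e1 := eq_inv_of_mul_eq_one_right h1
  have e2 := eq_inv_of_mul_eq_one_right h2
  have e3 : (∏ᶠ v : FinitePlace L, ⨆ i, v (algebraMap K L (x i : K))) =
      ∏ᶠ v : FinitePlace L, ⨆ i, v ((y i : 𝓞 L) : L) := rfl
  rw [e3, e2, e1, inv_pow]

theorem mulHeight_ext {K L : Type*} [Field K] [NumberField K] [Field L] [NumberField L]
    [Algebra K L] {ι : Type*} [Finite ι] (x : ι → K) :
    mulHeight (fun i => algebraMap K L (x i)) = mulHeight x ^ Module.finrank K L := by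
  by_cases hx : x = 0
  · subst hx
    have : (fun i : ι => algebraMap K L ((0 : ι → K) i)) = 0 := by funext i; simp
    rw [this, mulHeight_zero, mulHeight_zero, one_pow]
  · obtain ⟨b, hb⟩ := IsLocalization.exist_integer_multiples_of_finite (nonZeroDivisors (𝓞 K)) x
    have hb0 : ((b : 𝓞 K) : K) ≠ 0 := by
      intro h
      exact nonZeroDivisors.ne_zero b.2 (RingOfIntegers.coe_injective h)
    choose y hy using hb
    have hyx : (fun i => (y i : K)) = ((b : 𝓞 K) : K) • x := by
      funext i
      exact (hy i).trans (Algebra.smul_def _ _)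
    have hy0 : y ≠ 0 := by
      intro h
      apply hx
      funext i
      have := congrFun hyx i
      rw [h] at this
      simp only [Pi.zero_apply, map_zero, Pi.smul_apply, smul_eq_mul] at this
      rcases mul_eq_zero.1 this.symm with h1 | h1
      · exact absurd h1 hb0
      · exact h1
    have h1 := mulHeight_ext_int (L := L) y hy0
    rw [hyx, mulHeight_smul_eq_mulHeight x hb0] at h1
    rw [← h1]
    have h2 : (fun i => algebraMap K L (y i : K)) =
        (algebraMap K L ((b : 𝓞 K) : K)) • (fun i => algebraMap K L (x i)) := by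
      funext i
      rw [show (y i : K) = ((b : 𝓞 K) : K) * x i from congrFun hyx i, map_mul]
      rfl
    rw [h2, mulHeight_smul_eq_mulHeight]
    intro h
    exact hb0 ((algebraMap K L).injective (by rw [h]; simp))

end Pool.Agent.H6.HT
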