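import Pool.Agent.H6.HT9

namespace Pool.Agent.H6.HT

open Height NumberField Pool.Agent.H6.HTDefs MvPolynomial

theorem absHeight_int {m : ℕ} (x : Fin (m + 1) → ℤ) (hx : x 0 = 1) :
    absHeight (fun i => (x i : AlgebraicClosure ℚ)) = Real.log ((⨆ i, |x i| : ℤ) : ℝ) := by
  have hgcd : Finset.univ.gcd x = 1 := by
    have h1 : Finset.univ.gcd x ∣ x 0 := Finset.gcd_dvd (Finset.mem_univ _)
    rw [hx] at h1
    have h2 := Int.isUnit_iff.1 (isUnit_of_dvd_one h1)
    rcases h2 with h2 | h2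
    · exact h2
    · exfalso
      have h3 : normalize (Finset.univ.gcd x) = Finset.univ.gcd x := Finset.normalize_gcd
      rw [h2] at h3
      revert h3
      decide
  have h1 := Rat.logHeight_eq_max_abs_of_gcd_eq_one hgcd
  set X : Fin (m + 1) → AlgebraicClosure ℚ := fun i => (x i : AlgebraicClosure ℚ) with hX
  have h2 := mulHeight_ext (K := ℚ) (L := coordField X) (((↑) : ℤ → ℚ) ∘ x)
  have h3 : (fun i => (⟨X i, IntermediateField.subset_adjoin ℚ _ ⟨i, rfl⟩⟩ : coordField X)) =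
      fun i => algebraMap ℚ (coordField X) ((((↑) : ℤ → ℚ) ∘ x) i) := by
    funext i
    apply Subtype.ext
    simp [hX]
  have h4 : (Module.finrank ℚ (coordField X) : ℝ) ≠ 0 := by
    have := Module.finrank_pos (R := ℚ) (M := coordField X)
    positivity
  unfold absHeight
  rw [h3]
  unfold logHeight
  rw [h2, Real.log_pow]
  unfold logHeight at h1
  rw [h1]
  field_simp

theorem absHeight_int_le {m : ℕ} (x : Fin (m + 1) → ℤ) (hx : x 0 = 1) (T : ℕ)
    (hT : ∀ i, |x i| ≤ T) :
    absHeight (fun i => (x i : AlgebraicClosure ℚ)) ≤ Real.log T := by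
  rw [absHeight_int x hx]
  have h1 : (⨆ i, |x i|) ≤ (T : ℤ) := ciSup_le hT
  have h2 : (1 : ℤ) ≤ ⨆ i, |x i| := by
    have := Finite.le_ciSup (fun i => |x i|) 0
    simpa [hx] using this
  apply Real.log_le_log
  · have : (1 : ℝ) ≤ ((⨆ i, |x i| : ℤ) : ℝ) := by exact_mod_cast h2
    linarith
  · exact_mod_cast h1

theorem le_absHeight_int {m : ℕ} (x : Fin (m + 1) → ℤ) (hx : x 0 = 1) (i : Fin (m + 1))
    (R : ℝ) (hR0 : 0 < R) (hR : R ≤ |(x i : ℝ)|) :
    Real.log R ≤ absHeight (fun i => (x i : AlgebraicClosure ℚ)) := by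
  rw [absHeight_int x hx]
  apply Real.log_le_log hR0
  refine hR.trans ?_
  have := Finite.le_ciSup (fun i => |x i|) i
  exact_mod_cast this

section
variable {R : Type*} [CommRing R]

/-- inverse of the triangular map -/
def xs (d : ℕ) (y : ℕ → R) : ℕ → R
  | 0 => 1
  | (j + 1) => y j - (xs d y j) ^ d

theorem xs_map {S : Type*} [CommRing S] (φ : R →+* S) (d : ℕ) (y : ℕ → R) (j : ℕ) :
    φ (xs d y j) = xs d (fun i => φ (y i)) j := by
  induction j with
  | zero => simp [xs]
  | succ j ih => simp only [xs]; rw [map_sub, map_pow, ih]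

theorem xs_congr {d : ℕ} {y z : ℕ → R} {j : ℕ} (h : ∀ i < j, y i = z i) :
    xs d y j = xs d z j := by
  induction j with
  | zero => rfl
  | succ j ih =>
    simp only [xs]
    rw [h j (Nat.lt_succ_self j), ih (fun i hi => h i (Nat.lt_succ_of_lt hi))]

end

/-- the triangular map -/
noncomputable def ff (n d : ℕ) : Fin (n + 2) → MvPolynomial (Fin (n + 2)) (AlgebraicClosure ℚ) :=
  Fin.cases (X 0 ^ d) (fun j => X j.succ * X 0 ^ (d - 1) + X j.castSucc ^ d)

theorem ff_val {n d : ℕ} (y : ℕ → AlgebraicClosure ℚ) :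
    mapVal (ff n d) (fun i => xs d y i) = fun i : Fin (n + 2) => if (i : ℕ) = 0 then 1 else y (i - 1) := by
  funext i
  unfold mapVal ff
  refine Fin.cases ?_ (fun j => ?_) i
  · rw [Fin.cases_zero]
    simp [xs]
  · rw [Fin.cases_succ]
    simp [xs]

end Pool.Agent.H6.HT
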