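import Pool.Agent.H6.HT10

namespace Pool.Agent.H6.HT

open Height NumberField Pool.Agent.H6.HTDefs MvPolynomial

theorem eval_hsmul {m k : ℕ} {p : MvPolynomial (Fin m) (AlgebraicClosure ℚ)} (hp : p.IsHomogeneous k)
    (c : AlgebraicClosure ℚ) (x : Fin m → AlgebraicClosure ℚ) :
    eval (fun i => c * x i) p = c ^ k * eval x p := by
  rw [eval_eq', eval_eq', Finset.mul_sum]
  apply Finset.sum_congr rfl
  intro s hs
  have hdeg : ∑ i, s i = k := by
    have h1 : s.degree = k := by
      by_contra h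
      exact (mem_support_iff.1 hs) (hp.coeff_eq_zero h)
    rw [← h1, Finsupp.degree_eq_sum]
  have : ∏ i, (c * x i) ^ s i = c ^ k * ∏ i, x i ^ s i := by
    rw [← hdeg, ← Finset.prod_pow_eq_pow_sum, ← Finset.prod_mul_distrib]
    apply Finset.prod_congr rfl
    intro i _
    rw [mul_pow]
  rw [this]; ring

theorem ff_hom (n d : ℕ) (hd : 1 ≤ d) (i : Fin (n + 2)) : (ff n d i).IsHomogeneous d := by
  unfold ff
  refine Fin.cases ?_ (fun j => ?_) i
  · rw [Fin.cases_zero]
    have := (isHomogeneous_X (AlgebraicClosure ℚ) (0 : Fin (n + 2))).pow d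
    rwa [one_mul] at this
  · rw [Fin.cases_succ]
    apply IsHomogeneous.add
    · have := (isHomogeneous_X (AlgebraicClosure ℚ) j.succ).mul
        ((isHomogeneous_X (AlgebraicClosure ℚ) (0 : Fin (n + 2))).pow (d - 1))
      rw [one_mul, Nat.add_sub_cancel' hd] at this
      exact this
    · have := (isHomogeneous_X (AlgebraicClosure ℚ) j.castSucc).pow d
      rwa [one_mul] at this

/-- prescribed values -/
theorem ff_surj {n d : ℕ} (y : Fin (n + 2) → AlgebraicClosure ℚ) (hy : y 0 = 1) :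
    ∃ Y : ℕ → AlgebraicClosure ℚ, mapVal (ff n d) (fun i => xs d Y i) = y := by
  refine ⟨fun j => if h : j + 1 < n + 2 then y ⟨j + 1, h⟩ else 0, ?_⟩
  rw [ff_val]
  funext i
  refine Fin.cases ?_ (fun j => ?_) i
  · simp [hy]
  · have h1 : ((j.succ : Fin (n + 2)) : ℕ) ≠ 0 := by simp
    rw [if_neg h1]
    have h2 : ((j.succ : Fin (n + 2)) : ℕ) - 1 + 1 < n + 2 := by
      have := j.succ.2
      omega
    rw [dif_pos h2]
    congr 1

theorem ff_dom (n d : ℕ) (hn : 1 ≤ n) (hd : 1 ≤ d) : IsDominantMap (n + 1) d (ff n d) := by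
  refine ⟨ff_hom n d hd, ?_, ?_⟩
  · intro g hg
    have h0 : g ∣ X 0 ^ d := hg 0
    obtain ⟨i, _, hi⟩ := (dvd_prime_pow (X_prime (i := (0 : Fin (n + 2)))) d).1 h0
    rcases Nat.eq_zero_or_pos i with rfl | hipos
    · rw [pow_zero] at hi
      exact (associated_one_iff_isUnit).1 hi
    · exfalso
      have h1 : X 0 ∣ g := (dvd_pow_self _ hipos.ne').trans hi.symm.dvd
      have h2 : X 0 ∣ ff n d (Fin.succ ⟨1, by omega⟩) := h1.trans (hg _)
      obtain ⟨q, hq⟩ := h2
      have h3 := congrArg (eval (fun i : Fin (n + 2) => if (i : ℕ) = 1 then (1 : AlgebraicClosure ℚ) else 0)) hq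
      rw [map_mul, eval_X] at h3
      simp [ff] at h3
  · intro G k hG hGh
    obtain ⟨y, hy⟩ : ∃ y, eval y (X 0 * G) ≠ 0 := by
      by_contra hcon
      push Not at hcon
      exact (mul_ne_zero (X_ne_zero 0) hG) (MvPolynomial.funext (fun x => by rw [hcon x, map_zero]))
    rw [map_mul, eval_X] at hy
    have hy0 : y 0 ≠ 0 := left_ne_zero_of_mul hy
    obtain ⟨Y, hY⟩ := ff_surj (d := d) (fun i => (y 0)⁻¹ * y i) (inv_mul_cancel₀ hy0)
    refine ⟨fun i => xs d Y i, ?_, ?_⟩
    · rw [hY]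
      intro h
      have := congrFun h 0
      simp only [Pi.zero_apply] at this
      rw [inv_mul_cancel₀ hy0] at this
      exact one_ne_zero this
    · rw [hY, eval_hsmul hGh]
      exact mul_ne_zero (pow_ne_zero _ (inv_ne_zero hy0)) (right_ne_zero_of_mul hy)

end Pool.Agent.H6.HT
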