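import Pool.Agent.H6.HT11

namespace Pool.Agent.H6.HT

open Height NumberField Pool.Agent.H6.HTDefs MvPolynomial

/-- extension of a vector by zero -/
def ext0 {R : Type*} [Zero R] {m : ℕ} (v : Fin m → R) (j : ℕ) : R := if h : j < m then v ⟨j, h⟩ else 0

noncomputable def gt {n : ℕ} (d : ℕ) (g : MvPolynomial (Fin (n + 2)) (AlgebraicClosure ℚ)) :
    MvPolynomial (Fin (n + 1)) (AlgebraicClosure ℚ) :=
  aeval (fun i : Fin (n + 2) => xs d (ext0 (fun j : Fin (n + 1) =>
    (X j : MvPolynomial (Fin (n + 1)) (AlgebraicClosure ℚ)))) i) g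

theorem gt_eval {n : ℕ} (d : ℕ) (g : MvPolynomial (Fin (n + 2)) (AlgebraicClosure ℚ))
    (v : Fin (n + 1) → AlgebraicClosure ℚ) :
    eval v (gt d g) = eval (fun i : Fin (n + 2) => xs d (ext0 v) i) g := by
  unfold gt
  have h0 : ∀ i : ℕ, eval v (xs d (ext0 (fun j : Fin (n + 1) =>
      (X j : MvPolynomial (Fin (n + 1)) (AlgebraicClosure ℚ)))) i) = xs d (ext0 v) i := by
    intro i
    rw [xs_map]
    apply xs_congr
    intro j _
    unfold ext0
    split_ifs with h
    · rw [eval_X]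
    · rw [map_zero]
  induction g using MvPolynomial.induction_on with
  | C c => rw [aeval_C, eval_C]; exact eval_C c
  | add p q hp hq => rw [map_add, map_add, map_add, hp, hq]
  | mul_X p i hp => rw [map_mul, map_mul, map_mul, hp, eval_X, aeval_X, h0]

theorem gt_ne {n d k : ℕ} {g : MvPolynomial (Fin (n + 2)) (AlgebraicClosure ℚ)} (hg : g ≠ 0)
    (hgh : g.IsHomogeneous k) : gt d g ≠ 0 := by
  intro h0
  have h1 : ∀ x : Fin (n + 2) → AlgebraicClosure ℚ, x 0 = 1 → eval x g = 0 := by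
    intro x hx
    set xx : ℕ → AlgebraicClosure ℚ := ext0 x with hxx
    have hxx0 : xx 0 = 1 := by
      rw [hxx]; unfold ext0; rw [dif_pos (by omega)]; exact hx
    set v : Fin (n + 1) → AlgebraicClosure ℚ := fun j => xx (j + 1) + xx j ^ d with hv
    have h2 : ∀ j : ℕ, j < n + 2 → xs d (ext0 v) j = xx j := by
      intro j
      induction j with
      | zero => intro _; rw [hxx0]; rfl
      | succ j ih =>
        intro hj
        simp only [xs]
        rw [ih (by omega)]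
        have : ext0 v j = xx (j + 1) + xx j ^ d := by
          unfold ext0
          rw [dif_pos (by omega : j < n + 1)]
        rw [this]; ring
    have h3 := gt_eval d g v
    rw [h0, map_zero] at h3
    rw [h3]
    congr 2
    funext i
    rw [h2 i i.2, hxx]
    unfold ext0
    rw [dif_pos i.2]
  have h2 : X 0 * g = 0 := by
    apply MvPolynomial.funext
    intro x
    rw [map_mul, map_zero, eval_X]
    by_cases hx : x 0 = 0
    · rw [hx, zero_mul]
    · have h3 := h1 (fun i => (x 0)⁻¹ * x i) (inv_mul_cancel₀ hx)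
      rw [eval_hsmul hgh] at h3
      rcases mul_eq_zero.1 h3 with h4 | h4
      · exact absurd h4 (pow_ne_zero _ (inv_ne_zero hx))
      · rw [h4, mul_zero]
  exact hg ((mul_eq_zero.1 h2).resolve_left (X_ne_zero _))

theorem box {n : ℕ} {G : MvPolynomial (Fin (n + 1)) (AlgebraicClosure ℚ)} (hG : G ≠ 0) (T : ℕ)
    (hT : G.totalDegree ≤ T) :
    ∃ z : Fin (n + 1) → ℕ, (∀ i, T ≤ z i ∧ z i ≤ 2 * T) ∧
      eval (fun i => (z i : AlgebraicClosure ℚ)) G ≠ 0 := by
  classical
  by_contra hcon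
  push Not at hcon
  apply hG
  refine MvPolynomial.eq_zero_of_eval_zero_at_prod_finset G
    (fun _ => (Finset.Icc T (2 * T)).image (Nat.cast : ℕ → AlgebraicClosure ℚ)) ?_ ?_
  · intro i
    rw [Finset.card_image_of_injective _ Nat.cast_injective, Nat.card_Icc]
    have := degreeOf_le_totalDegree G i
    omega
  · intro x hx
    have h1 : ∀ i, ∃ m : ℕ, (T ≤ m ∧ m ≤ 2 * T) ∧ (m : AlgebraicClosure ℚ) = x i := by
      intro i
      obtain ⟨m, hm, hm2⟩ := Finset.mem_image.1 (hx i)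
      exact ⟨m, Finset.mem_Icc.1 hm, hm2⟩
    choose z hz hz2 using h1
    have := hcon z hz
    rwa [show (fun i => (z i : AlgebraicClosure ℚ)) = x from funext hz2] at this

theorem growth {n d T : ℕ} (hd : 2 ≤ d) (hT : 16 ≤ T) (z : Fin (n + 1) → ℕ)
    (hz : ∀ i, T ≤ z i ∧ z i ≤ 2 * T) (j : ℕ) (hj : j ≤ n) :
    2 * ((T : ℝ) / 4) ^ (d ^ j) ≤ |((xs d (ext0 (fun i => (z i : ℤ))) (j + 1) : ℤ) : ℝ)| := by
  have hT' : (16 : ℝ) ≤ T := by exact_mod_cast hT
  induction j with
  | zero =>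
    have h1 : xs d (ext0 (fun i => (z i : ℤ))) (0 + 1) = (z 0 : ℤ) - 1 := by
      simp [xs, ext0]
    rw [h1]
    push_cast
    have h2 : (T : ℝ) ≤ z 0 := by exact_mod_cast (hz 0).1
    rw [abs_of_nonneg (by linarith)]
    simp only [pow_zero, pow_one]
    linarith
  | succ j ih =>
    have ih := ih (by omega)
    set A : ℤ := xs d (ext0 (fun i => (z i : ℤ))) (j + 1) with hA
    have h1 : xs d (ext0 (fun i => (z i : ℤ))) (j + 1 + 1) = (z ⟨j + 1, by omega⟩ : ℤ) - A ^ d := by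
      conv_lhs => unfold xs
      rw [← hA]
      congr 1
      unfold ext0
      rw [dif_pos (by omega : j + 1 < n + 1)]
    rw [h1]
    push_cast
    have hzb : ((z ⟨j + 1, by omega⟩ : ℕ) : ℝ) ≤ 2 * T := by exact_mod_cast (hz _).2
    have hz0 : (0 : ℝ) ≤ ((z ⟨j + 1, by omega⟩ : ℕ) : ℝ) := Nat.cast_nonneg _
    have hT4 : (1 : ℝ) ≤ (T : ℝ) / 4 := by linarith
    have hA1 : (T : ℝ) / 2 ≤ |(A : ℝ)| := by
      refine le_trans ?_ ih
      have : (T : ℝ) / 4 ≤ ((T : ℝ) / 4) ^ (d ^ j) :=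
        le_self_pow₀ hT4 (pow_ne_zero _ (by omega))
      linarith
    have hAd : |(A : ℝ)| ^ 2 ≤ |(A : ℝ)| ^ d := pow_le_pow_right₀ (by linarith) hd
    have hA2 : 4 * (T : ℝ) ≤ |(A : ℝ)| ^ d := by
      refine le_trans ?_ hAd
      nlinarith
    have hlow : 2 * (2 * ((T : ℝ) / 4) ^ (d ^ (j + 1))) ≤ |(A : ℝ)| ^ d := by
      calc 2 * (2 * ((T : ℝ) / 4) ^ (d ^ (j + 1))) = 2 ^ 2 * ((T : ℝ) / 4) ^ (d ^ (j + 1)) := by ring
        _ ≤ 2 ^ d * ((T : ℝ) / 4) ^ (d ^ (j + 1)) := by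
            apply mul_le_mul_of_nonneg_right (pow_le_pow_right₀ (by norm_num) hd) (by positivity)
        _ = (2 * ((T : ℝ) / 4) ^ (d ^ j)) ^ d := by
            rw [mul_pow, ← pow_mul, ← pow_succ]
        _ ≤ |(A : ℝ)| ^ d := pow_le_pow_left₀ (by positivity) ih d
    have h3 : |(A : ℝ)| ^ d - 2 * T ≤ |((z ⟨j + 1, by omega⟩ : ℕ) : ℝ) - (A : ℝ) ^ d| := by
      have h4 := abs_sub_abs_le_abs_sub ((A : ℝ) ^ d) ((z ⟨j + 1, by omega⟩ : ℕ) : ℝ)
      rw [abs_pow, abs_of_nonneg hz0, abs_sub_comm] at h4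
      linarith
    linarith

theorem mu_le {n d : ℕ} (hd : 2 ≤ d) : mu (ff n d) ≤ ((1 / (d : ℝ) ^ n : ℝ) : EReal) := by
  unfold mu
  refine iSup₂_le fun U hU => ?_
  obtain ⟨⟨x0, hx0U⟩, S, hS, hUS⟩ := hU
  rw [hUS] at hx0U
  obtain ⟨_, g, hgS, hgx0⟩ := hx0U
  obtain ⟨k, hgh⟩ := hS g hgS
  have hg0 : g ≠ 0 := by
    rintro rfl
    exact hgx0 (map_zero _)
  have hG := gt_ne (d := d) hg0 hgh
  rw [← EReal.le_of_forall_lt_iff_le]
  intro r hr
  rw [EReal.coe_lt_coe_iff] at hr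
  have hdR : (2 : ℝ) ≤ d := by exact_mod_cast hd
  have hD : (0 : ℝ) < (d : ℝ) ^ n := by positivity
  have hr0 : 0 < r := lt_trans (by positivity) hr
  rw [div_lt_iff₀ hD] at hr
  apply Filter.liminf_le_of_frequently_le'
  intro hev
  rw [Filter.eventually_inf_principal, Filter.eventually_comap, Filter.eventually_atTop] at hev
  obtain ⟨B, hB⟩ := hev
  set ρ : ℝ := r * (d : ℝ) ^ n with hρ
  -- choice of T
  set L : ℝ := max (max (Real.log 8 / (ρ - 1)) 1) |B| with hL
  obtain ⟨T, hT⟩ := exists_nat_gt (max (4 * Real.exp L) (max 16 ((gt d g).totalDegree : ℝ)))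
  have hT1 : 4 * Real.exp L < T := lt_of_le_of_lt (le_max_left _ _) hT
  have hT2 : (16 : ℝ) < T := lt_of_le_of_lt ((le_max_left _ _).trans (le_max_right _ _)) hT
  have hT3 : ((gt d g).totalDegree : ℝ) < T :=
    lt_of_le_of_lt ((le_max_right _ _).trans (le_max_right _ _)) hT
  have hT16 : 16 ≤ T := by
    have : 16 < T := by exact_mod_cast hT2
    omega
  have hTd : (gt d g).totalDegree ≤ T := by
    have : (gt d g).totalDegree < T := by exact_mod_cast hT3
    omega
  have hlogT : L ≤ Real.log ((T : ℝ) / 4) := by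
    rw [Real.le_log_iff_exp_le (by positivity)]
    linarith
  have hL1 : 1 ≤ L := (le_max_right _ _).trans (le_max_left _ _)
  have hL2 : Real.log 8 / (ρ - 1) ≤ L := (le_max_left _ _).trans (le_max_left _ _)
  have hL3 : B ≤ L := (le_abs_self B).trans (le_max_right _ _)
  obtain ⟨z, hz, hzG⟩ := box hG T hTd
  set Z : ℕ → ℤ := ext0 (fun i : Fin (n + 1) => (z i : ℤ)) with hZ
  set xi : Fin (n + 2) → ℤ := fun i => xs d Z i with hxi
  have hxi0 : xi 0 = 1 := rfl
  have hcast : ∀ j : ℕ, ((xs d Z j : ℤ) : AlgebraicClosure ℚ) =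
      xs d (ext0 (fun i : Fin (n + 1) => (z i : AlgebraicClosure ℚ))) j := by
    intro j
    have := xs_map (Int.castRingHom (AlgebraicClosure ℚ)) d Z j
    refine Eq.trans this ?_
    congr 1
    funext i
    rw [hZ]
    unfold ext0
    split_ifs
    · simp
    · simp
  set x : Fin (n + 2) → AlgebraicClosure ℚ := fun i => (xi i : AlgebraicClosure ℚ) with hx
  have hxg : eval x g ≠ 0 := by
    rw [gt_eval] at hzG
    rwa [show x = fun i : Fin (n + 2) =>
      xs d (ext0 (fun i : Fin (n + 1) => (z i : AlgebraicClosure ℚ))) i from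
      funext fun i => hcast i]
  have hx00 : x 0 = 1 := by rw [hx]; simp [hxi0]
  have hxU : x ∈ U := by
    rw [hUS]
    refine ⟨?_, g, hgS, hxg⟩
    intro h
    rw [h] at hx00
    exact zero_ne_one hx00
  set w : Fin (n + 2) → ℤ := fun i => if (i : ℕ) = 0 then 1 else Z (i - 1) with hw
  have hmap : mapVal (ff n d) x = fun i => (w i : AlgebraicClosure ℚ) := by
    have h1 : x = fun i : Fin (n + 2) =>
      xs d (ext0 (fun i : Fin (n + 1) => (z i : AlgebraicClosure ℚ))) i := funext fun i => hcast i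
    rw [h1, ff_val]
    funext i
    rw [hw]
    simp only
    split_ifs with h2
    · simp
    · rw [hZ]
      unfold ext0
      split_ifs
      · simp
      · simp
  have hw0 : w 0 = 1 := rfl
  have hfx0 : mapVal (ff n d) x ≠ 0 := by
    rw [hmap]
    intro h
    have := congrFun h 0
    simp [hw0] at this
  have hhf : absHeight (mapVal (ff n d) x) ≤ Real.log ((2 * T : ℕ) : ℝ) := by
    rw [hmap]
    apply absHeight_int_le w hw0
    intro i
    rw [hw]
    simp only
    split_ifs with h2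
    · push_cast
      simp
      omega
    · rw [hZ]
      unfold ext0
      split_ifs with h3
      · rw [Nat.abs_cast]
        exact_mod_cast (hz _).2
      · simp
  have hhx : (d : ℝ) ^ n * Real.log ((T : ℝ) / 4) ≤ absHeight x := by
    have h1 := growth hd hT16 z hz n le_rfl
    have hT4 : (0 : ℝ) < (T : ℝ) / 4 := by positivity
    have h2 := le_absHeight_int xi hxi0 (Fin.last (n + 1)) (2 * ((T : ℝ) / 4) ^ (d ^ n)) (by positivity)
      (by rw [hxi]; exact h1)
    refine le_trans ?_ h2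
    rw [Real.log_mul (by norm_num) (by positivity), Real.log_pow]
    have h3 : 0 < Real.log 2 := Real.log_pos (by norm_num)
    push_cast
    linarith
  have hLpos : 0 < Real.log ((T : ℝ) / 4) := by linarith
  have hDge1 : (1 : ℝ) ≤ (d : ℝ) ^ n := one_le_pow₀ (by linarith)
  have hhxB : B ≤ absHeight x := by
    have : Real.log ((T : ℝ) / 4) ≤ (d : ℝ) ^ n * Real.log ((T : ℝ) / 4) :=
      le_mul_of_one_le_left hLpos.le hDge1
    linarith
  have hhxpos : 0 < absHeight x := lt_of_lt_of_le (by positivity) hhx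
  refine hB (absHeight x) hhxB x rfl ⟨hxU, hfx0⟩ ?_
  change ((absHeight (mapVal (ff n d) x) / absHeight x : ℝ) : EReal) ≤ (r : EReal)
  rw [EReal.coe_le_coe_iff, div_le_iff₀ hhxpos]
  have h5 : Real.log ((2 * T : ℕ) : ℝ) = Real.log ((T : ℝ) / 4) + Real.log 8 := by
    rw [← Real.log_mul (by positivity) (by norm_num)]
    congr 1
    push_cast
    ring
  have hρ1 : 0 < ρ - 1 := by linarith
  have h6 : Real.log 8 ≤ (ρ - 1) * Real.log ((T : ℝ) / 4) := by
    rw [div_le_iff₀ hρ1] at hL2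
    nlinarith
  have h7 : r * ((d : ℝ) ^ n * Real.log ((T : ℝ) / 4)) ≤ r * absHeight x :=
    mul_le_mul_of_nonneg_left hhx hr0.le
  rw [h5] at hhf
  have h8 : r * ((d : ℝ) ^ n * Real.log ((T : ℝ) / 4)) = ρ * Real.log ((T : ℝ) / 4) := by
    rw [hρ]; ring
  linarith

theorem main (N d : ℕ) (hN : 2 ≤ N) (hd : 2 ≤ d) :
    muBar N d = ((1 / (d : ℝ) ^ (N - 1) : ℝ) : EReal) := by
  obtain ⟨n, rfl⟩ : ∃ n, N = n + 1 := ⟨N - 1, by omega⟩
  rw [Nat.add_sub_cancel]
  apply le_antisymm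
  · exact (iInf₂_le (ff n d) (ff_dom n d (by omega) (by omega))).trans (mu_le hd)
  · exact muBar_ge (by omega)

end Pool.Agent.H6.HT
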