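import Mathlib

/-!
Absolute logarithmic heights on projective space over the algebraic closure of `ℚ`, and the
height expansion ratio of dominant rational self-maps of projective space.
-/

namespace Pool.Agent.H6.HTDefs

open MvPolynomial

/-- The field `ℚ(x_0, ..., x_N)` generated by the coordinates of `x`. -/
noncomputable def coordField {ι : Type} (x : ι → AlgebraicClosure ℚ) :
    IntermediateField ℚ (AlgebraicClosure ℚ) :=
  IntermediateField.adjoin ℚ (Set.range x)

/-- For finitely many coordinates, `ℚ(x_0, ..., x_N)` is a number field. -/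
instance coordFieldNumberField {ι : Type} [Finite ι] (x : ι → AlgebraicClosure ℚ) :
    NumberField (coordField x) where
  to_charZero := inferInstance
  to_finiteDimensional := by
    have h : Algebra.IsAlgebraic ℚ (AlgebraicClosure ℚ) := AlgebraicClosure.isAlgebraic ℚ
    have : Finite (Set.range x) := Set.finite_range x
    exact IntermediateField.finiteDimensional_adjoin
      fun a _ => (h.isAlgebraic a).isIntegral

/-- The absolute logarithmic Weil height of the point of projective space with homogeneous
coordinates `x`: Mathlib's logarithmic height over the number field `K = ℚ(x_0, ..., x_N)`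
divided by `[K : ℚ]`. -/
noncomputable def absHeight {ι : Type} [Finite ι] (x : ι → AlgebraicClosure ℚ) : ℝ :=
  Height.logHeight (fun i => (⟨x i, IntermediateField.subset_adjoin ℚ _ ⟨i, rfl⟩⟩ : coordField x)) /
    (Module.finrank ℚ (coordField x) : ℝ)

/-- The value at `x` of the rational map `f = [f_0, ..., f_N]`. -/
noncomputable def mapVal {N : ℕ} (f : Fin (N + 1) → MvPolynomial (Fin (N + 1)) (AlgebraicClosure ℚ))
    (x : Fin (N + 1) → AlgebraicClosure ℚ) : Fin (N + 1) → AlgebraicClosure ℚ :=
  fun i => eval x (f i)

/-- `f = [f_0, ..., f_N]` is a dominant rational self-map of `P^N` of degree `d` over the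
algebraic numbers: the `f_i` are homogeneous of degree `d` without common factor, and no nonzero
homogeneous polynomial vanishes on the image. -/
structure IsDominantMap (N d : ℕ)
    (f : Fin (N + 1) → MvPolynomial (Fin (N + 1)) (AlgebraicClosure ℚ)) : Prop where
  homogeneous : ∀ i, (f i).IsHomogeneous d
  coprime : ∀ g, (∀ i, g ∣ f i) → IsUnit g
  dominant : ∀ (G : MvPolynomial (Fin (N + 1)) (AlgebraicClosure ℚ)) (k : ℕ), G ≠ 0 →
    G.IsHomogeneous k → ∃ x, mapVal f x ≠ 0 ∧ eval (mapVal f x) G ≠ 0

/-- `U` is the set of (homogeneous coordinate vectors of) points of a nonempty Zariski open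
subset of `P^N`. -/
def IsOpenNonempty {N : ℕ} (U : Set (Fin (N + 1) → AlgebraicClosure ℚ)) : Prop :=
  U.Nonempty ∧ ∃ S : Set (MvPolynomial (Fin (N + 1)) (AlgebraicClosure ℚ)),
    (∀ g ∈ S, ∃ k, g.IsHomogeneous k) ∧ U = {x | x ≠ 0 ∧ ∃ g ∈ S, eval x g ≠ 0}

/-- The height expansion ratio `μ(f)`: the supremum over the nonempty Zariski open `U` of the
lower limit of `h(f(P)) / h(P)` over the points `P` of `U` at which `f` is defined, as
`h(P) → ∞`. -/
noncomputable def mu {N : ℕ} (f : Fin (N + 1) → MvPolynomial (Fin (N + 1)) (AlgebraicClosure ℚ)) :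
    EReal :=
  ⨆ (U : Set (Fin (N + 1) → AlgebraicClosure ℚ)) (_ : IsOpenNonempty U),
    Filter.liminf (fun x => ((absHeight (mapVal f x) / absHeight x : ℝ) : EReal))
      (Filter.comap absHeight Filter.atTop ⊓ Filter.principal {x | x ∈ U ∧ mapVal f x ≠ 0})

/-- The infimum of `μ(f)` over the dominant rational self-maps `f` of `P^N` of degree `d`. -/
noncomputable def muBar (N d : ℕ) : EReal :=
  ⨅ (f : Fin (N + 1) → MvPolynomial (Fin (N + 1)) (AlgebraicClosure ℚ))
    (_ : IsDominantMap N d f), mu f

end Pool.Agent.H6.HTDefs
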