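import Pool.Agent.H6.HT1
import Pool.Agent.H6.HTDefs

namespace Pool.Agent.H6.HT

open Height NumberField Pool.Agent.H6.HTDefs

theorem nf (L : IntermediateField ℚ (AlgebraicClosure ℚ)) [FiniteDimensional ℚ L] :
    NumberField L where
  to_charZero := inferInstance
  to_finiteDimensional := inferInstance

attribute [local instance] nf

/-- independence of the field -/
theorem logHeight_eq {ι : Type} [Finite ι] (x : ι → AlgebraicClosure ℚ)
    (L : IntermediateField ℚ (AlgebraicClosure ℚ)) [FiniteDimensional ℚ L] (hx : ∀ i, x i ∈ L) :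
    logHeight (fun i => (⟨x i, hx i⟩ : L)) = Module.finrank ℚ L * absHeight x := by
  have hle : coordField x ≤ L := by
    unfold coordField
    rw [IntermediateField.adjoin_le_iff]
    rintro _ ⟨i, rfl⟩
    exact hx i
  letI alg : Algebra (coordField x) L := (IntermediateField.inclusion hle).toRingHom.toAlgebra
  haveI : IsScalarTower ℚ (coordField x) L := by
    apply IsScalarTower.of_algebraMap_eq
    intro q
    exact ((IntermediateField.inclusion hle).commutes q).symm
  haveI : FiniteDimensional (coordField x) L := FiniteDimensional.right ℚ (coordField x) L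
  have h1 := mulHeight_ext (L := L) (fun i =>
    (⟨x i, IntermediateField.subset_adjoin ℚ _ ⟨i, rfl⟩⟩ : coordField x))
  have h2 : logHeight (fun i => (⟨x i, hx i⟩ : L)) = Module.finrank (coordField x) L *
      logHeight (fun i => (⟨x i, IntermediateField.subset_adjoin ℚ _ ⟨i, rfl⟩⟩ : coordField x)) := by
    unfold logHeight
    rw [← Real.log_pow, ← h1]
    rfl
  rw [h2, ← Module.finrank_mul_finrank ℚ (coordField x) L]
  unfold absHeight
  have h3 : (Module.finrank ℚ (coordField x) : ℝ) ≠ 0 := by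
    have := Module.finrank_pos (R := ℚ) (M := coordField x)
    positivity
  push_cast
  field_simp

theorem absHeight_nonneg {ι : Type} [Finite ι] (x : ι → AlgebraicClosure ℚ) : 0 ≤ absHeight x :=
  div_nonneg (logHeight_nonneg _) (Nat.cast_nonneg _)

theorem fms {K : Type*} [Field K] [AdmissibleAbsValues K] {ι : Type*} [Finite ι] {x : ι → K}
    (hx : x ≠ 0) :
    (fun v : AdmissibleAbsValues.nonarchAbsVal (K := K) ↦ ⨆ i, v.val (x i)).HasFiniteMulSupport := by
  have : Nonempty {j // x j ≠ 0} := nonempty_subtype.mpr <| Function.ne_iff.mp hx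
  suffices (fun v : AdmissibleAbsValues.nonarchAbsVal (K := K) ↦
      ⨆ i : {j // x j ≠ 0}, v.val (x i)).HasFiniteMulSupport by
    convert! this with v
    obtain ⟨i, hi⟩ : ∃ j, x j ≠ 0 := Function.ne_iff.mp hx
    have : Nonempty ι := .intro i
    refine le_antisymm (ciSup_le fun j ↦ ?_) (ciSup_le fun ⟨j, hj⟩ ↦ Finite.le_ciSup_of_le j le_rfl)
    rcases eq_or_ne (x j) 0 with h | h
    · rw [h, v.val.map_zero]
      exact Real.iSup_nonneg' ⟨⟨i, hi⟩, v.val.nonneg ..⟩
    · exact Finite.le_ciSup_of_le ⟨j, h⟩ le_rfl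
  fun_prop (disch := grind)

/-- comparison of heights from local comparisons -/
theorem compare {K : Type*} [Field K] [AdmissibleAbsValues K] {ι κ : Type*} [Finite ι] [Finite κ]
    {y : ι → K} {z : κ → K} (hy : y ≠ 0) (hz : z ≠ 0) (p q : ℕ) (C : ℝ) (hC : 0 ≤ C)
    (ha : ∀ v ∈ AdmissibleAbsValues.archAbsVal (K := K), (⨆ i, v (y i)) ^ p ≤ C * (⨆ i, v (z i)) ^ q)
    (hn : ∀ v ∈ AdmissibleAbsValues.nonarchAbsVal (K := K), (⨆ i, v (y i)) ^ p ≤ (⨆ i, v (z i)) ^ q) :
    mulHeight y ^ p ≤ C ^ totalWeight K * mulHeight z ^ q := by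
  have F1 := fms hy
  have F2 := fms hz
  have P1 : ∀ v : AbsoluteValue K ℝ, 0 ≤ ⨆ i, v (y i) := fun v => Real.iSup_nonneg_of_nonnegHomClass v _
  have P2 : ∀ v : AbsoluteValue K ℝ, 0 ≤ ⨆ i, v (z i) := fun v => Real.iSup_nonneg_of_nonnegHomClass v _
  rw [mulHeight_eq hy, mulHeight_eq hz, mul_pow, mul_pow, ← mul_assoc]
  have e1 : ((AdmissibleAbsValues.archAbsVal (K := K)).map fun v ↦ ⨆ i, v (y i)).prod ^ p ≤
      C ^ totalWeight K * ((AdmissibleAbsValues.archAbsVal (K := K)).map fun v ↦ ⨆ i, v (z i)).prod ^ q := by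
    unfold totalWeight
    rw [← Multiset.prod_map_pow, ← Multiset.prod_map_pow, ← Multiset.prod_replicate,
      ← Multiset.map_const', ← Multiset.prod_map_mul]
    exact Multiset.prod_map_le_prod_map₀ _ _ (fun v _ => pow_nonneg (P1 v) _) ha
  have e2 : (∏ᶠ v : AdmissibleAbsValues.nonarchAbsVal (K := K), ⨆ i, v.val (y i)) ^ p ≤
      (∏ᶠ v : AdmissibleAbsValues.nonarchAbsVal (K := K), ⨆ i, v.val (z i)) ^ q := by
    rw [finprod_pow F1, finprod_pow F2]
    exact finprod_le_finprod (F1.pow _) (fun v => pow_nonneg (P1 v.val) _) (F2.pow _)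
      (fun v => hn v.val v.2)
  refine mul_le_mul e1 e2 ?_ ?_
  · exact pow_nonneg (finprod_nonneg fun v : AdmissibleAbsValues.nonarchAbsVal (K := K) => P1 v.val) _
  · exact mul_nonneg (pow_nonneg hC _) (pow_nonneg (Multiset.prod_map_nonneg fun v _ => P2 v) _)

end Pool.Agent.H6.HT
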