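import Pool.Agent.H6.HT2

namespace Pool.Agent.H6.HT

open Height NumberField Pool.Agent.H6.HTDefs MvPolynomial

attribute [local instance] nf

/-- a bound for all archimedean absolute values -/
noncomputable def house (a : AlgebraicClosure ℚ) : ℝ := (((minpoly ℚ a).aroots ℂ).map (‖·‖)).sum

theorem house_nonneg (a : AlgebraicClosure ℚ) : 0 ≤ house a := by
  apply Multiset.sum_nonneg
  intro x hx
  obtain ⟨y, _, rfl⟩ := Multiset.mem_map.1 hx
  exact norm_nonneg y

theorem emb_le_house {L : IntermediateField ℚ (AlgebraicClosure ℚ)} [FiniteDimensional ℚ L]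
    (σ : L →+* ℂ) (a : L) : ‖σ a‖ ≤ house (a : AlgebraicClosure ℚ) := by
  have h1 : minpoly ℚ (a : AlgebraicClosure ℚ) = minpoly ℚ a :=
    minpoly.algebraMap_eq (algebraMap L (AlgebraicClosure ℚ)).injective a
  have h2 : σ a ∈ (minpoly ℚ a).aroots ℂ := by
    rw [Polynomial.mem_aroots]
    refine ⟨minpoly.ne_zero (Algebra.IsIntegral.isIntegral a), ?_⟩
    have := congrArg (RingHom.equivRatAlgHom L ℂ σ) (minpoly.aeval ℚ a)
    rw [← Polynomial.aeval_algHom_apply, map_zero] at this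
    exact this
  unfold house
  rw [h1]
  exact Multiset.single_le_sum (fun x hx => by
    obtain ⟨y, _, rfl⟩ := Multiset.mem_map.1 hx
    exact norm_nonneg y) _ (Multiset.mem_map.2 ⟨σ a, h2, rfl⟩)

theorem arch_emb' {K : Type*} [Field K] [NumberField K] {v : AbsoluteValue K ℝ}
    (hv : v ∈ AdmissibleAbsValues.archAbsVal (K := K)) : ∃ φ : K →+* ℂ, ∀ a, v a = ‖φ a‖ := by
  have h : IsInfinitePlace v := mem_multisetInfinitePlace.1 hv
  obtain ⟨φ, hφ⟩ := h
  exact ⟨φ, fun a => by rw [← hφ]; rfl⟩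

theorem arch_le {L : IntermediateField ℚ (AlgebraicClosure ℚ)} [FiniteDimensional ℚ L]
    {v : AbsoluteValue L ℝ} (hv : v ∈ AdmissibleAbsValues.archAbsVal (K := L)) (a : L) :
    v a ≤ house (a : AlgebraicClosure ℚ) := by
  obtain ⟨φ, hφ⟩ := arch_emb' hv
  rw [hφ]
  exact emb_le_house φ a

theorem arch_int {K : Type*} [Field K] [NumberField K] {v : AbsoluteValue K ℝ}
    (hv : v ∈ AdmissibleAbsValues.archAbsVal (K := K)) (n : ℤ) : v (n : K) = |(n : ℝ)| := by
  obtain ⟨φ, hφ⟩ := arch_emb' hv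
  rw [hφ, map_intCast, Complex.norm_intCast]

theorem nonarch_le {K : Type*} [Field K] [NumberField K] {v : AbsoluteValue K ℝ}
    (hv : v ∈ AdmissibleAbsValues.nonarchAbsVal (K := K)) (a : K) (ha : IsIntegral ℤ a) :
    v a ≤ 1 := by
  have hna := AdmissibleAbsValues.isNonarchimedean v hv
  by_contra hcon
  rw [not_le] at hcon
  obtain ⟨p, hp, hpa⟩ := ha
  have hint : ∀ n : ℤ, v (n : K) ≤ 1 := by
    intro n
    exact hna.apply_intCast_le_one
  have hn : 0 < p.natDegree := by
    rw [Nat.pos_iff_ne_zero]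
    intro h0
    rw [hp.natDegree_eq_zero.1 h0] at hpa
    simp at hpa
  have h1 : a ^ p.natDegree = - ∑ i ∈ Finset.range p.natDegree, (p.coeff i : K) * a ^ i := by
    rw [Polynomial.eval₂_eq_sum_range, Finset.sum_range_succ, hp.coeff_natDegree] at hpa
    simp only [map_one, one_mul] at hpa
    rw [eq_neg_iff_add_eq_zero, add_comm]
    simpa using hpa
  have h2 := congrArg v h1
  rw [v.map_neg, v.map_pow] at h2
  obtain ⟨i, hi, hi2⟩ := hna.finset_image_add_of_nonempty (fun i => (p.coeff i : K) * a ^ i)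
    (Finset.nonempty_range_iff.2 hn.ne')
  rw [v.map_mul, v.map_pow] at hi2
  have h3 : v a ^ i ≤ v a ^ (p.natDegree - 1) :=
    pow_le_pow_right₀ hcon.le (by have := Finset.mem_range.1 hi; omega)
  have h4 : v (p.coeff i : K) * v a ^ i ≤ 1 * v a ^ (p.natDegree - 1) :=
    mul_le_mul (hint _) h3 (by positivity) zero_le_one
  have h5 : v a ^ (p.natDegree - 1) < v a ^ p.natDegree :=
    pow_lt_pow_right₀ hcon (by omega)
  linarith

end Pool.Agent.H6.HT
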