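import Pool.Agent.H6.HT3

namespace Pool.Agent.H6.HT

open Height NumberField Pool.Agent.H6.HTDefs MvPolynomial

attribute [local instance] nf

theorem exists_field (S : Set (AlgebraicClosure ℚ)) (hS : S.Finite) :
    ∃ L : IntermediateField ℚ (AlgebraicClosure ℚ), FiniteDimensional ℚ L ∧ S ⊆ L := by
  have h : Algebra.IsAlgebraic ℚ (AlgebraicClosure ℚ) := AlgebraicClosure.isAlgebraic ℚ
  have : Finite S := hS
  refine ⟨IntermediateField.adjoin ℚ S, ?_, IntermediateField.subset_adjoin ℚ S⟩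
  exact IntermediateField.finiteDimensional_adjoin fun a _ => (h.isAlgebraic a).isIntegral

/-- root bound, archimedean form -/
theorem root_arch {K : Type*} [Field K] (v : AbsoluteValue K ℝ) {m : ℕ} (a : ℕ → K) (u : K)
    (h : ∑ k ∈ Finset.range (m + 1), a k * u ^ k = 0) (hm : a m ≠ 0) (R : ℝ)
    (hR : ∀ k ≤ m, v (a k) ≤ R) : v (a m * u) ≤ m * R := by
  have hR0 : 0 ≤ R := (v.nonneg _).trans (hR m le_rfl)
  rcases Nat.eq_zero_or_pos m with rfl | hmpos
  · simp at h
    exact absurd h hm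
  by_contra hcon
  rw [not_le] at hcon
  set z := a m * u with hz
  have hm1 : (1 : ℝ) ≤ m := by exact_mod_cast hmpos
  have hRz : R ≤ v z := by nlinarith
  have hzpos : 0 < v z := lt_of_le_of_lt (by positivity) hcon
  have e1 : z ^ m = - ∑ k ∈ Finset.range m, a k * a m ^ (m - 1 - k) * z ^ k := by
    rw [Finset.sum_range_succ] at h
    have h2 : a m ^ (m - 1) * (∑ k ∈ Finset.range m, a k * u ^ k + a m * u ^ m) = 0 := by
      rw [h, mul_zero]
    rw [mul_add, Finset.mul_sum] at h2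
    have h3 : a m ^ (m - 1) * (a m * u ^ m) = z ^ m := by
      rw [hz, mul_pow, ← mul_assoc, ← pow_succ, Nat.sub_add_cancel hmpos]
    rw [h3] at h2
    rw [eq_neg_iff_add_eq_zero, add_comm, ← h2]
    congr 1
    apply Finset.sum_congr rfl
    intro k hk
    have hk := Finset.mem_range.1 hk
    rw [hz, mul_pow]
    have : a m ^ (m - 1) = a m ^ (m - 1 - k) * a m ^ k := by
      rw [← pow_add]; congr 1; omega
    rw [this]; ring
  have e2 : v z ^ m ≤ ∑ k ∈ Finset.range m, R * v z ^ (m - 1) := by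
    rw [← v.map_pow, e1, v.map_neg]
    refine (v.sum_le _ _).trans (Finset.sum_le_sum fun k hk => ?_)
    have hk := Finset.mem_range.1 hk
    rw [v.map_mul, v.map_mul, v.map_pow, v.map_pow, mul_assoc]
    refine mul_le_mul (hR k hk.le) ?_ (by positivity) hR0
    calc v (a m) ^ (m - 1 - k) * v z ^ k ≤ v z ^ (m - 1 - k) * v z ^ k := by
          gcongr
          exact (hR m le_rfl).trans hRz
      _ = v z ^ (m - 1) := by rw [← pow_add]; congr 1; omega
  rw [Finset.sum_const, Finset.card_range, nsmul_eq_mul] at e2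
  have e3 : v z ^ m = v z * v z ^ (m - 1) := by
    rw [← pow_succ', Nat.sub_add_cancel hmpos]
  rw [e3, ← mul_assoc] at e2
  have := le_of_mul_le_mul_right e2 (pow_pos hzpos _)
  linarith

/-- root bound, nonarchimedean form -/
theorem root_nonarch {K : Type*} [Field K] (v : AbsoluteValue K ℝ) (hv : IsNonarchimedean v)
    {m : ℕ} (a : ℕ → K) (u : K)
    (h : ∑ k ∈ Finset.range (m + 1), a k * u ^ k = 0) (hm : a m ≠ 0) (R : ℝ)
    (hR : ∀ k ≤ m, v (a k) ≤ R) : v (a m * u) ≤ R := by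
  have hR0 : 0 ≤ R := (v.nonneg _).trans (hR m le_rfl)
  rcases Nat.eq_zero_or_pos m with rfl | hmpos
  · simp at h
    exact absurd h hm
  by_contra hcon
  rw [not_le] at hcon
  set z := a m * u with hz
  have hzpos : 0 < v z := lt_of_le_of_lt hR0 hcon
  have e1 : z ^ m = - ∑ k ∈ Finset.range m, a k * a m ^ (m - 1 - k) * z ^ k := by
    rw [Finset.sum_range_succ] at h
    have h2 : a m ^ (m - 1) * (∑ k ∈ Finset.range m, a k * u ^ k + a m * u ^ m) = 0 := by
      rw [h, mul_zero]
    rw [mul_add, Finset.mul_sum] at h2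
    have h3 : a m ^ (m - 1) * (a m * u ^ m) = z ^ m := by
      rw [hz, mul_pow, ← mul_assoc, ← pow_succ, Nat.sub_add_cancel hmpos]
    rw [h3] at h2
    rw [eq_neg_iff_add_eq_zero, add_comm, ← h2]
    congr 1
    apply Finset.sum_congr rfl
    intro k hk
    have hk := Finset.mem_range.1 hk
    rw [hz, mul_pow]
    have : a m ^ (m - 1) = a m ^ (m - 1 - k) * a m ^ k := by
      rw [← pow_add]; congr 1; omega
    rw [this]; ring
  obtain ⟨k, hk, hk2⟩ := hv.finset_image_add_of_nonempty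
    (fun k => a k * a m ^ (m - 1 - k) * z ^ k) (Finset.nonempty_range_iff.2 hmpos.ne')
  have hk := Finset.mem_range.1 hk
  have e2 : v z ^ m ≤ R * v z ^ (m - 1) := by
    rw [← v.map_pow, e1, v.map_neg]
    refine hk2.trans ?_
    rw [v.map_mul, v.map_mul, v.map_pow, v.map_pow, mul_assoc]
    refine mul_le_mul (hR k hk.le) ?_ (by positivity) hR0
    calc v (a m) ^ (m - 1 - k) * v z ^ k ≤ v z ^ (m - 1 - k) * v z ^ k := by
          gcongr
          exact (hR m le_rfl).trans hcon.le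
      _ = v z ^ (m - 1) := by rw [← pow_add]; congr 1; omega
  have e3 : v z ^ m = v z * v z ^ (m - 1) := by
    rw [← pow_succ', Nat.sub_add_cancel hmpos]
  rw [e3] at e2
  have := le_of_mul_le_mul_right e2 (pow_pos hzpos _)
  linarith

/-- sum of the houses of the coefficients -/
noncomputable def polyHouse {n : ℕ} (c : MvPolynomial (Fin n) (AlgebraicClosure ℚ)) : ℝ :=
  ∑ s ∈ c.support, house (coeff s c)

theorem polyHouse_nonneg {n : ℕ} (c : MvPolynomial (Fin n) (AlgebraicClosure ℚ)) :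
    0 ≤ polyHouse c := Finset.sum_nonneg fun _ _ => house_nonneg _

theorem eval_arch {L : IntermediateField ℚ (AlgebraicClosure ℚ)} [FiniteDimensional ℚ L]
    {n : ℕ} (c : MvPolynomial (Fin n) L) {e : ℕ} (hc : c.IsHomogeneous e)
    {v : AbsoluteValue L ℝ} (hv : v ∈ AdmissibleAbsValues.archAbsVal (K := L)) (Y : Fin n → L) :
    v (c.eval Y) ≤ polyHouse (map (algebraMap L (AlgebraicClosure ℚ)) c) * (⨆ i, v (Y i)) ^ e := by
  refine (v.eval_mvPolynomial_le hc Y).trans ?_
  gcongr
  · exact pow_nonneg (Real.iSup_nonneg_of_nonnegHomClass v _) _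
  unfold polyHouse
  rw [support_map_of_injective _ (algebraMap L (AlgebraicClosure ℚ)).injective]
  refine Finset.sum_le_sum fun s _ => ?_
  rw [coeff_map]
  exact arch_le hv _

theorem eval_nonarch {L : IntermediateField ℚ (AlgebraicClosure ℚ)} [FiniteDimensional ℚ L]
    {n : ℕ} (c : MvPolynomial (Fin n) L) {e : ℕ} (hc : c.IsHomogeneous e)
    (hint : ∀ s, IsIntegral ℤ (coeff s c))
    {v : AbsoluteValue L ℝ} (hv : v ∈ AdmissibleAbsValues.nonarchAbsVal (K := L)) (Y : Fin n → L) :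
    v (c.eval Y) ≤ (⨆ i, v (Y i)) ^ e := by
  have hna := AdmissibleAbsValues.isNonarchimedean v hv
  refine (hna.eval_mvPolynomial_le hc Y).trans ?_
  have h1 : (⨆ s : c.support, v (coeff s.val c)) ≤ 1 :=
    Real.iSup_le (fun s => nonarch_le hv _ (hint _)) zero_le_one
  have h2 : 0 ≤ (⨆ i, v (Y i)) ^ e := pow_nonneg (Real.iSup_nonneg_of_nonnegHomClass v _) _
  calc _ ≤ 1 * (⨆ i, v (Y i)) ^ e := mul_le_mul_of_nonneg_right h1 h2
    _ = _ := one_mul _

end Pool.Agent.H6.HT
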