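import Pool.Agent.H6.HT4

namespace Pool.Agent.H6.HT

open Height NumberField Pool.Agent.H6.HTDefs MvPolynomial

attribute [local instance] nf

theorem finrank_pos' (L : IntermediateField ℚ (AlgebraicClosure ℚ)) [FiniteDimensional ℚ L] :
    (0 : ℝ) < Module.finrank ℚ L := by
  have := Module.finrank_pos (R := ℚ) (M := L)
  exact_mod_cast this

/-- the height of `u = l / x0` from a relation -/
theorem rel_height {n m e : ℕ} (c : ℕ → MvPolynomial (Fin n) (AlgebraicClosure ℚ))
    (hc : ∀ k, (c k).IsHomogeneous e) (hint : ∀ k s, IsIntegral ℤ (coeff s (c k))) :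
    ∃ C : ℝ, ∀ (Y : Fin n → AlgebraicClosure ℚ) (x0 l : AlgebraicClosure ℚ), Y ≠ 0 → x0 ≠ 0 →
      eval Y (c m) ≠ 0 → (∑ k ∈ Finset.range (m + 1), eval Y (c k) * (l / x0) ^ k = 0) →
      absHeight ![x0, l] ≤ e * absHeight Y + C := by
  set B : ℝ := ∑ k ∈ Finset.range (m + 1), polyHouse (c k) + 1 with hB
  have hB1 : 1 ≤ B := by
    have : 0 ≤ ∑ k ∈ Finset.range (m + 1), polyHouse (c k) :=
      Finset.sum_nonneg fun _ _ => polyHouse_nonneg _
    linarith
  have hBk : ∀ k ≤ m, polyHouse (c k) ≤ B := by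
    intro k hk
    have := Finset.single_le_sum (f := fun k => polyHouse (c k)) (s := Finset.range (m + 1))
      (fun _ _ => polyHouse_nonneg _) (Finset.mem_range.2 (Nat.lt_succ_of_le hk))
    linarith
  set C : ℝ := (m + 1) * B with hCdef
  have hC1 : 1 ≤ C := by
    have : (0 : ℝ) ≤ m := Nat.cast_nonneg _
    nlinarith
  refine ⟨Real.log C, ?_⟩
  intro Y x0 l hY hx0 hw hrel
  have hsub : ∀ k, ((c k).coeffs : Set (AlgebraicClosure ℚ)).Finite := fun k =>
    (c k).coeffs.finite_toSet
  obtain ⟨L, hL, hSL⟩ := exists_field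
    (Set.range Y ∪ {x0, l} ∪ ⋃ k ∈ Finset.range (m + 1), ((c k).coeffs : Set (AlgebraicClosure ℚ)))
    (((Set.finite_range Y).union (Set.toFinite _)).union
      ((Finset.range (m + 1)).finite_toSet.biUnion fun k _ => hsub k))
  haveI := hL
  have hYL : ∀ i, Y i ∈ L := fun i => hSL (Or.inl (Or.inl ⟨i, rfl⟩))
  have hx0L : x0 ∈ L := hSL (Or.inl (Or.inr (Or.inl rfl)))
  have hlL : l ∈ L := hSL (Or.inl (Or.inr (Or.inr rfl)))
  have hcL : ∀ k ≤ m, ∃ c' : MvPolynomial (Fin n) L, map (algebraMap L (AlgebraicClosure ℚ)) c' = c k := by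
    intro k hk
    have : c k ∈ Set.range (map (σ := Fin n) (algebraMap L (AlgebraicClosure ℚ))) := by
      rw [mem_range_map_iff_coeffs_subset]
      intro a ha
      have : a ∈ L := hSL (Or.inr (Set.mem_biUnion (Finset.mem_range.2 (Nat.lt_succ_of_le hk)) ha))
      exact ⟨⟨a, this⟩, rfl⟩
    exact this
  choose! c' hc' using hcL
  set Y' : Fin n → L := fun i => ⟨Y i, hYL i⟩ with hY'
  have inj := (algebraMap L (AlgebraicClosure ℚ)).injective
  have hY'0 : Y' ≠ 0 := by
    intro h
    apply hY
    funext i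
    exact congrArg Subtype.val (congrFun h i)
  have hc'hom : ∀ k ≤ m, (c' k).IsHomogeneous e := by
    intro k hk s hs
    have h1 : coeff s (c k) ≠ 0 := by
      rw [← hc' k hk, coeff_map]
      intro h0
      exact hs (inj (by rw [h0]; simp))
    exact hc k h1
  have hc'int : ∀ k ≤ m, ∀ s, IsIntegral ℤ (coeff s (c' k)) := by
    intro k hk s
    have h1 := hint k s
    rw [← hc' k hk, coeff_map] at h1
    exact (isIntegral_algebraMap_iff inj).1 h1
  have heval : ∀ k ≤ m, ((eval Y' (c' k) : L) : AlgebraicClosure ℚ) = eval Y (c k) := by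
    intro k hk
    rw [← hc' k hk, eval_map]
    have : Y = fun i => algebraMap L (AlgebraicClosure ℚ) (Y' i) := rfl
    rw [this]
    change algebraMap L (AlgebraicClosure ℚ) (eval Y' (c' k)) = _
    rw [← coe_eval₂Hom, ← eval₂_id, ← coe_eval₂Hom]
    rw [map_eval₂Hom]
    rfl
  set x0' : L := ⟨x0, hx0L⟩ with hx0'
  set l' : L := ⟨l, hlL⟩ with hl'
  have hx0'0 : x0' ≠ 0 := fun h => hx0 (congrArg Subtype.val h)
  set a : ℕ → L := fun k => eval Y' (c' k) with ha
  have ham : a m ≠ 0 := by
    intro h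
    apply hw
    rw [← heval m le_rfl]
    exact congrArg Subtype.val h
  have hrel' : ∑ k ∈ Finset.range (m + 1), a k * (l' / x0') ^ k = 0 := by
    apply inj
    rw [map_sum, map_zero, ← hrel]
    apply Finset.sum_congr rfl
    intro k hk
    rw [map_mul, map_pow, map_div₀]
    congr 1
    exact heval k (Nat.lt_succ_iff.1 (Finset.mem_range.1 hk))
  set z : L := a m * (l' / x0') with hz
  have hyne : (![a m, z] : Fin 2 → L) ≠ 0 := by
    intro h
    exact ham (congrFun h 0)
  have hcmp := compare (K := L) (y := ![a m, z]) (z := Y') hyne hY'0 1 e C (by linarith)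
    (by
      intro v hv
      rw [pow_one]
      have hS : 0 ≤ (⨆ i, v (Y' i)) ^ e := pow_nonneg (Real.iSup_nonneg_of_nonnegHomClass v _) _
      have hR : ∀ k ≤ m, v (a k) ≤ B * (⨆ i, v (Y' i)) ^ e := by
        intro k hk
        refine (eval_arch (c' k) (hc'hom k hk) hv Y').trans ?_
        rw [hc' k hk]
        exact mul_le_mul_of_nonneg_right (hBk k hk) hS
      have h1 := root_arch v a (l' / x0') hrel' ham _ hR
      have h2 := hR m le_rfl
      have hm0 : (0 : ℝ) ≤ m := Nat.cast_nonneg _
      refine Real.iSup_le ?_ (by positivity)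
      intro i
      fin_cases i
      · change v (a m) ≤ _
        rw [hCdef]
        nlinarith [mul_nonneg (by linarith : (0:ℝ) ≤ B) hS, mul_nonneg hm0 (mul_nonneg (by linarith : (0:ℝ) ≤ B) hS)]
      · change v z ≤ _
        rw [hCdef]
        nlinarith [mul_nonneg (by linarith : (0:ℝ) ≤ B) hS])
    (by
      intro v hv
      rw [pow_one]
      have hna := AdmissibleAbsValues.isNonarchimedean v hv
      have hS : 0 ≤ (⨆ i, v (Y' i)) ^ e := pow_nonneg (Real.iSup_nonneg_of_nonnegHomClass v _) _
      have hR : ∀ k ≤ m, v (a k) ≤ (⨆ i, v (Y' i)) ^ e := by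
        intro k hk
        exact eval_nonarch (c' k) (hc'hom k hk) (hc'int k hk) hv Y'
      have h1 := root_nonarch v hna a (l' / x0') hrel' ham _ hR
      refine Real.iSup_le ?_ hS
      intro i
      fin_cases i
      · exact hR m le_rfl
      · exact h1)
  have hscale : mulHeight (![a m, z] : Fin 2 → L) = mulHeight (![x0', l'] : Fin 2 → L) := by
    have e1 : (![a m, z] : Fin 2 → L) = (a m / x0') • (![x0', l'] : Fin 2 → L) := by
      funext i
      fin_cases i
      · change a m = a m / x0' * x0'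
        field_simp
      · change z = a m / x0' * l'
        rw [hz]; field_simp
    rw [e1, mulHeight_smul_eq_mulHeight _ (div_ne_zero ham hx0'0)]
  rw [pow_one, hscale, NumberField.totalWeight_eq_finrank] at hcmp
  have hlog := Real.log_le_log (mulHeight_pos _) hcmp
  rw [Real.log_mul (by positivity) (pow_ne_zero _ (mulHeight_ne_zero _)), Real.log_pow,
    Real.log_pow] at hlog
  have e2 : Real.log (mulHeight (![x0', l'] : Fin 2 → L)) =
      Module.finrank ℚ L * absHeight ![x0, l] := by
    rw [← logHeight_eq ![x0, l] L (by intro i; fin_cases i; exacts [hx0L, hlL])]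
    unfold logHeight
    congr 2
    funext i
    fin_cases i <;> rfl
  have e3 : Real.log (mulHeight Y') = Module.finrank ℚ L * absHeight Y := by
    rw [← logHeight_eq Y L hYL]; rfl
  rw [e2, e3] at hlog
  have hpos := finrank_pos' L
  have h5 : (Module.finrank ℚ L : ℝ) * absHeight ![x0, l] ≤
      Module.finrank ℚ L * (e * absHeight Y + Real.log C) := by linarith
  exact le_of_mul_le_mul_left h5 hpos

end Pool.Agent.H6.HT
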