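import Pool.Agent.H6.HT5

namespace Pool.Agent.H6.HT

open Height NumberField Pool.Agent.H6.HTDefs MvPolynomial

attribute [local instance] nf

theorem comb_prod {N M : ℕ} (hNM : N ≤ M) (t : Fin M → ℝ) (ht : ∀ j, 0 ≤ t j) (D : ℝ) (hD : 0 ≤ D)
    (H : ∀ s : Finset (Fin M), s.card = N + 1 → ∃ j ∈ s, D ≤ t j) :
    D ^ (M - N) ≤ ∏ j, max 1 (t j) := by
  classical
  have h1 : ∀ j, 1 ≤ max 1 (t j) := fun j => le_max_left _ _
  have hone : 1 ≤ ∏ j, max 1 (t j) := by
    exact Finset.prod_induction _ (fun x : ℝ => 1 ≤ x)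
      (fun a b ha hb => one_le_mul_of_one_le_of_one_le ha hb) le_rfl (fun j _ => h1 j)
  rcases le_or_gt D 1 with hD1 | hD1
  · exact (pow_le_one₀ hD hD1).trans hone
  · set G := Finset.univ.filter (fun j => D ≤ t j) with hG
    have hGc : (Gᶜ).card ≤ N := by
      by_contra hcon
      rw [not_le] at hcon
      obtain ⟨s, hs, hs2⟩ := Finset.exists_subset_card_eq (Nat.succ_le_of_lt hcon)
      obtain ⟨j, hj, hj2⟩ := H s hs2
      have := hs hj
      rw [Finset.mem_compl, hG, Finset.mem_filter] at this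
      exact this ⟨Finset.mem_univ _, hj2⟩
    have hGcard : M - N ≤ G.card := by
      have := Finset.card_compl_add_card G
      rw [Fintype.card_fin] at this
      omega
    calc D ^ (M - N) ≤ D ^ G.card := pow_le_pow_right₀ hD1.le hGcard
      _ = ∏ j ∈ G, D := by rw [Finset.prod_const]
      _ ≤ ∏ j ∈ G, max 1 (t j) := by
          apply Finset.prod_le_prod (fun _ _ => hD)
          intro j hj
          exact (Finset.mem_filter.1 hj).2.trans (le_max_right _ _)
      _ ≤ ∏ j, max 1 (t j) := by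
          rw [← Finset.prod_mul_prod_compl G]
          refine le_mul_of_one_le_right (Finset.prod_nonneg fun j _ => zero_le_one.trans (h1 j)) ?_
          exact Finset.prod_induction _ (fun x : ℝ => 1 ≤ x)
            (fun a b ha hb => one_le_mul_of_one_le_of_one_le ha hb) le_rfl (fun j _ => h1 j)

/-- the linear forms -/
def lin {K : Type*} [Field K] {N : ℕ} (j : ℕ) (x : Fin (N + 1) → K) : K :=
  ∑ i : Fin (N + 1), ((j : K) + 1) ^ (i : ℕ) * x i

def VJ {N M : ℕ} (J : Fin (N + 1) → Fin M) : Matrix (Fin (N + 1)) (Fin (N + 1)) ℤ :=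
  Matrix.vandermonde (fun k => ((J k : ℕ) : ℤ) + 1)

theorem VJ_det {N M : ℕ} {J : Fin (N + 1) → Fin M} (hJ : Function.Injective J) :
    (VJ J).det ≠ 0 := by
  unfold VJ
  rw [Matrix.det_vandermonde_ne_zero_iff]
  intro a b h
  simp only at h
  have : ((J a : ℕ) : ℤ) = ((J b : ℕ) : ℤ) := by linarith
  exact hJ (Fin.ext (by exact_mod_cast this))

theorem VJ_id {K : Type*} [Field K] {N M : ℕ} (J : Fin (N + 1) → Fin M) (x : Fin (N + 1) → K)
    (i : Fin (N + 1)) :
    ((VJ J).det : K) * x i = ∑ k, (((VJ J).adjugate i k : ℤ) : K) * lin (J k : ℕ) x := by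
  have h1 := congrArg (fun A : Matrix (Fin (N+1)) (Fin (N+1)) ℤ =>
    (A.map (Int.castRingHom K)).mulVec x) (Matrix.adjugate_mul (VJ J))
  simp only [Matrix.map_mul] at h1
  rw [← Matrix.mulVec_mulVec] at h1
  have h2 := congrFun h1 i
  have h3 : ((VJ J).map (Int.castRingHom K)).mulVec x = fun k => lin (J k : ℕ) x := by
    funext k
    unfold lin VJ
    rw [Matrix.mulVec, dotProduct]
    apply Finset.sum_congr rfl
    intro i _
    rw [Matrix.map_apply, Matrix.vandermonde_apply]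
    simp
  rw [h3] at h2
  rw [Matrix.mulVec, dotProduct] at h2
  rw [show (∑ k, (((VJ J).adjugate i k : ℤ) : K) * lin (J k : ℕ) x) =
    ∑ k, ((VJ J).adjugate.map (Int.castRingHom K)) i k * lin (J k : ℕ) x from rfl, h2,
    Matrix.mulVec, dotProduct, Finset.sum_eq_single i]
  · rw [Matrix.map_apply, Matrix.smul_apply, Matrix.one_apply_eq]; simp
  · intro b _ hb
    rw [Matrix.map_apply, Matrix.smul_apply, Matrix.one_apply_ne (Ne.symm hb)]; simp
  · intro h; exact absurd (Finset.mem_univ _) h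

/-- the product of all nonzero minors -/
noncomputable def Dl (N M : ℕ) : ℤ := by
  classical
  exact ∏ J ∈ Finset.univ.filter (fun J : Fin (N + 1) → Fin M => Function.Injective J), (VJ J).det

theorem Dl_ne (N M : ℕ) : Dl N M ≠ 0 := by
  classical
  unfold Dl
  rw [Finset.prod_ne_zero_iff]
  intro J hJ
  exact VJ_det (Finset.mem_filter.1 hJ).2

theorem Dl_dvd {N M : ℕ} {J : Fin (N + 1) → Fin M} (hJ : Function.Injective J) :
    (VJ J).det ∣ Dl N M := by
  classical
  unfold Dl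
  exact Finset.dvd_prod_of_mem (fun J : Fin (N + 1) → Fin M => (VJ J).det)
    (Finset.mem_filter.2 ⟨Finset.mem_univ _, hJ⟩)

noncomputable def Adj (N M : ℕ) : ℝ :=
  ∑ J : Fin (N + 1) → Fin M, ∑ i, ∑ k, |((VJ J).adjugate i k : ℝ)| + 1

theorem Adj_pos (N M : ℕ) : 1 ≤ Adj N M := by
  unfold Adj
  have : 0 ≤ ∑ J : Fin (N + 1) → Fin M, ∑ i, ∑ k, |((VJ J).adjugate i k : ℝ)| := by positivity
  linarith

theorem Adj_lt {N M : ℕ} (J : Fin (N + 1) → Fin M) (i : Fin (N + 1)) :
    ∑ k, |((VJ J).adjugate i k : ℝ)| < Adj N M := by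
  unfold Adj
  have h1 := Finset.single_le_sum (f := fun J : Fin (N + 1) → Fin M =>
    ∑ i, ∑ k, |((VJ J).adjugate i k : ℝ)|) (s := Finset.univ) (fun _ _ => by positivity)
    (Finset.mem_univ J)
  have h2 := Finset.single_le_sum (f := fun i => ∑ k, |((VJ J).adjugate i k : ℝ)|)
    (s := Finset.univ) (fun _ _ => by positivity) (Finset.mem_univ i)
  exact lt_of_le_of_lt (h2.trans h1) (lt_add_one _)

theorem exists_inj {N M : ℕ} (s : Finset (Fin M)) (hs : s.card = N + 1) :
    ∃ J : Fin (N + 1) → Fin M, Function.Injective J ∧ ∀ k, J k ∈ s :=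
  ⟨s.orderEmbOfFin hs, (s.orderEmbOfFin hs).injective, fun k => s.orderEmbOfFin_mem hs k⟩

theorem exists_max {K : Type*} [Field K] (v : AbsoluteValue K ℝ) {N : ℕ} (x : Fin (N + 1) → K) :
    ∃ i, v (x i) = ⨆ i, v (x i) := exists_eq_ciSup_of_finite

theorem loc_arch {K : Type*} [Field K] [NumberField K] {v : AbsoluteValue K ℝ}
    (hv : v ∈ AdmissibleAbsValues.archAbsVal (K := K)) {N M : ℕ} (x : Fin (N + 1) → K)
    (hx : 0 < ⨆ i, v (x i))
    (s : Finset (Fin M)) (hs : s.card = N + 1) :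
    ∃ j ∈ s, (⨆ i, v (x i)) / Adj N M ≤ v (lin (j : ℕ) x) := by
  obtain ⟨J, hJ, hJs⟩ := exists_inj s hs
  by_contra hcon
  push Not at hcon
  obtain ⟨i, hi⟩ := exists_max v x
  set X := ⨆ i, v (x i) with hX
  have hA := Adj_pos N M
  have h1 : v (((VJ J).det : K) * x i) < X := by
    rw [VJ_id J x i]
    calc v (∑ k, (((VJ J).adjugate i k : ℤ) : K) * lin (J k : ℕ) x) ≤
        ∑ k, v ((((VJ J).adjugate i k : ℤ) : K) * lin (J k : ℕ) x) := v.sum_le _ _
      _ ≤ ∑ k, |((VJ J).adjugate i k : ℝ)| * (X / Adj N M) := by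
          apply Finset.sum_le_sum
          intro k _
          rw [v.map_mul, arch_int hv]
          exact mul_le_mul_of_nonneg_left (hcon _ (hJs k)).le (abs_nonneg _)
      _ = (∑ k, |((VJ J).adjugate i k : ℝ)|) * (X / Adj N M) := by rw [Finset.sum_mul]
      _ < Adj N M * (X / Adj N M) := by
          apply mul_lt_mul_of_pos_right (Adj_lt J i)
          positivity
      _ = X := by field_simp
  rw [v.map_mul, arch_int hv, hi] at h1
  have h2 : (1 : ℝ) ≤ |((VJ J).det : ℝ)| := by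
    have := Int.one_le_abs (VJ_det hJ)
    exact_mod_cast this
  nlinarith

theorem loc_nonarch {K : Type*} [Field K] [NumberField K] {v : AbsoluteValue K ℝ}
    (hv : v ∈ AdmissibleAbsValues.nonarchAbsVal (K := K)) {N M : ℕ} (x : Fin (N + 1) → K)
    (hx : 0 < ⨆ i, v (x i))
    (s : Finset (Fin M)) (hs : s.card = N + 1) :
    ∃ j ∈ s, v ((Dl N M : ℤ) : K) * (⨆ i, v (x i)) ≤ v (lin (j : ℕ) x) := by
  obtain ⟨J, hJ, hJs⟩ := exists_inj s hs
  have hna := AdmissibleAbsValues.isNonarchimedean v hv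
  have hint : ∀ n : ℤ, v (n : K) ≤ 1 := fun n => hna.apply_intCast_le_one
  obtain ⟨i, hi⟩ := exists_max v x
  set X := ⨆ i, v (x i) with hX
  obtain ⟨k, _, hk⟩ := hna.finset_image_add_of_nonempty
    (fun k => (((VJ J).adjugate i k : ℤ) : K) * lin (J k : ℕ) x) Finset.univ_nonempty
  rw [← VJ_id J x i, v.map_mul, v.map_mul, hi] at hk
  refine ⟨J k, hJs k, ?_⟩
  obtain ⟨c, hc⟩ := Dl_dvd (N := N) (M := M) hJ
  have h1 : v ((Dl N M : ℤ) : K) ≤ v ((VJ J).det : K) := by
    rw [hc, Int.cast_mul, v.map_mul]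
    exact mul_le_of_le_one_right (v.nonneg _) (hint c)
  calc v ((Dl N M : ℤ) : K) * X ≤ v ((VJ J).det : K) * X := mul_le_mul_of_nonneg_right h1 hx.le
    _ ≤ v (((VJ J).adjugate i k : ℤ) : K) * v (lin (J k : ℕ) x) := hk
    _ ≤ 1 * v (lin (J k : ℕ) x) := mul_le_mul_of_nonneg_right (hint _) (v.nonneg _)
    _ = _ := one_mul _

end Pool.Agent.H6.HT
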