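import Pool.Agent.H6.HT6

namespace Pool.Agent.H6.HT

open Height NumberField Pool.Agent.H6.HTDefs MvPolynomial

attribute [local instance] nf

theorem lin_smul {K : Type*} [Field K] {N : ℕ} (j : ℕ) (a : K) (x : Fin (N + 1) → K) :
    lin j (a • x) = a * lin j x := by
  unfold lin
  rw [Finset.mul_sum]
  apply Finset.sum_congr rfl
  intro i _
  rw [Pi.smul_apply, smul_eq_mul]; ring

/-- averaged height inequality over one number field, first coordinate one -/
theorem avg_field {K : Type*} [Field K] [NumberField K] {N M : ℕ} (hNM : N ≤ M)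
    (x : Fin (N + 1) → K) (hx0 : x 0 = 1) :
    mulHeight x ^ (M - N) ≤ ((|(Dl N M : ℝ)| * Adj N M) ^ (M - N)) ^ totalWeight K *
      ∏ j : Fin M, mulHeight (![1, lin (j : ℕ) x] : Fin 2 → K) := by
  have hx : x ≠ 0 := by
    intro h; rw [h] at hx0; exact zero_ne_one hx0
  have hDl : ((Dl N M : ℤ) : K) ≠ 0 := by exact_mod_cast Dl_ne N M
  have hy : ((Dl N M : ℤ) : K) • x ≠ 0 := smul_ne_zero hDl hx
  have hvec : ∀ j : Fin M, (![1, lin (j : ℕ) x] : Fin 2 → K) ≠ 0 := by
    intro j h
    exact one_ne_zero (congrFun h 0)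
  rw [← mulHeight_fun_prod_eq hvec, ← mulHeight_smul_eq_mulHeight x hDl]
  set z : (Fin M → Fin 2) → K := fun I => ∏ j : Fin M, (![1, lin (j : ℕ) x] : Fin 2 → K) (I j) with hz
  have hz0 : z ≠ 0 := by
    intro h
    have := congrFun h (fun _ => 0)
    rw [hz] at this
    simp at this
  have hX : ∀ v : AbsoluteValue K ℝ, 1 ≤ ⨆ i, v (x i) := by
    intro v
    have := Finite.le_ciSup (fun i => v (x i)) 0
    simpa [hx0] using this
  have hzsup : ∀ v : AbsoluteValue K ℝ, ∏ j : Fin M, max 1 (v (lin (j : ℕ) x)) ≤ ⨆ I, v (z I) := by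
    intro v
    have : ∏ j : Fin M, max 1 (v (lin (j : ℕ) x)) =
        v (z (fun j => if 1 ≤ v (lin (j : ℕ) x) then 1 else 0)) := by
      rw [hz]
      simp only
      rw [map_prod]
      apply Finset.prod_congr rfl
      intro j _
      split_ifs with h
      · rw [max_eq_right h]; rfl
      · rw [max_eq_left (le_of_not_ge h)]
        exact v.map_one.symm
    rw [this]
    exact Finite.le_ciSup (fun I => v (z I)) _
  have hysup : ∀ v : AbsoluteValue K ℝ, (⨆ i, v ((((Dl N M : ℤ) : K) • x) i)) =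
      v ((Dl N M : ℤ) : K) * ⨆ i, v (x i) := by
    intro v
    rw [Real.mul_iSup_of_nonneg (v.nonneg _)]
    apply iSup_congr
    intro i
    rw [Pi.smul_apply, smul_eq_mul, v.map_mul]
  have hA := Adj_pos N M
  have hcmp := compare (K := K) hy hz0 (M - N) 1 ((|(Dl N M : ℝ)| * Adj N M) ^ (M - N))
    (by positivity)
    (by
      intro v hv
      rw [hysup, arch_int hv, pow_one]
      have h1 := comb_prod hNM (fun j => v (lin (j : ℕ) x)) (fun j => v.nonneg _)
        ((⨆ i, v (x i)) / Adj N M) (by have := hX v; positivity)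
        (fun s hs => loc_arch hv x (lt_of_lt_of_le one_pos (hX v)) s hs)
      have h2 := h1.trans (hzsup v)
      have h3 : |((Dl N M : ℤ) : ℝ)| * (⨆ i, v (x i)) =
          (|(Dl N M : ℝ)| * Adj N M) * ((⨆ i, v (x i)) / Adj N M) := by
        field_simp
      rw [h3, mul_pow]
      exact mul_le_mul_of_nonneg_left h2 (by positivity))
    (by
      intro v hv
      rw [hysup, pow_one]
      have h1 := comb_prod hNM (fun j => v (lin (j : ℕ) x)) (fun j => v.nonneg _)
        (v ((Dl N M : ℤ) : K) * ⨆ i, v (x i))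
        (mul_nonneg (v.nonneg _) (zero_le_one.trans (hX v)))
        (fun s hs => loc_nonarch hv x (lt_of_lt_of_le one_pos (hX v)) s hs)
      exact h1.trans (hzsup v))
  rwa [pow_one] at hcmp

/-- averaged height inequality -/
theorem avg_height {N M : ℕ} (hNM : N ≤ M) :
    ∃ C : ℝ, ∀ x : Fin (N + 1) → AlgebraicClosure ℚ, x 0 ≠ 0 →
      ((M : ℝ) - N) * absHeight x ≤ ∑ j : Fin M, absHeight ![x 0, lin (j : ℕ) x] + C := by
  set E : ℝ := (|(Dl N M : ℝ)| * Adj N M) ^ (M - N) with hE
  refine ⟨Real.log E, ?_⟩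
  intro x hx0
  obtain ⟨L, hL, hSL⟩ := exists_field (Set.range x) (Set.finite_range x)
  have := hL
  have hxL : ∀ i, x i ∈ L := fun i => hSL ⟨i, rfl⟩
  set x' : Fin (N + 1) → L := fun i => ⟨x i, hxL i⟩ with hx'
  have hx'0 : x' 0 ≠ 0 := fun h => hx0 (congrArg Subtype.val h)
  have hlinL : ∀ j : ℕ, ((lin j x' : L) : AlgebraicClosure ℚ) = lin j x := by
    intro j
    unfold lin
    change algebraMap L (AlgebraicClosure ℚ) _ = _
    rw [map_sum]
    apply Finset.sum_congr rfl
    intro i _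
    rw [map_mul, map_pow, map_add, map_natCast, map_one]
    rfl
  have h1 := avg_field (K := L) hNM ((x' 0)⁻¹ • x') (by
    rw [Pi.smul_apply, smul_eq_mul, inv_mul_cancel₀ hx'0])
  have hsc : ∀ j : Fin M, mulHeight (![1, lin (j : ℕ) ((x' 0)⁻¹ • x')] : Fin 2 → L) =
      mulHeight (![x' 0, lin (j : ℕ) x'] : Fin 2 → L) := by
    intro j
    have e1 : (![1, lin (j : ℕ) ((x' 0)⁻¹ • x')] : Fin 2 → L) =
        (x' 0)⁻¹ • (![x' 0, lin (j : ℕ) x'] : Fin 2 → L) := by
      funext i
      fin_cases i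
      · change 1 = (x' 0)⁻¹ * x' 0
        rw [inv_mul_cancel₀ hx'0]
      · change lin (j : ℕ) ((x' 0)⁻¹ • x') = (x' 0)⁻¹ * lin (j : ℕ) x'
        rw [lin_smul]
    rw [e1, mulHeight_smul_eq_mulHeight _ (inv_ne_zero hx'0)]
  simp_rw [hsc] at h1
  rw [mulHeight_smul_eq_mulHeight _ (inv_ne_zero hx'0), NumberField.totalWeight_eq_finrank] at h1
  have hA := Adj_pos N M
  have hD : (0 : ℝ) < |(Dl N M : ℝ)| := by
    rw [abs_pos]
    exact_mod_cast Dl_ne N M
  have hEpos : 0 < E := by positivity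
  have hlog := Real.log_le_log (pow_pos (mulHeight_pos _) _) h1
  rw [Real.log_pow, Real.log_mul (by positivity) (Finset.prod_ne_zero_iff.2 fun j _ =>
    mulHeight_ne_zero _), Real.log_pow, Real.log_prod (fun j _ => mulHeight_ne_zero _)] at hlog
  have e2 : ∀ j : Fin M, Real.log (mulHeight (![x' 0, lin (j : ℕ) x'] : Fin 2 → L)) =
      Module.finrank ℚ L * absHeight ![x 0, lin (j : ℕ) x] := by
    intro j
    have hlL : lin (j : ℕ) x ∈ L := by rw [← hlinL]; exact (lin (j : ℕ) x').2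
    rw [← logHeight_eq ![x 0, lin (j : ℕ) x] L (by intro i; fin_cases i; exacts [hxL 0, hlL])]
    unfold logHeight
    congr 2
    funext i
    fin_cases i
    · rfl
    · exact Subtype.ext (hlinL j)
  have e3 : Real.log (mulHeight x') = Module.finrank ℚ L * absHeight x := by
    rw [← logHeight_eq x L hxL]; rfl
  simp_rw [e2] at hlog
  rw [e3, ← Finset.mul_sum, Nat.cast_sub hNM] at hlog
  have hpos := finrank_pos' L
  have h5 : (Module.finrank ℚ L : ℝ) * (((M : ℝ) - N) * absHeight x) ≤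
      Module.finrank ℚ L * (∑ j : Fin M, absHeight ![x 0, lin (j : ℕ) x] + Real.log E) := by
    nlinarith
  exact le_of_mul_le_mul_left h5 hpos

end Pool.Agent.H6.HT
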