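import Pool.Agent.H6.HT7
import Pool.Agent.H6.HA5

namespace Pool.Agent.H6.HT

open Height NumberField Pool.Agent.H6.HTDefs MvPolynomial

theorem algInd {N d : ℕ} (hd : 1 ≤ d)
    {f : Fin (N + 1) → MvPolynomial (Fin (N + 1)) (AlgebraicClosure ℚ)}
    (hf : IsDominantMap N d f) : AlgebraicIndependent (AlgebraicClosure ℚ) f := by
  rw [algebraicIndependent_iff]
  intro Q hQ
  by_contra hQ0
  obtain ⟨t, ht⟩ : ∃ t, homogeneousComponent t Q ≠ 0 := by
    by_contra hcon
    push Not at hcon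
    apply hQ0
    rw [← sum_homogeneousComponent Q]
    exact Finset.sum_eq_zero fun i _ => hcon i
  have h1 : aeval f (homogeneousComponent t Q) = 0 := by
    rw [← HA.hc_aeval f hd hf.homogeneous, hQ, map_zero]
  obtain ⟨x, _, hx⟩ := hf.dominant _ t ht (homogeneousComponent_isHomogeneous _ _)
  apply hx
  have h2 : ∀ Q : MvPolynomial (Fin (N + 1)) (AlgebraicClosure ℚ),
      eval (mapVal f x) Q = eval x (aeval f Q) := by
    intro Q
    induction Q using MvPolynomial.induction_on with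
    | C c => rw [eval_C, aeval_C]; exact (eval_C c).symm
    | add p q hp hq => rw [map_add, map_add, map_add, hp, hq]
    | mul_X p i hp => rw [map_mul, map_mul, map_mul, hp, eval_X, aeval_X]; rfl
  rw [h2, h1, map_zero]

theorem eval_comp {N : ℕ} (f : Fin (N + 1) → MvPolynomial (Fin (N + 1)) (AlgebraicClosure ℚ))
    (x : Fin (N + 1) → AlgebraicClosure ℚ) (Q : MvPolynomial (Fin (N + 1)) (AlgebraicClosure ℚ)) :
    eval (mapVal f x) Q = eval x (aeval f Q) := by
  induction Q using MvPolynomial.induction_on with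
  | C c => rw [eval_C, aeval_C]; exact (eval_C c).symm
  | add p q hp hq => rw [map_add, map_add, map_add, hp, hq]
  | mul_X p i hp => rw [map_mul, map_mul, map_mul, hp, eval_X, aeval_X]; rfl

theorem int_mult (S : Finset (AlgebraicClosure ℚ)) :
    ∃ D : ℤ, D ≠ 0 ∧ ∀ a ∈ S, IsIntegral ℤ ((D : AlgebraicClosure ℚ) * a) := by
  classical
  have hall : Algebra.IsAlgebraic ℚ (AlgebraicClosure ℚ) := AlgebraicClosure.isAlgebraic ℚ
  have h1 : ∀ a : AlgebraicClosure ℚ, ∃ D : ℤ, D ≠ 0 ∧ IsIntegral ℤ ((D : AlgebraicClosure ℚ) * a) := by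
    intro a
    have ha : IsAlgebraic ℤ a := (IsFractionRing.isAlgebraic_iff ℤ ℚ (AlgebraicClosure ℚ)).2
      (hall.isAlgebraic a)
    obtain ⟨y, hy, hy2⟩ := ha.exists_integral_multiple
    exact ⟨y, hy, by rwa [zsmul_eq_mul] at hy2⟩
  choose D hD0 hD using h1
  refine ⟨∏ a ∈ S, D a, Finset.prod_ne_zero_iff.2 fun a _ => hD0 a, ?_⟩
  intro a ha
  rw [← Finset.mul_prod_erase _ _ ha]
  push_cast
  have e1 : (D a : AlgebraicClosure ℚ) * (∏ b ∈ S.erase a, (D b : AlgebraicClosure ℚ)) * a =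
      (((∏ b ∈ S.erase a, D b : ℤ)) : AlgebraicClosure ℚ) * ((D a : AlgebraicClosure ℚ) * a) := by
    push_cast; ring
  rw [e1]
  exact (isIntegral_algebraMap (R := ℤ) (x := ∏ b ∈ S.erase a, D b)).mul (hD a)

/-- one pencil -/
theorem pencil {n d : ℕ} (hd : 1 ≤ d)
    {f : Fin (n + 2) → MvPolynomial (Fin (n + 2)) (AlgebraicClosure ℚ)}
    (hf : IsDominantMap (n + 1) d f) (j : ℕ) :
    ∃ (G : MvPolynomial (Fin (n + 2)) (AlgebraicClosure ℚ)) (k : ℕ) (C : ℝ), G ≠ 0 ∧
      G.IsHomogeneous k ∧ ∀ x : Fin (n + 2) → AlgebraicClosure ℚ, x 0 ≠ 0 → mapVal f x ≠ 0 →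
        eval x G ≠ 0 → absHeight ![x 0, lin j x] ≤ (d ^ n : ℕ) * absHeight (mapVal f x) + C := by
  classical
  have hfi := algInd hd hf
  set a : Fin (n + 2) → AlgebraicClosure ℚ := fun i => ((j : AlgebraicClosure ℚ) + 1) ^ (i : ℕ) with ha
  have hj : ((j : AlgebraicClosure ℚ) + 1) ≠ 0 := by exact_mod_cast Nat.succ_ne_zero j
  obtain ⟨e, he, m, c, hch, hcm, hc0, hrel⟩ := HA.alg_main hd f hf.homogeneous hfi a
    (pow_ne_zero _ hj)
  -- make the coefficients integral
  obtain ⟨D, hD0, hD⟩ := int_mult ((Finset.range (m + 1)).biUnion (fun k => (c k).coeffs))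
  set c' : ℕ → MvPolynomial (Fin (n + 2)) (AlgebraicClosure ℚ) := fun k => C (D : AlgebraicClosure ℚ) * c k with hc'
  have hDQ : (D : AlgebraicClosure ℚ) ≠ 0 := by exact_mod_cast hD0
  have hc'h : ∀ k, (c' k).IsHomogeneous e := by
    intro k
    have := (isHomogeneous_C (Fin (n + 2)) (D : AlgebraicClosure ℚ)).mul (hch k)
    rwa [zero_add] at this
  have hint : ∀ k s, IsIntegral ℤ (coeff s (c' k)) := by
    intro k s
    rw [hc', coeff_C_mul]
    by_cases hk : k ≤ m
    · by_cases hs : coeff s (c k) = 0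
      · rw [hs, mul_zero]; exact isIntegral_zero
      · exact hD (coeff s (c k)) (Finset.mem_biUnion.2 ⟨k, Finset.mem_range.2 (Nat.lt_succ_of_le hk),
          coeff_mem_coeffs _ hs⟩)
    · rw [hc0 k (not_le.1 hk), coeff_zero, mul_zero]; exact isIntegral_zero
  obtain ⟨C1, hC1⟩ := rel_height (m := m) c' hc'h hint
  refine ⟨aeval f (c' m), e * d, C1, ?_, HA.aeval_hom f hf.homogeneous (hc'h m), ?_⟩
  · intro h
    have h1 := (algebraicIndependent_iff.1 hfi) _ h
    rcases mul_eq_zero.1 h1 with h2 | h2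
    · exact hDQ (C_injective _ _ (by rw [h2, map_zero]))
    · exact hcm h2
  · intro x hx0 hfx hG
    have h1 := hC1 (mapVal f x) (x 0) (lin j x) hfx hx0 (by rwa [eval_comp]) (by
      have h2 := hrel x hx0
      have h3 : ∀ k, eval (mapVal f x) (c' k) = (D : AlgebraicClosure ℚ) * eval (mapVal f x) (c k) := by
        intro k
        rw [hc', map_mul, eval_C]
      simp_rw [h3, mul_assoc]
      rw [← Finset.mul_sum]
      have h4 : (∑ i, a i * x i) = lin j x := rfl
      rw [h4] at h2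
      rw [show (∑ k ∈ Finset.range (m + 1), eval (mapVal f x) (c k) * (lin j x / x 0) ^ k) = 0 from h2,
        mul_zero])
    have h5 : (e : ℝ) * absHeight (mapVal f x) ≤ (d ^ n : ℕ) * absHeight (mapVal f x) :=
      mul_le_mul_of_nonneg_right (by exact_mod_cast he) (absHeight_nonneg _)
    linarith

/-- the lower bound on a nonempty open set -/
theorem lower {n d : ℕ} (hd : 1 ≤ d)
    {f : Fin (n + 2) → MvPolynomial (Fin (n + 2)) (AlgebraicClosure ℚ)}
    (hf : IsDominantMap (n + 1) d f) (M : ℕ) (hM : n + 1 ≤ M) :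
    ∃ (G : MvPolynomial (Fin (n + 2)) (AlgebraicClosure ℚ)) (k : ℕ) (C : ℝ), G ≠ 0 ∧
      G.IsHomogeneous k ∧ (∀ x, eval x G ≠ 0 → x 0 ≠ 0) ∧
      ∀ x : Fin (n + 2) → AlgebraicClosure ℚ, mapVal f x ≠ 0 → eval x G ≠ 0 →
        ((M : ℝ) - (n + 1)) * absHeight x ≤ M * (d ^ n : ℕ) * absHeight (mapVal f x) + C := by
  choose G k C hG0 hGh hG using fun j : ℕ => pencil hd hf j
  obtain ⟨C0, hC0⟩ := avg_height (N := n + 1) hM
  refine ⟨X 0 * ∏ j : Fin M, G j, 1 + ∑ j : Fin M, k j, ∑ j : Fin M, C j + C0, ?_, ?_, ?_, ?_⟩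
  · exact mul_ne_zero (X_ne_zero _) (Finset.prod_ne_zero_iff.2 fun j _ => hG0 j)
  · exact (isHomogeneous_X _ _).mul (IsHomogeneous.prod _ _ _ fun j _ => hGh j)
  · intro x hx h0
    apply hx
    rw [map_mul, eval_X, h0, zero_mul]
  · intro x hfx hx
    rw [map_mul, eval_X, map_prod] at hx
    have hx0 : x 0 ≠ 0 := left_ne_zero_of_mul hx
    have hxj : ∀ j : Fin M, eval x (G j) ≠ 0 := fun j =>
      (Finset.prod_ne_zero_iff.1 (right_ne_zero_of_mul hx)) j (Finset.mem_univ _)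
    have h1 := hC0 x hx0
    have h2 : ∑ j : Fin M, absHeight ![x 0, lin (j : ℕ) x] ≤
        ∑ j : Fin M, ((d ^ n : ℕ) * absHeight (mapVal f x) + C j) :=
      Finset.sum_le_sum fun j _ => hG j x hx0 hfx (hxj j)
    rw [Finset.sum_add_distrib, Finset.sum_const, Finset.card_univ, Fintype.card_fin,
      nsmul_eq_mul] at h2
    push_cast at h1 h2 ⊢
    linarith

end Pool.Agent.H6.HT
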