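import Pool.Agent.H6.HT8

namespace Pool.Agent.H6.HT

open Height NumberField Pool.Agent.H6.HTDefs MvPolynomial

theorem mu_ge {n d : ℕ} (hd : 1 ≤ d)
    {f : Fin (n + 2) → MvPolynomial (Fin (n + 2)) (AlgebraicClosure ℚ)}
    (hf : IsDominantMap (n + 1) d f) : ((1 / (d : ℝ) ^ n : ℝ) : EReal) ≤ mu f := by
  rw [← EReal.ge_of_forall_gt_iff_ge]
  intro r hr
  rw [EReal.coe_lt_coe_iff] at hr
  have hD : (0 : ℝ) < (d : ℝ) ^ n := by
    have : (0 : ℝ) < d := by exact_mod_cast hd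
    positivity
  rw [lt_div_iff₀ hD] at hr
  set δ : ℝ := 1 - r * (d : ℝ) ^ n with hδ
  have hδ0 : 0 < δ := by linarith
  obtain ⟨M, hM⟩ := exists_nat_gt (max ((n + 1 : ℕ) : ℝ) (((n : ℝ) + 1) / δ))
  have hM1 : ((n + 1 : ℕ) : ℝ) < M := lt_of_le_of_lt (le_max_left _ _) hM
  have hM2 : ((n : ℝ) + 1) / δ < M := lt_of_le_of_lt (le_max_right _ _) hM
  have hMn : n + 1 ≤ M := by
    have : n + 1 < M := by exact_mod_cast hM1
    omega
  obtain ⟨G, k, C, hG0, hGh, hGx, hG⟩ := lower hd hf M hMn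
  have hκ : 0 < ((M : ℝ) - (n + 1)) - r * (M * (d : ℝ) ^ n) := by
    rw [div_lt_iff₀ hδ0] at hM2
    rw [hδ] at hM2
    nlinarith
  set κ : ℝ := ((M : ℝ) - (n + 1)) - r * (M * (d : ℝ) ^ n) with hκd
  have hMpos : (0 : ℝ) < M := by
    have : (0 : ℝ) ≤ ((n + 1 : ℕ) : ℝ) := Nat.cast_nonneg _
    linarith
  set U : Set (Fin (n + 2) → AlgebraicClosure ℚ) := {x | x ≠ 0 ∧ ∃ g ∈ ({G} : Set _), eval x g ≠ 0} with hU
  have hUo : IsOpenNonempty U := by
    refine ⟨?_, {G}, ?_, rfl⟩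
    · obtain ⟨x, hx⟩ : ∃ x, eval x G ≠ 0 := by
        by_contra hcon
        push Not at hcon
        exact hG0 (MvPolynomial.funext (fun x => by rw [hcon x, map_zero]))
      refine ⟨x, ?_, G, rfl, hx⟩
      intro h
      exact hGx x hx (by rw [h]; rfl)
    · intro g hg
      rw [Set.mem_singleton_iff.1 hg]
      exact ⟨k, hGh⟩
  unfold mu
  refine le_iSup₂_of_le U hUo ?_
  refine Filter.le_liminf_of_le (by isBoundedDefault) ?_
  rw [Filter.eventually_inf_principal]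
  have hev : ∀ᶠ x in Filter.comap (absHeight (ι := Fin (n + 2))) Filter.atTop,
      max 1 (C / κ) ≤ absHeight x :=
    Filter.tendsto_comap.eventually (Filter.eventually_ge_atTop _)
  filter_upwards [hev] with x hx hxU
  obtain ⟨⟨_, g, hg, hgx⟩, hfx⟩ := hxU
  rw [Set.mem_singleton_iff.1 hg] at hgx
  have h1 := hG x hfx hgx
  have h2 : C / κ ≤ absHeight x := (le_max_right _ _).trans hx
  have h3 : 0 < absHeight x := lt_of_lt_of_le one_pos ((le_max_left _ _).trans hx)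
  rw [EReal.coe_le_coe_iff, le_div_iff₀ h3]
  rw [div_le_iff₀ hκ] at h2
  push_cast at h1
  have hMD : 0 < (M : ℝ) * (d : ℝ) ^ n := by positivity
  have h4 : (M : ℝ) * (d : ℝ) ^ n * (r * absHeight x) ≤
      (M : ℝ) * (d : ℝ) ^ n * absHeight (mapVal f x) := by
    rw [hκd] at h2
    nlinarith
  exact le_of_mul_le_mul_left h4 hMD

theorem muBar_ge {n d : ℕ} (hd : 1 ≤ d) : ((1 / (d : ℝ) ^ n : ℝ) : EReal) ≤ muBar (n + 1) d := by
  unfold muBar
  exact le_iInf₂ fun f hf => mu_ge hd hf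

end Pool.Agent.H6.HT
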