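import Mathlib

namespace Pool.Agent.H6.NB

open Cardinal Filter Topology Set

universe u

variable {Λ : Type} {K : Type} [RCLike K]

theorem card_K (K : Type) [RCLike K] : #K = 𝔠 := by
  apply le_antisymm
  · have : Function.Injective (fun z : K => ((RCLike.re z, RCLike.im z) : ℝ × ℝ)) := by
      intro z w h
      simp only [Prod.mk.injEq] at h
      exact RCLike.ext h.1 h.2
    have h2 := Cardinal.mk_le_of_injective this
    rwa [Cardinal.mk_prod, Cardinal.lift_id, Cardinal.mk_real, Cardinal.continuum_mul_self] at h2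
  · have : Function.Injective (fun x : ℝ => (x : K)) := RCLike.ofReal_injective
    have h2 := Cardinal.mk_le_of_injective this
    rwa [Cardinal.mk_real] at h2

theorem exists_indep (hΛ : #Λ = 𝔠) (S : Set K) (hS : #S < 𝔠) :
    ∃ η : Option Λ → K, LinearIndependent (Subfield.closure S) η := by
  classical
  set k := Subfield.closure S with hk
  have hk1 : #k < 𝔠 := lt_of_le_of_lt (Subfield.cardinalMk_closure_le_max S)
    (max_lt hS Cardinal.aleph0_lt_continuum)
  set B := Module.Basis.ofVectorSpace k K with hB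
  set ι := Module.Basis.ofVectorSpaceIndex k K with hι
  have hne : Nonempty ι := B.index_nonempty
  have hinf : Infinite k := inferInstance
  have hcard : 𝔠 ≤ #ι := by
    by_contra hlt
    push Not at hlt
    have h1 : #K = #(ι →₀ k) := Cardinal.mk_congr B.repr.toEquiv
    rw [Cardinal.mk_finsupp_of_infinite', card_K] at h1
    have h2 : max #ι #k < 𝔠 := max_lt hlt hk1
    rw [← h1] at h2
    exact lt_irrefl _ h2
  have hopt : #(Option Λ) ≤ #ι := by
    rw [Cardinal.mk_option, hΛ]
    rw [Cardinal.add_one_eq Cardinal.aleph0_le_continuum]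
    exact hcard
  obtain ⟨f⟩ := Cardinal.le_def _ _ |>.1 hopt
  exact ⟨fun o => B (f o), B.linearIndependent.comp f f.injective⟩

/-- the partial sums -/
noncomputable def psum (u : ℕ → Λ →₀ K) (a : ℕ → K) (θ : Λ → K) (N : ℕ) : K :=
  ∑ n ∈ Finset.range N, a n * (u n).sum (fun k c => c * θ k)

theorem exists_row (hΛ : #Λ = 𝔠) (S : Set K) (hS : #S < 𝔠) (i : Λ) (u : ℕ → Λ →₀ K) (a : ℕ → K) :
    ∃ θ : Λ → K, LinearIndependent (Subfield.closure S) θ ∧
      ((∀ n, u n i = 0) → ¬ Tendsto (psum u a θ) atTop (𝓝 (θ i))) := by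
  classical
  obtain ⟨η, hη⟩ := exists_indep (K := K) hΛ S hS
  by_cases h1 : Tendsto (psum u a (fun k => η (some k))) atTop (𝓝 (η (some i)))
  · refine ⟨fun k => η (if k = i then none else some k), ?_, ?_⟩
    · apply hη.comp
      intro k k' h
      by_cases hk : k = i <;> by_cases hk' : k' = i <;> simp_all
    · intro hu h2
      have e : psum u a (fun k => η (if k = i then none else some k)) =
          psum u a (fun k => η (some k)) := by
        funext N
        unfold psum
        refine Finset.sum_congr rfl fun n _ => ?_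
        congr 1
        refine Finsupp.sum_congr fun k hk => ?_
        have : k ≠ i := by
          rintro rfl
          exact (Finsupp.mem_support_iff.1 hk) (hu n)
        simp [this]
      rw [e] at h2
      have h3 := tendsto_nhds_unique h1 h2
      have h4 := hη.injective h3
      simp at h4
  · exact ⟨fun k => η (some k), hη.comp _ (Option.some_injective _), fun _ => h1⟩

theorem exists_rec {Λ : Type} [LinearOrder Λ] [WellFoundedLT Λ] {β : Type}
    (R : (j : Λ) → ((i : Λ) → i < j → β) → β → Prop) (h : ∀ j prev, ∃ b, R j prev b) :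
    ∃ G : Λ → β, ∀ j, R j (fun i _ => G i) (G j) := by
  classical
  let F : (j : Λ) → ((i : Λ) → i < j → β) → β := fun j prev => Classical.choose (h j prev)
  refine ⟨(wellFounded_lt (α := Λ)).fix F, fun j => ?_⟩
  have e := WellFounded.fix_eq (wellFounded_lt (α := Λ)) F j
  have := Classical.choose_spec (h j (fun i _ => (wellFounded_lt (α := Λ)).fix F i))
  rw [e]
  exact this

/-- the data field generators -/
def Sset [LinearOrder Λ] (X : Λ → ℕ → Λ →₀ K) (G : Λ → Λ → K) (j : Λ) : Set K :=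
  {c | ∃ i, i < j ∧ ∃ k, k < j ∧ c = G i k} ∪ {c | ∃ i, i ≤ j ∧ ∃ n : ℕ, ∃ k, k < j ∧ c = X i n k}

theorem exists_G [LinearOrder Λ] [WellFoundedLT Λ] (hΛ : #Λ = 𝔠)
    (hsmall : ∀ j : Λ, #(Set.Iio j) < 𝔠) (X : Λ → ℕ → Λ →₀ K) (I : Λ → Λ) (A : Λ → ℕ → K) :
    ∃ G : Λ → Λ → K, ∀ j, LinearIndependent (Subfield.closure (Sset X G j)) (G j) ∧
      ((∀ n, X (I j) n (I j) = 0) →
        ¬ Tendsto (psum (X (I j)) (A j) (G j)) atTop (𝓝 (G j (I j)))) := by
  classical
  let S' : (j : Λ) → ((i : Λ) → i < j → (Λ → K)) → Set K := fun j prev =>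
    {c | ∃ i, ∃ h : i < j, ∃ k, k < j ∧ c = prev i h k} ∪
      {c | ∃ i, i ≤ j ∧ ∃ n : ℕ, ∃ k, k < j ∧ c = X i n k}
  have hS' : ∀ j prev, #(S' j prev) < 𝔠 := by
    intro j prev
    have hIic : #(Set.Iic j) < 𝔠 := by
      have : (Set.Iic j) = insert j (Set.Iio j) := by
        ext x; simp [le_iff_eq_or_lt]
      rw [this]
      refine lt_of_le_of_lt (Cardinal.mk_insert_le) ?_
      exact Cardinal.add_lt_of_lt Cardinal.aleph0_le_continuum (hsmall j)
        (Cardinal.one_lt_aleph0.trans Cardinal.aleph0_lt_continuum)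
    refine lt_of_le_of_lt (Cardinal.mk_union_le _ _) (Cardinal.add_lt_of_lt
      Cardinal.aleph0_le_continuum ?_ ?_)
    · have hsub : {c | ∃ i, ∃ h : i < j, ∃ k, k < j ∧ c = prev i h k} ⊆
          Set.range (fun p : Set.Iio j × Set.Iio j => prev p.1.1 p.1.2 p.2.1) := by
        rintro c ⟨i, h, k, hk, rfl⟩
        exact ⟨(⟨i, h⟩, ⟨k, hk⟩), rfl⟩
      refine lt_of_le_of_lt (Cardinal.mk_le_mk_of_subset hsub) ?_
      refine lt_of_le_of_lt Cardinal.mk_range_le ?_
      simp only [Cardinal.mk_prod, Cardinal.lift_id]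
      exact Cardinal.mul_lt_of_lt Cardinal.aleph0_le_continuum (hsmall j) (hsmall j)
    · have hsub : {c | ∃ i, i ≤ j ∧ ∃ n : ℕ, ∃ k, k < j ∧ c = X i n k} ⊆
          Set.range (fun p : Set.Iic j × (ℕ × Set.Iio j) => X p.1.1 p.2.1 p.2.2.1) := by
        rintro c ⟨i, h, n, k, hk, rfl⟩
        exact ⟨(⟨i, h⟩, (n, ⟨k, hk⟩)), rfl⟩
      refine lt_of_le_of_lt (Cardinal.mk_le_mk_of_subset hsub) ?_
      refine lt_of_le_of_lt Cardinal.mk_range_le ?_
      simp only [Cardinal.mk_prod, Cardinal.lift_id]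
      exact Cardinal.mul_lt_of_lt Cardinal.aleph0_le_continuum hIic
        (Cardinal.mul_lt_of_lt Cardinal.aleph0_le_continuum
          (by rw [Cardinal.mk_nat]; exact Cardinal.aleph0_lt_continuum) (hsmall j))
  obtain ⟨G, hG⟩ := exists_rec (Λ := Λ) (β := Λ → K) (fun j prev b =>
    LinearIndependent (Subfield.closure (S' j prev)) b ∧
      ((∀ n, X (I j) n (I j) = 0) → ¬ Tendsto (psum (X (I j)) (A j) b) atTop (𝓝 (b (I j)))))
    (fun j prev => exists_row hΛ (S' j prev) (hS' j prev) (I j) (X (I j)) (A j))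
  refine ⟨G, fun j => ?_⟩
  have e : S' j (fun i _ => G i) = Sset X G j := by
    unfold Sset
    ext c
    simp only [S', Set.mem_union, Set.mem_setOf_eq, exists_prop]
  have := hG j
  rw [e] at this
  exact this

end Pool.Agent.H6.NB
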