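import Pool.Agent.H6.NB1

namespace Pool.Agent.H6.NB

open Cardinal Filter Topology Set

variable {Λ : Type} {K : Type} [RCLike K] [LinearOrder Λ]

noncomputable def M (G : Λ → Λ → K) (j k : Λ) : K :=
  if k < j then G j k else if k = j then 1 else 0

noncomputable def T (G : Λ → Λ → K) : (Λ →₀ K) →ₗ[K] (Λ → K) :=
  Finsupp.linearCombination K (fun k => fun j => M G j k)

theorem T_apply (G : Λ → Λ → K) (u : Λ →₀ K) (j : Λ) :
    T G u j = u.sum (fun k c => c * M G j k) := by
  unfold T
  rw [Finsupp.linearCombination_apply, Finsupp.sum, Finset.sum_apply]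
  rfl

theorem T_lt (G : Λ → Λ → K) (u : Λ →₀ K) (j : Λ) (h : ∀ k, j ≤ k → u k = 0) :
    T G u j = u.sum (fun k c => c * G j k) := by
  rw [T_apply]
  refine Finsupp.sum_congr fun k hk => ?_
  have : k < j := by
    by_contra hkj
    exact (Finsupp.mem_support_iff.1 hk) (h k (not_lt.1 hkj))
  simp [M, this]

theorem T_single (G : Λ → Λ → K) (i j : Λ) : T G (Finsupp.single i 1) j = M G j i := by
  rw [T_apply, Finsupp.sum_single_index] <;> simp

theorem T_injective (G : Λ → Λ → K) : Function.Injective (T G) := by
  rw [injective_iff_map_eq_zero]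
  intro u hu
  by_contra hne
  have hs : u.support.Nonempty := Finsupp.support_nonempty_iff.2 hne
  set i := u.support.min' hs with hi
  have h1 : T G u i = u i := by
    rw [T_apply, Finsupp.sum, Finset.sum_eq_single i]
    · simp [M]
    · intro k hk hki
      have : i ≤ k := Finset.min'_le _ _ hk
      have h2 : ¬ k < i := not_lt.2 this
      simp [M, h2, hki]
    · intro h
      exact absurd (Finset.min'_mem _ hs) h
  rw [hu] at h1
  exact (Finsupp.mem_support_iff.1 (Finset.min'_mem _ hs)) h1.symm

theorem key (G : Λ → Λ → K) (X : Λ → ℕ → Λ →₀ K)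
    (hG : ∀ j, LinearIndependent (Subfield.closure (Sset X G j)) (G j)) (i : Λ)
    (hX : ∀ n k, i ≤ k → X i n k = 0) (hli : LinearIndependent K (X i))
    (F : Finset Λ) (c : Λ → K) (h0 : ∀ n, ∑ j ∈ F, c j * T G (X i n) j = 0) :
    ∑ j ∈ F, c j * T G (Finsupp.single i 1) j = 0 := by
  classical
  by_contra hne
  set F' := F.filter (fun j => c j ≠ 0 ∧ i ≤ j) with hF'
  have hF'ne : F'.Nonempty := by
    by_contra hemp
    rw [Finset.not_nonempty_iff_eq_empty] at hemp
    apply hne
    refine Finset.sum_eq_zero fun j hj => ?_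
    by_cases hc : c j = 0
    · rw [hc, zero_mul]
    · have : ¬ i ≤ j := by
        intro hij
        have : j ∈ F' := Finset.mem_filter.2 ⟨hj, hc, hij⟩
        rw [hemp] at this
        exact absurd this (Finset.notMem_empty _)
      have h1 : j < i := not_le.1 this
      rw [T_single, M, if_neg (not_lt.2 h1.le), if_neg h1.ne', mul_zero]
  set j0 := F'.max' hF'ne with hj0
  have hj0mem : j0 ∈ F' := Finset.max'_mem _ _
  obtain ⟨hj0F, hcj0, hij0⟩ := Finset.mem_filter.1 hj0mem
  set k0 := Subfield.closure (Sset X G j0) with hk0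
  have hcoef : ∀ n k, X i n k ∈ k0 := by
    intro n k
    by_cases hk : i ≤ k
    · rw [hX n k hk]; exact zero_mem _
    · exact Subfield.subset_closure (Or.inr ⟨i, hij0, n, k, (not_le.1 hk).trans_le hij0, rfl⟩)
  have hM : ∀ j, j < j0 → ∀ k, M G j k ∈ k0 := by
    intro j hj k
    unfold M
    split_ifs with h1 h2
    · exact Subfield.subset_closure (Or.inl ⟨j, hj, k, h1.trans hj, rfl⟩)
    · exact one_mem _
    · exact zero_mem _
  have hTmem : ∀ j, j < j0 → ∀ n, T G (X i n) j ∈ k0 := by
    intro j hj n
    rw [T_apply]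
    exact sum_mem fun k _ => mul_mem (hcoef n k) (hM j hj k)
  set s : ℕ → K := fun n => T G (X i n) j0 with hs
  -- linear independence of `s`
  have hsli : LinearIndependent k0 s := by
    let v : ℕ → (Λ →₀ k0) := fun n =>
      Finsupp.onFinset (X i n).support (fun k => (⟨X i n k, hcoef n k⟩ : k0)) (by
        intro k hk
        rw [Finsupp.mem_support_iff]
        intro h
        exact hk (Subtype.ext h))
    have hv : LinearIndependent k0 v := by
      let f : (Λ →₀ k0) →ₗ[k0] (Λ →₀ K) := Finsupp.mapRange.linearMap (Algebra.linearMap k0 K)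
      apply LinearIndependent.of_comp f
      have e : (f ∘ v) = X i := by
        funext n
        ext k
        simp [f, v]
        rfl
      rw [e]
      refine hli.restrict_scalars ?_
      intro a b hab
      have : (a : K) * 1 = (b : K) * 1 := hab
      exact Subtype.ext (by simpa using this)
    have hL : LinearMap.ker (Finsupp.linearCombination k0 (G j0)) = ⊥ := LinearMap.ker_eq_bot.2 (hG j0)
    have h2 := hv.map' _ hL
    have e : (Finsupp.linearCombination k0 (G j0)) ∘ v = s := by
      funext n
      show Finsupp.linearCombination k0 (G j0) (v n) = T G (X i n) j0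
      rw [T_lt G (X i n) j0 (fun k hk => hX n k (hij0.trans hk)),
        Finsupp.linearCombination_apply]
      rw [Finsupp.sum_of_support_subset (s := (X i n).support)]
      · rfl
      · exact Finsupp.support_onFinset_subset
      · intro k _; exact zero_smul _ _
    rw [← e]
    exact h2
  -- `s` lies in a finite dimensional space
  let W : Submodule k0 K := Submodule.span k0 (↑(F.image (fun j => -(c j / c j0))) : Set K)
  have hsW : ∀ n, s n ∈ W := by
    intro n
    have h1 := h0 n
    rw [← Finset.add_sum_erase _ _ hj0F] at h1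
    have h2 : s n = ∑ j ∈ F.erase j0, -(c j / c j0) * T G (X i n) j := by
      have h3 : c j0 * s n = - ∑ j ∈ F.erase j0, c j * T G (X i n) j := by
        rw [eq_neg_iff_add_eq_zero]; exact h1
      have h4 : s n = (c j0)⁻¹ * (- ∑ j ∈ F.erase j0, c j * T G (X i n) j) := by
        rw [← h3, ← mul_assoc, inv_mul_cancel₀ hcj0, one_mul]
      rw [h4, mul_neg, Finset.mul_sum, ← Finset.sum_neg_distrib]
      refine Finset.sum_congr rfl fun j _ => ?_
      ring
    rw [h2]
    refine Submodule.sum_mem _ fun j hj => ?_
    obtain ⟨hjne, hjF⟩ := Finset.mem_erase.1 hj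
    by_cases hc : c j = 0
    · rw [hc]; simp
    · have hlt : j < j0 := by
        by_contra hnl
        have h5 : j0 < j := lt_of_le_of_ne (not_lt.1 hnl) (Ne.symm hjne)
        have h6 : j ∈ F' := Finset.mem_filter.2 ⟨hjF, hc, hij0.trans h5.le⟩
        exact absurd (Finset.le_max' _ _ h6) (not_le.2 h5)
      have h7 : -(c j / c j0) * T G (X i n) j =
          (⟨T G (X i n) j, hTmem j hlt n⟩ : k0) • (-(c j / c j0)) := by
        rw [mul_comm]; rfl
      rw [h7]
      exact Submodule.smul_mem _ _ (Submodule.subset_span (by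
        rw [Finset.coe_image]; exact ⟨j, hjF, rfl⟩))
  have hW : LinearIndependent k0 (fun n => (⟨s n, hsW n⟩ : W)) := by
    apply LinearIndependent.of_comp W.subtype
    exact hsli
  haveI : Module.Finite k0 W := Module.Finite.span_finset k0 _
  have := hW.finite
  exact not_finite ℕ

end Pool.Agent.H6.NB
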