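import Mathlib

/-!
Bases and basic sequences in topological vector spaces over `𝕜 = ℝ` or `ℂ`.
-/

namespace Pool.Agent.H6.NB

open Filter Topology

/-- The sequence `x` is a basic sequence of `V`: every element `y` of the closure of the linear span
of the `x n` has a unique expansion `y = ∑ a n • x n` (the series converges in `V`, as the limit of
its partial sums). -/
def IsBasicSeq (𝕜 : Type*) {V : Type*} [RCLike 𝕜] [AddCommGroup V] [Module 𝕜 V]
    [TopologicalSpace V] (x : ℕ → V) : Prop :=
  ∀ y ∈ closure (Submodule.span 𝕜 (Set.range x) : Set V),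
    ∃! a : ℕ → 𝕜, Tendsto (fun N => ∑ n ∈ Finset.range N, a n • x n) atTop (𝓝 y)

end Pool.Agent.H6.NB
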