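import Pool.Agent.H6.NB2
import Pool.Agent.H6.NBDefs

namespace Pool.Agent.H6.NB

open Cardinal Filter Topology Set

variable {Λ : Type} {K : Type} [RCLike K] [LinearOrder Λ]

/-- density from finite dimensional linear algebra -/
theorem mem_closure_of {V : Submodule K (Λ → K)} (x : ℕ → V) (y : V)
    (h : ∀ (F : Finset Λ) (c : Λ → K), (∀ n, ∑ j ∈ F, c j * (x n : Λ → K) j = 0) →
      ∑ j ∈ F, c j * (y : Λ → K) j = 0) :
    y ∈ closure (Submodule.span K (Set.range x) : Set V) := by
  classical
  have hF : ∀ F : Finset Λ, ∃ v : V, v ∈ Submodule.span K (Set.range x) ∧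
      ∀ j ∈ F, (v : Λ → K) j = (y : Λ → K) j := by
    intro F
    let ρ : V →ₗ[K] (F → K) :=
      { toFun := fun v j => (v : Λ → K) j
        map_add' := fun _ _ => rfl
        map_smul' := fun _ _ => rfl }
    by_cases hy : ρ y ∈ (Submodule.span K (Set.range x)).map ρ
    · obtain ⟨v, hv, hvy⟩ := hy
      exact ⟨v, hv, fun j hj => congrFun hvy ⟨j, hj⟩⟩
    · exfalso
      obtain ⟨φ, hφ1, hφ2⟩ := Submodule.exists_dual_map_eq_bot_of_notMem hy inferInstance
      let c : Λ → K := fun j => if hj : j ∈ F then φ (Pi.single ⟨j, hj⟩ 1) else 0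
      have hφ : ∀ v : V, φ (ρ v) = ∑ j ∈ F, c j * (v : Λ → K) j := by
        intro v
        rw [LinearMap.pi_apply_eq_sum_univ φ (ρ v)]
        rw [← Finset.sum_coe_sort F]
        refine Finset.sum_congr rfl fun j _ => ?_
        have e1 : c j = φ (Pi.single j 1) := by simp [c]
        have e2 : (fun k : F => if j = k then (1 : K) else 0) = Pi.single j 1 := by
          funext k
          by_cases hk : j = k
          · subst hk; simp
          · rw [if_neg hk, Pi.single_eq_of_ne (Ne.symm hk)]
        rw [e1, e2, smul_eq_mul, mul_comm]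
        rfl
      apply hφ1
      rw [hφ]
      apply h
      intro n
      rw [← hφ]
      have : φ (ρ (x n)) ∈ ((Submodule.span K (Set.range x)).map ρ).map φ :=
        Submodule.mem_map_of_mem (Submodule.mem_map_of_mem (Submodule.subset_span ⟨n, rfl⟩))
      rw [hφ2] at this
      exact (Submodule.mem_bot K).1 this
  choose v hv hvy using hF
  refine mem_closure_of_tendsto (b := (atTop : Filter (Finset Λ))) (f := v) ?_
    (Filter.Eventually.of_forall fun F => hv F)
  rw [tendsto_subtype_rng, tendsto_pi_nhds]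
  intro j
  refine tendsto_const_nhds.congr' ?_
  filter_upwards [Filter.eventually_ge_atTop ({j} : Finset Λ)] with F hF
  exact (hvy F j (hF (Finset.mem_singleton_self j))).symm

/-- The main argument. -/
theorem not_basic (G : Λ → Λ → K) (X : Λ → ℕ → Λ →₀ K) (I : Λ → Λ) (A : Λ → ℕ → K)
    (hG : ∀ j, LinearIndependent (Subfield.closure (Sset X G j)) (G j) ∧
      ((∀ n, X (I j) n (I j) = 0) →
        ¬ Tendsto (psum (X (I j)) (A j) (G j)) atTop (𝓝 (G j (I j)))))
    (hX : ∀ u : ℕ → Λ →₀ K, ∃ i, X i = u ∧ ∀ n k, i ≤ k → u n k = 0)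
    (hA : ∀ (i : Λ) (a : ℕ → K), ∃ j, i < j ∧ I j = i ∧ A j = a)
    (x : ℕ → LinearMap.range (T G)) : ¬ IsBasicSeq K x := by
  intro hb
  -- lifts
  have hlift : ∀ n, ∃ u : Λ →₀ K, T G u = (x n : Λ → K) := fun n => (x n).2
  choose u hu using hlift
  obtain ⟨i, hi, hi'⟩ := hX u
  -- linear independence
  have hxli : LinearIndependent K x := by
    classical
    rw [linearIndependent_iff']
    intro s g hg n hn
    obtain ⟨a, -, ha⟩ := hb 0 (subset_closure (zero_mem _))
    have h1 : (fun _ => 0 : ℕ → K) = a := by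
      apply ha
      simp
    have h2 : (fun n => if n ∈ s then g n else 0 : ℕ → K) = a := by
      apply ha
      obtain ⟨N0, hN0⟩ := s.exists_nat_subset_range
      refine tendsto_const_nhds.congr' ?_
      filter_upwards [Filter.eventually_ge_atTop N0] with N hN
      have hsub : s ⊆ Finset.range N := hN0.trans (Finset.range_mono hN)
      simp only [ite_smul, zero_smul]
      rw [← Finset.sum_filter, Finset.filter_mem_eq_inter, Finset.inter_eq_right.2 hsub, hg]
    have h3 := congrFun (h1.trans h2.symm) n
    simp only [hn, if_true] at h3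
    exact h3.symm
  have huli : LinearIndependent K u := by
    have h1 : LinearIndependent K (fun n => (x n : Λ → K)) :=
      hxli.map' (LinearMap.range (T G)).subtype (Submodule.ker_subtype _)
    apply LinearIndependent.of_comp (T G)
    have e : (T G) ∘ u = fun n => (x n : Λ → K) := funext hu
    rw [e]; exact h1
  let y : LinearMap.range (T G) := ⟨T G (Finsupp.single i 1), ⟨_, rfl⟩⟩
  have hy : y ∈ closure (Submodule.span K (Set.range x) : Set (LinearMap.range (T G))) := by
    apply mem_closure_of
    intro F c h0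
    apply key G X (fun j => (hG j).1) i (by rw [hi]; exact hi') (by rw [hi]; exact huli) F c
    intro n
    rw [hi, hu]
    exact h0 n
  obtain ⟨a, ha, -⟩ := hb y hy
  obtain ⟨j, hij, hIj, hAj⟩ := hA i a
  have h1 := (hG j).2
  rw [hIj, hAj, hi] at h1
  apply h1 (fun n => hi' n i le_rfl)
  have h2 : Tendsto (fun N => ((∑ n ∈ Finset.range N, a n • x n : LinearMap.range (T G)) :
      Λ → K) j) atTop (𝓝 ((y : Λ → K) j)) :=
    ((continuous_apply j).comp continuous_subtype_val).continuousAt.tendsto.comp ha
  have e1 : (y : Λ → K) j = G j i := by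
    show T G (Finsupp.single i 1) j = _
    rw [T_single, M, if_pos hij]
  rw [e1] at h2
  refine h2.congr fun N => ?_
  unfold psum
  rw [Submodule.coe_sum, Finset.sum_apply]
  refine Finset.sum_congr rfl fun n _ => ?_
  rw [Submodule.coe_smul, Pi.smul_apply, smul_eq_mul, ← hu, T_lt G (u n) j (fun k hk => hi' n k (hij.le.trans hk))]

end Pool.Agent.H6.NB
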