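import Pool.Agent.H6.NB3

namespace Pool.Agent.H6.NB

open Cardinal Filter Topology Set

theorem bounded_seq {Λ : Type} [LinearOrder Λ] (hΛ : #Λ = 𝔠) (hIic : ∀ j : Λ, #(Set.Iic j) < 𝔠)
    (f : ℕ → Λ) : ∃ b, ∀ n, f n < b := by
  by_contra hcon
  push Not at hcon
  have h1 : (Set.univ : Set Λ) ⊆ ⋃ n, Set.Iic (f n) := by
    intro b _
    obtain ⟨n, hn⟩ := hcon b
    exact Set.mem_iUnion.2 ⟨n, hn⟩
  have h2 : 𝔠 ≤ Cardinal.sum (fun n : ℕ => #(Set.Iic (f n))) := by
    rw [← hΛ, ← Cardinal.mk_univ]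
    exact (Cardinal.mk_le_mk_of_subset h1).trans (Cardinal.mk_iUnion_le_sum_mk)
  have h3 : Cardinal.sum (fun n : ℕ => #(Set.Iic (f n))) < Cardinal.prod (fun _ : ℕ => 𝔠) :=
    Cardinal.sum_lt_prod _ _ (fun n => hIic (f n))
  have h4 : Cardinal.prod (fun _ : ℕ => (𝔠 : Cardinal.{0})) = 𝔠 := by
    rw [Cardinal.prod_const]
    simp
  rw [h4] at h3
  exact absurd h2 (not_le.2 h3)

theorem exists_space (K : Type) [RCLike K] :
    ∃ (Λ : Type) (V : Submodule K (Λ → K)), ¬ FiniteDimensional K V ∧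
      ∀ x : ℕ → V, ¬ IsBasicSeq K x := by
  classical
  let Λ : Type := (𝔠 : Cardinal.{0}).ord.ToType
  letI : LinearOrder Λ := inferInstance
  have hwf : WellFoundedLT Λ := inferInstance
  have hΛ : #Λ = 𝔠 := Cardinal.mk_ord_toType 𝔠
  have hsmall : ∀ j : Λ, #(Set.Iio j) < 𝔠 := fun j => Cardinal.mk_Iio_ord_toType j
  have hIic : ∀ j : Λ, #(Set.Iic j) < 𝔠 := by
    intro j
    have : (Set.Iic j) = insert j (Set.Iio j) := by
      ext x; simp [le_iff_eq_or_lt]
    rw [this]
    refine lt_of_le_of_lt (Cardinal.mk_insert_le) ?_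
    exact Cardinal.add_lt_of_lt Cardinal.aleph0_le_continuum (hsmall j)
      (Cardinal.one_lt_aleph0.trans Cardinal.aleph0_lt_continuum)
  haveI hinf : Infinite Λ := by
    rw [Cardinal.infinite_iff, hΛ]; exact Cardinal.aleph0_le_continuum
  haveI : Nonempty Λ := inferInstance
  -- bookkeeping
  have hfs : #(Λ →₀ K) = 𝔠 := by
    rw [Cardinal.mk_finsupp_of_infinite, hΛ, card_K, max_self]
  have hcard : #(((ℕ → Λ →₀ K) × Λ × (ℕ → K)) × Λ) = 𝔠 := by
    have e1 : #(ℕ → Λ →₀ K) = 𝔠 := by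
      rw [← Cardinal.power_def, hfs, Cardinal.mk_nat, Cardinal.continuum_power_aleph0]
    have e2 : #(ℕ → K) = 𝔠 := by
      rw [← Cardinal.power_def, card_K, Cardinal.mk_nat, Cardinal.continuum_power_aleph0]
    simp only [Cardinal.mk_prod, Cardinal.lift_id, e1, e2, hΛ, Cardinal.continuum_mul_self]
  obtain ⟨e⟩ : Nonempty (Λ ≃ ((ℕ → Λ →₀ K) × Λ × (ℕ → K)) × Λ) :=
    Cardinal.eq.1 (hΛ.trans hcard.symm)
  have hbk : ∀ (t : (ℕ → Λ →₀ K) × Λ × (ℕ → K)) (b : Λ), ∃ i, b < i ∧ (e i).1 = t := by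
    intro t b
    by_contra hcon
    push Not at hcon
    have hmem : ∀ l : Λ, e.symm (t, l) ∈ Set.Iic b := by
      intro l
      by_contra hl
      exact hcon _ (not_le.1 hl) (by simp)
    have hinj : Function.Injective (fun l : Λ => (⟨e.symm (t, l), hmem l⟩ : Set.Iic b)) := by
      intro l l' h
      have h1 : e.symm (t, l) = e.symm (t, l') := congrArg Subtype.val h
      have h2 := e.symm.injective h1
      exact congrArg Prod.snd h2
    have := Cardinal.mk_le_of_injective hinj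
    rw [hΛ] at this
    exact absurd this (not_le.2 (hIic b))
  let X : Λ → ℕ → Λ →₀ K := fun i => (e i).1.1
  let I : Λ → Λ := fun i => (e i).1.2.1
  let A : Λ → ℕ → K := fun i => (e i).1.2.2
  obtain ⟨G, hG⟩ := exists_G (K := K) hΛ hsmall X I A
  refine ⟨Λ, LinearMap.range (T G), ?_, ?_⟩
  · intro hfin
    have h1 : LinearIndependent K (fun i : Λ => (Finsupp.single i 1 : Λ →₀ K)) :=
      Finsupp.linearIndependent_single_one K Λ
    have h2 : LinearIndependent K (fun i : Λ => (T G).rangeRestrict (Finsupp.single i 1)) := by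
      refine h1.map' (T G).rangeRestrict ?_
      rw [LinearMap.ker_rangeRestrict, LinearMap.ker_eq_bot]
      exact T_injective G
    have := h2.finite
    exact not_finite Λ
  · intro x
    refine not_basic G X I A hG ?_ ?_ x
    · intro u
      have hb : ∀ n, ∃ m, ∀ k ∈ (u n).support, k ≤ m := fun n => (u n).support.exists_le
      choose f hf using hb
      obtain ⟨b, hbd⟩ := bounded_seq hΛ hIic f
      obtain ⟨i, hbi, hi⟩ := hbk (u, b, fun _ => 0) b
      refine ⟨i, ?_, ?_⟩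
      · show (e i).1.1 = u
        rw [hi]
      · intro n k hik
        by_contra hne
        have h1 := hf n k (Finsupp.mem_support_iff.2 hne)
        exact absurd (hik.trans h1) (not_le.2 ((hbd n).trans hbi))
    · intro i a
      obtain ⟨j, hij, hj⟩ := hbk (fun _ => 0, i, a) i
      refine ⟨j, hij, ?_, ?_⟩
      · show (e j).1.2.1 = i
        rw [hj]
      · show (e j).1.2.2 = a
        rw [hj]

end Pool.Agent.H6.NB
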