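import Pool.Agent.H6.NB4

namespace Pool.Agent.H6.NB

open Filter Topology Set

theorem main (𝕜 : Type) [RCLike 𝕜] :
    ∃ (V : Type) (_ : AddCommGroup V) (_ : Module 𝕜 V) (_ : Module ℝ V) (_ : IsScalarTower ℝ 𝕜 V)
      (_ : TopologicalSpace V),
      IsTopologicalAddGroup V ∧ ContinuousSMul 𝕜 V ∧ LocallyConvexSpace ℝ V ∧ T2Space V ∧
      ¬ FiniteDimensional 𝕜 V ∧ ∀ x : ℕ → V, ¬ IsBasicSeq 𝕜 x := by
  obtain ⟨Λ, V, h1, h2⟩ := exists_space 𝕜
  refine ⟨V, inferInstance, inferInstance, inferInstance, inferInstance, inferInstance,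
    inferInstance, inferInstance, ?_, inferInstance, h1, h2⟩
  exact Topology.IsInducing.locallyConvexSpace (𝕜 := ℝ) (f := V.subtype.restrictScalars ℝ)
    Topology.IsInducing.subtypeVal

end Pool.Agent.H6.NB
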