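import Mathlib

namespace Pool.Agent.H6.NC

open MeasureTheory Metric Set
open scoped ENNReal RealInnerProductSpace

abbrev E (m : ℕ) := EuclideanSpace ℝ (Fin (m + 1))

def S (m : ℕ) : Set (E m) := {x | |x 0| ≤ 1 / 8 ∧ ‖x‖ ^ 2 - 2 * (x 0) ^ 2 ≤ 1}

theorem norm_S {m : ℕ} {x : E m} (hx : x ∈ S m) : ‖x‖ ≤ 127 / 125 := by
  obtain ⟨h1, h2⟩ := hx
  have h3 : (x 0) ^ 2 ≤ 1 / 64 := by
    have := sq_le_sq' (by linarith [abs_le.1 h1]) (abs_le.1 h1).2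
    nlinarith [abs_le.1 h1]
  by_contra h
  push Not at h
  nlinarith [norm_nonneg x]

theorem convex_sec {m : ℕ} {x y : E m} (hx : |x 0| ≤ 1 / 8) (hy : |y 0| ≤ 1 / 8)
    (hx2 : 1 / 2 ≤ ‖x‖) (hy2 : 1 / 2 ≤ ‖y‖) (hxy : |(inner ℝ x y)| ≤ 1 / 2 * (‖x‖ * ‖y‖)) :
    Convex ℝ (S m ∩ (Submodule.span ℝ {x, y} : Set (E m))) := by
  have key : ∀ z ∈ Submodule.span ℝ {x, y}, 0 ≤ ‖z‖ ^ 2 - 2 * (z 0) ^ 2 := by
    intro z hz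
    obtain ⟨a, b, rfl⟩ := Submodule.mem_span_pair.1 hz
    have e : ‖a • x + b • y‖ ^ 2 = a ^ 2 * ‖x‖ ^ 2 + 2 * (a * b) * (inner ℝ x y) + b ^ 2 * ‖y‖ ^ 2 := by
      rw [norm_add_sq_real, norm_smul, norm_smul, inner_smul_left, inner_smul_right, mul_pow,
        mul_pow, Real.norm_eq_abs, Real.norm_eq_abs, sq_abs, sq_abs]
      simp; ring
    rw [e]
    have e0 : (a • x + b • y) 0 = a * x 0 + b * y 0 := by simp
    rw [e0]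
    have h1 : (a * x 0 + b * y 0) ^ 2 ≤ (a ^ 2 + b ^ 2) * (1 / 32) := by
      have hx3 : (x 0) ^ 2 ≤ 1 / 64 := by
        nlinarith [abs_le.1 hx]
      have hy3 : (y 0) ^ 2 ≤ 1 / 64 := by
        nlinarith [abs_le.1 hy]
      nlinarith [sq_nonneg (a * x 0 - b * y 0), mul_nonneg (sq_nonneg a) (sub_nonneg.2 hx3),
        mul_nonneg (sq_nonneg b) (sub_nonneg.2 hy3)]
    have h2 : -(a ^ 2 * ‖x‖ ^ 2 + b ^ 2 * ‖y‖ ^ 2) / 2 ≤ 2 * (a * b) * (inner ℝ x y) := by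
      have h3 : |2 * (a * b) * (inner ℝ x y)| ≤ |a| * ‖x‖ * (|b| * ‖y‖) := by
        rw [abs_mul, abs_mul, abs_mul]
        have : |(2 : ℝ)| = 2 := abs_of_pos two_pos
        rw [this]
        calc 2 * (|a| * |b|) * |(inner ℝ x y)| ≤ 2 * (|a| * |b|) * (1 / 2 * (‖x‖ * ‖y‖)) := by gcongr
          _ = |a| * ‖x‖ * (|b| * ‖y‖) := by ring
      have h4 : |a| * ‖x‖ * (|b| * ‖y‖) ≤ (a ^ 2 * ‖x‖ ^ 2 + b ^ 2 * ‖y‖ ^ 2) / 2 := by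
        have := sq_nonneg (|a| * ‖x‖ - |b| * ‖y‖)
        have ha : |a| ^ 2 = a ^ 2 := sq_abs a
        have hb : |b| ^ 2 = b ^ 2 := sq_abs b
        nlinarith
      have := neg_abs_le (2 * (a * b) * (inner ℝ x y))
      linarith
    have h5 : a ^ 2 * (1 / 4) ≤ a ^ 2 * ‖x‖ ^ 2 := by
      apply mul_le_mul_of_nonneg_left _ (sq_nonneg a); nlinarith
    have h6 : b ^ 2 * (1 / 4) ≤ b ^ 2 * ‖y‖ ^ 2 := by
      apply mul_le_mul_of_nonneg_left _ (sq_nonneg b); nlinarith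
    nlinarith
  rintro u ⟨⟨hu1, hu2⟩, hu3⟩ v ⟨⟨hv1, hv2⟩, hv3⟩ a b ha hb hab
  refine ⟨⟨?_, ?_⟩, (Submodule.span ℝ {x, y}).convex hu3 hv3 ha hb hab⟩
  · have e0 : (a • u + b • v) 0 = a * u 0 + b * v 0 := by simp
    rw [e0, abs_le]
    rw [abs_le] at hu1 hv1
    constructor <;> nlinarith
  · have h1 := key (u - v) (Submodule.sub_mem _ hu3 hv3)
    have e1 : ‖u - v‖ ^ 2 = ‖u‖ ^ 2 - 2 * (inner ℝ u v) + ‖v‖ ^ 2 := norm_sub_sq_real u v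
    have e : ‖a • u + b • v‖ ^ 2 = a ^ 2 * ‖u‖ ^ 2 + 2 * (a * b) * (inner ℝ u v) + b ^ 2 * ‖v‖ ^ 2 := by
      rw [norm_add_sq_real, norm_smul, norm_smul, inner_smul_left, inner_smul_right, mul_pow,
        mul_pow, Real.norm_eq_abs, Real.norm_eq_abs, sq_abs, sq_abs]
      simp; ring
    have e0 : (a • u + b • v) 0 = a * u 0 + b * v 0 := by simp
    have e2 : (u - v) 0 = u 0 - v 0 := by simp
    rw [e1, e2] at h1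
    rw [e, e0]
    have hb' : b = 1 - a := by linarith
    have h7 : 2 * ((inner ℝ u v) - 2 * (u 0 * v 0)) ≤ 2 := by nlinarith
    have h8 : 0 ≤ a * b := mul_nonneg ha hb
    have h9 : a ^ 2 * (‖u‖ ^ 2 - 2 * (u 0) ^ 2) ≤ a ^ 2 * 1 :=
      mul_le_mul_of_nonneg_left hu2 (sq_nonneg a)
    have h10 : b ^ 2 * (‖v‖ ^ 2 - 2 * (v 0) ^ 2) ≤ b ^ 2 * 1 :=
      mul_le_mul_of_nonneg_left hv2 (sq_nonneg b)
    have h11 : (a * b) * (2 * ((inner ℝ u v) - 2 * (u 0 * v 0))) ≤ (a * b) * 2 :=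
      mul_le_mul_of_nonneg_left h7 h8
    have h12 : a ^ 2 * 1 + (a * b) * 2 + b ^ 2 * 1 = 1 := by rw [hb']; ring
    nlinarith

theorem cap {m : ℕ} {x y : E m} (hx : x ≠ 0) (hy : y ∈ S m)
    (h : 1 / 2 * (‖x‖ * ‖y‖) ≤ (inner ℝ x y)) :
    y ∈ closedBall ((1 / 2 : ℝ) • (‖x‖⁻¹ • x)) (9 / 10) := by
  have hn := norm_S hy
  have hx0 : 0 < ‖x‖ := norm_pos_iff.2 hx
  rw [mem_closedBall, dist_eq_norm]
  have e : ‖y - (1 / 2 : ℝ) • (‖x‖⁻¹ • x)‖ ^ 2 = ‖y‖ ^ 2 - ‖x‖⁻¹ * (inner ℝ x y) + 1 / 4 := by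
    rw [norm_sub_sq_real, norm_smul, norm_smul, inner_smul_right, inner_smul_right,
      real_inner_comm x y, norm_inv, norm_norm, inv_mul_cancel₀ hx0.ne']
    norm_num
    ring
  have h1 : 1 / 2 * ‖y‖ ≤ ‖x‖⁻¹ * (inner ℝ x y) := by
    calc 1 / 2 * ‖y‖ = ‖x‖⁻¹ * (1 / 2 * (‖x‖ * ‖y‖)) := by
          field_simp
      _ ≤ _ := mul_le_mul_of_nonneg_left h (inv_nonneg.2 hx0.le)
  have h2 : ‖y - (1 / 2 : ℝ) • (‖x‖⁻¹ • x)‖ ^ 2 ≤ (9 / 10) ^ 2 := by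
    rw [e]
    nlinarith [norm_nonneg y]
  exact (sq_le_sq₀ (norm_nonneg _) (by norm_num)).1 h2

end Pool.Agent.H6.NC
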