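import Pool.Agent.H6.NC1

namespace Pool.Agent.H6.NC

open MeasureTheory Metric Set
open scoped ENNReal RealInnerProductSpace

noncomputable def e0 (m : ℕ) : E m := EuclideanSpace.single (0 : Fin (m + 1)) (1 : ℝ)

theorem coord {m : ℕ} (x : E m) (t : ℝ) : (x + t • e0 m) 0 = x 0 + t := by
  simp [e0]

theorem nrm {m : ℕ} (x : E m) (t : ℝ) : ‖x + t • e0 m‖ ^ 2 = ‖x‖ ^ 2 + 2 * t * x 0 + t ^ 2 := by
  have h1 : inner ℝ x (e0 m) = x 0 := by
    rw [e0, EuclideanSpace.inner_single_right]; simp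
  have h2 : ‖e0 m‖ = 1 := by rw [e0, EuclideanSpace.norm_single]; simp
  rw [norm_add_sq_real, inner_smul_right, h1, norm_smul, h2, Real.norm_eq_abs, mul_one, sq_abs]
  ring

theorem vol_cball {m : ℕ} (x : E m) {r : ℝ} (hr : 0 ≤ r) :
    volume (closedBall x r) = ENNReal.ofReal (r ^ (m + 1)) * volume (ball (0 : E m) 1) := by
  rw [Measure.addHaar_closedBall _ _ hr, finrank_euclideanSpace_fin]

def W (m : ℕ) : Set (E m) :=
  closedBall 0 (10019 / 10000) \ (closedBall ((1 / 32 : ℝ) • e0 m) (10015 / 10000) ∪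
    closedBall ((-1 / 32 : ℝ) • e0 m) (10015 / 10000) ∪ closedBall 0 (1001 / 1000))

def U (m : ℕ) : Set (E m) :=
  {y | y ∈ S m ∧ 1 / 16 ≤ y 0 ∧ 1 + 1 / 1024 < ‖y‖ ^ 2 - (y 0) ^ 2}

theorem W_sub {m : ℕ} : W m ⊆ (fun x => x + (3 / 32 : ℝ) • e0 m) ⁻¹' (U m) := by
  rintro x ⟨h1, h2⟩
  rw [mem_closedBall_zero_iff] at h1
  simp only [mem_union, not_or, mem_closedBall, dist_eq_norm, not_le] at h2
  obtain ⟨⟨h3, h4⟩, h5⟩ := h2
  rw [sub_zero] at h5
  have e3 : ‖x - (1 / 32 : ℝ) • e0 m‖ ^ 2 = ‖x‖ ^ 2 - 1 / 16 * x 0 + 1 / 1024 := by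
    have := nrm x (-(1 / 32))
    rw [neg_smul, ← sub_eq_add_neg] at this
    rw [this]; ring
  have e4 : ‖x - (-1 / 32 : ℝ) • e0 m‖ ^ 2 = ‖x‖ ^ 2 + 1 / 16 * x 0 + 1 / 1024 := by
    have := nrm x (1 / 32)
    have e : x - (-1 / 32 : ℝ) • e0 m = x + (1 / 32 : ℝ) • e0 m := by
      rw [show (-1 / 32 : ℝ) = -(1 / 32) by norm_num, neg_smul, sub_neg_eq_add]
    rw [e, this]; ring
  have h1' : ‖x‖ ^ 2 ≤ (10019 / 10000) ^ 2 := pow_le_pow_left₀ (norm_nonneg _) h1 2
  have h3' : (10015 / 10000 : ℝ) ^ 2 < ‖x‖ ^ 2 - 1 / 16 * x 0 + 1 / 1024 := by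
    rw [← e3]; exact pow_lt_pow_left₀ h3 (by norm_num) two_ne_zero
  have h4' : (10015 / 10000 : ℝ) ^ 2 < ‖x‖ ^ 2 + 1 / 16 * x 0 + 1 / 1024 := by
    rw [← e4]; exact pow_lt_pow_left₀ h4 (by norm_num) two_ne_zero
  have h5' : (1001 / 1000 : ℝ) ^ 2 < ‖x‖ ^ 2 := pow_lt_pow_left₀ h5 (by norm_num) two_ne_zero
  have hx1 : x 0 ≤ 1 / 32 := by
    norm_num at h1' h3' ⊢; linarith
  have hx2 : -(1 / 32) ≤ x 0 := by
    norm_num at h1' h4' ⊢; linarith
  have hx3 : (x 0) ^ 2 ≤ 1 / 1024 := by nlinarith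
  show x + (3 / 32 : ℝ) • e0 m ∈ U m
  unfold U S
  simp only [mem_setOf_eq]
  rw [nrm, coord]
  norm_num at h1' h5'
  refine ⟨⟨?_, ?_⟩, ?_, ?_⟩
  · rw [abs_le]; constructor <;> linarith
  · nlinarith
  · linarith
  · nlinarith

theorem vol_U {m : ℕ} (hm : 3 * (10015 / 10000 : ℝ) ^ (m + 1) + 1 ≤ (10019 / 10000 : ℝ) ^ (m + 1)) :
    volume (ball (0 : E m) 1) ≤ volume (U m) := by
  have h1 : volume (W m) ≤ volume (U m) := by
    refine (measure_mono W_sub).trans ?_
    rw [measure_preimage_add_right]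
  refine le_trans ?_ h1
  refine le_trans ?_ (le_measure_diff (μ := volume) (s₁ := closedBall (0 : E m) (10019 / 10000)))
  set B := volume (ball (0 : E m) 1) with hB
  have hBfin : B ≠ ∞ := measure_ball_lt_top.ne
  have hu : volume (closedBall ((1 / 32 : ℝ) • e0 m) (10015 / 10000) ∪
    closedBall ((-1 / 32 : ℝ) • e0 m) (10015 / 10000) ∪ closedBall 0 (1001 / 1000)) ≤
      ENNReal.ofReal (3 * (10015 / 10000 : ℝ) ^ (m + 1)) * B := by
    refine (measure_union_le _ _).trans ?_
    refine (add_le_add (measure_union_le _ _) le_rfl).trans ?_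
    rw [vol_cball _ (by norm_num), vol_cball _ (by norm_num), vol_cball _ (by norm_num), ← hB,
      ← add_mul, ← add_mul, ← ENNReal.ofReal_add (by positivity) (by positivity),
      ← ENNReal.ofReal_add (by positivity) (by positivity)]
    gcongr
    have : (1001 / 1000 : ℝ) ^ (m + 1) ≤ (10015 / 10000 : ℝ) ^ (m + 1) :=
      pow_le_pow_left₀ (by norm_num) (by norm_num) _
    linarith
  have hfin : ENNReal.ofReal (3 * (10015 / 10000 : ℝ) ^ (m + 1)) * B ≠ ∞ :=
    ENNReal.mul_ne_top ENNReal.ofReal_ne_top hBfin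
  apply ENNReal.le_sub_of_add_le_right (ne_top_of_le_ne_top hfin hu)
  refine (add_le_add le_rfl hu).trans ?_
  rw [vol_cball _ (by norm_num), ← hB]
  calc B + ENNReal.ofReal (3 * (10015 / 10000 : ℝ) ^ (m + 1)) * B
      = ENNReal.ofReal (3 * (10015 / 10000 : ℝ) ^ (m + 1) + 1) * B := by
        rw [ENNReal.ofReal_add (by positivity) zero_le_one, add_mul, ENNReal.ofReal_one, one_mul,
          add_comm]
    _ ≤ ENNReal.ofReal ((10019 / 10000 : ℝ) ^ (m + 1)) * B := by
        gcongr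

noncomputable def σ (m : ℕ) : E m ≃ₗᵢ[ℝ] E m :=
  LinearIsometryEquiv.piLpCongrRight 2
    (fun i : Fin (m + 1) => if i = 0 then LinearIsometryEquiv.neg ℝ else LinearIsometryEquiv.refl ℝ ℝ)

theorem σ_apply {m : ℕ} (x : E m) (i : Fin (m + 1)) :
    (σ m x) i = if i = 0 then - x 0 else x i := by
  unfold σ
  rw [LinearIsometryEquiv.piLpCongrRight_apply]
  by_cases h : i = 0
  · subst h; simp
  · simp [h]

theorem σ_S {m : ℕ} {x : E m} (hx : x ∈ S m) : σ m x ∈ S m := by
  unfold S at *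
  simp only [mem_setOf_eq] at *
  rw [LinearIsometryEquiv.norm_map, σ_apply]
  simpa using hx

theorem measurable_S (m : ℕ) : IsClosed (S m) := by
  have h0 : Continuous (fun x : E m => x 0) := by fun_prop
  exact (isClosed_le (continuous_abs.comp h0) continuous_const).inter
    (isClosed_le (((continuous_norm).pow 2).sub (continuous_const.mul (h0.pow 2))) continuous_const)

theorem symm_lower {m : ℕ} (C : Set (E m)) (hC : IsCompact C) (hCc : Convex ℝ C) :
    volume (U m) ≤ 3 * volume (symmDiff (S m) C) := by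
  set D := symmDiff (S m) C with hD
  have hmeas : MeasurableSet D := (measurable_S m).measurableSet.symmDiff hC.measurableSet
  have hsub : U m ⊆ D ∪ (σ m) ⁻¹' D ∪ (fun x => x + (-(3 / 32) : ℝ) • e0 m) ⁻¹' D := by
    intro x hx
    obtain ⟨hxS, hx0, hx1⟩ := hx
    by_cases h1 : x ∈ C
    · by_cases h2 : σ m x ∈ C
      · right
        show x + (-(3 / 32) : ℝ) • e0 m ∈ D
        rw [hD, mem_symmDiff]
        right
        have hx8 : x 0 ≤ 1 / 8 := (abs_le.1 hxS.1).2
        have hpos : 0 < x 0 := by linarith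
        constructor
        · have hb : 3 / 32 / (2 * x 0) ≤ 1 := by
            rw [div_le_one (by positivity)]; linarith
          have := hCc h1 h2 (a := 1 - 3 / 32 / (2 * x 0)) (b := 3 / 32 / (2 * x 0))
            (by linarith) (by positivity) (by ring)
          convert this using 1
          ext i
          by_cases hi : i = 0
          · subst hi
            rw [coord]
            simp only [PiLp.add_apply, PiLp.smul_apply, smul_eq_mul, σ_apply, if_true]
            field_simp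
            ring
          · simp only [PiLp.add_apply, PiLp.smul_apply, smul_eq_mul, σ_apply, if_neg hi, e0,
              EuclideanSpace.single_apply]
            ring
        · intro hS
          obtain ⟨-, hS2⟩ := hS
          rw [nrm, coord] at hS2
          nlinarith
      · left; right
        show σ m x ∈ D
        rw [hD, mem_symmDiff]
        exact Or.inl ⟨σ_S hxS, h2⟩
    · left; left
      rw [hD, mem_symmDiff]
      exact Or.inl ⟨hxS, h1⟩
  refine (measure_mono hsub).trans ?_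
  refine (measure_union_le _ _).trans ?_
  refine (add_le_add (measure_union_le _ _) le_rfl).trans ?_
  rw [measure_preimage_add_right, ((σ m).measurePreserving).measure_preimage
    hmeas.nullMeasurableSet]
  apply le_of_eq; ring

end Pool.Agent.H6.NC
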