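import Pool.Agent.H6.NC2

namespace Pool.Agent.H6.NC

open MeasureTheory Metric Set
open scoped ENNReal RealInnerProductSpace

theorem vol_A {m : ℕ} (f : E m → E m) (hf : Measurable f) (r : ℝ) :
    ((volume : Measure (E m)).prod volume) {p | p.1 ∈ S m ∧ p.2 ∈ closedBall (f p.1) r} ≤
      volume (closedBall (0 : E m) r) * volume (S m) := by
  have hmeas : MeasurableSet {p : E m × E m | p.1 ∈ S m ∧ p.2 ∈ closedBall (f p.1) r} :=
    (measurable_fst (measurable_S m).measurableSet).inter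
      (measurableSet_le ((measurable_snd).dist (hf.comp measurable_fst)) measurable_const)
  rw [Measure.prod_apply hmeas]
  refine (lintegral_mono (g := (S m).indicator (fun _ => volume (closedBall (0 : E m) r))) ?_).trans
    ?_
  · intro x
    by_cases hx : x ∈ S m
    · rw [indicator_of_mem hx]
      have : Prod.mk x ⁻¹' {p : E m × E m | p.1 ∈ S m ∧ p.2 ∈ closedBall (f p.1) r} ⊆
          closedBall (f x) r := fun y hy => hy.2
      refine (measure_mono this).trans ?_
      by_cases hr : 0 ≤ r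
      · rw [vol_cball _ hr, vol_cball _ hr]
      · rw [closedBall_eq_empty.2 (not_le.1 hr)]; simp
    · rw [indicator_of_notMem hx]
      have : Prod.mk x ⁻¹' {p : E m × E m | p.1 ∈ S m ∧ p.2 ∈ closedBall (f p.1) r} = ∅ := by
        ext y
        simp only [mem_preimage, mem_setOf_eq, mem_empty_iff_false, iff_false, not_and]
        exact fun h => absurd h hx
      show volume (Prod.mk x ⁻¹' {p : E m × E m | p.1 ∈ S m ∧ p.2 ∈ closedBall (f p.1) r}) ≤ 0
      rw [this]; simp
  · rw [lintegral_indicator_const (measurable_S m).measurableSet]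

theorem bad_sub (m : ℕ) :
    {p : E m × E m | p.1 ∈ S m ∧ p.2 ∈ S m ∧
      ¬ Convex ℝ (S m ∩ (Submodule.span ℝ {p.1, p.2} : Set (E m)))} ⊆
    (((closedBall (0 : E m) (9 / 10)) ×ˢ S m) ∪ (S m ×ˢ (closedBall (0 : E m) (9 / 10)))) ∪
      ({p : E m × E m | p.1 ∈ S m ∧ p.2 ∈ closedBall ((1 / 2 : ℝ) • (‖p.1‖⁻¹ • p.1)) (9 / 10)} ∪
      {p : E m × E m | p.1 ∈ S m ∧ p.2 ∈ closedBall (-((1 / 2 : ℝ) • (‖p.1‖⁻¹ • p.1))) (9 / 10)}) := by
  rintro ⟨x, y⟩ ⟨hx, hy, hc⟩
  simp only at hx hy hc
  by_cases h1 : 1 / 2 ≤ ‖x‖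
  · by_cases h2 : 1 / 2 ≤ ‖y‖
    · right
      have hx0 : x ≠ 0 := by
        rintro rfl
        rw [norm_zero] at h1
        norm_num at h1
      by_cases h3 : 1 / 2 * (‖x‖ * ‖y‖) ≤ inner ℝ x y
      · left
        exact ⟨hx, cap hx0 hy h3⟩
      · right
        refine ⟨hx, ?_⟩
        have h4 : 1 / 2 * (‖-x‖ * ‖y‖) ≤ inner ℝ (-x) y := by
          rw [norm_neg, inner_neg_left]
          by_contra h5
          apply hc
          apply convex_sec hx.1 hy.1 h1 h2
          rw [abs_le]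
          constructor <;> linarith
        have := cap (neg_ne_zero.2 hx0) hy h4
        rw [norm_neg, smul_neg, smul_neg] at this
        exact this
    · left; right
      refine ⟨hx, ?_⟩
      show y ∈ closedBall (0 : E m) (9 / 10)
      rw [mem_closedBall_zero_iff]; linarith
  · left; left
    refine ⟨?_, hy⟩
    show x ∈ closedBall (0 : E m) (9 / 10)
    rw [mem_closedBall_zero_iff]; linarith

theorem vol_bad {m : ℕ} (hB : volume (ball (0 : E m) 1) ≤ volume (S m)) :
    ((volume : Measure (E m)).prod volume) {p : E m × E m | p.1 ∈ S m ∧ p.2 ∈ S m ∧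
      ¬ Convex ℝ (S m ∩ (Submodule.span ℝ {p.1, p.2} : Set (E m)))} ≤
      ENNReal.ofReal (4 * (9 / 10) ^ (m + 1)) * volume (S m) ^ 2 := by
  refine (measure_mono (bad_sub m)).trans ?_
  refine (measure_union_le _ _).trans ?_
  have hf : Measurable (fun x : E m => (1 / 2 : ℝ) • (‖x‖⁻¹ • x)) := by fun_prop
  have h1 := vol_A (m := m) _ hf (9 / 10)
  have h2 := vol_A (m := m) _ hf.neg (9 / 10)
  have h3 := vol_cball (m := m) 0 (show (0 : ℝ) ≤ 9 / 10 by norm_num)
  have h4 : volume (closedBall (0 : E m) (9 / 10)) ≤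
      ENNReal.ofReal ((9 / 10) ^ (m + 1)) * volume (S m) := by
    rw [h3]; gcongr
  calc _ ≤ (volume (closedBall (0 : E m) (9 / 10)) * volume (S m) +
        volume (S m) * volume (closedBall (0 : E m) (9 / 10))) +
        (volume (closedBall (0 : E m) (9 / 10)) * volume (S m) +
          volume (closedBall (0 : E m) (9 / 10)) * volume (S m)) := by
        refine add_le_add ((measure_union_le _ _).trans ?_) ((measure_union_le _ _).trans
          (add_le_add h1 h2))
        rw [Measure.prod_prod, Measure.prod_prod]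
    _ = 4 * (volume (closedBall (0 : E m) (9 / 10)) * volume (S m)) := by ring
    _ ≤ 4 * ((ENNReal.ofReal ((9 / 10) ^ (m + 1)) * volume (S m)) * volume (S m)) := by gcongr
    _ = ENNReal.ofReal (4 * (9 / 10) ^ (m + 1)) * volume (S m) ^ 2 := by
        rw [ENNReal.ofReal_mul (by norm_num)]
        have : ENNReal.ofReal 4 = 4 := by norm_num
        rw [this]; ring

theorem compact_S (m : ℕ) : IsCompact (S m) := by
  refine Metric.isCompact_of_isClosed_isBounded (measurable_S m) ?_
  refine (isBounded_closedBall (x := (0 : E m)) (r := 127 / 125)).subset ?_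
  intro x hx
  rw [mem_closedBall_zero_iff]
  exact norm_S hx

theorem centroid (m : ℕ) : (∫ x in S m, x ∂volume) = 0 := by
  rw [← integral_indicator (measurable_S m).measurableSet]
  have h := integral_neg_eq_self (fun x : E m => (S m).indicator (fun x => x) x) volume
  have hsymm : ∀ x : E m, -x ∈ S m ↔ x ∈ S m := by
    intro x
    unfold S
    simp only [mem_setOf_eq, norm_neg, PiLp.neg_apply, abs_neg, neg_sq]
  have h2 : (fun x : E m => (S m).indicator (fun x => x) (-x)) =
      fun x : E m => -((S m).indicator (fun x => x) x) := by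
    funext x
    by_cases hx : x ∈ S m
    · rw [indicator_of_mem hx, indicator_of_mem ((hsymm x).2 hx)]
    · rw [indicator_of_notMem hx, indicator_of_notMem (fun h => hx ((hsymm x).1 h)), neg_zero]
  rw [h2, integral_neg] at h
  have h3 : (2 : ℝ) • (∫ x : E m, (S m).indicator (fun x => x) x) = 0 := by
    rw [two_smul]
    nth_rewrite 1 [← h]
    simp
  exact (smul_eq_zero.1 h3).resolve_left two_ne_zero

theorem exists_m (c : ℝ) : ∃ m : ℕ,
    3 * (10015 / 10000 : ℝ) ^ (m + 1) + 1 ≤ (10019 / 10000 : ℝ) ^ (m + 1) ∧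
    3 * (c * ((m + 1 : ℕ) : ℝ) * (4 * (9 / 10) ^ (m + 1))) * (127 / 125) ^ (m + 1) < 1 := by
  have t1 : Filter.Tendsto (fun n : ℕ => 3 * (10015 / 10019 : ℝ) ^ n + (10000 / 10019 : ℝ) ^ n)
      Filter.atTop (nhds (3 * 0 + 0)) :=
    ((tendsto_pow_atTop_nhds_zero_of_lt_one (by norm_num) (by norm_num)).const_mul 3).add
      (tendsto_pow_atTop_nhds_zero_of_lt_one (by norm_num) (by norm_num))
  have t2 : Filter.Tendsto (fun n : ℕ => 12 * c * ((n : ℝ) * (1143 / 1250 : ℝ) ^ n))
      Filter.atTop (nhds (12 * c * 0)) :=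
    (tendsto_self_mul_const_pow_of_lt_one (by norm_num) (by norm_num)).const_mul _
  have e1 := t1.eventually (gt_mem_nhds (show (3 * 0 + 0 : ℝ) < 1 by norm_num))
  have e2 := t2.eventually (gt_mem_nhds (show (12 * c * 0 : ℝ) < 1 by simp))
  obtain ⟨n, ⟨h1, h2⟩, h3⟩ := ((e1.and e2).and (Filter.eventually_ge_atTop 1)).exists
  obtain ⟨m, rfl⟩ : ∃ m, n = m + 1 := ⟨n - 1, by omega⟩
  refine ⟨m, ?_, ?_⟩
  · have hp : (0 : ℝ) < (10019 / 10000 : ℝ) ^ (m + 1) := by positivity
    have := mul_le_mul_of_nonneg_right h1.le hp.le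
    rw [add_mul, mul_assoc, ← mul_pow, ← mul_pow, one_mul] at this
    norm_num at this ⊢
    exact this
  · have e : 3 * (c * ((m + 1 : ℕ) : ℝ) * (4 * (9 / 10) ^ (m + 1))) * (127 / 125) ^ (m + 1) =
        12 * c * (((m + 1 : ℕ) : ℝ) * (1143 / 1250 : ℝ) ^ (m + 1)) := by
      have : (1143 / 1250 : ℝ) = (9 / 10) * (127 / 125) := by norm_num
      rw [this, mul_pow]; ring
    rw [e]; exact h2

theorem main : ¬ (∃ c : ℝ, 0 < c ∧
      ∀ (n : ℕ) (S : Set (EuclideanSpace ℝ (Fin n))),
        IsCompact S → 0 < MeasureTheory.volume S →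
        (∫ x in S, x ∂MeasureTheory.volume) = 0 →
        ∀ ε : ℝ, 0 ≤ ε →
          (MeasureTheory.volume.prod MeasureTheory.volume)
              {p : EuclideanSpace ℝ (Fin n) × EuclideanSpace ℝ (Fin n) |
                p.1 ∈ S ∧ p.2 ∈ S ∧
                  ¬ Convex ℝ (S ∩ (Submodule.span ℝ {p.1, p.2} : Set (EuclideanSpace ℝ (Fin n))))}
            ≤ ENNReal.ofReal ε * MeasureTheory.volume S ^ 2 →
          ∃ C : Set (EuclideanSpace ℝ (Fin n)),
            IsCompact C ∧ Convex ℝ C ∧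
              MeasureTheory.volume (symmDiff S C)
                ≤ ENNReal.ofReal (c * (n : ℝ) * ε) * MeasureTheory.volume S) := by
  rintro ⟨c, hc, h⟩
  obtain ⟨m, hm1, hm2⟩ := exists_m c
  have hU := vol_U hm1
  have hUS : volume (U m) ≤ volume (S m) := measure_mono (fun x hx => hx.1)
  have hBpos : 0 < volume (ball (0 : E m) 1) := measure_ball_pos _ _ one_pos
  have hBfin : volume (ball (0 : E m) 1) ≠ ∞ := measure_ball_lt_top.ne
  obtain ⟨C, hC1, hC2, hC3⟩ := h (m + 1) (S m) (compact_S m) (hBpos.trans_le (hU.trans hUS))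
    (centroid m) (4 * (9 / 10) ^ (m + 1)) (by positivity) (vol_bad (hU.trans hUS))
  have h1 := symm_lower C hC1 hC2
  have h2 : volume (S m) ≤ ENNReal.ofReal ((127 / 125) ^ (m + 1)) * volume (ball (0 : E m) 1) := by
    rw [← vol_cball (m := m) 0 (by norm_num)]
    exact measure_mono fun x hx => by
      rw [mem_closedBall_zero_iff]; exact norm_S hx
  have h3 : volume (ball (0 : E m) 1) ≤ ENNReal.ofReal
      (3 * (c * ((m + 1 : ℕ) : ℝ) * (4 * (9 / 10) ^ (m + 1))) * (127 / 125) ^ (m + 1)) *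
        volume (ball (0 : E m) 1) := by
    calc volume (ball (0 : E m) 1) ≤ 3 * volume (symmDiff (S m) C) := hU.trans h1
      _ ≤ 3 * (ENNReal.ofReal (c * ((m + 1 : ℕ) : ℝ) * (4 * (9 / 10) ^ (m + 1))) *
          (ENNReal.ofReal ((127 / 125) ^ (m + 1)) * volume (ball (0 : E m) 1))) := by
          refine mul_le_mul_right (hC3.trans ?_) 3
          exact mul_le_mul_right h2 _
      _ = _ := by
          rw [ENNReal.ofReal_mul (p := 3 * (c * ((m + 1 : ℕ) : ℝ) * (4 * (9 / 10) ^ (m + 1))))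
            (by positivity), ENNReal.ofReal_mul (p := 3) (by norm_num)]
          have : ENNReal.ofReal 3 = 3 := by norm_num
          rw [this]; ring
  have h4 : ENNReal.ofReal
      (3 * (c * ((m + 1 : ℕ) : ℝ) * (4 * (9 / 10) ^ (m + 1))) * (127 / 125) ^ (m + 1)) < 1 := by
    rw [← ENNReal.ofReal_one]
    exact (ENNReal.ofReal_lt_ofReal_iff one_pos).2 hm2
  have h5 := ENNReal.mul_lt_mul_left hBpos.ne' hBfin h4
  rw [one_mul] at h5
  exact absurd h3 (not_le.2 h5)

end Pool.Agent.H6.NC
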