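import Pool.Agent.H6.NIDefs

namespace Pool.Agent.H6.NI

open Pool.Agent.H6.NIDefs

variable {X : Type} [NormedAddCommGroup X] [NormedSpace ℂ X] {k : ℕ}

theorem poly_bdd (A : ContinuousMultilinearMap ℂ (fun _ : Fin k => X) X) :
    BddAbove {r : ℝ | ∃ x : X, ‖x‖ = 1 ∧ r = ‖A fun _ => x‖} := by
  refine ⟨‖A‖, ?_⟩
  rintro r ⟨x, hx, rfl⟩
  have := A.le_opNorm (fun _ => x)
  simpa [hx] using this

theorem le_polyNorm (A : ContinuousMultilinearMap ℂ (fun _ : Fin k => X) X) {x : X} (hx : ‖x‖ = 1) :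
    ‖A fun _ => x‖ ≤ polyNorm A := le_csSup (poly_bdd A) ⟨x, hx, rfl⟩

theorem polyNorm_nonneg (A : ContinuousMultilinearMap ℂ (fun _ : Fin k => X) X) : 0 ≤ polyNorm A := by
  apply Real.sSup_nonneg
  rintro r ⟨x, _, rfl⟩
  exact norm_nonneg _

theorem num_bdd (A : ContinuousMultilinearMap ℂ (fun _ : Fin k => X) X) :
    BddAbove {r : ℝ | ∃ (x : X) (φ : StrongDual ℂ X), ‖x‖ = 1 ∧ ‖φ‖ = 1 ∧ φ x = 1 ∧
      r = ‖φ (A fun _ => x)‖} := by
  refine ⟨polyNorm A, ?_⟩
  rintro r ⟨x, φ, hx, hφ, _, rfl⟩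
  refine (φ.le_opNorm _).trans ?_
  rw [hφ, one_mul]
  exact le_polyNorm A hx

theorem le_numRadius (A : ContinuousMultilinearMap ℂ (fun _ : Fin k => X) X) {x : X}
    {φ : StrongDual ℂ X} (hx : ‖x‖ = 1) (hφ : ‖φ‖ = 1) (hφx : φ x = 1) :
    ‖φ (A fun _ => x)‖ ≤ numRadius A := le_csSup (num_bdd A) ⟨x, φ, hx, hφ, hφx, rfl⟩

theorem numRadius_nonneg (A : ContinuousMultilinearMap ℂ (fun _ : Fin k => X) X) :
    0 ≤ numRadius A := by
  apply Real.sSup_nonneg
  rintro r ⟨x, φ, _, _, _, rfl⟩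
  exact norm_nonneg _

theorem numRadius_le (A : ContinuousMultilinearMap ℂ (fun _ : Fin k => X) X) :
    numRadius A ≤ polyNorm A := by
  apply Real.sSup_le _ (polyNorm_nonneg A)
  rintro r ⟨x, φ, hx, hφ, _, rfl⟩
  refine (φ.le_opNorm _).trans ?_
  rw [hφ, one_mul]
  exact le_polyNorm A hx

/-- homogeneity -/
theorem diag_smul (A : ContinuousMultilinearMap ℂ (fun _ : Fin k => X) X) (c : ℂ) (x : X) :
    (A fun _ => c • x) = c ^ k • A fun _ => x := by
  have := A.map_smul_univ (fun _ => c) (fun _ => x)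
  simpa using this

theorem norm_diag_le (hk : 1 ≤ k) (A : ContinuousMultilinearMap ℂ (fun _ : Fin k => X) X) (x : X) :
    ‖A fun _ => x‖ ≤ polyNorm A * ‖x‖ ^ k := by
  by_cases hx : x = 0
  · subst hx
    have : (A fun _ => (0 : X)) = 0 := A.map_coord_zero ⟨0, hk⟩ rfl
    rw [this, norm_zero]
    exact mul_nonneg (polyNorm_nonneg A) (pow_nonneg (le_refl (0:ℝ)) _)
  · have hn : ‖x‖ ≠ 0 := norm_ne_zero_iff.2 hx
    set u : X := ((‖x‖ : ℂ)⁻¹) • x with hu
    have hu1 : ‖u‖ = 1 := by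
      rw [hu, norm_smul, norm_inv, Complex.norm_real, norm_norm, inv_mul_cancel₀ hn]
    have hxu : x = (‖x‖ : ℂ) • u := by
      rw [hu, smul_smul, mul_inv_cancel₀ (by exact_mod_cast hn), one_smul]
    conv_lhs => rw [hxu]
    rw [diag_smul, norm_smul, norm_pow, Complex.norm_real, norm_norm, mul_comm]
    exact mul_le_mul_of_nonneg_right (le_polyNorm A hu1) (pow_nonneg (norm_nonneg _) _)

theorem diag_diff (A : ContinuousMultilinearMap ℂ (fun _ : Fin k => X) X) :
    Differentiable ℂ (fun x : X => A fun _ => x) := by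
  have h1 : Differentiable ℂ (fun m : Fin k → X => A m) := by
    intro m
    exact (A.hasFDerivAt m).differentiableAt
  have h2 : Differentiable ℂ (fun x : X => (fun _ : Fin k => x)) := by
    rw [differentiable_pi]
    intro _
    exact differentiable_id
  exact h1.comp h2

/-- local Lipschitz estimate -/
theorem diag_lip (hk : 1 ≤ k) (A : ContinuousMultilinearMap ℂ (fun _ : Fin k => X) X) {x z : X}
    (hx : ‖x‖ ≤ 1) {η : ℝ} (hη : 0 < η) (hη2 : η ≤ 1 / 2) (hz : ‖z - x‖ ≤ η) :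
    ‖(A fun _ => z) - A fun _ => x‖ ≤ 2 ^ (k + 1) * polyNorm A * η := by
  set g : ℂ → X := fun l => A fun _ => x + l • (z - x) with hg
  have hgd : Differentiable ℂ g := by
    have h2 : Differentiable ℂ (fun l : ℂ => x + l • (z - x)) := by
      apply Differentiable.const_add
      exact differentiable_id.smul_const _
    exact (diag_diff A).comp h2
  set R : ℝ := 1 / (2 * η) with hR
  have hRpos : 0 < R := by positivity
  have hder : ∀ l : ℂ, ‖l‖ ≤ 1 → ‖deriv g l‖ ≤ 2 ^ (k + 1) * polyNorm A * η := by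
    intro l hl
    have h1 := Complex.norm_deriv_le_of_forall_mem_sphere_norm_le (c := l) (f := g)
      (C := polyNorm A * 2 ^ k) hRpos hgd.diffContOnCl (by
        intro w hw
        rw [mem_sphere_iff_norm] at hw
        have hw1 : ‖w‖ ≤ R + 1 := by
          calc ‖w‖ = ‖(w - l) + l‖ := by rw [sub_add_cancel]
            _ ≤ ‖w - l‖ + ‖l‖ := norm_add_le _ _
            _ ≤ R + 1 := by rw [hw]; linarith
        have hw2 : ‖x + w • (z - x)‖ ≤ 2 := by
          calc ‖x + w • (z - x)‖ ≤ ‖x‖ + ‖w • (z - x)‖ := norm_add_le _ _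
            _ ≤ 1 + (R + 1) * η := by
                rw [norm_smul]
                have := mul_le_mul hw1 hz (norm_nonneg _) (by positivity)
                linarith
            _ ≤ 2 := by
                have : R * η = 1 / 2 := by rw [hR]; field_simp
                nlinarith
        refine (norm_diag_le hk A _).trans ?_
        exact mul_le_mul_of_nonneg_left (pow_le_pow_left₀ (norm_nonneg _) hw2 _) (polyNorm_nonneg A))
    refine h1.trans (le_of_eq ?_)
    rw [hR]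
    field_simp
    ring
  have hmv := Convex.norm_image_sub_le_of_norm_deriv_le (f := g) (s := Metric.closedBall (0 : ℂ) 1)
    (C := 2 ^ (k + 1) * polyNorm A * η) (fun l _ => hgd.differentiableAt)
    (fun l hl => hder l (by simpa using hl)) (convex_closedBall _ _)
    (x := 0) (y := 1) (by simp) (by simp)
  simpa [hg] using hmv

/-- the growth estimate -/
theorem growth (hk : 1 ≤ k) (A : ContinuousMultilinearMap ℂ (fun _ : Fin k => X) X) {u : X}
    (hu : ‖u‖ = 1) (l : ℂ) (hl : ‖l‖ * polyNorm A ≤ 1 / 4) :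
    ‖u + l • A fun _ => u‖ ≤ 1 + ‖l‖ * numRadius A + 2 ^ (k + 2) * (polyNorm A) ^ 2 * ‖l‖ ^ 2 := by
  set M := polyNorm A with hM
  set h := ‖l‖ with hh
  have hM0 : 0 ≤ M := polyNorm_nonneg A
  have hh0 : 0 ≤ h := norm_nonneg _
  set w : X := u + l • A fun _ => u with hw
  have hwu : ‖w - u‖ ≤ h * M := by
    rw [hw, add_sub_cancel_left, norm_smul]
    exact mul_le_mul_of_nonneg_left (le_polyNorm A hu) hh0
  have hw1 : 1 - h * M ≤ ‖w‖ := by
    have := norm_sub_norm_le u w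
    rw [hu, norm_sub_rev] at this
    linarith
  have hw2 : ‖w‖ ≤ 1 + h * M := by
    have := norm_sub_norm_le w u
    rw [hu] at this
    linarith
  have hwpos : 0 < ‖w‖ := by linarith
  set z : X := ((‖w‖ : ℂ)⁻¹) • w with hz
  have hz1 : ‖z‖ = 1 := by
    rw [hz, norm_smul, norm_inv, Complex.norm_real, norm_norm, inv_mul_cancel₀ hwpos.ne']
  have hwz : w = (‖w‖ : ℂ) • z := by
    rw [hz, smul_smul, mul_inv_cancel₀ (by exact_mod_cast hwpos.ne'), one_smul]
  have hzw : ‖z - w‖ ≤ h * M := by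
    have e1 : z - w = ((1 - ‖w‖ : ℝ) : ℂ) • z := by
      rw [Complex.ofReal_sub, Complex.ofReal_one, sub_smul, one_smul, ← hwz]
    rw [e1, norm_smul, hz1, mul_one, Complex.norm_real, Real.norm_eq_abs, abs_le]
    constructor <;> linarith
  have hv0 : 0 ≤ numRadius A := numRadius_nonneg A
  rcases (mul_nonneg hh0 hM0).eq_or_lt with h0 | hpos
  · rw [← h0] at hw2
    have : 0 ≤ h * numRadius A := mul_nonneg hh0 hv0
    have : 0 ≤ 2 ^ (k + 2) * M ^ 2 * h ^ 2 := by positivity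
    linarith
  obtain ⟨ψ, hψ1, hψ2⟩ := exists_dual_vector ℂ z (by rw [hz1]; exact one_ne_zero)
  rw [hz1] at hψ2
  have hψ2' : ψ z = 1 := by simpa using hψ2
  have e2 : ψ w = (‖w‖ : ℂ) := by
    conv_lhs => rw [hwz]
    rw [map_smul, hψ2', smul_eq_mul, mul_one]
  have e3 : ψ w = ψ u + l * ψ (A fun _ => u) := by
    rw [hw, map_add, map_smul, smul_eq_mul]
  have e4 : ‖w‖ ≤ ‖ψ u‖ + h * ‖ψ (A fun _ => u)‖ := by
    calc ‖w‖ = ‖ψ w‖ := by rw [e2, Complex.norm_real, norm_norm]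
      _ ≤ ‖ψ u‖ + ‖l * ψ (A fun _ => u)‖ := by rw [e3]; exact norm_add_le _ _
      _ = _ := by rw [norm_mul]
  have e5 : ‖ψ u‖ ≤ 1 := by
    have := ψ.le_opNorm u
    rwa [hψ1, hu, mul_one] at this
  have e6 : ‖ψ (A fun _ => u)‖ ≤ numRadius A + 2 ^ (k + 1) * M * (2 * (h * M)) := by
    have h1 : ‖ψ (A fun _ => z)‖ ≤ numRadius A := le_numRadius A hz1 hψ1 hψ2'
    have h2 : ‖ψ ((A fun _ => z) - A fun _ => u)‖ ≤ 2 ^ (k + 1) * M * (2 * (h * M)) := by
      refine (ψ.le_opNorm _).trans ?_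
      rw [hψ1, one_mul]
      apply diag_lip hk A hu.le (by positivity) (by linarith)
      calc ‖z - u‖ = ‖(z - w) + (w - u)‖ := by rw [sub_add_sub_cancel]
        _ ≤ ‖z - w‖ + ‖w - u‖ := norm_add_le _ _
        _ ≤ _ := by linarith
    have h3 : ψ (A fun _ => u) = ψ (A fun _ => z) - ψ ((A fun _ => z) - A fun _ => u) := by
      rw [map_sub]; ring
    rw [h3]
    exact (norm_sub_le _ _).trans (by linarith)
  have e7 := mul_le_mul_of_nonneg_left e6 hh0
  have e8 : h * (numRadius A + 2 ^ (k + 1) * M * (2 * (h * M))) =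
      h * numRadius A + 2 ^ (k + 2) * M ^ 2 * h ^ 2 := by ring
  linarith

end Pool.Agent.H6.NI
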