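import Pool.Agent.H6.NI1

namespace Pool.Agent.H6.NI

open Pool.Agent.H6.NIDefs

variable {X : Type} [NormedAddCommGroup X] [NormedSpace ℂ X] {m : ℕ}

theorem growth_scaled (A : ContinuousMultilinearMap ℂ (fun _ : Fin (m + 1) => X) X) (x : X)
    (l : ℂ) (hl : ‖l‖ * ‖x‖ ^ m * polyNorm A ≤ 1 / 4) :
    ‖x + l • A fun _ => x‖ ≤ ‖x‖ * (1 + ‖l‖ * ‖x‖ ^ m * numRadius A +
      2 ^ (m + 3) * (polyNorm A) ^ 2 * (‖l‖ * ‖x‖ ^ m) ^ 2) := by
  by_cases hx : x = 0
  · subst hx
    have : (A fun _ => (0 : X)) = 0 := A.map_coord_zero 0 rfl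
    rw [this, smul_zero, add_zero, norm_zero, zero_mul]
  have hn : ‖x‖ ≠ 0 := norm_ne_zero_iff.2 hx
  set u : X := ((‖x‖ : ℂ)⁻¹) • x with hu
  have hu1 : ‖u‖ = 1 := by
    rw [hu, norm_smul, norm_inv, Complex.norm_real, norm_norm, inv_mul_cancel₀ hn]
  have hxu : x = (‖x‖ : ℂ) • u := by
    rw [hu, smul_smul, mul_inv_cancel₀ (by exact_mod_cast hn), one_smul]
  have e1 : x + l • (A fun _ => x) = (‖x‖ : ℂ) • (u + (l * (‖x‖ : ℂ) ^ m) • A fun _ => u) := by
    have : (A fun _ => x) = (‖x‖ : ℂ) ^ (m + 1) • A fun _ => u := by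
      conv_lhs => rw [hxu]
      rw [diag_smul]
    rw [this, smul_add, ← hxu, smul_smul, smul_smul]
    congr 2
    ring
  have e2 : ‖l * (‖x‖ : ℂ) ^ m‖ = ‖l‖ * ‖x‖ ^ m := by
    rw [norm_mul, norm_pow, Complex.norm_real, norm_norm]
  have g := growth (k := m + 1) (by omega) A hu1 (l * (‖x‖ : ℂ) ^ m) (by rw [e2]; exact hl)
  rw [e2] at g
  rw [e1, norm_smul, Complex.norm_real, norm_norm]
  refine mul_le_mul_of_nonneg_left ?_ (norm_nonneg _)
  exact g

theorem one_add_pow_mul (m : ℕ) {a : ℝ} (ha : 0 ≤ a) : (1 + a) ^ m * (1 - m * a) ≤ 1 := by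
  have h0 : 0 ≤ (1 + a) ^ m := by positivity
  by_cases h : 1 - m * a ≤ 0
  · have := mul_nonpos_of_nonneg_of_nonpos h0 h
    linarith
  · push Not at h
    have h1 : (1 + a) ^ m ≤ Real.exp (m * a) := by
      rw [Real.exp_nat_mul]
      apply pow_le_pow_left₀ (by positivity)
      have := Real.add_one_le_exp a
      linarith
    have h2 : 1 - m * a ≤ Real.exp (-(m * a)) := by
      have := Real.add_one_le_exp (-(m * a))
      linarith
    calc (1 + a) ^ m * (1 - m * a) ≤ Real.exp (m * a) * Real.exp (-(m * a)) :=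
          mul_le_mul h1 h2 h.le (Real.exp_pos _).le
      _ = 1 := by rw [← Real.exp_add]; simp

/-- the Euler iteration -/
noncomputable def iter (A : ContinuousMultilinearMap ℂ (fun _ : Fin (m + 1) => X) X) (n : ℕ)
    (x0 : X) (l : ℂ) : ℕ → X
  | 0 => x0
  | j + 1 => iter A n x0 l j + (l / n) • A fun _ => iter A n x0 l j

theorem iter_zero_param (A : ContinuousMultilinearMap ℂ (fun _ : Fin (m + 1) => X) X) (n : ℕ)
    (x0 : X) (j : ℕ) : iter A n x0 0 j = x0 := by
  induction j with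
  | zero => rfl
  | succ j ih => rw [iter, ih, zero_div, zero_smul, add_zero]

theorem iter_diff (A : ContinuousMultilinearMap ℂ (fun _ : Fin (m + 1) => X) X) (n : ℕ)
    (x0 : X) (j : ℕ) : Differentiable ℂ (fun l => iter A n x0 l j) := by
  induction j with
  | zero => exact differentiable_const _
  | succ j ih =>
    have h1 : Differentiable ℂ (fun l => A fun _ => iter A n x0 l j) := (diag_diff A).comp ih
    have h2 : Differentiable ℂ (fun l : ℂ => l / (n : ℂ)) := differentiable_id.div_const _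
    exact ih.add (h2.smul h1)

theorem iter_deriv (A : ContinuousMultilinearMap ℂ (fun _ : Fin (m + 1) => X) X) (n : ℕ)
    (x0 : X) (j : ℕ) :
    HasDerivAt (fun l => iter A n x0 l j) (((j : ℂ) / n) • A fun _ => x0) 0 := by
  induction j with
  | zero =>
    have : HasDerivAt (fun _ : ℂ => x0) (0 : X) 0 := hasDerivAt_const _ _
    simpa [iter] using this
  | succ j ih =>
    have h1 : Differentiable ℂ (fun l => A fun _ => iter A n x0 l j) :=
      (diag_diff A).comp (iter_diff A n x0 j)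
    have h1' := (h1 0).hasDerivAt
    have h2 : HasDerivAt (fun l : ℂ => l / (n : ℂ)) (1 / (n : ℂ)) 0 := (hasDerivAt_id _).div_const _
    have h3 := ih.add (h2.smul h1')
    have e : ((j : ℂ) / n) • (A fun _ => x0) + (((0 : ℂ) / n) • deriv (fun l => A fun _ => iter A n x0 l j) 0 +
        (1 / (n : ℂ)) • A fun _ => iter A n x0 0 j) = (((j + 1 : ℕ) : ℂ) / n) • A fun _ => x0 := by
      rw [zero_div, zero_smul, zero_add, iter_zero_param, ← add_smul]
      congr 1
      push_cast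
      ring
    rw [← e]
    exact h3

/-- the growth of the iteration -/
theorem iter_bound (hm : 1 ≤ m) (A : ContinuousMultilinearMap ℂ (fun _ : Fin (m + 1) => X) X)
    {x0 : X} (hx0 : ‖x0‖ = 1) {v' : ℝ} (hv : numRadius A < v') {n : ℕ} (hn : 0 < n)
    (l : ℂ) (hl : ‖l‖ = 1 / ((m + 1) * v'))
    (hn1 : ‖l‖ / n * (m + 1) * polyNorm A ≤ 1 / 4)
    (hn2 : 2 ^ (m + 3) * (polyNorm A) ^ 2 * (‖l‖ / n * (m + 1)) ≤ v' - numRadius A) (j : ℕ)
    (hj : j ≤ n) :
    ‖iter A n x0 l j‖ ^ m * (1 - m * v' * (j * (‖l‖ / n))) ≤ 1 := by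
  have hv0 : 0 ≤ numRadius A := numRadius_nonneg A
  have hv'0 : 0 < v' := lt_of_le_of_lt hv0 hv
  have hM0 : 0 ≤ polyNorm A := polyNorm_nonneg A
  have hnR : (0 : ℝ) < n := by exact_mod_cast hn
  set h : ℝ := ‖l‖ / n with hh
  have hh0 : 0 ≤ h := by positivity
  have hD : ∀ i : ℕ, i ≤ n → 1 / ((m : ℝ) + 1) ≤ 1 - m * v' * (i * h) := by
    intro i hi
    have hi' : (i : ℝ) ≤ n := by exact_mod_cast hi
    have h1 : m * v' * (i * h) ≤ m * v' * (n * h) := by gcongr
    have h2 : m * v' * (n * h) = m / (m + 1) := by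
      rw [hh, hl]
      field_simp
    have h3 : (1 : ℝ) - m / (m + 1) = 1 / (m + 1) := by
      field_simp
      ring
    linarith
  induction j with
  | zero => simp [iter, hx0]
  | succ j ih =>
    have ih' := ih (by omega)
    have hDj := hD j (by omega)
    have hDj1 := hD (j + 1) hj
    set ρ : ℝ := ‖iter A n x0 l j‖ with hρ
    have hρ0 : 0 ≤ ρ := norm_nonneg _
    have hq0 : 0 ≤ ρ ^ m := by positivity
    have hm1 : (0 : ℝ) < 1 / ((m : ℝ) + 1) := by positivity
    have hq : ρ ^ m ≤ m + 1 := by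
      have h1 : ρ ^ m * (1 / ((m : ℝ) + 1)) ≤ 1 :=
        (mul_le_mul_of_nonneg_left hDj hq0).trans ih'
      rw [mul_one_div, div_le_one (by positivity)] at h1
      exact h1
    have hln : ‖l / (n : ℂ)‖ = h := by
      rw [norm_div, Complex.norm_natCast, hh]
    have g := growth_scaled A (iter A n x0 l j) (l / n) (by
      rw [hln, ← hρ]
      calc h * ρ ^ m * polyNorm A ≤ h * (m + 1) * polyNorm A := by gcongr
        _ ≤ 1 / 4 := hn1)
    rw [hln, ← hρ] at g
    set a : ℝ := h * v' * ρ ^ m with ha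
    have ha0 : 0 ≤ a := by positivity
    have g2 : ‖iter A n x0 l (j + 1)‖ ≤ ρ * (1 + a) := by
      have e : iter A n x0 l (j + 1) =
        iter A n x0 l j + (l / n) • A fun _ => iter A n x0 l j := rfl
      rw [e]
      refine g.trans (mul_le_mul_of_nonneg_left ?_ hρ0)
      have e1 : 2 ^ (m + 3) * polyNorm A ^ 2 * (h * ρ ^ m) ^ 2 ≤ (v' - numRadius A) * (h * ρ ^ m) := by
        calc 2 ^ (m + 3) * polyNorm A ^ 2 * (h * ρ ^ m) ^ 2
            = (2 ^ (m + 3) * polyNorm A ^ 2 * (h * ρ ^ m)) * (h * ρ ^ m) := by ring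
          _ ≤ (2 ^ (m + 3) * polyNorm A ^ 2 * (h * (m + 1))) * (h * ρ ^ m) := by gcongr
          _ ≤ _ := by gcongr
      rw [ha]
      nlinarith
    have g3 : ‖iter A n x0 l (j + 1)‖ ^ m ≤ ρ ^ m * (1 + a) ^ m := by
      rw [← mul_pow]
      exact pow_le_pow_left₀ (norm_nonneg _) g2 _
    have e2 : (1 : ℝ) - m * v' * ((j + 1 : ℕ) * h) = (1 - m * v' * (j * h)) - m * v' * h := by
      push_cast
      ring
    calc ‖iter A n x0 l (j + 1)‖ ^ m * (1 - m * v' * ((j + 1 : ℕ) * h))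
        ≤ (ρ ^ m * (1 + a) ^ m) * (1 - m * v' * ((j + 1 : ℕ) * h)) :=
          mul_le_mul_of_nonneg_right g3 (hm1.le.trans hDj1)
      _ = (1 + a) ^ m * (ρ ^ m * (1 - m * v' * (j * h)) - m * a) := by
          rw [e2, ha]
          ring
      _ ≤ (1 + a) ^ m * (1 - m * a) := by
          apply mul_le_mul_of_nonneg_left _ (by positivity)
          linarith
      _ ≤ 1 := one_add_pow_mul m ha0

/-- Harris's inequality, pointwise -/
theorem harris_pt (hm : 1 ≤ m) (A : ContinuousMultilinearMap ℂ (fun _ : Fin (m + 1) => X) X)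
    {x0 : X} (hx0 : ‖x0‖ = 1) {v' : ℝ} (hv : numRadius A < v') :
    ‖A fun _ => x0‖ ≤ ((m : ℝ) + 1) ^ (1 / (m : ℝ)) * ((m + 1) * v') := by
  have hv0 : 0 ≤ numRadius A := numRadius_nonneg A
  have hv'0 : 0 < v' := lt_of_le_of_lt hv0 hv
  have hM0 : 0 ≤ polyNorm A := polyNorm_nonneg A
  set t : ℝ := 1 / ((m + 1) * v') with ht
  have htpos : 0 < t := by positivity
  set B1 : ℝ := t * (m + 1) * polyNorm A * 4 with hB1
  set B2 : ℝ := 2 ^ (m + 3) * (polyNorm A) ^ 2 * (t * (m + 1)) / (v' - numRadius A) with hB2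
  have hdiff : 0 < v' - numRadius A := by linarith
  have hB10 : 0 ≤ B1 := by positivity
  have hB20 : 0 ≤ B2 := by positivity
  obtain ⟨n, hn⟩ := exists_nat_gt (B1 + B2)
  have hnR : (0 : ℝ) < n := by linarith
  have hn0 : 0 < n := by exact_mod_cast hnR
  have hroot : (((m : ℝ) + 1) ^ (1 / (m : ℝ))) ^ m = m + 1 := by
    rw [← Real.rpow_natCast, ← Real.rpow_mul (by positivity)]
    have : (1 / (m : ℝ)) * (m : ℝ) = 1 := by
      have : (m : ℝ) ≠ 0 := by
        have : (1 : ℝ) ≤ m := by exact_mod_cast hm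
        linarith
      field_simp
    rw [this, Real.rpow_one]
  have hC := Complex.norm_deriv_le_of_forall_mem_sphere_norm_le (c := 0)
    (f := fun l => iter A n x0 l n) (C := ((m : ℝ) + 1) ^ (1 / (m : ℝ))) htpos
    (iter_diff A n x0 n).diffContOnCl (by
      intro l hl
      rw [mem_sphere_zero_iff_norm] at hl
      have hb := iter_bound hm A hx0 hv hn0 l (by rw [hl]) (by
        rw [hl]
        have : t / n * (m + 1) * polyNorm A = (B1 / 4) / n := by rw [hB1]; ring
        rw [this, div_le_iff₀ hnR]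
        linarith) (by
        rw [hl]
        have : 2 ^ (m + 3) * (polyNorm A) ^ 2 * (t / n * (m + 1)) = (v' - numRadius A) * (B2 / n) := by
          rw [hB2]; field_simp
        rw [this]
        have h1 : B2 / n ≤ 1 := by rw [div_le_one hnR]; linarith
        nlinarith) n le_rfl
      have e : 1 - m * v' * (n * (‖l‖ / n)) = 1 / ((m : ℝ) + 1) := by
        rw [hl, ht]
        field_simp
        ring
      rw [e, mul_one_div, div_le_one (by positivity), ← hroot] at hb
      exact le_of_pow_le_pow_left₀ (by omega) (by positivity) hb)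
  have hd := (iter_deriv A n x0 n).deriv
  have hne : (n : ℂ) ≠ 0 := by exact_mod_cast hn0.ne'
  rw [div_self hne, one_smul] at hd
  rw [hd] at hC
  have : ((m : ℝ) + 1) ^ (1 / (m : ℝ)) / t = ((m : ℝ) + 1) ^ (1 / (m : ℝ)) * ((m + 1) * v') := by
    rw [ht]; field_simp
  rwa [this] at hC

theorem harris (hm : 1 ≤ m) (A : ContinuousMultilinearMap ℂ (fun _ : Fin (m + 1) => X) X) :
    polyNorm A ≤ ((m : ℝ) + 1) ^ (1 / (m : ℝ)) * ((m + 1) * numRadius A) := by
  have hv0 : 0 ≤ numRadius A := numRadius_nonneg A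
  apply Real.sSup_le _ (by positivity)
  rintro r ⟨x, hx, rfl⟩
  apply le_of_forall_pos_le_add
  intro ε hε
  set K : ℝ := ((m : ℝ) + 1) ^ (1 / (m : ℝ)) * (m + 1) with hK
  have hKpos : 0 < K := by positivity
  have := harris_pt hm A hx (v' := numRadius A + ε / K) (by
    have : 0 < ε / K := by positivity
    linarith)
  refine this.trans (le_of_eq ?_)
  have e : ε = K * (ε / K) := by field_simp
  conv_rhs => rw [e]
  rw [hK]
  ring

end Pool.Agent.H6.NI
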