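import Pool.Agent.H6.NI2

namespace Pool.Agent.H6.NI

open Pool.Agent.H6.NIDefs

variable {X : Type} [NormedAddCommGroup X] [NormedSpace ℂ X] {m : ℕ}
variable {Y : Type} [NormedAddCommGroup Y] [NormedSpace ℂ Y]

theorem idx_bdd {k : ℕ} : BddBelow {r : ℝ | ∃ A : ContinuousMultilinearMap ℂ (fun _ : Fin k => X) X,
    polyNorm A = 1 ∧ r = numRadius A} := by
  refine ⟨0, ?_⟩
  rintro r ⟨A, _, rfl⟩
  exact numRadius_nonneg A

theorem exists_unit [Nontrivial X] : ∃ x : X, ‖x‖ = 1 := by
  obtain ⟨x, hx⟩ := exists_ne (0 : X)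
  have hn : ‖x‖ ≠ 0 := norm_ne_zero_iff.2 hx
  refine ⟨((‖x‖ : ℂ)⁻¹) • x, ?_⟩
  rw [norm_smul, norm_inv, Complex.norm_real, norm_norm, inv_mul_cancel₀ hn]

theorem idx_nonempty {k : ℕ} [Nontrivial X] :
    {r : ℝ | ∃ A : ContinuousMultilinearMap ℂ (fun _ : Fin k => X) X,
    polyNorm A = 1 ∧ r = numRadius A}.Nonempty := by
  obtain ⟨x, hx⟩ := exists_unit (X := X)
  obtain ⟨φ, hφ1, hφ2⟩ := exists_dual_vector ℂ x (by rw [hx]; exact one_ne_zero)
  rw [hx] at hφ2
  have hφ2' : φ x = 1 := by simpa using hφ2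
  set A : ContinuousMultilinearMap ℂ (fun _ : Fin k => X) X :=
    ((ContinuousMultilinearMap.mkPiAlgebra ℂ (Fin k) ℂ).compContinuousLinearMap
      (fun _ => φ)).smulRight x with hA
  have hval : ∀ y : X, (A fun _ => y) = (φ y) ^ k • x := by
    intro y
    simp [hA]
  refine ⟨_, A, ?_, rfl⟩
  apply le_antisymm
  · apply Real.sSup_le _ zero_le_one
    rintro r ⟨y, hy, rfl⟩
    rw [hval, norm_smul, hx, mul_one, norm_pow]
    apply pow_le_one₀ (norm_nonneg _)
    have := φ.le_opNorm y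
    rwa [hφ1, hy, mul_one] at this
  · have := le_polyNorm A hx
    rw [hval, hφ2', one_pow, one_smul, hx] at this
    exact this

theorem numIndex_nonneg {k : ℕ} : 0 ≤ numIndex k X := by
  apply Real.sInf_nonneg
  rintro r ⟨A, _, rfl⟩
  exact numRadius_nonneg A

theorem numIndex_le {k : ℕ} (A : ContinuousMultilinearMap ℂ (fun _ : Fin k => X) X)
    (hA : polyNorm A = 1) : numIndex k X ≤ numRadius A := csInf_le idx_bdd ⟨A, hA, rfl⟩

theorem numIndex_le_one {k : ℕ} [Nontrivial X] : numIndex k X ≤ 1 := by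
  obtain ⟨r, A, hA, rfl⟩ := idx_nonempty (X := X) (k := k)
  exact (numIndex_le A hA).trans ((numRadius_le A).trans hA.le)

theorem le_numIndex {k : ℕ} [Nontrivial X] {a : ℝ}
    (h : ∀ A : ContinuousMultilinearMap ℂ (fun _ : Fin k => X) X, polyNorm A = 1 → a ≤ numRadius A) :
    a ≤ numIndex k X := by
  apply le_csInf idx_nonempty
  rintro r ⟨A, hA, rfl⟩
  exact h A hA

theorem numIndex_mul_le {k : ℕ} (A : ContinuousMultilinearMap ℂ (fun _ : Fin k => X) X) :
    numIndex k X * polyNorm A ≤ numRadius A := by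
  rcases (polyNorm_nonneg A).eq_or_lt with h0 | hpos
  · rw [← h0, mul_zero]
    exact numRadius_nonneg A
  set M := polyNorm A with hM
  set B : ContinuousMultilinearMap ℂ (fun _ : Fin k => X) X := ((M : ℂ)⁻¹) • A with hB
  have hnM : ‖((M : ℂ)⁻¹)‖ = M⁻¹ := by
    rw [norm_inv, Complex.norm_real, Real.norm_of_nonneg hpos.le]
  have hBv : ∀ x : X, (B fun _ => x) = ((M : ℂ)⁻¹) • A fun _ => x := fun x => rfl
  have hB1 : polyNorm B = 1 := by
    apply le_antisymm
    · apply Real.sSup_le _ zero_le_one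
      rintro r ⟨x, hx, rfl⟩
      rw [hBv, norm_smul, hnM, inv_mul_le_iff₀ hpos, mul_one]
      exact le_polyNorm A hx
    · have h1 : M ≤ M * polyNorm B := by
        apply Real.sSup_le _ (mul_nonneg hpos.le (polyNorm_nonneg B))
        rintro r ⟨x, hx, rfl⟩
        have := le_polyNorm B hx
        rw [hBv, norm_smul, hnM, inv_mul_le_iff₀ hpos] at this
        exact this
      exact le_of_mul_le_mul_left (by linarith) hpos
  have hBr : M * numRadius B ≤ numRadius A := by
    rw [← le_div_iff₀' hpos]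
    apply Real.sSup_le _ (div_nonneg (numRadius_nonneg A) hpos.le)
    rintro r ⟨x, φ, hx, hφ, hφx, rfl⟩
    rw [hBv, map_smul, norm_smul, hnM, le_div_iff₀' hpos, ← mul_assoc, mul_inv_cancel₀ hpos.ne',
      one_mul]
    exact le_numRadius A hx hφ hφx
  have := numIndex_le B hB1
  calc numIndex k X * M ≤ numRadius B * M := by gcongr
    _ ≤ numRadius A := by rw [mul_comm]; exact hBr

/-- comparison of the indices of two close norms -/
theorem numIndex_compare [Nontrivial X] (T : X ≃L[ℂ] Y) {q h : ℝ} (hq : 1 ≤ q)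
    (h1 : ∀ x, ‖T x‖ ≤ q * ‖x‖) (h2 : ∀ x, ‖x‖ ≤ q * ‖T x‖) (hh : 0 < h)
    (hhq : h * q ^ m ≤ 1 / 4) :
    numIndex (m + 1) Y ≤ q ^ (m + 2) * ((q ^ 2 - 1) / h + q ^ (m + 2) * numIndex (m + 1) X +
      2 ^ (m + 3) * h * q ^ (2 * m + 2)) := by
  have hq0 : 0 < q := by linarith
  have hQ : 0 < q ^ (m + 2) := by positivity
  have key : (numIndex (m + 1) Y / q ^ (m + 2) - (q ^ 2 - 1) / h -
      2 ^ (m + 3) * h * q ^ (2 * m + 2)) / q ^ (m + 2) ≤ numIndex (m + 1) X := by
    apply le_numIndex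
    intro A hA
    rw [div_le_iff₀ hQ, sub_le_iff_le_add, sub_le_iff_le_add, div_le_iff₀ hQ]
    set B : ContinuousMultilinearMap ℂ (fun _ : Fin (m + 1) => Y) Y :=
      (T : X →L[ℂ] Y).compContinuousMultilinearMap
        (A.compContinuousLinearMap (fun _ => (T.symm : Y →L[ℂ] X))) with hB
    have hBv : ∀ y : Y, (B fun _ => y) = T (A fun _ => T.symm y) := fun y => rfl
    have hBn : 1 ≤ q ^ (m + 2) * polyNorm B := by
      rw [← hA]
      apply Real.sSup_le _ (mul_nonneg hQ.le (polyNorm_nonneg B))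
      rintro r ⟨x, hx, rfl⟩
      have e1 := h2 (A fun _ => x)
      have e2 : T (A fun _ => x) = B fun _ => T x := by rw [hBv, T.symm_apply_apply]
      have e3 := norm_diag_le (k := m + 1) (by omega) B (T x)
      have e4 : ‖T x‖ ≤ q := by have := h1 x; rwa [hx, mul_one] at this
      calc ‖A fun _ => x‖ ≤ q * ‖B fun _ => T x‖ := by rw [← e2]; exact e1
        _ ≤ q * (polyNorm B * q ^ (m + 1)) := by
            have : 0 ≤ polyNorm B := polyNorm_nonneg B
            gcongr
            exact e3.trans (by gcongr)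
        _ = q ^ (m + 2) * polyNorm B := by ring
    have hBr : numRadius B ≤ (q ^ 2 - 1) / h + q ^ (m + 2) * numRadius A +
        2 ^ (m + 3) * h * q ^ (2 * m + 2) := by
      have hv0 := numRadius_nonneg A
      apply Real.sSup_le
      swap
      · have : 0 ≤ (q ^ 2 - 1) / h := div_nonneg (by nlinarith) hh.le
        positivity
      rintro r ⟨y, φ, hy, hφ, hφy, rfl⟩
      set b : ℂ := φ (B fun _ => y) with hb
      obtain ⟨θ, hθ1, hθ2⟩ : ∃ θ : ℂ, ‖θ‖ = 1 ∧ θ * b = (‖b‖ : ℂ) := by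
        by_cases h0 : b = 0
        · exact ⟨1, norm_one, by rw [h0]; simp⟩
        · have hbn : (‖b‖ : ℂ) ≠ 0 := by exact_mod_cast norm_ne_zero_iff.2 h0
          refine ⟨(‖b‖ : ℂ) / b, ?_, ?_⟩
          · rw [norm_div, Complex.norm_real, norm_norm, div_self (norm_ne_zero_iff.2 h0)]
          · rw [div_mul_cancel₀ _ h0]
      set x : X := T.symm y with hx
      have hTx : T x = y := T.apply_symm_apply y
      have hxq : ‖x‖ ≤ q := by
        have := h2 x
        rwa [hTx, hy, mul_one] at this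
      set l : ℂ := (h : ℂ) * θ with hl
      have hln : ‖l‖ = h := by
        rw [hl, norm_mul, hθ1, mul_one, Complex.norm_real, Real.norm_of_nonneg hh.le]
      have f1 : φ (y + l • B fun _ => y) = ((1 + h * ‖b‖ : ℝ) : ℂ) := by
        rw [map_add, map_smul, hφy, smul_eq_mul, ← hb, hl, mul_assoc, hθ2]
        push_cast
        ring
      have f2 : 1 + h * ‖b‖ ≤ ‖y + l • B fun _ => y‖ := by
        have := φ.le_opNorm (y + l • B fun _ => y)
        rw [hφ, one_mul, f1, Complex.norm_real, Real.norm_of_nonneg (by positivity)] at this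
        exact this
      have f3 : y + l • (B fun _ => y) = T (x + l • A fun _ => x) := by
        rw [map_add, map_smul, hTx, hBv]
      have f4 := h1 (x + l • A fun _ => x)
      have hxm : ‖x‖ ^ m ≤ q ^ m := pow_le_pow_left₀ (norm_nonneg _) hxq _
      have f5 := growth_scaled A x l (by
        rw [hA, hln, mul_one]
        exact (mul_le_mul_of_nonneg_left hxm hh.le).trans hhq)
      rw [hln, hA, one_pow, mul_one] at f5
      have f6 : ‖x + l • A fun _ => x‖ ≤ q * (1 + h * q ^ m * numRadius A +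
          2 ^ (m + 3) * (h * q ^ m) ^ 2) := f5.trans (by gcongr)
      have f7 : 1 + h * ‖b‖ ≤ q * (q * (1 + h * q ^ m * numRadius A +
          2 ^ (m + 3) * (h * q ^ m) ^ 2)) := by
        rw [f3] at f2
        exact f2.trans (f4.trans (by gcongr))
      have f8 : h * ‖b‖ ≤ h * ((q ^ 2 - 1) / h + q ^ (m + 2) * numRadius A +
        2 ^ (m + 3) * h * q ^ (2 * m + 2)) := by
        have : h * ((q ^ 2 - 1) / h + q ^ (m + 2) * numRadius A +
          2 ^ (m + 3) * h * q ^ (2 * m + 2)) = q * (q * (1 + h * q ^ m * numRadius A +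
          2 ^ (m + 3) * (h * q ^ m) ^ 2)) - 1 := by
          field_simp
          ring
        rw [this]
        linarith
      exact le_of_mul_le_mul_left f8 hh
    have hidx := numIndex_mul_le B
    have h0 : 0 ≤ numIndex (m + 1) Y := numIndex_nonneg
    calc numIndex (m + 1) Y = numIndex (m + 1) Y * 1 := (mul_one _).symm
      _ ≤ numIndex (m + 1) Y * (q ^ (m + 2) * polyNorm B) := by gcongr
      _ = q ^ (m + 2) * (numIndex (m + 1) Y * polyNorm B) := by ring
      _ ≤ q ^ (m + 2) * numRadius B := by gcongr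
      _ ≤ q ^ (m + 2) * ((q ^ 2 - 1) / h + q ^ (m + 2) * numRadius A +
        2 ^ (m + 3) * h * q ^ (2 * m + 2)) := by gcongr
      _ = _ := by ring
  rw [div_le_iff₀ hQ, sub_le_iff_le_add, sub_le_iff_le_add, div_le_iff₀ hQ] at key
  calc numIndex (m + 1) Y ≤ _ := key
    _ = _ := by ring

/-- Harris's lower bound for the index -/
theorem harris_index [Nontrivial X] (hm : 1 ≤ m) :
    (((m : ℝ) + 1) ^ (1 / (m : ℝ)) * (m + 1))⁻¹ ≤ numIndex (m + 1) X := by
  apply le_numIndex
  intro A hA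
  have := harris hm A
  rw [hA, ← mul_assoc] at this
  rw [inv_le_iff_one_le_mul₀' (by positivity)]
  exact this

end Pool.Agent.H6.NI
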