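import Pool.Agent.H6.NI3

namespace Pool.Agent.H6.NI

open Pool.Agent.H6.NIDefs

/-- a norm on the complex plane squared -/
structure IsNm (N : ℂ × ℂ → ℝ) : Prop where
  add : ∀ v w, N (v + w) ≤ N v + N w
  smul : ∀ (c : ℂ) v, N (c • v) ≤ ‖c‖ * N v
  pos : ∀ v, N v = 0 → v = 0

theorem IsNm.zero {N : ℂ × ℂ → ℝ} (h : IsNm N) : N 0 = 0 := by
  apply le_antisymm
  · have := h.smul 0 0
    simpa using this
  · have := h.add 0 0
    rw [add_zero] at this
    linarith

theorem IsNm.neg {N : ℂ × ℂ → ℝ} (h : IsNm N) (v : ℂ × ℂ) : N (-v) = N v := by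
  apply le_antisymm
  · have := h.smul (-1) v
    simpa using this
  · have := h.smul (-1) (-v)
    simpa using this

/-- the plane with the norm `N` -/
def Sp (N : ℂ × ℂ → ℝ) (_ : IsNm N) : Type := ℂ × ℂ

variable {N : ℂ × ℂ → ℝ} (hN : IsNm N)

instance : AddCommGroup (Sp N hN) := inferInstanceAs (AddCommGroup (ℂ × ℂ))

noncomputable instance : NormedAddCommGroup (Sp N hN) :=
  AddGroupNorm.toNormedAddCommGroup
    { toFun := N
      map_zero' := hN.zero
      add_le' := hN.add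
      neg' := hN.neg
      eq_zero_of_map_eq_zero' := hN.pos }

noncomputable instance : Module ℂ (Sp N hN) := inferInstanceAs (Module ℂ (ℂ × ℂ))

noncomputable instance : NormedSpace ℂ (Sp N hN) where
  norm_smul_le := hN.smul

instance : Nontrivial (Sp N hN) := inferInstanceAs (Nontrivial (ℂ × ℂ))

instance : FiniteDimensional ℂ (Sp N hN) := inferInstanceAs (FiniteDimensional ℂ (ℂ × ℂ))

instance : CompleteSpace (Sp N hN) := FiniteDimensional.complete ℂ _

theorem norm_sp (v : Sp N hN) : ‖v‖ = N v := rfl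

variable {N' : ℂ × ℂ → ℝ} (hN' : IsNm N')

/-- the identity map -/
noncomputable def idMap : Sp N hN ≃L[ℂ] Sp N' hN' :=
  LinearEquiv.toContinuousLinearEquiv
    (LinearEquiv.refl ℂ (ℂ × ℂ) : Sp N hN ≃ₗ[ℂ] Sp N' hN')

theorem idMap_norm (v : Sp N hN) : ‖idMap hN hN' v‖ = N' v := rfl

/-- modulus of continuity -/
theorem idx_close {m : ℕ} {δ : ℝ} (hδ : 0 < δ) (hδm : Real.sqrt δ * (1 + δ) ^ m ≤ 1 / 4)
    (h1 : ∀ v, N' v ≤ (1 + δ) * N v) (h2 : ∀ v, N v ≤ (1 + δ) * N' v) :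
    numIndex (m + 1) (Sp N' hN') - numIndex (m + 1) (Sp N hN) ≤
      (1 + δ) ^ (m + 2) * ((2 + δ) * Real.sqrt δ) + ((1 + δ) ^ (2 * m + 4) - 1) +
      (1 + δ) ^ (m + 2) * (2 ^ (m + 3) * Real.sqrt δ * (1 + δ) ^ (2 * m + 2)) := by
  have hs : 0 < Real.sqrt δ := Real.sqrt_pos.2 hδ
  have hss : Real.sqrt δ * Real.sqrt δ = δ := Real.mul_self_sqrt hδ.le
  have c := numIndex_compare (m := m) (idMap hN hN') (q := 1 + δ) (h := Real.sqrt δ) (by linarith)
    (fun v => h1 v) (fun v => h2 v) hs hδm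
  have e1 : ((1 + δ) ^ 2 - 1) / Real.sqrt δ = (2 + δ) * Real.sqrt δ := by
    rw [div_eq_iff hs.ne', mul_assoc, hss]
    ring
  rw [e1] at c
  have hb : numIndex (m + 1) (Sp N hN) ≤ 1 := numIndex_le_one
  have hb0 : 0 ≤ numIndex (m + 1) (Sp N hN) := numIndex_nonneg
  set F := numIndex (m + 1) (Sp N hN) with hF
  have h1' : (1 : ℝ) ≤ (1 + δ) ^ (2 * m + 4) := one_le_pow₀ (by linarith)
  have e2 : (1 + δ) ^ (m + 2) * ((1 + δ) ^ (m + 2) * F) - F ≤ (1 + δ) ^ (2 * m + 4) - 1 := by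
    have : (1 + δ) ^ (m + 2) * ((1 + δ) ^ (m + 2) * F) = (1 + δ) ^ (2 * m + 4) * F := by ring
    rw [this]
    nlinarith
  have e3 : (1 + δ) ^ (m + 2) * ((2 + δ) * Real.sqrt δ + (1 + δ) ^ (m + 2) * F +
      2 ^ (m + 3) * Real.sqrt δ * (1 + δ) ^ (2 * m + 2)) =
      (1 + δ) ^ (m + 2) * ((2 + δ) * Real.sqrt δ) + (1 + δ) ^ (m + 2) * ((1 + δ) ^ (m + 2) * F) +
      (1 + δ) ^ (m + 2) * (2 ^ (m + 3) * Real.sqrt δ * (1 + δ) ^ (2 * m + 2)) := by ring
  rw [e3] at c
  linarith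

theorem idx_congr {m : ℕ} {N N' : ℂ × ℂ → ℝ} (h : N = N') (hN : IsNm N) (hN' : IsNm N') :
    numIndex (m + 1) (Sp N hN) = numIndex (m + 1) (Sp N' hN') := by
  subst h
  rfl

/-- the indices along a segment of norms fill the interval between the end values -/
theorem path_ivt {m : ℕ} {N0 N1 : ℂ × ℂ → ℝ} (hN0 : IsNm N0) (hN1 : IsNm N1)
    (h01 : ∀ v, N1 v ≤ N0 v) (h10 : ∀ v, N0 v ≤ 2 * N1 v) {r : ℝ}
    (hr0 : numIndex (m + 1) (Sp N0 hN0) ≤ r) (hr1 : r ≤ numIndex (m + 1) (Sp N1 hN1)) :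
    ∃ (N : ℂ × ℂ → ℝ) (hN : IsNm N), r = numIndex (m + 1) (Sp N hN) := by
  have hnn0 : ∀ v, 0 ≤ N0 v := fun v => norm_nonneg (E := Sp N0 hN0) v
  have hnn1 : ∀ v, 0 ≤ N1 v := fun v => norm_nonneg (E := Sp N1 hN1) v
  have hI : ∀ t : Set.Icc (0 : ℝ) 1, IsNm (fun v => (1 - (t : ℝ)) * N0 v + t * N1 v) := by
    rintro ⟨t, ht0, ht1⟩
    have ht1' : 0 ≤ 1 - t := by linarith
    refine ⟨?_, ?_, ?_⟩
    · intro v w
      have a1 := mul_le_mul_of_nonneg_left (hN0.add v w) ht1'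
      have a2 := mul_le_mul_of_nonneg_left (hN1.add v w) ht0
      simp only
      linarith
    · intro c v
      have a1 := mul_le_mul_of_nonneg_left (hN0.smul c v) ht1'
      have a2 := mul_le_mul_of_nonneg_left (hN1.smul c v) ht0
      simp only
      linarith
    · intro v hv
      simp only at hv
      have a1 : (1 - t) * N1 v ≤ (1 - t) * N0 v := mul_le_mul_of_nonneg_left (h01 v) ht1'
      have a2 : N1 v ≤ 0 := by linarith
      exact hN1.pos v (le_antisymm a2 (hnn1 v))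
  set F : Set.Icc (0 : ℝ) 1 → ℝ := fun t => numIndex (m + 1) (Sp _ (hI t)) with hF
  set G : ℝ → ℝ := fun δ => (1 + δ) ^ (m + 2) * ((2 + δ) * Real.sqrt δ) + ((1 + δ) ^ (2 * m + 4) - 1) +
      (1 + δ) ^ (m + 2) * (2 ^ (m + 3) * Real.sqrt δ * (1 + δ) ^ (2 * m + 2)) with hG
  have hGc : Continuous G := by
    rw [hG]
    fun_prop
  have hG0 : G 0 = 0 := by simp [hG]
  have hclose : ∀ s t : Set.Icc (0 : ℝ) 1, Real.sqrt |(s : ℝ) - t| * (1 + |(s : ℝ) - t|) ^ m ≤ 1 / 4 →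
      F s - F t ≤ G |(s : ℝ) - t| := by
    intro s t hst
    by_cases h : s = t
    · subst h
      simp [hG0]
    · have hpos : 0 < |(s : ℝ) - t| := abs_pos.2 (sub_ne_zero.2 (fun hh => h (Subtype.ext hh)))
      have hcmp : ∀ (s t : Set.Icc (0 : ℝ) 1) (v : ℂ × ℂ),
          (1 - (s : ℝ)) * N0 v + s * N1 v ≤ (1 + |(s : ℝ) - t|) * ((1 - (t : ℝ)) * N0 v + t * N1 v) := by
        intro s t v
        have b1 : N1 v ≤ (1 - (t : ℝ)) * N0 v + t * N1 v := by
          have := mul_le_mul_of_nonneg_left (h01 v) (by linarith [t.2.2] : 0 ≤ 1 - (t : ℝ))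
          linarith
        have b2 : 0 ≤ N0 v - N1 v := by linarith [h01 v]
        have b3 : N0 v - N1 v ≤ N1 v := by linarith [h10 v]
        have b4 : ((t : ℝ) - s) * (N0 v - N1 v) ≤ |(s : ℝ) - t| * N1 v := by
          calc ((t : ℝ) - s) * (N0 v - N1 v) ≤ |(s : ℝ) - t| * (N0 v - N1 v) := by
                apply mul_le_mul_of_nonneg_right _ b2
                rw [abs_sub_comm]
                exact le_abs_self _
            _ ≤ _ := mul_le_mul_of_nonneg_left b3 (abs_nonneg _)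
        have b5 := mul_le_mul_of_nonneg_left b1 (abs_nonneg ((s : ℝ) - t))
        linarith
      exact idx_close (hI t) (hI s) hpos hst (hcmp s t) (fun v => by
        have := hcmp t s v
        rw [abs_sub_comm] at this
        exact this)
  have hFc : Continuous F := by
    rw [continuous_iff_continuousAt]
    intro t
    rw [ContinuousAt, tendsto_iff_norm_sub_tendsto_zero]
    have hd : Filter.Tendsto (fun s : Set.Icc (0 : ℝ) 1 => |(s : ℝ) - t|) (nhds t) (nhds 0) := by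
      have : Continuous (fun s : Set.Icc (0 : ℝ) 1 => |(s : ℝ) - t|) := by fun_prop
      have h2 := this.tendsto t
      simpa using h2
    have hev : ∀ᶠ s : Set.Icc (0 : ℝ) 1 in nhds t, Real.sqrt |(s : ℝ) - t| * (1 + |(s : ℝ) - t|) ^ m ≤ 1 / 4 := by
      have hc : Continuous (fun δ : ℝ => Real.sqrt δ * (1 + δ) ^ m) := by fun_prop
      have h3 := (hc.tendsto 0).comp hd
      have h4 : Real.sqrt 0 * (1 + 0) ^ m < 1 / 4 := by simp
      exact (h3.eventually_lt_const h4).mono (fun s hs => hs.le)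
    have hGt : Filter.Tendsto (fun s : Set.Icc (0 : ℝ) 1 => G |(s : ℝ) - t|) (nhds t) (nhds 0) := by
      have := (hGc.tendsto 0).comp hd
      rwa [hG0] at this
    refine squeeze_zero' (Filter.Eventually.of_forall fun _ => norm_nonneg _) ?_ hGt
    filter_upwards [hev] with s hs
    rw [Real.norm_eq_abs, abs_le]
    constructor
    · have := hclose t s (by rw [abs_sub_comm]; exact hs)
      rw [abs_sub_comm] at this
      linarith
    · exact hclose s t hs
  have e0 : F ⟨0, by simp⟩ = numIndex (m + 1) (Sp N0 hN0) := by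
    have : (fun v => (1 - (0 : ℝ)) * N0 v + (0 : ℝ) * N1 v) = N0 := by
      funext v; ring
    exact idx_congr this _ _
  have e1 : F ⟨1, by simp⟩ = numIndex (m + 1) (Sp N1 hN1) := by
    have : (fun v => (1 - (1 : ℝ)) * N0 v + (1 : ℝ) * N1 v) = N1 := by
      funext v; ring
    exact idx_congr this _ _
  have hr : r ∈ Set.range F := by
    apply mem_range_of_exists_le_of_exists_ge hFc
    · exact ⟨⟨0, by simp⟩, by rw [e0]; exact hr0⟩
    · exact ⟨⟨1, by simp⟩, by rw [e1]; exact hr1⟩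
  obtain ⟨t, ht⟩ := hr
  exact ⟨_, hI t, ht.symm⟩

end Pool.Agent.H6.NI
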