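import Pool.Agent.H6.NI4

namespace Pool.Agent.H6.NI

open Pool.Agent.H6.NIDefs

theorem maxmod (f : ℂ → ℂ) (hf : Differentiable ℂ f) {x : ℂ} (hx : ‖x‖ ≤ 1) :
    ∃ x' : ℂ, ‖x'‖ = 1 ∧ ‖f x‖ ≤ ‖f x'‖ := by
  obtain ⟨z, hz, hmax⟩ := Complex.exists_mem_frontier_isMaxOn_norm (U := Metric.ball (0 : ℂ) 1)
    Metric.isBounded_ball (Metric.nonempty_ball.2 one_pos) hf.diffContOnCl
  rw [frontier_ball _ one_ne_zero, mem_sphere_zero_iff_norm] at hz
  refine ⟨z, hz, hmax ?_⟩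
  rw [closure_ball _ one_ne_zero]
  simpa using hx

variable {N : ℂ × ℂ → ℝ} (hN : IsNm N)

/-- the point with the given coordinates -/
def pt (x y : ℂ) : Sp N hN := ((x, y) : ℂ × ℂ)

theorem pt_diff1 (y : ℂ) : Differentiable ℂ (fun x : ℂ => pt hN x y) := by
  have e : (fun x : ℂ => pt hN x y) = fun x : ℂ => x • pt hN 1 0 + pt hN 0 y := by
    funext x
    show ((x, y) : ℂ × ℂ) = x • ((1, 0) : ℂ × ℂ) + ((0, y) : ℂ × ℂ)
    simp
  rw [e]
  exact (differentiable_id.smul_const _).add_const _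

theorem pt_diff2 (x : ℂ) : Differentiable ℂ (fun y : ℂ => pt hN x y) := by
  have e : (fun y : ℂ => pt hN x y) = fun y : ℂ => y • pt hN 0 1 + pt hN x 0 := by
    funext y
    show ((x, y) : ℂ × ℂ) = y • ((0, 1) : ℂ × ℂ) + ((x, 0) : ℂ × ℂ)
    simp
  rw [e]
  exact (differentiable_id.smul_const _).add_const _

/-- coordinate functionals -/
noncomputable def co1 : Sp N hN →ₗ[ℂ] ℂ := (LinearMap.fst ℂ ℂ ℂ : ℂ × ℂ →ₗ[ℂ] ℂ)
noncomputable def co2 : Sp N hN →ₗ[ℂ] ℂ := (LinearMap.snd ℂ ℂ ℂ : ℂ × ℂ →ₗ[ℂ] ℂ)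

theorem co1_pt (x y : ℂ) : co1 hN (pt hN x y) = x := rfl
theorem co2_pt (x y : ℂ) : co2 hN (pt hN x y) = y := rfl

theorem eq_pt (v : Sp N hN) : v = pt hN (co1 hN v) (co2 hN v) := rfl

theorem isNm_sup : IsNm (fun v : ℂ × ℂ => ‖v‖) where
  add := norm_add_le
  smul := fun c v => (norm_smul c v).le
  pos := fun v hv => norm_eq_zero.1 hv

theorem sup_norm (v : Sp _ isNm_sup) : ‖v‖ = max ‖co1 isNm_sup v‖ ‖co2 isNm_sup v‖ := rfl

theorem sup_key {m : ℕ} (A : ContinuousMultilinearMap ℂ (fun _ : Fin (m + 1) => Sp _ isNm_sup) (Sp _ isNm_sup))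
    (π : StrongDual ℂ (Sp _ isNm_sup)) (hπ : ∀ v, ‖π v‖ ≤ ‖v‖)
    (hπ1 : ∀ x y : ℂ, ‖x‖ = 1 → ‖y‖ = 1 → ‖π (pt isNm_sup x y)‖ = 1) (x : Sp _ isNm_sup)
    (hx : ‖x‖ = 1) : ‖π (A fun _ => x)‖ ≤ numRadius A := by
  have hx' := sup_norm x
  rw [hx] at hx'
  have hx1 : ‖co1 isNm_sup x‖ ≤ 1 := by rw [hx']; exact le_max_left _ _
  have hx2 : ‖co2 isNm_sup x‖ ≤ 1 := by rw [hx']; exact le_max_right _ _
  obtain ⟨z, hz, h1⟩ := maxmod (fun z => π (A fun _ => pt isNm_sup z (co2 isNm_sup x)))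
    (π.differentiable.comp ((diag_diff A).comp (pt_diff1 isNm_sup _))) hx1
  obtain ⟨w, hw, h2⟩ := maxmod (fun w => π (A fun _ => pt isNm_sup z w))
    (π.differentiable.comp ((diag_diff A).comp (pt_diff2 isNm_sup _))) hx2
  set p : Sp _ isNm_sup := pt isNm_sup z w with hp
  have hpn : ‖p‖ = 1 := by rw [sup_norm, hp, co1_pt, co2_pt, hz, hw, max_self]
  have hπp : ‖π p‖ = 1 := hπ1 z w hz hw
  have hne : π p ≠ 0 := by rw [← norm_ne_zero_iff, hπp]; exact one_ne_zero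
  set φ : StrongDual ℂ (Sp _ isNm_sup) := (π p)⁻¹ • π with hφ
  have hφv : ∀ v, φ v = (π p)⁻¹ * π v := fun v => rfl
  have hφp : φ p = 1 := by rw [hφv, inv_mul_cancel₀ hne]
  have hφn : ‖φ‖ = 1 := by
    apply le_antisymm
    · apply ContinuousLinearMap.opNorm_le_bound _ zero_le_one
      intro v
      rw [hφv, norm_mul, norm_inv, hπp, inv_one, one_mul]
      simpa using hπ v
    · have := φ.le_opNorm p
      rw [hφp, hpn, norm_one, mul_one] at this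
      exact this
  have h3 := le_numRadius A hpn hφn hφp
  rw [hφv, norm_mul, norm_inv, hπp, inv_one, one_mul] at h3
  calc ‖π (A fun _ => x)‖ ≤ _ := h1
    _ ≤ _ := h2
    _ ≤ _ := h3

theorem sup_index (m : ℕ) : numIndex (m + 1) (Sp _ isNm_sup) = 1 := by
  apply le_antisymm numIndex_le_one
  apply le_numIndex
  intro A hA
  rw [← hA]
  apply Real.sSup_le _ (numRadius_nonneg A)
  rintro r ⟨x, hx, rfl⟩
  rw [sup_norm]
  apply max_le
  · exact sup_key A (LinearMap.toContinuousLinearMap (co1 isNm_sup)) (fun v => by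
      rw [sup_norm]; exact le_max_left _ _) (fun x y hx _ => hx) x hx
  · exact sup_key A (LinearMap.toContinuousLinearMap (co2 isNm_sup)) (fun v => by
      rw [sup_norm]; exact le_max_right _ _) (fun x y _ hy => hy) x hx

end Pool.Agent.H6.NI
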