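import Pool.Agent.H6.NI5

namespace Pool.Agent.H6.NI

open Pool.Agent.H6.NIDefs

/-- tangent inequality -/
theorem amgm (m : ℕ) {s t : ℝ} (hs : 0 < s) (ht : 0 ≤ t) :
    ((m : ℝ) + 1) * s ^ m * t ≤ t ^ (m + 1) + m * s ^ (m + 1) := by
  have hb := one_add_mul_le_pow (a := t / s - 1) (by
    have : 0 ≤ t / s := by positivity
    linarith) (m + 1)
  have e : (1 + (t / s - 1)) = t / s := by ring
  rw [e, div_pow, le_div_iff₀ (by positivity)] at hb
  have e2 : (1 + ((m + 1 : ℕ) : ℝ) * (t / s - 1)) * s ^ (m + 1) =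
      ((m : ℝ) + 1) * s ^ m * t - m * s ^ (m + 1) := by
    push_cast
    field_simp
    ring
  rw [e2] at hb
  linarith

noncomputable def rt (m : ℕ) : ℝ := ((m : ℝ) + 1) ^ (1 / (m : ℝ))

theorem rt_pow {m : ℕ} (hm : 1 ≤ m) : (rt m) ^ m = m + 1 := by
  rw [rt, ← Real.rpow_natCast, ← Real.rpow_mul (by positivity)]
  have : (1 / (m : ℝ)) * (m : ℝ) = 1 := by
    have : (m : ℝ) ≠ 0 := by
      have : (1 : ℝ) ≤ m := by exact_mod_cast hm
      linarith
    field_simp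
  rw [this, Real.rpow_one]

theorem rt_pos (m : ℕ) : 0 < rt m := by rw [rt]; positivity

noncomputable def xm (m : ℕ) : ℝ := (rt m)⁻¹

theorem xm_pos (m : ℕ) : 0 < xm m := inv_pos.2 (rt_pos m)

theorem xm_pow {m : ℕ} (hm : 1 ≤ m) : (m + 1) * (xm m) ^ m = 1 := by
  rw [xm, inv_pow, rt_pow hm]
  field_simp

theorem xm_le_one {m : ℕ} (hm : 1 ≤ m) : xm m ≤ 1 := by
  rw [← pow_le_one_iff_of_nonneg (xm_pos m).le (n := m) (by omega)]
  have := xm_pow hm
  have h1 : (1 : ℝ) ≤ m := by exact_mod_cast hm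
  have h2 : 0 ≤ (xm m) ^ m := pow_nonneg (xm_pos m).le _
  nlinarith

noncomputable def cc (m : ℕ) : ℝ := xm m / (m + 1)

theorem cc_pos (m : ℕ) : 0 < cc m := div_pos (xm_pos m) (by positivity)

theorem cc_eq {m : ℕ} (hm : 1 ≤ m) : cc m = (xm m) ^ (m + 1) := by
  have := xm_pow hm
  rw [cc, pow_succ, div_eq_iff (by positivity)]
  linear_combination (-(xm m)) * this

noncomputable def aa (m : ℕ) (s : ℝ) : ℝ := (((m : ℝ) + 1) * s ^ m - 1) / (m * s ^ (m + 1))
noncomputable def bb (m : ℕ) (s : ℝ) : ℝ := cc m / s ^ (m + 1)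

section
variable {m : ℕ} (hm : 1 ≤ m) {s : ℝ}
include hm

theorem mpos : (0 : ℝ) < m := by
  have : (1 : ℝ) ≤ m := by exact_mod_cast hm
  linarith

theorem aa_nonneg (hs : xm m ≤ s) : 0 ≤ aa m s := by
  have hm0 := mpos hm
  have hs0 : 0 < s := (xm_pos m).trans_le hs
  apply div_nonneg _ (by positivity)
  have h1 : (xm m) ^ m ≤ s ^ m := pow_le_pow_left₀ (xm_pos m).le hs _
  have h2 := xm_pow hm
  have h3 : ((m : ℝ) + 1) * (xm m) ^ m ≤ (m + 1) * s ^ m := by gcongr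
  linarith

theorem aa_le (hs : xm m ≤ s) : aa m s ≤ 1 := by
  have hm0 := mpos hm
  have hs0 : 0 < s := (xm_pos m).trans_le hs
  rw [aa, div_le_one (by positivity)]
  have := amgm m hs0 (t := 1) zero_le_one
  rw [one_pow, mul_one] at this
  linarith

theorem bb_nonneg (hs : xm m ≤ s) : 0 ≤ bb m s := by
  have hs0 : 0 < s := (xm_pos m).trans_le hs
  exact div_nonneg (cc_pos m).le (by positivity)

theorem bb_le (hs : xm m ≤ s) : bb m s ≤ 1 := by
  have hs0 : 0 < s := (xm_pos m).trans_le hs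
  rw [bb, div_le_one (by positivity), cc_eq hm]
  exact pow_le_pow_left₀ (xm_pos m).le hs _

theorem aa_one : aa m 1 = 1 := by
  have hm0 := mpos hm
  rw [aa, one_pow, one_pow]
  field_simp
  ring

omit hm in
theorem bb_one : bb m 1 = cc m := by rw [bb, one_pow, div_one]

theorem aa_xm : aa m (xm m) = 0 := by
  rw [aa, xm_pow hm, sub_self, zero_div]

theorem bb_xm : bb m (xm m) = 1 := by
  rw [bb, cc_eq hm, div_self (pow_pos (xm_pos m) _).ne']

end

/-- the extremal norm -/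
noncomputable def N0 (m : ℕ) (v : ℂ × ℂ) : ℝ :=
  ⨆ s : Set.Icc (xm m) 1, (aa m s * ‖v.1‖ + bb m s * ‖v.2‖)

section
variable {m : ℕ} (hm : 1 ≤ m)
include hm

theorem N0_bdd (v : ℂ × ℂ) :
    BddAbove (Set.range fun s : Set.Icc (xm m) 1 => (aa m s * ‖v.1‖ + bb m s * ‖v.2‖)) := by
  refine ⟨‖v.1‖ + ‖v.2‖, ?_⟩
  rintro _ ⟨s, rfl⟩
  have h1 := mul_le_mul_of_nonneg_right (aa_le hm s.2.1) (norm_nonneg v.1)
  have h2 := mul_le_mul_of_nonneg_right (bb_le hm s.2.1) (norm_nonneg v.2)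
  simp only
  linarith

theorem le_N0 (v : ℂ × ℂ) {s : ℝ} (h1 : xm m ≤ s) (h2 : s ≤ 1) :
    aa m s * ‖v.1‖ + bb m s * ‖v.2‖ ≤ N0 m v :=
  le_ciSup (f := fun s : Set.Icc (xm m) 1 => (aa m s * ‖v.1‖ + bb m s * ‖v.2‖)) (N0_bdd hm v) ⟨s, h1, h2⟩

theorem N0_le {v : ℂ × ℂ} {C : ℝ} (h : ∀ s, xm m ≤ s → s ≤ 1 → aa m s * ‖v.1‖ + bb m s * ‖v.2‖ ≤ C) :
    N0 m v ≤ C := by
  haveI : Nonempty (Set.Icc (xm m) 1) := ⟨⟨1, xm_le_one hm, le_rfl⟩⟩
  exact ciSup_le fun s => h s s.2.1 s.2.2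

theorem N0_fst (v : ℂ × ℂ) : ‖v.1‖ + cc m * ‖v.2‖ ≤ N0 m v := by
  have := le_N0 hm v (xm_le_one hm) le_rfl
  rwa [aa_one hm, bb_one, one_mul] at this

theorem N0_fst' (v : ℂ × ℂ) : ‖v.1‖ ≤ N0 m v := by
  have h1 := N0_fst hm v
  have h2 : 0 ≤ cc m * ‖v.2‖ := mul_nonneg (cc_pos m).le (norm_nonneg _)
  linarith

theorem N0_snd (v : ℂ × ℂ) : ‖v.2‖ ≤ N0 m v := by
  have := le_N0 hm v le_rfl (xm_le_one hm)
  rwa [aa_xm hm, bb_xm hm, one_mul, zero_mul, zero_add] at this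

theorem N0_le_add (v : ℂ × ℂ) : N0 m v ≤ ‖v.1‖ + ‖v.2‖ := by
  apply N0_le hm
  intro s h1 _
  have h1' := mul_le_mul_of_nonneg_right (aa_le hm h1) (norm_nonneg v.1)
  have h2' := mul_le_mul_of_nonneg_right (bb_le hm h1) (norm_nonneg v.2)
  linarith

theorem isNm_N0 : IsNm (N0 m) where
  add := by
    intro v w
    apply N0_le hm
    intro s h1 h2
    have a0 := aa_nonneg hm h1
    have b0 := bb_nonneg hm h1
    have e1 := mul_le_mul_of_nonneg_left (norm_add_le v.1 w.1) a0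
    have e2 := mul_le_mul_of_nonneg_left (norm_add_le v.2 w.2) b0
    have e3 := le_N0 hm v h1 h2
    have e4 := le_N0 hm w h1 h2
    show aa m s * ‖v.1 + w.1‖ + bb m s * ‖v.2 + w.2‖ ≤ _
    linarith
  smul := by
    intro c v
    apply N0_le hm
    intro s h1 h2
    have e3 := mul_le_mul_of_nonneg_left (le_N0 hm v h1 h2) (norm_nonneg c)
    show aa m s * ‖c * v.1‖ + bb m s * ‖c * v.2‖ ≤ _
    rw [norm_mul, norm_mul]
    linarith
  pos := by
    intro v hv
    have h1 := N0_fst' hm v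
    have h2 := N0_snd hm v
    rw [hv] at h1 h2
    have h1' : v.1 = 0 := norm_eq_zero.1 (le_antisymm h1 (norm_nonneg _))
    have h2' : v.2 = 0 := norm_eq_zero.1 (le_antisymm h2 (norm_nonneg _))
    exact Prod.ext h1' h2'

/-- the key estimate for the coefficients of a norming functional -/
theorem beta_bound (hN : IsNm (N0 m)) (φ : StrongDual ℂ (Sp (N0 m) hN)) (hφ : ‖φ‖ = 1)
    (v : Sp (N0 m) hN) (hv : ‖v‖ = 1) (hφv : φ v = 1) :
    ‖φ (pt hN 0 1)‖ * ‖co1 hN v‖ ^ (m + 1) ≤ cc m := by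
  have hm0 := mpos hm
  have hc0 := cc_pos m
  set α : ℂ := φ (pt hN 1 0) with hα
  set β : ℂ := φ (pt hN 0 1) with hβ
  have hlin : ∀ x y : ℂ, φ (pt hN x y) = x * α + y * β := by
    intro x y
    have : pt hN x y = x • pt hN 1 0 + y • pt hN 0 1 := by
      show ((x, y) : ℂ × ℂ) = x • ((1, 0) : ℂ × ℂ) + y • ((0, 1) : ℂ × ℂ)
      simp
    rw [this, map_add, map_smul, map_smul, smul_eq_mul, smul_eq_mul]
  set s : ℝ := ‖co1 hN v‖ with hs
  set y : ℝ := ‖co2 hN v‖ with hy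
  have hs0 : 0 ≤ s := norm_nonneg _
  have hs1 : s ≤ 1 := by
    have := N0_fst' hm (v : ℂ × ℂ)
    rw [← hv]
    exact this
  -- bound for points of the unit ball
  have hball : ∀ t u : ℝ, 0 ≤ t → 0 ≤ u → N0 m ((t : ℂ), (u : ℂ)) ≤ 1 → ‖α‖ * t + ‖β‖ * u ≤ 1 := by
    intro t u ht hu h1
    obtain ⟨θ1, h11, h12⟩ : ∃ θ : ℂ, ‖θ‖ = 1 ∧ θ * α = (‖α‖ : ℂ) := by
      by_cases h0 : α = 0
      · exact ⟨1, norm_one, by rw [h0]; simp⟩
      · have hbn : (‖α‖ : ℂ) ≠ 0 := by exact_mod_cast norm_ne_zero_iff.2 h0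
        refine ⟨(‖α‖ : ℂ) / α, ?_, ?_⟩
        · rw [norm_div, Complex.norm_real, norm_norm, div_self (norm_ne_zero_iff.2 h0)]
        · rw [div_mul_cancel₀ _ h0]
    obtain ⟨θ2, h21, h22⟩ : ∃ θ : ℂ, ‖θ‖ = 1 ∧ θ * β = (‖β‖ : ℂ) := by
      by_cases h0 : β = 0
      · exact ⟨1, norm_one, by rw [h0]; simp⟩
      · have hbn : (‖β‖ : ℂ) ≠ 0 := by exact_mod_cast norm_ne_zero_iff.2 h0
        refine ⟨(‖β‖ : ℂ) / β, ?_, ?_⟩
        · rw [norm_div, Complex.norm_real, norm_norm, div_self (norm_ne_zero_iff.2 h0)]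
        · rw [div_mul_cancel₀ _ h0]
    have h3 := φ.le_opNorm (pt hN (t * θ1) (u * θ2))
    rw [hφ, one_mul, hlin, mul_assoc, h12, mul_assoc, h22] at h3
    have h4 : ‖pt hN (t * θ1) (u * θ2)‖ ≤ 1 := by
      have : ‖pt hN (t * θ1) (u * θ2)‖ = N0 m ((t : ℂ), (u : ℂ)) := by
        show N0 m ((t * θ1 : ℂ), (u * θ2 : ℂ)) = _
        unfold N0
        simp only [norm_mul, h11, h21, mul_one]
      rw [this]
      exact h1
    have h5 : ‖(t : ℂ) * (‖α‖ : ℂ) + (u : ℂ) * (‖β‖ : ℂ)‖ = ‖α‖ * t + ‖β‖ * u := by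
      have : (t : ℂ) * (‖α‖ : ℂ) + (u : ℂ) * (‖β‖ : ℂ) = ((‖α‖ * t + ‖β‖ * u : ℝ) : ℂ) := by
        push_cast; ring
      rw [this, Complex.norm_real, Real.norm_of_nonneg (by positivity)]
    rw [h5] at h3
    exact h3.trans h4
  have hcurve : ∀ t : ℝ, 0 ≤ t → t ≤ 1 → ‖α‖ * t + ‖β‖ * ((t - t ^ (m + 1)) / (cc m * m)) ≤ 1 := by
    intro t ht ht1
    have htk : t ^ (m + 1) ≤ t := by
      calc t ^ (m + 1) ≤ t ^ 1 := pow_le_pow_of_le_one ht ht1 (by omega)
        _ = t := pow_one t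
    have hu : 0 ≤ (t - t ^ (m + 1)) / (cc m * m) := div_nonneg (by linarith) (by positivity)
    apply hball t _ ht hu
    apply N0_le hm
    intro r hr1 hr2
    have hr0 : 0 < r := (xm_pos m).trans_le hr1
    simp only [Complex.norm_real, Real.norm_of_nonneg ht, Real.norm_of_nonneg hu]
    have e : aa m r * t + bb m r * ((t - t ^ (m + 1)) / (cc m * m)) =
        (((m : ℝ) + 1) * r ^ m * t - t ^ (m + 1)) / (m * r ^ (m + 1)) := by
      rw [aa, bb]
      field_simp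
      ring
    rw [e, div_le_one (by positivity)]
    have := amgm m hr0 ht
    linarith
  by_cases hcase : s ≤ xm m
  · have h1 : ‖β‖ ≤ 1 := by
      have := hcurve (xm m) (xm_pos m).le (xm_le_one hm)
      have e : (xm m - (xm m) ^ (m + 1)) / (cc m * m) = 1 := by
        rw [div_eq_one_iff_eq (by positivity), ← cc_eq hm, cc]
        field_simp
        ring
      rw [e, mul_one] at this
      have h2 : 0 ≤ ‖α‖ * xm m := mul_nonneg (norm_nonneg _) (xm_pos m).le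
      linarith
    rw [cc_eq hm]
    calc ‖β‖ * s ^ (m + 1) ≤ 1 * (xm m) ^ (m + 1) := by gcongr
      _ = _ := one_mul _
  · push Not at hcase
    have hspos : 0 < s := (xm_pos m).trans hcase
    have hyb : cc m * m * y ≤ s - s ^ (m + 1) := by
      have h1 := le_N0 hm (v : ℂ × ℂ) hcase.le hs1
      have h2 : aa m s * s + bb m s * y ≤ 1 := by
        rw [← hv]
        exact h1
      have e : aa m s * s + bb m s * y =
          ((((m : ℝ) + 1) * s ^ m - 1) * s + cc m * m * y) / (m * s ^ (m + 1)) := by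
        rw [aa, bb]
        field_simp
      rw [e, div_le_one (by positivity)] at h2
      have e2 : (((m : ℝ) + 1) * s ^ m - 1) * s = (m + 1) * s ^ (m + 1) - s := by ring
      rw [e2] at h2
      linarith
    have hcm : 0 < cc m * m := by positivity
    have h1le : 1 ≤ ‖α‖ * s + ‖β‖ * ((s - s ^ (m + 1)) / (cc m * m)) := by
      have hy' : y ≤ (s - s ^ (m + 1)) / (cc m * m) := by
        rw [le_div_iff₀ hcm]
        linarith
      have h2 : φ v = co1 hN v * α + co2 hN v * β := by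
        conv_lhs => rw [eq_pt hN v]
        rw [hlin]
      have h3 : ‖φ v‖ ≤ ‖α‖ * s + ‖β‖ * y := by
        rw [h2]
        refine (norm_add_le _ _).trans ?_
        rw [norm_mul, norm_mul]
        linarith
      rw [hφv, norm_one] at h3
      refine h3.trans ?_
      gcongr
    have hder : ∀ t : ℝ, 0 < t → t < s → ‖β‖ * (((m : ℝ) + 1) * t ^ m - 1) ≤ cc m * m * ‖α‖ := by
      intro t ht hts
      have h4 := (hcurve t ht.le (hts.le.trans hs1)).trans h1le
      have h5 : ‖β‖ * (((t - t ^ (m + 1)) - (s - s ^ (m + 1))) / (cc m * m)) ≤ ‖α‖ * (s - t) := by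
        rw [sub_div, mul_sub]
        linarith
      have h6 : ‖β‖ * ((t - t ^ (m + 1)) - (s - s ^ (m + 1))) ≤ cc m * m * ‖α‖ * (s - t) := by
        rw [← mul_div_assoc, div_le_iff₀ hcm] at h5
        linarith
      have h7 := amgm m ht hs0
      have h8 : (((m : ℝ) + 1) * t ^ m - 1) * (s - t) ≤ (t - t ^ (m + 1)) - (s - s ^ (m + 1)) := by
        have : (((m : ℝ) + 1) * t ^ m - 1) * (s - t) =
          ((m : ℝ) + 1) * t ^ m * s - (m + 1) * t ^ (m + 1) - s + t := by ring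
        rw [this]
        linarith
      have h9 := mul_le_mul_of_nonneg_left h8 (norm_nonneg β)
      have h10 : ‖β‖ * (((m : ℝ) + 1) * t ^ m - 1) * (s - t) ≤ cc m * m * ‖α‖ * (s - t) := by
        rw [mul_assoc]
        exact h9.trans h6
      exact le_of_mul_le_mul_right h10 (by linarith)
    have hders : ‖β‖ * (((m : ℝ) + 1) * s ^ m - 1) ≤ cc m * m * ‖α‖ := by
      have hcont : Continuous (fun t : ℝ => ‖β‖ * (((m : ℝ) + 1) * t ^ m - 1)) := by fun_prop
      have ht := (hcont.tendsto s).mono_left (nhdsWithin_le_nhds (s := Set.Iio s))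
      apply le_of_tendsto ht
      filter_upwards [Ioo_mem_nhdsLT hspos] with t ht
      exact hder t ht.1 ht.2
    have hfin := hcurve s hs0 hs1
    have h11 : cc m * m * ‖α‖ * s + ‖β‖ * (s - s ^ (m + 1)) ≤ cc m * m := by
      have : cc m * m * (‖α‖ * s + ‖β‖ * ((s - s ^ (m + 1)) / (cc m * m))) =
          cc m * m * ‖α‖ * s + ‖β‖ * (s - s ^ (m + 1)) := by
        field_simp
      rw [← this]
      calc _ ≤ cc m * m * 1 := by gcongr
        _ = _ := mul_one _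
    have h12 := mul_le_mul_of_nonneg_right hders hs0
    have h13 : ‖β‖ * (((m : ℝ) + 1) * s ^ m - 1) * s + ‖β‖ * (s - s ^ (m + 1)) =
        m * (‖β‖ * s ^ (m + 1)) := by ring
    have h14 : m * (‖β‖ * s ^ (m + 1)) ≤ m * cc m := by linarith
    exact le_of_mul_le_mul_left h14 hm0

theorem N0_index (hN : IsNm (N0 m)) : numIndex (m + 1) (Sp (N0 m) hN) ≤ cc m := by
  set π : StrongDual ℂ (Sp (N0 m) hN) := LinearMap.toContinuousLinearMap (co1 hN) with hπ
  have hπv : ∀ v, π v = co1 hN v := fun v => rfl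
  set A : ContinuousMultilinearMap ℂ (fun _ : Fin (m + 1) => Sp (N0 m) hN) (Sp (N0 m) hN) :=
    ((ContinuousMultilinearMap.mkPiAlgebra ℂ (Fin (m + 1)) ℂ).compContinuousLinearMap
      (fun _ => π)).smulRight (pt hN 0 1) with hA
  have hval : ∀ y, (A fun _ => y) = (co1 hN y) ^ (m + 1) • pt hN 0 1 := by
    intro y
    simp [hA, hπv]
  have h01 : ‖pt hN 0 1‖ = 1 := by
    show N0 m ((0 : ℂ), (1 : ℂ)) = 1
    apply le_antisymm
    · have := N0_le_add hm ((0 : ℂ), (1 : ℂ))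
      simpa using this
    · have := N0_snd hm ((0 : ℂ), (1 : ℂ))
      simpa using this
  have h10 : ‖pt hN 1 0‖ = 1 := by
    show N0 m ((1 : ℂ), (0 : ℂ)) = 1
    apply le_antisymm
    · have := N0_le_add hm ((1 : ℂ), (0 : ℂ))
      simpa using this
    · have := N0_fst' hm ((1 : ℂ), (0 : ℂ))
      simpa using this
  have hA1 : polyNorm A = 1 := by
    apply le_antisymm
    · apply Real.sSup_le _ zero_le_one
      rintro r ⟨x, hx, rfl⟩
      rw [hval, norm_smul, h01, mul_one, norm_pow]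
      apply pow_le_one₀ (norm_nonneg _)
      rw [← hx]
      exact N0_fst' hm (x : ℂ × ℂ)
    · have := le_polyNorm A h10
      rw [hval, co1_pt, one_pow, one_smul, h01] at this
      exact this
  refine (numIndex_le A hA1).trans ?_
  apply Real.sSup_le _ (cc_pos m).le
  rintro r ⟨x, φ, hx, hφ, hφx, rfl⟩
  rw [hval, map_smul, norm_smul, norm_pow, mul_comm]
  exact beta_bound hm hN φ hφ x hx hφx

end

end Pool.Agent.H6.NI
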