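import Pool.Agent.H6.NI6

namespace Pool.Agent.H6.NI

open Pool.Agent.H6.NIDefs

theorem const_eq {m : ℕ} (hm : 1 ≤ m) :
    (((m + 1 : ℕ) : ℝ)) ^ ((((m + 1 : ℕ) : ℝ)) / (1 - ((m + 1 : ℕ) : ℝ))) = cc m := by
  have hm0 := mpos hm
  have e1 : (((m + 1 : ℕ) : ℝ)) / (1 - ((m + 1 : ℕ) : ℝ)) = -(1 / (m : ℝ) + 1) := by
    have hm1 : (m : ℝ) ≠ 0 := hm0.ne'
    have e2 : (1 : ℝ) - ((m : ℝ) + 1) = -(m : ℝ) := by ring
    push_cast
    rw [e2, div_neg, add_div, div_self hm1]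
    ring
  rw [e1, Real.rpow_neg (by positivity), Real.rpow_add (by positivity), Real.rpow_one, cc, xm, rt]
  push_cast
  field_simp

theorem main (k : ℕ) (hk : 2 ≤ k) :
    rangeC k = Set.Icc ((k : ℝ) ^ ((k : ℝ) / (1 - (k : ℝ)))) 1 := by
  obtain ⟨m, rfl⟩ : ∃ m, k = m + 1 := ⟨k - 1, by omega⟩
  have hm : 1 ≤ m := by omega
  rw [const_eq hm]
  apply Set.Subset.antisymm
  · rintro r ⟨X, i1, i2, i3, i4, rfl⟩
    constructor
    · have := harris_index (X := X) hm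
      have e : (((m : ℝ) + 1) ^ (1 / (m : ℝ)) * (m + 1))⁻¹ = cc m := by
        rw [cc, xm, rt, mul_inv]
        exact (div_eq_mul_inv _ _).symm
      rwa [e] at this
    · exact numIndex_le_one
  · rintro r ⟨h1, h2⟩
    obtain ⟨N, hN, hr⟩ := path_ivt (m := m) (isNm_N0 hm) isNm_sup (by
        intro v
        exact max_le (N0_fst' hm v) (N0_snd hm v)) (by
        intro v
        refine (N0_le_add hm v).trans ?_
        have a1 : ‖v.1‖ ≤ ‖v‖ := le_max_left _ _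
        have a2 : ‖v.2‖ ≤ ‖v‖ := le_max_right _ _
        linarith) ((N0_index hm (isNm_N0 hm)).trans h1) (h2.trans (sup_index m).ge)
    exact ⟨Sp N hN, inferInstance, inferInstance, inferInstance, inferInstance, hr⟩

end Pool.Agent.H6.NI
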