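import Mathlib

/-!
Polynomial numerical indices of complex Banach spaces.
-/

namespace Pool.Agent.H6.NIDefs

section
variable {X : Type} [NormedAddCommGroup X] [NormedSpace ℂ X] {k : ℕ}

/-- The norm `‖P‖ = sup {‖P(x)‖ : ‖x‖ = 1}` of the `k`-homogeneous polynomial
`P(x) = A(x, ..., x)`. -/
noncomputable def polyNorm (A : ContinuousMultilinearMap ℂ (fun _ : Fin k => X) X) : ℝ :=
  sSup {r : ℝ | ∃ x : X, ‖x‖ = 1 ∧ r = ‖A fun _ => x‖}

/-- The numerical radius `v(P)` of the `k`-homogeneous polynomial `P(x) = A(x, ..., x)`: the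
supremum of `|φ(P(x))|` over unit vectors `x` and unit functionals `φ` with `φ(x) = 1`. -/
noncomputable def numRadius (A : ContinuousMultilinearMap ℂ (fun _ : Fin k => X) X) : ℝ :=
  sSup {r : ℝ | ∃ (x : X) (φ : StrongDual ℂ X), ‖x‖ = 1 ∧ ‖φ‖ = 1 ∧ φ x = 1 ∧
    r = ‖φ (A fun _ => x)‖}

end

/-- The polynomial numerical index `n^(k)(X)` of order `k`: the infimum of `v(P)` over the
`k`-homogeneous polynomials `P` with `‖P‖ = 1`. -/
noncomputable def numIndex (k : ℕ) (X : Type) [NormedAddCommGroup X] [NormedSpace ℂ X] : ℝ :=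
  sInf {r : ℝ | ∃ A : ContinuousMultilinearMap ℂ (fun _ : Fin k => X) X,
    polyNorm A = 1 ∧ r = numRadius A}

/-- The set `C_k` of the values `n^(k)(X)` for `X` a nonzero complex Banach space. -/
def rangeC (k : ℕ) : Set ℝ :=
  {r : ℝ | ∃ (X : Type) (_ : NormedAddCommGroup X) (_ : NormedSpace ℂ X) (_ : CompleteSpace X)
    (_ : Nontrivial X), r = numIndex k X}

end Pool.Agent.H6.NIDefs
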