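import Mathlib

set_option autoImplicit false

namespace Pool.Agent.H6.NS

open Complex Metric Filter Topology ComplexConjugate

lemma moebius_identity (a b : ℂ) :
    ‖1 - conj b * a‖ ^ 2 - ‖a - b‖ ^ 2 = (1 - ‖a‖ ^ 2) * (1 - ‖b‖ ^ 2) := by
  have h : ∀ z : ℂ, ‖z‖ ^ 2 = z.re ^ 2 + z.im ^ 2 := by
    intro z
    rw [Complex.sq_norm, Complex.normSq_apply]
    ring
  rw [h, h, h, h]
  simp only [sub_re, sub_im, mul_re, mul_im, conj_re, conj_im, one_re, one_im]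
  ring

lemma one_sub_ne {a b : ℂ} (ha : ‖a‖ < 1) (hb : ‖b‖ < 1) : 1 - conj b * a ≠ 0 := by
  intro h
  have h1 : conj b * a = 1 := (sub_eq_zero.1 h).symm
  have h2 : ‖conj b * a‖ < 1 := by
    rw [norm_mul, RCLike.norm_conj]
    nlinarith [norm_nonneg a, norm_nonneg b]
  rw [h1] at h2
  simp at h2

/-- Schwarz-Pick inequality, two point form -/
lemma schwarzPick {φ : ℂ → ℂ} (hd : DifferentiableOn ℂ φ (ball 0 1))
    (hm : Set.MapsTo φ (ball 0 1) (ball 0 1)) {z w : ℂ} (hz : ‖z‖ < 1) (hw : ‖w‖ < 1) :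
    ‖1 - conj (φ w) * φ z‖ ^ 2 * ((1 - ‖z‖ ^ 2) * (1 - ‖w‖ ^ 2)) ≤
      (1 - ‖φ z‖ ^ 2) * (1 - ‖φ w‖ ^ 2) * ‖1 - conj w * z‖ ^ 2 := by
  have hφ : ∀ x : ℂ, ‖x‖ < 1 → ‖φ x‖ < 1 := by
    intro x hx
    have := hm (mem_ball_zero_iff.2 hx)
    exact mem_ball_zero_iff.1 this
  -- the Moebius map
  obtain ⟨m, hmdef⟩ : ∃ m : ℂ → ℂ, m = fun ξ => (ξ + w) / (1 + conj w * ξ) := ⟨_, rfl⟩
  have hden : ∀ ξ : ℂ, ‖ξ‖ < 1 → 1 + conj w * ξ ≠ 0 := by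
    intro ξ hξ
    have := one_sub_ne (a := -ξ) (b := w) (by rwa [norm_neg]) hw
    rwa [mul_neg, sub_neg_eq_add] at this
  have hm1 : ∀ ξ : ℂ, ‖ξ‖ < 1 → ‖m ξ‖ < 1 := by
    intro ξ hξ
    rw [hmdef]
    simp only
    rw [norm_div, div_lt_one (norm_pos_iff.2 (hden ξ hξ))]
    have h1 := moebius_identity (-ξ) w
    rw [norm_neg, mul_neg, sub_neg_eq_add, show -ξ - w = -(ξ + w) by ring, norm_neg] at h1
    have h2 : 0 < (1 - ‖ξ‖ ^ 2) * (1 - ‖w‖ ^ 2) := by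
      apply mul_pos
      · nlinarith [norm_nonneg ξ]
      · nlinarith [norm_nonneg w]
    exact lt_of_pow_lt_pow_left₀ 2 (norm_nonneg _) (by linarith)
  have hmdiff : DifferentiableOn ℂ m (ball 0 1) := by
    rw [hmdef]
    apply DifferentiableOn.div
    · fun_prop
    · fun_prop
    · intro ξ hξ
      exact hden ξ (mem_ball_zero_iff.1 hξ)
  obtain ⟨g, hgdef⟩ : ∃ g : ℂ → ℂ, g = fun ξ => (φ (m ξ) - φ w) / (1 - conj (φ w) * φ (m ξ)) := ⟨_, rfl⟩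
  have hgdiff : DifferentiableOn ℂ g (ball 0 1) := by
    rw [hgdef]
    have hc : DifferentiableOn ℂ (fun ξ => φ (m ξ)) (ball 0 1) := by
      apply hd.comp hmdiff
      intro ξ hξ
      exact mem_ball_zero_iff.2 (hm1 ξ (mem_ball_zero_iff.1 hξ))
    apply DifferentiableOn.div
    · exact hc.sub_const _
    · exact (hc.const_mul _).const_sub _
    · intro ξ hξ
      exact one_sub_ne (hφ _ (hm1 ξ (mem_ball_zero_iff.1 hξ))) (hφ w hw)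
  have hm0 : m 0 = w := by rw [hmdef]; simp
  have hg0 : g 0 = 0 := by rw [hgdef]; simp [hm0]
  have hgmaps : Set.MapsTo g (ball 0 1) (closedBall (g 0) 1) := by
    intro ξ hξ
    rw [hg0, mem_closedBall_zero_iff, hgdef]
    simp only
    have h0 := hm1 ξ (mem_ball_zero_iff.1 hξ)
    rw [norm_div, div_le_one (norm_pos_iff.2 (one_sub_ne (hφ _ h0) (hφ w hw)))]
    have h1 := moebius_identity (φ (m ξ)) (φ w)
    have h2 : 0 < (1 - ‖φ (m ξ)‖ ^ 2) * (1 - ‖φ w‖ ^ 2) := by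
      apply mul_pos
      · nlinarith [norm_nonneg (φ (m ξ)), hφ _ h0]
      · nlinarith [norm_nonneg (φ w), hφ w hw]
    exact (lt_of_pow_lt_pow_left₀ 2 (norm_nonneg _) (by linarith)).le
  -- the point
  obtain ⟨ξ, hξ⟩ : ∃ ξ : ℂ, ξ = (z - w) / (1 - conj w * z) := ⟨_, rfl⟩
  have hd1 := one_sub_ne hz hw
  have hξ1 : ‖ξ‖ < 1 := by
    rw [hξ, norm_div, div_lt_one (norm_pos_iff.2 hd1)]
    have h1 := moebius_identity z w
    have h2 : 0 < (1 - ‖z‖ ^ 2) * (1 - ‖w‖ ^ 2) := by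
      apply mul_pos
      · nlinarith [norm_nonneg z]
      · nlinarith [norm_nonneg w]
    exact lt_of_pow_lt_pow_left₀ 2 (norm_nonneg _) (by linarith)
  have hww : 1 - conj w * w ≠ 0 := one_sub_ne hw hw
  have hmξ : m ξ = z := by
    rw [hmdef]
    simp only
    rw [div_eq_iff (hden ξ hξ1), hξ]
    obtain ⟨d, hd'⟩ : ∃ d, d = 1 - conj w * z := ⟨_, rfl⟩
    rw [← hd'] at hd1 ⊢
    field_simp
    linear_combination (w - z) * hd'
  have hs := Complex.dist_le_dist_of_mapsTo_ball hgdiff hgmaps (mem_ball_zero_iff.2 hξ1)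
  rw [hg0, dist_zero_right, dist_zero_right, hgdef] at hs
  simp only [hmξ] at hs
  rw [hξ, norm_div, norm_div] at hs
  have hp1 : 0 < ‖1 - conj (φ w) * φ z‖ := norm_pos_iff.2 (one_sub_ne (hφ z hz) (hφ w hw))
  have hp2 : 0 < ‖1 - conj w * z‖ := norm_pos_iff.2 hd1
  rw [div_le_div_iff₀ hp1 hp2] at hs
  have hs2 : (‖φ z - φ w‖ * ‖1 - conj w * z‖) ^ 2 ≤ (‖z - w‖ * ‖1 - conj (φ w) * φ z‖) ^ 2 :=
    pow_le_pow_left₀ (by positivity) hs 2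
  have e1 := moebius_identity (φ z) (φ w)
  have e2 := moebius_identity z w
  rw [← e1, ← e2]
  nlinarith [hs2]

/-- Julia's inequality at a boundary point `ζ` with value `b` and constant `D`. -/
def Julia (φ : ℂ → ℂ) (ζ b : ℂ) (D : ℝ) : Prop :=
  ∀ z : ℂ, ‖z‖ < 1 → ‖1 - conj b * φ z‖ ^ 2 * (1 - ‖z‖ ^ 2) ≤
    D * (1 - ‖φ z‖ ^ 2) * ‖1 - conj ζ * z‖ ^ 2

/-- Radial behaviour at a boundary point: the three cases. -/
lemma radial {φ : ℂ → ℂ} (hd : DifferentiableOn ℂ φ (ball 0 1))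
    (hm : Set.MapsTo φ (ball 0 1) (ball 0 1)) {ζ : ℂ} (hζ : ‖ζ‖ = 1) :
    (∀ M : ℝ, ∀ᶠ r : ℝ in 𝓝[<] 1, M * (1 - r) < 1 - ‖φ (r * ζ)‖) ∨
    (∃ (b : ℂ) (D : ℝ), ‖b‖ = 1 ∧ 0 ≤ D ∧ Julia φ ζ b D ∧
      ∀ ε > 0, ∀ᶠ r : ℝ in 𝓝[<] 1, (D - ε) * (1 - r) < 1 - ‖φ (r * ζ)‖) := by
  by_cases hcase : ∀ M : ℝ, ∀ᶠ r : ℝ in 𝓝[<] 1, M * (1 - r) < 1 - ‖φ (r * ζ)‖
  · exact Or.inl hcase
  right
  push Not at hcase
  obtain ⟨M0, hM0⟩ := hcase
  have hev : ∀ᶠ r : ℝ in 𝓝[<] 1, 0 < r ∧ r < 1 := by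
    filter_upwards [Ioo_mem_nhdsLT (show (0 : ℝ) < 1 by norm_num)] with r hr
    exact hr
  have hnorm : ∀ r : ℝ, 0 < r → r < 1 → ‖(r : ℂ) * ζ‖ = r := by
    intro r h0 _
    rw [norm_mul, hζ, mul_one, Complex.norm_real, Real.norm_of_nonneg h0.le]
  have hφr : ∀ r : ℝ, 0 < r → r < 1 → ‖φ (r * ζ)‖ < 1 := by
    intro r h0 h1
    have := hm (mem_ball_zero_iff.2 (by rw [hnorm r h0 h1]; exact h1) : (r : ℂ) * ζ ∈ ball 0 1)
    exact mem_ball_zero_iff.1 this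
  obtain ⟨q, hq⟩ : ∃ q : ℝ → ℝ, q = fun r : ℝ => (1 - ‖φ ((r : ℂ) * ζ)‖) / (1 - r) := ⟨_, rfl⟩
  obtain ⟨S, hS⟩ : ∃ S : Set ℝ, S = {M : ℝ | ∃ᶠ r in 𝓝[<] 1, q r ≤ M} := ⟨_, rfl⟩
  have hSne : M0 ∈ S := by
    rw [hS]
    refine (Filter.Frequently.and_eventually hM0 hev).mono ?_
    intro r ⟨h1, h2⟩
    rw [hq]
    simp only
    rw [div_le_iff₀ (by linarith [h2.2])]
    exact h1
  have hSbdd : ∀ M ∈ S, 0 ≤ M := by
    intro M hM
    rw [hS] at hM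
    obtain ⟨r, h1, h2⟩ := (Filter.Frequently.and_eventually hM hev).exists
    refine le_trans ?_ h1
    rw [hq]
    exact div_nonneg (by linarith [hφr r h2.1 h2.2]) (by linarith [h2.2])
  obtain ⟨D, hD⟩ : ∃ D, D = sInf S := ⟨_, rfl⟩
  have hD0 : 0 ≤ D := by
    rw [hD]
    exact le_csInf ⟨M0, hSne⟩ hSbdd
  have hlow : ∀ ε > 0, ∀ᶠ r in 𝓝[<] 1, D - ε < q r := by
    intro ε hε
    by_contra h
    rw [Filter.not_eventually] at h
    have : D - ε ∈ S := by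
      rw [hS]
      exact h.mono (fun r hr => not_lt.1 hr)
    have h2 : D ≤ D - ε := by
      rw [hD]
      rw [hD] at this
      exact csInf_le ⟨0, hSbdd⟩ this
    linarith
  have hupp : ∀ ε > 0, ∃ᶠ r in 𝓝[<] 1, q r < D + ε := by
    intro ε hε
    obtain ⟨M, hM, hM2⟩ := exists_lt_of_csInf_lt (s := S) ⟨M0, hSne⟩ (show sInf S < D + ε by rw [← hD]; linarith)
    rw [hS] at hM
    exact Filter.Frequently.mono hM (fun r hr => lt_of_le_of_lt hr hM2)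
  have hclust : MapClusterPt D (𝓝[<] 1) q := by
    rw [mapClusterPt_iff_frequently]
    intro s hs
    obtain ⟨ε, hε, hsub⟩ := Metric.mem_nhds_iff.1 hs
    refine ((hupp ε hε).and_eventually (hlow ε hε)).mono ?_
    rintro r ⟨h1, h2⟩
    apply hsub
    rw [mem_ball, Real.dist_eq, abs_lt]
    constructor <;> linarith
  obtain ⟨U, hU, hUq⟩ := mapClusterPt_iff_ultrafilter.1 hclust
  have hUev : ∀ᶠ r : ℝ in (U : Filter ℝ), 0 < r ∧ r < 1 := hU hev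
  have hUid : Tendsto (fun r : ℝ => r) (U : Filter ℝ) (𝓝 1) :=
    (tendsto_id.mono_right (hU.trans nhdsWithin_le_nhds) : Tendsto id (U : Filter ℝ) (𝓝 1))
  -- the limit point b
  obtain ⟨b, hb1, hb⟩ : ∃ b ∈ closedBall (0 : ℂ) 1, Tendsto (fun r : ℝ => φ (r * ζ)) (U : Filter ℝ) (𝓝 b) := by
    have hc := (isCompact_closedBall (0 : ℂ) 1).ultrafilter_le_nhds (U.map (fun r : ℝ => φ (r * ζ))) (by
      rw [le_principal_iff, Ultrafilter.mem_coe, Ultrafilter.mem_map]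
      filter_upwards [hUev] with r hr
      rw [Set.mem_preimage, mem_closedBall_zero_iff]
      exact (hφr r hr.1 hr.2).le)
    obtain ⟨b, hb1, hb2⟩ := hc
    exact ⟨b, hb1, hb2⟩
  have h1r : Tendsto (fun r : ℝ => 1 - r) (U : Filter ℝ) (𝓝 0) := by
    have := hUid.const_sub 1
    simpa using this
  have hbn : ‖b‖ = 1 := by
    have h1 : Tendsto (fun r : ℝ => q r * (1 - r)) (U : Filter ℝ) (𝓝 (D * 0)) := hUq.mul h1r
    have h2 : Tendsto (fun r : ℝ => q r * (1 - r)) (U : Filter ℝ) (𝓝 (1 - ‖b‖)) := by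
      refine (hb.norm.const_sub 1).congr' ?_
      filter_upwards [hUev] with r hr
      rw [hq]
      simp only
      rw [div_mul_cancel₀]
      linarith [hr.2]
    have := tendsto_nhds_unique h1 h2
    linarith
  refine ⟨b, D, hbn, hD0, ?_, ?_⟩
  · intro z hz
    -- pass to the limit in Schwarz-Pick
    have hz1 : 0 < 1 - ‖z‖ ^ 2 := by nlinarith [norm_nonneg z]
    have hL : Tendsto (fun r : ℝ => ‖1 - conj (φ (r * ζ)) * φ z‖ ^ 2 * (1 - ‖z‖ ^ 2)) (U : Filter ℝ)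
        (𝓝 (‖1 - conj b * φ z‖ ^ 2 * (1 - ‖z‖ ^ 2))) := by
      have h1 : Tendsto (fun r : ℝ => conj (φ (r * ζ))) (U : Filter ℝ) (𝓝 (conj b)) :=
        (Complex.continuous_conj.tendsto b).comp hb
      exact (((h1.mul_const (φ z)).const_sub 1).norm.pow 2).mul_const _
    have hR : Tendsto (fun r : ℝ => (1 - ‖φ z‖ ^ 2) * (q r * (1 + ‖φ (r * ζ)‖) / (1 + r)) *
        ‖1 - conj ((r : ℂ) * ζ) * z‖ ^ 2) (U : Filter ℝ)
        (𝓝 ((1 - ‖φ z‖ ^ 2) * (D * (1 + ‖b‖) / (1 + 1)) * ‖1 - conj ((1 : ℝ) * ζ) * z‖ ^ 2)) := by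
      have h1 : Tendsto (fun r : ℝ => q r * (1 + ‖φ (r * ζ)‖) / (1 + r)) (U : Filter ℝ)
          (𝓝 (D * (1 + ‖b‖) / (1 + 1))) :=
        (hUq.mul (hb.norm.const_add 1)).div (hUid.const_add 1) (by norm_num)
      have h2 : Tendsto (fun r : ℝ => conj ((r : ℂ) * ζ)) (U : Filter ℝ) (𝓝 (conj (((1 : ℝ) : ℂ) * ζ))) := by
        apply (Complex.continuous_conj.tendsto _).comp
        exact ((Complex.continuous_ofReal.tendsto 1).comp hUid).mul_const ζ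
      exact (h1.const_mul _).mul (((h2.mul_const z).const_sub 1).norm.pow 2)
    have hle := le_of_tendsto_of_tendsto hL hR (by
      filter_upwards [hUev] with r hr
      have hrn := hnorm r hr.1 hr.2
      have hsp := schwarzPick hd hm hz (w := (r : ℂ) * ζ) (by rw [hrn]; exact hr.2)
      rw [hrn] at hsp
      have hpos : 0 < 1 - r ^ 2 := by nlinarith [hr.1, hr.2]
      have e : q r * (1 + ‖φ (r * ζ)‖) / (1 + r) = (1 - ‖φ (r * ζ)‖ ^ 2) / (1 - r ^ 2) := by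
        rw [hq]
        simp only
        have h1 : (1 : ℝ) - r ≠ 0 := by linarith [hr.2]
        have h2 : (1 : ℝ) + r ≠ 0 := by linarith [hr.1]
        rw [show (1 : ℝ) - r ^ 2 = (1 - r) * (1 + r) by ring,
          show (1 : ℝ) - ‖φ (r * ζ)‖ ^ 2 = (1 - ‖φ (r * ζ)‖) * (1 + ‖φ (r * ζ)‖) by ring]
        field_simp
      rw [e]
      have e2 : (1 - ‖φ z‖ ^ 2) * ((1 - ‖φ (↑r * ζ)‖ ^ 2) / (1 - r ^ 2)) * ‖1 - conj (↑r * ζ) * z‖ ^ 2 =
        ((1 - ‖φ z‖ ^ 2) * (1 - ‖φ (↑r * ζ)‖ ^ 2) * ‖1 - conj (↑r * ζ) * z‖ ^ 2) / (1 - r ^ 2) := by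
        ring
      rw [e2, le_div_iff₀ hpos]
      calc ‖1 - conj (φ (↑r * ζ)) * φ z‖ ^ 2 * (1 - ‖z‖ ^ 2) * (1 - r ^ 2)
          = ‖1 - conj (φ (↑r * ζ)) * φ z‖ ^ 2 * ((1 - ‖z‖ ^ 2) * (1 - r ^ 2)) := by ring
        _ ≤ _ := hsp)
    rw [hbn] at hle
    calc ‖1 - conj b * φ z‖ ^ 2 * (1 - ‖z‖ ^ 2) ≤ _ := hle
      _ = D * (1 - ‖φ z‖ ^ 2) * ‖1 - conj ζ * z‖ ^ 2 := by
        rw [Complex.ofReal_one, one_mul]; ring
  · intro ε hε
    filter_upwards [hlow ε hε, hev] with r h1 h2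
    rw [hq] at h1
    simp only at h1
    rwa [lt_div_iff₀ (by linarith [h2.2])] at h1

end Pool.Agent.H6.NS
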