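import Mathlib
import Pool.Agent.H6.NSA

set_option autoImplicit false

namespace Pool.Agent.H6.NS

open Complex Metric Filter Topology ComplexConjugate

lemma tendsto_seq {δ : ℝ} (hδ : 0 < δ) : Tendsto (fun N : ℕ => 1 - δ / (N : ℝ)) atTop (𝓝[<] 1) := by
  rw [tendsto_nhdsWithin_iff]
  constructor
  · have := (tendsto_const_div_atTop_nhds_zero_nat δ).const_sub 1
    simpa using this
  · filter_upwards [eventually_gt_atTop 0] with N hN
    have : (0 : ℝ) < N := by exact_mod_cast hN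
    rw [Set.mem_Iio]
    have := div_pos hδ this
    linarith

section

variable {φ : ℂ → ℂ} (hd : DifferentiableOn ℂ φ (ball 0 1))
  (hm : Set.MapsTo φ (ball 0 1) (ball 0 1)) {ζ : ℂ} (hζ : ‖ζ‖ = 1)

include hm hζ in
lemma norm_lt {r : ℝ} (h0 : 0 < r) (h1 : r < 1) : ‖φ (r * ζ)‖ < 1 := by
  have hn : ‖(r : ℂ) * ζ‖ = r := by
    rw [norm_mul, hζ, mul_one, Complex.norm_real, Real.norm_of_nonneg h0.le]
  have := hm (mem_ball_zero_iff.2 (by rw [hn]; exact h1) : (r : ℂ) * ζ ∈ ball 0 1)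
  exact mem_ball_zero_iff.1 this

lemma eventually_seq (δ : ℝ) (hδ : 0 < δ) : ∀ᶠ N : ℕ in atTop, 0 < (N : ℝ) ∧
    0 < 1 - δ / (N : ℝ) ∧ 1 - δ / (N : ℝ) < 1 := by
  have h := (tendsto_seq hδ).eventually (Ioo_mem_nhdsLT (show (0 : ℝ) < 1 by norm_num))
  filter_upwards [h, eventually_gt_atTop 0] with N h1 h2
  exact ⟨by exact_mod_cast h2, h1.1, h1.2⟩

lemma case_inf (h : ∀ M : ℝ, ∀ᶠ r : ℝ in 𝓝[<] 1, M * (1 - r) < 1 - ‖φ (r * ζ)‖) {δ : ℝ}
    (hδ : 0 < δ) :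
    Tendsto (fun N : ℕ => ‖φ (((1 - δ / (N : ℝ) : ℝ) : ℂ) * ζ)‖ ^ N) atTop (𝓝 0) := by
  rw [Metric.tendsto_atTop']
  intro ε hε
  -- choose M with exp (-M δ) < ε
  obtain ⟨M, hM⟩ : ∃ M : ℝ, Real.exp (-(M * δ)) < ε := by
    have h1 : Tendsto (fun M : ℝ => Real.exp (-(M * δ))) atTop (𝓝 0) :=
      Real.tendsto_exp_neg_atTop_nhds_zero.comp (tendsto_id.atTop_mul_const hδ)
    exact (h1.eventually (gt_mem_nhds hε)).exists
  have h2 := (tendsto_seq hδ).eventually (h M)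
  obtain ⟨N0, hN0⟩ := (h2.and (eventually_seq δ hδ)).exists_forall_of_atTop
  refine ⟨N0, fun N hN => ?_⟩
  obtain ⟨h3, h4, h5, h6⟩ := hN0 N hN.le
  rw [dist_zero_right, norm_pow, norm_norm]
  have h7 : ‖φ (((1 - δ / (N : ℝ) : ℝ) : ℂ) * ζ)‖ ≤ Real.exp (-(M * δ) / N) := by
    have e : M * (1 - (1 - δ / (N : ℝ))) = M * δ / N := by ring
    rw [e] at h3
    have := Real.add_one_le_exp (-(M * δ) / N)
    have e2 : -(M * δ) / N = -(M * δ / N) := by ring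
    rw [e2] at this ⊢
    linarith
  calc ‖φ (((1 - δ / (N : ℝ) : ℝ) : ℂ) * ζ)‖ ^ N ≤ (Real.exp (-(M * δ) / N)) ^ N :=
        pow_le_pow_left₀ (norm_nonneg _) h7 N
    _ = Real.exp (-(M * δ)) := by
        rw [← Real.exp_nat_mul]
        congr 1
        field_simp
    _ < ε := hM

include hm hζ in
lemma case_fin {b : ℂ} {D : ℝ} (hb : ‖b‖ = 1) (hD : 0 ≤ D) (hJ : Julia φ ζ b D)
    (hlow : ∀ ε > 0, ∀ᶠ r : ℝ in 𝓝[<] 1, (D - ε) * (1 - r) < 1 - ‖φ (r * ζ)‖) {δ : ℝ}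
    (hδ : 0 < δ) :
    Tendsto (fun N : ℕ => (N : ℝ) * (1 - ‖φ (((1 - δ / (N : ℝ) : ℝ) : ℂ) * ζ)‖)) atTop (𝓝 (D * δ)) ∧
    Tendsto (fun N : ℕ => (N : ℂ) * (-(1 - conj b * φ (((1 - δ / (N : ℝ) : ℝ) : ℂ) * ζ)))) atTop
      (𝓝 (-((D * δ : ℝ) : ℂ))) := by
  obtain ⟨r, hr⟩ : ∃ r : ℕ → ℝ, r = fun N : ℕ => 1 - δ / (N : ℝ) := ⟨_, rfl⟩
  have hrN : ∀ N : ℕ, 1 - δ / (N : ℝ) = r N := by intro N; rw [hr]
  simp only [hrN]
  have hrev : ∀ᶠ N : ℕ in atTop, 0 < (N : ℝ) ∧ 0 < r N ∧ r N < 1 := by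
    rw [hr]; exact eventually_seq δ hδ
  have hrlim : Tendsto r atTop (𝓝[<] 1) := by rw [hr]; exact tendsto_seq hδ
  have hrlim' : Tendsto r atTop (𝓝 1) := hrlim.mono_right nhdsWithin_le_nhds
  obtain ⟨t, ht⟩ : ∃ t : ℕ → ℂ, t = fun N => 1 - conj b * φ ((r N : ℂ) * ζ) := ⟨_, rfl⟩
  have htN : ∀ N, 1 - conj b * φ ((r N : ℂ) * ζ) = t N := by intro N; rw [ht]
  simp only [htN]
  -- basic inequalities
  have hbasic : ∀ᶠ N : ℕ in atTop,
      (N : ℝ) * (1 - ‖φ ((r N : ℂ) * ζ)‖) ≤ N * (t N).re ∧ (N : ℝ) * (t N).re ≤ N * ‖t N‖ ∧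
      (N : ℝ) * ‖t N‖ ≤ 2 * D * δ / (1 + r N) := by
    filter_upwards [hrev] with N hN
    obtain ⟨hN0, hr0, hr1⟩ := hN
    have hφ1 := norm_lt hm hζ hr0 hr1
    have h1 : 1 - ‖φ ((r N : ℂ) * ζ)‖ ≤ (t N).re := by
      rw [← htN, sub_re, one_re]
      have : (conj b * φ ((r N : ℂ) * ζ)).re ≤ ‖conj b * φ ((r N : ℂ) * ζ)‖ := re_le_norm _
      rw [norm_mul, RCLike.norm_conj, hb, one_mul] at this
      linarith
    have h2 : (t N).re ≤ ‖t N‖ := re_le_norm _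
    refine ⟨mul_le_mul_of_nonneg_left h1 hN0.le, mul_le_mul_of_nonneg_left h2 hN0.le, ?_⟩
    have hrn : ‖(r N : ℂ) * ζ‖ = r N := by
      rw [norm_mul, hζ, mul_one, Complex.norm_real, Real.norm_of_nonneg hr0.le]
    have hj := hJ ((r N : ℂ) * ζ) (by rw [hrn]; exact hr1)
    rw [htN, hrn] at hj
    have hζζ : conj ζ * ((r N : ℂ) * ζ) = (r N : ℂ) := by
      have : conj ζ * ζ = 1 := by
        rw [← Complex.normSq_eq_conj_mul_self, Complex.normSq_eq_norm_sq, hζ]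
        norm_num
      calc conj ζ * ((r N : ℂ) * ζ) = (r N : ℂ) * (conj ζ * ζ) := by ring
        _ = (r N : ℂ) := by rw [this, mul_one]
    rw [hζζ] at hj
    have h1r : ‖(1 : ℂ) - (r N : ℂ)‖ = 1 - r N := by
      rw [← Complex.ofReal_one, ← Complex.ofReal_sub, Complex.norm_real, Real.norm_of_nonneg (by linarith)]
    rw [h1r] at hj
    have ht0 : 0 < ‖t N‖ := by linarith
    have h3 : 1 - ‖φ ((r N : ℂ) * ζ)‖ ^ 2 ≤ 2 * ‖t N‖ := by
      nlinarith [norm_nonneg (φ ((r N : ℂ) * ζ))]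
    have h4 : ‖t N‖ ^ 2 * (1 - r N ^ 2) ≤ D * (2 * ‖t N‖) * (1 - r N) ^ 2 := by
      refine hj.trans ?_
      have : D * (1 - ‖φ ((r N : ℂ) * ζ)‖ ^ 2) ≤ D * (2 * ‖t N‖) := mul_le_mul_of_nonneg_left h3 hD
      exact mul_le_mul_of_nonneg_right this (by positivity)
    have h5 : ‖t N‖ * (1 + r N) ≤ 2 * D * (1 - r N) := by
      have hp : 0 < ‖t N‖ * (1 - r N) := mul_pos ht0 (by linarith)
      have : (‖t N‖ * (1 - r N)) * (‖t N‖ * (1 + r N)) ≤ (‖t N‖ * (1 - r N)) * (2 * D * (1 - r N)) := by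
        nlinarith [h4]
      exact le_of_mul_le_mul_left this hp
    rw [le_div_iff₀ (by linarith)]
    have h6 : (N : ℝ) * (1 - r N) = δ := by
      rw [← hrN]
      field_simp
      ring
    calc (N : ℝ) * ‖t N‖ * (1 + r N) = N * (‖t N‖ * (1 + r N)) := by ring
      _ ≤ N * (2 * D * (1 - r N)) := mul_le_mul_of_nonneg_left h5 hN0.le
      _ = 2 * D * (N * (1 - r N)) := by ring
      _ = 2 * D * δ := by rw [h6]
  have hup : Tendsto (fun N : ℕ => 2 * D * δ / (1 + r N)) atTop (𝓝 (D * δ)) := by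
    have := (tendsto_const_nhds (x := 2 * D * δ)).div (hrlim'.const_add 1) (by norm_num : (1 : ℝ) + 1 ≠ 0)
    have e : 2 * D * δ / (1 + 1) = D * δ := by ring
    rwa [e] at this
  have hy : Tendsto (fun N : ℕ => (N : ℝ) * (1 - ‖φ ((r N : ℂ) * ζ)‖)) atTop (𝓝 (D * δ)) := by
    rw [tendsto_order]
    constructor
    · intro a ha
      have hε : 0 < (D * δ - a) / (2 * δ) := by
        apply div_pos (by linarith) (by linarith)
      filter_upwards [hrlim.eventually (hlow _ hε), hrev] with N h1 h2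
      have h3 : (N : ℝ) * (1 - r N) = δ := by
        rw [← hrN]
        have := h2.1
        field_simp
        ring
      have h4 : (N : ℝ) * ((D - (D * δ - a) / (2 * δ)) * (1 - r N)) < N * (1 - ‖φ ((r N : ℂ) * ζ)‖) :=
        mul_lt_mul_of_pos_left h1 h2.1
      have h5 : (N : ℝ) * ((D - (D * δ - a) / (2 * δ)) * (1 - r N)) =
          (D - (D * δ - a) / (2 * δ)) * (N * (1 - r N)) := by ring
      rw [h5, h3] at h4
      have h6 : (D - (D * δ - a) / (2 * δ)) * δ = (D * δ + a) / 2 := by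
        field_simp
        ring
      rw [h6] at h4
      linarith
    · intro a ha
      filter_upwards [hbasic, hup.eventually (gt_mem_nhds ha)] with N h1 h2
      linarith [h1.1, h1.2.1, h1.2.2]
  have hre : Tendsto (fun N : ℕ => (N : ℝ) * (t N).re) atTop (𝓝 (D * δ)) := by
    refine tendsto_of_tendsto_of_tendsto_of_le_of_le' hy hup ?_ ?_
    · filter_upwards [hbasic] with N h; exact h.1
    · filter_upwards [hbasic] with N h; exact h.2.1.trans h.2.2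
  have hno : Tendsto (fun N : ℕ => (N : ℝ) * ‖t N‖) atTop (𝓝 (D * δ)) := by
    refine tendsto_of_tendsto_of_tendsto_of_le_of_le' hre hup ?_ ?_
    · filter_upwards [hbasic] with N h; exact h.2.1
    · filter_upwards [hbasic] with N h; exact h.2.2
  refine ⟨hy, ?_⟩
  rw [tendsto_iff_norm_sub_tendsto_zero]
  have hsq : Tendsto (fun N : ℕ => ((N : ℝ) * ‖t N‖) ^ 2 - 2 * (D * δ) * (N * (t N).re) + (D * δ) ^ 2)
      atTop (𝓝 0) := by
    have := ((hno.pow 2).sub (hre.const_mul (2 * (D * δ)))).add_const ((D * δ) ^ 2)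
    have e : (D * δ) ^ 2 - 2 * (D * δ) * (D * δ) + (D * δ) ^ 2 = 0 := by ring
    rwa [e] at this
  have hsqrt := hsq.sqrt
  rw [Real.sqrt_zero] at hsqrt
  refine hsqrt.congr ?_
  intro N
  rw [← Real.sqrt_sq (norm_nonneg ((N : ℂ) * (-t N) - -((D * δ : ℝ) : ℂ)))]
  congr 1
  rw [Complex.sq_norm, Complex.normSq_apply]
  have h1 : ‖t N‖ ^ 2 = (t N).re * (t N).re + (t N).im * (t N).im := by
    rw [Complex.sq_norm, Complex.normSq_apply]
  rw [mul_pow, h1]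
  simp only [sub_re, sub_im, mul_re, mul_im, neg_re, neg_im, ofReal_re, ofReal_im, natCast_re,
    natCast_im]
  ring

include hd hm hζ in
/-- the limit facts used later, at each boundary point -/
lemma radial_seq : ∃ A : ℝ,
    Tendsto (fun N : ℕ => ‖φ (((1 - 1 / (N : ℝ) : ℝ) : ℂ) * ζ)‖ ^ N) atTop (𝓝 A) ∧
    Tendsto (fun N : ℕ => φ (((1 - 2 / (N : ℝ) : ℝ) : ℂ) * ζ) ^ N -
      (A : ℂ) * φ (((1 - 1 / (N : ℝ) : ℝ) : ℂ) * ζ) ^ N) atTop (𝓝 0) ∧
    (A = Real.exp (-1) → ∃ b : ℂ, ‖b‖ = 1 ∧ Julia φ ζ b 1 ∧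
      Tendsto (fun N : ℕ => (N : ℝ) * (1 - ‖φ (((1 - 1 / (N : ℝ) : ℝ) : ℂ) * ζ)‖)) atTop (𝓝 1)) := by
  rcases radial hd hm hζ with h | ⟨b, D, hb, hD, hJ, hlow⟩
  · have h1 := case_inf h (δ := 1) one_pos
    have h2 := case_inf h (δ := 2) two_pos
    refine ⟨0, h1, ?_, fun hA => absurd hA (Real.exp_pos _).ne⟩
    rw [tendsto_zero_iff_norm_tendsto_zero]
    refine h2.congr (fun N => ?_)
    rw [Complex.ofReal_zero, zero_mul, sub_zero, norm_pow]
  · obtain ⟨hy1, ht1⟩ := case_fin hm hζ hb hD hJ hlow (δ := 1) one_pos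
    obtain ⟨hy2, ht2⟩ := case_fin hm hζ hb hD hJ hlow (δ := 2) two_pos
    have he1 := Complex.tendsto_one_add_pow_exp_of_tendsto ht1
    have he2 := Complex.tendsto_one_add_pow_exp_of_tendsto ht2
    have hbb : b * conj b = 1 := by
      rw [Complex.mul_conj, Complex.normSq_eq_norm_sq, hb]
      norm_num
    have hφe : ∀ x : ℂ, φ x = b * (1 + -(1 - conj b * φ x)) := by
      intro x
      have : b * (1 + -(1 - conj b * φ x)) = (b * conj b) * φ x := by ring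
      rw [this, hbb, one_mul]
    refine ⟨Real.exp (-D), ?_, ?_, ?_⟩
    · have h1 := he1.norm
      have e : ‖Complex.exp (-((D * 1 : ℝ) : ℂ))‖ = Real.exp (-D) := by
        rw [mul_one, ← Complex.ofReal_neg, Complex.norm_exp_ofReal]
      rw [e] at h1
      refine h1.congr (fun N => ?_)
      rw [norm_pow]
      conv_rhs => rw [hφe]
      rw [norm_mul, hb, one_mul]
    · have h1 := he2.sub (he1.const_mul ((Real.exp (-D) : ℝ) : ℂ))
      have e : Complex.exp (-((D * 2 : ℝ) : ℂ)) - ((Real.exp (-D) : ℝ) : ℂ) *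
          Complex.exp (-((D * 1 : ℝ) : ℂ)) = 0 := by
        rw [Complex.ofReal_exp, ← Complex.exp_add, sub_eq_zero]
        congr 1
        push_cast
        ring
      rw [e] at h1
      rw [tendsto_zero_iff_norm_tendsto_zero] at h1 ⊢
      refine h1.congr (fun N => ?_)
      have e1 : φ (((1 - 2 / (N : ℝ) : ℝ) : ℂ) * ζ) ^ N - ((Real.exp (-D) : ℝ) : ℂ) *
          φ (((1 - 1 / (N : ℝ) : ℝ) : ℂ) * ζ) ^ N = b ^ N *
          ((1 + -(1 - conj b * φ (((1 - 2 / (N : ℝ) : ℝ) : ℂ) * ζ))) ^ N -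
          ((Real.exp (-D) : ℝ) : ℂ) * (1 + -(1 - conj b * φ (((1 - 1 / (N : ℝ) : ℝ) : ℂ) * ζ))) ^ N) := by
        conv_lhs => rw [hφe (((1 - 2 / (N : ℝ) : ℝ) : ℂ) * ζ), hφe (((1 - 1 / (N : ℝ) : ℝ) : ℂ) * ζ)]
        rw [mul_pow, mul_pow]
        ring
      rw [e1, norm_mul, norm_pow, hb, one_pow, one_mul]
    · intro hA
      have hD1 : D = 1 := by
        have := Real.exp_injective hA
        linarith
      subst hD1
      rw [one_mul] at hy1
      exact ⟨b, hb, hJ, hy1⟩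

end

end Pool.Agent.H6.NS
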