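import Mathlib
import Pool.Agent.H6.NSB

set_option autoImplicit false

namespace Pool.Agent.H6.NS

open Complex Metric Filter Topology ComplexConjugate

lemma re_cayley {a b : ℂ} (hb : ‖b‖ = 1) (ha : ‖a‖ < 1) :
    ((b + a) / (b - a)).re = (1 - ‖a‖ ^ 2) / ‖b - a‖ ^ 2 := by
  have hne : b - a ≠ 0 := by
    intro h
    rw [sub_eq_zero.1 h] at hb
    linarith
  have hn : normSq (b - a) ≠ 0 := by
    rw [Ne, normSq_eq_zero]; exact hne
  rw [Complex.div_re, ← add_div, Complex.sq_norm (b - a)]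
  congr 1
  have h1 : b.re ^ 2 + b.im ^ 2 = 1 := by
    have := Complex.sq_norm b
    rw [hb, Complex.normSq_apply] at this
    linarith
  have h2 : ‖a‖ ^ 2 = a.re ^ 2 + a.im ^ 2 := by
    rw [Complex.sq_norm, Complex.normSq_apply]; ring
  rw [h2]
  simp only [add_re, add_im, sub_re, sub_im]
  linear_combination h1

lemma norm_one_sub_conj {b : ℂ} (hb : ‖b‖ = 1) (a : ℂ) : ‖1 - conj b * a‖ = ‖b - a‖ := by
  have hbb : b * conj b = 1 := by
    rw [Complex.mul_conj, Complex.normSq_eq_norm_sq, hb]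
    norm_num
  have : b * (1 - conj b * a) = b - a := by
    calc b * (1 - conj b * a) = b - (b * conj b) * a := by ring
      _ = b - a := by rw [hbb, one_mul]
  rw [← this, norm_mul, hb, one_mul]

lemma harnack {f : ℂ → ℂ} {w : ℂ} {R : ℝ} (hR : 0 < R) (hf : DifferentiableOn ℂ f (ball w R))
    (hre : ∀ x ∈ ball w R, 0 ≤ (f x).re) {z : ℂ} (hz : ‖z - w‖ < R) :
    ‖f z‖ ≤ ‖f w‖ * (R + ‖z - w‖) / (R - ‖z - w‖) := by
  have hg : DifferentiableOn ℂ (fun x => -f (w + x)) (ball 0 R) := by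
    apply DifferentiableOn.neg
    apply hf.comp
    · fun_prop
    · intro x hx
      rw [mem_ball_zero_iff] at hx
      rw [mem_ball, dist_eq_norm]
      simpa using hx
  have key : ∀ M : ℝ, 0 < M → ‖f z‖ ≤ 2 * M * ‖z - w‖ / (R - ‖z - w‖) +
      ‖f w‖ * (R + ‖z - w‖) / (R - ‖z - w‖) := by
    intro M hM
    have := Complex.borelCaratheodory hM hg (fun x hx => by
      rw [mem_ball_zero_iff] at hx
      have h1 := hre (w + x) (by rw [mem_ball, dist_eq_norm]; simpa using hx)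
      show (-f (w + x)).re ≤ M
      rw [neg_re]
      linarith) hR (z := z - w) (mem_ball_zero_iff.2 hz)
    simpa using this
  have hpos : 0 < R - ‖z - w‖ := by linarith
  apply le_of_forall_pos_le_add
  intro ε hε
  have hM : 0 < ε * (R - ‖z - w‖) / (2 * (‖z - w‖ + 1)) := by positivity
  have h1 := key _ hM
  have h2 : 2 * (ε * (R - ‖z - w‖) / (2 * (‖z - w‖ + 1))) * ‖z - w‖ / (R - ‖z - w‖) ≤ ε := by
    have e : 2 * (ε * (R - ‖z - w‖) / (2 * (‖z - w‖ + 1))) * ‖z - w‖ / (R - ‖z - w‖) =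
        ε * (‖z - w‖ / (‖z - w‖ + 1)) := by
      field_simp
    rw [e]
    have h3 : ‖z - w‖ / (‖z - w‖ + 1) ≤ 1 := by
      rw [div_le_one (by positivity)]; linarith
    nlinarith
  linarith

lemma harnack_deriv {f : ℂ → ℂ} {w : ℂ} {R : ℝ} (hR : 0 < R) (hf : DifferentiableOn ℂ f (ball w R))
    (hre : ∀ x ∈ ball w R, 0 ≤ (f x).re) {z : ℂ} (hz : ‖z - w‖ < R / 2) :
    ‖f z‖ ≤ 7 * ‖f w‖ ∧ ‖deriv f z‖ ≤ 28 * ‖f w‖ / R := by
  have h7 : ∀ x : ℂ, ‖x - w‖ ≤ 3 * R / 4 → ‖f x‖ ≤ 7 * ‖f w‖ := by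
    intro x hx
    have h := harnack hR hf hre (z := x) (by linarith)
    refine h.trans ?_
    rw [div_le_iff₀ (by linarith)]
    nlinarith [norm_nonneg (f w), norm_nonneg (x - w)]
  refine ⟨h7 z (by linarith), ?_⟩
  have hsub : closedBall z (R / 4) ⊆ ball w R := by
    intro x hx
    rw [mem_closedBall, dist_eq_norm] at hx
    rw [mem_ball, dist_eq_norm]
    calc ‖x - w‖ = ‖(x - z) + (z - w)‖ := by ring_nf
      _ ≤ ‖x - z‖ + ‖z - w‖ := norm_add_le _ _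
      _ < R := by linarith
  have hdc : DiffContOnCl ℂ f (ball z (R / 4)) := by
    apply DifferentiableOn.diffContOnCl
    rw [closure_ball z (by positivity)]
    exact hf.mono hsub
  have h := Complex.norm_deriv_le_of_forall_mem_sphere_norm_le (by positivity : 0 < R / 4) hdc
    (C := 7 * ‖f w‖) (by
      intro x hx
      apply h7
      rw [mem_sphere, dist_eq_norm] at hx
      calc ‖x - w‖ = ‖(x - z) + (z - w)‖ := by ring_nf
        _ ≤ ‖x - z‖ + ‖z - w‖ := norm_add_le _ _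
        _ ≤ 3 * R / 4 := by linarith)
  refine h.trans (le_of_eq ?_)
  field_simp
  ring

/-- the main estimate near a point with angular derivative of modulus one -/
lemma F_bound {φ : ℂ → ℂ} (hd : DifferentiableOn ℂ φ (ball 0 1))
    (hm : Set.MapsTo φ (ball 0 1) (ball 0 1)) {ζ b : ℂ} (hζ : ‖ζ‖ = 1) (hb : ‖b‖ = 1)
    (hJ : Julia φ ζ b 1) {N : ℕ} (hN : 2 ≤ N) {ε : ℝ} (hε : 0 ≤ ε) (hε2 : ε ≤ 1 / 2)
    (hy : 1 - ε ≤ (N : ℝ) * (1 - ‖φ (((1 - 1 / (N : ℝ) : ℝ) : ℂ) * ζ)‖)) {η : ℝ}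
    (hη : η = 4 * Real.sqrt ((2 * N / (2 * N - 1)) ^ 2 - 1 + 2 * ε)) {z : ℂ}
    (hz : ‖z - ((1 - 1 / (N : ℝ) : ℝ) : ℂ) * ζ‖ < 1 / (2 * N)) :
    ‖z * deriv φ z - φ z‖ ≤ 2300 * η + 1000 * η ^ 2 := by
  have hNr : (2 : ℝ) ≤ N := by exact_mod_cast hN
  obtain ⟨R, hR⟩ : ∃ R : ℝ, R = 1 / (N : ℝ) := ⟨_, rfl⟩
  have hR0 : 0 < R := by rw [hR]; positivity
  have hR1 : R ≤ 1 / 2 := by
    rw [hR]
    exact one_div_le_one_div_of_le (by norm_num) hNr
  have hNR : (N : ℝ) * R = 1 := by rw [hR]; field_simp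
  obtain ⟨w, hw⟩ : ∃ w : ℂ, w = ((1 - R : ℝ) : ℂ) * ζ := ⟨_, rfl⟩
  rw [← hR, ← hw] at hz hy
  have hz' : ‖z - w‖ < R / 2 := by
    have : (1 : ℝ) / (2 * N) = R / 2 := by rw [hR]; field_simp
    rwa [this] at hz
  have hwn : ‖w‖ = 1 - R := by
    rw [hw, norm_mul, hζ, mul_one, Complex.norm_real, Real.norm_of_nonneg (by linarith)]
  have hball : ∀ x ∈ ball w R, ‖x‖ < 1 := by
    intro x hx
    rw [mem_ball, dist_eq_norm] at hx
    calc ‖x‖ = ‖(x - w) + w‖ := by ring_nf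
      _ ≤ ‖x - w‖ + ‖w‖ := norm_add_le _ _
      _ < 1 := by rw [hwn]; linarith
  have hφ : ∀ x : ℂ, ‖x‖ < 1 → ‖φ x‖ < 1 := by
    intro x hx
    exact mem_ball_zero_iff.1 (hm (mem_ball_zero_iff.2 hx))
  have hbne : ∀ x : ℂ, ‖x‖ < 1 → b - φ x ≠ 0 := by
    intro x hx h
    have h1 := hφ x hx
    rw [← sub_eq_zero.1 h, hb] at h1
    exact lt_irrefl _ h1
  have hζne : ∀ x : ℂ, ‖x‖ < 1 → ζ - x ≠ 0 := by
    intro x hx h
    rw [← sub_eq_zero.1 h, hζ] at hx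
    exact lt_irrefl _ hx
  obtain ⟨p, hp⟩ : ∃ p : ℂ → ℂ, p = fun x => (b + φ x) / (b - φ x) - (ζ + x) / (ζ - x) := ⟨_, rfl⟩
  have hsub : ball w R ⊆ ball 0 1 := fun x hx => mem_ball_zero_iff.2 (hball x hx)
  have hpd : DifferentiableOn ℂ p (ball w R) := by
    rw [hp]
    have hd' := hd.mono hsub
    apply DifferentiableOn.sub
    · apply DifferentiableOn.div
      · exact hd'.const_add _
      · exact hd'.const_sub _
      · intro x hx; exact hbne x (hball x hx)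
    · apply DifferentiableOn.div
      · fun_prop
      · fun_prop
      · intro x hx; exact hζne x (hball x hx)
  have hJ' : ∀ x : ℂ, ‖x‖ < 1 → ‖b - φ x‖ ^ 2 * (1 - ‖x‖ ^ 2) ≤ (1 - ‖φ x‖ ^ 2) * ‖ζ - x‖ ^ 2 := by
    intro x hx
    have := hJ x hx
    rwa [norm_one_sub_conj hb, norm_one_sub_conj hζ, one_mul] at this
  have hpre : ∀ x ∈ ball w R, 0 ≤ (p x).re := by
    intro x hx
    have hx1 := hball x hx
    rw [hp]
    simp only
    rw [sub_re, re_cayley hb (hφ x hx1), re_cayley hζ hx1, sub_nonneg,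
      div_le_div_iff₀ (pow_pos (norm_pos_iff.2 (hζne x hx1)) 2) (pow_pos (norm_pos_iff.2 (hbne x hx1)) 2)]
    have := hJ' x hx1
    linarith
  obtain ⟨hp7, hp28⟩ := harnack_deriv hR0 hpd hpre hz'
  -- bound of p w
  have hw1 : ‖w‖ < 1 := by rw [hwn]; linarith
  have hpw : ‖p w‖ ≤ η * N := by
    obtain ⟨t, ht⟩ : ∃ t : ℂ, t = 1 - conj b * φ w := ⟨_, rfl⟩
    have hbb : b * conj b = 1 := by
      rw [Complex.mul_conj, Complex.normSq_eq_norm_sq, hb]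
      norm_num
    have hb0 : b ≠ 0 := by
      intro h; rw [h, norm_zero] at hb; exact zero_ne_one hb
    have hζ0 : ζ ≠ 0 := by
      intro h; rw [h, norm_zero] at hζ; exact zero_ne_one hζ
    have hφw : φ w = b * (1 - t) := by
      rw [ht]
      calc φ w = (b * conj b) * φ w := by rw [hbb, one_mul]
        _ = b * (1 - (1 - conj b * φ w)) := by ring
    have htlow : 1 - ‖φ w‖ ≤ t.re := by
      rw [ht, sub_re, one_re]
      have : (conj b * φ w).re ≤ ‖conj b * φ w‖ := re_le_norm _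
      rw [norm_mul, RCLike.norm_conj, hb, one_mul] at this
      linarith
    have htre : t.re ≤ ‖t‖ := re_le_norm _
    have hφw1 := hφ w hw1
    have ht0 : 0 < ‖t‖ := by linarith
    have htne : t ≠ 0 := norm_pos_iff.1 ht0
    have hpwe : p w = 2 * (1 - N * t) / t := by
      rw [hp]
      simp only
      rw [hφw]
      have e1 : (b + b * (1 - t)) / (b - b * (1 - t)) = (2 - t) / t := by
        rw [show b + b * (1 - t) = b * (2 - t) by ring, show b - b * (1 - t) = b * t by ring,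
          mul_div_mul_left _ _ hb0]
      have hRc : (R : ℂ) ≠ 0 := by exact_mod_cast hR0.ne'
      have e2 : (ζ + w) / (ζ - w) = (2 - R) / R := by
        rw [hw, show ζ + ((1 - R : ℝ) : ℂ) * ζ = ζ * (2 - R) by push_cast; ring,
          show ζ - ((1 - R : ℝ) : ℂ) * ζ = ζ * R by push_cast; ring, mul_div_mul_left _ _ hζ0]
      rw [e1, e2]
      have hNRc : (N : ℂ) * R = 1 := by exact_mod_cast hNR
      have hN' : (N : ℂ) = 1 / R := by
        field_simp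
        exact hNRc
      rw [hN']
      field_simp
      ring
    have htup : (N : ℝ) * ‖t‖ ≤ 2 * N / (2 * N - 1) := by
      have hj := hJ' w hw1
      rw [← norm_one_sub_conj hb, ← ht, hwn] at hj
      have hζw : ‖ζ - w‖ = R := by
        rw [hw, show ζ - ((1 - R : ℝ) : ℂ) * ζ = ζ * R by push_cast; ring, norm_mul, hζ, one_mul,
          Complex.norm_real, Real.norm_of_nonneg hR0.le]
      rw [hζw] at hj
      have h3 : 1 - ‖φ w‖ ^ 2 ≤ 2 * ‖t‖ := by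
        nlinarith [norm_nonneg (φ w)]
      have h4 : ‖t‖ ^ 2 * (1 - (1 - R) ^ 2) ≤ (2 * ‖t‖) * R ^ 2 :=
        hj.trans (mul_le_mul_of_nonneg_right h3 (by positivity))
      have h5 : ‖t‖ * (2 - R) ≤ 2 * R := by
        have hpp : 0 < ‖t‖ * R := mul_pos ht0 hR0
        have : (‖t‖ * R) * (‖t‖ * (2 - R)) ≤ (‖t‖ * R) * (2 * R) := by nlinarith [h4]
        exact le_of_mul_le_mul_left this hpp
      rw [le_div_iff₀ (by linarith)]
      have h6 : (N : ℝ) * ‖t‖ * (2 * N - 1) = (N * N) * (‖t‖ * (2 - R)) := by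
        have : (N : ℝ) * (N * (‖t‖ * (2 - R))) = N * ‖t‖ * (2 * N - N * R) := by ring
        rw [hNR] at this
        linarith
      rw [h6]
      calc ((N : ℝ) * N) * (‖t‖ * (2 - R)) ≤ (N * N) * (2 * R) := by
            apply mul_le_mul_of_nonneg_left h5; positivity
        _ = 2 * N * (N * R) := by ring
        _ = 2 * N := by rw [hNR, mul_one]
    have h1t : ‖1 - (N : ℂ) * t‖ ≤ Real.sqrt ((2 * N / (2 * N - 1)) ^ 2 - 1 + 2 * ε) := by
      apply Real.le_sqrt_of_sq_le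
      have e : ‖1 - (N : ℂ) * t‖ ^ 2 = 1 - 2 * (N * t.re) + (N * ‖t‖) ^ 2 := by
        have h1 : ‖t‖ ^ 2 = t.re * t.re + t.im * t.im := by
          rw [Complex.sq_norm, Complex.normSq_apply]
        rw [Complex.sq_norm, Complex.normSq_apply, mul_pow, h1]
        simp only [sub_re, sub_im, mul_re, mul_im, one_re, one_im, natCast_re, natCast_im]
        ring
      rw [e]
      have h1 : 1 - ε ≤ N * t.re := hy.trans (mul_le_mul_of_nonneg_left htlow (by positivity))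
      have h2 : ((N : ℝ) * ‖t‖) ^ 2 ≤ (2 * N / (2 * N - 1)) ^ 2 :=
        pow_le_pow_left₀ (by positivity) htup 2
      linarith
    have htl : 1 / 2 ≤ (N : ℝ) * ‖t‖ := by
      have h1 : 1 - ε ≤ N * t.re := hy.trans (mul_le_mul_of_nonneg_left htlow (by positivity))
      have h2 : (N : ℝ) * t.re ≤ N * ‖t‖ := mul_le_mul_of_nonneg_left htre (by positivity)
      linarith
    rw [hpwe, norm_div, norm_mul, div_le_iff₀ ht0, hη]
    have h2n : ‖(2 : ℂ)‖ = 2 := by norm_num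
    rw [h2n]
    have hs0 : 0 ≤ Real.sqrt ((2 * N / (2 * N - 1)) ^ 2 - 1 + 2 * ε) := Real.sqrt_nonneg _
    nlinarith [h1t, htl, hs0]
  -- other bounds
  have hz1 : ‖z‖ < 1 := hball z (by rw [mem_ball, dist_eq_norm]; linarith)
  have hzR : 1 - ‖z‖ ≥ R / 2 := by
    have : ‖z‖ ≤ ‖z - w‖ + ‖w‖ := by
      calc ‖z‖ = ‖(z - w) + w‖ := by ring_nf
        _ ≤ ‖z - w‖ + ‖w‖ := norm_add_le _ _
    rw [hwn] at this
    linarith
  have hζw : ‖ζ - w‖ = R := by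
    rw [hw, show ζ - ((1 - R : ℝ) : ℂ) * ζ = ζ * R by push_cast; ring, norm_mul, hζ, one_mul,
      Complex.norm_real, Real.norm_of_nonneg hR0.le]
  have hζz : ‖ζ - z‖ ≤ 3 * R / 2 := by
    calc ‖ζ - z‖ = ‖(ζ - w) - (z - w)‖ := by ring_nf
      _ ≤ ‖ζ - w‖ + ‖z - w‖ := norm_sub_le _ _
      _ ≤ 3 * R / 2 := by rw [hζw]; linarith
  have hζz' : R / 2 ≤ ‖ζ - z‖ := by
    have : ‖ζ‖ ≤ ‖ζ - z‖ + ‖z‖ := by
      calc ‖ζ‖ = ‖(ζ - z) + z‖ := by ring_nf
        _ ≤ ‖ζ - z‖ + ‖z‖ := norm_add_le _ _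
    rw [hζ] at this
    linarith
  have hx0 : 0 < ‖b - φ z‖ := norm_pos_iff.2 (hbne z hz1)
  have hbφ : ‖b - φ z‖ ≤ 9 * R := by
    have hj := hJ' z hz1
    have h1 : 1 - ‖φ z‖ ≤ ‖b - φ z‖ := by
      have : ‖b‖ ≤ ‖b - φ z‖ + ‖φ z‖ := by
        calc ‖b‖ = ‖(b - φ z) + φ z‖ := by ring_nf
          _ ≤ ‖b - φ z‖ + ‖φ z‖ := norm_add_le _ _
      rw [hb] at this
      linarith
    have h3 : 1 - ‖φ z‖ ^ 2 ≤ 2 * ‖b - φ z‖ := by
      nlinarith [norm_nonneg (φ z), hφ z hz1]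
    have h4 : ‖b - φ z‖ ^ 2 * (R / 2) ≤ (2 * ‖b - φ z‖) * (3 * R / 2) ^ 2 := by
      calc ‖b - φ z‖ ^ 2 * (R / 2) ≤ ‖b - φ z‖ ^ 2 * (1 - ‖z‖ ^ 2) := by
            apply mul_le_mul_of_nonneg_left _ (by positivity)
            nlinarith [norm_nonneg z]
        _ ≤ (1 - ‖φ z‖ ^ 2) * ‖ζ - z‖ ^ 2 := hj
        _ ≤ (2 * ‖b - φ z‖) * (3 * R / 2) ^ 2 := by
            apply mul_le_mul h3 _ (by positivity) (by positivity)
            exact pow_le_pow_left₀ (norm_nonneg _) hζz 2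
    have h5 : (‖b - φ z‖ * (R / 2)) * ‖b - φ z‖ ≤ (‖b - φ z‖ * (R / 2)) * (9 * R) := by
      nlinarith [h4]
    exact le_of_mul_le_mul_left h5 (by positivity)
  have hq : ‖(ζ + z) / (ζ - z)‖ ≤ 4 / R := by
    rw [norm_div, div_le_div_iff₀ (norm_pos_iff.2 (hζne z hz1)) hR0]
    have : ‖ζ + z‖ ≤ 2 := by
      calc ‖ζ + z‖ ≤ ‖ζ‖ + ‖z‖ := norm_add_le _ _
        _ ≤ 2 := by rw [hζ]; linarith
    nlinarith
  -- derivative of p
  have hφdz : HasDerivAt φ (deriv φ z) z :=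
    (hd.differentiableAt (isOpen_ball.mem_nhds (mem_ball_zero_iff.2 hz1))).hasDerivAt
  have hpdz : HasDerivAt p (((deriv φ z) * (b - φ z) - (b + φ z) * (-(deriv φ z))) / (b - φ z) ^ 2 -
      ((1 : ℂ) * (ζ - z) - (ζ + z) * (-1)) / (ζ - z) ^ 2) z := by
    rw [hp]
    exact ((hφdz.const_add b).div (hφdz.const_sub b) (hbne z hz1)).sub
      (((hasDerivAt_id z).const_add ζ).div ((hasDerivAt_id z).const_sub ζ) (hζne z hz1))
  have hb0 : b ≠ 0 := by
    intro h; rw [h, norm_zero] at hb; exact zero_ne_one hb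
  have hident : z * deriv φ z - φ z = (b - φ z) ^ 2 / (4 * b) *
      (2 * z * deriv p z - p z ^ 2 - 2 * (p z * ((ζ + z) / (ζ - z)))) := by
    rw [hpdz.deriv, hp]
    simp only
    have h1 := hbne z hz1
    have h2 := hζne z hz1
    field_simp
    ring
  rw [hident, norm_mul, norm_div, norm_pow, norm_mul, hb]
  have h4n : ‖(4 : ℂ)‖ = 4 := by norm_num
  rw [h4n, mul_one]
  have hη0 : 0 ≤ η := by rw [hη]; positivity
  have hpwR : ‖p w‖ ≤ η / R := by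
    rw [hR]; simpa using hpw
  have hb1 : ‖2 * z * deriv p z‖ ≤ 56 * η / R ^ 2 := by
    rw [norm_mul, norm_mul]
    have h2n : ‖(2 : ℂ)‖ = 2 := by norm_num
    rw [h2n]
    have h1 : ‖deriv p z‖ ≤ 28 * (η / R) / R := hp28.trans (by gcongr)
    calc 2 * ‖z‖ * ‖deriv p z‖ ≤ 2 * 1 * (28 * (η / R) / R) := by gcongr
      _ = 56 * η / R ^ 2 := by field_simp; ring
  have hb2 : ‖p z ^ 2‖ ≤ 49 * η ^ 2 / R ^ 2 := by
    rw [norm_pow]
    have h1 : ‖p z‖ ≤ 7 * (η / R) := hp7.trans (by gcongr)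
    calc ‖p z‖ ^ 2 ≤ (7 * (η / R)) ^ 2 := by gcongr
      _ = 49 * η ^ 2 / R ^ 2 := by field_simp; ring
  have hb3 : ‖2 * (p z * ((ζ + z) / (ζ - z)))‖ ≤ 56 * η / R ^ 2 := by
    rw [norm_mul, norm_mul]
    have h2n : ‖(2 : ℂ)‖ = 2 := by norm_num
    rw [h2n]
    have h1 : ‖p z‖ ≤ 7 * (η / R) := hp7.trans (by gcongr)
    calc 2 * (‖p z‖ * ‖(ζ + z) / (ζ - z)‖) ≤ 2 * ((7 * (η / R)) * (4 / R)) := by gcongr
      _ = 56 * η / R ^ 2 := by field_simp; ring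
  have hsum : ‖2 * z * deriv p z - p z ^ 2 - 2 * (p z * ((ζ + z) / (ζ - z)))‖ ≤
      (112 * η + 49 * η ^ 2) / R ^ 2 := by
    calc _ ≤ ‖2 * z * deriv p z - p z ^ 2‖ + ‖2 * (p z * ((ζ + z) / (ζ - z)))‖ := norm_sub_le _ _
      _ ≤ ‖2 * z * deriv p z‖ + ‖p z ^ 2‖ + ‖2 * (p z * ((ζ + z) / (ζ - z)))‖ := by
          gcongr; exact norm_sub_le _ _
      _ ≤ 56 * η / R ^ 2 + 49 * η ^ 2 / R ^ 2 + 56 * η / R ^ 2 := by gcongr
      _ = (112 * η + 49 * η ^ 2) / R ^ 2 := by ring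
  calc ‖b - φ z‖ ^ 2 / 4 * ‖2 * z * deriv p z - p z ^ 2 - 2 * (p z * ((ζ + z) / (ζ - z)))‖
      ≤ (9 * R) ^ 2 / 4 * ((112 * η + 49 * η ^ 2) / R ^ 2) := by gcongr
    _ = 81 / 4 * (112 * η + 49 * η ^ 2) := by field_simp; ring
    _ ≤ 2300 * η + 1000 * η ^ 2 := by nlinarith [sq_nonneg η]

end Pool.Agent.H6.NS
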