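import Mathlib

set_option autoImplicit false

namespace Pool.Agent.H6.NS

open Complex Metric Filter Topology ComplexConjugate MeasureTheory Set

/-- boundary data: zero on the image of `Θ`, one elsewhere -/
noncomputable def bd (Θ : Set ℝ) (x : ℂ) : ℂ := by
  classical
  exact if x ∈ circleMap 0 1 '' (Θ ∩ Ioo 0 (2 * Real.pi)) then 0 else 1

/-- Herglotz integral -/
noncomputable def Hz (Θ : Set ℝ) (z : ℂ) : ℂ :=
  Real.circleAverage (fun x => herglotzRieszKernel 0 z x • bd Θ x) 0 1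

/-- Poisson kernel in angular coordinate -/
noncomputable def Pk (z : ℂ) (θ : ℝ) : ℝ := (1 - ‖z‖ ^ 2) / ‖circleMap 0 1 θ - z‖ ^ 2

lemma bd_mem {Θ : Set ℝ} {θ : ℝ} (h : θ ∈ Θ ∩ Ioo 0 (2 * Real.pi)) : bd Θ (circleMap 0 1 θ) = 0 := by
  unfold bd
  rw [if_pos ⟨θ, h, rfl⟩]

lemma bd_notMem {Θ : Set ℝ} {θ : ℝ} (hθ : θ ∈ Ioo 0 (2 * Real.pi)) (h : θ ∉ Θ) :
    bd Θ (circleMap 0 1 θ) = 1 := by
  unfold bd
  rw [if_neg]
  rintro ⟨θ', ⟨h1, h2⟩, h3⟩
  have h4 : θ' = θ := by
    have := circleMap_eq_circleMap_iff (a := θ') (b := θ) (R := 1) 0 (by norm_num : (1 : ℝ) ≠ 0)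
    rw [this] at h3
    obtain ⟨n, hn⟩ := h3
    have hpi := Real.pi_pos
    have hre : θ' = θ + n * (2 * Real.pi) := by
      have := congrArg Complex.im hn
      simpa using this
    have hn0 : n = 0 := by
      have ha : (-1 : ℝ) < n := by
        by_contra hcon
        push Not at hcon
        have : (n : ℝ) * (2 * Real.pi) ≤ (-1) * (2 * Real.pi) :=
          mul_le_mul_of_nonneg_right hcon (by positivity)
        linarith [h2.1, hθ.2]
      have hb : (n : ℝ) < 1 := by
        by_contra hcon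
        push Not at hcon
        have : 1 * (2 * Real.pi) ≤ (n : ℝ) * (2 * Real.pi) :=
          mul_le_mul_of_nonneg_right hcon (by positivity)
        linarith [h2.2, hθ.1]
      have ha' : (-1 : ℤ) < n := by exact_mod_cast ha
      have hb' : n < 1 := by exact_mod_cast hb
      omega
    rw [hre, hn0]
    simp
  rw [h4] at h1
  exact h h1

lemma bd_cases (Θ : Set ℝ) (x : ℂ) : bd Θ x = 0 ∨ bd Θ x = 1 := by
  unfold bd
  split_ifs <;> simp

lemma bd_integrable {Θ : Set ℝ} (hΘ : MeasurableSet Θ) : CircleIntegrable (bd Θ) 0 1 := by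
  unfold CircleIntegrable
  rw [intervalIntegrable_iff_integrableOn_Ioo_of_le (by positivity)]
  have h1 : EqOn (fun θ : ℝ => bd Θ (circleMap 0 1 θ)) (Θᶜ.indicator (fun _ => (1 : ℂ)))
      (Ioo 0 (2 * Real.pi)) := by
    intro θ hθ
    simp only
    by_cases h : θ ∈ Θ
    · rw [bd_mem ⟨h, hθ⟩, indicator_of_notMem]
      simpa using h
    · rw [bd_notMem hθ h, indicator_of_mem]
      exact h
  rw [integrableOn_congr_fun h1 measurableSet_Ioo]
  apply Integrable.indicator _ hΘ.compl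
  exact integrableOn_const (by rw [Real.volume_Ioo]; exact ENNReal.ofReal_ne_top)

lemma Hz_diff {Θ : Set ℝ} (hΘ : MeasurableSet Θ) : DifferentiableOn ℂ (Hz Θ) (ball 0 1) :=
  differentiableOn_circleAverage_herglotzRieszKernel_smul (bd_integrable hΘ)

lemma circle_sub_ne {z : ℂ} (hz : ‖z‖ < 1) (θ : ℝ) : circleMap 0 1 θ - z ≠ 0 := by
  intro h
  have h1 : ‖circleMap 0 1 θ‖ = 1 := by simp
  rw [sub_eq_zero.1 h] at h1
  linarith

lemma Pk_pos {z : ℂ} (hz : ‖z‖ < 1) (θ : ℝ) : 0 < Pk z θ := by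
  unfold Pk
  apply div_pos
  · nlinarith [norm_nonneg z]
  · exact pow_pos (norm_pos_iff.2 (circle_sub_ne hz θ)) 2

lemma Pk_cont {z : ℂ} (hz : ‖z‖ < 1) : Continuous (Pk z) := by
  unfold Pk
  apply Continuous.div
  · exact continuous_const
  · fun_prop
  · intro θ
    exact (pow_pos (norm_pos_iff.2 (circle_sub_ne hz θ)) 2).ne'

lemma Pk_int {z : ℂ} (hz : ‖z‖ < 1) : ∫ θ in (0 : ℝ)..(2 * Real.pi), Pk z θ = 2 * Real.pi := by
  have h2 : Real.circleAverage (fun x => poissonKernel 0 z x • (1 : ℂ)) 0 1 = 1 := by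
    have := DiffContOnCl.circleAverage_poissonKernel_smul (f := fun _ : ℂ => (1 : ℂ)) (c := 0) (R := 1)
      (w := z) diffContOnCl_const (mem_ball_zero_iff.2 hz)
    exact this
  rw [Real.circleAverage_def] at h2
  have h3 : ∀ θ : ℝ, poissonKernel 0 z (circleMap 0 1 θ) • (1 : ℂ) = ((Pk z θ : ℝ) : ℂ) := by
    intro θ
    unfold Pk
    rw [poissonKernel_def, sub_zero, sub_zero]
    simp
  simp only [h3] at h2
  rw [intervalIntegral.integral_ofReal] at h2
  have h4 : (2 * Real.pi)⁻¹ * ∫ θ in (0 : ℝ)..(2 * Real.pi), Pk z θ = 1 := by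
    have := congrArg Complex.re h2
    simpa using this
  have hpi := Real.pi_pos
  field_simp at h4
  exact h4

/-- real part of the Herglotz integral -/
lemma re_Hz {Θ : Set ℝ} (hΘ : MeasurableSet Θ) {z : ℂ} (hz : ‖z‖ < 1) :
    (Hz Θ z).re = (2 * Real.pi)⁻¹ * ∫ θ in (0 : ℝ)..(2 * Real.pi), Pk z θ * (bd Θ (circleMap 0 1 θ)).re := by
  unfold Hz
  rw [Real.circleAverage_def, Complex.smul_re, smul_eq_mul]
  congr 1
  have hint : IntervalIntegrable (fun θ : ℝ => herglotzRieszKernel 0 z (circleMap 0 1 θ) • bd Θ (circleMap 0 1 θ))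
      volume 0 (2 * Real.pi) := by
    have h1 : Continuous (fun θ : ℝ => herglotzRieszKernel 0 z (circleMap 0 1 θ)) := by
      simp only [herglotzRieszKernel_def, sub_zero]
      apply Continuous.div
      · fun_prop
      · fun_prop
      · exact circle_sub_ne hz
    have h2 : IntervalIntegrable (fun θ : ℝ => bd Θ (circleMap 0 1 θ)) volume 0 (2 * Real.pi) := bd_integrable hΘ
    simp only [smul_eq_mul]
    exact h2.continuousOn_mul h1.continuousOn
  have h := Complex.reCLM.intervalIntegral_comp_comm hint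
  simp only [Complex.reCLM_apply] at h
  rw [← h]
  apply intervalIntegral.integral_congr
  intro θ _
  simp only [smul_eq_mul]
  have h1 : (bd Θ (circleMap 0 1 θ)).im = 0 := by
    rcases bd_cases Θ (circleMap 0 1 θ) with h | h <;> rw [h] <;> simp
  have h2 : Pk z θ = (herglotzRieszKernel 0 z (circleMap 0 1 θ)).re := by
    have := @poissonKernel_eq_re_herglotzRieszKernel 0 z
    have h3 := congrFun this (circleMap 0 1 θ)
    unfold Pk
    rw [poissonKernel_def, sub_zero, sub_zero] at h3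
    simp only [norm_circleMap_zero, abs_one, one_pow] at h3
    rw [h3]
    rfl
  rw [mul_re, h1, mul_zero, sub_zero, h2]

lemma chi_cases (Θ : Set ℝ) (θ : ℝ) : (bd Θ (circleMap 0 1 θ)).re = 0 ∨ (bd Θ (circleMap 0 1 θ)).re = 1 := by
  rcases bd_cases Θ (circleMap 0 1 θ) with h | h <;> rw [h] <;> simp

lemma chi_int {Θ : Set ℝ} (hΘ : MeasurableSet Θ) {z : ℂ} (hz : ‖z‖ < 1) :
    IntegrableOn (fun θ : ℝ => Pk z θ * (bd Θ (circleMap 0 1 θ)).re) (Ioo 0 (2 * Real.pi)) := by
  have h2 : IntervalIntegrable (fun θ : ℝ => bd Θ (circleMap 0 1 θ)) volume 0 (2 * Real.pi) := bd_integrable hΘ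
  have h3 : IntervalIntegrable (fun θ : ℝ => (bd Θ (circleMap 0 1 θ)).re) volume 0 (2 * Real.pi) :=
    ⟨h2.1.re, h2.2.re⟩
  have h4 := h3.continuousOn_mul (Pk_cont hz).continuousOn
  rwa [intervalIntegrable_iff_integrableOn_Ioo_of_le (by positivity)] at h4

lemma re_Hz' {Θ : Set ℝ} (hΘ : MeasurableSet Θ) {z : ℂ} (hz : ‖z‖ < 1) :
    (Hz Θ z).re = (2 * Real.pi)⁻¹ * ∫ θ in Ioo 0 (2 * Real.pi), Pk z θ * (bd Θ (circleMap 0 1 θ)).re := by
  rw [re_Hz hΘ hz, intervalIntegral.integral_of_le (by positivity), integral_Ioc_eq_integral_Ioo]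

lemma re_Hz_nonneg {Θ : Set ℝ} (hΘ : MeasurableSet Θ) {z : ℂ} (hz : ‖z‖ < 1) : 0 ≤ (Hz Θ z).re := by
  rw [re_Hz' hΘ hz]
  apply mul_nonneg (by positivity)
  apply setIntegral_nonneg measurableSet_Ioo
  intro θ _
  rcases chi_cases Θ θ with h | h <;> rw [h]
  · simp
  · rw [mul_one]; exact (Pk_pos hz θ).le

lemma chord_le (a b : ℝ) : ‖circleMap 0 1 a - circleMap 0 1 b‖ ≤ |a - b| := by
  have h := (lipschitzWith_circleMap 0 1).dist_le_mul a b
  rw [dist_eq_norm, Real.dist_eq] at h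
  simpa using h

/-- lower bound away from `Θ` -/
lemma re_Hz_lower {Θ : Set ℝ} (hΘ : MeasurableSet Θ) {z : ℂ} (hz : ‖z‖ < 1) {α : ℝ}
    (hα : α ∈ Ico 0 (2 * Real.pi)) (hzα : z = ‖z‖ * circleMap 0 1 α)
    (hfar : ∀ θ ∈ Θ ∩ Ioo 0 (2 * Real.pi), (1 - ‖z‖) / 4 ≤ ‖circleMap 0 1 θ - circleMap 0 1 α‖) :
    2 / (25 * Real.pi) ≤ (Hz Θ z).re := by
  have hpi := Real.pi_gt_three
  obtain ⟨s, hs⟩ : ∃ s, s = 1 - ‖z‖ := ⟨_, rfl⟩
  have hs0 : 0 < s := by rw [hs]; linarith
  have hs1 : s ≤ 1 := by rw [hs]; linarith [norm_nonneg z]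
  rw [← hs] at hfar
  -- an interval of length s/4
  obtain ⟨a, b, hab, ha0, hb0, hJ⟩ : ∃ a b : ℝ, b - a = s / 4 ∧ 0 ≤ a ∧ b ≤ 2 * Real.pi ∧
      ∀ θ ∈ Ioo a b, |θ - α| < s / 4 := by
    by_cases h : α ≤ Real.pi
    · refine ⟨α, α + s / 4, by ring, hα.1, by linarith, ?_⟩
      intro θ hθ
      rw [abs_lt]
      constructor <;> linarith [hθ.1, hθ.2]
    · push Not at h
      refine ⟨α - s / 4, α, by ring, by linarith, hα.2.le, ?_⟩
      intro θ hθ
      rw [abs_lt]
      constructor <;> linarith [hθ.1, hθ.2]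
  have hsub : Ioo a b ⊆ Ioo 0 (2 * Real.pi) := Ioo_subset_Ioo ha0 hb0
  rw [re_Hz' hΘ hz]
  have h1 : 4 / 25 ≤ ∫ θ in Ioo 0 (2 * Real.pi), Pk z θ * (bd Θ (circleMap 0 1 θ)).re := by
    have hnn : ∀ θ : ℝ, 0 ≤ Pk z θ * (bd Θ (circleMap 0 1 θ)).re := by
      intro θ
      rcases chi_cases Θ θ with h | h <;> rw [h]
      · simp
      · rw [mul_one]; exact (Pk_pos hz θ).le
    have h2 : ∫ θ in Ioo a b, Pk z θ * (bd Θ (circleMap 0 1 θ)).re ≤
        ∫ θ in Ioo 0 (2 * Real.pi), Pk z θ * (bd Θ (circleMap 0 1 θ)).re := by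
      apply setIntegral_mono_set (chi_int hΘ hz)
      · filter_upwards with θ; exact hnn θ
      · exact hsub.eventuallyLE
    refine le_trans ?_ h2
    have h3 : ∫ _θ in Ioo a b, (16 / (25 * s) : ℝ) ≤
        ∫ θ in Ioo a b, Pk z θ * (bd Θ (circleMap 0 1 θ)).re := by
      apply setIntegral_mono_on
      · exact integrableOn_const (by simp)
      · exact (chi_int hΘ hz).mono_set hsub
      · exact measurableSet_Ioo
      · intro θ hθ
        have hθα := hJ θ hθ
        have hθΘ : θ ∉ Θ := by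
          intro h
          have := hfar θ ⟨h, hsub hθ⟩
          have h5 := chord_le θ α
          linarith
        rw [bd_notMem (hsub hθ) hθΘ, one_re, mul_one]
        unfold Pk
        have hd : ‖circleMap 0 1 θ - z‖ ≤ 5 * s / 4 := by
          have e : circleMap 0 1 θ - z = (circleMap 0 1 θ - circleMap 0 1 α) + (s : ℂ) * circleMap 0 1 α := by
            conv_lhs => rw [hzα]
            rw [hs]; push_cast; ring
          rw [e]
          refine (norm_add_le _ _).trans ?_
          have h5 := chord_le θ α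
          have h6 : ‖(s : ℂ) * circleMap 0 1 α‖ = s := by
            rw [norm_mul, Complex.norm_real, Real.norm_of_nonneg hs0.le]
            simp
          rw [h6]
          linarith
        have hd0 : 0 < ‖circleMap 0 1 θ - z‖ := norm_pos_iff.2 (circle_sub_ne hz θ)
        rw [div_le_div_iff₀ (by positivity) (by positivity)]
        have h7 : ‖circleMap 0 1 θ - z‖ ^ 2 ≤ (5 * s / 4) ^ 2 := pow_le_pow_left₀ hd0.le hd 2
        have h8 : s ≤ 1 - ‖z‖ ^ 2 := by
          rw [hs]; nlinarith [norm_nonneg z]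
        nlinarith
    refine le_trans ?_ h3
    rw [setIntegral_const, smul_eq_mul, measureReal_def, Real.volume_Ioo, hab,
      ENNReal.toReal_ofReal (by positivity)]
    have : s / 4 * (16 / (25 * s)) = 4 / 25 := by field_simp; norm_num
    rw [this]
  calc 2 / (25 * Real.pi) = (2 * Real.pi)⁻¹ * (4 / 25) := by field_simp; norm_num
    _ ≤ _ := mul_le_mul_of_nonneg_left h1 (by positivity)

/-- smallness at a density point -/
lemma re_Hz_small {Θ : Set ℝ} (hΘ : MeasurableSet Θ) (hpos : 0 < volume (Θ ∩ Ioo 0 (2 * Real.pi)))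
    {c : ℝ} (hc : 0 < c) : ∃ θ ∈ Θ ∩ Ioo 0 (2 * Real.pi), ∀ᶠ N : ℕ in atTop,
      (Hz Θ (((1 - 1 / (N : ℝ) : ℝ) : ℂ) * circleMap 0 1 θ)).re < c := by
  obtain ⟨S, hS⟩ : ∃ S, S = Θ ∩ Ioo 0 (2 * Real.pi) := ⟨_, rfl⟩
  have hSm : MeasurableSet S := by rw [hS]; exact hΘ.inter measurableSet_Ioo
  rw [← hS] at hpos
  -- density point
  obtain ⟨θ0, hθ0, hdens⟩ : ∃ θ0 ∈ S, Tendsto (fun r => volume (S ∩ closedBall θ0 r) / volume (closedBall θ0 r))
      (𝓝[>] 0) (𝓝 1) := by
    have h := Besicovitch.ae_tendsto_measure_inter_div (volume : Measure ℝ) S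
    rw [ae_restrict_iff' hSm] at h
    have h2 : ∃ᶠ x in ae (volume : Measure ℝ), x ∈ S := by
      rw [frequently_ae_mem_iff]
      exact hpos.ne'
    obtain ⟨x, hx1, hx2⟩ := (h2.and_eventually h).exists
    exact ⟨x, hx1, hx2 hx1⟩
  refine ⟨θ0, by rw [← hS]; exact hθ0, ?_⟩
  have hθ0I : θ0 ∈ Ioo 0 (2 * Real.pi) := by rw [hS] at hθ0; exact hθ0.2
  have hpi := Real.pi_pos
  -- choose K
  obtain ⟨K, hK0, hK⟩ : ∃ K : ℝ, 0 < K ∧ 2 * Real.pi - 4 * Real.arctan K < Real.pi * c := by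
    have h1 : Tendsto (fun K : ℝ => 2 * Real.pi - 4 * Real.arctan K) atTop (𝓝 (2 * Real.pi - 4 * (Real.pi / 2))) :=
      ((Real.tendsto_arctan_atTop.mono_right nhdsWithin_le_nhds).const_mul 4).const_sub _
    have e : 2 * Real.pi - 4 * (Real.pi / 2) = 0 := by ring
    rw [e] at h1
    obtain ⟨K, hK1, hK2⟩ := ((h1.eventually (gt_mem_nhds (by positivity : 0 < Real.pi * c))).and
      (eventually_gt_atTop 0)).exists
    exact ⟨K, hK2, hK1⟩
  -- measure of the complement in small balls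
  have hsmall : ∀ η > 0, ∀ᶠ r in 𝓝[>] (0 : ℝ), (volume (closedBall θ0 r \ S)).toReal ≤ η * (2 * r) := by
    intro η hη
    have h1 : ∀ᶠ r in 𝓝[>] (0 : ℝ), ENNReal.ofReal (1 - η) < volume (S ∩ closedBall θ0 r) / volume (closedBall θ0 r) := by
      apply hdens.eventually (lt_mem_nhds _)
      rw [ENNReal.ofReal_lt_one]
      linarith
    filter_upwards [h1, self_mem_nhdsWithin] with r hr hr0
    rw [mem_Ioi] at hr0
    have hvol : volume (closedBall θ0 r) = ENNReal.ofReal (2 * r) := Real.volume_closedBall _ _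
    have hfin : volume (closedBall θ0 r) ≠ ⊤ := by rw [hvol]; exact ENNReal.ofReal_ne_top
    have hne0 : volume (closedBall θ0 r) ≠ 0 := by
      rw [hvol]
      simp [hr0]
    rw [ENNReal.lt_div_iff_mul_lt (Or.inl hne0) (Or.inl hfin)] at hr
    have hdiff : volume (closedBall θ0 r \ S) = volume (closedBall θ0 r) - volume (S ∩ closedBall θ0 r) := by
      rw [← diff_inter_self_eq_diff, inter_comm]
      rw [measure_diff inter_subset_left (hSm.inter measurableSet_closedBall |>.nullMeasurableSet |> (by rw [inter_comm]; exact ·))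
        (ne_top_of_le_ne_top hfin (measure_mono inter_subset_left)), inter_comm]
    rw [hdiff, ENNReal.toReal_sub_of_le (measure_mono inter_subset_right) hfin, hvol,
      ENNReal.toReal_ofReal (by positivity)]
    by_cases hη1 : η ≤ 1
    · have h3 : (1 - η) * (2 * r) ≤ (volume (S ∩ closedBall θ0 r)).toReal := by
        have h4 := ENNReal.toReal_mono (ne_top_of_le_ne_top hfin (measure_mono inter_subset_right)) hr.le
        rwa [hvol, ENNReal.toReal_mul, ENNReal.toReal_ofReal (by linarith),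
          ENNReal.toReal_ofReal (by positivity)] at h4
      linarith
    · push Not at hη1
      have : 0 ≤ (volume (S ∩ closedBall θ0 r)).toReal := ENNReal.toReal_nonneg
      nlinarith
  -- the sequence
  have hKN : Tendsto (fun N : ℕ => K * (1 / (N : ℝ))) atTop (𝓝[>] 0) := by
    rw [tendsto_nhdsWithin_iff]
    constructor
    · have := (tendsto_const_div_atTop_nhds_zero_nat (1 : ℝ)).const_mul K
      simpa using this
    · filter_upwards [eventually_gt_atTop 0] with N hN
      have : (0 : ℝ) < N := by exact_mod_cast hN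
      rw [mem_Ioi]
      positivity
  obtain ⟨η, hη⟩ : ∃ η : ℝ, η = Real.pi * c / (8 * K) := ⟨_, rfl⟩
  have hη0 : 0 < η := by rw [hη]; positivity
  have hin : ∀ᶠ r in 𝓝[>] (0 : ℝ), closedBall θ0 r ⊆ Ioo 0 (2 * Real.pi) := by
    obtain ⟨ε, hε, hsub⟩ := Metric.isOpen_iff.1 isOpen_Ioo θ0 hθ0I
    filter_upwards [Ioo_mem_nhdsGT hε] with r hr
    exact (closedBall_subset_ball hr.2).trans hsub
  have harc : ∀ᶠ N : ℕ in atTop, 4 * Real.arctan K - 2 * Real.arctan K * (1 / (N : ℝ)) >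
      4 * Real.arctan K - Real.pi * c / 2 := by
    have h1 : Tendsto (fun N : ℕ => 2 * Real.arctan K * (1 / (N : ℝ))) atTop (𝓝 0) := by
      have := (tendsto_const_div_atTop_nhds_zero_nat (1 : ℝ)).const_mul (2 * Real.arctan K)
      simpa using this
    filter_upwards [h1.eventually (gt_mem_nhds (by positivity : 0 < Real.pi * c / 2))] with N hN
    linarith
  filter_upwards [hKN.eventually (hsmall η hη0), hKN.eventually hin, harc, eventually_gt_atTop 1] with N h1 h2 h3 hN1
  have hNr : (1 : ℝ) < N := by exact_mod_cast hN1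
  obtain ⟨s, hs⟩ : ∃ s : ℝ, s = 1 / (N : ℝ) := ⟨_, rfl⟩
  have hs0 : 0 < s := by rw [hs]; positivity
  have hs1 : s < 1 := by rw [hs, div_lt_one (by positivity)]; exact hNr
  rw [← hs] at h1 h2 h3 ⊢
  obtain ⟨z, hz⟩ : ∃ z : ℂ, z = ((1 - s : ℝ) : ℂ) * circleMap 0 1 θ0 := ⟨_, rfl⟩
  rw [← hz]
  have hzn : ‖z‖ = 1 - s := by
    rw [hz, norm_mul, Complex.norm_real, Real.norm_of_nonneg (by linarith)]
    simp
  have hz1 : ‖z‖ < 1 := by rw [hzn]; linarith
  obtain ⟨B, hB⟩ : ∃ B, B = closedBall θ0 (K * s) := ⟨_, rfl⟩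
  rw [← hB] at h1 h2
  have hBm : MeasurableSet B := by rw [hB]; exact measurableSet_closedBall
  -- pointwise bounds of the kernel
  have hdist : ∀ θ : ℝ, ‖circleMap 0 1 θ - z‖ ^ 2 = s ^ 2 + (1 - s) * ‖circleMap 0 1 θ - circleMap 0 1 θ0‖ ^ 2 := by
    intro θ
    rw [hz]
    have hn1 : (circleMap 0 1 θ).re ^ 2 + (circleMap 0 1 θ).im ^ 2 = 1 := by
      have := Complex.sq_norm (circleMap 0 1 θ)
      rw [Complex.normSq_apply] at this
      simp only [norm_circleMap_zero, abs_one, one_pow] at this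
      linarith
    have hn2 : (circleMap 0 1 θ0).re ^ 2 + (circleMap 0 1 θ0).im ^ 2 = 1 := by
      have := Complex.sq_norm (circleMap 0 1 θ0)
      rw [Complex.normSq_apply] at this
      simp only [norm_circleMap_zero, abs_one, one_pow] at this
      linarith
    rw [Complex.sq_norm, Complex.sq_norm, Complex.normSq_apply, Complex.normSq_apply]
    simp only [sub_re, sub_im, mul_re, mul_im, ofReal_re, ofReal_im, zero_mul, sub_zero, add_zero]
    linear_combination (s) * hn1 - s * (1 - s) * hn2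
  have hPup : ∀ θ : ℝ, Pk z θ ≤ 2 / s := by
    intro θ
    unfold Pk
    rw [hdist, hzn, div_le_div_iff₀ (by positivity) hs0]
    have : 0 ≤ (1 - s) * ‖circleMap 0 1 θ - circleMap 0 1 θ0‖ ^ 2 := mul_nonneg (by linarith) (by positivity)
    nlinarith
  have hPlow : ∀ θ : ℝ, (2 - s) * (s / (s ^ 2 + (θ - θ0) ^ 2)) ≤ Pk z θ := by
    intro θ
    unfold Pk
    rw [hdist, hzn, ← mul_div_assoc]
    have h4 : s ^ 2 + (1 - s) * ‖circleMap 0 1 θ - circleMap 0 1 θ0‖ ^ 2 ≤ s ^ 2 + (θ - θ0) ^ 2 := by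
      have h5 := chord_le θ θ0
      have h6 : ‖circleMap 0 1 θ - circleMap 0 1 θ0‖ ^ 2 ≤ (θ - θ0) ^ 2 := by
        rw [← sq_abs (θ - θ0)]
        exact pow_le_pow_left₀ (norm_nonneg _) h5 2
      nlinarith [sq_nonneg ‖circleMap 0 1 θ - circleMap 0 1 θ0‖]
    have e : 1 - (1 - s) ^ 2 = (2 - s) * s := by ring
    rw [e]
    apply div_le_div_of_nonneg_left _ _ h4
    · exact mul_nonneg (by linarith) hs0.le
    · have : 0 ≤ (1 - s) * ‖circleMap 0 1 θ - circleMap 0 1 θ0‖ ^ 2 := mul_nonneg (by linarith) (by positivity)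
      positivity
  -- integral of the lower bound over the ball
  have hBint : (2 - s) * (2 * Real.arctan K) ≤ ∫ θ in B, Pk z θ := by
    have h4 : ∫ θ in B, (2 - s) * (s / (s ^ 2 + (θ - θ0) ^ 2)) ≤ ∫ θ in B, Pk z θ := by
      apply setIntegral_mono_on _ _ hBm (fun θ _ => hPlow θ)
      · apply ContinuousOn.integrableOn_compact (by rw [hB]; exact isCompact_closedBall _ _)
        apply Continuous.continuousOn
        apply Continuous.mul continuous_const
        apply Continuous.div continuous_const (by fun_prop)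
        intro θ
        positivity
      · apply ContinuousOn.integrableOn_compact (by rw [hB]; exact isCompact_closedBall _ _)
        exact (Pk_cont hz1).continuousOn
    refine le_trans (le_of_eq ?_) h4
    rw [integral_const_mul]
    congr 1
    rw [hB, Real.closedBall_eq_Icc, integral_Icc_eq_integral_Ioc,
      ← intervalIntegral.integral_of_le (by nlinarith [mul_pos hK0 hs0])]
    have h5 : ∀ θ : ℝ, s / (s ^ 2 + (θ - θ0) ^ 2) = s⁻¹ * (1 / (1 + ((θ - θ0) / s) ^ 2)) := by
      intro θ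
      field_simp
    simp only [h5]
    rw [intervalIntegral.integral_const_mul]
    have h6 : ∫ θ in (θ0 - K * s)..(θ0 + K * s), (1 / (1 + ((θ - θ0) / s) ^ 2)) =
        ∫ θ in (θ0 - K * s)..(θ0 + K * s), (fun y : ℝ => 1 / (1 + y ^ 2)) (θ / s - θ0 / s) := by
      apply intervalIntegral.integral_congr
      intro θ _
      simp only
      rw [sub_div]
    rw [h6, intervalIntegral.integral_comp_div_sub (fun y : ℝ => 1 / (1 + y ^ 2)) hs0.ne']
    have e1 : (θ0 - K * s) / s - θ0 / s = -K := by field_simp; ring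
    have e2 : (θ0 + K * s) / s - θ0 / s = K := by field_simp; ring
    rw [e1, e2, integral_one_div_one_add_sq, Real.arctan_neg, smul_eq_mul]
    field_simp
    ring
  -- put together
  have hI := Ioo (0 : ℝ) (2 * Real.pi)
  have hPintIoo : ∫ θ in Ioo 0 (2 * Real.pi), Pk z θ = 2 * Real.pi := by
    rw [← integral_Ioc_eq_integral_Ioo, ← intervalIntegral.integral_of_le (by positivity)]
    exact Pk_int hz1
  have hPintb : IntegrableOn (Pk z) (Ioo 0 (2 * Real.pi)) := by
    have := (Pk_cont hz1).intervalIntegrable (μ := volume) 0 (2 * Real.pi)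
    rwa [intervalIntegrable_iff_integrableOn_Ioo_of_le (by positivity)] at this
  have hsplit := integral_inter_add_diff (f := fun θ : ℝ => Pk z θ * (bd Θ (circleMap 0 1 θ)).re) hBm
    (chi_int hΘ hz1)
  have hsplit2 := integral_inter_add_diff (f := Pk z) hBm hPintb
  have hinterB : Ioo 0 (2 * Real.pi) ∩ B = B := inter_eq_right.2 h2
  rw [hinterB] at hsplit hsplit2
  have hpart1 : ∫ θ in B, Pk z θ * (bd Θ (circleMap 0 1 θ)).re ≤ Real.pi * c / 2 := by
    have h4 : ∫ θ in B, Pk z θ * (bd Θ (circleMap 0 1 θ)).re ≤ ∫ θ in B, (B \ S).indicator (fun _ => 2 / s) θ := by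
      apply setIntegral_mono_on _ _ hBm
      · intro θ hθ
        by_cases h : θ ∈ S
        · have h5 : θ ∈ Θ ∩ Ioo 0 (2 * Real.pi) := by rw [← hS]; exact h
          rw [bd_mem h5, zero_re, mul_zero, indicator_of_notMem (fun h' => h'.2 h)]
        · have h5 : θ ∉ Θ := fun h' => h (by rw [hS]; exact ⟨h', h2 hθ⟩)
          have h6 : θ ∈ B \ S := ⟨hθ, h⟩
          rw [bd_notMem (h2 hθ) h5, one_re, mul_one, indicator_of_mem h6]
          exact hPup θ
      · exact (chi_int hΘ hz1).mono_set h2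
      · apply Integrable.indicator _ (hBm.diff hSm)
        exact integrableOn_const (by rw [hB, Real.volume_closedBall]; exact ENNReal.ofReal_ne_top)
    refine h4.trans ?_
    rw [setIntegral_indicator (hBm.diff hSm), setIntegral_const, smul_eq_mul, measureReal_def]
    have e : B ∩ (B \ S) = B \ S := inter_eq_right.2 diff_subset
    rw [e]
    calc (volume (B \ S)).toReal * (2 / s) ≤ (η * (2 * (K * s))) * (2 / s) :=
          mul_le_mul_of_nonneg_right h1 (by positivity)
      _ = Real.pi * c / 2 := by rw [hη]; field_simp; ring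
  have hpart2 : ∫ θ in Ioo 0 (2 * Real.pi) \ B, Pk z θ * (bd Θ (circleMap 0 1 θ)).re ≤
      ∫ θ in Ioo 0 (2 * Real.pi) \ B, Pk z θ := by
    apply setIntegral_mono_on _ _ (measurableSet_Ioo.diff hBm)
    · intro θ _
      rcases chi_cases Θ θ with h | h <;> rw [h]
      · rw [mul_zero]; exact (Pk_pos hz1 θ).le
      · rw [mul_one]
    · exact (chi_int hΘ hz1).mono_set diff_subset
    · exact hPintb.mono_set diff_subset
  rw [re_Hz' hΘ hz1, inv_mul_lt_iff₀ (by positivity)]
  have hfinal : ∫ θ in Ioo 0 (2 * Real.pi), Pk z θ * (bd Θ (circleMap 0 1 θ)).re <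
      2 * Real.pi * c := by
    have e : (2 - s) * (2 * Real.arctan K) = 4 * Real.arctan K - 2 * Real.arctan K * s := by ring
    rw [e] at hBint
    rw [hPintIoo] at hsplit2
    linarith
  exact hfinal

end Pool.Agent.H6.NS
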