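import Mathlib
import Pool.Agent.H6.NSC
import Pool.Agent.H6.NSD

set_option autoImplicit false

namespace Pool.Agent.H6.NS

open Complex Metric Filter Topology ComplexConjugate MeasureTheory Set

lemma polar (z : ℂ) : ∃ α ∈ Ico 0 (2 * Real.pi), z = ‖z‖ * circleMap 0 1 α := by
  have hpi := Real.pi_pos
  have h0 : z = ‖z‖ * circleMap 0 1 (arg z) := by
    have := Complex.norm_mul_exp_arg_mul_I z
    rw [circleMap]
    simp only [ofReal_one, one_mul, zero_add]
    exact this.symm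
  by_cases h : 0 ≤ arg z
  · exact ⟨arg z, ⟨h, by linarith [Complex.arg_le_pi z]⟩, h0⟩
  · push Not at h
    refine ⟨arg z + 2 * Real.pi, ⟨by linarith [Complex.neg_pi_lt_arg z], by linarith⟩, ?_⟩
    rw [periodic_circleMap 0 1 (arg z)]
    exact h0

/-- the covering -/
lemma cover {Θ : Set ℝ} (hΘ : MeasurableSet Θ) {z : ℂ} (hz : ‖z‖ < 1)
    (hH : (Hz Θ z).re < 2 / (25 * Real.pi)) {N : ℕ} (hN : 4 ≤ N) (h1 : 1 - 1 / (N : ℝ) ≤ ‖z‖)
    (h2 : ‖z‖ < 1 - 1 / ((N : ℝ) + 1)) :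
    ∃ θ ∈ Θ ∩ Ioo 0 (2 * Real.pi),
      ‖z - ((1 - 1 / (N : ℝ) : ℝ) : ℂ) * circleMap 0 1 θ‖ < 1 / (2 * N) := by
  have hNr : (4 : ℝ) ≤ N := by exact_mod_cast hN
  obtain ⟨α, hα, hzα⟩ := polar z
  by_contra hcon
  push Not at hcon
  apply absurd hH
  rw [not_lt]
  apply re_Hz_lower hΘ hz hα hzα
  intro θ hθ
  by_contra hlt
  push Not at hlt
  have h3 := hcon θ hθ
  have e : z - ((1 - 1 / (N : ℝ) : ℝ) : ℂ) * circleMap 0 1 θ =
      ((‖z‖ - (1 - 1 / (N : ℝ)) : ℝ) : ℂ) * circleMap 0 1 α -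
      ((1 - 1 / (N : ℝ) : ℝ) : ℂ) * (circleMap 0 1 θ - circleMap 0 1 α) := by
    conv_lhs => rw [hzα]
    push_cast
    ring
  rw [e] at h3
  have h4 := norm_sub_le (((‖z‖ - (1 - 1 / (N : ℝ)) : ℝ) : ℂ) * circleMap 0 1 α)
    (((1 - 1 / (N : ℝ) : ℝ) : ℂ) * (circleMap 0 1 θ - circleMap 0 1 α))
  have hN1 : 1 / (N : ℝ) ≤ 1 / 4 := by
    apply one_div_le_one_div_of_le (by norm_num) hNr
  have hN0 : 0 < 1 / (N : ℝ) := by positivity
  have h5 : ‖((‖z‖ - (1 - 1 / (N : ℝ)) : ℝ) : ℂ) * circleMap 0 1 α‖ = ‖z‖ - (1 - 1 / (N : ℝ)) := by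
    rw [norm_mul, Complex.norm_real, Real.norm_of_nonneg (by linarith)]
    simp
  have h6 : ‖((1 - 1 / (N : ℝ) : ℝ) : ℂ) * (circleMap 0 1 θ - circleMap 0 1 α)‖ ≤
      ‖circleMap 0 1 θ - circleMap 0 1 α‖ := by
    rw [norm_mul, Complex.norm_real, Real.norm_of_nonneg (by linarith)]
    exact mul_le_of_le_one_left (norm_nonneg _) (by linarith)
  rw [h5] at h4
  have h7 : 1 / (N : ℝ) - 1 / ((N : ℝ) + 1) = 1 / (N * (N + 1)) := by
    field_simp
    ring
  have h8 : 1 / ((N : ℝ) * (N + 1)) ≤ 1 / (N * 5) := by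
    apply one_div_le_one_div_of_le (by positivity)
    nlinarith
  have h9 : 1 / ((N : ℝ) * 5) = 1 / N / 5 := by field_simp
  have h10 : 1 / (2 * (N : ℝ)) = 1 / N / 2 := by field_simp
  rw [h10] at h3
  rw [h9] at h8
  linarith

lemma kappa {κ : ℝ} (hκ : 0 < κ) : ∃ (ε : ℝ) (N1 : ℕ), 0 < ε ∧ ε ≤ 1 / 2 ∧ 4 ≤ N1 ∧
    ∀ N : ℕ, N1 ≤ N → 2300 * (4 * Real.sqrt ((2 * N / (2 * N - 1)) ^ 2 - 1 + 2 * ε)) +
      1000 * (4 * Real.sqrt ((2 * N / (2 * N - 1)) ^ 2 - 1 + 2 * ε)) ^ 2 ≤ κ := by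
  obtain ⟨η0, hη0⟩ : ∃ η0 : ℝ, η0 = min 1 (κ / 3300) := ⟨_, rfl⟩
  have h0 : 0 < η0 := by rw [hη0]; exact lt_min one_pos (by positivity)
  have h1 : η0 ≤ 1 := by rw [hη0]; exact min_le_left _ _
  have h2 : η0 ≤ κ / 3300 := by rw [hη0]; exact min_le_right _ _
  obtain ⟨N1, hN1⟩ := exists_nat_gt (128 / η0 ^ 2 + 4)
  have h128 : 0 < 128 / η0 ^ 2 := by positivity
  refine ⟨η0 ^ 2 / 64, N1, by positivity, by nlinarith, ?_, ?_⟩
  · have : (4 : ℝ) < N1 := by linarith
    exact_mod_cast this.le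
  intro N hN
  have hNr : (N1 : ℝ) ≤ N := by exact_mod_cast hN
  have hN4 : (4 : ℝ) < N := by linarith
  have h3 : (2 * (N : ℝ) / (2 * N - 1)) ^ 2 - 1 ≤ 4 / N := by
    have e : (2 * (N : ℝ) / (2 * N - 1)) ^ 2 - 1 = (4 * N - 1) / (2 * N - 1) ^ 2 := by
      have : (2 * (N : ℝ) - 1) ≠ 0 := by linarith
      field_simp
      ring
    rw [e, div_le_div_iff₀ (by nlinarith) (by linarith)]
    nlinarith
  have h4 : 4 / (N : ℝ) ≤ η0 ^ 2 / 32 := by
    rw [div_le_div_iff₀ (by linarith) (by norm_num)]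
    have : 128 / η0 ^ 2 ≤ N := by linarith
    rw [div_le_iff₀ (by positivity)] at this
    linarith
  have h5 : Real.sqrt ((2 * N / (2 * N - 1)) ^ 2 - 1 + 2 * (η0 ^ 2 / 64)) ≤ η0 / 4 := by
    apply Real.sqrt_le_iff.2
    refine ⟨by positivity, ?_⟩
    have : (η0 / 4) ^ 2 = η0 ^ 2 / 16 := by ring
    rw [this]
    linarith
  have h6 : 0 ≤ Real.sqrt ((2 * N / (2 * N - 1)) ^ 2 - 1 + 2 * (η0 ^ 2 / 64)) := Real.sqrt_nonneg _
  obtain ⟨x, hx⟩ : ∃ x, x = Real.sqrt ((2 * N / (2 * N - 1)) ^ 2 - 1 + 2 * (η0 ^ 2 / 64)) := ⟨_, rfl⟩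
  rw [← hx] at h5 h6 ⊢
  nlinarith

section

variable {φ : ℂ → ℂ} (hd : DifferentiableOn ℂ φ (ball 0 1))
  (hm : Set.MapsTo φ (ball 0 1) (ball 0 1))

include hd in
lemma F_diff : DifferentiableOn ℂ (fun z => z * deriv φ z - φ z) (ball 0 1) := by
  have h1 : DifferentiableOn ℂ (deriv φ) (ball 0 1) := hd.deriv isOpen_ball
  exact (differentiableOn_id.mul h1).sub hd

include hd hm in
/-- if `β = 1` on a set of positive measure then the map is a rotation -/
theorem rot_of_pos {Z : Set ℝ} (hZm : MeasurableSet Z) (hZI : Z ⊆ Ioo 0 (2 * Real.pi))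
    (hpos : volume Z ≠ 0)
    (hZ : ∀ θ ∈ Z, ∃ b : ℂ, ‖b‖ = 1 ∧ Julia φ (circleMap 0 1 θ) b 1 ∧
      Tendsto (fun N : ℕ => (N : ℝ) * (1 - ‖φ (((1 - 1 / (N : ℝ) : ℝ) : ℂ) * circleMap 0 1 θ)‖))
        atTop (𝓝 1)) :
    ∃ c : ℂ, ‖c‖ = 1 ∧ ∀ z ∈ ball (0 : ℂ) 1, φ z = c * z := by
  have hpi := Real.pi_pos
  have hZfin : volume Z ≠ ⊤ := by
    apply ne_top_of_le_ne_top _ (measure_mono hZI)
    rw [Real.volume_Ioo]
    exact ENNReal.ofReal_ne_top
  -- Egorov
  obtain ⟨f, hf⟩ : ∃ f : ℕ → ℝ → ℝ, f = fun (N : ℕ) (θ : ℝ) =>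
    (N : ℝ) * (1 - ‖φ (((1 - 1 / (N : ℝ) : ℝ) : ℂ) * circleMap 0 1 θ)‖) := ⟨_, rfl⟩
  have hfsm : ∀ N, StronglyMeasurable (f N) := by
    intro N
    rcases Nat.eq_zero_or_pos N with h0 | hN
    · have : f N = fun _ => 0 := by
        rw [hf, h0]; simp
      rw [this]
      exact stronglyMeasurable_const
    · apply Continuous.stronglyMeasurable
      rw [hf]
      apply Continuous.mul continuous_const
      apply Continuous.sub continuous_const
      apply Continuous.norm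
      have hNr : (1 : ℝ) ≤ N := by exact_mod_cast hN
      apply hd.continuousOn.comp_continuous (by fun_prop)
      intro θ
      rw [mem_ball_zero_iff, norm_mul, norm_circleMap_zero, abs_one, mul_one, Complex.norm_real,
        Real.norm_of_nonneg]
      · have : 0 < 1 / (N : ℝ) := by positivity
        linarith
      · have : 1 / (N : ℝ) ≤ 1 := by rw [div_le_one (by linarith)]; exact hNr
        linarith
  obtain ⟨t, htZ, htm, htμ, hunif⟩ := tendstoUniformlyOn_of_ae_tendsto (μ := volume) (f := f)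
    (g := fun _ => (1 : ℝ)) hfsm stronglyMeasurable_const hZm hZfin
    (by filter_upwards with θ hθ
        obtain ⟨b, _, _, h⟩ := hZ θ hθ
        rw [hf]
        exact h)
    (ε := (volume Z).toReal / 2) (by
      have := ENNReal.toReal_pos hpos hZfin
      linarith)
  obtain ⟨Θ, hΘ⟩ : ∃ Θ, Θ = Z \ t := ⟨_, rfl⟩
  rw [← hΘ] at hunif
  have hΘm : MeasurableSet Θ := by rw [hΘ]; exact hZm.diff htm
  have hΘZ : Θ ⊆ Z := by rw [hΘ]; exact fun x hx => hx.1
  have hΘI : Θ ∩ Ioo 0 (2 * Real.pi) = Θ := inter_eq_left.2 (hΘZ.trans hZI)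
  have hΘpos : 0 < volume (Θ ∩ Ioo 0 (2 * Real.pi)) := by
    rw [hΘI, pos_iff_ne_zero]
    intro h0
    have h1 : volume Z ≤ volume t + volume Θ := by
      refine (measure_mono ?_).trans (measure_union_le t Θ)
      intro x hx
      by_cases hxt : x ∈ t
      · exact Or.inl hxt
      · right; rw [hΘ]; exact ⟨hx, hxt⟩
    rw [h0, add_zero] at h1
    have h2 := h1.trans htμ
    rw [← ENNReal.ofReal_toReal hZfin, ENNReal.ofReal_le_ofReal_iff (by positivity)] at h2
    rw [ENNReal.toReal_ofReal ENNReal.toReal_nonneg] at h2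
    have := ENNReal.toReal_pos hpos hZfin
    linarith
  obtain ⟨F, hF⟩ : ∃ F : ℂ → ℂ, F = fun z => z * deriv φ z - φ z := ⟨_, rfl⟩
  have hFd : DifferentiableOn ℂ F (ball 0 1) := by rw [hF]; exact F_diff hd
  obtain ⟨c', hc'⟩ : ∃ c' : ℝ, c' = 2 / (25 * Real.pi) := ⟨_, rfl⟩
  have hc'0 : 0 < c' := by rw [hc']; positivity
  -- smallness of F near the boundary part
  have hsmall : ∀ κ > 0, ∃ ρ0 : ℝ, ρ0 < 1 ∧ ∀ z : ℂ, ‖z‖ < 1 → ρ0 ≤ ‖z‖ → (Hz Θ z).re < c' → ‖F z‖ ≤ κ := by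
    intro κ hκ
    obtain ⟨ε, N1, hε0, hε1, hN1, hκN⟩ := kappa hκ
    rw [Metric.tendstoUniformlyOn_iff] at hunif
    obtain ⟨N2, hN2⟩ := (hunif ε hε0).exists_forall_of_atTop
    refine ⟨1 - 1 / ((max N1 N2 : ℕ) : ℝ), ?_, ?_⟩
    · have : 0 < ((max N1 N2 : ℕ) : ℝ) := by
        have : 0 < max N1 N2 := lt_of_lt_of_le (by omega) (le_max_left N1 N2)
        exact_mod_cast this
      have := one_div_pos.2 this
      linarith
    intro z hz hρ hH
    obtain ⟨N, hN⟩ : ∃ N : ℕ, N = ⌊1 / (1 - ‖z‖)⌋₊ := ⟨_, rfl⟩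
    have hs : 0 < 1 - ‖z‖ := by linarith
    have hmax0 : 0 < ((max N1 N2 : ℕ) : ℝ) := by
      have : 0 < max N1 N2 := lt_of_lt_of_le (by omega) (le_max_left N1 N2)
      exact_mod_cast this
    have hNmax : max N1 N2 ≤ N := by
      rw [hN]
      apply Nat.le_floor
      rw [le_div_iff₀ hs]
      have h3 : 1 - ‖z‖ ≤ 1 / ((max N1 N2 : ℕ) : ℝ) := by linarith
      calc ((max N1 N2 : ℕ) : ℝ) * (1 - ‖z‖) ≤ ((max N1 N2 : ℕ) : ℝ) * (1 / ((max N1 N2 : ℕ) : ℝ)) :=
            mul_le_mul_of_nonneg_left h3 hmax0.le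
        _ = 1 := by field_simp
    have hN1' : N1 ≤ N := (le_max_left _ _).trans hNmax
    have hN2' : N2 ≤ N := (le_max_right _ _).trans hNmax
    have hN4 : 4 ≤ N := hN1.trans hN1'
    have hNr : (4 : ℝ) ≤ N := by exact_mod_cast hN4
    have hle : (N : ℝ) ≤ 1 / (1 - ‖z‖) := by rw [hN]; exact Nat.floor_le (by positivity)
    have hlt : 1 / (1 - ‖z‖) < N + 1 := by rw [hN]; exact Nat.lt_floor_add_one _
    have hb1 : 1 - 1 / (N : ℝ) ≤ ‖z‖ := by
      have : 1 - ‖z‖ ≤ 1 / N := by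
        rw [le_div_iff₀ (by linarith)]
        rw [le_div_iff₀ hs] at hle
        linarith
      linarith
    have hb2 : ‖z‖ < 1 - 1 / ((N : ℝ) + 1) := by
      have : 1 / ((N : ℝ) + 1) < 1 - ‖z‖ := by
        rw [div_lt_iff₀ (by linarith)]
        rw [div_lt_iff₀ hs] at hlt
        linarith
      linarith
    obtain ⟨θ, hθ, hzθ⟩ := cover hΘm hz (by rw [← hc']; exact hH) hN4 hb1 hb2
    obtain ⟨b, hb, hJ, _⟩ := hZ θ (hΘZ hθ.1)
    have hfN := hN2 N hN2' θ hθ.1
    rw [hf, Real.dist_eq] at hfN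
    simp only at hfN
    have hy : 1 - ε ≤ (N : ℝ) * (1 - ‖φ (((1 - 1 / (N : ℝ) : ℝ) : ℂ) * circleMap 0 1 θ)‖) := by
      have := (abs_lt.1 hfN).2
      linarith
    have := F_bound hd hm (ζ := circleMap 0 1 θ) (by simp) hb hJ (by omega : 2 ≤ N) hε0.le hε1 hy rfl hzθ
    rw [hF]
    exact this.trans (hκN N hN1')
  -- global bound on U
  obtain ⟨C0, hC0pos, hC0⟩ : ∃ C0 : ℝ, 0 < C0 ∧ ∀ z : ℂ, ‖z‖ < 1 → (Hz Θ z).re < c' → ‖F z‖ ≤ C0 := by
    obtain ⟨ρ0, hρ0, hρ⟩ := hsmall 1 one_pos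
    have hcomp : IsCompact (closedBall (0 : ℂ) ρ0) := isCompact_closedBall _ _
    have hcont : ContinuousOn F (closedBall (0 : ℂ) ρ0) :=
      hFd.continuousOn.mono (closedBall_subset_ball hρ0)
    obtain ⟨C1, hC1⟩ := hcomp.exists_bound_of_continuousOn hcont
    refine ⟨max C1 1, lt_of_lt_of_le one_pos (le_max_right _ _), ?_⟩
    intro z hz hH
    by_cases h : ‖z‖ ≤ ρ0
    · exact (hC1 z (mem_closedBall_zero_iff.2 h)).trans (le_max_left _ _)
    · push Not at h
      exact (hρ z hz h.le hH).trans (le_max_right _ _)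
  have hHd := Hz_diff hΘm
  -- F vanishes on U
  have hzero : ∀ z0 : ℂ, ‖z0‖ < 1 → (Hz Θ z0).re < c' → F z0 = 0 := by
    intro z0 hz0 hH0
    obtain ⟨τ, hτ⟩ : ∃ τ : ℝ, τ = 1 - (Hz Θ z0).re / c' := ⟨_, rfl⟩
    have hτ0 : 0 < τ := by
      rw [hτ]
      have : (Hz Θ z0).re / c' < 1 := by rw [div_lt_one hc'0]; exact hH0
      linarith
    have hbound : ∀ M : ℝ, 0 < M → ‖F z0‖ * Real.exp (M * τ) ≤ C0 := by
      intro M hM
      obtain ⟨ρ0, hρ0, hρ⟩ := hsmall (C0 * Real.exp (-M)) (by positivity)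
      obtain ⟨ρ, hρdef⟩ : ∃ ρ : ℝ, ρ = max ρ0 ((‖z0‖ + 1) / 2) := ⟨_, rfl⟩
      have hρ1 : ρ < 1 := by rw [hρdef]; exact max_lt hρ0 (by linarith)
      have hρz : ‖z0‖ < ρ := by
        rw [hρdef]; exact lt_of_lt_of_le (by linarith) (le_max_right _ _)
      have hρρ : ρ0 ≤ ρ := by rw [hρdef]; exact le_max_left _ _
      obtain ⟨G, hG⟩ : ∃ G : ℂ → ℂ, G = fun z => F z * Complex.exp ((M : ℂ) * (1 - Hz Θ z / c')) := ⟨_, rfl⟩
      have hGn : ∀ z, ‖G z‖ = ‖F z‖ * Real.exp (M * (1 - (Hz Θ z).re / c')) := by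
        intro z
        rw [hG]
        simp only
        rw [norm_mul, Complex.norm_exp]
        congr 2
        rw [Complex.re_ofReal_mul, sub_re, one_re, Complex.div_ofReal_re]
      have hGd : DifferentiableOn ℂ G (ball 0 1) := by
        rw [hG]
        apply hFd.mul
        apply DifferentiableOn.cexp
        apply DifferentiableOn.const_mul
        apply DifferentiableOn.const_sub
        exact hHd.div_const _
      obtain ⟨V, hV⟩ : ∃ V : Set ℂ, V = ball 0 ρ ∩ (ball 0 1 ∩ {z | (Hz Θ z).re < c'}) := ⟨_, rfl⟩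
      have hUopen : IsOpen (ball (0 : ℂ) 1 ∩ {z | (Hz Θ z).re < c'}) := by
        have := (Complex.continuous_re.comp_continuousOn hHd.continuousOn).isOpen_inter_preimage
          isOpen_ball (isOpen_Iio (a := c'))
        exact this
      have hVopen : IsOpen V := by rw [hV]; exact isOpen_ball.inter hUopen
      have hVcl : closure V ⊆ closedBall 0 ρ := by
        apply closure_minimal _ isClosed_closedBall
        rw [hV]
        exact fun x hx => ball_subset_closedBall hx.1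
      have hcl1 : closedBall (0 : ℂ) ρ ⊆ ball 0 1 := closedBall_subset_ball hρ1
      have hdc : DiffContOnCl ℂ G V := (hGd.mono (hVcl.trans hcl1)).diffContOnCl
      have hfr : ∀ z ∈ frontier V, ‖G z‖ ≤ C0 := by
        intro z hz
        have hzcl : z ∈ closure V := frontier_subset_closure hz
        have hzV : z ∉ V := by
          rw [hVopen.frontier_eq] at hz
          exact hz.2
        have hzρ : ‖z‖ ≤ ρ := mem_closedBall_zero_iff.1 (hVcl hzcl)
        have hz1 : ‖z‖ < 1 := by linarith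
        by_cases hcase : (Hz Θ z).re < c'
        · have hzρ' : ρ ≤ ‖z‖ := by
            by_contra h
            push Not at h
            apply hzV
            rw [hV]
            exact ⟨mem_ball_zero_iff.2 h, mem_ball_zero_iff.2 hz1, hcase⟩
          have h1 := hρ z hz1 (hρρ.trans hzρ') hcase
          rw [hGn]
          have h2 : Real.exp (M * (1 - (Hz Θ z).re / c')) ≤ Real.exp M := by
            rw [Real.exp_le_exp]
            have : 0 ≤ (Hz Θ z).re / c' := div_nonneg (re_Hz_nonneg hΘm hz1) hc'0.le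
            nlinarith
          calc ‖F z‖ * Real.exp (M * (1 - (Hz Θ z).re / c')) ≤ (C0 * Real.exp (-M)) * Real.exp M :=
                mul_le_mul h1 h2 (Real.exp_pos _).le (by positivity)
            _ = C0 := by rw [mul_assoc, ← Real.exp_add]; simp
        · push Not at hcase
          have hF1 : ‖F z‖ ≤ C0 := by
            have hcw : ContinuousWithinAt (fun z => ‖F z‖) V z := by
              have := (hFd.continuousOn.continuousAt (isOpen_ball.mem_nhds (mem_ball_zero_iff.2 hz1))).norm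
              exact this.continuousWithinAt
            apply ContinuousWithinAt.closure_le hzcl hcw continuousWithinAt_const
            intro y hy
            rw [hV] at hy
            exact hC0 y (mem_ball_zero_iff.1 hy.2.1) hy.2.2
          rw [hGn]
          have h2 : Real.exp (M * (1 - (Hz Θ z).re / c')) ≤ 1 := by
            rw [Real.exp_le_one_iff]
            have : 1 ≤ (Hz Θ z).re / c' := by rw [le_div_iff₀ hc'0]; linarith
            nlinarith
          calc ‖F z‖ * Real.exp (M * (1 - (Hz Θ z).re / c')) ≤ C0 * 1 :=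
                mul_le_mul hF1 h2 (Real.exp_pos _).le hC0pos.le
            _ = C0 := mul_one _
      have hbV : Bornology.IsBounded V := by
        apply (isBounded_ball (x := (0 : ℂ)) (r := ρ)).subset
        rw [hV]; exact fun x hx => hx.1
      have hz0V : z0 ∈ closure V := by
        apply subset_closure
        rw [hV]
        exact ⟨mem_ball_zero_iff.2 hρz, mem_ball_zero_iff.2 hz0, hH0⟩
      have := Complex.norm_le_of_forall_mem_frontier_norm_le hbV hdc hfr hz0V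
      rw [hGn, ← hτ] at this
      exact this
    by_contra hne
    have hFpos : 0 < ‖F z0‖ := norm_pos_iff.2 hne
    have hlim : Tendsto (fun M : ℝ => ‖F z0‖ * Real.exp (M * τ)) atTop atTop := by
      apply Tendsto.const_mul_atTop hFpos
      exact Real.tendsto_exp_atTop.comp (tendsto_id.atTop_mul_const hτ0)
    obtain ⟨M, hM1, hM2⟩ := ((hlim.eventually_gt_atTop C0).and (eventually_gt_atTop 0)).exists
    linarith [hbound M hM2]
  -- identity theorem
  have hFzero : ∀ z ∈ ball (0 : ℂ) 1, F z = 0 := by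
    obtain ⟨θ, hθ, hev⟩ := re_Hz_small hΘm hΘpos hc'0
    obtain ⟨N, hN1, hN2, hN3⟩ := (hev.and ((eventually_gt_atTop 1).and (eventually_gt_atTop 0))).exists
    obtain ⟨z1, hz1⟩ : ∃ z1 : ℂ, z1 = ((1 - 1 / (N : ℝ) : ℝ) : ℂ) * circleMap 0 1 θ := ⟨_, rfl⟩
    rw [← hz1] at hN1
    have hNr : (1 : ℝ) < N := by exact_mod_cast hN2
    have hz1n : ‖z1‖ < 1 := by
      rw [hz1, norm_mul, norm_circleMap_zero, abs_one, mul_one, Complex.norm_real, Real.norm_of_nonneg]
      · have : 0 < 1 / (N : ℝ) := by positivity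
        linarith
      · have : 1 / (N : ℝ) ≤ 1 := by rw [div_le_one (by linarith)]; exact hNr.le
        linarith
    have hana : AnalyticOnNhd ℂ F (ball 0 1) := hFd.analyticOnNhd isOpen_ball
    have hev0 : F =ᶠ[𝓝 z1] 0 := by
      have h1 : ∀ᶠ z in 𝓝 z1, z ∈ ball (0 : ℂ) 1 := isOpen_ball.mem_nhds (mem_ball_zero_iff.2 hz1n)
      have h2 : ∀ᶠ z in 𝓝 z1, (Hz Θ z).re < c' := by
        have := (Complex.continuous_re.continuousAt.comp
          (hHd.continuousOn.continuousAt (isOpen_ball.mem_nhds (mem_ball_zero_iff.2 hz1n))))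
        exact this.eventually (gt_mem_nhds hN1)
      filter_upwards [h1, h2] with z h3 h4
      exact hzero z (mem_ball_zero_iff.1 h3) h4
    have := hana.eqOn_zero_of_preconnected_of_eventuallyEq_zero
      (convex_ball (0 : ℂ) 1).isPreconnected (mem_ball_zero_iff.2 hz1n) hev0
    intro z hz
    exact this hz
  have hdd : DifferentiableOn ℂ (deriv φ) (ball 0 1) := hd.deriv isOpen_ball
  have hddd : DifferentiableOn ℂ (deriv (deriv φ)) (ball 0 1) := hdd.deriv isOpen_ball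
  have hF' : ∀ z ∈ ball (0 : ℂ) 1, z * deriv (deriv φ) z = 0 := by
    intro z hz
    have hnhds := isOpen_ball.mem_nhds hz
    have h1 : HasDerivAt F (1 * deriv φ z + z * deriv (deriv φ) z - deriv φ z) z := by
      rw [hF]
      have ha : HasDerivAt φ (deriv φ z) z := (hd.differentiableAt hnhds).hasDerivAt
      have hb : HasDerivAt (deriv φ) (deriv (deriv φ) z) z := (hdd.differentiableAt hnhds).hasDerivAt
      exact ((hasDerivAt_id z).mul hb).sub ha
    have h2 : HasDerivAt F 0 z := by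
      have : F =ᶠ[𝓝 z] fun _ => 0 := by
        filter_upwards [hnhds] with w hw
        exact hFzero w hw
      exact (hasDerivAt_const z (0 : ℂ)).congr_of_eventuallyEq this
    have := h1.unique h2
    linear_combination this
  have hφ'' : ∀ z ∈ ball (0 : ℂ) 1, deriv (deriv φ) z = 0 := by
    intro z hz
    by_cases h0 : z = 0
    · rw [h0]
      have hcont : ContinuousAt (deriv (deriv φ)) 0 :=
        hddd.continuousOn.continuousAt (isOpen_ball.mem_nhds (mem_ball_self one_pos))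
      have h1 : Tendsto (deriv (deriv φ)) (𝓝[≠] 0) (𝓝 (deriv (deriv φ) 0)) :=
        hcont.tendsto.mono_left nhdsWithin_le_nhds
      have h2 : Tendsto (deriv (deriv φ)) (𝓝[≠] 0) (𝓝 0) := by
        apply tendsto_const_nhds.congr'
        filter_upwards [self_mem_nhdsWithin, nhdsWithin_le_nhds (isOpen_ball.mem_nhds (mem_ball_self one_pos))]
          with w hw1 hw2
        rcases mul_eq_zero.1 (hF' w hw2) with h | h
        · exact absurd h hw1
        · exact h.symm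
      exact tendsto_nhds_unique h1 h2
    · rcases mul_eq_zero.1 (hF' z hz) with h | h
      · exact absurd h h0
      · exact h
  have hconst : ∀ z ∈ ball (0 : ℂ) 1, deriv φ z = deriv φ 0 := by
    intro z hz
    exact isOpen_ball.is_const_of_deriv_eq_zero (convex_ball (0 : ℂ) 1).isPreconnected hdd
      (fun w hw => hφ'' w hw) hz (mem_ball_self one_pos)
  have hlin : ∀ z ∈ ball (0 : ℂ) 1, φ z = deriv φ 0 * z := by
    intro z hz
    have h1 := hFzero z hz
    rw [hF] at h1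
    simp only at h1
    rw [hconst z hz] at h1
    linear_combination -h1
  refine ⟨deriv φ 0, ?_, hlin⟩
  -- norm one
  obtain ⟨θ, hθ⟩ : Z.Nonempty := by
    by_contra h
    rw [not_nonempty_iff_eq_empty] at h
    exact hpos (by rw [h]; simp)
  obtain ⟨b, _, _, hlim⟩ := hZ θ hθ
  have h1 : Tendsto (fun N : ℕ => (1 - ‖deriv φ 0‖) + ‖deriv φ 0‖ * (1 / (N : ℝ))) atTop
      (𝓝 ((1 - ‖deriv φ 0‖) + ‖deriv φ 0‖ * 0)) := by
    exact ((tendsto_const_div_atTop_nhds_zero_nat (1 : ℝ)).const_mul _).const_add _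
  have h2 : Tendsto (fun N : ℕ => (1 / (N : ℝ)) * ((N : ℝ) *
      (1 - ‖φ (((1 - 1 / (N : ℝ) : ℝ) : ℂ) * circleMap 0 1 θ)‖))) atTop (𝓝 (0 * 1)) :=
    (tendsto_const_div_atTop_nhds_zero_nat (1 : ℝ)).mul hlim
  have h3 : Tendsto (fun N : ℕ => (1 - ‖deriv φ 0‖) + ‖deriv φ 0‖ * (1 / (N : ℝ))) atTop (𝓝 (0 * 1)) := by
    apply h2.congr'
    filter_upwards [eventually_gt_atTop 1] with N hN
    have hNr : (1 : ℝ) < N := by exact_mod_cast hN
    have h4 : 0 < 1 / (N : ℝ) := by positivity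
    have h5 : 1 / (N : ℝ) ≤ 1 := by rw [div_le_one (by linarith)]; exact hNr.le
    have h6 : ‖((1 - 1 / (N : ℝ) : ℝ) : ℂ) * circleMap 0 1 θ‖ = 1 - 1 / (N : ℝ) := by
      rw [norm_mul, norm_circleMap_zero, abs_one, mul_one, Complex.norm_real,
        Real.norm_of_nonneg (by linarith)]
    rw [hlin _ (mem_ball_zero_iff.2 (by rw [h6]; linarith)), norm_mul, h6]
    field_simp
    ring
  have := tendsto_nhds_unique h1 h3
  linarith

end

end Pool.Agent.H6.NS
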