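import Mathlib
import Pool.Agent.H6.NSB

set_option autoImplicit false

namespace Pool.Agent.H6.NS

open Complex Metric Filter Topology ComplexConjugate MeasureTheory Set

/-- radii -/
noncomputable def rad (a : ℝ) (N : ℕ) : ℝ := Real.exp (-(a / (N : ℝ)))

lemma rad_lt {a : ℝ} (ha : 0 < a) {N : ℕ} (hN : 0 < N) : rad a N < 1 := by
  have hNr : (0 : ℝ) < N := by exact_mod_cast hN
  unfold rad
  rw [Real.exp_lt_one_iff]
  have := div_pos ha hNr
  linarith

lemma rad_pos (a : ℝ) (N : ℕ) : 0 < rad a N := Real.exp_pos _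

lemma rad_tendsto {a : ℝ} (ha : 0 < a) : Tendsto (rad a) atTop (𝓝[<] 1) := by
  rw [tendsto_nhdsWithin_iff]
  constructor
  · have h1 : Tendsto (fun N : ℕ => -(a / (N : ℝ))) atTop (𝓝 (-0)) :=
      (tendsto_const_div_atTop_nhds_zero_nat a).neg
    rw [neg_zero] at h1
    have := (Real.continuous_exp.tendsto 0).comp h1
    rw [Real.exp_zero] at this
    exact this
  · filter_upwards [eventually_gt_atTop 0] with N hN
    exact rad_lt ha hN

lemma rad_mul {a : ℝ} (ha : 0 < a) : Tendsto (fun N : ℕ => (N : ℝ) * (1 - rad a N)) atTop (𝓝 a) := by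
  have h1 : Tendsto (fun N : ℕ => a / (1 + a / (N : ℝ))) atTop (𝓝 (a / (1 + 0))) := by
    apply Tendsto.div tendsto_const_nhds
    · exact (tendsto_const_div_atTop_nhds_zero_nat a).const_add 1
    · norm_num
  rw [add_zero, div_one] at h1
  refine tendsto_of_tendsto_of_tendsto_of_le_of_le' h1 tendsto_const_nhds ?_ ?_
  · filter_upwards [eventually_gt_atTop 0] with N hN
    have hNr : (0 : ℝ) < N := by exact_mod_cast hN
    have hx : 0 < a / (N : ℝ) := div_pos ha hNr
    have h2 : rad a N ≤ 1 / (1 + a / N) := by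
      unfold rad
      rw [Real.exp_neg, ← one_div]
      apply one_div_le_one_div_of_le (by linarith)
      linarith [Real.add_one_le_exp (a / (N : ℝ))]
    have h3 : a / (1 + a / N) = N * (1 - 1 / (1 + a / N)) := by
      field_simp
      ring
    rw [h3]
    apply mul_le_mul_of_nonneg_left _ hNr.le
    linarith
  · filter_upwards [eventually_gt_atTop 0] with N hN
    have hNr : (0 : ℝ) < N := by exact_mod_cast hN
    have h2 : 1 - a / N ≤ rad a N := by
      unfold rad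
      have := Real.add_one_le_exp (-(a / (N : ℝ)))
      linarith
    calc (N : ℝ) * (1 - rad a N) ≤ N * (a / N) := by
          apply mul_le_mul_of_nonneg_left _ hNr.le
          linarith
      _ = a := by field_simp

section

variable {φ : ℂ → ℂ} (hd : DifferentiableOn ℂ φ (ball 0 1))
  (hm : Set.MapsTo φ (ball 0 1) (ball 0 1)) {ζ : ℂ} (hζ : ‖ζ‖ = 1)

lemma seq_inf (h : ∀ M : ℝ, ∀ᶠ r : ℝ in 𝓝[<] 1, M * (1 - r) < 1 - ‖φ (r * ζ)‖) {a : ℝ}
    (ha : 0 < a) : Tendsto (fun N : ℕ => ‖φ ((rad a N : ℂ) * ζ)‖ ^ N) atTop (𝓝 0) := by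
  rw [Metric.tendsto_atTop']
  intro ε hε
  obtain ⟨M, hM, hM0⟩ : ∃ M : ℝ, Real.exp (-(M * (a / 2))) < ε ∧ 0 < M := by
    have h1 : Tendsto (fun M : ℝ => Real.exp (-(M * (a / 2)))) atTop (𝓝 0) :=
      Real.tendsto_exp_neg_atTop_nhds_zero.comp (tendsto_id.atTop_mul_const (by linarith))
    exact ((h1.eventually (gt_mem_nhds hε)).and (eventually_gt_atTop 0)).exists
  have h2 := (rad_tendsto ha).eventually (h M)
  have h3 : ∀ᶠ N : ℕ in atTop, a / 2 < (N : ℝ) * (1 - rad a N) :=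
    (rad_mul ha).eventually (lt_mem_nhds (by linarith))
  obtain ⟨N0, hN0⟩ := ((h2.and h3).and (eventually_gt_atTop 0)).exists_forall_of_atTop
  refine ⟨N0, fun N hN => ?_⟩
  obtain ⟨⟨h4, h5⟩, h6⟩ := hN0 N hN.le
  have hNr : (0 : ℝ) < N := by exact_mod_cast h6
  rw [dist_zero_right, norm_pow, norm_norm]
  have h7 : ‖φ ((rad a N : ℂ) * ζ)‖ ≤ Real.exp (-(M * (1 - rad a N))) := by
    have := Real.add_one_le_exp (-(M * (1 - rad a N)))
    linarith
  calc ‖φ ((rad a N : ℂ) * ζ)‖ ^ N ≤ (Real.exp (-(M * (1 - rad a N)))) ^ N :=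
        pow_le_pow_left₀ (norm_nonneg _) h7 N
    _ = Real.exp (-(M * (N * (1 - rad a N)))) := by
        rw [← Real.exp_nat_mul]
        congr 1
        ring
    _ ≤ Real.exp (-(M * (a / 2))) := by
        rw [Real.exp_le_exp]
        have := mul_le_mul_of_nonneg_left h5.le hM0.le
        linarith
    _ < ε := hM

include hm hζ in
lemma ratio_fin {b : ℂ} {D : ℝ} (hb : ‖b‖ = 1) (hD : 0 ≤ D) (hJ : Julia φ ζ b D)
    (hlow : ∀ ε > 0, ∀ᶠ r : ℝ in 𝓝[<] 1, (D - ε) * (1 - r) < 1 - ‖φ (r * ζ)‖) :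
    Tendsto (fun r : ℝ => (1 - ‖φ (r * ζ)‖) / (1 - r)) (𝓝[<] 1) (𝓝 D) := by
  have hev : ∀ᶠ r : ℝ in 𝓝[<] 1, 0 < r ∧ r < 1 := by
    filter_upwards [Ioo_mem_nhdsLT (show (0 : ℝ) < 1 by norm_num)] with r hr
    exact hr
  have hup : Tendsto (fun r : ℝ => 2 * D / (1 + r)) (𝓝[<] 1) (𝓝 D) := by
    have h1 : Tendsto (fun r : ℝ => 2 * D / (1 + r)) (𝓝 1) (𝓝 (2 * D / (1 + 1))) := by
      apply Tendsto.div tendsto_const_nhds
      · exact tendsto_id.const_add 1
      · norm_num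
    have e : 2 * D / (1 + 1) = D := by ring
    rw [e] at h1
    exact h1.mono_left nhdsWithin_le_nhds
  have hle : ∀ᶠ r : ℝ in 𝓝[<] 1, (1 - ‖φ (r * ζ)‖) / (1 - r) ≤ 2 * D / (1 + r) := by
    filter_upwards [hev] with r hr
    obtain ⟨hr0, hr1⟩ := hr
    have hφ1 := norm_lt hm hζ hr0 hr1
    obtain ⟨t, ht⟩ : ∃ t, t = 1 - conj b * φ ((r : ℂ) * ζ) := ⟨_, rfl⟩
    have h1 : 1 - ‖φ ((r : ℂ) * ζ)‖ ≤ t.re := by
      rw [ht, sub_re, one_re]
      have : (conj b * φ ((r : ℂ) * ζ)).re ≤ ‖conj b * φ ((r : ℂ) * ζ)‖ := re_le_norm _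
      rw [norm_mul, RCLike.norm_conj, hb, one_mul] at this
      linarith
    have h2 : t.re ≤ ‖t‖ := re_le_norm _
    have hrn : ‖(r : ℂ) * ζ‖ = r := by
      rw [norm_mul, hζ, mul_one, Complex.norm_real, Real.norm_of_nonneg hr0.le]
    have hj := hJ ((r : ℂ) * ζ) (by rw [hrn]; exact hr1)
    rw [← ht, hrn] at hj
    have hζζ : conj ζ * ((r : ℂ) * ζ) = (r : ℂ) := by
      have : conj ζ * ζ = 1 := by
        rw [← Complex.normSq_eq_conj_mul_self, Complex.normSq_eq_norm_sq, hζ]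
        norm_num
      calc conj ζ * ((r : ℂ) * ζ) = (r : ℂ) * (conj ζ * ζ) := by ring
        _ = (r : ℂ) := by rw [this, mul_one]
    rw [hζζ] at hj
    have h1r : ‖(1 : ℂ) - (r : ℂ)‖ = 1 - r := by
      rw [← Complex.ofReal_one, ← Complex.ofReal_sub, Complex.norm_real, Real.norm_of_nonneg (by linarith)]
    rw [h1r] at hj
    have ht0 : 0 < ‖t‖ := by linarith
    have h3 : 1 - ‖φ ((r : ℂ) * ζ)‖ ^ 2 ≤ 2 * ‖t‖ := by
      nlinarith [norm_nonneg (φ ((r : ℂ) * ζ))]
    have h4 : ‖t‖ ^ 2 * (1 - r ^ 2) ≤ D * (2 * ‖t‖) * (1 - r) ^ 2 := by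
      refine hj.trans ?_
      have : D * (1 - ‖φ ((r : ℂ) * ζ)‖ ^ 2) ≤ D * (2 * ‖t‖) := mul_le_mul_of_nonneg_left h3 hD
      exact mul_le_mul_of_nonneg_right this (by positivity)
    have h5 : ‖t‖ * (1 + r) ≤ 2 * D * (1 - r) := by
      have hp : 0 < ‖t‖ * (1 - r) := mul_pos ht0 (by linarith)
      have : (‖t‖ * (1 - r)) * (‖t‖ * (1 + r)) ≤ (‖t‖ * (1 - r)) * (2 * D * (1 - r)) := by
        nlinarith [h4]
      exact le_of_mul_le_mul_left this hp
    rw [div_le_div_iff₀ (by linarith) (by linarith)]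
    nlinarith
  rw [tendsto_order]
  constructor
  · intro x hx
    filter_upwards [hlow (D - x) (by linarith), hev] with r h1 h2
    rw [lt_div_iff₀ (by linarith [h2.2])]
    have e : D - (D - x) = x := by ring
    rw [e] at h1
    exact h1
  · intro x hx
    filter_upwards [hle, hup.eventually (gt_mem_nhds hx)] with r h1 h2
    linarith

lemma seq_fin {D : ℝ} (h : Tendsto (fun r : ℝ => (1 - ‖φ (r * ζ)‖) / (1 - r)) (𝓝[<] 1) (𝓝 D)) {a : ℝ}
    (ha : 0 < a) : Tendsto (fun N : ℕ => ‖φ ((rad a N : ℂ) * ζ)‖ ^ N) atTop (𝓝 (Real.exp (-(D * a)))) := by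
  have h1 := (h.comp (rad_tendsto ha)).mul (rad_mul ha)
  have h2 : Tendsto (fun N : ℕ => (N : ℝ) * (-(1 - ‖φ ((rad a N : ℂ) * ζ)‖))) atTop (𝓝 (-(D * a))) := by
    refine h1.neg.congr' ?_
    filter_upwards [eventually_gt_atTop 0] with N hN
    have := rad_lt ha hN
    have h3 : 1 - rad a N ≠ 0 := by linarith
    simp only [Function.comp]
    field_simp
  have h3 := Real.tendsto_one_add_pow_exp_of_tendsto h2
  refine h3.congr (fun N => ?_)
  congr 1
  ring

include hd hm hζ in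
/-- the limit facts at each boundary point, in the form used for the spectral argument -/
lemma radial_sigma : ∃ σ : ℝ, 0 ≤ σ ∧ σ ≤ 1 ∧
    (∀ j : ℕ, 0 < j → Tendsto (fun N : ℕ => ‖φ ((rad (j * (Real.log 2 / 2)) N : ℂ) * ζ)‖ ^ (2 * N)) atTop
      (𝓝 (σ ^ j))) ∧
    (σ = 1 / 2 → ∃ b : ℂ, ‖b‖ = 1 ∧ Julia φ ζ b 1 ∧
      Tendsto (fun N : ℕ => (N : ℝ) * (1 - ‖φ (((1 - 1 / (N : ℝ) : ℝ) : ℂ) * ζ)‖)) atTop (𝓝 1)) ∧
    (1 / 2 < σ ↔ ∃ c < 1, ∃ᶠ r : ℝ in 𝓝[<] 1, 1 - ‖φ (r * ζ)‖ ≤ c * (1 - r)) ∧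
    (0 < σ → Tendsto (fun r : ℝ => ‖φ (r * ζ)‖) (𝓝[<] 1) (𝓝 1)) := by
  have hl2 : 0 < Real.log 2 := Real.log_pos (by norm_num)
  have hev : ∀ᶠ r : ℝ in 𝓝[<] 1, 0 < r ∧ r < 1 := by
    filter_upwards [Ioo_mem_nhdsLT (show (0 : ℝ) < 1 by norm_num)] with r hr
    exact hr
  rcases radial hd hm hζ with h | ⟨b, D, hb, hD, hJ, hlow⟩
  · refine ⟨0, le_rfl, zero_le_one, ?_, ?_, ?_, ?_⟩
    · intro j hj
      have hjr : (0 : ℝ) < j := by exact_mod_cast hj
      have h1 := (seq_inf h (a := j * (Real.log 2 / 2)) (by positivity)).pow 2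
      rw [zero_pow (by norm_num)] at h1
      rw [zero_pow hj.ne']
      refine h1.congr (fun N => ?_)
      rw [← pow_mul, mul_comm N 2]
    · intro h0; norm_num at h0
    · constructor
      · intro h0; norm_num at h0
      · rintro ⟨c, _, hc⟩
        exfalso
        obtain ⟨r, hr1, hr2⟩ := (hc.and_eventually (h c)).exists
        linarith
    · intro h0; exact absurd h0 (lt_irrefl 0)
  · have hratio := ratio_fin hm hζ hb hD hJ hlow
    refine ⟨Real.exp (-(D * Real.log 2)), (Real.exp_pos _).le, ?_, ?_, ?_, ?_, ?_⟩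
    · rw [Real.exp_le_one_iff]
      have := mul_nonneg hD hl2.le
      linarith
    · intro j hj
      have hjr : (0 : ℝ) < j := by exact_mod_cast hj
      have h1 := (seq_fin hratio (a := j * (Real.log 2 / 2)) (by positivity)).pow 2
      have e : Real.exp (-(D * (j * (Real.log 2 / 2)))) ^ 2 = Real.exp (-(D * Real.log 2)) ^ j := by
        rw [← Real.exp_nat_mul, ← Real.exp_nat_mul]
        congr 1
        push_cast
        ring
      rw [e] at h1
      refine h1.congr (fun N => ?_)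
      rw [← pow_mul, mul_comm N 2]
    · intro h0
      have hD1 : D = 1 := by
        have h2 : Real.exp (-(D * Real.log 2)) = Real.exp (-Real.log 2) := by
          rw [h0, Real.exp_neg, Real.exp_log (by norm_num)]; norm_num
        have h3 := Real.exp_injective h2
        have h4 : (D - 1) * Real.log 2 = 0 := by linarith
        rcases mul_eq_zero.1 h4 with h5 | h5
        · linarith
        · linarith
      subst hD1
      obtain ⟨hy1, _⟩ := case_fin hm hζ hb hD hJ hlow (δ := 1) one_pos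
      rw [one_mul] at hy1
      exact ⟨b, hb, hJ, hy1⟩
    · have hiff : 1 / 2 < Real.exp (-(D * Real.log 2)) ↔ D < 1 := by
        have h2 : (1 / 2 : ℝ) = Real.exp (-Real.log 2) := by
          rw [Real.exp_neg, Real.exp_log (by norm_num)]; norm_num
        rw [h2, Real.exp_lt_exp]
        constructor
        · intro h3
          nlinarith
        · intro h3
          nlinarith
      rw [hiff]
      constructor
      · intro hD1
        refine ⟨(D + 1) / 2, by linarith, ?_⟩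
        apply Eventually.frequently
        filter_upwards [hratio.eventually (gt_mem_nhds (show D < (D + 1) / 2 by linarith)), hev] with r h3 h4
        rw [div_lt_iff₀ (by linarith [h4.2])] at h3
        exact h3.le
      · rintro ⟨c, hc, hfr⟩
        by_contra hcon
        push Not at hcon
        have h3 := hratio.eventually (lt_mem_nhds (show c < D by linarith))
        obtain ⟨r, hr1, hr2, hr3⟩ := (hfr.and_eventually (h3.and hev)).exists
        rw [lt_div_iff₀ (by linarith [hr3.2])] at hr2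
        linarith
    · intro _
      have h1r : Tendsto (fun r : ℝ => 1 - r) (𝓝[<] 1) (𝓝 (1 - 1)) :=
        (tendsto_id.const_sub 1).mono_left nhdsWithin_le_nhds
      have h2 := (hratio.mul h1r).const_sub 1
      have e : 1 - D * (1 - 1) = 1 := by ring
      rw [e] at h2
      refine h2.congr' ?_
      filter_upwards [hev] with r hr
      have h3 : 1 - r ≠ 0 := by linarith [hr.2]
      rw [div_mul_cancel₀ _ h3]
      ring

end

/-- Taylor coefficients -/
noncomputable def tc (h : ℂ → ℂ) (k : ℕ) : ℂ := iteratedDeriv k h 0 / (k.factorial : ℂ)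

lemma tc_hasSum {h : ℂ → ℂ} (hh : DifferentiableOn ℂ h (ball 0 1)) {z : ℂ} (hz : ‖z‖ < 1) :
    HasSum (fun k : ℕ => tc h k * z ^ k) (h z) := by
  have := Complex.hasSum_taylorSeries_on_ball hh (mem_ball_zero_iff.2 hz)
  have e : (fun k : ℕ => tc h k * z ^ k) =
      fun n : ℕ => (n.factorial : ℂ)⁻¹ • (z - 0) ^ n • iteratedDeriv n h 0 := by
    funext k
    unfold tc
    rw [sub_zero, smul_eq_mul, smul_eq_mul]
    field_simp
  rw [e]
  exact this

/-- Parseval's identity on circles -/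
lemma parseval {h : ℂ → ℂ} (hh : DifferentiableOn ℂ h (ball 0 1)) {ρ : ℝ} (h0 : 0 < ρ) (h1 : ρ < 1) :
    HasSum (fun k : ℕ => ‖tc h k‖ ^ 2 * ρ ^ (2 * k))
      (Real.circleAverage (fun z => ‖h (ρ * z)‖ ^ 2) 0 1) := by
  rw [hasSum_iff_tendsto_nat_of_nonneg (fun k => by positivity)]
  have hρn : ‖(ρ : ℂ)‖ = ρ := by rw [Complex.norm_real, Real.norm_of_nonneg h0.le]
  have hsum0 : Summable (fun k : ℕ => ‖tc h k‖ * ρ ^ k) := by
    have := (tc_hasSum hh (z := (ρ : ℂ)) (by rw [hρn]; exact h1)).summable.norm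
    refine this.congr (fun k => ?_)
    rw [norm_mul, norm_pow, hρn]
  obtain ⟨C, hC⟩ : ∃ C, C = ∑' k : ℕ, ‖tc h k‖ * ρ ^ k := ⟨_, rfl⟩
  obtain ⟨p, hp⟩ : ∃ p : ℕ → Polynomial ℂ, p = fun m => ∑ k ∈ Finset.range m,
      Polynomial.monomial k (tc h k * (ρ : ℂ) ^ k) := ⟨_, rfl⟩
  have heval : ∀ m z, (p m).eval z = ∑ k ∈ Finset.range m, tc h k * (ρ * z) ^ k := by
    intro m z
    rw [hp]
    simp only
    rw [Polynomial.eval_finset_sum]
    apply Finset.sum_congr rfl
    intro k _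
    rw [Polynomial.eval_monomial, mul_pow]
    ring
  have hcoeff : ∀ m i, (p m).coeff i = if i < m then tc h i * (ρ : ℂ) ^ i else 0 := by
    intro m i
    rw [hp]
    simp only
    rw [Polynomial.finset_sum_coeff]
    simp only [Polynomial.coeff_monomial]
    rw [Finset.sum_ite_eq' (Finset.range m) i]
    simp only [Finset.mem_range]
  have hpar : ∀ m, ∑ k ∈ Finset.range m, ‖tc h k‖ ^ 2 * ρ ^ (2 * k) =
      Real.circleAverage (fun z => ‖(p m).eval z‖ ^ 2) 0 1 := by
    intro m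
    rw [← Polynomial.sum_sq_norm_coeff_eq_circleAverage]
    symm
    have hsub : (p m).support ⊆ Finset.range m := by
      intro i hi
      rw [Polynomial.mem_support_iff, hcoeff] at hi
      rw [Finset.mem_range]
      by_contra hcon
      rw [if_neg hcon] at hi
      exact hi rfl
    rw [Finset.sum_subset hsub]
    · apply Finset.sum_congr rfl
      intro i hi
      rw [Finset.mem_range] at hi
      rw [hcoeff, if_pos hi, norm_mul, norm_pow, hρn, mul_pow, ← pow_mul, mul_comm i 2]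
    · intro i _ hi
      rw [Polynomial.notMem_support_iff] at hi
      rw [hi]
      simp
  simp only [hpar]
  have hz1 : ∀ θ : ℝ, ‖(ρ : ℂ) * circleMap 0 1 θ‖ = ρ := by
    intro θ
    rw [norm_mul, hρn, norm_circleMap_zero, abs_one, mul_one]
  simp only [Real.circleAverage_def]
  apply Tendsto.const_smul
  apply intervalIntegral.tendsto_integral_filter_of_dominated_convergence (fun _ => C ^ 2)
  · filter_upwards with m
    apply Continuous.aestronglyMeasurable
    apply Continuous.pow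
    apply Continuous.norm
    exact (p m).continuous.comp (continuous_circleMap 0 1)
  · filter_upwards with m
    filter_upwards with θ _
    rw [norm_pow, norm_norm]
    apply pow_le_pow_left₀ (norm_nonneg _)
    rw [heval]
    refine (norm_sum_le _ _).trans ?_
    have : ∀ k ∈ Finset.range m, ‖tc h k * (ρ * circleMap 0 1 θ) ^ k‖ = ‖tc h k‖ * ρ ^ k := by
      intro k _
      rw [norm_mul, norm_pow, hz1]
    rw [Finset.sum_congr rfl this, hC]
    exact hsum0.sum_le_tsum _ (fun k _ => by positivity)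
  · exact intervalIntegrable_const
  · filter_upwards with θ _
    have := (tc_hasSum hh (z := (ρ : ℂ) * circleMap 0 1 θ) (by rw [hz1]; exact h1)).tendsto_sum_nat
    simp only [heval]
    exact this.norm.pow 2

lemma circle_avg_le_one {h : ℂ → ℂ} (hh : DifferentiableOn ℂ h (ball 0 1))
    (hb : ∀ z, ‖z‖ < 1 → ‖h z‖ ≤ 1) {ρ : ℝ} (h0 : 0 < ρ) (h1 : ρ < 1) :
    Real.circleAverage (fun z => ‖h (ρ * z)‖ ^ 2) 0 1 ≤ 1 := by
  have hρn : ‖(ρ : ℂ)‖ = ρ := by rw [Complex.norm_real, Real.norm_of_nonneg h0.le]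
  have hz1 : ∀ θ : ℝ, ‖(ρ : ℂ) * circleMap 0 1 θ‖ = ρ := by
    intro θ
    rw [norm_mul, hρn, norm_circleMap_zero, abs_one, mul_one]
  rw [Real.circleAverage_def]
  have hpi := Real.pi_pos
  have hcont : Continuous (fun θ : ℝ => ‖h (ρ * circleMap 0 1 θ)‖ ^ 2) := by
    apply Continuous.pow
    apply Continuous.norm
    apply hh.continuousOn.comp_continuous (by fun_prop)
    intro θ
    rw [mem_ball_zero_iff, hz1]
    exact h1
  have : ∫ θ in (0 : ℝ)..(2 * Real.pi), ‖h (ρ * circleMap 0 1 θ)‖ ^ 2 ≤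
      ∫ θ in (0 : ℝ)..(2 * Real.pi), (1 : ℝ) := by
    apply intervalIntegral.integral_mono (by positivity) (hcont.intervalIntegrable _ _)
      intervalIntegrable_const
    intro θ
    apply pow_le_one₀ (norm_nonneg _)
    apply hb
    rw [hz1]
    exact h1
  rw [intervalIntegral.integral_const, smul_eq_mul, mul_one, sub_zero] at this
  rw [smul_eq_mul, inv_mul_le_iff₀ (by positivity), mul_one]
  exact this

/-- square summability -/
lemma tc_sq_summable {h : ℂ → ℂ} (hh : DifferentiableOn ℂ h (ball 0 1))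
    (hb : ∀ z, ‖z‖ < 1 → ‖h z‖ ≤ 1) : Summable (fun k : ℕ => ‖tc h k‖ ^ 2) ∧
    ∑' k : ℕ, ‖tc h k‖ ^ 2 ≤ 1 := by
  have hfin : ∀ s : Finset ℕ, ∑ k ∈ s, ‖tc h k‖ ^ 2 ≤ 1 := by
    intro s
    have h1 : ∀ᶠ ρ : ℝ in 𝓝[<] 1, ∑ k ∈ s, ‖tc h k‖ ^ 2 * ρ ^ (2 * k) ≤ 1 := by
      filter_upwards [Ioo_mem_nhdsLT (show (0 : ℝ) < 1 by norm_num)] with ρ hρ
      have h2 := parseval hh hρ.1 hρ.2
      have hρ0 := hρ.1
      refine (sum_le_hasSum s (fun k _ => by positivity) h2).trans ?_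
      exact circle_avg_le_one hh hb hρ.1 hρ.2
    have h2 : Tendsto (fun ρ : ℝ => ∑ k ∈ s, ‖tc h k‖ ^ 2 * ρ ^ (2 * k)) (𝓝[<] 1)
        (𝓝 (∑ k ∈ s, ‖tc h k‖ ^ 2 * 1 ^ (2 * k))) := by
      apply tendsto_finset_sum
      intro k _
      apply Tendsto.const_mul
      exact ((continuous_pow (2 * k)).tendsto (1 : ℝ)).mono_left nhdsWithin_le_nhds
    have h3 := le_of_tendsto h2 h1
    simpa using h3
  have hs := summable_of_sum_le (f := fun k : ℕ => ‖tc h k‖ ^ 2) (fun k => by positivity) hfin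
  exact ⟨hs, hs.tsum_le_of_sum_le hfin⟩

end Pool.Agent.H6.NS
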