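import Mathlib
import Pool.Agent.H6.NSE
import Pool.Agent.H6.NSF

set_option autoImplicit false

namespace Pool.Agent.H6.NS

open Complex Metric Filter Topology ComplexConjugate MeasureTheory Set

/-- circle averages -/
noncomputable def Iav (φ : ℂ → ℂ) (N j : ℕ) : ℝ :=
  Real.circleAverage (fun z => ‖φ (((rad (j * (Real.log 2 / 2)) N : ℝ) : ℂ) * z) ^ N‖ ^ 2) 0 1

/-- spectral variable -/
noncomputable def sv (N k : ℕ) : ℝ := Real.exp (-(Real.log 2 * k / N))

lemma sv_pos (N k : ℕ) : 0 < sv N k := Real.exp_pos _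

lemma sv_le (N k : ℕ) : sv N k ≤ 1 := by
  unfold sv
  rw [Real.exp_le_one_iff]
  have : 0 < Real.log 2 := Real.log_pos (by norm_num)
  have : 0 ≤ Real.log 2 * k / N := by positivity
  linarith

section

variable {φ : ℂ → ℂ} (hd : DifferentiableOn ℂ φ (ball 0 1))
  (hm : Set.MapsTo φ (ball 0 1) (ball 0 1))

include hm in
lemma phi_lt {z : ℂ} (hz : ‖z‖ < 1) : ‖φ z‖ < 1 :=
  mem_ball_zero_iff.1 (hm (mem_ball_zero_iff.2 hz))

lemma norm_rad_circle {a : ℝ} (N : ℕ) (θ : ℝ) : ‖((rad a N : ℝ) : ℂ) * circleMap 0 1 θ‖ = rad a N := by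
  rw [norm_mul, Complex.norm_real, Real.norm_of_nonneg (rad_pos a N).le, norm_circleMap_zero, abs_one,
    mul_one]

include hd in
lemma cont_rad {a : ℝ} (ha : 0 < a) (N M : ℕ) (hMN : N = 0 → M = 0) :
    Continuous (fun θ : ℝ => ‖φ (((rad a N : ℝ) : ℂ) * circleMap 0 1 θ)‖ ^ M) := by
  rcases Nat.eq_zero_or_pos N with h0 | hN
  · rw [hMN h0]
    simp only [pow_zero]
    exact continuous_const
  · apply Continuous.pow
    apply Continuous.norm
    apply hd.continuousOn.comp_continuous (by fun_prop)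
    intro θ
    rw [mem_ball_zero_iff, norm_rad_circle]
    exact rad_lt ha hN

include hd hm in
lemma exists_sigma : ∃ σ : ℝ → ℝ, Measurable σ ∧ (∀ θ, 0 ≤ σ θ ∧ σ θ ≤ 1) ∧
    (∀ θ, ∀ j : ℕ, 0 < j → Tendsto (fun N : ℕ =>
      ‖φ ((rad (j * (Real.log 2 / 2)) N : ℂ) * circleMap 0 1 θ)‖ ^ (2 * N)) atTop (𝓝 (σ θ ^ j))) ∧
    (∀ θ, σ θ = 1 / 2 → ∃ b : ℂ, ‖b‖ = 1 ∧ Julia φ (circleMap 0 1 θ) b 1 ∧
      Tendsto (fun N : ℕ => (N : ℝ) * (1 - ‖φ (((1 - 1 / (N : ℝ) : ℝ) : ℂ) * circleMap 0 1 θ)‖)) atTop (𝓝 1)) ∧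
    (∀ θ, 1 / 2 < σ θ ↔ ∃ c < 1, ∃ᶠ r : ℝ in 𝓝[<] 1, 1 - ‖φ (r * circleMap 0 1 θ)‖ ≤ c * (1 - r)) ∧
    (∀ θ, 0 < σ θ → Tendsto (fun r : ℝ => ‖φ (r * circleMap 0 1 θ)‖) (𝓝[<] 1) (𝓝 1)) := by
  have h := fun θ : ℝ => radial_sigma hd hm (ζ := circleMap 0 1 θ) (by simp)
  choose σ h1 h2 h3 h4 h5 h6 using h
  refine ⟨σ, ?_, fun θ => ⟨h1 θ, h2 θ⟩, h3, h4, h5, h6⟩
  have hl2 : 0 < Real.log 2 := Real.log_pos (by norm_num)
  apply measurable_of_tendsto_metrizable (f := fun (N : ℕ) (θ : ℝ) =>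
    ‖φ (((rad ((1 : ℕ) * (Real.log 2 / 2)) N : ℝ) : ℂ) * circleMap 0 1 θ)‖ ^ (2 * N))
  · intro N
    exact (cont_rad hd (by push_cast; positivity) N (2 * N) (fun h => by omega)).measurable
  · rw [tendsto_pi_nhds]
    intro θ
    have := h3 θ 1 one_pos
    rwa [pow_one] at this

include hd hm in
lemma spec {N : ℕ} (hN : 0 < N) (Q : Polynomial ℝ) (hQ : Q.coeff 0 = 0) :
    HasSum (fun k : ℕ => ‖tc (fun z => φ z ^ N) k‖ ^ 2 * Q.eval (sv N k))
      (∑ j ∈ Q.support, Q.coeff j * Iav φ N j) := by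
  have hNr : (0 : ℝ) < N := by exact_mod_cast hN
  have hl2 : 0 < Real.log 2 := Real.log_pos (by norm_num)
  have h1 : ∀ k : ℕ, ‖tc (fun z => φ z ^ N) k‖ ^ 2 * Q.eval (sv N k) =
      ∑ j ∈ Q.support, Q.coeff j * (‖tc (fun z => φ z ^ N) k‖ ^ 2 *
        (rad (j * (Real.log 2 / 2)) N) ^ (2 * k)) := by
    intro k
    rw [Polynomial.eval_eq_sum, Polynomial.sum_def, Finset.mul_sum]
    apply Finset.sum_congr rfl
    intro j _
    have e : (rad (j * (Real.log 2 / 2)) N) ^ (2 * k) = sv N k ^ j := by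
      unfold rad sv
      rw [← Real.exp_nat_mul, ← Real.exp_nat_mul]
      congr 1
      push_cast
      field_simp
    rw [e]
    ring
  simp only [h1]
  apply hasSum_sum
  intro j hj
  apply HasSum.mul_left
  have hj0 : 0 < j := by
    rcases Nat.eq_zero_or_pos j with h0 | h0
    · rw [h0, Polynomial.mem_support_iff] at hj
      exact absurd hQ hj
    · exact h0
  have hjr : (0 : ℝ) < j := by exact_mod_cast hj0
  exact parseval (hd.pow N) (rad_pos _ N) (rad_lt (by positivity) hN)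

include hd hm in
lemma Iav_lim {σ : ℝ → ℝ} (hσ1 : ∀ θ, 0 ≤ σ θ ∧ σ θ ≤ 1)
    (hσ2 : ∀ θ, ∀ j : ℕ, 0 < j → Tendsto (fun N : ℕ =>
      ‖φ ((rad (j * (Real.log 2 / 2)) N : ℂ) * circleMap 0 1 θ)‖ ^ (2 * N)) atTop (𝓝 (σ θ ^ j)))
    {j : ℕ} (hj : 0 < j) :
    Tendsto (fun N => Iav φ N j) atTop (𝓝 ((2 * Real.pi)⁻¹ * ∫ θ in (0 : ℝ)..(2 * Real.pi), σ θ ^ j)) := by
  have hl2 : 0 < Real.log 2 := Real.log_pos (by norm_num)
  have hjr : (0 : ℝ) < j := by exact_mod_cast hj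
  have h1 : ∀ N, Iav φ N j = (2 * Real.pi)⁻¹ * ∫ θ in (0 : ℝ)..(2 * Real.pi),
      ‖φ (((rad (j * (Real.log 2 / 2)) N : ℝ) : ℂ) * circleMap 0 1 θ)‖ ^ (2 * N) := by
    intro N
    unfold Iav
    rw [Real.circleAverage_def, smul_eq_mul]
    congr 1
    apply intervalIntegral.integral_congr
    intro θ _
    simp only
    rw [norm_pow, ← pow_mul, mul_comm N 2]
  simp only [h1]
  apply Tendsto.const_mul
  apply intervalIntegral.tendsto_integral_filter_of_dominated_convergence (fun _ => (1 : ℝ))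
  · filter_upwards with N
    exact (cont_rad hd (by positivity) N (2 * N) (fun h => by omega)).aestronglyMeasurable
  · filter_upwards [eventually_gt_atTop 0] with N hN
    filter_upwards with θ _
    rw [norm_pow, norm_norm]
    apply pow_le_one₀ (norm_nonneg _)
    apply (phi_lt hm _).le
    rw [norm_rad_circle]
    exact rad_lt (by positivity) hN
  · exact intervalIntegrable_const
  · filter_upwards with θ _
    exact hσ2 θ j hj

lemma sigma_pow_int {σ : ℝ → ℝ} (hσm : Measurable σ) (hσ1 : ∀ θ, 0 ≤ σ θ ∧ σ θ ≤ 1) (j : ℕ) :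
    IntervalIntegrable (fun θ => σ θ ^ j) volume 0 (2 * Real.pi) := by
  have h1 : IntervalIntegrable (fun _ : ℝ => (1 : ℝ)) volume 0 (2 * Real.pi) := intervalIntegrable_const
  apply h1.mono_fun (hσm.pow_const j).aestronglyMeasurable
  filter_upwards with θ
  rw [norm_one, norm_pow, Real.norm_of_nonneg (hσ1 θ).1]
  exact pow_le_one₀ (hσ1 θ).1 (hσ1 θ).2

include hd hm in
lemma spec_lim {σ : ℝ → ℝ} (hσm : Measurable σ) (hσ1 : ∀ θ, 0 ≤ σ θ ∧ σ θ ≤ 1)
    (hσ2 : ∀ θ, ∀ j : ℕ, 0 < j → Tendsto (fun N : ℕ =>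
      ‖φ ((rad (j * (Real.log 2 / 2)) N : ℂ) * circleMap 0 1 θ)‖ ^ (2 * N)) atTop (𝓝 (σ θ ^ j)))
    (Q : Polynomial ℝ) (hQ : Q.coeff 0 = 0) :
    Tendsto (fun N => ∑ j ∈ Q.support, Q.coeff j * Iav φ N j) atTop
      (𝓝 ((2 * Real.pi)⁻¹ * ∫ θ in (0 : ℝ)..(2 * Real.pi), Q.eval (σ θ))) := by
  have h1 : (2 * Real.pi)⁻¹ * ∫ θ in (0 : ℝ)..(2 * Real.pi), Q.eval (σ θ) =
      ∑ j ∈ Q.support, Q.coeff j * ((2 * Real.pi)⁻¹ * ∫ θ in (0 : ℝ)..(2 * Real.pi), σ θ ^ j) := by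
    have e : ∀ θ, Q.eval (σ θ) = ∑ j ∈ Q.support, Q.coeff j * σ θ ^ j := by
      intro θ
      rw [Polynomial.eval_eq_sum, Polynomial.sum_def]
    simp only [e]
    rw [intervalIntegral.integral_finset_sum (fun j _ => (sigma_pow_int hσm hσ1 j).const_mul _),
      Finset.mul_sum]
    apply Finset.sum_congr rfl
    intro j _
    rw [intervalIntegral.integral_const_mul]
    ring
  rw [h1]
  apply tendsto_finset_sum
  intro j hj
  apply Tendsto.const_mul
  have hj0 : 0 < j := by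
    rcases Nat.eq_zero_or_pos j with h0 | h0
    · rw [h0, Polynomial.mem_support_iff] at hj
      exact absurd hQ hj
    · exact h0
  exact Iav_lim hd hm hσ1 hσ2 hj0

include hd hm in
lemma half_null (hrot : ¬ ∃ c : ℂ, ‖c‖ = 1 ∧ ∀ z ∈ ball (0 : ℂ) 1, φ z = c * z) {σ : ℝ → ℝ}
    (hσm : Measurable σ)
    (hσ3 : ∀ θ, σ θ = 1 / 2 → ∃ b : ℂ, ‖b‖ = 1 ∧ Julia φ (circleMap 0 1 θ) b 1 ∧
      Tendsto (fun N : ℕ => (N : ℝ) * (1 - ‖φ (((1 - 1 / (N : ℝ) : ℝ) : ℂ) * circleMap 0 1 θ)‖))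
        atTop (𝓝 1)) :
    volume (Ioo 0 (2 * Real.pi) ∩ σ ⁻¹' {1 / 2}) = 0 := by
  by_contra hne
  apply hrot
  apply rot_of_pos hd hm (measurableSet_Ioo.inter (hσm (measurableSet_singleton _))) inter_subset_left hne
  intro θ hθ
  exact hσ3 θ hθ.2

/-- bump polynomial -/
noncomputable def bump (L : ℕ) : Polynomial ℝ := (4 * Polynomial.X * (1 - Polynomial.X)) ^ (L + 1)

lemma bump_eval (L : ℕ) (s : ℝ) : (bump L).eval s = (4 * s * (1 - s)) ^ (L + 1) := by
  unfold bump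
  simp

lemma bump_coeff (L : ℕ) : (bump L).coeff 0 = 0 := by
  rw [Polynomial.coeff_zero_eq_eval_zero, bump_eval]
  simp

lemma bump_base {s : ℝ} (h0 : 0 ≤ s) (h1 : s ≤ 1) : 0 ≤ 4 * s * (1 - s) ∧ 4 * s * (1 - s) ≤ 1 := by
  constructor
  · have : 0 ≤ 1 - s := by linarith
    positivity
  · nlinarith [sq_nonneg (2 * s - 1)]

lemma bump_lim {σ : ℝ → ℝ} (hσm : Measurable σ) (hσ1 : ∀ θ, 0 ≤ σ θ ∧ σ θ ≤ 1)
    (hnull : volume (Ioo 0 (2 * Real.pi) ∩ σ ⁻¹' {1 / 2}) = 0) :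
    Tendsto (fun L => (2 * Real.pi)⁻¹ * ∫ θ in (0 : ℝ)..(2 * Real.pi), (bump L).eval (σ θ)) atTop (𝓝 0) := by
  have hpi := Real.pi_pos
  have h1 : Tendsto (fun L => ∫ θ in (0 : ℝ)..(2 * Real.pi), (bump L).eval (σ θ)) atTop
      (𝓝 (∫ _θ in (0 : ℝ)..(2 * Real.pi), (0 : ℝ))) := by
    apply intervalIntegral.tendsto_integral_filter_of_dominated_convergence (fun _ => (1 : ℝ))
    · filter_upwards with L
      simp only [bump_eval]
      exact (((hσm.const_mul 4).mul (hσm.const_sub 1)).pow_const _).aestronglyMeasurable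
    · filter_upwards with L
      filter_upwards with θ _
      rw [bump_eval, norm_pow, Real.norm_of_nonneg (bump_base (hσ1 θ).1 (hσ1 θ).2).1]
      exact pow_le_one₀ (bump_base (hσ1 θ).1 (hσ1 θ).2).1 (bump_base (hσ1 θ).1 (hσ1 θ).2).2
    · exact intervalIntegrable_const
    · have h2 : ∀ᵐ θ : ℝ, θ ≠ 2 * Real.pi := by
        rw [ae_iff]
        simp
      have h3 : ∀ᵐ θ : ℝ, θ ∉ Ioo 0 (2 * Real.pi) ∩ σ ⁻¹' {1 / 2} := by
        rw [ae_iff]
        convert hnull using 2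
        ext x
        simp only [mem_setOf_eq, not_not]
      filter_upwards [h2, h3] with θ h4 h5 h6
      rw [uIoc_of_le (by positivity)] at h6
      have h7 : θ ∈ Ioo 0 (2 * Real.pi) := ⟨h6.1, lt_of_le_of_ne h6.2 h4⟩
      have h8 : σ θ ≠ 1 / 2 := by
        intro h
        exact h5 ⟨h7, h⟩
      simp only [bump_eval]
      have h9 : 4 * σ θ * (1 - σ θ) < 1 := by
        have h10 : 0 < (2 * σ θ - 1) ^ 2 := by
          apply sq_pos_of_ne_zero
          intro h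
          apply h8
          linarith
        nlinarith
      exact (tendsto_pow_atTop_nhds_zero_of_lt_one (bump_base (hσ1 θ).1 (hσ1 θ).2).1 h9).comp
        (tendsto_add_atTop_nat 1)
  rw [intervalIntegral.integral_zero] at h1
  have h2 := h1.const_mul (2 * Real.pi)⁻¹
  rwa [mul_zero] at h2

include hd hm in
/-- weak asymptotic Toeplitzness, coefficient form -/
theorem wat (hrot : ¬ ∃ c : ℂ, ‖c‖ = 1 ∧ ∀ z ∈ ball (0 : ℂ) 1, φ z = c * z) (j k : ℕ) :
    Tendsto (fun n : ℕ => tc (fun z => φ z ^ (n + j)) (n + k)) atTop (𝓝 0) := by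
  obtain ⟨σ, hσm, hσ1, hσ2, hσ3, hσ4, hσ5⟩ := exists_sigma hd hm
  have hnull := half_null hd hm hrot hσm hσ3
  have hbl := bump_lim hσm hσ1 hnull
  rw [tendsto_zero_iff_norm_tendsto_zero]
  have hsq : Tendsto (fun n : ℕ => ‖tc (fun z => φ z ^ (n + j)) (n + k)‖ ^ 2) atTop (𝓝 0) := by
    rw [tendsto_order]
    constructor
    · intro a ha
      filter_upwards with n
      have : 0 ≤ ‖tc (fun z => φ z ^ (n + j)) (n + k)‖ ^ 2 := by positivity
      linarith
    · intro ε hε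
      obtain ⟨L, hL⟩ := (hbl.eventually (gt_mem_nhds (by linarith : 0 < ε / 2))).exists
      have h1 := (spec_lim hd hm hσm hσ1 hσ2 (bump L) (bump_coeff L)).eventually (gt_mem_nhds hL)
      have h2 : Tendsto (fun n : ℕ => n + j) atTop atTop := tendsto_add_atTop_nat j
      have h3 : Tendsto (fun n : ℕ => sv (n + j) (n + k)) atTop (𝓝 (1 / 2)) := by
        have h4 : Tendsto (fun n : ℕ => (((n + k : ℕ) : ℝ)) / ((n + j : ℕ) : ℝ)) atTop (𝓝 1) := by
          have h5 : Tendsto (fun n : ℕ => 1 + ((k : ℝ) - j) / ((n + j : ℕ) : ℝ)) atTop (𝓝 (1 + 0)) := by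
            apply Tendsto.const_add
            exact (tendsto_const_div_atTop_nhds_zero_nat ((k : ℝ) - j)).comp h2
          rw [add_zero] at h5
          refine h5.congr' ?_
          filter_upwards [eventually_gt_atTop 0] with n hn
          have : (0 : ℝ) < n := by exact_mod_cast hn
          push_cast
          field_simp
          ring
        have h6 := h4.const_mul (Real.log 2)
        rw [mul_one] at h6
        have h7 := (Real.continuous_exp.tendsto _).comp h6.neg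
        have e : Real.exp (-Real.log 2) = 1 / 2 := by
          rw [Real.exp_neg, Real.exp_log (by norm_num)]; norm_num
        rw [e] at h7
        refine h7.congr (fun n => ?_)
        unfold sv
        simp only [Function.comp]
        rw [mul_div_assoc]
      have h4 : Tendsto (fun n : ℕ => (bump L).eval (sv (n + j) (n + k))) atTop (𝓝 ((bump L).eval (1 / 2))) :=
        ((bump L).continuous.tendsto _).comp h3
      have e2 : (bump L).eval (1 / 2) = 1 := by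
        rw [bump_eval]; norm_num
      rw [e2] at h4
      filter_upwards [h2.eventually h1, h4.eventually (lt_mem_nhds (by norm_num : (1 / 2 : ℝ) < 1)),
        eventually_gt_atTop 0] with n h5 h6 h7
      have hs := spec hd hm (N := n + j) (by omega) (bump L) (bump_coeff L)
      have h8 := le_hasSum hs (n + k) (fun i _ => by
        rw [bump_eval]
        have := (bump_base (sv_pos (n + j) i).le (sv_le (n + j) i)).1
        positivity)
      have h9 : ‖tc (fun z => φ z ^ (n + j)) (n + k)‖ ^ 2 * (1 / 2) ≤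
          ‖tc (fun z => φ z ^ (n + j)) (n + k)‖ ^ 2 * (bump L).eval (sv (n + j) (n + k)) :=
        mul_le_mul_of_nonneg_left h6.le (by positivity)
      linarith
  have := hsq.sqrt
  rw [Real.sqrt_zero] at this
  refine this.congr (fun n => ?_)
  rw [Real.sqrt_sq (norm_nonneg _)]

end

end Pool.Agent.H6.NS
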