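import Mathlib
import Pool.Agent.H6.Flow
import Pool.Agent.H6.Euler

set_option autoImplicit false

/-! A germ `g` with `f ∘ g ∘ f = g` cannot have finite order. Part 1: local facts. -/

namespace Pool.Agent.H6.NoFin

open Filter Topology Pool.Agent.H6.Flow Pool.Agent.H6.ExpInt

abbrev V : Type := Fin 3 → ℂ

def Z (p : V) : V := ![0, (p 1) ^ 2, p 1 + p 2]
@[simp] lemma Z_0 (p : V) : Z p 0 = 0 := rfl
@[simp] lemma Z_1 (p : V) : Z p 1 = (p 1) ^ 2 := rfl
@[simp] lemma Z_2 (p : V) : Z p 2 = p 1 + p 2 := rfl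

def e0 : V := ![1, 0, 0]
def e1 : V := ![0, 1, 0]
def e2 : V := ![0, 0, 1]
@[simp] lemma e0_0 : e0 0 = 1 := rfl
@[simp] lemma e0_1 : e0 1 = 0 := rfl
@[simp] lemma e0_2 : e0 2 = 0 := rfl
@[simp] lemma e1_0 : e1 0 = 0 := rfl
@[simp] lemma e1_1 : e1 1 = 1 := rfl
@[simp] lemma e1_2 : e1 2 = 0 := rfl
@[simp] lemma e2_0 : e2 0 = 0 := rfl
@[simp] lemma e2_1 : e2 1 = 0 := rfl
@[simp] lemma e2_2 : e2 2 = 1 := rfl

lemma f_of_zero {p : V} (hp : p 0 = 0) : f p = p := by
  unfold f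
  rw [hp, sf_zero, Phi_zero]

lemma zero_of_f {p : V} (hp : ‖p 0‖ < 1 / 2) (h : f p = p) : p 0 = 0 := by
  have h0 := congrFun h 0
  unfold f at h0
  rw [Phi_0, exp_sf (by linarith)] at h0
  have h1 := one_sub_ne hp
  field_simp at h0
  have h2 : p 0 * p 0 = 0 := by linear_combination h0
  exact mul_self_eq_zero.1 h2

lemma f_an {p : V} (hp : p 0 = 0) : AnalyticAt ℂ f p :=
  Phi_analytic sf p (sf_analytic (by simp [hp])) (by simp [hp])

lemma sf_deriv : HasDerivAt sf 1 0 := by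
  unfold sf
  have h1 : HasDerivAt (fun w : ℂ => 1 - w) (-1) 0 := by
    simpa using (hasDerivAt_id (0 : ℂ)).const_sub 1
  have h2 := h1.clog (by simp)
  have h3 := h2.neg
  refine h3.congr_deriv ?_
  simp

lemma hasDerivAt_line (p v : V) : HasDerivAt (fun t : ℂ => p + t • v) v 0 := by
  have := ((hasDerivAt_id (0 : ℂ)).smul_const v).const_add p
  simpa using this

lemma fderiv_f_e0 {p : V} (hp : p 0 = 0) : fderiv ℂ f p e0 = e0 + Z p := by
  have h1 : HasFDerivAt f (fderiv ℂ f p) p := (f_an hp).differentiableAt.hasFDerivAt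
  have h2 : HasDerivAt (fun t : ℂ => f (p + t • e0)) (fderiv ℂ f p e0) 0 := by
    have := hasDerivAt_line p e0
    apply HasFDerivAt.comp_hasDerivAt_of_eq (x := (0 : ℂ)) h1 this
    simp
  have h3 : HasDerivAt (fun t : ℂ => f (p + t • e0)) (e0 + Z p) 0 := by
    rw [hasDerivAt_pi]
    have hexp : HasDerivAt (fun t : ℂ => Complex.exp (sf t)) 1 0 := by
      have := sf_deriv.cexp
      simpa using this
    intro i
    fin_cases i
    · have : (fun t : ℂ => f (p + t • e0) 0) = fun t => t * Complex.exp (sf t) := by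
        funext t
        simp [f, hp]
      show HasDerivAt (fun t : ℂ => f (p + t • e0) 0) (e0 0 + Z p 0) 0
      rw [this]
      have h4 := (hasDerivAt_id (0 : ℂ)).mul hexp
      refine h4.congr_deriv ?_
      simp
    · have : (fun t : ℂ => f (p + t • e0) 1) = fun t => p 1 / (1 - sf t * p 1) := by
        funext t
        simp [f, hp]
      show HasDerivAt (fun t : ℂ => f (p + t • e0) 1) (e0 1 + Z p 1) 0
      rw [this]
      have h4 := (hasDerivAt_const (0 : ℂ) (p 1)).div ((sf_deriv.mul_const (p 1)).const_sub 1)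
        (by simp)
      refine h4.congr_deriv ?_
      simp
      ring
    · have : (fun t : ℂ => f (p + t • e0) 2) =
          fun t => Complex.exp (sf t) * (p 2 + t * sf t + Ifun (sf t) (p 1)) := by
        funext t
        simp [f, hp]
      show HasDerivAt (fun t : ℂ => f (p + t • e0) 2) (e0 2 + Z p 2) 0
      rw [this]
      have h5 : HasDerivAt (fun t => Ifun (sf t) (p 1)) (p 1) 0 := by
        have h6 := Ifun_deriv 0 (p 1) (by simp)
        have h7 := HasDerivAt.comp_of_eq (x := (0 : ℂ)) (h := sf) (h₂ := fun t => Ifun t (p 1)) h6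
          sf_deriv (by simp)
        refine h7.congr_deriv ?_
        simp
      have h4 := hexp.mul ((((hasDerivAt_id (0 : ℂ)).mul sf_deriv).const_add (p 2)).add h5)
      refine h4.congr_deriv ?_
      simp [Ifun]
      ring
  exact h2.unique h3

lemma fderiv_f {p : V} (hp : p 0 = 0) (v : V) : fderiv ℂ f p v = v + v 0 • Z p := by
  have h1 : HasFDerivAt f (fderiv ℂ f p) p := (f_an hp).differentiableAt.hasFDerivAt
  have h2 : ∀ u : V, u 0 = 0 → fderiv ℂ f p u = u := by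
    intro u hu
    have h2 : HasDerivAt (fun t : ℂ => f (p + t • u)) (fderiv ℂ f p u) 0 := by
      have := hasDerivAt_line p u
      apply HasFDerivAt.comp_hasDerivAt_of_eq (x := (0 : ℂ)) h1 this
      simp
    have h3 : HasDerivAt (fun t : ℂ => f (p + t • u)) u 0 := by
      have : (fun t : ℂ => f (p + t • u)) = fun t => p + t • u := by
        funext t
        exact f_of_zero (by simp [hp, hu])
      rw [this]
      exact hasDerivAt_line p u
    exact h2.unique h3
  have h3 : v = (v - v 0 • e0) + v 0 • e0 := by abel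
  have h4 := h2 (v - v 0 • e0) (by simp)
  calc fderiv ℂ f p v = fderiv ℂ f p ((v - v 0 • e0) + v 0 • e0) := by rw [← h3]
    _ = (v - v 0 • e0) + v 0 • (e0 + Z p) := by
        rw [map_add, map_smul, h4, fderiv_f_e0 hp]
    _ = v + v 0 • Z p := by rw [smul_add]; abel

lemma slope_lim {F : ℂ → ℂ} {a : ℂ} (hF : HasDerivAt F a 0) (h0 : F 0 = 0) :
    Tendsto (fun w => w⁻¹ * F w) (𝓝[≠] 0) (𝓝 a) := by
  have := hasDerivAt_iff_tendsto_slope_zero.1 hF
  simpa [h0] using this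

/-- second order behaviour of `f`. -/
lemma F3 {α : ℂ → V} {a : V} (hα : HasDerivAt α a 0) (h0 : α 0 = 0) :
    Tendsto (fun w => (w ^ 2)⁻¹ • (f (α w) - α w)) (𝓝[≠] 0)
      (𝓝 ![a 0 ^ 2, 0, a 0 * (a 2 + a 0 + a 1)]) := by
  have hd := hasDerivAt_pi.1 hα
  have z : ∀ i, α 0 i = 0 := by intro i; rw [h0]; rfl
  have l0 := slope_lim (hd 0) (z 0)
  have l1 := slope_lim (hd 1) (z 1)
  have l2 := slope_lim (hd 2) (z 2)
  have hσ : HasDerivAt (fun w => sf (α w 0)) (a 0) 0 := by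
    have := HasDerivAt.comp_of_eq (x := (0 : ℂ)) (h := fun w => α w 0) (h₂ := sf) sf_deriv (hd 0)
      (z 0).symm
    simpa [Function.comp_def] using this
  have lσ := slope_lim hσ (by simp [z 0])
  have c0 : Tendsto (fun w => α w 0) (𝓝[≠] 0) (𝓝 0) := by
    have := (hd 0).continuousAt.tendsto
    rw [z 0] at this
    exact this.mono_left nhdsWithin_le_nhds
  have c1 : Tendsto (fun w => α w 1) (𝓝[≠] 0) (𝓝 0) := by
    have := (hd 1).continuousAt.tendsto
    rw [z 1] at this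
    exact this.mono_left nhdsWithin_le_nhds
  have cσ : Tendsto (fun w => sf (α w 0)) (𝓝[≠] 0) (𝓝 0) := by
    have := hσ.continuousAt.tendsto
    simp only [z 0, sf_zero] at this
    exact this.mono_left nhdsWithin_le_nhds
  have cH : Tendsto (fun w => H (sf (α w 0)) (sf (α w 0) * α w 1)) (𝓝[≠] 0) (𝓝 1) := by
    have h1 : ContinuousAt (fun p : ℂ × ℂ => H p.1 p.2) (0, 0) := (H_analytic 0 0 (by simp)).continuousAt
    have h2 : Tendsto (fun w => (sf (α w 0), sf (α w 0) * α w 1)) (𝓝[≠] 0) (𝓝 ((0 : ℂ), (0 : ℂ))) := by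
      have := cσ.prodMk_nhds (cσ.mul c1)
      simpa using this
    have h3 := h1.tendsto.comp h2
    simpa [Function.comp_def, H_zero] using h3
  have small0 : ∀ᶠ w in 𝓝[≠] (0 : ℂ), ‖α w 0‖ < 1 / 2 := by
    have := c0.norm
    rw [norm_zero] at this
    exact this.eventually (gt_mem_nhds (by norm_num))
  rw [tendsto_pi_nhds]
  intro i
  fin_cases i
  · show Tendsto (fun w => ((w ^ 2)⁻¹ • (f (α w) - α w)) 0) (𝓝[≠] 0) (𝓝 (a 0 ^ 2))
    have h1 : Tendsto (fun w => (w⁻¹ * α w 0) * (w⁻¹ * α w 0) / (1 - α w 0)) (𝓝[≠] 0)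
        (𝓝 (a 0 ^ 2)) := by
      have := (l0.mul l0).div (c0.const_sub 1) (by simp)
      refine this.congr' ?_ |>.trans ?_
      · exact EventuallyEq.rfl
      · simp [pow_two]
    refine h1.congr' ?_
    filter_upwards [small0] with w hw
    have hne := one_sub_ne hw
    simp only [Pi.smul_apply, Pi.sub_apply, smul_eq_mul, f, Phi_0]
    rw [exp_sf (by linarith)]
    field_simp
    ring
  · show Tendsto (fun w => ((w ^ 2)⁻¹ • (f (α w) - α w)) 1) (𝓝[≠] 0) (𝓝 0)
    have h1 : Tendsto (fun w => (w⁻¹ * sf (α w 0)) * (w⁻¹ * α w 1) * α w 1 /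
        (1 - sf (α w 0) * α w 1)) (𝓝[≠] 0) (𝓝 0) := by
      have := ((lσ.mul l1).mul c1).div ((cσ.mul c1).const_sub 1) (by simp)
      have h2 : a 0 * a 1 * 0 / (1 - 0 * 0) = (0 : ℂ) := by simp
      rw [h2] at this
      exact this
    refine h1.congr' ?_
    have hne : ∀ᶠ w in 𝓝[≠] (0 : ℂ), 1 - sf (α w 0) * α w 1 ≠ 0 := by
      have := (cσ.mul c1).const_sub 1
      apply this.eventually_ne
      simp
    filter_upwards [hne] with w hw
    simp only [Pi.smul_apply, Pi.sub_apply, smul_eq_mul, f, Phi_1]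
    field_simp
    ring
  · show Tendsto (fun w => ((w ^ 2)⁻¹ • (f (α w) - α w)) 2) (𝓝[≠] 0)
      (𝓝 (a 0 * (a 2 + a 0 + a 1)))
    have h1 : Tendsto (fun w => ((w⁻¹ * α w 0) * (w⁻¹ * α w 2) + (w⁻¹ * α w 0) * (w⁻¹ * sf (α w 0))
        + (w⁻¹ * sf (α w 0)) * (w⁻¹ * α w 1) * H (sf (α w 0)) (sf (α w 0) * α w 1)) /
        (1 - α w 0)) (𝓝[≠] 0) (𝓝 ((a 0 * a 2 + a 0 * a 0 + a 0 * a 1 * 1) / (1 - 0))) := by
      exact (((l0.mul l2).add (l0.mul lσ)).add ((lσ.mul l1).mul cH)).div (c0.const_sub 1) (by simp)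
    have h2 : (a 0 * a 2 + a 0 * a 0 + a 0 * a 1 * 1) / (1 - 0) = a 0 * (a 2 + a 0 + a 1) := by
      ring
    rw [h2] at h1
    refine h1.congr' ?_
    filter_upwards [small0] with w hw
    have hne := one_sub_ne hw
    simp only [Pi.smul_apply, Pi.sub_apply, smul_eq_mul, f, Phi_2]
    rw [exp_sf (by linarith)]
    unfold Ifun
    field_simp
    ring

structure Sym (g : V → V) : Prop where
  an : AnalyticAt ℂ g 0
  z : g 0 = 0
  inj : ∀ v, fderiv ℂ g 0 v = 0 → v = 0
  rel : f ∘ g ∘ f =ᶠ[𝓝 0] g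

variable {g : V → V}

lemma cont0 (S : Sym g) : Tendsto g (𝓝 0) (𝓝 0) := by
  have := S.an.continuousAt.tendsto
  rwa [S.z] at this

lemma ev_small (S : Sym g) : ∀ᶠ p in 𝓝 (0 : V), ‖g p 0‖ < 1 / 2 := by
  have h1 : ContinuousAt (fun p => ‖g p 0‖) 0 :=
    ((continuous_apply 0).continuousAt.comp S.an.continuousAt).norm
  apply h1.eventually_lt continuousAt_const
  simp [S.z]

lemma L1 (S : Sym g) : ∀ᶠ p in 𝓝 (0 : V), p 0 = 0 → g p 0 = 0 := by
  filter_upwards [S.rel, ev_small S] with p h1 h2 h3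
  simp only [Function.comp] at h1
  rw [f_of_zero h3] at h1
  exact zero_of_f h2 h1

lemma L2 (S : Sym g) : ∀ᶠ p in 𝓝 (0 : V), p 0 = 0 → ∀ v : V, v 0 = 0 →
    fderiv ℂ g p v 0 = 0 := by
  filter_upwards [(L1 S).eventually_nhds, S.an.eventually_analyticAt] with p h1 h2 h3 v hv
  have e1 : HasDerivAt (fun t : ℂ => g (p + t • v)) (fderiv ℂ g p v) 0 := by
    apply HasFDerivAt.comp_hasDerivAt_of_eq (x := (0 : ℂ)) h2.differentiableAt.hasFDerivAt
      (hasDerivAt_line p v)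
    simp
  have e2 := (hasDerivAt_pi.1 e1) 0
  have e3 : (fun t : ℂ => g (p + t • v) 0) =ᶠ[𝓝 0] fun _ => (0 : ℂ) := by
    have hc : Tendsto (fun t : ℂ => p + t • v) (𝓝 0) (𝓝 p) := by
      have := (hasDerivAt_line p v).continuousAt.tendsto
      simpa using this
    filter_upwards [hc.eventually h1] with t ht
    exact ht (by simp [h3, hv])
  exact (e2.congr_of_eventuallyEq e3.symm).unique (hasDerivAt_const _ _)

lemma L3 (S : Sym g) : ∀ᶠ p in 𝓝 (0 : V), p 0 = 0 →
    fderiv ℂ g p (Z p) + (fderiv ℂ g p e0 0) • Z (g p) = 0 := by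
  filter_upwards [(L1 S), L2 S, S.an.eventually_analyticAt, S.rel.eventually_nhds]
    with p h1 h2 h3 h4 h5
  have hgp := h1 h5
  have dg : HasFDerivAt g (fderiv ℂ g p) p := h3.differentiableAt.hasFDerivAt
  have df : HasFDerivAt f (fderiv ℂ f p) p := (f_an h5).differentiableAt.hasFDerivAt
  have df2 : HasFDerivAt f (fderiv ℂ f (g p)) (g p) := (f_an hgp).differentiableAt.hasFDerivAt
  have hfp := f_of_zero h5
  have c1 : HasFDerivAt (g ∘ f) ((fderiv ℂ g p).comp (fderiv ℂ f p)) p :=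
    HasFDerivAt.comp p (by rw [hfp]; exact dg) df
  have c2 : HasFDerivAt (f ∘ g ∘ f) ((fderiv ℂ f (g p)).comp
      ((fderiv ℂ g p).comp (fderiv ℂ f p))) p :=
    HasFDerivAt.comp p (by simp only [Function.comp]; rw [hfp]; exact df2) c1
  have c3 : HasFDerivAt g ((fderiv ℂ f (g p)).comp
      ((fderiv ℂ g p).comp (fderiv ℂ f p))) p := c2.congr_of_eventuallyEq (h4.mono fun _ h => h.symm)
  have c4 := c3.unique dg
  have c5 := congrArg (fun L : V →L[ℂ] V => L e0) c4
  simp only [ContinuousLinearMap.comp_apply] at c5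
  rw [fderiv_f h5, fderiv_f hgp] at c5
  simp only [e0_0, one_smul, map_add, Pi.add_apply] at c5
  rw [h2 h5 (Z p) rfl, add_zero] at c5
  have c6 : fderiv ℂ g p e0 + fderiv ℂ g p (Z p) + (fderiv ℂ g p e0 0) • Z (g p)
    - fderiv ℂ g p e0 = 0 := by rw [c5, sub_self]
  rw [← c6]
  abel

end Pool.Agent.H6.NoFin
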