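import Mathlib
import Pool.Agent.H6.NoFin

set_option autoImplicit false

/-! A germ `g` with `f ∘ g ∘ f = g` cannot have finite order. Part 2. -/

namespace Pool.Agent.H6.NoFin

open Filter Topology Pool.Agent.H6.Flow Pool.Agent.H6.ExpInt

variable {g : V → V}

lemma hfd (S : Sym g) : HasFDerivAt g (fderiv ℂ g 0) 0 := S.an.differentiableAt.hasFDerivAt

lemma line0 (u : V) : HasDerivAt (fun t : ℂ => t • u) u 0 := by
  simpa using (hasDerivAt_id (0 : ℂ)).smul_const u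

lemma line0_tendsto (u : V) : Tendsto (fun t : ℂ => t • u) (𝓝[≠] 0) (𝓝 0) := by
  have := (line0 u).continuousAt.tendsto
  rw [zero_smul] at this
  exact this.mono_left nhdsWithin_le_nhds

lemma gline (S : Sym g) (u : V) : HasDerivAt (fun t : ℂ => g (t • u)) (fderiv ℂ g 0 u) 0 := by
  apply HasFDerivAt.comp_hasDerivAt_of_eq (x := (0 : ℂ)) (hfd S) (line0 u)
  simp

lemma T1 (S : Sym g) (u : V) (i : Fin 3) :
    Tendsto (fun t : ℂ => t⁻¹ * g (t • u) i) (𝓝[≠] 0) (𝓝 (fderiv ℂ g 0 u i)) := by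
  apply slope_lim ((hasDerivAt_pi.1 (gline S u)) i)
  simp [S.z]

lemma T2 (S : Sym g) (u v : V) (i : Fin 3) :
    Tendsto (fun t : ℂ => fderiv ℂ g (t • u) v i) (𝓝[≠] 0) (𝓝 (fderiv ℂ g 0 v i)) := by
  have h1 : Tendsto (fderiv ℂ g) (𝓝 0) (𝓝 (fderiv ℂ g 0)) := S.an.fderiv.continuousAt.tendsto
  have h2 := h1.comp (line0_tendsto u)
  have h3 : Continuous (fun L : V →L[ℂ] V => L v i) := by fun_prop
  exact (h3.tendsto _).comp h2

lemma T3 (S : Sym g) (u : V) (i : Fin 3) :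
    Tendsto (fun t : ℂ => g (t • u) i) (𝓝[≠] 0) (𝓝 0) := by
  have h1 := ((hasDerivAt_pi.1 (gline S u)) i).continuousAt.tendsto
  simp only [zero_smul, S.z] at h1
  exact h1.mono_left nhdsWithin_le_nhds

lemma E1 (S : Sym g) (u : V) (hu : u 0 = 0) : ∀ᶠ t : ℂ in 𝓝[≠] 0,
    fderiv ℂ g (t • u) (Z (t • u)) + (fderiv ℂ g (t • u) e0 0) • Z (g (t • u)) = 0 := by
  filter_upwards [(line0_tendsto u).eventually (L3 S)] with t ht
  exact ht (by simp [hu])

lemma A0 (S : Sym g) {v : V} (hv : v 0 = 0) : fderiv ℂ g 0 v 0 = 0 :=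
  (L2 S).self_of_nhds rfl v hv

/-- relations from the line `y e2`. -/
lemma R1 (S : Sym g) : fderiv ℂ g 0 e2 1 = 0 ∧
    fderiv ℂ g 0 e2 2 + fderiv ℂ g 0 e0 0 * (fderiv ℂ g 0 e2 1 + fderiv ℂ g 0 e2 2) = 0 := by
  have hE := E1 S e2 rfl
  have hne : ∀ᶠ t : ℂ in 𝓝[≠] 0, t ≠ 0 := self_mem_nhdsWithin
  constructor
  · have hl : Tendsto (fun t : ℂ => fderiv ℂ g (t • e2) e2 1 +
        fderiv ℂ g (t • e2) e0 0 * ((t⁻¹ * g (t • e2) 1) * g (t • e2) 1)) (𝓝[≠] 0)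
        (𝓝 (fderiv ℂ g 0 e2 1 + fderiv ℂ g 0 e0 0 * (fderiv ℂ g 0 e2 1 * 0))) :=
      (T2 S e2 e2 1).add ((T2 S e2 e0 0).mul ((T1 S e2 1).mul (T3 S e2 1)))
    have hz : (fun t : ℂ => fderiv ℂ g (t • e2) e2 1 +
        fderiv ℂ g (t • e2) e0 0 * ((t⁻¹ * g (t • e2) 1) * g (t • e2) 1)) =ᶠ[𝓝[≠] 0]
        fun _ => 0 := by
      filter_upwards [hE, hne] with t h1 h2
      have hZ : Z (t • e2) = t • e2 := by
        apply ext3 <;> simp
      rw [hZ, map_smul] at h1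
      have h3 := congrFun h1 1
      simp only [Pi.add_apply, Pi.smul_apply, Pi.zero_apply, smul_eq_mul, Z_1] at h3
      field_simp
      linear_combination h3
    have := tendsto_nhds_unique (hl.congr' hz) tendsto_const_nhds
    simpa using this
  · have hl : Tendsto (fun t : ℂ => fderiv ℂ g (t • e2) e2 2 +
        fderiv ℂ g (t • e2) e0 0 * ((t⁻¹ * g (t • e2) 1) + (t⁻¹ * g (t • e2) 2))) (𝓝[≠] 0)
        (𝓝 (fderiv ℂ g 0 e2 2 + fderiv ℂ g 0 e0 0 * (fderiv ℂ g 0 e2 1 + fderiv ℂ g 0 e2 2))) :=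
      (T2 S e2 e2 2).add ((T2 S e2 e0 0).mul ((T1 S e2 1).add (T1 S e2 2)))
    have hz : (fun t : ℂ => fderiv ℂ g (t • e2) e2 2 +
        fderiv ℂ g (t • e2) e0 0 * ((t⁻¹ * g (t • e2) 1) + (t⁻¹ * g (t • e2) 2))) =ᶠ[𝓝[≠] 0]
        fun _ => 0 := by
      filter_upwards [hE, hne] with t h1 h2
      have hZ : Z (t • e2) = t • e2 := by
        apply ext3 <;> simp
      rw [hZ, map_smul] at h1
      have h3 := congrFun h1 2
      simp only [Pi.add_apply, Pi.smul_apply, Pi.zero_apply, smul_eq_mul, Z_2] at h3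
      field_simp
      linear_combination h3
    exact tendsto_nhds_unique (hl.congr' hz) tendsto_const_nhds

/-- relations from the line `x (e1 - e2)`. -/
lemma R2 (S : Sym g) : fderiv ℂ g 0 e1 1 +
      fderiv ℂ g 0 e0 0 * (fderiv ℂ g 0 (e1 - e2) 1 * fderiv ℂ g 0 (e1 - e2) 1) = 0 ∧
    fderiv ℂ g 0 e0 0 * (fderiv ℂ g 0 (e1 - e2) 1 + fderiv ℂ g 0 (e1 - e2) 2) = 0 := by
  have hE := E1 S (e1 - e2) (by simp)
  have hne : ∀ᶠ t : ℂ in 𝓝[≠] 0, t ≠ 0 := self_mem_nhdsWithin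
  have hZ : ∀ t : ℂ, Z (t • (e1 - e2)) = t ^ 2 • e1 := by
    intro t
    apply ext3 <;> simp
  constructor
  · have hl : Tendsto (fun t : ℂ => fderiv ℂ g (t • (e1 - e2)) e1 1 +
        fderiv ℂ g (t • (e1 - e2)) e0 0 *
          ((t⁻¹ * g (t • (e1 - e2)) 1) * (t⁻¹ * g (t • (e1 - e2)) 1))) (𝓝[≠] 0)
        (𝓝 (fderiv ℂ g 0 e1 1 +
          fderiv ℂ g 0 e0 0 * (fderiv ℂ g 0 (e1 - e2) 1 * fderiv ℂ g 0 (e1 - e2) 1))) :=
      (T2 S (e1 - e2) e1 1).add ((T2 S (e1 - e2) e0 0).mul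
        ((T1 S (e1 - e2) 1).mul (T1 S (e1 - e2) 1)))
    have hz : (fun t : ℂ => fderiv ℂ g (t • (e1 - e2)) e1 1 +
        fderiv ℂ g (t • (e1 - e2)) e0 0 *
          ((t⁻¹ * g (t • (e1 - e2)) 1) * (t⁻¹ * g (t • (e1 - e2)) 1))) =ᶠ[𝓝[≠] 0]
        fun _ => 0 := by
      filter_upwards [hE, hne] with t h1 h2
      rw [hZ, map_smul] at h1
      have h3 := congrFun h1 1
      simp only [Pi.add_apply, Pi.smul_apply, Pi.zero_apply, smul_eq_mul, Z_1] at h3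
      field_simp
      linear_combination h3
    exact tendsto_nhds_unique (hl.congr' hz) tendsto_const_nhds
  · have ht0 : Tendsto (fun t : ℂ => t) (𝓝[≠] 0) (𝓝 0) := nhdsWithin_le_nhds
    have hl : Tendsto (fun t : ℂ => t * fderiv ℂ g (t • (e1 - e2)) e1 2 +
        fderiv ℂ g (t • (e1 - e2)) e0 0 *
          ((t⁻¹ * g (t • (e1 - e2)) 1) + (t⁻¹ * g (t • (e1 - e2)) 2))) (𝓝[≠] 0)
        (𝓝 (0 * fderiv ℂ g 0 e1 2 +
          fderiv ℂ g 0 e0 0 * (fderiv ℂ g 0 (e1 - e2) 1 + fderiv ℂ g 0 (e1 - e2) 2))) :=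
      (ht0.mul (T2 S (e1 - e2) e1 2)).add ((T2 S (e1 - e2) e0 0).mul
        ((T1 S (e1 - e2) 1).add (T1 S (e1 - e2) 2)))
    have hz : (fun t : ℂ => t * fderiv ℂ g (t • (e1 - e2)) e1 2 +
        fderiv ℂ g (t • (e1 - e2)) e0 0 *
          ((t⁻¹ * g (t • (e1 - e2)) 1) + (t⁻¹ * g (t • (e1 - e2)) 2))) =ᶠ[𝓝[≠] 0]
        fun _ => 0 := by
      filter_upwards [hE, hne] with t h1 h2
      rw [hZ, map_smul] at h1
      have h3 := congrFun h1 2
      simp only [Pi.add_apply, Pi.smul_apply, Pi.zero_apply, smul_eq_mul, Z_2] at h3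
      field_simp
      linear_combination h3
    have := tendsto_nhds_unique (hl.congr' hz) tendsto_const_nhds
    simpa using this

/-- second order relation along `w e0`. -/
lemma R3 (S : Sym g) : fderiv ℂ g 0 (e0 + e2) 1 = 0 ∧
    fderiv ℂ g 0 e0 0 * (fderiv ℂ g 0 e0 2 + fderiv ℂ g 0 e0 0 + fderiv ℂ g 0 e0 1) =
      -fderiv ℂ g 0 (e0 + e2) 2 := by
  obtain ⟨A, hA⟩ : ∃ A, A = fderiv ℂ g 0 := ⟨_, rfl⟩
  rw [← hA]
  -- the curve f (w e0)
  have hf0 : HasFDerivAt f (fderiv ℂ f 0) 0 := (f_an rfl).differentiableAt.hasFDerivAt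
  have hfe : fderiv ℂ f 0 e0 = e0 := by
    rw [fderiv_f rfl]
    apply ext3 <;> simp
  have hcf : HasDerivAt (fun w : ℂ => f (w • e0)) e0 0 := by
    have : HasDerivAt (fun w : ℂ => f (w • e0)) (fderiv ℂ f 0 e0) 0 := by
      apply HasFDerivAt.comp_hasDerivAt_of_eq (x := (0 : ℂ)) hf0 (line0 e0)
      simp
    rwa [hfe] at this
  have hcf0 : f ((0 : ℂ) • e0) = 0 := by rw [zero_smul]; exact f_zero
  have hα : HasDerivAt (fun w : ℂ => g (f (w • e0))) (A e0) 0 := by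
    rw [hA]
    apply HasFDerivAt.comp_hasDerivAt_of_eq (x := (0 : ℂ)) (hfd S) hcf
    exact hcf0.symm
  have hα0 : g (f ((0 : ℂ) • e0)) = 0 := by rw [hcf0, S.z]
  have lim1 := F3 hα hα0
  have lim2 := F3 (line0 e0) (zero_smul _ _)
  have hv : (![e0 0 ^ 2, 0, e0 0 * (e0 2 + e0 0 + e0 1)] : V) = e0 + e2 := by
    apply ext3 <;> simp
  rw [hv] at lim2
  have lim3 := (A.continuous.tendsto _).comp lim2
  -- strict differentiability
  have hs : HasStrictFDerivAt g A 0 := by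
    rw [hA]; exact S.an.hasStrictFDerivAt
  have ho := hs.isLittleO
  have hpair : Tendsto (fun w : ℂ => (f (w • e0), w • e0)) (𝓝[≠] 0) (𝓝 ((0 : V), (0 : V))) := by
    have h1 := hcf.continuousAt.tendsto
    rw [hcf0] at h1
    exact (h1.mono_left nhdsWithin_le_nhds).prodMk_nhds (line0_tendsto e0)
  have ho2 := ho.comp_tendsto hpair
  have hbig : (fun w : ℂ => f (w • e0) - w • e0) =O[𝓝[≠] 0] fun w => w ^ 2 := by
    have h1 := lim2.isBigO_one ℂ
    have h2 : (fun w : ℂ => f (w • e0) - w • e0) =ᶠ[𝓝[≠] 0]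
        fun w => (w ^ 2) • ((w ^ 2)⁻¹ • (f (w • e0) - w • e0)) := by
      filter_upwards [self_mem_nhdsWithin] with w hw
      rw [smul_smul, mul_inv_cancel₀ (pow_ne_zero 2 hw), one_smul]
    refine h2.trans_isBigO ?_
    have h3 := (Asymptotics.isBigO_refl (fun w : ℂ => w ^ 2) (𝓝[≠] 0)).smul h1
    simpa using h3
  have ho3 : (fun w : ℂ => g (f (w • e0)) - g (w • e0) - A (f (w • e0) - w • e0)) =o[𝓝[≠] 0]
      fun w => w ^ 2 := by
    refine Asymptotics.IsLittleO.trans_isBigO ?_ hbig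
    exact ho2
  have lim4 : Tendsto (fun w : ℂ => (w ^ 2)⁻¹ •
      (g (f (w • e0)) - g (w • e0) - A (f (w • e0) - w • e0))) (𝓝[≠] 0) (𝓝 0) := by
    have h1 := ho3.tendsto_inv_smul_nhds_zero
    exact h1
  have hrel : ∀ᶠ w : ℂ in 𝓝[≠] 0, f (g (f (w • e0))) = g (w • e0) := by
    have := (line0_tendsto e0).eventually S.rel
    exact this
  have hsum : Tendsto (fun w : ℂ => (w ^ 2)⁻¹ • (f (g (f (w • e0))) - g (f (w • e0))) +
      A ((w ^ 2)⁻¹ • (f (w • e0) - w • e0)) +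
      (w ^ 2)⁻¹ • (g (f (w • e0)) - g (w • e0) - A (f (w • e0) - w • e0))) (𝓝[≠] 0)
      (𝓝 (![A e0 0 ^ 2, 0, A e0 0 * (A e0 2 + A e0 0 + A e0 1)] + A (e0 + e2) + 0)) :=
    (lim1.add lim3).add lim4
  have hz : (fun w : ℂ => (w ^ 2)⁻¹ • (f (g (f (w • e0))) - g (f (w • e0))) +
      A ((w ^ 2)⁻¹ • (f (w • e0) - w • e0)) +
      (w ^ 2)⁻¹ • (g (f (w • e0)) - g (w • e0) - A (f (w • e0) - w • e0))) =ᶠ[𝓝[≠] 0]
      fun _ => 0 := by
    filter_upwards [hrel] with w hw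
    rw [hw, map_smul, ← smul_add, ← smul_add]
    rw [show g (w • e0) - g (f (w • e0)) + A (f (w • e0) - w • e0) +
      (g (f (w • e0)) - g (w • e0) - A (f (w • e0) - w • e0)) = 0 by abel, smul_zero]
  have key := tendsto_nhds_unique (hsum.congr' hz) tendsto_const_nhds
  constructor
  · have := congrFun key 1
    simp only [add_zero, Pi.add_apply, Pi.zero_apply] at this
    have h2 : (![A e0 0 ^ 2, 0, A e0 0 * (A e0 2 + A e0 0 + A e0 1)] : V) 1 = 0 := rfl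
    rw [h2] at this
    linear_combination this
  · have := congrFun key 2
    simp only [add_zero, Pi.add_apply, Pi.zero_apply] at this
    have h2 : (![A e0 0 ^ 2, 0, A e0 0 * (A e0 2 + A e0 0 + A e0 1)] : V) 2 =
      A e0 0 * (A e0 2 + A e0 0 + A e0 1) := rfl
    rw [h2] at this
    linear_combination this

lemma lin (S : Sym g) : fderiv ℂ g 0 e2 1 = 0 ∧ fderiv ℂ g 0 e2 2 = -1 ∧
    fderiv ℂ g 0 e0 0 = -1 ∧ fderiv ℂ g 0 e1 1 = 1 ∧ fderiv ℂ g 0 e1 2 = -2 := by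
  obtain ⟨h1, h2⟩ := R1 S
  obtain ⟨h3, h4⟩ := R2 S
  obtain ⟨h5, h6⟩ := R3 S
  have a1 := A0 S (v := e1) rfl
  have a2 := A0 S (v := e2) rfl
  have inj := S.inj
  generalize fderiv ℂ g 0 = A at h1 h2 h3 h4 h5 h6 a1 a2 inj ⊢
  simp only [map_add, map_sub, Pi.add_apply, Pi.sub_apply] at h1 h2 h3 h4 h5 h6
  rw [h1] at h2 h3 h4 h5
  have t0 : A e2 2 ≠ 0 := by
    intro h
    have h7 : A e2 = 0 := ext3 a2 h1 h
    have h8 := congrFun (inj e2 h7) 2
    simp at h8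
  have c0 : A e0 0 = -1 := by
    have : A e2 2 * (1 + A e0 0) = 0 := by linear_combination h2
    rcases mul_eq_zero.1 this with h | h
    · exact absurd h t0
    · linear_combination h
  have p0 : A e1 1 ≠ 0 := by
    intro h
    have h7 : A ((A e2 2) • e1 - (A e1 2) • e2) = 0 := by
      rw [map_sub, map_smul, map_smul]
      apply ext3
      · simp [a1, a2]
      · simp [h, h1]
      · simp
        ring
    have h8 := congrFun (inj _ h7) 1
    simp at h8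
    exact t0 h8
  have p1 : A e1 1 = 1 := by
    have : A e1 1 * (1 - A e1 1) = 0 := by
      rw [c0] at h3
      linear_combination h3
    rcases mul_eq_zero.1 this with h | h
    · exact absurd h p0
    · linear_combination -h
  have r0 : A e0 1 = 0 := by linear_combination h5
  have t1 : A e2 2 = -1 := by
    rw [c0, r0] at h6
    linear_combination h6
  refine ⟨h1, t1, c0, p1, ?_⟩
  rw [c0, p1, t1] at h4
  linear_combination -h4

end Pool.Agent.H6.NoFin
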