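import Mathlib
import Pool.Agent.H6.NoFin2

set_option autoImplicit false

/-! A germ `g` with `f ∘ g ∘ f = g` cannot have finite order. Part 3. -/

namespace Pool.Agent.H6.NoFin

open Filter Topology Pool.Agent.H6.Flow Pool.Agent.H6.ExpInt

variable {g : V → V}

lemma det_ne (S : Sym g) : ∀ᶠ p in 𝓝 (0 : V), fderiv ℂ g p e1 1 * fderiv ℂ g p e2 2 -
    fderiv ℂ g p e2 1 * fderiv ℂ g p e1 2 + fderiv ℂ g p e0 0 ≠ 0 := by
  have h1 : ContinuousAt (fderiv ℂ g) 0 := S.an.fderiv.continuousAt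
  have h2 : ∀ (v : V) (i : Fin 3), ContinuousAt (fun p => fderiv ℂ g p v i) 0 := by
    intro v i
    have h3 : Continuous (fun L : V →L[ℂ] V => L v i) := by fun_prop
    exact h3.continuousAt.comp h1
  have h3 : ContinuousAt (fun p => fderiv ℂ g p e1 1 * fderiv ℂ g p e2 2 -
    fderiv ℂ g p e2 1 * fderiv ℂ g p e1 2 + fderiv ℂ g p e0 0) 0 :=
    (((h2 e1 1).mul (h2 e2 2)).sub ((h2 e2 1).mul (h2 e1 2))).add (h2 e0 0)
  apply h3.eventually_ne
  obtain ⟨a, b, c, d, e⟩ := lin S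
  rw [a, b, c, d, e]
  norm_num

lemma L5 (S : Sym g) : ∀ᶠ p in 𝓝 (0 : V), p 0 = 0 → g p = p → ∀ v : V, v 0 = 0 →
    fderiv ℂ g p v = v → v 1 * (p 1 + p 2) = v 2 * (p 1) ^ 2 := by
  filter_upwards [det_ne S, L3 S] with p h1 h2 h3 h4 v h5 h6
  have h7 := h2 h3
  rw [h4] at h7
  generalize fderiv ℂ g p = D at h1 h6 h7
  have hv : v = v 1 • e1 + v 2 • e2 := by
    apply ext3 <;> simp [h5]
  have hZ : Z p = (p 1) ^ 2 • e1 + (p 1 + p 2) • e2 := by
    apply ext3 <;> simp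
  have hDv : D v = v 1 • D e1 + v 2 • D e2 := by
    conv_lhs => rw [hv]
    rw [map_add, map_smul, map_smul]
  have hDZ : D (Z p) = (p 1) ^ 2 • D e1 + (p 1 + p 2) • D e2 := by
    rw [hZ, map_add, map_smul, map_smul]
  rw [h6] at hDv
  rw [hDZ] at h7
  have a1 := congrFun hDv 1
  have a2 := congrFun hDv 2
  have b1 := congrFun h7 1
  have b2 := congrFun h7 2
  simp only [Pi.add_apply, Pi.smul_apply, smul_eq_mul, Z_1, Z_2, Pi.zero_apply] at a1 a2 b1 b2
  have key : (D e1 1 * D e2 2 - D e2 1 * D e1 2 + D e0 0) *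
      (v 1 * (p 1 + p 2) - v 2 * (p 1) ^ 2) = 0 := by
    generalize D e1 1 = N11 at *
    generalize D e2 2 = N22 at *
    generalize D e2 1 = N12 at *
    generalize D e1 2 = N21 at *
    generalize D e0 0 = c at *
    generalize v 1 = v1 at *
    generalize v 2 = v2 at *
    generalize p 1 = x at *
    generalize p 2 = y at *
    -- det(Dv, DZ) = det N det(v,Z)
    have e : (N11 * N22 - N12 * N21) * (v1 * (x + y) - v2 * x ^ 2) =
      (v1 * N11 + v2 * N12) * (x ^ 2 * N21 + (x + y) * N22) -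
      (v1 * N21 + v2 * N22) * (x ^ 2 * N11 + (x + y) * N12) := by ring
    have b1' : x ^ 2 * N11 + (x + y) * N12 = -(c * x ^ 2) := by linear_combination b1
    have b2' : x ^ 2 * N21 + (x + y) * N22 = -(c * (x + y)) := by linear_combination b2
    rw [← a1, ← a2, b1', b2'] at e
    linear_combination e
  rcases mul_eq_zero.1 key with h | h
  · exact absurd h h1
  · linear_combination h

lemma iter_an (S : Sym g) (j : ℕ) : AnalyticAt ℂ (g^[j]) 0 ∧ g^[j] 0 = 0 := by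
  induction j with
  | zero => exact ⟨analyticAt_id, rfl⟩
  | succ j ih =>
    constructor
    · rw [Function.iterate_succ]
      apply AnalyticAt.comp
      · rw [S.z]; exact ih.1
      · exact S.an
    · rw [Function.iterate_succ_apply, S.z, ih.2]

/-- existence of an analytic curve of fixed points. -/
lemma curve (S : Sym g) (k : ℕ) (hk : 0 < k) (hit : g^[k] =ᶠ[𝓝 0] id) :
    ∃ γ : ℂ → V, AnalyticAt ℂ γ 0 ∧ γ 0 = 0 ∧ (∀ᶠ t in 𝓝 0, g (γ t) = γ t) ∧
      HasDerivAt γ (e1 - e2) 0 := by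
  obtain ⟨A, hA⟩ : ∃ A, A = fderiv ℂ g 0 := ⟨_, rfl⟩
  have hgA : HasStrictFDerivAt g A 0 := by rw [hA]; exact S.an.hasStrictFDerivAt
  have hAk : A ^ k = 1 := by
    have h1 := (hgA.hasFDerivAt).iterate S.z k
    have h2 : HasFDerivAt (g^[k]) (ContinuousLinearMap.id ℂ V) 0 :=
      (hasFDerivAt_id (𝕜 := ℂ) (0 : V)).congr_of_eventuallyEq hit
    exact h1.unique h2
  have hAv : A (e1 - e2) = e1 - e2 := by
    obtain ⟨a, b, c, d, e⟩ := lin S
    have a1 := A0 S (v := e1) rfl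
    have a2 := A0 S (v := e2) rfl
    rw [← hA] at a b c d e a1 a2
    rw [map_sub]
    apply ext3
    · simp [a1, a2]
    · simp [a, d]
    · simp [b, e]
      norm_num
  obtain ⟨ψ, hψ⟩ : ∃ ψ : V → V, ψ = fun p => (k : ℂ)⁻¹ • ∑ j ∈ Finset.range k, (A ^ (k - j)) (g^[j] p) :=
    ⟨_, rfl⟩
  have hkc : (k : ℂ) ≠ 0 := by exact_mod_cast hk.ne'
  have hψan : AnalyticAt ℂ ψ 0 := by
    rw [hψ]
    have hsum : AnalyticAt ℂ (fun p => ∑ j ∈ Finset.range k, (A ^ (k - j)) (g^[j] p)) 0 := by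
      apply Finset.analyticAt_fun_sum
      intro j _
      exact AnalyticAt.comp ((A ^ (k - j)).analyticAt _) (iter_an S j).1
    exact AnalyticAt.const_smul (c := ((k : ℂ)⁻¹)) hsum
  have hψ0 : ψ 0 = 0 := by
    rw [hψ]
    simp [(iter_an S _).2]
  have hψd : HasFDerivAt ψ ((ContinuousLinearEquiv.refl ℂ V : V ≃L[ℂ] V) : V →L[ℂ] V) 0 := by
    have h1 : HasFDerivAt (fun p => ∑ j ∈ Finset.range k, (A ^ (k - j)) (g^[j] p))
        (∑ j ∈ Finset.range k, (A ^ (k - j)).comp (A ^ j)) 0 := by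
      apply HasFDerivAt.fun_sum
      intro j _
      have h2 := (hgA.hasFDerivAt).iterate S.z j
      exact (A ^ (k - j)).hasFDerivAt.comp _ h2
    have h2 : (∑ j ∈ Finset.range k, (A ^ (k - j)).comp (A ^ j)) = (k : ℂ) • (1 : V →L[ℂ] V) := by
      rw [Finset.sum_congr rfl (g := fun _ => (1 : V →L[ℂ] V))]
      · rw [Finset.sum_const, Finset.card_range]
        exact (Nat.cast_smul_eq_nsmul ℂ k (1 : V →L[ℂ] V)).symm
      · intro j hj
        rw [Finset.mem_range] at hj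
        rw [← ContinuousLinearMap.mul_def, ← pow_add, Nat.sub_add_cancel hj.le, hAk]
    rw [h2] at h1
    have h3 := h1.const_smul (k : ℂ)⁻¹
    rw [smul_smul, inv_mul_cancel₀ hkc, one_smul] at h3
    rw [hψ]
    exact h3
  have hψs : HasStrictFDerivAt ψ ((ContinuousLinearEquiv.refl ℂ V : V ≃L[ℂ] V) : V →L[ℂ] V) 0 := by
    have h1 := hψan.hasStrictFDerivAt
    rwa [hψd.fderiv] at h1
  have hcd : ContDiffAt ℂ ⊤ ψ 0 := hψan.contDiffAt
  obtain ⟨θ, hθ⟩ : ∃ θ : V → V, θ = hψs.localInverse ψ _ 0 := ⟨_, rfl⟩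
  have hθan : AnalyticAt ℂ θ 0 := by
    have h1 : ContDiffAt ℂ ⊤ θ (ψ 0) := by
      rw [hθ]
      exact hcd.to_localInverse hψd (by simp)
    rw [hψ0] at h1
    exact h1.analyticAt
  have hθ0 : θ 0 = 0 := by
    have := hψs.localInverse_apply_image
    rw [hψ0, ← hθ] at this
    exact this
  have hr : ∀ᶠ y in 𝓝 (0 : V), ψ (θ y) = y := by
    have := hψs.eventually_right_inverse
    rw [hψ0, ← hθ] at this
    exact this
  have hl : ∀ᶠ x in 𝓝 (0 : V), θ (ψ x) = x := by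
    have := hψs.eventually_left_inverse
    rw [← hθ] at this
    exact this
  have hθd : HasFDerivAt θ (ContinuousLinearMap.id ℂ V) 0 := by
    have := hψs.to_localInverse.hasFDerivAt
    rw [hψ0, ← hθ] at this
    exact this
  -- equivariance
  have heq : ∀ᶠ p in 𝓝 (0 : V), ψ (g p) = A (ψ p) := by
    filter_upwards [hit] with p hp
    rw [hψ]
    simp only [map_smul, map_sum]
    congr 1
    have e1 : ∀ j ∈ Finset.range k, (A ^ (k - j)) (g^[j] (g p)) =
        (A ^ (k + 1 - (j + 1))) (g^[j + 1] p) := by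
      intro j hj
      rw [Function.iterate_succ_apply, Nat.add_sub_add_right]
    have e2 : ∀ j ∈ Finset.range k, A ((A ^ (k - j)) (g^[j] p)) = (A ^ (k + 1 - j)) (g^[j] p) := by
      intro j hj
      rw [Finset.mem_range] at hj
      rw [Nat.sub_add_comm hj.le, pow_succ']
      rfl
    rw [Finset.sum_congr rfl e1, Finset.sum_congr rfl e2]
    have s1 := Finset.sum_range_succ (fun j => (A ^ (k + 1 - j)) (g^[j] p)) k
    have s2 := Finset.sum_range_succ' (fun j => (A ^ (k + 1 - j)) (g^[j] p)) k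
    have hp' : g^[k] p = p := hp
    have t1 : (A ^ (k + 1 - k)) (g^[k] p) = A p := by
      rw [hp', show k + 1 - k = 1 by omega, pow_one]
    have t2 : (A ^ (k + 1 - 0)) (g^[0] p) = A p := by
      rw [Nat.sub_zero, pow_succ, hAk, one_mul]
      rfl
    rw [t1] at s1
    rw [s1, t2] at s2
    exact (add_right_cancel s2).symm
  have hline := line0 (e1 - e2)
  have hlt : Tendsto (fun t : ℂ => t • (e1 - e2)) (𝓝 0) (𝓝 0) := by
    have := hline.continuousAt.tendsto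
    rwa [zero_smul] at this
  refine ⟨fun t => θ (t • (e1 - e2)), ?_, ?_, ?_, ?_⟩
  · apply AnalyticAt.comp (g := θ) (f := fun t : ℂ => t • (e1 - e2))
    · rw [zero_smul]; exact hθan
    · exact analyticAt_id.smul analyticAt_const
  · simp only [zero_smul]; exact hθ0
  · have hγt : Tendsto (fun t : ℂ => θ (t • (e1 - e2))) (𝓝 0) (𝓝 0) := by
      have := hθan.continuousAt.tendsto
      rw [hθ0] at this
      exact this.comp hlt
    have hgγt : Tendsto (fun t : ℂ => g (θ (t • (e1 - e2)))) (𝓝 0) (𝓝 0) := (cont0 S).comp hγt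
    filter_upwards [hγt.eventually heq, hlt.eventually hr, hgγt.eventually hl] with t a b c
    rw [b, map_smul, hAv] at a
    rw [a] at c
    exact c.symm
  · have := HasFDerivAt.comp_hasDerivAt_of_eq (x := (0 : ℂ)) hθd hline (by simp)
    exact this

lemma curve0 (S : Sym g) {γ : ℂ → V} (hγ : AnalyticAt ℂ γ 0) (h0 : γ 0 = 0)
    (hfix : ∀ᶠ t in 𝓝 0, g (γ t) = γ t) : ∀ᶠ t in 𝓝 (0 : ℂ), γ t 0 = 0 := by
  have hs : HasStrictFDerivAt g (fderiv ℂ g 0) 0 := S.an.hasStrictFDerivAt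
  have ho := hs.isLittleO
  have hb := ho.def (show (0 : ℝ) < 1 / 2 by norm_num)
  have hγt : Tendsto γ (𝓝 0) (𝓝 0) := by
    have := hγ.continuousAt.tendsto
    rwa [h0] at this
  have hq : Tendsto (fun t => γ t - (γ t 0) • e0) (𝓝 0) (𝓝 0) := by
    have h1 : Tendsto (fun t => γ t 0) (𝓝 0) (𝓝 0) := by
      have := ((continuous_apply (0 : Fin 3)).tendsto (0 : V)).comp hγt
      exact this
    have h2 := hγt.sub (h1.smul_const e0)
    simpa using h2
  have hpair : Tendsto (fun t => (γ t, γ t - (γ t 0) • e0)) (𝓝 0) (𝓝 ((0 : V), (0 : V))) :=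
    hγt.prodMk_nhds hq
  filter_upwards [hfix, hpair.eventually hb, hq.eventually (L1 S)] with t h1 h2 h3
  have h4 := h3 (by simp)
  simp only [sub_sub_cancel, h1] at h2
  have h5 := (norm_le_pi_norm (γ t - g (γ t - γ t 0 • e0) - (fderiv ℂ g 0) (γ t 0 • e0)) 0).trans h2
  have h6 : ‖γ t 0 • e0‖ ≤ ‖γ t 0‖ := by
    rw [norm_smul]
    have : ‖e0‖ ≤ 1 := by
      rw [pi_norm_le_iff_of_nonneg zero_le_one]
      intro i
      fin_cases i <;> simp [e0]
    calc ‖γ t 0‖ * ‖e0‖ ≤ ‖γ t 0‖ * 1 := by gcongr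
      _ = ‖γ t 0‖ := mul_one _
  simp only [Pi.sub_apply, h4, map_smul, Pi.smul_apply, (lin S).2.2.1, smul_eq_mul] at h5
  have h7 : γ t 0 - 0 - γ t 0 * -1 = 2 * γ t 0 := by ring
  rw [h7, norm_mul] at h5
  have h8 : ‖(2 : ℂ)‖ = 2 := by simp
  rw [h8] at h5
  have h9 : ‖γ t 0‖ ≤ 0 := by
    have := norm_nonneg (γ t 0)
    linarith
  exact norm_le_zero_iff.1 h9

lemma odes (S : Sym g) {γ : ℂ → V} (hγ : AnalyticAt ℂ γ 0) (h0 : γ 0 = 0)
    (hfix : ∀ᶠ t in 𝓝 0, g (γ t) = γ t) : ∀ᶠ t in 𝓝 (0 : ℂ),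
      deriv (fun s => γ s 1) t * (γ t 1 + γ t 2) = deriv (fun s => γ s 2) t * (γ t 1) ^ 2 := by
  have hγt : Tendsto γ (𝓝 0) (𝓝 0) := by
    have := hγ.continuousAt.tendsto
    rwa [h0] at this
  have hz := curve0 S hγ h0 hfix
  filter_upwards [hz, hz.eventually_nhds, hfix, hfix.eventually_nhds, hγ.eventually_analyticAt,
    hγt.eventually (L5 S), hγt.eventually S.an.eventually_analyticAt] with t a1 a2 a3 a4 a5 a6 a7
  have d1 : HasDerivAt γ (deriv γ t) t := a5.differentiableAt.hasDerivAt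
  have d2 := hasDerivAt_pi.1 d1
  have b0 : deriv γ t 0 = 0 := by
    have h1 : HasDerivAt (fun s => γ s 0) 0 t :=
      (hasDerivAt_const t (0 : ℂ)).congr_of_eventuallyEq a2
    exact (d2 0).unique h1
  have b1 : fderiv ℂ g (γ t) (deriv γ t) = deriv γ t := by
    have h1 : HasDerivAt (fun s => g (γ s)) (fderiv ℂ g (γ t) (deriv γ t)) t :=
      a7.differentiableAt.hasFDerivAt.comp_hasDerivAt t d1
    have h2 : HasDerivAt (fun s => g (γ s)) (deriv γ t) t := d1.congr_of_eventuallyEq a4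
    exact h1.unique h2
  have key := a6 a1 a3 (deriv γ t) b0 b1
  rw [(d2 1).deriv, (d2 2).deriv]
  exact key

theorem no_finite (S : Sym g) (k : ℕ) (hk : 0 < k) (hit : g^[k] =ᶠ[𝓝 0] id) : False := by
  obtain ⟨γ, hγ, h0, hfix, hd⟩ := curve S k hk hit
  have hode := odes S hγ h0 hfix
  obtain ⟨X, hX⟩ : ∃ X : ℂ → ℂ, X = fun s => γ s 1 := ⟨_, rfl⟩
  obtain ⟨Y, hY⟩ : ∃ Y : ℂ → ℂ, Y = fun s => γ s 2 := ⟨_, rfl⟩
  have hXa : AnalyticAt ℂ X 0 := by
    rw [hX]
    exact analyticAt_pi_iff.1 hγ 1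
  have hYa : AnalyticAt ℂ Y 0 := by
    rw [hY]
    exact analyticAt_pi_iff.1 hγ 2
  have hX0 : X 0 = 0 := by rw [hX]; simp [h0]
  have hXd : deriv X 0 = 1 := by
    have := (hasDerivAt_pi.1 hd 1).deriv
    rw [hX, this]
    simp
  have hXne : deriv X 0 ≠ 0 := by rw [hXd]; exact one_ne_zero
  obtain ⟨ϑ, hϑ⟩ : ∃ ϑ : ℂ → ℂ, ϑ = hXa.hasStrictDerivAt.localInverse _ _ _ hXne := ⟨_, rfl⟩
  have hϑa : AnalyticAt ℂ ϑ 0 := by
    have := hXa.analyticAt_localInverse hXne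
    rw [hX0, ← hϑ] at this
    exact this
  have hϑ0 : ϑ 0 = 0 := by
    have : ϑ (X 0) = 0 := by
      rw [hϑ]
      exact HasStrictFDerivAt.localInverse_apply_image ..
    rwa [hX0] at this
  have hr : ∀ᶠ s in 𝓝 (0 : ℂ), X (ϑ s) = s := by
    have := HasStrictDerivAt.eventually_right_inverse hXa.hasStrictDerivAt hXne
    rw [hX0, ← hϑ] at this
    exact this
  have hϑt : Tendsto ϑ (𝓝 0) (𝓝 0) := by
    have := hϑa.continuousAt.tendsto
    rwa [hϑ0] at this
  apply Euler.no_solution (fun s => Y (ϑ s))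
  · exact AnalyticAt.comp (g := Y) (f := ϑ) (by rw [hϑ0]; exact hYa) hϑa
  · filter_upwards [hr, hr.eventually_nhds, hϑa.eventually_analyticAt, hϑt.eventually hode,
      hϑt.eventually hXa.eventually_analyticAt, hϑt.eventually hYa.eventually_analyticAt]
      with s a1 a2 a3 a4 a5 a6
    have dϑ : HasDerivAt ϑ (deriv ϑ s) s := a3.differentiableAt.hasDerivAt
    have dX : HasDerivAt X (deriv X (ϑ s)) (ϑ s) := a5.differentiableAt.hasDerivAt
    have dY : HasDerivAt Y (deriv Y (ϑ s)) (ϑ s) := a6.differentiableAt.hasDerivAt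
    have e1 : HasDerivAt (fun s => X (ϑ s)) (deriv X (ϑ s) * deriv ϑ s) s := dX.comp s dϑ
    have e2 : HasDerivAt (fun s => Y (ϑ s)) (deriv Y (ϑ s) * deriv ϑ s) s := dY.comp s dϑ
    have e3 : deriv X (ϑ s) * deriv ϑ s = 1 :=
      e1.unique ((hasDerivAt_id s).congr_of_eventuallyEq a2)
    rw [e2.deriv]
    rw [← hX, ← hY] at a4
    have e4 : γ (ϑ s) 1 = s := by
      have : X (ϑ s) = γ (ϑ s) 1 := by rw [hX]
      rw [← this, a1]
    have e5 : γ (ϑ s) 2 = Y (ϑ s) := by rw [hY]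
    rw [e4, e5] at a4
    linear_combination (s + Y (ϑ s)) * e3 - deriv ϑ s * a4

end Pool.Agent.H6.NoFin
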