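import Mathlib

namespace Pool.Agent.H6.PF

open Equiv Equiv.Perm

section
variable {ι : Type} [Finite ι] [DecidableEq ι] (S : ι → Type) [∀ i, Group (S i)]
  (K : Subgroup (∀ i, S i))

/-- elements of a factor that occur with trivial coordinates in `J` -/
def NJ (i : ι) (J : Set ι) : Subgroup (S i) where
  carrier := {x | ∃ k ∈ K, k i = x ∧ ∀ j ∈ J, k j = 1}
  one_mem' := ⟨1, K.one_mem, rfl, fun _ _ => rfl⟩
  mul_mem' := by
    rintro x y ⟨k, hk, rfl, h1⟩ ⟨l, hl, rfl, h2⟩
    exact ⟨k * l, K.mul_mem hk hl, rfl, fun j hj => by rw [Pi.mul_apply, h1 j hj, h2 j hj, one_mul]⟩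
  inv_mem' := by
    rintro x ⟨k, hk, rfl, h1⟩
    exact ⟨k⁻¹, K.inv_mem hk, rfl, fun j hj => by rw [Pi.inv_apply, h1 j hj, inv_one]⟩

theorem NJ_normal (hK : ∀ i (x : S i), ∃ k ∈ K, k i = x) (i : ι) (J : Set ι) :
    (NJ S K i J).Normal := by
  constructor
  rintro x ⟨k, hk, rfl, h1⟩ g
  obtain ⟨l, hl, rfl⟩ := hK i g
  exact ⟨l * k * l⁻¹, K.mul_mem (K.mul_mem hl hk) (K.inv_mem hl), rfl, fun j hj => by
    simp [h1 j hj]⟩

theorem subdirect [∀ i, Finite (S i)]
    (hsimple : ∀ i, IsSimpleGroup (S i)) (hna : ∀ i, ∃ x y : S i, x * y ≠ y * x)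
    (hcard : ∀ i j, i ≠ j → Nat.card (S i) ≠ Nat.card (S j))
    (hK : ∀ i (x : S i), ∃ k ∈ K, k i = x) : K = ⊤ := by
  have pair : ∀ i j, i ≠ j → NJ S K i {j} = ⊤ := by
    intro i j hij
    haveI := hsimple i
    haveI := hsimple j
    rcases (NJ_normal S K hK i {j}).eq_bot_or_eq_top with h | h
    swap
    · exact h
    exfalso
    have hle : ∀ k ∈ K, k j = 1 → k i = 1 := by
      intro k hk hkj
      have : k i ∈ NJ S K i {j} := ⟨k, hk, rfl, by rintro _ rfl; exact hkj⟩
      rw [h] at this
      exact Subgroup.mem_bot.1 this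
    rcases (NJ_normal S K hK j {i}).eq_bot_or_eq_top with h' | h'
    · have hle' : ∀ k ∈ K, k i = 1 → k j = 1 := by
        intro k hk hkj
        have : k j ∈ NJ S K j {i} := ⟨k, hk, rfl, by rintro _ rfl; exact hkj⟩
        rw [h'] at this
        exact Subgroup.mem_bot.1 this
      set fi : K →* S i := (Pi.evalMonoidHom S i).comp K.subtype with hfi
      set fj : K →* S j := (Pi.evalMonoidHom S j).comp K.subtype with hfj
      have hker : fi.ker = fj.ker := by
        ext k
        rw [MonoidHom.mem_ker, MonoidHom.mem_ker]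
        exact ⟨fun hk => hle' k k.2 hk, fun hk => hle k k.2 hk⟩
      have hri : fi.range = ⊤ := by
        rw [MonoidHom.range_eq_top]
        intro x
        obtain ⟨k, hk, rfl⟩ := hK i x
        exact ⟨⟨k, hk⟩, rfl⟩
      have hrj : fj.range = ⊤ := by
        rw [MonoidHom.range_eq_top]
        intro x
        obtain ⟨k, hk, rfl⟩ := hK j x
        exact ⟨⟨k, hk⟩, rfl⟩
      have e1 := Subgroup.index_ker fi
      have e2 := Subgroup.index_ker fj
      rw [hri, Subgroup.card_top] at e1
      rw [hrj, Subgroup.card_top] at e2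
      rw [hker] at e1
      exact hcard i j hij (e1.symm.trans e2)
    · obtain ⟨x, hx⟩ := exists_ne (1 : S i)
      obtain ⟨k, hk, rfl⟩ := hK i x
      have : k j ∈ NJ S K j {i} := by rw [h']; exact Subgroup.mem_top _
      obtain ⟨l, hl, hlj, hli⟩ := this
      have h1 : (k * l⁻¹) i = 1 := hle _ (K.mul_mem hk (K.inv_mem hl)) (by simp [hlj])
      rw [Pi.mul_apply, Pi.inv_apply, hli i rfl, inv_one, mul_one] at h1
      exact hx h1
  have key : ∀ J : Finset ι, ∀ i, i ∉ J → NJ S K i (J : Set ι) = ⊤ := by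
    intro J
    induction J using Finset.induction_on with
    | empty =>
      intro i _
      rw [Subgroup.eq_top_iff']
      intro x
      obtain ⟨k, hk, rfl⟩ := hK i x
      exact ⟨k, hk, rfl, by simp⟩
    | insert j J hj ih =>
      intro i hi
      haveI := hsimple i
      have hiJ : i ∉ J := fun h => hi (Finset.mem_insert_of_mem h)
      have hij : i ≠ j := fun h => hi (by rw [h]; exact Finset.mem_insert_self _ _)
      rcases (NJ_normal S K hK i ((insert j J : Finset ι) : Set ι)).eq_bot_or_eq_top with h | h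
      swap
      · exact h
      exfalso
      obtain ⟨x, y, hxy⟩ := hna i
      have hx : x ∈ NJ S K i (J : Set ι) := by rw [ih i hiJ]; exact Subgroup.mem_top _
      have hy : y ∈ NJ S K i {j} := by rw [pair i j hij]; exact Subgroup.mem_top _
      obtain ⟨k, hk, rfl, h1⟩ := hx
      obtain ⟨l, hl, rfl, h2⟩ := hy
      have : (k * l * k⁻¹ * l⁻¹) i ∈ NJ S K i ((insert j J : Finset ι) : Set ι) := by
        refine ⟨_, K.mul_mem (K.mul_mem (K.mul_mem hk hl) (K.inv_mem hk)) (K.inv_mem hl), rfl, ?_⟩
        intro a ha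
        rw [Finset.coe_insert, Set.mem_insert_iff] at ha
        rcases ha with rfl | ha
        · simp [h2 a rfl]
        · simp [h1 a ha]
      rw [h, Subgroup.mem_bot] at this
      apply hxy
      simp only [Pi.mul_apply, Pi.inv_apply] at this
      rw [mul_inv_eq_one] at this
      rw [mul_inv_eq_iff_eq_mul] at this
      exact this
  haveI := Fintype.ofFinite ι
  rw [Subgroup.eq_top_iff']
  intro x
  apply Subgroup.pi_mem_of_mulSingle_mem
  intro i
  have : x i ∈ NJ S K i ((Finset.univ.erase i : Finset ι) : Set ι) := by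
    rw [key _ i (by simp)]
    exact Subgroup.mem_top _
  obtain ⟨k, hk, hki, h1⟩ := this
  have : Pi.mulSingle i (x i) = k := by
    ext j
    by_cases hj : j = i
    · subst hj
      rw [Pi.mulSingle_eq_same, hki]
    · rw [Pi.mulSingle_eq_of_ne hj, h1 j (by simp [hj])]
  rw [this]
  exact hk

end

/-- the symmetric group is generated by two elements -/
theorem perm_gen (X : Type) [Fintype X] [DecidableEq X] [Nontrivial X] :
    ∃ T : Finset (Perm X), T.card ≤ 2 ∧ Subgroup.closure (T : Set (Perm X)) = ⊤ := by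
  set N := Fintype.card X with hN
  have hN1 : 1 < N := Fintype.one_lt_card
  obtain ⟨M, hM⟩ : ∃ M, N = M + 2 := ⟨N - 2, by omega⟩
  let e : X ≃ Fin (M + 2) := Fintype.equivFinOfCardEq (by omega)
  have h1 : (finRotate (M + 2)).IsCycle := isCycle_finRotate
  have h2 : (finRotate (M + 2)).support = Finset.univ := support_finRotate
  have h3 := closure_cycle_adjacent_swap h1 h2 0
  let E : Perm (Fin (M + 2)) ≃* Perm X := e.symm.permCongrHom
  refine ⟨(({finRotate (M + 2), swap 0 (finRotate (M + 2) 0)} : Finset (Perm (Fin (M + 2))))).image E,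
    ?_, ?_⟩
  · exact Finset.card_image_le.trans Finset.card_le_two
  · rw [Finset.coe_image]
    have : (E : Perm (Fin (M + 2)) → Perm X) = ((E : Perm (Fin (M + 2)) →* Perm X)) := rfl
    rw [this, ← MonoidHom.map_closure]
    rw [Finset.coe_insert, Finset.coe_singleton, h3]
    exact Subgroup.map_top_of_surjective _ E.surjective

theorem alt_gen (X : Type) [Fintype X] [DecidableEq X] [Nontrivial X] :
    ∃ a : Fin 4 → alternatingGroup X, Subgroup.closure (Set.range a) = ⊤ := by
  obtain ⟨T, hT1, hT2⟩ := perm_gen X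
  obtain ⟨U, hU1, hU2⟩ := Subgroup.exists_finset_card_le_mul (alternatingGroup X) hT2
  rw [alternatingGroup.index_eq_two] at hU1
  have hU : U.card ≤ 4 := hU1.trans (by omega)
  refine ⟨fun i => if h : (i : ℕ) < U.card then (U.equivFin.symm ⟨i, h⟩ : alternatingGroup X) else 1, ?_⟩
  rw [eq_top_iff, ← hU2, Subgroup.closure_le]
  intro u hu
  apply Subgroup.subset_closure
  set j := U.equivFin ⟨u, hu⟩ with hj
  refine ⟨⟨j, by omega⟩, ?_⟩
  simp [hj]

theorem prod_gen {ι : Type} [Finite ι] [DecidableEq ι] (X : ι → Type) [∀ i, Fintype (X i)]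
    [∀ i, DecidableEq (X i)] (h5 : ∀ i, 5 ≤ Nat.card (X i))
    (hcard : ∀ i j, i ≠ j → Nat.card (X i) ≠ Nat.card (X j)) :
    ∃ a : Fin 4 → (∀ i, alternatingGroup (X i)), Subgroup.closure (Set.range a) = ⊤ := by
  have hnt : ∀ i, Nontrivial (X i) := fun i => by
    rw [← Finite.one_lt_card_iff_nontrivial]
    have := h5 i
    omega
  have hsimple : ∀ i, IsSimpleGroup (alternatingGroup (X i)) := fun i =>
    alternatingGroup.isSimpleGroup (h5 i)
  choose b hb using fun i => alt_gen (X i)
  refine ⟨fun j i => b i j, ?_⟩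
  apply subdirect
  · exact hsimple
  · intro i
    by_contra hcon
    push Not at hcon
    have hc : IsMulCommutative (alternatingGroup (X i)) := ⟨⟨hcon⟩⟩
    have := (alternatingGroup.isMulCommutative_iff_card_le_three (α := X i)).1 hc
    have := h5 i
    omega
  · intro i j hij he
    haveI := hnt i
    haveI := hnt j
    have e1 := two_mul_nat_card_alternatingGroup (α := X i)
    have e2 := two_mul_nat_card_alternatingGroup (α := X j)
    rw [he, e2, Nat.card_perm, Nat.card_perm] at e1
    have hlt : ∀ a b : ℕ, 5 ≤ a → a < b → a.factorial < b.factorial := fun a b ha hab =>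
      (Nat.factorial_lt (by omega)).2 hab
    rcases lt_trichotomy (Nat.card (X i)) (Nat.card (X j)) with h | h | h
    · have := hlt _ _ (h5 i) h
      omega
    · exact hcard i j hij h
    · have := hlt _ _ (h5 j) h
      omega
  · intro i x
    have hx : x ∈ Subgroup.closure (Set.range (b i)) := by rw [hb i]; exact Subgroup.mem_top _
    have hmap : Subgroup.map (Pi.evalMonoidHom (fun i => alternatingGroup (X i)) i)
        (Subgroup.closure (Set.range fun j i => b i j)) = Subgroup.closure (Set.range (b i)) := by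
      rw [MonoidHom.map_closure]
      congr 1
      ext y
      simp only [Set.mem_image, Set.mem_range]
      constructor
      · rintro ⟨_, ⟨j, rfl⟩, rfl⟩
        exact ⟨j, rfl⟩
      · rintro ⟨j, rfl⟩
        exact ⟨_, ⟨j, rfl⟩, rfl⟩
    rw [← hmap] at hx
    obtain ⟨k, hk, hkx⟩ := hx
    exact ⟨k, hk, hkx⟩

end Pool.Agent.H6.PF
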