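import Pool.Agent.H6.PF1

namespace Pool.Agent.H6.PF

open Equiv Equiv.Perm

section
variable {X : Type} [DecidableEq X]

/-- three-cycles -/
def cyc (a b c : X) : Perm X := swap a b * swap a c

theorem cyc_conj (g : Perm X) (a b c : X) : g * cyc a b c * g⁻¹ = cyc (g a) (g b) (g c) := by
  rw [cyc, cyc, swap_apply_apply, swap_apply_apply]
  group

theorem cyc_rot {a b c : X} (hab : a ≠ b) (hac : a ≠ c) (hbc : b ≠ c) : cyc a b c = cyc b c a := by
  ext x
  simp only [cyc, Perm.mul_apply, swap_apply_def]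
  by_cases h1 : x = a
  · subst h1; simp [hab, hac, hbc, hab.symm, hac.symm, hbc.symm]
  · by_cases h2 : x = b
    · subst h2; simp [hab, hac, hbc, hab.symm, hac.symm, hbc.symm]
    · by_cases h3 : x = c
      · subst h3; simp [hab, hac, hbc, hab.symm, hac.symm, hbc.symm]
      · simp [h1, h2, h3]

theorem cyc_inv (a b c : X) : (cyc a b c)⁻¹ = cyc a c b := by
  rw [cyc, cyc, mul_inv_rev, swap_inv, swap_inv]

theorem cyc_apply1 {a b c : X} (hac : a ≠ c) (hbc : b ≠ c) : cyc a b c a = c := by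
  simp [cyc, Perm.mul_apply, swap_apply_def, hac.symm, hbc.symm]

theorem cyc_apply2 {a b c : X} (hab : a ≠ b) (hbc : b ≠ c) : cyc a b c b = a := by
  simp [cyc, Perm.mul_apply, swap_apply_def, hab.symm, hbc]

theorem cyc_apply3 {a b c : X} : cyc a b c c = b := by
  simp [cyc, Perm.mul_apply, swap_apply_def]

theorem cyc_apply_ne {a b c x : X} (h1 : x ≠ a) (h2 : x ≠ b) (h3 : x ≠ c) : cyc a b c x = x := by
  simp [cyc, Perm.mul_apply, swap_apply_def, h1, h2, h3]

/-- all three-cycles on `W` are in `Γ` -/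
def Good (Γ : Subgroup (Perm X)) (W : Set X) : Prop :=
  ∀ a ∈ W, ∀ b ∈ W, ∀ c ∈ W, a ≠ b → a ≠ c → b ≠ c → cyc a b c ∈ Γ

theorem good_insert (Γ : Subgroup (Perm X)) (W : Set X) (hW : Good Γ W)
    (h4 : ∀ p q b : X, ∃ w ∈ W, w ≠ p ∧ w ≠ q ∧ w ≠ b) {x y z : X} (hx : x ∈ W) (hy : y ∈ W)
    (hxy : x ≠ y) (hz : z ∉ W) (hc : cyc x y z ∈ Γ) : Good Γ (insert z W) := by
  have hne : ∀ p ∈ W, p ≠ z := fun p hp h => hz (h ▸ hp)
  have step : ∀ p ∈ W, ∀ q ∈ W, p ≠ q → cyc p q z ∈ Γ → ∀ b ∈ W, b ≠ p → cyc p b z ∈ Γ := by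
    intro p hp q hq hpq hD b hb hbp
    by_cases hbq : b = q
    · rw [hbq]; exact hD
    obtain ⟨w, hw, hwp, hwq, hwb⟩ := h4 p q b
    have hα : cyc q w b ∈ Γ := hW q hq w hw b hb hwq.symm (Ne.symm hbq) hwb
    have h1 : cyc q w b p = p := cyc_apply_ne hpq hwp.symm hbp.symm
    have h2 : cyc q w b q = b := cyc_apply1 (Ne.symm hbq) hwb
    have h3 : cyc q w b z = z := cyc_apply_ne (hne q hq).symm (hne w hw).symm (hne b hb).symm
    have := cyc_conj (cyc q w b) p q z
    rw [h1, h2, h3] at this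
    rw [← this]
    exact Γ.mul_mem (Γ.mul_mem hα hD) (Γ.inv_mem hα)
  have sym : ∀ p ∈ W, ∀ q ∈ W, p ≠ q → cyc p q z ∈ Γ → cyc q p z ∈ Γ := by
    intro p hp q hq hpq hD
    have h1 : cyc p z q = cyc q p z := by
      rw [cyc_rot (hne p hp) hpq (hne q hq).symm, cyc_rot (hne q hq).symm (hne p hp).symm hpq.symm]
    rw [← h1, ← cyc_inv]
    exact Γ.inv_mem hD
  have all : ∀ a ∈ W, ∀ b ∈ W, a ≠ b → cyc a b z ∈ Γ := by
    intro a ha b hb hab
    by_cases hbx : b = x
    · subst hbx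
      exact sym b hx a ha hab.symm (step b hx y hy hxy hc a ha hab)
    · have h1 := step x hx y hy hxy hc b hb hbx
      have h2 := sym x hx b hb (Ne.symm hbx) h1
      have h3 := step b hb x hx hbx h2 a ha hab
      exact sym b hb a ha hab.symm h3
  intro a ha b hb c hc' hab hac hbc
  rcases ha with rfl | ha
  · have hb' : b ∈ W := hb.resolve_left hab.symm
    have hc'' : c ∈ W := hc'.resolve_left hac.symm
    rw [cyc_rot hab hac hbc]
    exact all b hb' c hc'' hbc
  · rcases hb with rfl | hb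
    · have hc'' : c ∈ W := hc'.resolve_left hbc.symm
      rw [cyc_rot hab hac hbc, cyc_rot hbc hab.symm hac.symm]
      exact all c hc'' a ha hac.symm
    · rcases hc' with rfl | hc'
      · exact all a ha b hb hab
      · exact hW a ha b hb c hc' hab hac hbc

theorem good_univ [Fintype X] (Γ : Subgroup (Perm X)) (h : Good Γ Set.univ) (h3 : 3 ≤ Nat.card X) :
    alternatingGroup X ≤ Γ := by
  rw [← closure_three_cycles_eq_alternating, Subgroup.closure_le]
  intro σ hσ
  obtain ⟨a, b, c, hab, hac, hbc⟩ : ∃ a b c : X, a ≠ b ∧ a ≠ c ∧ b ≠ c := by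
    rw [Nat.card_eq_fintype_card] at h3
    exact Fintype.two_lt_card_iff.1 (by omega)
  have h1 : (cyc a b c).IsThreeCycle := isThreeCycle_swap_mul_swap_same hab hac hbc
  have h2 : IsConj (cyc a b c) σ := isConj_iff_cycleType_eq.2 (by
    rw [h1.cycleType]
    exact (show IsThreeCycle σ from hσ).cycleType.symm)
  obtain ⟨g, hg⟩ := isConj_iff.1 h2
  rw [← hg, cyc_conj]
  exact h _ (Set.mem_univ _) _ (Set.mem_univ _) _ (Set.mem_univ _) (fun e => hab (g.injective e))
    (fun e => hac (g.injective e)) (fun e => hbc (g.injective e))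

end

/-- group data -/
structure GD (kk : ℕ) where
  H : Type
  [gH : Group H]
  Q : ℕ → Type
  [gQ : ∀ n, Group (Q n)]
  [fQ : ∀ n, Fintype (Q n)]
  [dQ : ∀ n, DecidableEq (Q n)]
  ρ : ∀ n, H →* Q n
  surj : ∀ n, Function.Surjective (ρ n)
  S : Finset H
  gen : Subgroup.closure (S : Set H) = ⊤
  ne1 : ∀ s ∈ S, ∀ n, ρ n s ≠ 1
  noq : ∀ (F : Type) [Group F] [Finite F] (φ : H →* F),
    (∀ h, (∃ N, ∀ n, N ≤ n → ρ n h = 1) → φ h = 1) → ∀ h, φ h = 1
  sep : ∀ m, ∃ h, ∀ n, ρ n h = 1 ↔ n ≤ m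
  low : ∀ n (T : Finset (Q n)), Subgroup.closure (T : Set (Q n)) = ⊤ → kk ≤ T.card
  mono : StrictMono fun n => Nat.card (Q n)

attribute [instance] GD.gH GD.gQ GD.fQ GD.dQ

variable {kk : ℕ} (D : GD kk)

/-- the sets acted on -/
abbrev GD.X (n : ℕ) : Type := D.Q n × Fin 6

/-- translations -/
def GD.T : D.H →* (∀ n, Perm (D.X n)) where
  toFun h n := prodCongrLeft fun _ => Equiv.mulLeft (D.ρ n h)
  map_one' := by
    funext n
    ext x <;> simp
  map_mul' := by
    intro g h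
    funext n
    ext x <;> simp [mul_assoc]

theorem GD.T_apply (h : D.H) (n : ℕ) (x : D.X n) : D.T h n x = (D.ρ n h * x.1, x.2) := rfl

/-- constants -/
def GD.J : Perm (Fin 6) →* (∀ n, Perm (D.X n)) where
  toFun a n := prodExtendRight 1 a
  map_one' := by
    funext n
    ext ⟨x, c⟩ : 1
    by_cases hx : x = 1
    · subst hx; simp
    · rw [prodExtendRight_apply_ne _ hx]; rfl
  map_mul' := by
    intro a b
    funext n
    ext ⟨x, c⟩ : 1
    by_cases hx : x = 1
    · subst hx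
      simp
    · rw [prodExtendRight_apply_ne _ hx, Pi.mul_apply, Perm.mul_apply, prodExtendRight_apply_ne _ hx,
        prodExtendRight_apply_ne _ hx]

theorem GD.J_apply_eq (a : Perm (Fin 6)) (n : ℕ) (c : Fin 6) :
    D.J a n ((1, c) : D.X n) = (1, a c) := prodExtendRight_apply_eq _ _ _

theorem GD.J_apply_ne (a : Perm (Fin 6)) (n : ℕ) {x : D.Q n} (hx : x ≠ 1) (c : Fin 6) :
    D.J a n ((x, c) : D.X n) = (x, c) := prodExtendRight_apply_ne _ hx _

/-- linking elements -/
def GD.C (s : D.H) : ∀ n, Perm (D.X n) := fun n => cyc (1, 0) (1, 1) (D.ρ n s, 0)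

/-- the generating set -/
def GD.gens : Set (∀ n, Perm (D.X n)) :=
  D.T '' (D.S : Set D.H) ∪ D.J '' (alternatingGroup (Fin 6) : Set (Perm (Fin 6))) ∪ D.C '' (D.S : Set D.H)

/-- the group -/
def GD.G : Subgroup (∀ n, Perm (D.X n)) := Subgroup.closure D.gens

theorem GD.gens_finite : D.gens.Finite :=
  ((D.S.finite_toSet.image _).union ((Set.toFinite _).image _)).union (D.S.finite_toSet.image _)

theorem GD.T_mem (h : D.H) : D.T h ∈ D.G := by
  have h1 : h ∈ Subgroup.closure (D.S : Set D.H) := by rw [D.gen]; exact Subgroup.mem_top _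
  have h2 : Subgroup.closure (D.S : Set D.H) ≤ D.G.comap D.T := by
    rw [Subgroup.closure_le]
    intro s hs
    exact Subgroup.subset_closure (Or.inl (Or.inl ⟨s, hs, rfl⟩))
  exact h2 h1

theorem GD.J_mem {a : Perm (Fin 6)} (ha : a ∈ alternatingGroup (Fin 6)) : D.J a ∈ D.G :=
  Subgroup.subset_closure (Or.inl (Or.inr ⟨a, ha, rfl⟩))

theorem GD.C_mem {s : D.H} (hs : s ∈ D.S) : D.C s ∈ D.G :=
  Subgroup.subset_closure (Or.inr ⟨s, hs, rfl⟩)

theorem GD.T_alt (h : D.H) (n : ℕ) : D.T h n ∈ alternatingGroup (D.X n) := by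
  rw [mem_alternatingGroup]
  show sign (prodCongrLeft fun _ => Equiv.mulLeft (D.ρ n h)) = 1
  rw [sign_prodCongrLeft]
  simp only [Finset.prod_const, Finset.card_univ, Fintype.card_fin]
  rcases Int.units_eq_one_or (sign (Equiv.mulLeft (D.ρ n h))) with e | e <;> rw [e] <;> decide

theorem GD.G_alt {g : ∀ n, Perm (D.X n)} (hg : g ∈ D.G) (n : ℕ) : g n ∈ alternatingGroup (D.X n) := by
  have : D.G ≤ (alternatingGroup (D.X n)).comap (Pi.evalMonoidHom (fun n => Perm (D.X n)) n) := by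
    rw [GD.G, Subgroup.closure_le]
    rintro _ ((⟨s, _, rfl⟩ | ⟨a, ha, rfl⟩) | ⟨s, hs, rfl⟩)
    · exact D.T_alt s n
    · show D.J a n ∈ alternatingGroup (D.X n)
      rw [mem_alternatingGroup]
      show sign (prodExtendRight 1 a) = 1
      rw [sign_prodExtendRight]
      exact mem_alternatingGroup.1 ha
    · show D.C s n ∈ alternatingGroup (D.X n)
      apply IsThreeCycle.mem_alternatingGroup
      apply isThreeCycle_swap_mul_swap_same
      · intro e
        have := congrArg Prod.snd e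
        simp at this
      · intro e
        exact D.ne1 s hs n (congrArg Prod.fst e).symm
      · intro e
        exact D.ne1 s hs n (congrArg Prod.fst e).symm
  exact this hg

end Pool.Agent.H6.PF
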