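import Pool.Agent.H6.PF2

namespace Pool.Agent.H6.PF

open Equiv Equiv.Perm

variable {kk : ℕ} (D : GD kk)

/-- projection to a coordinate -/
def GD.Γ (n : ℕ) : Subgroup (Perm (D.X n)) := D.G.map (Pi.evalMonoidHom (fun n => Perm (D.X n)) n)

theorem GD.mem_Γ {g : ∀ n, Perm (D.X n)} (hg : g ∈ D.G) (n : ℕ) : g n ∈ D.Γ n := ⟨g, hg, rfl⟩

theorem GD.J_swap (i j : Fin 6) (n : ℕ) :
    D.J (swap i j) n = swap ((1, i) : D.X n) (1, j) := by
  ext ⟨x, c⟩ : 1
  by_cases hx : x = 1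
  · subst hx
    rw [D.J_apply_eq]
    simp only [swap_apply_def, Prod.mk.injEq, true_and]
    split_ifs <;> rfl
  · rw [D.J_apply_ne _ _ hx]
    rw [swap_apply_of_ne_of_ne]
    · intro e; exact hx (congrArg Prod.fst e)
    · intro e; exact hx (congrArg Prod.fst e)

theorem GD.J_cyc (i j l : Fin 6) (n : ℕ) :
    D.J (cyc i j l) n = cyc ((1, i) : D.X n) (1, j) (1, l) := by
  rw [cyc, map_mul, Pi.mul_apply, D.J_swap, D.J_swap, cyc]

theorem cyc_alt {X : Type} [Fintype X] [DecidableEq X] {a b c : X} (hab : a ≠ b) (hac : a ≠ c)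
    (hbc : b ≠ c) : cyc a b c ∈ alternatingGroup X :=
  (isThreeCycle_swap_mul_swap_same hab hac hbc).mem_alternatingGroup

/-- conjugates of constants -/
def GD.W (h : D.H) (b : Perm (Fin 6)) : ∀ n, Perm (D.X n) := D.T h * D.J b * (D.T h)⁻¹

theorem GD.W_mem (h : D.H) {b : Perm (Fin 6)} (hb : b ∈ alternatingGroup (Fin 6)) : D.W h b ∈ D.G :=
  D.G.mul_mem (D.G.mul_mem (D.T_mem h) (D.J_mem hb)) (D.G.inv_mem (D.T_mem h))

theorem GD.W_apply (h : D.H) (b : Perm (Fin 6)) (n : ℕ) (c : Fin 6) :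
    D.W h b n (D.ρ n h, c) = (D.ρ n h, b c) := by
  have e : (D.T h)⁻¹ = D.T h⁻¹ := (map_inv _ _).symm
  have h1 : D.W h b n (D.ρ n h, c) = D.T h n (D.J b n (D.T h⁻¹ n (D.ρ n h, c))) := by
    rw [GD.W, e]; rfl
  have h2 : D.T h⁻¹ n (D.ρ n h, c) = (1, c) := by
    rw [D.T_apply]; simp
  rw [h1, h2, D.J_apply_eq, D.T_apply]
  simp

theorem GD.W_apply_ne (h : D.H) (b : Perm (Fin 6)) (n : ℕ) {x : D.Q n} (hx : x ≠ D.ρ n h)
    (c : Fin 6) : D.W h b n (x, c) = (x, c) := by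
  have e : (D.T h)⁻¹ = D.T h⁻¹ := (map_inv _ _).symm
  have h0 : D.W h b n (x, c) = D.T h n (D.J b n (D.T h⁻¹ n (x, c))) := by
    rw [GD.W, e]; rfl
  have h1 : D.ρ n h⁻¹ * x ≠ 1 := by
    rw [map_inv]
    intro h2
    exact hx (inv_mul_eq_one.1 h2).symm
  have h2 : D.T h⁻¹ n (x, c) = (D.ρ n h⁻¹ * x, c) := D.T_apply _ _ _
  rw [h0, h2, D.J_apply_ne _ _ h1, D.T_apply]
  simp

theorem exists_alt_zero (l : Fin 6) : ∃ a ∈ alternatingGroup (Fin 6), a 0 = l := by
  by_cases h0 : l = 0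
  · exact ⟨1, Subgroup.one_mem _, h0.symm⟩
  · obtain ⟨w, hw1, hw2⟩ : ∃ w : Fin 6, w ≠ 0 ∧ w ≠ l := by
      revert l; decide
    exact ⟨cyc 0 w l, cyc_alt hw1.symm (Ne.symm h0) hw2, cyc_apply1 (Ne.symm h0) hw2⟩

theorem GD.link (n : ℕ) (g : D.H) {s : D.H} (hs : s ∈ D.S) (l : Fin 6) :
    cyc ((D.ρ n g, 0) : D.X n) (D.ρ n g, 1) (D.ρ n g * D.ρ n s, l) ∈ D.Γ n := by
  have hc0 : D.T g * D.C s * (D.T g)⁻¹ ∈ D.G :=
    D.G.mul_mem (D.G.mul_mem (D.T_mem g) (D.C_mem hs)) (D.G.inv_mem (D.T_mem g))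
  have h0 := D.mem_Γ hc0 n
  have e0 : (D.T g * D.C s * (D.T g)⁻¹) n =
      cyc ((D.ρ n g, 0) : D.X n) (D.ρ n g, 1) (D.ρ n g * D.ρ n s, 0) := by
    show D.T g n * D.C s n * (D.T g n)⁻¹ = _
    rw [GD.C, cyc_conj, D.T_apply, D.T_apply, D.T_apply]
    simp
  rw [e0] at h0
  obtain ⟨a, ha, hal⟩ := exists_alt_zero l
  have h1 := D.mem_Γ (D.W_mem (g * s) ha) n
  have hne : D.ρ n g ≠ D.ρ n (g * s) := by
    rw [map_mul]
    intro e
    exact D.ne1 s hs n (by simpa using e.symm)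
  have e1 := cyc_conj (D.W (g * s) a n) ((D.ρ n g, 0) : D.X n) (D.ρ n g, 1) (D.ρ n g * D.ρ n s, 0)
  rw [D.W_apply_ne _ _ _ hne, D.W_apply_ne _ _ _ hne, ← map_mul, D.W_apply, hal, map_mul] at e1
  rw [← e1]
  exact (D.Γ n).mul_mem ((D.Γ n).mul_mem h1 h0) ((D.Γ n).inv_mem h1)

theorem GD.good_one (n : ℕ) : Good (D.Γ n) {x : D.X n | x.1 ∈ ({1} : Finset (D.Q n))} := by
  rintro ⟨x, i⟩ hx ⟨y, j⟩ hy ⟨z, l⟩ hz h1 h2 h3
  simp only [Finset.mem_singleton, Set.mem_setOf_eq] at hx hy hz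
  subst hx hy hz
  rw [← D.J_cyc]
  apply D.mem_Γ
  apply D.J_mem
  apply cyc_alt
  · intro e; exact h1 (by rw [e])
  · intro e; exact h2 (by rw [e])
  · intro e; exact h3 (by rw [e])

theorem fin6_avoid (a b c : Fin 6) : ∃ i : Fin 6, i ≠ a ∧ i ≠ b ∧ i ≠ c := by
  revert a b c; decide

theorem GD.good_step (n : ℕ) (K : Finset (D.Q n)) (hK : Good (D.Γ n) {x : D.X n | x.1 ∈ K})
    {h h' : D.Q n} (hh : h ∈ K) (hh' : h' ∉ K)
    (hl : ∀ l : Fin 6, cyc ((h, 0) : D.X n) (h, 1) (h', l) ∈ D.Γ n) :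
    Good (D.Γ n) {x : D.X n | x.1 ∈ insert h' K} := by
  have key : ∀ L : Finset (Fin 6),
      Good (D.Γ n) ({x : D.X n | x.1 ∈ K} ∪ {x : D.X n | x.1 = h' ∧ x.2 ∈ L}) := by
    intro L
    induction L using Finset.induction_on with
    | empty => simpa using hK
    | insert l L hlL ih =>
      have e : ({x : D.X n | x.1 ∈ K} ∪ {x : D.X n | x.1 = h' ∧ x.2 ∈ insert l L}) =
          insert ((h', l) : D.X n) ({x : D.X n | x.1 ∈ K} ∪ {x : D.X n | x.1 = h' ∧ x.2 ∈ L}) := by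
        ext ⟨x, i⟩
        simp only [Set.mem_union, Set.mem_setOf_eq, Finset.mem_insert, Set.mem_insert_iff,
          Prod.mk.injEq]
        tauto
      rw [e]
      refine good_insert (D.Γ n) _ ih ?_ (x := (h, 0)) (y := (h, 1)) (Or.inl hh) (Or.inl hh)
        (by intro e; simpa using congrArg Prod.snd e) ?_ (hl l)
      · intro p q b
        obtain ⟨i, h1, h2, h3⟩ := fin6_avoid p.2 q.2 b.2
        refine ⟨(h, i), Or.inl hh, ?_, ?_, ?_⟩
        · intro e; exact h1 (congrArg Prod.snd e)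
        · intro e; exact h2 (congrArg Prod.snd e)
        · intro e; exact h3 (congrArg Prod.snd e)
      · rintro (h1 | h1)
        · exact hh' h1
        · exact hlL h1.2
  have := key Finset.univ
  convert this using 1
  ext ⟨x, i⟩
  simp only [Set.mem_union, Set.mem_setOf_eq, Finset.mem_insert, Finset.mem_univ, and_true]
  tauto

theorem GD.alt_le (n : ℕ) : alternatingGroup (D.X n) ≤ D.Γ n := by
  classical
  set 𝒦 : Set (Finset (D.Q n)) := {K | 1 ∈ K ∧ Good (D.Γ n) {x : D.X n | x.1 ∈ K}} with h𝒦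
  have hfin : 𝒦.Finite := Set.toFinite _
  obtain ⟨K, hK, hmax⟩ := Finset.exists_max_image hfin.toFinset Finset.card
    ⟨{1}, by rw [Set.Finite.mem_toFinset]; exact ⟨by simp, D.good_one n⟩⟩
  rw [Set.Finite.mem_toFinset] at hK
  have hclosed : ∀ s ∈ D.S, ∀ h ∈ K, h * D.ρ n s ∈ K := by
    intro s hs h hh
    by_contra hcon
    obtain ⟨g, rfl⟩ := D.surj n h
    have hg := D.good_step n K hK.2 hh hcon (fun l => D.link n g hs l)
    have := hmax (insert (D.ρ n g * D.ρ n s) K) (by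
      rw [Set.Finite.mem_toFinset]
      exact ⟨Finset.mem_insert_of_mem hK.1, hg⟩)
    rw [Finset.card_insert_of_notMem hcon] at this
    omega
  have hall : ∀ g : D.H, ∀ h ∈ K, h * D.ρ n g ∈ K := by
    intro g
    have hg : g ∈ Subgroup.closure (D.S : Set D.H) := by rw [D.gen]; exact Subgroup.mem_top _
    induction hg using Subgroup.closure_induction with
    | mem s hs => exact hclosed s hs
    | one => intro h hh; simpa using hh
    | mul x y _ _ hx hy =>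
      intro h hh
      rw [map_mul, ← mul_assoc]
      exact hy _ (hx h hh)
    | inv x _ hx =>
      intro h hh
      have hsurj := Finset.surj_on_of_inj_on_of_card_le (s := K) (t := K)
        (fun a _ => a * D.ρ n x) (fun a ha => hx a ha) (fun a b _ _ e => mul_right_cancel e) le_rfl h hh
      obtain ⟨a, ha, hae⟩ := hsurj
      rw [map_inv, hae, mul_inv_cancel_right]
      exact ha
  have huniv : ∀ x : D.Q n, x ∈ K := by
    intro x
    obtain ⟨g, rfl⟩ := D.surj n x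
    simpa using hall g 1 hK.1
  apply good_univ
  · have : {x : D.X n | x.1 ∈ K} = Set.univ := by
      ext x; simp [huniv]
    rw [← this]
    exact hK.2
  · rw [Nat.card_prod, Nat.card_eq_fintype_card (α := Fin 6), Fintype.card_fin]
    have : 0 < Nat.card (D.Q n) := Nat.card_pos
    omega

theorem GD.proj (n : ℕ) {x : Perm (D.X n)} (hx : x ∈ alternatingGroup (D.X n)) :
    ∃ g ∈ D.G, g n = x := by
  obtain ⟨g, hg, rfl⟩ := D.alt_le n hx
  exact ⟨g, hg, rfl⟩

theorem GD.T_one_of {h : D.H} {n : ℕ} (hn : D.ρ n h = 1) : D.T h n = 1 := by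
  ext x : 1
  rw [D.T_apply, hn, one_mul]
  rfl

theorem GD.W_comm (h : D.H) (a b : Perm (Fin 6)) (n : ℕ) (hn : D.ρ n h ≠ 1) :
    D.J a n * D.W h b n = D.W h b n * D.J a n := by
  ext ⟨x, c⟩ : 1
  rw [Perm.mul_apply, Perm.mul_apply]
  by_cases hx : x = 1
  · subst hx
    rw [D.W_apply_ne h b n hn.symm, D.J_apply_eq, D.W_apply_ne h b n hn.symm]
  · rw [D.J_apply_ne a n hx]
    by_cases hx2 : x = D.ρ n h
    · subst hx2
      rw [D.W_apply, D.J_apply_ne a n hx]
    · rw [D.W_apply_ne h b n hx2, D.J_apply_ne a n hx]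

/-- commutator elements -/
def GD.Z (h : D.H) (a b : Perm (Fin 6)) : ∀ n, Perm (D.X n) :=
  D.J a * D.W h b * (D.J a)⁻¹ * (D.W h b)⁻¹

theorem GD.Z_mem (h : D.H) {a b : Perm (Fin 6)} (ha : a ∈ alternatingGroup (Fin 6))
    (hb : b ∈ alternatingGroup (Fin 6)) : D.Z h a b ∈ D.G :=
  D.G.mul_mem (D.G.mul_mem (D.G.mul_mem (D.J_mem ha) (D.W_mem h hb)) (D.G.inv_mem (D.J_mem ha)))
    (D.G.inv_mem (D.W_mem h hb))

theorem GD.Z_ne (h : D.H) (a b : Perm (Fin 6)) (n : ℕ) (hn : D.ρ n h ≠ 1) : D.Z h a b n = 1 := by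
  show D.J a n * D.W h b n * (D.J a n)⁻¹ * (D.W h b n)⁻¹ = 1
  rw [D.W_comm h a b n hn]
  group

theorem GD.Z_eq (h : D.H) (a b : Perm (Fin 6)) (n : ℕ) (hn : D.ρ n h = 1) :
    D.Z h a b n = D.J (a * b * a⁻¹ * b⁻¹) n := by
  have : D.W h b n = D.J b n := by
    show D.T h n * D.J b n * (D.T h n)⁻¹ = _
    rw [D.T_one_of hn]
    group
  show D.J a n * D.W h b n * (D.J a n)⁻¹ * (D.W h b n)⁻¹ = _
  rw [this]
  simp only [map_mul, map_inv]
  rfl

theorem comm_ne : cyc (0 : Fin 6) 1 2 * cyc 0 1 3 * (cyc 0 1 2)⁻¹ * (cyc 0 1 3)⁻¹ ≠ 1 := by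
  intro h
  have := congrArg (fun σ : Perm (Fin 6) => σ 0) h
  revert this
  decide

theorem GD.exists_single (m : ℕ) : ∃ x ∈ alternatingGroup (D.X m), x ≠ 1 ∧ Pi.mulSingle m x ∈ D.G := by
  have ha : cyc (0 : Fin 6) 1 2 ∈ alternatingGroup (Fin 6) :=
    cyc_alt (by decide) (by decide) (by decide)
  have hb : cyc (0 : Fin 6) 1 3 ∈ alternatingGroup (Fin 6) :=
    cyc_alt (by decide) (by decide) (by decide)
  set a := cyc (0 : Fin 6) 1 2
  set b := cyc (0 : Fin 6) 1 3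
  set x : Perm (D.X m) := D.J (a * b * a⁻¹ * b⁻¹) m with hx
  have hx1 : x ≠ 1 := by
    intro h
    apply comm_ne
    ext c : 1
    have := congrArg (fun σ : Perm (D.X m) => (σ (1, c)).2) h
    simp only [hx] at this
    rw [D.J_apply_eq] at this
    exact this
  have hmem : Pi.mulSingle m x ∈ D.G := by
    cases m with
    | zero =>
      obtain ⟨h, hh⟩ := D.sep 0
      have : Pi.mulSingle 0 x = D.Z h a b := by
        funext n
        by_cases hn : n = 0
        · subst hn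
          rw [Pi.mulSingle_eq_same, D.Z_eq _ _ _ _ ((hh 0).2 le_rfl)]
        · rw [Pi.mulSingle_eq_of_ne hn, D.Z_ne]
          intro h1
          have := (hh n).1 h1
          omega
      rw [this]
      exact D.Z_mem h ha hb
    | succ m =>
      obtain ⟨h, hh⟩ := D.sep (m + 1)
      obtain ⟨h', hh'⟩ := D.sep m
      have : Pi.mulSingle (m + 1) x = D.Z h a b * (D.Z h' a b)⁻¹ := by
        funext n
        rw [Pi.mul_apply, Pi.inv_apply]
        rcases lt_trichotomy n (m + 1) with h1 | h1 | h1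
        · rw [Pi.mulSingle_eq_of_ne (by omega), D.Z_eq _ _ _ _ ((hh n).2 (by omega)),
            D.Z_eq _ _ _ _ ((hh' n).2 (by omega)), mul_inv_cancel]
        · subst h1
          rw [Pi.mulSingle_eq_same, D.Z_eq _ _ _ _ ((hh _).2 le_rfl), D.Z_ne h', inv_one, mul_one]
          intro h1
          have := (hh' _).1 h1
          omega
        · rw [Pi.mulSingle_eq_of_ne (by omega), D.Z_ne h, D.Z_ne h', inv_one, mul_one]
          · intro h1
            have := (hh' _).1 h1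
            omega
          · intro h1
            have := (hh _).1 h1
            omega
      rw [this]
      exact D.G.mul_mem (D.Z_mem h ha hb) (D.G.inv_mem (D.Z_mem h' ha hb))
  refine ⟨x, ?_, hx1, hmem⟩
  have := D.G_alt hmem m
  rwa [Pi.mulSingle_eq_same] at this

theorem GD.card_X (n : ℕ) : Nat.card (D.X n) = Nat.card (D.Q n) * 6 := by
  rw [Nat.card_prod, Nat.card_eq_fintype_card (α := Fin 6), Fintype.card_fin]

theorem GD.five_le (n : ℕ) : 5 ≤ Nat.card (D.X n) := by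
  rw [D.card_X]
  have : 0 < Nat.card (D.Q n) := Nat.card_pos
  omega

theorem GD.single_mem (m : ℕ) {x : Perm (D.X m)} (hx : x ∈ alternatingGroup (D.X m)) :
    Pi.mulSingle m x ∈ D.G := by
  set N : Subgroup (alternatingGroup (D.X m)) :=
    (D.G.comap (MonoidHom.mulSingle (fun n => Perm (D.X n)) m)).comap (alternatingGroup (D.X m)).subtype
    with hN
  have hNmem : ∀ y : alternatingGroup (D.X m), y ∈ N ↔ Pi.mulSingle m (y : Perm (D.X m)) ∈ D.G :=
    fun y => Iff.rfl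
  have hnorm : N.Normal := by
    constructor
    rintro y hy ⟨g, hg⟩
    rw [hNmem] at hy ⊢
    obtain ⟨k, hk, rfl⟩ := D.proj m hg
    have : Pi.mulSingle m (((⟨k m, hg⟩ : alternatingGroup (D.X m)) * y *
        (⟨k m, hg⟩ : alternatingGroup (D.X m))⁻¹ : alternatingGroup (D.X m)) : Perm (D.X m)) =
        k * Pi.mulSingle m (y : Perm (D.X m)) * k⁻¹ := by
      funext n
      by_cases hn : n = m
      · subst hn
        simp
      · rw [Pi.mulSingle_eq_of_ne hn]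
        simp [Pi.mulSingle_eq_of_ne hn]
    rw [this]
    exact D.G.mul_mem (D.G.mul_mem hk hy) (D.G.inv_mem hk)
  haveI := alternatingGroup.isSimpleGroup (D.five_le m)
  obtain ⟨y, hy, hy1, hymem⟩ := D.exists_single m
  rcases hnorm.eq_bot_or_eq_top with h | h
  · exfalso
    have : (⟨y, hy⟩ : alternatingGroup (D.X m)) ∈ N := hymem
    rw [h, Subgroup.mem_bot] at this
    exact hy1 (congrArg Subtype.val this)
  · have : (⟨x, hx⟩ : alternatingGroup (D.X m)) ∈ N := by rw [h]; exact Subgroup.mem_top _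
    exact this

end Pool.Agent.H6.PF
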