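import Pool.Agent.H6.PF3

namespace Pool.Agent.H6.PF

open Equiv Equiv.Perm

variable {kk : ℕ} (D : GD kk)

theorem GD.fin_mem (N : ℕ) : ∀ g : (∀ n, Perm (D.X n)), (∀ n, g n ∈ alternatingGroup (D.X n)) →
    (∀ n, N ≤ n → g n = 1) → g ∈ D.G := by
  induction N with
  | zero =>
    intro g _ h
    have : g = 1 := by funext n; exact h n (Nat.zero_le _)
    rw [this]
    exact D.G.one_mem
  | succ N ih =>
    intro g hg h
    have e : g = (g * (Pi.mulSingle N (g N))⁻¹) * Pi.mulSingle N (g N) := by group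
    rw [e]
    refine D.G.mul_mem (ih _ ?_ ?_) (D.single_mem N (hg N))
    · intro n
      by_cases hn : n = N
      · subst hn
        simp
      · simp [Pi.mulSingle_eq_of_ne hn, hg n]
    · intro n hn
      by_cases hn' : n = N
      · subst hn'
        simp
      · rw [Pi.mul_apply, Pi.inv_apply, Pi.mulSingle_eq_of_ne hn', inv_one, mul_one]
        exact h n (by omega)

section
variable {F : Type} [Group F] (φ : D.G →* F)
  (hφ : ∀ (m : ℕ) (x : Perm (D.X m)) (hx : x ∈ alternatingGroup (D.X m)),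
    φ ⟨Pi.mulSingle m x, D.single_mem m hx⟩ = 1)
include hφ

theorem GD.kill_fin (N : ℕ) : ∀ g : D.G, (∀ n, N ≤ n → g.1 n = 1) → φ g = 1 := by
  induction N with
  | zero =>
    intro g h
    have : g = 1 := by ext n : 2; exact h n (Nat.zero_le _)
    rw [this, map_one]
  | succ N ih =>
    intro g h
    set s : D.G := ⟨Pi.mulSingle N (g.1 N), D.single_mem N (D.G_alt g.2 N)⟩ with hs
    have e : g = (g * s⁻¹) * s := by group
    rw [e, map_mul, hφ N _ (D.G_alt g.2 N), mul_one]
    apply ih
    intro n hn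
    by_cases hn' : n = N
    · subst hn'
      simp [hs]
    · show g.1 n * ((Pi.mulSingle N (g.1 N) : ∀ n, Perm (D.X n)) n)⁻¹ = 1
      rw [Pi.mulSingle_eq_of_ne hn', inv_one, mul_one]
      exact h n (by omega)

theorem GD.kill [Finite F] (g : D.G) : φ g = 1 := by
  have hT : ∀ h : D.H, φ ⟨D.T h, D.T_mem h⟩ = 1 := by
    have := D.noq F (φ.comp (D.T.codRestrict D.G D.T_mem)) (by
      rintro h ⟨N, hN⟩
      exact D.kill_fin φ hφ N _ (fun n hn => D.T_one_of (hN n hn)))
    exact this
  obtain ⟨s0, hs0⟩ : ∃ s, s ∈ D.S := by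
    by_contra hcon
    push Not at hcon
    have hempty : (D.S : Set D.H) = ∅ := by
      ext s; simp [hcon s]
    obtain ⟨h, hh⟩ := D.sep 0
    have h1 : h ∈ Subgroup.closure (D.S : Set D.H) := by rw [D.gen]; exact Subgroup.mem_top _
    rw [hempty, Subgroup.closure_empty, Subgroup.mem_bot] at h1
    have := (hh 1).1 (by rw [h1, map_one])
    omega
  set JG : alternatingGroup (Fin 6) →* D.G :=
    (D.J.comp (alternatingGroup (Fin 6)).subtype).codRestrict D.G (fun a => D.J_mem a.2) with hJG
  have hcomm : ∀ a b : alternatingGroup (Fin 6), φ (JG a) * φ (JG b) = φ (JG b) * φ (JG a) := by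
    intro a b
    set t : D.G := ⟨D.T s0, D.T_mem s0⟩ with ht
    have h1 : JG a * (t * JG b * t⁻¹) = (t * JG b * t⁻¹) * JG a := by
      ext n : 2
      exact D.W_comm s0 a b n (D.ne1 s0 hs0 n)
    have h2 := congrArg φ h1
    simp only [map_mul, map_inv, ht, hT s0] at h2
    simpa using h2
  have hJ : ∀ a : alternatingGroup (Fin 6), φ (JG a) = 1 := by
    haveI : IsSimpleGroup (alternatingGroup (Fin 6)) := alternatingGroup.isSimpleGroup (by simp)
    have hker : (φ.comp JG).ker = ⊥ ∨ (φ.comp JG).ker = ⊤ :=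
      (MonoidHom.normal_ker _).eq_bot_or_eq_top
    rcases hker with h | h
    · exfalso
      set a : alternatingGroup (Fin 6) := ⟨cyc 0 1 2, cyc_alt (by decide) (by decide) (by decide)⟩
      set b : alternatingGroup (Fin 6) := ⟨cyc 0 1 3, cyc_alt (by decide) (by decide) (by decide)⟩
      have h1 : a * b * a⁻¹ * b⁻¹ ∈ (φ.comp JG).ker := by
        rw [MonoidHom.mem_ker, MonoidHom.comp_apply]
        simp only [map_mul, map_inv]
        rw [hcomm a b]
        group
      rw [h, Subgroup.mem_bot] at h1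
      exact comm_ne (congrArg Subtype.val h1)
    · intro a
      have : a ∈ (φ.comp JG).ker := by rw [h]; exact Subgroup.mem_top _
      exact this
  have hC : ∀ s (hs : s ∈ D.S), φ ⟨D.C s, D.C_mem hs⟩ = 1 := by
    intro s hs
    set c : D.G := ⟨D.C s, D.C_mem hs⟩ with hc
    have hamem : (swap (0 : Fin 6) 1 * swap 2 3 : Perm (Fin 6)) ∈ alternatingGroup (Fin 6) := by
      exact mul_mem_alternatingGroup_of_isSwap ⟨0, 1, by decide, rfl⟩ ⟨2, 3, by decide, rfl⟩
    set a : alternatingGroup (Fin 6) := ⟨swap 0 1 * swap 2 3, hamem⟩ with ha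
    have h1 : JG a * c * (JG a)⁻¹ = c⁻¹ := by
      ext n : 2
      show D.J (swap 0 1 * swap 2 3) n * D.C s n * (D.J (swap 0 1 * swap 2 3) n)⁻¹ = (D.C s n)⁻¹
      rw [GD.C, cyc_conj, cyc_inv, D.J_apply_eq, D.J_apply_eq, D.J_apply_ne _ _ (D.ne1 s hs n)]
      have e0 : (swap (0 : Fin 6) 1 * swap 2 3 : Perm (Fin 6)) 0 = 1 := by decide
      have e1 : (swap (0 : Fin 6) 1 * swap 2 3 : Perm (Fin 6)) 1 = 0 := by decide
      rw [e0, e1]
      have n1 : ((1, 0) : D.X n) ≠ (D.ρ n s, 0) := fun e => D.ne1 s hs n (congrArg Prod.fst e).symm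
      have n2 : ((1, 1) : D.X n) ≠ (D.ρ n s, 0) := fun e => D.ne1 s hs n (congrArg Prod.fst e).symm
      have n3 : ((1, 0) : D.X n) ≠ (1, 1) := by
        intro e
        have := congrArg Prod.snd e
        simp at this
      rw [cyc_rot n1 n3 n2.symm, cyc_rot n2.symm n1.symm n3.symm]
    have h2 := congrArg φ h1
    rw [map_mul, map_mul, map_inv, map_inv, hJ a] at h2
    have h3 : φ c * φ c = 1 := by
      rw [one_mul, inv_one, mul_one] at h2
      nth_rewrite 2 [h2]
      exact mul_inv_cancel _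
    have h4 : c ^ 3 = 1 := by
      ext n : 2
      show (D.C s n) ^ 3 = 1
      have h5 : (D.C s n).IsThreeCycle := by
        apply isThreeCycle_swap_mul_swap_same
        · intro e
          have := congrArg Prod.snd e
          simp at this
        · exact fun e => D.ne1 s hs n (congrArg Prod.fst e).symm
        · exact fun e => D.ne1 s hs n (congrArg Prod.fst e).symm
      rw [← h5.orderOf]
      exact pow_orderOf_eq_one _
    have h5 : (φ c) ^ 3 = 1 := by rw [← map_pow, h4, map_one]
    calc φ c = (φ c) ^ 3 * (φ c * φ c)⁻¹ := by group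
      _ = 1 := by rw [h5, h3]; simp
  have hall : ∀ (x : ∀ n, Perm (D.X n)) (hx : x ∈ Subgroup.closure D.gens), φ ⟨x, hx⟩ = 1 := by
    intro x hx
    induction hx using Subgroup.closure_induction with
    | mem x hx =>
      rcases hx with (⟨s, _, rfl⟩ | ⟨a, ha, rfl⟩) | ⟨s, hs, rfl⟩
      · exact hT s
      · exact hJ ⟨a, ha⟩
      · exact hC s hs
    | one => exact map_one φ
    | mul x y hx hy h1 h2 =>
      have : (⟨x * y, mul_mem hx hy⟩ : D.G) = (⟨x, hx⟩ : D.G) * ⟨y, hy⟩ := rfl
      rw [this, map_mul, h1, h2, one_mul]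
    | inv x hx h1 =>
      have : (⟨x⁻¹, inv_mem hx⟩ : D.G) = (⟨x, hx⟩ : D.G)⁻¹ := rfl
      rw [this, map_inv, h1, inv_one]
  exact hall g.1 g.2

end

/-- every finite quotient is generated by at most four elements -/
theorem GD.quot_gen (F : Type) [Group F] [Finite F] (φ : D.G →* F) (hs : Function.Surjective φ) :
    ∃ S : Finset F, S.card ≤ 4 ∧ Subgroup.closure (S : Set F) = ⊤ := by
  classical
  haveI := Fintype.ofFinite F
  set DS : Subgroup D.G :=
    { carrier := {g | ∃ N : ℕ, ∀ n, N ≤ n → g.1 n = 1}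
      one_mem' := ⟨0, fun _ _ => rfl⟩
      mul_mem' := by
        rintro a b ⟨N, hN⟩ ⟨M, hM⟩
        refine ⟨max N M, fun n hn => ?_⟩
        show a.1 n * b.1 n = 1
        rw [hN n (le_trans (le_max_left _ _) hn), hM n (le_trans (le_max_right _ _) hn), one_mul]
      inv_mem' := by
        rintro a ⟨N, hN⟩
        refine ⟨N, fun n hn => ?_⟩
        show (a.1 n)⁻¹ = 1
        rw [hN n hn, inv_one] } with hDS
  have hDSn : DS.Normal := by
    constructor
    rintro a ⟨N, hN⟩ g
    refine ⟨N, fun n hn => ?_⟩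
    show g.1 n * a.1 n * (g.1 n)⁻¹ = 1
    rw [hN n hn]
    group
  haveI hEn : (DS.map φ).Normal := hDSn.map φ hs
  have hE : ∀ g : D.G, φ g ∈ DS.map φ := by
    intro g
    have := D.kill ((QuotientGroup.mk' (DS.map φ)).comp φ) (by
      intro m x hx
      rw [MonoidHom.comp_apply, QuotientGroup.mk'_apply, QuotientGroup.eq_one_iff]
      refine ⟨_, ⟨m + 1, fun n hn => ?_⟩, rfl⟩
      exact Pi.mulSingle_eq_of_ne (by omega) _) g
    rw [MonoidHom.comp_apply, QuotientGroup.mk'_apply, QuotientGroup.eq_one_iff] at this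
    exact this
  have hN : ∀ f : F, ∃ N : ℕ, ∃ g : D.G, (∀ n, N ≤ n → g.1 n = 1) ∧ φ g = f := by
    intro f
    obtain ⟨g, rfl⟩ := hs f
    obtain ⟨g', ⟨N, hN⟩, he⟩ := hE g
    exact ⟨N, g', hN, he⟩
  choose Nf gf hgf hφgf using hN
  set M := Finset.univ.sup Nf with hM
  obtain ⟨a, ha⟩ := prod_gen (fun i : Fin M => D.X i) (fun i => D.five_le i) (by
    intro i j hij e
    rw [D.card_X, D.card_X] at e
    apply hij
    ext
    exact D.mono.injective (Nat.eq_of_mul_eq_mul_right (by norm_num) e))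
  set exf : (∀ i : Fin M, alternatingGroup (D.X i)) → ∀ n, Perm (D.X n) :=
    fun f n => if h : n < M then ((f ⟨n, h⟩ : alternatingGroup (D.X n)) : Perm (D.X n)) else 1 with hexf
  have hexfmem : ∀ f, exf f ∈ D.G := by
    intro f
    apply D.fin_mem M
    · intro n
      simp only [hexf]
      split_ifs with h
      · exact (f ⟨n, h⟩).2
      · exact Subgroup.one_mem _
    · intro n hn
      simp only [hexf]
      rw [dif_neg (by omega)]
  set Ψ : (∀ i : Fin M, alternatingGroup (D.X i)) →* D.G :=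
    { toFun := fun f => ⟨exf f, hexfmem f⟩
      map_one' := by
        ext n : 2
        simp only [hexf]
        split_ifs <;> rfl
      map_mul' := by
        intro f g
        ext n : 2
        show exf (f * g) n = exf f n * exf g n
        simp only [hexf]
        split_ifs
        · rfl
        · simp } with hΨ
  have hsurj : Function.Surjective (φ.comp Ψ) := by
    intro f
    have hle : Nf f ≤ M := Finset.le_sup (Finset.mem_univ f)
    refine ⟨fun i => ⟨(gf f).1 i, D.G_alt (gf f).2 i⟩, ?_⟩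
    rw [MonoidHom.comp_apply]
    have : Ψ (fun i => ⟨(gf f).1 i, D.G_alt (gf f).2 i⟩) = gf f := by
      ext n : 2
      show exf (fun i => ⟨(gf f).1 i, D.G_alt (gf f).2 i⟩) n = (gf f).1 n
      simp only [hexf]
      split_ifs with h
      · rfl
      · exact (hgf f n (by omega)).symm
    rw [this, hφgf]
  refine ⟨Finset.univ.image (fun i => φ (Ψ (a i))), Finset.card_image_le.trans (by simp), ?_⟩
  have e1 : ((Finset.univ.image (fun i => φ (Ψ (a i))) : Finset F) : Set F) =
      (φ.comp Ψ) '' Set.range a := by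
    ext f
    simp
  rw [e1, ← MonoidHom.map_closure, ha]
  exact Subgroup.map_top_of_surjective _ hsurj

theorem GD.fg : Group.FG D.G := by
  rw [Group.fg_iff_subgroup_fg]
  exact ⟨D.gens_finite.toFinset, by rw [Set.Finite.coe_toFinset]; rfl⟩

theorem GD.rf (g : D.G) (hg : g ≠ 1) : ∃ N : Subgroup D.G, N.Normal ∧ N.FiniteIndex ∧ g ∉ N := by
  have : ∃ n, g.1 n ≠ 1 := by
    by_contra hcon
    push Not at hcon
    exact hg (by ext n : 2; exact hcon n)
  obtain ⟨n, hn⟩ := this
  set f : D.G →* Perm (D.X n) := (Pi.evalMonoidHom (fun n => Perm (D.X n)) n).comp D.G.subtype with hf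
  refine ⟨f.ker, inferInstance, inferInstance, ?_⟩
  rw [MonoidHom.mem_ker]
  exact hn

/-- some finite quotient is not cyclic -/
theorem GD.not_cyclic : ∃ (Q : Type) (_ : Group Q) (_ : Finite Q) (f : D.G →* Q),
    Function.Surjective f ∧ ∀ S : Finset Q, S.card ≤ 1 → Subgroup.closure (S : Set Q) ≠ ⊤ := by
  refine ⟨alternatingGroup (D.X 0), inferInstance, inferInstance,
    ((Pi.evalMonoidHom (fun n => Perm (D.X n)) 0).comp D.G.subtype).codRestrict _
      (fun g => D.G_alt g.2 0), ?_, ?_⟩
  · rintro ⟨x, hx⟩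
    obtain ⟨g, hg, rfl⟩ := D.proj 0 hx
    exact ⟨⟨g, hg⟩, rfl⟩
  · intro S hS htop
    rw [Finset.card_le_one_iff_subset_singleton] at hS
    obtain ⟨x, hx⟩ := hS
    have h1 : Subgroup.zpowers x = ⊤ := by
      rw [eq_top_iff, ← htop, Subgroup.closure_le]
      intro y hy
      have := hx hy
      rw [Finset.mem_singleton] at this
      rw [this]
      exact Subgroup.mem_zpowers x
    have hc : ∀ a b : alternatingGroup (D.X 0), a * b = b * a := by
      intro a b
      have ha : a ∈ Subgroup.zpowers x := by rw [h1]; exact Subgroup.mem_top _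
      have hb : b ∈ Subgroup.zpowers x := by rw [h1]; exact Subgroup.mem_top _
      obtain ⟨i, rfl⟩ := Subgroup.mem_zpowers_iff.1 ha
      obtain ⟨j, rfl⟩ := Subgroup.mem_zpowers_iff.1 hb
      rw [← zpow_add, ← zpow_add, add_comm]
    have hc' : IsMulCommutative (alternatingGroup (D.X 0)) := ⟨⟨hc⟩⟩
    have := (alternatingGroup.isMulCommutative_iff_card_le_three (α := D.X 0)).1 hc'
    have := D.five_le 0
    omega

end Pool.Agent.H6.PF
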