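import Pool.Agent.H6.PF3

namespace Pool.Agent.H6.PF

open Equiv Equiv.Perm

variable {kk : ℕ} (D : GD kk)

/-- bounded support -/
def GD.NN : Subgroup (∀ n, Perm (D.X n)) where
  carrier := {g | ∃ B : ℕ, ∀ n, ∃ W : Finset (D.X n), W.card ≤ B ∧ ∀ x, x ∉ W → g n x = x}
  one_mem' := ⟨0, fun n => ⟨∅, by simp, fun x _ => rfl⟩⟩
  mul_mem' := by
    rintro a b ⟨B, hB⟩ ⟨C, hC⟩
    refine ⟨B + C, fun n => ?_⟩
    obtain ⟨W, hW, h1⟩ := hB n
    obtain ⟨V, hV, h2⟩ := hC n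
    refine ⟨W ∪ V, (Finset.card_union_le _ _).trans (by omega), fun x hx => ?_⟩
    rw [Finset.mem_union, not_or] at hx
    show a n (b n x) = x
    rw [h2 x hx.2, h1 x hx.1]
  inv_mem' := by
    rintro a ⟨B, hB⟩
    refine ⟨B, fun n => ?_⟩
    obtain ⟨W, hW, h1⟩ := hB n
    refine ⟨W, hW, fun x hx => ?_⟩
    show (a n)⁻¹ x = x
    rw [Perm.inv_eq_iff_eq]
    exact (h1 x hx).symm

instance GD.NN_normal : D.NN.Normal := by
  constructor
  rintro a ⟨B, hB⟩ g
  refine ⟨B, fun n => ?_⟩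
  obtain ⟨W, hW, h1⟩ := hB n
  refine ⟨W.image (g n), Finset.card_image_le.trans hW, fun x hx => ?_⟩
  show g n (a n ((g n)⁻¹ x)) = x
  have : (g n)⁻¹ x ∉ W := by
    intro hmem
    apply hx
    rw [Finset.mem_image]
    exact ⟨_, hmem, by simp⟩
  rw [h1 _ this]
  simp

theorem GD.G_le : D.G ≤ D.T.range ⊔ D.NN := by
  rw [GD.G, Subgroup.closure_le]
  rintro _ ((⟨s, _, rfl⟩ | ⟨a, _, rfl⟩) | ⟨s, _, rfl⟩)
  · exact (le_sup_left : D.T.range ≤ D.T.range ⊔ D.NN) ⟨s, rfl⟩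
  · apply (le_sup_right : D.NN ≤ D.T.range ⊔ D.NN)
    refine ⟨6, fun n => ⟨Finset.univ.image (fun c : Fin 6 => ((1, c) : D.X n)),
      Finset.card_image_le.trans (by simp), ?_⟩⟩
    rintro ⟨x, c⟩ hx
    apply D.J_apply_ne
    rintro rfl
    apply hx
    rw [Finset.mem_image]
    exact ⟨c, Finset.mem_univ _, rfl⟩
  · apply (le_sup_right : D.NN ≤ D.T.range ⊔ D.NN)
    refine ⟨3, fun n => ⟨{(1, 0), (1, 1), (D.ρ n s, 0)}, Finset.card_le_three, ?_⟩⟩
    intro x hx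
    simp only [Finset.mem_insert, Finset.mem_singleton, not_or] at hx
    exact cyc_apply_ne hx.1 hx.2.1 hx.2.2

theorem GD.low_bound (T0 : Finset D.G) (hT0 : Subgroup.closure (T0 : Set D.G) = ⊤) :
    kk ≤ T0.card := by
  classical
  have h1 : ∀ g : D.G, ∃ h : D.H, ∃ ν ∈ D.NN, D.T h * ν = g.1 := by
    intro g
    have := D.G_le g.2
    rw [Subgroup.mem_sup_of_normal_right] at this
    obtain ⟨_, ⟨h, rfl⟩, ν, hν, he⟩ := this
    exact ⟨h, ν, hν, he⟩
  choose hh hν using h1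
  set H' := Subgroup.closure ((T0.image hh : Finset D.H) : Set D.H) with hH'
  have h2 : ∀ g : D.G, g.1 ∈ H'.map D.T ⊔ D.NN := by
    have : Subgroup.closure (T0 : Set D.G) ≤ (H'.map D.T ⊔ D.NN).comap D.G.subtype := by
      rw [Subgroup.closure_le]
      intro g hg
      obtain ⟨ν, hν1, hν2⟩ := hν g
      show g.1 ∈ H'.map D.T ⊔ D.NN
      rw [← hν2]
      refine Subgroup.mul_mem _ ?_ ?_
      · apply (le_sup_left : H'.map D.T ≤ H'.map D.T ⊔ D.NN)
        refine ⟨hh g, Subgroup.subset_closure ?_, rfl⟩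
        rw [Finset.coe_image]
        exact ⟨g, hg, rfl⟩
      · exact (le_sup_right : D.NN ≤ H'.map D.T ⊔ D.NN) hν1
    intro g
    exact this (by rw [hT0]; exact Subgroup.mem_top _)
  have h3 : ∀ s : D.H, ∃ N : ℕ, ∀ n, N ≤ n → D.ρ n s ∈ H'.map (D.ρ n) := by
    intro s
    have := h2 ⟨D.T s, D.T_mem s⟩
    rw [Subgroup.mem_sup_of_normal_right] at this
    obtain ⟨_, ⟨h, hh', rfl⟩, ν, ⟨B, hB⟩, he⟩ := this
    refine ⟨B + 1, fun n hn => ?_⟩
    obtain ⟨W, hW, hfix⟩ := hB n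
    have hcard : n ≤ Nat.card (D.Q n) := D.mono.le_apply
    have hex : ∃ x : D.X n, x ∉ W := by
      by_contra hcon
      push Not at hcon
      have h5 : W = Finset.univ := by ext x; simp [hcon x]
      rw [h5, Finset.card_univ, ← Nat.card_eq_fintype_card, Nat.card_prod,
        Nat.card_eq_fintype_card (α := Fin 6), Fintype.card_fin] at hW
      omega
    obtain ⟨x, hx⟩ := hex
    have h6 := hfix x hx
    have h7 : D.T h n (ν n x) = D.T s n x := by
      exact congrArg (fun σ : Perm (D.X n) => σ x) (congrFun he n)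
    rw [h6, D.T_apply, D.T_apply] at h7
    have h8 : D.ρ n h = D.ρ n s := mul_right_cancel (congrArg Prod.fst h7)
    rw [← h8]
    exact ⟨h, hh', rfl⟩
  choose Ns hNs using h3
  set n := D.S.sup Ns with hn
  have h4 : H'.map (D.ρ n) = ⊤ := by
    have : Subgroup.closure (D.S : Set D.H) ≤ (H'.map (D.ρ n)).comap (D.ρ n) := by
      rw [Subgroup.closure_le]
      intro s hs
      exact hNs s n (Finset.le_sup hs)
    rw [Subgroup.eq_top_iff']
    intro x
    obtain ⟨g, rfl⟩ := D.surj n x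
    exact this (by rw [D.gen]; exact Subgroup.mem_top _)
  rw [hH', MonoidHom.map_closure, ← Finset.coe_image] at h4
  exact (D.low n _ h4).trans (Finset.card_image_le.trans Finset.card_image_le)

end Pool.Agent.H6.PF
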