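import Pool.Agent.H6.PF2

namespace Pool.Agent.H6.PF

open Matrix

section
variable {ι : Type} [Fintype ι] [DecidableEq ι] {B : Type} [Ring B]

/-- elementary matrices -/
def E (i j : ι) (h : i ≠ j) (r : B) : (Matrix ι ι B)ˣ where
  val := 1 + single i j r
  inv := 1 + single i j (-r)
  val_inv := by
    rw [add_mul, mul_add, mul_add, single_mul_single_of_ne _ _ _ _ h.symm]
    simp only [one_mul, mul_one, add_zero]
    rw [add_assoc, ← single_add]
    simp
  inv_val := by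
    rw [add_mul, mul_add, mul_add, single_mul_single_of_ne _ _ _ _ h.symm]
    simp only [one_mul, mul_one, add_zero]
    rw [add_assoc, ← single_add]
    simp

theorem E_val (i j : ι) (h : i ≠ j) (r : B) : (E i j h r).val = 1 + single i j r := rfl

theorem E_zero (i j : ι) (h : i ≠ j) : E i j h (0 : B) = 1 := by
  ext1
  rw [E_val, single_zero, add_zero]
  rfl

theorem E_add (i j : ι) (h : i ≠ j) (r s : B) : E i j h (r + s) = E i j h r * E i j h s := by
  ext1
  rw [Units.val_mul, E_val, E_val, E_val, add_mul, mul_add, mul_add,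
    single_mul_single_of_ne _ _ _ _ h.symm, single_add]
  simp only [one_mul, mul_one, add_zero]
  abel

theorem E_neg (i j : ι) (h : i ≠ j) (r : B) : E i j h (-r) = (E i j h r)⁻¹ := by
  rw [eq_inv_iff_mul_eq_one, ← E_add, neg_add_cancel, E_zero]

theorem E_comm {i j l : ι} (hij : i ≠ j) (hjl : j ≠ l) (hil : i ≠ l) (a b : B) :
    E i j hij a * E j l hjl b = E i l hil (a * b) * E j l hjl b * E i j hij a := by
  ext1
  simp only [Units.val_mul, E_val, add_mul, mul_add, one_mul, mul_one]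
  rw [single_mul_single_same, single_mul_single_of_ne _ _ _ _ hjl.symm,
    single_mul_single_of_ne _ _ _ _ hil.symm, zero_mul, single_mul_single_of_ne _ _ _ _ hil.symm]
  abel

theorem E_eq_one_iff (i j : ι) (h : i ≠ j) (r : B) : E i j h r = 1 ↔ r = 0 := by
  constructor
  · intro e
    have h1 : (E i j h r).val i j = (1 : Matrix ι ι B) i j := by rw [e]; rfl
    rw [E_val, Matrix.add_apply, Matrix.single_apply_same, Matrix.one_apply_ne h, zero_add] at h1
    exact h1
  · rintro rfl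
    exact E_zero i j h

/-- induced maps on matrix groups -/
def μ {A : Type} [Ring A] (π : A →+* B) : (Matrix ι ι A)ˣ →* (Matrix ι ι B)ˣ :=
  Units.map (π.mapMatrix : Matrix ι ι A →+* Matrix ι ι B).toMonoidHom

theorem μ_E {A : Type} [Ring A] (π : A →+* B) (i j : ι) (h : i ≠ j) (r : A) :
    μ π (E i j h r) = E i j h (π r) := by
  ext1
  show (π.mapMatrix : Matrix ι ι A →+* Matrix ι ι B) (1 + single i j r) = 1 + single i j (π r)
  rw [map_add, map_one]
  congr 1
  ext a b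
  simp only [RingHom.mapMatrix_apply, Matrix.map_apply, Matrix.single_apply]
  split_ifs <;> simp

end

/-- ring data -/
structure RD where
  A : Type
  [rA : Ring A]
  R : ℕ → Type
  [rR : ∀ n, Ring (R n)]
  [fR : ∀ n, Finite (R n)]
  [nR : ∀ n, Nontrivial (R n)]
  π : ∀ n, A →+* R n
  surj : ∀ n, Function.Surjective (π n)
  U : Finset A
  gen : Subring.closure (U : Set A) = ⊤
  ne0 : ∀ a ∈ U, ∀ n, π n a ≠ 0
  ideal : ∀ I : AddSubgroup A, (∀ a x, x ∈ I → a * x ∈ I) → (∀ a x, x ∈ I → x * a ∈ I) →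
    (∀ f : ℕ → A, ∃ s t, s < t ∧ f s - f t ∈ I) → (∀ x, (∃ N, ∀ n, N ≤ n → π n x = 0) → x ∈ I) →
    ∀ x, x ∈ I
  sep : ∀ m, ∃ a, ∀ n, π n a = 0 ↔ n ≤ m
  big : ∀ n, n ≤ Nat.card (R n)

attribute [instance] RD.rA RD.rR RD.fR RD.nR

variable (D : RD) (k : ℕ)

abbrev Ix (k : ℕ) : Type := Fin 3 ⊕ Fin k

/-- generators -/
def RD.hgens : Set (Matrix (Ix k) (Ix k) D.A)ˣ :=
  {x | ∃ (i : Fin 3) (j : Ix k) (h : Sum.inl i ≠ j) (r : D.A), x = E (Sum.inl i) j h r}

def RD.Hg : Subgroup (Matrix (Ix k) (Ix k) D.A)ˣ := Subgroup.closure (D.hgens k)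

def RD.EH (i : Fin 3) (j : Ix k) (h : Sum.inl i ≠ j) (r : D.A) : D.Hg k :=
  ⟨E (Sum.inl i) j h r, Subgroup.subset_closure ⟨i, j, h, r, rfl⟩⟩

theorem avoid (i : Fin 3) (l : Ix k) : ∃ j : Fin 3, j ≠ i ∧ (Sum.inl j : Ix k) ≠ l := by
  cases l with
  | inl l =>
    obtain ⟨j, h1, h2⟩ : ∃ j : Fin 3, j ≠ i ∧ j ≠ l := by revert i l; decide
    exact ⟨j, h1, fun e => h2 (Sum.inl.inj e)⟩
  | inr l =>
    obtain ⟨j, h1⟩ : ∃ j : Fin 3, j ≠ i := by revert i; decide
    exact ⟨j, h1, by simp⟩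

theorem RD.EH_comm {i j : Fin 3} {l : Ix k} (hij : (Sum.inl i : Ix k) ≠ Sum.inl j)
    (hjl : (Sum.inl j : Ix k) ≠ l) (hil : (Sum.inl i : Ix k) ≠ l) (a b : D.A) :
    D.EH k i (Sum.inl j) hij a * D.EH k j l hjl b =
      D.EH k i l hil (a * b) * D.EH k j l hjl b * D.EH k i (Sum.inl j) hij a :=
  Subtype.ext (E_comm hij hjl hil a b)

theorem RD.EH_add (i : Fin 3) (j : Ix k) (h : Sum.inl i ≠ j) (r s : D.A) :
    D.EH k i j h (r + s) = D.EH k i j h r * D.EH k i j h s := Subtype.ext (E_add _ _ h _ _)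

theorem RD.EH_neg (i : Fin 3) (j : Ix k) (h : Sum.inl i ≠ j) (r : D.A) :
    D.EH k i j h (-r) = (D.EH k i j h r)⁻¹ := Subtype.ext (E_neg _ _ h _)

theorem RD.EH_zero (i : Fin 3) (j : Ix k) (h : Sum.inl i ≠ j) :
    D.EH k i j h 0 = 1 := Subtype.ext (E_zero _ _ h)

/-- induction over the group -/
theorem RD.Hg_le (C : Subgroup (D.Hg k))
    (h : ∀ (i : Fin 3) (j : Ix k) (hij : Sum.inl i ≠ j) (r : D.A), D.EH k i j hij r ∈ C) : C = ⊤ := by
  have : ∀ (x : (Matrix (Ix k) (Ix k) D.A)ˣ) (hx : x ∈ Subgroup.closure (D.hgens k)),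
      (⟨x, hx⟩ : D.Hg k) ∈ C := by
    intro x hx
    induction hx using Subgroup.closure_induction with
    | mem x hx =>
      obtain ⟨i, j, hij, r, rfl⟩ := hx
      exact h i j hij r
    | one => exact C.one_mem
    | mul x y hx hy h1 h2 => exact C.mul_mem h1 h2
    | inv x hx h1 => exact C.inv_mem h1
  rw [Subgroup.eq_top_iff']
  intro x
  exact this x.1 x.2

/-- the finite generating set -/
def RD.S0 : Set (D.Hg k) :=
  {x | ∃ (i : Fin 3) (j : Ix k) (h : Sum.inl i ≠ j) (r : D.A), (r = 1 ∨ r ∈ D.U) ∧ x = D.EH k i j h r}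

theorem RD.S0_finite : (D.S0 k).Finite := by
  classical
  have : (Set.range (fun p : {p : Fin 3 × Ix k // (Sum.inl p.1 : Ix k) ≠ p.2} × (insert 1 D.U : Finset D.A) =>
      D.EH k p.1.1.1 p.1.1.2 p.1.2 p.2.1)).Finite := Set.finite_range _
  apply this.subset
  rintro x ⟨i, j, h, r, hr, rfl⟩
  refine ⟨⟨⟨(i, j), h⟩, ⟨r, ?_⟩⟩, rfl⟩
  rw [Finset.mem_insert]
  exact hr

theorem RD.S0_gen : Subgroup.closure (D.S0 k) = ⊤ := by
  set C := Subgroup.closure (D.S0 k) with hC
  apply D.Hg_le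
  set R0 : Subring D.A :=
    { carrier := {r | ∀ (i : Fin 3) (j : Ix k) (h : Sum.inl i ≠ j), D.EH k i j h r ∈ C}
      zero_mem' := fun i j h => by rw [D.EH_zero]; exact C.one_mem
      one_mem' := fun i j h => Subgroup.subset_closure ⟨i, j, h, 1, Or.inl rfl, rfl⟩
      add_mem' := fun {a b} ha hb i j h => by rw [D.EH_add]; exact C.mul_mem (ha i j h) (hb i j h)
      neg_mem' := fun {a} ha i j h => by rw [D.EH_neg]; exact C.inv_mem (ha i j h)
      mul_mem' := by
        intro a b ha hb i l hil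
        obtain ⟨j, hj1, hj2⟩ := avoid k i l
        have hij : (Sum.inl i : Ix k) ≠ Sum.inl j := fun e => hj1 (Sum.inl.inj e).symm
        have e := D.EH_comm k hij hj2 hil a b
        have e2 : D.EH k i l hil (a * b) = D.EH k i (Sum.inl j) hij a * D.EH k j l hj2 b *
            (D.EH k i (Sum.inl j) hij a)⁻¹ * (D.EH k j l hj2 b)⁻¹ := by
          rw [e]; group
        rw [e2]
        exact C.mul_mem (C.mul_mem (C.mul_mem (ha _ _ _) (hb _ _ _)) (C.inv_mem (ha _ _ _)))
          (C.inv_mem (hb _ _ _)) } with hR0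
  have hR : R0 = ⊤ := by
    rw [eq_top_iff, ← D.gen, Subring.closure_le]
    intro r hr i j h
    exact Subgroup.subset_closure ⟨i, j, h, r, Or.inr hr, rfl⟩
  intro i j hij r
  have : r ∈ R0 := by rw [hR]; exact Subring.mem_top _
  exact this i j hij

/-- no finite quotients -/
theorem RD.noquot (F : Type) [Group F] [Finite F] (φ : D.Hg k →* F)
    (hφ : ∀ h : D.Hg k, (∃ N, ∀ n, N ≤ n → μ (D.π n) h.1 = 1) → φ h = 1) (h : D.Hg k) : φ h = 1 := by
  have neq : ∀ {i j : Fin 3}, i ≠ j → (Sum.inl i : Ix k) ≠ Sum.inl j := fun h e => h (Sum.inl.inj e)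
  set I : AddSubgroup D.A :=
    { carrier := {r | ∀ (i j : Fin 3) (h : i ≠ j), φ (D.EH k i (Sum.inl j) (neq h) r) = 1}
      zero_mem' := fun i j h => by rw [D.EH_zero, map_one]
      add_mem' := fun {a b} ha hb i j h => by rw [D.EH_add, map_mul, ha i j h, hb i j h, one_mul]
      neg_mem' := fun {a} ha i j h => by rw [D.EH_neg, map_inv, ha i j h, inv_one] } with hI
  have hIall : ∀ x, x ∈ I := by
    apply D.ideal
    · intro a x hx i l hil
      obtain ⟨j, hj1, hj2⟩ : ∃ j : Fin 3, j ≠ i ∧ j ≠ l := by revert i l; decide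
      have e := congrArg φ (D.EH_comm k (neq hj1.symm) (neq hj2) (neq hil) a x)
      simp only [map_mul, hx j l hj2, mul_one] at e
      simpa using e
    · intro a x hx i l hil
      obtain ⟨j, hj1, hj2⟩ : ∃ j : Fin 3, j ≠ i ∧ j ≠ l := by revert i l; decide
      have e := congrArg φ (D.EH_comm k (neq hj1.symm) (neq hj2) (neq hil) x a)
      simp only [map_mul, hx i j hj1.symm, mul_one, one_mul] at e
      simpa using e
    · intro f
      obtain ⟨s, t, hst, he⟩ := Finite.exists_ne_map_eq_of_infinite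
        (fun s : ℕ => fun p : {p : Fin 3 × Fin 3 // p.1 ≠ p.2} =>
          φ (D.EH k p.1.1 (Sum.inl p.1.2) (neq p.2) (f s)))
      have hmem : ∀ s t : ℕ, (fun p : {p : Fin 3 × Fin 3 // p.1 ≠ p.2} =>
          φ (D.EH k p.1.1 (Sum.inl p.1.2) (neq p.2) (f s))) = (fun p : {p : Fin 3 × Fin 3 // p.1 ≠ p.2} =>
          φ (D.EH k p.1.1 (Sum.inl p.1.2) (neq p.2) (f t))) → f s - f t ∈ I := by
        intro s t he i j hij
        have := congrFun he ⟨(i, j), hij⟩
        rw [sub_eq_add_neg, D.EH_add, D.EH_neg, map_mul, map_inv]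
        simp only at this
        rw [this, mul_inv_cancel]
      rcases lt_or_gt_of_ne hst with h1 | h1
      · exact ⟨s, t, h1, hmem s t he⟩
      · exact ⟨t, s, h1, hmem t s he.symm⟩
    · rintro x ⟨N, hN⟩ i j hij
      apply hφ
      refine ⟨N, fun n hn => ?_⟩
      show μ (D.π n) (E _ _ (neq hij) x) = 1
      rw [μ_E, hN n hn, E_zero]
  have hker : φ.ker = ⊤ := by
    apply D.Hg_le
    intro i l hil r
    obtain ⟨j, hj1, hj2⟩ := avoid k i l
    rw [MonoidHom.mem_ker]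
    have e := congrArg φ (D.EH_comm k (neq hj1.symm) hj2 hil 1 r)
    simp only [map_mul, hIall 1 i j hj1.symm, mul_one, one_mul] at e
    simpa using e
  have : h ∈ φ.ker := by rw [hker]; exact Subgroup.mem_top _
  exact this

end Pool.Agent.H6.PF
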