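import Pool.Agent.H6.PF6

namespace Pool.Agent.H6.PF

open Matrix

section
variable {k : ℕ} {B : Type} [Ring B]

/-- lower rows are those of the identity -/
def Low (x : Matrix (Ix k) (Ix k) B) : Prop := ∀ (a : Fin k) (y : Ix k), x (Sum.inr a) y = (1 : Matrix (Ix k) (Ix k) B) (Sum.inr a) y

def bA (x : Matrix (Ix k) (Ix k) B) : Matrix (Fin 3) (Fin 3) B := fun i j => x (Sum.inl i) (Sum.inl j)
def bB (x : Matrix (Ix k) (Ix k) B) : Matrix (Fin 3) (Fin k) B := fun i j => x (Sum.inl i) (Sum.inr j)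

theorem low_mul_row {x : Matrix (Ix k) (Ix k) B} (hx : Low x) (y : Matrix (Ix k) (Ix k) B) (a : Fin k)
    (b : Ix k) : (x * y) (Sum.inr a) b = y (Sum.inr a) b := by
  rw [Matrix.mul_apply]
  rw [Finset.sum_congr rfl (fun j _ => by rw [hx a j])]
  rw [← Matrix.mul_apply, one_mul]

theorem low_mul {x y : Matrix (Ix k) (Ix k) B} (hx : Low x) (hy : Low y) : Low (x * y) := by
  intro a b
  rw [low_mul_row hx, hy]

theorem bB_mul (x : Matrix (Ix k) (Ix k) B) {y : Matrix (Ix k) (Ix k) B} (hy : Low y) :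
    bB (x * y) = bA x * bB y + bB x := by
  ext i j
  rw [Matrix.add_apply, Matrix.mul_apply, bB, Matrix.mul_apply, Fintype.sum_sum_type]
  congr 1
  rw [Finset.sum_congr rfl (fun a _ => by rw [hy a (Sum.inr j)])]
  rw [Finset.sum_eq_single j]
  · rw [Matrix.one_apply_eq, mul_one]; rfl
  · intro b _ hb
    rw [Matrix.one_apply_ne (by simpa using hb), mul_zero]
  · simp

theorem low_E (i : Fin 3) (j : Ix k) (h : Sum.inl i ≠ j) (r : B) : Low (E (Sum.inl i) j h r).val := by
  intro a y
  rw [E_val, Matrix.add_apply, Matrix.single_apply_of_row_ne (by simp), add_zero]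

theorem bB_E (i : Fin 3) (j : Fin k) (r : B) :
    bB (E (Sum.inl i) (Sum.inr j : Ix k) (by simp) r).val = single i j r := by
  ext a b
  rw [bB, E_val, Matrix.add_apply, Matrix.one_apply_ne (by simp), zero_add]
  simp only [Matrix.single_apply, Sum.inl.injEq, Sum.inr.injEq]

end

variable (D : RD) (k : ℕ)

/-- the finite quotients -/
def RD.Hn (n : ℕ) : Subgroup (Matrix (Ix k) (Ix k) (D.R n))ˣ := (D.Hg k).map (μ (D.π n))

theorem RD.E_mem_Hn (n : ℕ) (i : Fin 3) (j : Ix k) (h : Sum.inl i ≠ j) (r : D.R n) :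
    E (Sum.inl i) j h r ∈ D.Hn k n := by
  obtain ⟨a, rfl⟩ := D.surj n r
  exact ⟨E (Sum.inl i) j h a, (D.EH k i j h a).2, μ_E _ _ _ _ _⟩

theorem RD.Hn_low (n : ℕ) {x : (Matrix (Ix k) (Ix k) (D.R n))ˣ} (hx : x ∈ D.Hn k n) : Low x.val := by
  set L : Subgroup (Matrix (Ix k) (Ix k) (D.R n))ˣ :=
    { carrier := {x | Low x.val}
      one_mem' := fun _ _ => rfl
      mul_mem' := fun {a b} ha hb => by
        show Low (a * b).val
        rw [Units.val_mul]; exact low_mul ha hb
      inv_mem' := fun {a} ha => by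
        intro i y
        have h1 : (a.val * (a⁻¹).val) (Sum.inr i) y = (1 : Matrix (Ix k) (Ix k) (D.R n)) (Sum.inr i) y := by
          rw [← Units.val_mul, mul_inv_cancel]; rfl
        rw [low_mul_row ha] at h1
        exact h1 } with hL
  have : D.Hn k n ≤ L := by
    rw [RD.Hn, Subgroup.map_le_iff_le_comap, RD.Hg, Subgroup.closure_le]
    rintro x ⟨i, j, h, r, rfl⟩
    show Low (μ (D.π n) (E (Sum.inl i) j h r)).val
    rw [μ_E]
    exact low_E _ _ _ _
  exact this hx

theorem RD.Hn_bound (n : ℕ) (T : Finset (D.Hn k n)) (hT : Subgroup.closure (T : Set (D.Hn k n)) = ⊤) :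
    k ≤ 3 * T.card := by
  classical
  have : Fintype (D.R n) := Fintype.ofFinite _
  set Φ : (T → Matrix (Fin 3) (Fin 3) (D.R n)) →+ Matrix (Fin 3) (Fin k) (D.R n) :=
    { toFun := fun C => ∑ t : T, C t * bB (t.1.1.val)
      map_zero' := by simp
      map_add' := by
        intro a b
        simp only [Pi.add_apply, Matrix.add_mul, Finset.sum_add_distrib] } with hΦ
  have hleft : ∀ (M : Matrix (Fin 3) (Fin 3) (D.R n)) (x : Matrix (Fin 3) (Fin k) (D.R n)),
      x ∈ Φ.range → M * x ∈ Φ.range := by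
    rintro M _ ⟨C, rfl⟩
    refine ⟨fun t => M * C t, ?_⟩
    show ∑ t : T, (M * C t) * bB (t.1.1.val) = M * ∑ t : T, C t * bB (t.1.1.val)
    rw [Matrix.mul_sum]
    simp only [Matrix.mul_assoc]
  set N' : Subgroup (D.Hn k n) :=
    { carrier := {x | bB x.1.val ∈ Φ.range}
      one_mem' := by
        show bB (1 : Matrix (Ix k) (Ix k) (D.R n)) ∈ Φ.range
        have : bB (1 : Matrix (Ix k) (Ix k) (D.R n)) = 0 := by
          ext i j
          exact Matrix.one_apply_ne (by simp)
        rw [this]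
        exact zero_mem _
      mul_mem' := fun {a b} ha hb => by
        show bB (a.1.val * b.1.val) ∈ Φ.range
        rw [bB_mul _ (D.Hn_low k n b.2)]
        exact add_mem (hleft _ _ hb) ha
      inv_mem' := fun {a} ha => by
        show bB (a⁻¹).1.val ∈ Φ.range
        have h1 : bB ((a⁻¹).1.val * a.1.val) = 0 := by
          have : (a⁻¹).1.val * a.1.val = 1 := by
            rw [← Units.val_mul]
            have : (a⁻¹).1 * a.1 = 1 := inv_mul_cancel _
            rw [this]; rfl
          rw [this]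
          ext i j
          exact Matrix.one_apply_ne (by simp)
        rw [bB_mul _ (D.Hn_low k n a.2)] at h1
        rw [eq_neg_of_add_eq_zero_right h1]
        exact neg_mem (hleft _ _ ha) } with hN'
  have hN'top : N' = ⊤ := by
    rw [eq_top_iff, ← hT, Subgroup.closure_le]
    intro t ht
    refine ⟨Pi.single ⟨t, ht⟩ 1, ?_⟩
    show ∑ s : T, (Pi.single ⟨t, ht⟩ 1 : T → Matrix (Fin 3) (Fin 3) (D.R n)) s * bB (s.1.1.val) = _
    rw [Finset.sum_eq_single ⟨t, ht⟩]
    · rw [Pi.single_eq_same, Matrix.one_mul]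
    · intro b _ hb
      rw [Pi.single_eq_of_ne hb, Matrix.zero_mul]
    · simp
  have hsurj : Function.Surjective Φ := by
    intro M
    have : M ∈ Φ.range := by
      rw [matrix_eq_sum_single M]
      apply sum_mem
      intro i _
      apply sum_mem
      intro j _
      have : (⟨E (Sum.inl i) (Sum.inr j : Ix k) (by simp) (M i j), D.E_mem_Hn k n _ _ _ _⟩ : D.Hn k n) ∈ N' := by
        rw [hN'top]; exact Subgroup.mem_top _
      have h2 : bB (E (Sum.inl i) (Sum.inr j : Ix k) (by simp) (M i j)).val ∈ Φ.range := this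
      rw [bB_E] at h2
      exact h2
    exact this
  have hcard := Nat.card_le_card_of_surjective Φ hsurj
  have e1 : Nat.card (Matrix (Fin 3) (Fin k) (D.R n)) = (Nat.card (D.R n)) ^ (3 * k) := by
    show Nat.card (Fin 3 → Fin k → D.R n) = _
    rw [Nat.card_fun, Nat.card_fun, Nat.card_eq_fintype_card (α := Fin 3),
      Nat.card_eq_fintype_card (α := Fin k), Fintype.card_fin, Fintype.card_fin, ← pow_mul, mul_comm]
  have e2 : Nat.card (T → Matrix (Fin 3) (Fin 3) (D.R n)) = (Nat.card (D.R n)) ^ (9 * T.card) := by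
    show Nat.card (T → Fin 3 → Fin 3 → D.R n) = _
    rw [Nat.card_fun, Nat.card_fun, Nat.card_fun, Nat.card_eq_fintype_card (α := Fin 3),
      Nat.card_eq_fintype_card (α := T), Fintype.card_fin, Fintype.card_coe, ← pow_mul, ← pow_mul]
    congr 1
    ring
  rw [e1, e2] at hcard
  have h1 : 1 < Nat.card (D.R n) := Finite.one_lt_card
  have := (Nat.pow_le_pow_iff_right h1).1 hcard
  omega

theorem RD.card_Hn (n : ℕ) : n ≤ Nat.card (D.Hn k n) := by
  refine (D.big n).trans ?_
  have h01 : (Sum.inl 0 : Ix k) ≠ Sum.inl 1 := by simp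
  apply Nat.card_le_card_of_injective
    (fun r : D.R n => (⟨E (Sum.inl 0) (Sum.inl 1) h01 r, D.E_mem_Hn k n _ _ _ _⟩ : D.Hn k n))
  intro r s h
  have h1 : E (Sum.inl 0 : Ix k) (Sum.inl 1) h01 r = E (Sum.inl 0) (Sum.inl 1) h01 s :=
    congrArg Subtype.val h
  have h2 : E (Sum.inl 0 : Ix k) (Sum.inl 1) h01 (r - s) = 1 := by
    rw [sub_eq_add_neg, E_add, E_neg, h1, mul_inv_cancel]
  rw [E_eq_one_iff] at h2
  exact sub_eq_zero.1 h2

/-- group data from ring data -/
theorem RD.toGD (D : RD) (kk : ℕ) : Nonempty (GD kk) := by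
  classical
  have htend : Filter.Tendsto (fun n => Nat.card (D.Hn (3 * kk) n)) Filter.atTop Filter.atTop :=
    Filter.tendsto_atTop_mono (fun n => D.card_Hn (3 * kk) n) Filter.tendsto_id
  obtain ⟨θ, hθ, hmono⟩ := Filter.strictMono_subseq_of_tendsto_atTop htend
  refine ⟨
    { H := D.Hg (3 * kk)
      Q := fun n => D.Hn (3 * kk) (θ n)
      fQ := fun n => Fintype.ofFinite _
      dQ := fun n => Classical.decEq _
      ρ := fun n => (μ (D.π (θ n))).subgroupMap (D.Hg (3 * kk))
      surj := fun n => MonoidHom.subgroupMap_surjective _ _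
      S := (D.S0_finite (3 * kk)).toFinset
      gen := by rw [Set.Finite.coe_toFinset]; exact D.S0_gen _
      ne1 := ?_
      noq := ?_
      sep := ?_
      low := ?_
      mono := hmono }⟩
  · intro s hs n h1
    rw [Set.Finite.mem_toFinset] at hs
    obtain ⟨i, j, h, r, hr, rfl⟩ := hs
    have h2 : μ (D.π (θ n)) (E (Sum.inl i) j h r) = 1 := congrArg Subtype.val h1
    rw [μ_E, E_eq_one_iff] at h2
    rcases hr with rfl | hr
    · rw [map_one] at h2
      exact one_ne_zero h2
    · exact D.ne0 r hr _ h2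
  · intro F _ _ φ hφ
    apply D.noquot
    rintro h ⟨N, hN⟩
    apply hφ
    refine ⟨N, fun n hn => ?_⟩
    apply Subtype.ext
    exact hN (θ n) (hn.trans (hθ.le_apply))
  · intro m
    obtain ⟨a, ha⟩ := D.sep (θ m)
    have h01 : (Sum.inl 0 : Ix (3 * kk)) ≠ Sum.inl 1 := by simp
    refine ⟨D.EH (3 * kk) 0 (Sum.inl 1) h01 a, fun n => ?_⟩
    rw [← hθ.le_iff_le, ← ha (θ n)]
    constructor
    · intro h1
      have h2 : μ (D.π (θ n)) (E (Sum.inl 0) (Sum.inl 1) h01 a) = 1 := congrArg Subtype.val h1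
      rw [μ_E, E_eq_one_iff] at h2
      exact h2
    · intro h1
      apply Subtype.ext
      show μ (D.π (θ n)) (E (Sum.inl 0) (Sum.inl 1) h01 a) = 1
      rw [μ_E, h1, E_zero]
  · intro n T hT
    have := D.Hn_bound (3 * kk) (θ n) T hT
    omega

end Pool.Agent.H6.PF
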