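import Pool.Agent.H6.PF6

namespace Pool.Agent.H6.PF

/-- functions on a finite cyclic group -/
abbrev V (n : ℕ) : Type := ZMod (2 ^ (n + 2)) → ZMod 2

instance (n : ℕ) : NeZero (2 ^ (n + 2)) := ⟨by positivity⟩

/-- the period doubling pattern -/
def w (n : ℕ) (j : ZMod (2 ^ (n + 2))) : ZMod 2 := ((padicValNat 2 (j.val + 2 ^ (n + 2)) : ℕ) : ZMod 2)

theorem w_int (n a : ℕ) (J : ℤ) (ha : a < n + 2) (h1 : (2 : ℤ) ^ a ∣ J) (h2 : ¬ (2 : ℤ) ^ (a + 1) ∣ J) :
    w n (J : ZMod (2 ^ (n + 2))) = (a : ZMod 2) := by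
  set j : ZMod (2 ^ (n + 2)) := (J : ZMod (2 ^ (n + 2))) with hj
  have h3 : ((2 ^ (n + 2) : ℕ) : ℤ) ∣ (j.val : ℤ) - J := by
    rw [← ZMod.intCast_eq_intCast_iff_dvd_sub]
    rw [← hj]
    simp
  have hN : ((2 ^ (n + 2) : ℕ) : ℤ) = 2 ^ (n + 2) := by push_cast; rfl
  rw [hN] at h3
  set x : ℕ := j.val + 2 ^ (n + 2) with hx
  have hx0 : x ≠ 0 := by
    have : 0 < 2 ^ (n + 2) := by positivity
    omega
  have hxz : (x : ℤ) = J + ((j.val : ℤ) - J) + 2 ^ (n + 2) := by
    rw [hx]; push_cast; ring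
  have d1 : (2 : ℤ) ^ a ∣ (x : ℤ) := by
    rw [hxz]
    exact dvd_add (dvd_add h1 ((pow_dvd_pow 2 (by omega)).trans h3)) (pow_dvd_pow 2 (by omega))
  have d2 : ¬ (2 : ℤ) ^ (a + 1) ∣ (x : ℤ) := by
    intro h
    apply h2
    have e : J = (x : ℤ) - ((j.val : ℤ) - J) - 2 ^ (n + 2) := by rw [hxz]; ring
    rw [e]
    exact dvd_sub (dvd_sub h ((pow_dvd_pow 2 (by omega)).trans h3)) (pow_dvd_pow 2 (by omega))
  have d1' : 2 ^ a ∣ x := by exact_mod_cast d1
  have d2' : ¬ 2 ^ (a + 1) ∣ x := by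
    intro h; apply d2; exact_mod_cast h
  rw [padicValNat_dvd_iff_le hx0] at d1' d2'
  have : padicValNat 2 x = a := by omega
  show ((padicValNat 2 x : ℕ) : ZMod 2) = a
  rw [this]

/-- shift -/
def uF (c : ∀ n, ZMod (2 ^ (n + 2))) : ∀ n, AddMonoid.End (V n) := fun n =>
  { toFun := fun f j => f (j + c n)
    map_zero' := rfl
    map_add' := fun _ _ => rfl }

/-- multiplication -/
def eF : ∀ n, AddMonoid.End (V n) := fun n =>
  { toFun := fun f j => w n j * f j
    map_zero' := by ext j; simp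
    map_add' := by intro f g; ext j; simp [mul_add] }

def uu : ∀ n, AddMonoid.End (V n) := uF (fun _ => 1)
def uv : ∀ n, AddMonoid.End (V n) := uF (fun _ => -1)

/-- the ring -/
def Ar : Subring (∀ n, AddMonoid.End (V n)) := Subring.closure {uu, uv, eF}

def uA : Ar := ⟨uu, Subring.subset_closure (by simp)⟩
def vA : Ar := ⟨uv, Subring.subset_closure (by simp)⟩
def eA : Ar := ⟨eF, Subring.subset_closure (by simp)⟩

theorem uA_apply (n : ℕ) (f : V n) (j : ZMod (2 ^ (n + 2))) : uA.1 n f j = f (j + 1) := rfl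
theorem vA_apply (n : ℕ) (f : V n) (j : ZMod (2 ^ (n + 2))) : vA.1 n f j = f (j + -1) := rfl
theorem eA_apply (n : ℕ) (f : V n) (j : ZMod (2 ^ (n + 2))) : eA.1 n f j = w n j * f j := rfl

theorem mulA_apply (a b : Ar) (n : ℕ) (f : V n) : (a * b).1 n f = a.1 n (b.1 n f) := rfl

theorem Ar_ext {a b : Ar} (h : ∀ n (f : V n) j, a.1 n f j = b.1 n f j) : a = b := by
  ext n : 2
  apply AddMonoidHom.ext
  intro f
  funext j
  exact h n f j

theorem uv_one : uA * vA = 1 := by
  apply Ar_ext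
  intro n f j
  rw [mulA_apply, uA_apply, vA_apply, add_neg_cancel_right]
  rfl

theorem vu_one : vA * uA = 1 := by
  apply Ar_ext
  intro n f j
  rw [mulA_apply, vA_apply, uA_apply, neg_add_cancel_right]
  rfl

theorem uA_pow (t n : ℕ) (f : V n) (j : ZMod (2 ^ (n + 2))) : (uA ^ t).1 n f j = f (j + t) := by
  induction t generalizing f j with
  | zero => simp
  | succ t ih =>
    have e : uA ^ (t + 1) = uA ^ t * uA := pow_succ _ _
    rw [e, mulA_apply, ih, uA_apply]
    push_cast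
    rw [add_assoc]

theorem vA_pow (t n : ℕ) (f : V n) (j : ZMod (2 ^ (n + 2))) : (vA ^ t).1 n f j = f (j - t) := by
  induction t generalizing f j with
  | zero => simp
  | succ t ih =>
    have e : vA ^ (t + 1) = vA ^ t * vA := pow_succ _ _
    rw [e, mulA_apply, ih, vA_apply]
    push_cast
    rw [← sub_eq_add_neg, sub_sub]

theorem conj_apply (t n : ℕ) (f : V n) (j : ZMod (2 ^ (n + 2))) :
    (vA ^ t * eA * uA ^ t).1 n f j = w n (j - t) * f j := by
  rw [mulA_apply, mulA_apply, vA_pow, eA_apply, uA_pow, sub_add_cancel]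

theorem subA_apply (a b : Ar) (n : ℕ) (f : V n) (j : ZMod (2 ^ (n + 2))) :
    (a - b).1 n f j = a.1 n f j - b.1 n f j := rfl

theorem oneA_apply (n : ℕ) (f : V n) (j : ZMod (2 ^ (n + 2))) : (1 : Ar).1 n f j = f j := rfl

/-- the arithmetic of the pattern -/
theorem pattern (d : ℕ) (hd : 0 < d) : ∃ L n1 : ℕ, ∀ n, n1 ≤ n → ∀ j : ZMod (2 ^ (n + 2)),
    ∃ i < L, w n (j - (i : ℕ)) - w n (j - (i : ℕ) - (d : ℕ)) = 1 := by
  obtain ⟨a, b, hb, hab⟩ := Nat.exists_eq_two_pow_mul_odd hd.ne'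
  refine ⟨2 ^ (a + 2), a, fun n hn j => ?_⟩
  set i : ℕ := (j.val + 2 ^ (a + 1)) % 2 ^ (a + 2) with hi
  refine ⟨i, Nat.mod_lt _ (by positivity), ?_⟩
  have h0 : (2 : ℤ) ^ (a + 2) ∣ ((j.val : ℤ) + 2 ^ (a + 1)) - i := by
    have := Nat.div_add_mod (j.val + 2 ^ (a + 1)) (2 ^ (a + 2))
    rw [← hi] at this
    refine ⟨(((j.val + 2 ^ (a + 1)) / 2 ^ (a + 2) : ℕ) : ℤ), ?_⟩
    have h2 : ((2 ^ (a + 2) * ((j.val + 2 ^ (a + 1)) / 2 ^ (a + 2)) + i : ℕ) : ℤ) =
      ((j.val + 2 ^ (a + 1) : ℕ) : ℤ) := by rw [this]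
    push_cast at h2 ⊢
    linarith
  obtain ⟨q, hq⟩ := h0
  set J : ℤ := (j.val : ℤ) - i with hJ
  have hJq : J = 2 ^ (a + 1) * (2 * q - 1) := by
    have : J = 2 ^ (a + 2) * q - 2 ^ (a + 1) := by rw [hJ]; linarith
    rw [this]; ring
  have e1 : j - (i : ℕ) = ((J : ℤ) : ZMod (2 ^ (n + 2))) := by
    rw [hJ]; push_cast; simp
  have e2 : j - (i : ℕ) - (d : ℕ) = ((J - d : ℤ) : ZMod (2 ^ (n + 2))) := by
    rw [e1]; push_cast; rfl
  obtain ⟨c, hc⟩ := hb
  have hdz : (d : ℤ) = 2 ^ a * (2 * c + 1) := by rw [hab, hc]; push_cast; ring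
  have hp : (2 : ℤ) ^ a ≠ 0 := by positivity
  have w1 : w n (j - (i : ℕ)) = ((a + 1 : ℕ) : ZMod 2) := by
    rw [e1]
    apply w_int n (a + 1) J (by omega)
    · rw [hJq]; exact Dvd.intro _ rfl
    · rintro ⟨r, hr⟩
      rw [hJq] at hr
      have : (2 : ℤ) ^ (a + 1) * (2 * q - 1) = 2 ^ (a + 1) * (2 * r) := by rw [hr]; ring
      have := mul_left_cancel₀ (by positivity) this
      omega
  have w2 : w n (j - (i : ℕ) - (d : ℕ)) = ((a : ℕ) : ZMod 2) := by
    rw [e2]
    have hJd : J - d = 2 ^ a * (2 * (2 * q - 1) - (2 * c + 1)) := by rw [hJq, hdz]; ring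
    apply w_int n a (J - d) (by omega)
    · rw [hJd]; exact Dvd.intro _ rfl
    · rintro ⟨r, hr⟩
      rw [hJd] at hr
      have : (2 : ℤ) ^ a * (2 * (2 * q - 1) - (2 * c + 1)) = 2 ^ a * (2 * r) := by rw [hr]; ring
      have := mul_left_cancel₀ hp this
      omega
  rw [w1, w2]
  push_cast
  ring

/-- the unique ideal of finite index -/
theorem ideal_top (I : AddSubgroup Ar) (hl : ∀ a x, x ∈ I → a * x ∈ I) (hr : ∀ a x, x ∈ I → x * a ∈ I)
    (hf : ∀ f : ℕ → Ar, ∃ s t, s < t ∧ f s - f t ∈ I)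
    (hs : ∀ x : Ar, (∃ N, ∀ n, N ≤ n → x.1 n = 0) → x ∈ I) : ∀ x, x ∈ I := by
  obtain ⟨s, t, hst, hmem⟩ := hf (fun s => vA ^ s * eA * uA ^ s)
  obtain ⟨d, hd, rfl⟩ : ∃ d, 0 < d ∧ t = s + d := ⟨t - s, by omega, by omega⟩
  set g : Ar := uA ^ s * (vA ^ s * eA * uA ^ s - vA ^ (s + d) * eA * uA ^ (s + d)) * vA ^ s with hg
  have hgI : g ∈ I := hr _ _ (hl _ _ hmem)
  have hgv : ∀ n (f : V n) j, g.1 n f j = (w n j - w n (j - (d : ℕ))) * f j := by
    intro n f j
    rw [hg, mulA_apply, mulA_apply, uA_pow, subA_apply, conj_apply, conj_apply, vA_pow]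
    push_cast
    rw [add_sub_cancel_right, ← sub_sub, add_sub_cancel_right]
    ring
  obtain ⟨L, n1, hL⟩ := pattern d hd
  set y : ℕ → Ar := fun i => vA ^ i * g * uA ^ i with hy
  have hyI : ∀ i, y i ∈ I := fun i => hr _ _ (hl _ _ hgI)
  have hyv : ∀ i n (f : V n) j, (y i).1 n f j = (w n (j - (i : ℕ)) - w n (j - (i : ℕ) - (d : ℕ))) * f j := by
    intro i n f j
    rw [hy]
    simp only
    rw [mulA_apply, mulA_apply, vA_pow, hgv, uA_pow, sub_add_cancel]
  set P : ℕ → Ar := fun i => Nat.rec (motive := fun _ => Ar) 1 (fun i p => p * (1 - y i)) i with hP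
  have hP0 : P 0 = 1 := rfl
  have hPs : ∀ i, P (i + 1) = P i * (1 - y i) := fun i => rfl
  have hPI : ∀ i, 1 - P i ∈ I := by
    intro i
    induction i with
    | zero => rw [hP0, sub_self]; exact I.zero_mem
    | succ i ih =>
      rw [hPs]
      have : 1 - P i * (1 - y i) = (1 - P i) + P i * y i := by rw [mul_sub, mul_one]; abel
      rw [this]
      exact I.add_mem ih (hl _ _ (hyI i))
  have hPz : ∀ i n (j : ZMod (2 ^ (n + 2))),
      ∃ p : ZMod 2, (∀ f : V n, (P i).1 n f j = p * f j) ∧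
        ((∃ i' < i, w n (j - (i' : ℕ)) - w n (j - (i' : ℕ) - (d : ℕ)) = 1) → p = 0) := by
    intro i
    induction i with
    | zero =>
      intro n j
      refine ⟨1, fun f => by rw [hP0, oneA_apply, one_mul], ?_⟩
      rintro ⟨i', hi', _⟩
      omega
    | succ i ih =>
      intro n j
      obtain ⟨p, hp1, hp2⟩ := ih n j
      refine ⟨p * (1 - (w n (j - (i : ℕ)) - w n (j - (i : ℕ) - (d : ℕ)))), ?_, ?_⟩
      · intro f
        rw [hPs, mulA_apply, hp1, subA_apply, oneA_apply, hyv]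
        ring
      · rintro ⟨i', hi', he⟩
        by_cases h : i' = i
        · subst h
          rw [he, sub_self, mul_zero]
        · rw [hp2 ⟨i', by omega, he⟩, zero_mul]
  have hPL : P L ∈ I := by
    apply hs
    refine ⟨n1, fun n hn => ?_⟩
    apply AddMonoidHom.ext
    intro f
    funext j
    obtain ⟨p, hp1, hp2⟩ := hPz L n j
    refine (hp1 f).trans ?_
    rw [hp2 (hL n hn j), zero_mul]
    rfl
  have h1 : (1 : Ar) ∈ I := by
    have : (1 : Ar) = (1 - P L) + P L := by abel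
    rw [this]
    exact I.add_mem (hPI L) hPL
  intro x
  have := hl x 1 h1
  rwa [mul_one] at this

/-- coordinate maps -/
def πr (n : ℕ) : Ar →+* AddMonoid.End (V n) :=
  (Pi.evalRingHom (fun n => AddMonoid.End (V n)) n).comp Ar.subtype

theorem πr_apply (n : ℕ) (a : Ar) : πr n a = a.1 n := rfl

theorem uA_pow_inj (n s t : ℕ) (h : (uA ^ s).1 n = (uA ^ t).1 n) :
    (s : ZMod (2 ^ (n + 2))) = t := by
  classical
  have := congrArg (fun g : AddMonoid.End (V n) => g (fun j => if j = (s : ZMod (2 ^ (n + 2))) then 1 else 0) 0) h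
  simp only [uA_pow, zero_add, if_true] at this
  by_contra hne
  rw [if_neg (Ne.symm hne)] at this
  exact one_ne_zero this

theorem Ar_gen : Subring.closure ({uA, vA, eA} : Set Ar) = ⊤ := by
  have : ∀ (x : ∀ n, AddMonoid.End (V n)) (hx : x ∈ Subring.closure {uu, uv, eF}),
      (⟨x, hx⟩ : Ar) ∈ Subring.closure ({uA, vA, eA} : Set Ar) := by
    intro x hx
    induction hx using Subring.closure_induction with
    | mem x hx =>
      apply Subring.subset_closure
      rcases hx with rfl | rfl | rfl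
      · exact Or.inl rfl
      · exact Or.inr (Or.inl rfl)
      · exact Or.inr (Or.inr rfl)
    | zero => exact zero_mem _
    | one => exact one_mem _
    | add x y hx hy h1 h2 => exact add_mem h1 h2
    | neg x hx h1 => exact neg_mem h1
    | mul x y hx hy h1 h2 => exact mul_mem h1 h2
  rw [Subring.eq_top_iff']
  intro x
  exact this x.1 x.2

theorem π_zero_iff (n : ℕ) (a : Ar) : (πr n).rangeRestrict a = 0 ↔ a.1 n = 0 := by
  rw [← Subtype.val_inj]
  rfl

instance (n : ℕ) : Finite (AddMonoid.End (V n)) :=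
  Finite.of_injective (fun g : AddMonoid.End (V n) => (g : V n → V n)) DFunLike.coe_injective

theorem exists_RD : Nonempty RD := by
  classical
  have hnt : ∀ n, Nontrivial (AddMonoid.End (V n)) := by
    intro n
    refine ⟨1, 0, fun h => ?_⟩
    have := congrArg (fun g : AddMonoid.End (V n) => g (fun _ => 1) 0) h
    exact one_ne_zero this
  have hntR : ∀ n, Nontrivial (πr n).range := fun n => by
    haveI := hnt n
    infer_instance
  refine ⟨
    { A := Ar
      R := fun n => (πr n).range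
      fR := fun n => inferInstance
      nR := hntR
      π := fun n => (πr n).rangeRestrict
      surj := fun n => (πr n).rangeRestrict_surjective
      U := {uA, vA, eA}
      gen := by
        have : (({uA, vA, eA} : Finset Ar) : Set Ar) = ({uA, vA, eA} : Set Ar) := by simp
        rw [this]
        exact Ar_gen
      ne0 := ?_
      ideal := ?_
      sep := ?_
      big := ?_ }⟩
  · intro a ha n h
    rw [π_zero_iff] at h
    simp only [Finset.mem_insert, Finset.mem_singleton] at ha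
    rcases ha with rfl | rfl | rfl
    · have := congrArg (fun g : AddMonoid.End (V n) => g (fun _ => 1) 0) h
      exact one_ne_zero this
    · have := congrArg (fun g : AddMonoid.End (V n) => g (fun _ => 1) 0) h
      exact one_ne_zero this
    · have h1 := congrArg (fun g : AddMonoid.End (V n) => g (fun _ => 1) ((2 : ℤ) : ZMod (2 ^ (n + 2)))) h
      have h2 : w n ((2 : ℤ) : ZMod (2 ^ (n + 2))) = ((1 : ℕ) : ZMod 2) :=
        w_int n 1 2 (by omega) (by norm_num) (by norm_num)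
      have h3 : w n ((2 : ℤ) : ZMod (2 ^ (n + 2))) * 1 = 0 := h1
      rw [h2, mul_one, Nat.cast_one] at h3
      exact one_ne_zero h3
  · intro I hl hr hf hs
    apply ideal_top I hl hr hf
    rintro x ⟨N, hN⟩
    apply hs
    exact ⟨N, fun n hn => (π_zero_iff n x).2 (hN n hn)⟩
  · intro m
    refine ⟨uA ^ (2 ^ (m + 2)) - 1, fun n => ?_⟩
    rw [π_zero_iff]
    constructor
    · intro h
      have h1 : (uA ^ (2 ^ (m + 2))).1 n = (uA ^ 0).1 n := by
        rw [pow_zero]
        exact sub_eq_zero.1 h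
      have h2 := uA_pow_inj n _ _ h1
      rw [Nat.cast_zero, ZMod.natCast_eq_zero_iff] at h2
      have := (Nat.pow_dvd_pow_iff_le_right (by norm_num)).1 h2
      omega
    · intro h
      apply AddMonoidHom.ext
      intro f
      funext j
      show (uA ^ (2 ^ (m + 2)) - 1).1 n f j = 0
      rw [subA_apply, uA_pow, oneA_apply]
      have : ((2 ^ (m + 2) : ℕ) : ZMod (2 ^ (n + 2))) = 0 := by
        rw [ZMod.natCast_eq_zero_iff]
        exact pow_dvd_pow 2 (by omega)
      rw [this, add_zero, sub_self]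
  · intro n
    have hinj : Function.Injective (fun t : Fin (2 ^ (n + 2)) => (πr n).rangeRestrict (uA ^ (t : ℕ))) := by
      intro s t h
      have h1 : (uA ^ (s : ℕ)).1 n = (uA ^ (t : ℕ)).1 n := congrArg Subtype.val h
      have h2 := uA_pow_inj n _ _ h1
      rw [ZMod.natCast_eq_natCast_iff'] at h2
      rw [Nat.mod_eq_of_lt s.2, Nat.mod_eq_of_lt t.2] at h2
      exact Fin.ext h2
    have := Nat.card_le_card_of_injective _ hinj
    rw [Nat.card_eq_fintype_card, Fintype.card_fin] at this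
    have h3 : n < 2 ^ n := Nat.lt_two_pow_self
    have h4 : 2 ^ n ≤ 2 ^ (n + 2) := Nat.pow_le_pow_right (by norm_num) (by omega)
    omega

end Pool.Agent.H6.PF
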