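import Pool.Agent.H6.PF4
import Pool.Agent.H6.PF5
import Pool.Agent.H6.PF7
import Pool.Agent.H6.PF8

namespace Pool.Agent.H6.PF

theorem final :
    ¬ (∀ n : ℕ, 2 ≤ n → ∃ C : ℕ, ∀ (G : Type) [Group G], Group.FG G →
      (∀ g : G, g ≠ 1 → ∃ N : Subgroup G, N.Normal ∧ N.FiniteIndex ∧ g ∉ N) →
      (∀ (Q : Type) [Group Q] [Finite Q] (f : G →* Q), Function.Surjective f →
        ∃ S : Finset Q, S.card ≤ n ∧ Subgroup.closure (S : Set Q) = ⊤) →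
      (∃ (Q : Type) (_ : Group Q) (_ : Finite Q) (f : G →* Q), Function.Surjective f ∧
        ∀ S : Finset Q, S.card ≤ n - 1 → Subgroup.closure (S : Set Q) ≠ ⊤) →
      ∃ S : Finset G, S.card ≤ C ∧ Subgroup.closure (S : Set G) = ⊤) := by
  classical
  intro h
  obtain ⟨C2, h2⟩ := h 2 le_rfl
  obtain ⟨C3, h3⟩ := h 3 (by norm_num)
  obtain ⟨C4, h4⟩ := h 4 (by norm_num)
  obtain ⟨R⟩ := exists_RD
  obtain ⟨D⟩ := R.toGD (C2 + C3 + C4 + 1)
  have hlow : ∀ C, C ≤ C2 + C3 + C4 →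
      ¬ ∃ S : Finset D.G, S.card ≤ C ∧ Subgroup.closure (S : Set D.G) = ⊤ := by
    rintro C hC ⟨S, hS1, hS2⟩
    have := D.low_bound S hS2
    omega
  have hP4 := D.quot_gen
  by_cases hP3 : ∀ (Q : Type) [Group Q] [Finite Q] (f : D.G →* Q), Function.Surjective f →
        ∃ S : Finset Q, S.card ≤ 3 ∧ Subgroup.closure (S : Set Q) = ⊤
  · by_cases hP2 : ∀ (Q : Type) [Group Q] [Finite Q] (f : D.G →* Q), Function.Surjective f →
        ∃ S : Finset Q, S.card ≤ 2 ∧ Subgroup.closure (S : Set Q) = ⊤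
    · exact hlow C2 (by omega) (h2 D.G D.fg D.rf hP2 D.not_cyclic)
    · push Not at hP2
      obtain ⟨Q, i1, i2, f, hf, hS⟩ := hP2
      exact hlow C3 (by omega) (h3 D.G D.fg D.rf hP3 ⟨Q, i1, i2, f, hf, hS⟩)
  · push Not at hP3
    obtain ⟨Q, i1, i2, f, hf, hS⟩ := hP3
    exact hlow C4 (by omega) (h4 D.G D.fg D.rf hP4 ⟨Q, i1, i2, f, hf, hS⟩)

end Pool.Agent.H6.PF
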