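import Mathlib

namespace Pool.Agent.H6.RO

open LaurentPolynomial

/-- the centre-valued projection of a Laurent polynomial -/
noncomputable def proj (S : Set ℕ) (F : ℤ[T;T⁻¹]) : ℕ → ℤ := by
  classical
  exact fun k => if k ∈ S then 0 else F.coeff ((k : ℤ) + 1)

lemma proj_add (S : Set ℕ) (F G : ℤ[T;T⁻¹]) : proj S (F + G) = proj S F + proj S G := by
  funext k
  by_cases h : k ∈ S <;> simp [proj, h]

lemma proj_neg (S : Set ℕ) (F : ℤ[T;T⁻¹]) : proj S (-F) = - proj S F := by
  funext k
  by_cases h : k ∈ S <;> simp [proj, h]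

lemma proj_zero (S : Set ℕ) : proj S 0 = 0 := by
  funext k
  by_cases h : k ∈ S <;> simp [proj, h]

/-- The big group. -/
@[ext] structure Gam (S : Set ℕ) : Type where
  m : ℤ
  f : ℤ[T;T⁻¹]
  g : ℕ → ℤ

variable {S : Set ℕ}

noncomputable instance : Mul (Gam S) :=
  ⟨fun a b => ⟨a.m + b.m, a.f + T a.m * b.f,
    a.g + b.g + proj S (a.f * (T (-a.m) * invert b.f))⟩⟩

noncomputable instance : One (Gam S) := ⟨⟨0, 0, 0⟩⟩

noncomputable instance : Inv (Gam S) :=
  ⟨fun a => ⟨-a.m, -(T (-a.m) * a.f), -a.g + proj S (a.f * invert a.f)⟩⟩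

lemma mul_m (a b : Gam S) : (a * b).m = a.m + b.m := rfl
lemma mul_f (a b : Gam S) : (a * b).f = a.f + T a.m * b.f := rfl
lemma mul_g (a b : Gam S) :
    (a * b).g = a.g + b.g + proj S (a.f * (T (-a.m) * invert b.f)) := rfl
lemma one_m : (1 : Gam S).m = 0 := rfl
lemma one_f : (1 : Gam S).f = 0 := rfl
lemma one_g : (1 : Gam S).g = 0 := rfl
lemma inv_m (a : Gam S) : (a⁻¹).m = -a.m := rfl
lemma inv_f (a : Gam S) : (a⁻¹).f = -(T (-a.m) * a.f) := rfl
lemma inv_g (a : Gam S) : (a⁻¹).g = -a.g + proj S (a.f * invert a.f) := rfl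

noncomputable instance : Group (Gam S) :=
  Group.ofLeftAxioms
    (by
      intro a b c
      ext1
      · simp only [mul_m]; ring
      · simp only [mul_f, mul_m, T_add]; ring
      · simp only [mul_f, mul_m, mul_g]
        have h1 : (a.f + T a.m * b.f) * (T (-(a.m + b.m)) * invert c.f) =
            a.f * (T (-a.m) * (T (-b.m) * invert c.f)) + b.f * (T (-b.m) * invert c.f) := by
          have h2 : (T (-(a.m + b.m)) : ℤ[T;T⁻¹]) = T (-a.m) * T (-b.m) := by
            rw [← T_add]; congr 1; ring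
          have h3 : (T a.m : ℤ[T;T⁻¹]) * T (-a.m) = 1 := by
            rw [← T_add]; simp
          rw [h2]
          linear_combination (b.f * T (-b.m) * invert c.f) * h3
        have h4 : a.f * (T (-a.m) * invert (b.f + T b.m * c.f)) =
            a.f * (T (-a.m) * invert b.f) + a.f * (T (-a.m) * (T (-b.m) * invert c.f)) := by
          rw [map_add, map_mul, invert_T]; ring
        rw [h1, h4, proj_add, proj_add]
        abel)
    (by
      intro a
      ext1
      · simp [mul_m, one_m]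
      · simp [mul_f, one_m, one_f]
      · simp [mul_g, one_m, one_f, one_g, proj_zero])
    (by
      intro a
      ext1
      · simp [mul_m, inv_m, one_m]
      · simp [mul_f, inv_m, inv_f, one_f]
      · simp only [mul_g, inv_m, inv_f, inv_g, one_g, neg_neg]
        have h3 : (T (-a.m) : ℤ[T;T⁻¹]) * T (a.m) = 1 := by
            rw [← T_add]; simp
        have h4 : -(T (-a.m) * a.f) * (T a.m * invert a.f) = - (a.f * invert a.f) := by
          linear_combination (- (a.f * invert a.f)) * h3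
        rw [h4, proj_neg]
        abel)

/-- order embedding data -/
noncomputable def code (a : Gam S) : ℤ ×ₗ (Lex (ℤ →₀ ℤ)) ×ₗ (Lex (ℕ → ℤ)) :=
  toLex (a.m, toLex (toLex a.f.coeff, toLex a.g))

lemma code_inj : Function.Injective (code (S := S)) := by
  intro a b h
  simp only [code, toLex_inj, Prod.mk.injEq] at h
  obtain ⟨h1, h2, h3⟩ := h
  ext1
  · exact h1
  · exact AddMonoidAlgebra.coeff_injective h2
  · exact h3

lemma code_le (a b : Gam S) : code a ≤ code b ↔
    (a.m < b.m ∨ (a.m = b.m ∧ (toLex a.f.coeff < toLex b.f.coeff ∨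
      (a.f = b.f ∧ toLex a.g ≤ toLex b.g)))) := by
  simp only [code, Prod.Lex.toLex_le_toLex, toLex_inj]
  have : a.f.coeff = b.f.coeff ↔ a.f = b.f :=
    ⟨fun h => AddMonoidAlgebra.coeff_injective h, fun h => by rw [h]⟩
  rw [this]

lemma shift_lt (k : ℤ) {p q : ℤ[T;T⁻¹]} (h : toLex p.coeff < toLex q.coeff) :
    toLex (T k * p).coeff < toLex (T k * q).coeff := by
  rw [Finsupp.Lex.lt_iff] at h ⊢
  obtain ⟨i, h1, h2⟩ := h
  have key : ∀ (r : ℤ[T;T⁻¹]) (j : ℤ), (T k * r).coeff j = r.coeff (j - k) := by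
    intro r j
    rw [T, AddMonoidAlgebra.coeff_single_mul_apply, one_mul]
    congr 1; ring
  refine ⟨i + k, ?_, ?_⟩
  · intro j hj
    have := h1 (j - k) (by linarith)
    show (T k * p).coeff j = (T k * q).coeff j
    rw [key, key]; exact this
  · show (T k * p).coeff (i + k) < (T k * q).coeff (i + k)
    rw [key, key, add_sub_cancel_right]; exact h2

lemma right_mono (x y z : Gam S) (h : code x ≤ code y) : code (x * z) ≤ code (y * z) := by
  rw [code_le] at h ⊢
  simp only [mul_m, mul_f, mul_g]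
  rcases h with h | ⟨h1, h | ⟨h2, h⟩⟩
  · left; linarith
  · right
    refine ⟨by rw [h1], Or.inl ?_⟩
    rw [h1]
    exact add_lt_add_left h (toLex (T y.m * z.f).coeff)
  · right
    refine ⟨by rw [h1], Or.inr ⟨by rw [h1, h2], ?_⟩⟩
    rw [h1, h2]
    exact add_le_add_left (add_le_add_left h (toLex z.g)) _

lemma left_mono (x y z : Gam S) (h : code x ≤ code y) : code (z * x) ≤ code (z * y) := by
  rw [code_le] at h ⊢
  simp only [mul_m, mul_f, mul_g]
  rcases h with h | ⟨h1, h | ⟨h2, h⟩⟩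
  · left; linarith
  · right
    refine ⟨by rw [h1], Or.inl ?_⟩
    exact add_lt_add_right (shift_lt z.m h) (toLex z.f.coeff)
  · right
    refine ⟨by rw [h1], Or.inr ⟨by rw [h2], ?_⟩⟩
    rw [h2]
    exact add_le_add_left (add_le_add_right h (toLex z.g)) _

/-- generators -/
noncomputable def gx : Gam S := ⟨0, 1, 0⟩
noncomputable def gb : Gam S := ⟨1, 0, 0⟩

lemma gb_pow (n : ℕ) : (gb : Gam S) ^ n = ⟨n, 0, 0⟩ := by
  induction n with
  | zero => rfl
  | succ n ih =>
    rw [pow_succ, ih]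
    ext1
    · simp [mul_m, gb]
    · simp [mul_f, gb]
    · simp [mul_g, gb, proj_zero]

lemma comm_iff (k : ℕ) :
    (gx : Gam S) * (gb ^ (k + 1) * gx * (gb ^ (k + 1))⁻¹) =
      (gb ^ (k + 1) * gx * (gb ^ (k + 1))⁻¹) * gx ↔ k ∈ S := by
  have h1 : (gb ^ (k + 1) * gx * (gb ^ (k + 1))⁻¹ : Gam S) = ⟨0, T ((k : ℤ) + 1), 0⟩ := by
    rw [gb_pow]
    ext1
    · simp [mul_m, inv_m, gx]
    · simp [mul_f, mul_m, inv_f, gx]
    · simp [mul_g, mul_m, mul_f, inv_m, inv_g, inv_f, gx, proj_zero]
  rw [h1]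
  constructor
  · intro h
    have h2 := congrArg Gam.g h
    simp only [mul_g, gx] at h2
    have h3 := congrFun h2 k
    by_contra hk
    simp [proj, hk, invert_T] at h3
    omega
  · intro h
    ext1
    · simp [mul_m, gx]
    · simp [mul_f, gx]; ring
    · simp only [mul_g, gx]
      funext j
      by_cases hj : j ∈ S
      · simp [proj, hj]
      · have hjk : j ≠ k := by rintro rfl; exact hj h
        simp [proj, hj, invert_T]
        omega

end Pool.Agent.H6.RO
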