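import Mathlib
import Pool.Agent.H6.NSG

set_option autoImplicit false

namespace Pool.Agent.H6.NS

open Complex Metric Filter Topology ComplexConjugate MeasureTheory Set

/-- Parseval's identity for absolutely convergent series -/
lemma parseval' {c : ℕ → ℂ} (hc : Summable fun k => ‖c k‖) {H : ℂ → ℂ}
    (hH : ∀ z : ℂ, ‖z‖ = 1 → HasSum (fun k => c k * z ^ k) (H z)) :
    HasSum (fun k => ‖c k‖ ^ 2) (Real.circleAverage (fun z => ‖H z‖ ^ 2) 0 1) := by
  rw [hasSum_iff_tendsto_nat_of_nonneg (fun k => by positivity)]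
  obtain ⟨C, hC⟩ : ∃ C, C = ∑' k : ℕ, ‖c k‖ := ⟨_, rfl⟩
  obtain ⟨p, hp⟩ : ∃ p : ℕ → Polynomial ℂ, p = fun m => ∑ k ∈ Finset.range m,
      Polynomial.monomial k (c k) := ⟨_, rfl⟩
  have heval : ∀ m z, (p m).eval z = ∑ k ∈ Finset.range m, c k * z ^ k := by
    intro m z
    rw [hp]
    simp only
    rw [Polynomial.eval_finsetSum]
    apply Finset.sum_congr rfl
    intro k _
    rw [Polynomial.eval_monomial]
  have hcoeff : ∀ m i, (p m).coeff i = if i < m then c i else 0 := by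
    intro m i
    rw [hp]
    simp only
    rw [Polynomial.finsetSum_coeff]
    simp only [Polynomial.coeff_monomial]
    rw [Finset.sum_ite_eq' (Finset.range m) i]
    simp only [Finset.mem_range]
  have hpar : ∀ m, ∑ k ∈ Finset.range m, ‖c k‖ ^ 2 =
      Real.circleAverage (fun z => ‖(p m).eval z‖ ^ 2) 0 1 := by
    intro m
    rw [← Polynomial.sum_sq_norm_coeff_eq_circleAverage]
    symm
    have hsub : (p m).support ⊆ Finset.range m := by
      intro i hi
      rw [Polynomial.mem_support_iff, hcoeff] at hi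
      rw [Finset.mem_range]
      by_contra hcon
      rw [if_neg hcon] at hi
      exact hi rfl
    rw [Finset.sum_subset hsub]
    · apply Finset.sum_congr rfl
      intro i hi
      rw [Finset.mem_range] at hi
      rw [hcoeff, if_pos hi]
    · intro i _ hi
      rw [Polynomial.notMem_support_iff] at hi
      rw [hi]
      simp
  simp only [hpar]
  simp only [Real.circleAverage_def]
  apply Tendsto.const_smul
  apply intervalIntegral.tendsto_integral_filter_of_dominated_convergence (fun _ => C ^ 2)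
  · filter_upwards with m
    apply Continuous.aestronglyMeasurable
    apply Continuous.pow
    apply Continuous.norm
    exact (p m).continuous.comp (continuous_circleMap 0 1)
  · filter_upwards with m
    filter_upwards with θ _
    rw [norm_pow, norm_norm]
    apply pow_le_pow_left₀ (norm_nonneg _)
    rw [heval]
    refine (norm_sum_le _ _).trans ?_
    have : ∀ k ∈ Finset.range m, ‖c k * (circleMap 0 1 θ) ^ k‖ = ‖c k‖ := by
      intro k _
      rw [norm_mul, norm_pow, norm_circleMap_zero, abs_one, one_pow, mul_one]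
    rw [Finset.sum_congr rfl this, hC]
    exact hc.sum_le_tsum _ (fun k _ => norm_nonneg _)
  · exact intervalIntegrable_const
  · filter_upwards with θ _
    have := (hH (circleMap 0 1 θ) (by simp)).tendsto_sum_nat
    simp only [heval]
    exact this.norm.pow 2

lemma tc_summable {h : ℂ → ℂ} (hh : DifferentiableOn ℂ h (ball 0 1)) {ρ : ℝ} (h0 : 0 < ρ) (h1 : ρ < 1) :
    Summable (fun k : ℕ => ‖tc h k * (ρ : ℂ) ^ k‖) := by
  have hρn : ‖(ρ : ℂ)‖ = ρ := by rw [Complex.norm_real, Real.norm_of_nonneg h0.le]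
  exact (tc_hasSum hh (z := (ρ : ℂ)) (by rw [hρn]; exact h1)).summable.norm

lemma parseval_sub {h : ℂ → ℂ} (hh : DifferentiableOn ℂ h (ball 0 1)) {ρ ρ' : ℝ} (h0 : 0 < ρ) (h1 : ρ < 1)
    (h0' : 0 < ρ') (h1' : ρ' < 1) :
    HasSum (fun k : ℕ => ‖tc h k‖ ^ 2 * (ρ ^ k - ρ' ^ k) ^ 2)
      (Real.circleAverage (fun z => ‖h (ρ * z) - h (ρ' * z)‖ ^ 2) 0 1) := by
  have hρn : ‖(ρ : ℂ)‖ = ρ := by rw [Complex.norm_real, Real.norm_of_nonneg h0.le]
  have hρn' : ‖(ρ' : ℂ)‖ = ρ' := by rw [Complex.norm_real, Real.norm_of_nonneg h0'.le]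
  have hs : Summable (fun k : ℕ => ‖tc h k * (ρ : ℂ) ^ k - tc h k * (ρ' : ℂ) ^ k‖) := by
    apply Summable.of_nonneg_of_le (fun _ => norm_nonneg _) (fun k => norm_sub_le _ _)
    exact (tc_summable hh h0 h1).add (tc_summable hh h0' h1')
  have := parseval' hs (H := fun z => h (ρ * z) - h (ρ' * z)) (by
    intro z hz
    have ha := tc_hasSum hh (z := (ρ : ℂ) * z) (by rw [norm_mul, hz, mul_one, hρn]; exact h1)
    have hb := tc_hasSum hh (z := (ρ' : ℂ) * z) (by rw [norm_mul, hz, mul_one, hρn']; exact h1')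
    have hc := ha.sub hb
    refine hc.congr_fun (fun k => ?_)
    rw [mul_pow, mul_pow]
    ring)
  refine this.congr_fun (fun k => ?_)
  rw [← mul_sub, norm_mul, mul_pow, ← Complex.ofReal_pow, ← Complex.ofReal_pow, ← Complex.ofReal_sub,
    Complex.norm_real, Real.norm_eq_abs, sq_abs]

lemma g_lim {a : ℕ → ℝ} (ha0 : ∀ k, 0 ≤ a k) (ha : Summable a) :
    Tendsto (fun r : ℝ => ∑' k, a k * (1 - r ^ k) ^ 2) (𝓝[<] 1) (𝓝 0) := by
  have h := tendsto_tsum_of_dominated_convergence (𝓕 := 𝓝[<] (1 : ℝ)) (f := fun (r : ℝ) k => a k * (1 - r ^ k) ^ 2)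
    (g := fun _ => (0 : ℝ)) (bound := a) ha ?_ ?_
  · simpa using h
  · intro k
    have h1 : Tendsto (fun r : ℝ => a k * (1 - r ^ k) ^ 2) (𝓝 1) (𝓝 (a k * (1 - 1 ^ k) ^ 2)) := by
      apply Continuous.tendsto
      fun_prop
    have e : a k * (1 - 1 ^ k) ^ 2 = 0 := by simp
    rw [e] at h1
    exact h1.mono_left nhdsWithin_le_nhds
  · filter_upwards [Ioo_mem_nhdsLT (show (0 : ℝ) < 1 by norm_num)] with r hr k
    have h1 : 0 ≤ r ^ k := pow_nonneg hr.1.le k
    have h2 : r ^ k ≤ 1 := pow_le_one₀ hr.1.le hr.2.le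
    rw [Real.norm_of_nonneg (mul_nonneg (ha0 k) (sq_nonneg _))]
    apply mul_le_of_le_one_right (ha0 k)
    apply pow_le_one₀ <;> linarith

section

variable {φ : ℂ → ℂ} (hd : DifferentiableOn ℂ φ (ball 0 1))
  (hm : Set.MapsTo φ (ball 0 1) (ball 0 1))

include hd in
lemma cont_circle {ρ : ℝ} (h0 : 0 < ρ) (h1 : ρ < 1) :
    Continuous (fun θ : ℝ => φ ((ρ : ℂ) * circleMap 0 1 θ)) := by
  apply hd.continuousOn.comp_continuous (by fun_prop)
  intro θ
  rw [mem_ball_zero_iff, norm_mul, Complex.norm_real, Real.norm_of_nonneg h0.le, norm_circleMap_zero,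
    abs_one, mul_one]
  exact h1

include hm in
lemma norm_circle_lt {ρ : ℝ} (h0 : 0 < ρ) (h1 : ρ < 1) (θ : ℝ) :
    ‖φ ((ρ : ℂ) * circleMap 0 1 θ)‖ < 1 := by
  apply phi_lt hm
  rw [norm_mul, Complex.norm_real, Real.norm_of_nonneg h0.le, norm_circleMap_zero,
    abs_one, mul_one]
  exact h1

include hd hm in
/-- a boundary function along a sequence of radii -/
lemma exists_boundary : ∃ (r : ℕ → ℝ) (f : ℝ → ℂ), (∀ n, 0 < r n ∧ r n < 1) ∧ Tendsto r atTop (𝓝 1) ∧
    StronglyMeasurable f ∧ (∀ θ, ‖f θ‖ ≤ 1) ∧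
    ∀ᵐ θ ∂(volume.restrict (Ioo 0 (2 * Real.pi))),
      Tendsto (fun n => φ ((r n : ℂ) * circleMap 0 1 θ)) atTop (𝓝 (f θ)) := by
  have hpi := Real.pi_pos
  obtain ⟨hsum, _⟩ := tc_sq_summable hd (fun z hz => (phi_lt hm hz).le)
  have hg := g_lim (fun k => by positivity) hsum
  have hchoose : ∀ n : ℕ, ∃ r : ℝ, (0 < r ∧ r < 1) ∧ 1 - 1 / ((n : ℝ) + 1) < r ∧
      ∑' k, ‖tc φ k‖ ^ 2 * (1 - r ^ k) ^ 2 < (1 / 64) ^ n := by
    intro n
    have h1 := hg.eventually (gt_mem_nhds (show (0 : ℝ) < (1 / 64) ^ n by positivity))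
    have h2 : ∀ᶠ r : ℝ in 𝓝[<] 1, 0 < r ∧ r < 1 := by
      filter_upwards [Ioo_mem_nhdsLT (show (0 : ℝ) < 1 by norm_num)] with r hr
      exact hr
    have h3 : ∀ᶠ r : ℝ in 𝓝[<] 1, 1 - 1 / ((n : ℝ) + 1) < r := by
      have : 1 - 1 / ((n : ℝ) + 1) < 1 := by
        have : 0 < 1 / ((n : ℝ) + 1) := by positivity
        linarith
      filter_upwards [Ioo_mem_nhdsLT this] with r hr
      exact hr.1
    obtain ⟨r, h4, h5, h6⟩ := (h2.and (h3.and h1)).exists
    exact ⟨r, h4, h5, h6⟩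
  choose r hr1 hr2 hr3 using hchoose
  have hrlim : Tendsto r atTop (𝓝 1) := by
    have h1 : Tendsto (fun n : ℕ => 1 - 1 / ((n : ℝ) + 1)) atTop (𝓝 (1 - 0)) :=
      (tendsto_one_div_add_atTop_nhds_zero_nat (𝕜 := ℝ)).const_sub 1
    rw [sub_zero] at h1
    exact tendsto_of_tendsto_of_tendsto_of_le_of_le h1 tendsto_const_nhds (fun n => (hr2 n).le)
      (fun n => (hr1 n).2.le)
  obtain ⟨μ, hμ⟩ : ∃ μ : Measure ℝ, μ = volume.restrict (Ioo 0 (2 * Real.pi)) := ⟨_, rfl⟩
  have hae := Lp.ae_tendsto_of_cauchy_eLpNorm' (μ := μ) (f := fun n (θ : ℝ) => φ ((r n : ℂ) * circleMap 0 1 θ))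
    (p := 2) (fun n => (cont_circle hd (hr1 n).1 (hr1 n).2).aestronglyMeasurable) (by norm_num)
    (B := fun n => ENNReal.ofReal (8 * (1 / 8) ^ n)) ?_ ?_
  · rw [hμ] at hae
    obtain ⟨f0, hf0, hf0lim⟩ := exists_stronglyMeasurable_limit_of_tendsto_ae
      (fun n => (cont_circle hd (hr1 n).1 (hr1 n).2).aestronglyMeasurable) hae
    have hset : MeasurableSet {θ | ‖f0 θ‖ ≤ 1} := measurableSet_le hf0.norm.measurable measurable_const
    refine ⟨r, {θ | ‖f0 θ‖ ≤ 1}.indicator f0, hr1, hrlim, hf0.indicator hset, ?_, ?_⟩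
    · intro θ
      by_cases h : ‖f0 θ‖ ≤ 1
      · rw [indicator_of_mem (show θ ∈ {θ | ‖f0 θ‖ ≤ 1} from h)]
        exact h
      · rw [indicator_of_notMem (show θ ∉ {θ | ‖f0 θ‖ ≤ 1} from h)]
        simp
    · filter_upwards [hf0lim] with θ hθ
      have h1 : ‖f0 θ‖ ≤ 1 := le_of_tendsto' hθ.norm (fun n => (norm_circle_lt hm (hr1 n).1 (hr1 n).2 θ).le)
      rw [indicator_of_mem (show θ ∈ {θ | ‖f0 θ‖ ≤ 1} from h1)]
      exact hθ
  · have h1 : Summable (fun n : ℕ => (8 : ℝ) * (1 / 8) ^ n) :=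
      (summable_geometric_of_lt_one (by norm_num) (by norm_num)).mul_left 8
    rw [← ENNReal.ofReal_tsum_of_nonneg (fun n => by positivity) h1]
    exact ENNReal.ofReal_ne_top
  · intro N n m hn hm'
    have hint : ∫ θ in (0 : ℝ)..(2 * Real.pi), ‖φ ((r n : ℂ) * circleMap 0 1 θ) - φ ((r m : ℂ) * circleMap 0 1 θ)‖ ^ 2 ≤
        2 * Real.pi * (4 * (1 / 64) ^ N) := by
      have h1 := parseval_sub hd (hr1 n).1 (hr1 n).2 (hr1 m).1 (hr1 m).2
      rw [Real.circleAverage_def, smul_eq_mul] at h1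
      have hsn : Summable (fun k => ‖tc φ k‖ ^ 2 * (1 - r n ^ k) ^ 2) := by
        apply Summable.of_nonneg_of_le (fun k => by positivity) _ hsum
        intro k
        have h2 : 0 ≤ r n ^ k := pow_nonneg (hr1 n).1.le k
        have h3 : r n ^ k ≤ 1 := pow_le_one₀ (hr1 n).1.le (hr1 n).2.le
        apply mul_le_of_le_one_right (by positivity)
        apply pow_le_one₀ <;> linarith
      have hsm : Summable (fun k => ‖tc φ k‖ ^ 2 * (1 - r m ^ k) ^ 2) := by
        apply Summable.of_nonneg_of_le (fun k => by positivity) _ hsum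
        intro k
        have h2 : 0 ≤ r m ^ k := pow_nonneg (hr1 m).1.le k
        have h3 : r m ^ k ≤ 1 := pow_le_one₀ (hr1 m).1.le (hr1 m).2.le
        apply mul_le_of_le_one_right (by positivity)
        apply pow_le_one₀ <;> linarith
      have h4 : (2 * Real.pi)⁻¹ * ∫ θ in (0 : ℝ)..(2 * Real.pi),
          ‖φ ((r n : ℂ) * circleMap 0 1 θ) - φ ((r m : ℂ) * circleMap 0 1 θ)‖ ^ 2 ≤
          2 * (∑' k, ‖tc φ k‖ ^ 2 * (1 - r n ^ k) ^ 2) + 2 * (∑' k, ‖tc φ k‖ ^ 2 * (1 - r m ^ k) ^ 2) := by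
        rw [← h1.tsum_eq, ← tsum_mul_left, ← tsum_mul_left, ← (hsn.mul_left 2).tsum_add (hsm.mul_left 2)]
        apply h1.summable.tsum_le_tsum _ ((hsn.mul_left 2).add (hsm.mul_left 2))
        intro k
        have h5 : (r n ^ k - r m ^ k) ^ 2 ≤ 2 * (1 - r n ^ k) ^ 2 + 2 * (1 - r m ^ k) ^ 2 := by
          nlinarith [sq_nonneg ((1 - r n ^ k) + (1 - r m ^ k))]
        have h6 : 0 ≤ ‖tc φ k‖ ^ 2 := by positivity
        nlinarith
      have h7 : ((1 : ℝ) / 64) ^ n ≤ (1 / 64) ^ N := pow_le_pow_of_le_one (by norm_num) (by norm_num) hn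
      have h8 : ((1 : ℝ) / 64) ^ m ≤ (1 / 64) ^ N := pow_le_pow_of_le_one (by norm_num) (by norm_num) hm'
      have h9 := hr3 n
      have h10 := hr3 m
      have h11 := h4.trans (show _ ≤ 4 * (1 / 64 : ℝ) ^ N by linarith)
      rwa [inv_mul_le_iff₀ (by positivity)] at h11
    rw [eLpNorm'_eq_lintegral_enorm]
    have hconv : ∫⁻ θ, ‖((fun (θ : ℝ) => φ ((r n : ℂ) * circleMap 0 1 θ)) -
        fun (θ : ℝ) => φ ((r m : ℂ) * circleMap 0 1 θ)) θ‖ₑ ^ (2 : ℝ) ∂μ =
        ENNReal.ofReal (∫ θ in (0 : ℝ)..(2 * Real.pi),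
          ‖φ ((r n : ℂ) * circleMap 0 1 θ) - φ ((r m : ℂ) * circleMap 0 1 θ)‖ ^ 2) := by
      rw [intervalIntegral.integral_of_le (by positivity), integral_Ioc_eq_integral_Ioo, ← hμ]
      rw [ofReal_integral_eq_lintegral_ofReal]
      · apply lintegral_congr
        intro θ
        rw [Pi.sub_apply, ← ofReal_norm_eq_enorm, ENNReal.ofReal_rpow_of_nonneg (norm_nonneg _) (by norm_num)]
        norm_num
      · rw [hμ]
        have hc : Continuous (fun θ : ℝ => ‖φ ((r n : ℂ) * circleMap 0 1 θ) - φ ((r m : ℂ) * circleMap 0 1 θ)‖ ^ 2) :=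
          ((cont_circle hd (hr1 n).1 (hr1 n).2).sub (cont_circle hd (hr1 m).1 (hr1 m).2)).norm.pow 2
        have := hc.intervalIntegrable (μ := volume) 0 (2 * Real.pi)
        rwa [intervalIntegrable_iff_integrableOn_Ioo_of_le (by positivity)] at this
      · filter_upwards with θ
        positivity
    rw [hconv, ENNReal.ofReal_rpow_of_nonneg (intervalIntegral.integral_nonneg (by positivity) (fun _ _ => by positivity))
      (by norm_num)]
    rw [ENNReal.ofReal_lt_ofReal_iff (by positivity), ← Real.sqrt_eq_rpow]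
    rw [Real.sqrt_lt' (by positivity)]
    refine lt_of_le_of_lt hint ?_
    have hpi4 := Real.pi_le_four
    have e : (8 * (1 / 8 : ℝ) ^ N) ^ 2 = 64 * (1 / 64) ^ N := by
      rw [mul_pow, ← pow_mul, mul_comm N 2, pow_mul]
      norm_num
    rw [e]
    have : 0 < (1 / 64 : ℝ) ^ N := by positivity
    nlinarith

end

end Pool.Agent.H6.NS
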