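import Mathlib
import Pool.Agent.H6.SA1

set_option autoImplicit false

namespace Pool.Agent.H6.NS

open Complex Metric Filter Topology ComplexConjugate MeasureTheory Set

section kernel

variable {s : ℝ} (hs0 : 0 < s) (hs1 : s < 1) (θ0 : ℝ)

include hs1 in
lemma pt_norm : ‖((1 - s : ℝ) : ℂ) * circleMap 0 1 θ0‖ = 1 - s := by
  rw [norm_mul, Complex.norm_real, Real.norm_of_nonneg (by linarith)]
  simp

include hs0 hs1 in
lemma Pk_dist (θ : ℝ) : ‖circleMap 0 1 θ - ((1 - s : ℝ) : ℂ) * circleMap 0 1 θ0‖ ^ 2 =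
    s ^ 2 + (1 - s) * ‖circleMap 0 1 θ - circleMap 0 1 θ0‖ ^ 2 := by
  have hn1 : (circleMap 0 1 θ).re ^ 2 + (circleMap 0 1 θ).im ^ 2 = 1 := by
    have := Complex.sq_norm (circleMap 0 1 θ)
    rw [Complex.normSq_apply] at this
    simp only [norm_circleMap_zero, abs_one, one_pow] at this
    linarith
  have hn2 : (circleMap 0 1 θ0).re ^ 2 + (circleMap 0 1 θ0).im ^ 2 = 1 := by
    have := Complex.sq_norm (circleMap 0 1 θ0)
    rw [Complex.normSq_apply] at this
    simp only [norm_circleMap_zero, abs_one, one_pow] at this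
    linarith
  rw [Complex.sq_norm, Complex.sq_norm, Complex.normSq_apply, Complex.normSq_apply]
  simp only [sub_re, sub_im, mul_re, mul_im, ofReal_re, ofReal_im, zero_mul, sub_zero, add_zero]
  linear_combination (s) * hn1 - s * (1 - s) * hn2

include hs0 hs1 in
lemma Pk_up (θ : ℝ) : Pk (((1 - s : ℝ) : ℂ) * circleMap 0 1 θ0) θ ≤ 2 / s := by
  unfold Pk
  rw [Pk_dist hs0 hs1, pt_norm hs1]
  have h1 : 0 ≤ (1 - s) * ‖circleMap 0 1 θ - circleMap 0 1 θ0‖ ^ 2 := mul_nonneg (by linarith) (by positivity)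
  rw [div_le_div_iff₀ (by positivity) hs0]
  nlinarith

include hs0 hs1 in
lemma Pk_low (θ : ℝ) : (2 - s) * (s / (s ^ 2 + (θ - θ0) ^ 2)) ≤ Pk (((1 - s : ℝ) : ℂ) * circleMap 0 1 θ0) θ := by
  unfold Pk
  rw [Pk_dist hs0 hs1, pt_norm hs1, ← mul_div_assoc]
  have h4 : s ^ 2 + (1 - s) * ‖circleMap 0 1 θ - circleMap 0 1 θ0‖ ^ 2 ≤ s ^ 2 + (θ - θ0) ^ 2 := by
    have h5 := chord_le θ θ0
    have h6 : ‖circleMap 0 1 θ - circleMap 0 1 θ0‖ ^ 2 ≤ (θ - θ0) ^ 2 := by
      rw [← sq_abs (θ - θ0)]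
      exact pow_le_pow_left₀ (norm_nonneg _) h5 2
    nlinarith [sq_nonneg ‖circleMap 0 1 θ - circleMap 0 1 θ0‖]
  have e : 1 - (1 - s) ^ 2 = (2 - s) * s := by ring
  rw [e]
  apply div_le_div_of_nonneg_left _ _ h4
  · exact mul_nonneg (by linarith) hs0.le
  · have : 0 ≤ (1 - s) * ‖circleMap 0 1 θ - circleMap 0 1 θ0‖ ^ 2 := mul_nonneg (by linarith) (by positivity)
    positivity

include hs0 hs1 in
lemma Pk_ball {K : ℝ} (hK0 : 0 < K) : (2 - s) * (2 * Real.arctan K) ≤
    ∫ θ in closedBall θ0 (K * s), Pk (((1 - s : ℝ) : ℂ) * circleMap 0 1 θ0) θ := by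
  have hz1 : ‖((1 - s : ℝ) : ℂ) * circleMap 0 1 θ0‖ < 1 := by rw [pt_norm hs1]; linarith
  have h4 : ∫ θ in closedBall θ0 (K * s), (2 - s) * (s / (s ^ 2 + (θ - θ0) ^ 2)) ≤
      ∫ θ in closedBall θ0 (K * s), Pk (((1 - s : ℝ) : ℂ) * circleMap 0 1 θ0) θ := by
    apply setIntegral_mono_on _ _ measurableSet_closedBall (fun θ _ => Pk_low hs0 hs1 θ0 θ)
    · apply ContinuousOn.integrableOn_compact (isCompact_closedBall _ _)
      apply Continuous.continuousOn
      apply Continuous.mul continuous_const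
      apply Continuous.div continuous_const (by fun_prop)
      intro θ
      positivity
    · apply ContinuousOn.integrableOn_compact (isCompact_closedBall _ _)
      exact (Pk_cont hz1).continuousOn
  refine le_trans (le_of_eq ?_) h4
  rw [integral_const_mul]
  congr 1
  rw [Real.closedBall_eq_Icc, integral_Icc_eq_integral_Ioc,
    ← intervalIntegral.integral_of_le (by nlinarith [mul_pos hK0 hs0])]
  have h5 : ∀ θ : ℝ, s / (s ^ 2 + (θ - θ0) ^ 2) = s⁻¹ * (1 / (1 + ((θ - θ0) / s) ^ 2)) := by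
    intro θ
    field_simp
  simp only [h5]
  rw [intervalIntegral.integral_const_mul]
  have h6 : ∫ θ in (θ0 - K * s)..(θ0 + K * s), (1 / (1 + ((θ - θ0) / s) ^ 2)) =
      ∫ θ in (θ0 - K * s)..(θ0 + K * s), (fun y : ℝ => 1 / (1 + y ^ 2)) (θ / s - θ0 / s) := by
    apply intervalIntegral.integral_congr
    intro θ _
    simp only
    rw [sub_div]
  rw [h6, intervalIntegral.integral_comp_div_sub (fun y : ℝ => 1 / (1 + y ^ 2)) hs0.ne']
  have e1 : (θ0 - K * s) / s - θ0 / s = -K := by field_simp; ring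
  have e2 : (θ0 + K * s) / s - θ0 / s = K := by field_simp; ring
  rw [e1, e2, integral_one_div_one_add_sq, Real.arctan_neg, smul_eq_mul]
  field_simp
  ring

end kernel

section

variable {φ : ℂ → ℂ} (hd : DifferentiableOn ℂ φ (ball 0 1))
  (hm : Set.MapsTo φ (ball 0 1) (ball 0 1))

include hd hm in
/-- Poisson representation -/
lemma poisson_rep {r : ℕ → ℝ} {f : ℝ → ℂ} (hr1 : ∀ n, 0 < r n ∧ r n < 1) (hr : Tendsto r atTop (𝓝 1))
    (hlim : ∀ᵐ θ ∂(volume.restrict (Ioo 0 (2 * Real.pi))),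
      Tendsto (fun n => φ ((r n : ℂ) * circleMap 0 1 θ)) atTop (𝓝 (f θ))) {z : ℂ} (hz : ‖z‖ < 1) :
    φ z = ((2 * Real.pi)⁻¹ : ℝ) • ∫ θ in Ioo 0 (2 * Real.pi), (Pk z θ : ℂ) * f θ := by
  have hpi := Real.pi_pos
  have h1 : ∀ n, φ ((r n : ℂ) * z) = ((2 * Real.pi)⁻¹ : ℝ) • ∫ θ in Ioo 0 (2 * Real.pi), (Pk z θ : ℂ) *
      φ ((r n : ℂ) * circleMap 0 1 θ) := by
    intro n
    have hrn : ‖(r n : ℂ)‖ = r n := by rw [Complex.norm_real, Real.norm_of_nonneg (hr1 n).1.le]
    have hdiff : DiffContOnCl ℂ (fun x => φ ((r n : ℂ) * x)) (ball 0 1) := by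
      apply DifferentiableOn.diffContOnCl
      rw [closure_ball (0 : ℂ) one_ne_zero]
      apply hd.comp (by fun_prop)
      intro x hx
      rw [mem_closedBall_zero_iff] at hx
      rw [mem_ball_zero_iff, norm_mul, hrn]
      nlinarith [(hr1 n).1, (hr1 n).2, norm_nonneg x]
    have h2 := DiffContOnCl.circleAverage_poissonKernel_smul (c := 0) (R := 1) (w := z) hdiff
      (mem_ball_zero_iff.2 hz)
    rw [← h2, Real.circleAverage_def, intervalIntegral.integral_of_le (by positivity),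
      integral_Ioc_eq_integral_Ioo]
    congr 1
    apply setIntegral_congr_fun measurableSet_Ioo
    intro θ _
    simp only [Pi.smul_apply']
    unfold Pk
    rw [poissonKernel_def, sub_zero, sub_zero]
    simp
  have h2 : Tendsto (fun n => φ ((r n : ℂ) * z)) atTop (𝓝 (φ z)) := by
    have hc : ContinuousAt φ z := hd.continuousOn.continuousAt (isOpen_ball.mem_nhds (mem_ball_zero_iff.2 hz))
    have h3 : Tendsto (fun n => (r n : ℂ) * z) atTop (𝓝 (((1 : ℝ) : ℂ) * z)) :=
      ((Complex.continuous_ofReal.tendsto 1).comp hr).mul_const z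
    rw [Complex.ofReal_one, one_mul] at h3
    exact hc.tendsto.comp h3
  have h3 : Tendsto (fun n => φ ((r n : ℂ) * z)) atTop
      (𝓝 (((2 * Real.pi)⁻¹ : ℝ) • ∫ θ in Ioo 0 (2 * Real.pi), (Pk z θ : ℂ) * f θ)) := by
    simp only [h1]
    apply Tendsto.const_smul
    apply tendsto_integral_of_dominated_convergence (fun θ => Pk z θ)
    · intro n
      exact ((Complex.continuous_ofReal.comp (Pk_cont hz)).mul
        (cont_circle hd (hr1 n).1 (hr1 n).2)).aestronglyMeasurable
    · have := (Pk_cont hz).intervalIntegrable (μ := volume) 0 (2 * Real.pi)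
      rwa [intervalIntegrable_iff_integrableOn_Ioo_of_le (by positivity)] at this
    · intro n
      filter_upwards with θ
      rw [norm_mul, Complex.norm_real, Real.norm_of_nonneg (Pk_pos hz θ).le]
      exact mul_le_of_le_one_right (Pk_pos hz θ).le (norm_circle_lt hm (hr1 n).1 (hr1 n).2 θ).le
    · filter_upwards [hlim] with θ hθ
      exact hθ.const_mul _
  exact tendsto_nhds_unique h2 h3

include hd hm in
/-- Fatou's theorem -/
theorem fatou : ∃ f : ℝ → ℂ, StronglyMeasurable f ∧ (∀ θ, ‖f θ‖ ≤ 1) ∧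
    ∀ᵐ θ ∂(volume.restrict (Ioo 0 (2 * Real.pi))),
      Tendsto (fun r : ℝ => φ ((r : ℂ) * circleMap 0 1 θ)) (𝓝[<] 1) (𝓝 (f θ)) := by
  have hpi := Real.pi_pos
  obtain ⟨r, f, hr1, hr, hfm, hf1, hlim⟩ := exists_boundary hd hm
  refine ⟨f, hfm, hf1, ?_⟩
  obtain ⟨I, hI⟩ : ∃ I : Set ℝ, I = Ioo 0 (2 * Real.pi) := ⟨_, rfl⟩
  have hIm : MeasurableSet I := by rw [hI]; exact measurableSet_Ioo
  have hIfin : volume I ≠ ⊤ := by rw [hI, Real.volume_Ioo]; exact ENNReal.ofReal_ne_top
  have hfint : Integrable (I.indicator f) := by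
    rw [integrable_indicator_iff hIm]
    apply Measure.integrableOn_of_bounded hIfin hfm.aestronglyMeasurable (M := 1)
    filter_upwards with θ
    exact hf1 θ
  have hleb := IsUnifLocDoublingMeasure.ae_tendsto_average_norm_sub (μ := (volume : Measure ℝ))
    hfint.locallyIntegrable 1
  rw [ae_restrict_iff' measurableSet_Ioo]
  filter_upwards [hleb] with θ0 hθ0 hθI
  have hav : ∀ K : ℝ, 0 < K → Tendsto (fun s : ℝ => ⨍ y in closedBall θ0 (K * s), ‖I.indicator f y - I.indicator f θ0‖)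
      (𝓝[>] 0) (𝓝 0) := by
    intro K hK
    apply hθ0 (fun _ => θ0) (fun s => K * s)
    · rw [tendsto_nhdsWithin_iff]
      constructor
      · have : Tendsto (fun s : ℝ => K * s) (𝓝 0) (𝓝 (K * 0)) := tendsto_id.const_mul K
        rw [mul_zero] at this
        exact this.mono_left nhdsWithin_le_nhds
      · filter_upwards [self_mem_nhdsWithin] with s hs
        exact mul_pos hK hs
    · filter_upwards [self_mem_nhdsWithin] with s hs
      rw [one_mul]
      exact mem_closedBall_self (mul_pos hK hs).le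
  have hθI' : θ0 ∈ I := by rw [hI]; exact hθI
  have hkey : Tendsto (fun s : ℝ => φ (((1 - s : ℝ) : ℂ) * circleMap 0 1 θ0)) (𝓝[>] 0) (𝓝 (f θ0)) := by
    rw [Metric.tendsto_nhds]
    intro ε hε
    obtain ⟨K, hK0, hK⟩ : ∃ K : ℝ, 0 < K ∧ 2 * Real.pi - 4 * Real.arctan K < Real.pi * (ε / 4) := by
      have h1 : Tendsto (fun K : ℝ => 2 * Real.pi - 4 * Real.arctan K) atTop (𝓝 (2 * Real.pi - 4 * (Real.pi / 2))) :=
        ((Real.tendsto_arctan_atTop.mono_right nhdsWithin_le_nhds).const_mul 4).const_sub _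
      have e : 2 * Real.pi - 4 * (Real.pi / 2) = 0 := by ring
      rw [e] at h1
      obtain ⟨K, hK1, hK2⟩ := ((h1.eventually (gt_mem_nhds (by positivity : 0 < Real.pi * (ε / 4)))).and
        (eventually_gt_atTop 0)).exists
      exact ⟨K, hK2, hK1⟩
    have hη : 0 < Real.pi * ε / (8 * K) := by positivity
    have h1 := (hav K hK0).eventually (gt_mem_nhds hη)
    have h2 : ∀ᶠ s in 𝓝[>] (0 : ℝ), closedBall θ0 (K * s) ⊆ I := by
      obtain ⟨δ, hδ, hsub⟩ := Metric.isOpen_iff.1 isOpen_Ioo θ0 hθI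
      filter_upwards [Ioo_mem_nhdsGT (show (0 : ℝ) < δ / K by positivity)] with s hs
      rw [hI]
      refine (closedBall_subset_ball ?_).trans hsub
      have := hs.2
      rw [lt_div_iff₀ hK0] at this
      linarith
    have h3 : ∀ᶠ s in 𝓝[>] (0 : ℝ), 2 * Real.arctan K * s < Real.pi * (ε / 4) := by
      have h4 : Tendsto (fun s : ℝ => 2 * Real.arctan K * s) (𝓝 0) (𝓝 (2 * Real.arctan K * 0)) :=
        tendsto_id.const_mul _
      rw [mul_zero] at h4
      exact (h4.mono_left nhdsWithin_le_nhds).eventually (gt_mem_nhds (by positivity))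
    filter_upwards [h1, h2, h3, Ioo_mem_nhdsGT (show (0 : ℝ) < 1 by norm_num)] with s h4 h5 h6 hs
    obtain ⟨hs0, hs1⟩ := hs
    obtain ⟨z, hz⟩ : ∃ z : ℂ, z = ((1 - s : ℝ) : ℂ) * circleMap 0 1 θ0 := ⟨_, rfl⟩
    have hzn : ‖z‖ < 1 := by rw [hz, pt_norm hs1]; linarith
    rw [← hz, dist_eq_norm]
    have hrep := poisson_rep hd hm hr1 hr hlim hzn
    rw [← hI] at hrep
    have hPI : IntegrableOn (Pk z) I := by
      have := (Pk_cont hzn).intervalIntegrable (μ := volume) 0 (2 * Real.pi)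
      rwa [intervalIntegrable_iff_integrableOn_Ioo_of_le (by positivity), ← hI] at this
    have hPint : ∫ θ in I, Pk z θ = 2 * Real.pi := by
      rw [hI, ← integral_Ioc_eq_integral_Ioo, ← intervalIntegral.integral_of_le (by positivity)]
      exact Pk_int hzn
    have hPC : IntegrableOn (fun θ => (Pk z θ : ℂ)) I := hPI.ofReal
    have hPf : IntegrableOn (fun θ => (Pk z θ : ℂ) * f θ) I := by
      apply Integrable.mul_bdd (c := 1) hPC hfm.aestronglyMeasurable
      filter_upwards with θ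
      exact hf1 θ
    have hdiff : φ z - f θ0 = ((2 * Real.pi)⁻¹ : ℝ) • ∫ θ in I, (Pk z θ : ℂ) * (f θ - f θ0) := by
      have e : ∀ θ, (Pk z θ : ℂ) * (f θ - f θ0) = (Pk z θ : ℂ) * f θ - (Pk z θ : ℂ) * f θ0 := by
        intro θ; ring
      simp only [e]
      rw [integral_sub hPf (hPC.mul_const _), smul_sub, ← hrep]
      congr 1
      rw [integral_mul_const, integral_complex_ofReal, hPint, Complex.real_smul]
      push_cast
      have : (Real.pi : ℂ) ≠ 0 := by exact_mod_cast hpi.ne'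
      field_simp
    have hg : ∀ θ, ‖f θ - f θ0‖ ≤ 2 := by
      intro θ
      refine (norm_sub_le _ _).trans ?_
      linarith [hf1 θ, hf1 θ0]
    have hgm : StronglyMeasurable (fun θ => ‖f θ - f θ0‖) := (hfm.sub stronglyMeasurable_const).norm
    have hPg : IntegrableOn (fun θ => Pk z θ * ‖f θ - f θ0‖) I := by
      apply Integrable.mul_bdd (c := 2) hPI hgm.aestronglyMeasurable
      filter_upwards with θ
      rw [norm_norm]
      exact hg θ
    have hnorm : ‖φ z - f θ0‖ ≤ (2 * Real.pi)⁻¹ * ∫ θ in I, Pk z θ * ‖f θ - f θ0‖ := by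
      rw [hdiff, norm_smul, Real.norm_of_nonneg (by positivity)]
      apply mul_le_mul_of_nonneg_left _ (by positivity)
      refine (norm_integral_le_integral_norm _).trans (le_of_eq ?_)
      apply integral_congr_ae
      filter_upwards with θ
      rw [norm_mul, Complex.norm_real, Real.norm_of_nonneg (Pk_pos hzn θ).le]
    obtain ⟨B, hB⟩ : ∃ B, B = closedBall θ0 (K * s) := ⟨_, rfl⟩
    rw [← hB] at h5
    have hBm : MeasurableSet B := by rw [hB]; exact measurableSet_closedBall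
    have hBfin : volume B ≠ ⊤ := by rw [hB, Real.volume_closedBall]; exact ENNReal.ofReal_ne_top
    have hsplit := integral_inter_add_sdiff (f := fun θ : ℝ => Pk z θ * ‖f θ - f θ0‖) hBm hPg
    have hsplit2 := integral_inter_add_sdiff (f := Pk z) hBm hPI
    have hinterB : I ∩ B = B := inter_eq_right.2 h5
    rw [hinterB] at hsplit hsplit2
    have hgB : IntegrableOn (fun θ => ‖f θ - f θ0‖) B := by
      apply Measure.integrableOn_of_bounded hBfin hgm.aestronglyMeasurable (M := 2)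
      filter_upwards with θ
      rw [norm_norm]
      exact hg θ
    have hpart1 : ∫ θ in B, Pk z θ * ‖f θ - f θ0‖ ≤ Real.pi * ε / 2 := by
      have h7 : ∫ θ in B, Pk z θ * ‖f θ - f θ0‖ ≤ ∫ θ in B, 2 / s * ‖f θ - f θ0‖ := by
        apply setIntegral_mono_on (hPg.mono_set h5) (hgB.const_mul _) hBm
        intro θ _
        apply mul_le_mul_of_nonneg_right _ (norm_nonneg _)
        rw [hz]
        exact Pk_up hs0 hs1 θ0 θ
      refine h7.trans ?_
      rw [integral_const_mul]
      have h8 : ∫ θ in B, ‖f θ - f θ0‖ = 2 * (K * s) * ⨍ y in B, ‖I.indicator f y - I.indicator f θ0‖ := by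
        rw [setAverage_eq, measureReal_def, hB, Real.volume_closedBall,
          ENNReal.toReal_ofReal (by positivity), smul_eq_mul, ← mul_assoc,
          mul_inv_cancel₀ (by positivity), one_mul, ← hB]
        apply setIntegral_congr_fun hBm
        intro θ hθ
        simp only
        rw [indicator_of_mem (h5 hθ), indicator_of_mem hθI']
      rw [h8, hB]
      calc 2 / s * (2 * (K * s) * ⨍ y in closedBall θ0 (K * s), ‖I.indicator f y - I.indicator f θ0‖) ≤
            2 / s * (2 * (K * s) * (Real.pi * ε / (8 * K))) := by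
            apply mul_le_mul_of_nonneg_left _ (by positivity)
            exact mul_le_mul_of_nonneg_left h4.le (by positivity)
        _ = Real.pi * ε / 2 := by field_simp; ring
    have hpart2 : ∫ θ in I \ B, Pk z θ * ‖f θ - f θ0‖ ≤ 2 * ∫ θ in I \ B, Pk z θ := by
      rw [← integral_const_mul]
      apply setIntegral_mono_on (hPg.mono_set sdiff_subset) ((hPI.mono_set sdiff_subset).const_mul 2) (hIm.diff hBm)
      intro θ _
      have := mul_le_mul_of_nonneg_left (hg θ) (Pk_pos hzn θ).le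
      linarith
    have hball := Pk_ball hs0 hs1 θ0 hK0
    rw [← hz, ← hB] at hball
    have e : (2 - s) * (2 * Real.arctan K) = 4 * Real.arctan K - 2 * Real.arctan K * s := by ring
    rw [e] at hball
    rw [hPint] at hsplit2
    have htot : ∫ θ in I, Pk z θ * ‖f θ - f θ0‖ < 2 * Real.pi * ε := by
      have : 0 < Real.pi * ε := by positivity
      linarith
    have h9 : (2 * Real.pi)⁻¹ * ∫ θ in I, Pk z θ * ‖f θ - f θ0‖ < ε := by
      rw [inv_mul_lt_iff₀ (by positivity)]
      exact htot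
    linarith
  have hsub : Tendsto (fun r : ℝ => 1 - r) (𝓝[<] 1) (𝓝[>] 0) := by
    rw [tendsto_nhdsWithin_iff]
    constructor
    · have : Tendsto (fun r : ℝ => 1 - r) (𝓝 1) (𝓝 (1 - 1)) := tendsto_id.const_sub 1
      rw [sub_self] at this
      exact this.mono_left nhdsWithin_le_nhds
    · filter_upwards [self_mem_nhdsWithin] with r hr
      rw [mem_Ioi]
      have := mem_Iio.1 hr
      linarith
  have := hkey.comp hsub
  refine this.congr (fun r => ?_)
  simp only [Function.comp]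
  congr 2
  push_cast
  ring

end

end Pool.Agent.H6.NS
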