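import Mathlib
import Pool.Agent.H6.SA2

set_option autoImplicit false

namespace Pool.Agent.H6.NS

open Complex Metric Filter Topology ComplexConjugate MeasureTheory Set

/-- total mass and tail mass of the Taylor coefficients of the power -/
noncomputable def Mn (φ : ℂ → ℂ) (N : ℕ) : ℝ := ∑' k, ‖tc (fun z => φ z ^ N) k‖ ^ 2

noncomputable def Tn (φ : ℂ → ℂ) (N : ℕ) : ℝ := ∑' k, ‖tc (fun z => φ z ^ N) (N + k)‖ ^ 2

/-- test polynomial -/
noncomputable def qp (K m : ℕ) : Polynomial ℝ := 1 - (1 - Polynomial.X ^ (K + 1)) ^ m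

lemma qp_eval (K m : ℕ) (s : ℝ) : (qp K m).eval s = 1 - (1 - s ^ (K + 1)) ^ m := by
  unfold qp
  simp

lemma qp_coeff (K m : ℕ) : (qp K m).coeff 0 = 0 := by
  rw [Polynomial.coeff_zero_eq_eval_zero, qp_eval]
  simp

lemma qp_bounds (K m : ℕ) {s : ℝ} (h0 : 0 ≤ s) (h1 : s ≤ 1) : 0 ≤ (qp K m).eval s ∧ (qp K m).eval s ≤ 1 := by
  rw [qp_eval]
  have h2 : 0 ≤ s ^ (K + 1) := pow_nonneg h0 _
  have h3 : s ^ (K + 1) ≤ 1 := pow_le_one₀ h0 h1
  have h4 : (1 - s ^ (K + 1)) ^ m ≤ 1 := pow_le_one₀ (by linarith) (by linarith)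
  have h5 : 0 ≤ (1 - s ^ (K + 1)) ^ m := pow_nonneg (by linarith) _
  constructor <;> linarith

lemma half_pow_lower (K : ℕ) : Real.exp (-2) ≤ (1 - (1 / 2 : ℝ) ^ (K + 1)) ^ (2 ^ (K + 1)) := by
  obtain ⟨x, hx⟩ : ∃ x : ℝ, x = (1 / 2 : ℝ) ^ (K + 1) := ⟨_, rfl⟩
  have hx0 : 0 < x := by rw [hx]; positivity
  have hx1 : x ≤ 1 / 2 := by
    rw [hx, pow_succ]
    have : (1 / 2 : ℝ) ^ K ≤ 1 := pow_le_one₀ (by norm_num) (by norm_num)
    linarith
  rw [← hx]
  have h1 : Real.exp (-(2 * x)) ≤ 1 - x := by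
    rw [Real.exp_neg]
    have h2 : (1 - x)⁻¹ ≤ Real.exp (2 * x) := by
      have h3 : (1 - x)⁻¹ = 1 + x / (1 - x) := by
        have : 1 - x ≠ 0 := by linarith
        field_simp
        ring
      rw [h3]
      have h4 : x / (1 - x) ≤ 2 * x := by
        rw [div_le_iff₀ (by linarith)]
        nlinarith
      have := Real.add_one_le_exp (2 * x)
      linarith
    have h5 := inv_anti₀ (inv_pos.2 (by linarith : 0 < 1 - x)) h2
    rwa [inv_inv] at h5
  calc Real.exp (-2) = (Real.exp (-(2 * x))) ^ (2 ^ (K + 1)) := by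
        rw [← Real.exp_nat_mul]
        congr 1
        rw [hx]
        push_cast
        rw [one_div, inv_pow]
        field_simp
    _ ≤ (1 - x) ^ (2 ^ (K + 1)) := pow_le_pow_left₀ (Real.exp_pos _).le h1 _

lemma pow_upper {s : ℝ} (h0 : 1 / 2 ≤ s) (h1 : s ≤ 1) (K m : ℕ) :
    (1 - s ^ (K + 1)) ^ (m * 2 ^ (K + 1)) ≤ Real.exp (-(m * (2 * s) ^ (K + 1))) := by
  have h2 : 0 ≤ s ^ (K + 1) := pow_nonneg (by linarith) _
  have h3 : s ^ (K + 1) ≤ 1 := pow_le_one₀ (by linarith) h1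
  calc (1 - s ^ (K + 1)) ^ (m * 2 ^ (K + 1)) ≤ (Real.exp (-(s ^ (K + 1)))) ^ (m * 2 ^ (K + 1)) := by
        apply pow_le_pow_left₀ (by linarith)
        have := Real.add_one_le_exp (-(s ^ (K + 1)))
        linarith
    _ = Real.exp (-(m * (2 * s) ^ (K + 1))) := by
        rw [← Real.exp_nat_mul]
        congr 1
        rw [mul_pow]
        push_cast
        ring

lemma pow_upper' {s : ℝ} (h0 : 1 / 2 ≤ s) (h1 : s ≤ 1) (K m : ℕ) :
    (1 - s ^ (K + 1)) ^ (m * 2 ^ (K + 1)) ≤ Real.exp (-m) := by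
  refine (pow_upper h0 h1 K m).trans ?_
  rw [Real.exp_le_exp]
  have : 1 ≤ (2 * s) ^ (K + 1) := one_le_pow₀ (by linarith)
  have hm : (0 : ℝ) ≤ m := by positivity
  nlinarith

section

variable {φ : ℂ → ℂ} (hd : DifferentiableOn ℂ φ (ball 0 1))
  (hm : Set.MapsTo φ (ball 0 1) (ball 0 1))

include hd hm in
lemma pow_summable (N : ℕ) : Summable (fun k => ‖tc (fun z => φ z ^ N) k‖ ^ 2) := by
  apply (tc_sq_summable (h := fun z => φ z ^ N) (hd.pow N) _).1
  intro z hz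
  rw [norm_pow]
  exact pow_le_one₀ (norm_nonneg _) (phi_lt hm hz).le

include hd hm in
lemma mass_split (N : ℕ) : Mn φ N = ∑ k ∈ Finset.range N, ‖tc (fun z => φ z ^ N) k‖ ^ 2 + Tn φ N := by
  unfold Mn Tn
  rw [← (pow_summable hd hm N).sum_add_tsum_nat_add N]
  congr 1
  apply tsum_congr
  intro k
  rw [add_comm k N]

lemma sv_half {N : ℕ} (hN : 0 < N) (k : ℕ) : sv N (N + k) ≤ 1 / 2 := by
  have hNr : (0 : ℝ) < N := by exact_mod_cast hN
  have hl2 : 0 < Real.log 2 := Real.log_pos (by norm_num)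
  have e : (1 / 2 : ℝ) = Real.exp (-Real.log 2) := by
    rw [Real.exp_neg, Real.exp_log (by norm_num)]; norm_num
  rw [e]
  unfold sv
  rw [Real.exp_le_exp, neg_le_neg_iff, le_div_iff₀ hNr]
  push_cast
  have : 0 ≤ Real.log 2 * k := by positivity
  nlinarith

lemma sv_half' {N : ℕ} {k : ℕ} (hk : k < N) : 1 / 2 ≤ sv N k := by
  have hNr : (0 : ℝ) < N := by exact_mod_cast (by omega : 0 < N)
  have hl2 : 0 < Real.log 2 := Real.log_pos (by norm_num)
  have hkr : (k : ℝ) ≤ N := by exact_mod_cast hk.le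
  have e : (1 / 2 : ℝ) = Real.exp (-Real.log 2) := by
    rw [Real.exp_neg, Real.exp_log (by norm_num)]; norm_num
  rw [e]
  unfold sv
  rw [Real.exp_le_exp, neg_le_neg_iff, div_le_iff₀ hNr]
  nlinarith

include hd hm in
lemma tail_le {N : ℕ} (hN : 0 < N) (K : ℕ) : Real.exp (-2) * Tn φ N ≤ Mn φ N -
    ∑ j ∈ (qp K (2 ^ (K + 1))).support, (qp K (2 ^ (K + 1))).coeff j * Iav φ N j := by
  have hs := spec hd hm hN (qp K (2 ^ (K + 1))) (qp_coeff _ _)
  have hM := (pow_summable hd hm N).hasSum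
  have h1 := hM.sub hs
  have e1 : ∑' k, ‖tc (fun z => φ z ^ N) k‖ ^ 2 = Mn φ N := rfl
  rw [e1] at h1
  rw [← h1.tsum_eq, ← h1.summable.sum_add_tsum_nat_add N]
  have hnn : ∀ k, 0 ≤ ‖tc (fun z => φ z ^ N) k‖ ^ 2 -
      ‖tc (fun z => φ z ^ N) k‖ ^ 2 * (qp K (2 ^ (K + 1))).eval (sv N k) := by
    intro k
    have h2 := (qp_bounds K (2 ^ (K + 1)) (sv_pos N k).le (sv_le N k)).2
    have h3 : 0 ≤ ‖tc (fun z => φ z ^ N) k‖ ^ 2 := by positivity
    nlinarith
  have h4 : 0 ≤ ∑ k ∈ Finset.range N, (‖tc (fun z => φ z ^ N) k‖ ^ 2 -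
      ‖tc (fun z => φ z ^ N) k‖ ^ 2 * (qp K (2 ^ (K + 1))).eval (sv N k)) :=
    Finset.sum_nonneg (fun k _ => hnn k)
  have h5 : Real.exp (-2) * Tn φ N ≤ ∑' k, (‖tc (fun z => φ z ^ N) (k + N)‖ ^ 2 -
      ‖tc (fun z => φ z ^ N) (k + N)‖ ^ 2 * (qp K (2 ^ (K + 1))).eval (sv N (k + N))) := by
    unfold Tn
    rw [← tsum_mul_left]
    apply Summable.tsum_le_tsum
    · intro k
      rw [add_comm N k]
      have h6 : (qp K (2 ^ (K + 1))).eval (sv N (k + N)) ≤ 1 - Real.exp (-2) := by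
        rw [qp_eval]
        have h7 : (1 - (1 / 2 : ℝ) ^ (K + 1)) ^ (2 ^ (K + 1)) ≤ (1 - (sv N (k + N)) ^ (K + 1)) ^ (2 ^ (K + 1)) := by
          apply pow_le_pow_left₀
          · have : (1 / 2 : ℝ) ^ (K + 1) ≤ 1 := pow_le_one₀ (by norm_num) (by norm_num)
            linarith
          · have h8 : sv N (k + N) ≤ 1 / 2 := by rw [add_comm]; exact sv_half hN k
            have := pow_le_pow_left₀ (sv_pos N (k + N)).le h8 (K + 1)
            linarith
        have := half_pow_lower K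
        linarith
      have h3 : 0 ≤ ‖tc (fun z => φ z ^ N) (k + N)‖ ^ 2 := by positivity
      nlinarith
    · apply Summable.mul_left
      have := (summable_nat_add_iff N).2 (pow_summable hd hm N)
      refine this.congr (fun k => ?_)
      rw [add_comm]
    · exact (summable_nat_add_iff N).2 h1.summable
  linarith

include hd hm in
lemma head_le {N : ℕ} (hN : 0 < N) (K : ℕ) : (1 - Real.exp (-((K + 1 : ℕ) : ℝ))) * (Mn φ N - Tn φ N) ≤
    ∑ j ∈ (qp K ((K + 1) * 2 ^ (K + 1))).support,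
      (qp K ((K + 1) * 2 ^ (K + 1))).coeff j * Iav φ N j := by
  have hs := spec hd hm hN (qp K ((K + 1) * 2 ^ (K + 1))) (qp_coeff _ _)
  have h1 : Mn φ N - Tn φ N = ∑ k ∈ Finset.range N, ‖tc (fun z => φ z ^ N) k‖ ^ 2 := by
    rw [mass_split hd hm]; ring
  rw [h1, Finset.mul_sum]
  refine le_trans ?_ (sum_le_hasSum (Finset.range N) (fun k _ => ?_) hs)
  · apply Finset.sum_le_sum
    intro k hk
    rw [Finset.mem_range] at hk
    have h2 : 1 - Real.exp (-((K + 1 : ℕ) : ℝ)) ≤ (qp K ((K + 1) * 2 ^ (K + 1))).eval (sv N k) := by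
      rw [qp_eval]
      have := pow_upper' (sv_half' hk) (sv_le N k) K (K + 1)
      linarith
    have h3 : 0 ≤ ‖tc (fun z => φ z ^ N) k‖ ^ 2 := by positivity
    nlinarith
  · exact mul_nonneg (by positivity) (qp_bounds _ _ (sv_pos N k).le (sv_le N k)).1

include hd hm in
lemma mass_eq {f : ℝ → ℂ} (hf1 : ∀ θ, ‖f θ‖ ≤ 1)
    (hf : ∀ᵐ θ ∂(volume.restrict (Ioo 0 (2 * Real.pi))),
      Tendsto (fun r : ℝ => φ ((r : ℂ) * circleMap 0 1 θ)) (𝓝[<] 1) (𝓝 (f θ))) (N : ℕ) :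
    Mn φ N = (2 * Real.pi)⁻¹ * ∫ θ in Ioo 0 (2 * Real.pi), ‖f θ‖ ^ (2 * N) := by
  have hpi := Real.pi_pos
  have hev : ∀ᶠ r : ℝ in 𝓝[<] 1, 0 < r ∧ r < 1 := by
    filter_upwards [Ioo_mem_nhdsLT (show (0 : ℝ) < 1 by norm_num)] with r hr
    exact hr
  have hs := pow_summable hd hm N
  have h1 : Tendsto (fun ρ : ℝ => ∑' k, ‖tc (fun z => φ z ^ N) k‖ ^ 2 * ρ ^ (2 * k)) (𝓝[<] 1) (𝓝 (Mn φ N)) := by
    unfold Mn
    apply tendsto_tsum_of_dominated_convergence hs
    · intro k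
      have : Tendsto (fun ρ : ℝ => ‖tc (fun z => φ z ^ N) k‖ ^ 2 * ρ ^ (2 * k)) (𝓝 1)
          (𝓝 (‖tc (fun z => φ z ^ N) k‖ ^ 2 * 1 ^ (2 * k))) := by
        apply Continuous.tendsto
        fun_prop
      rw [one_pow, mul_one] at this
      exact this.mono_left nhdsWithin_le_nhds
    · filter_upwards [hev] with ρ hρ k
      have : 0 ≤ ρ ^ (2 * k) := pow_nonneg hρ.1.le _
      rw [Real.norm_of_nonneg (by positivity)]
      exact mul_le_of_le_one_right (by positivity) (pow_le_one₀ hρ.1.le hρ.2.le)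
  have h2 : Tendsto (fun ρ : ℝ => (2 * Real.pi)⁻¹ * ∫ θ in Ioo 0 (2 * Real.pi),
      ‖φ ((ρ : ℂ) * circleMap 0 1 θ)‖ ^ (2 * N)) (𝓝[<] 1)
      (𝓝 ((2 * Real.pi)⁻¹ * ∫ θ in Ioo 0 (2 * Real.pi), ‖f θ‖ ^ (2 * N))) := by
    apply Tendsto.const_mul
    apply tendsto_integral_filter_of_dominated_convergence (fun _ => (1 : ℝ))
    · filter_upwards [hev] with ρ hρ
      exact ((cont_circle hd hρ.1 hρ.2).norm.pow _).aestronglyMeasurable
    · filter_upwards [hev] with ρ hρ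
      filter_upwards with θ
      rw [norm_pow, norm_norm]
      exact pow_le_one₀ (norm_nonneg _) (norm_circle_lt hm hρ.1 hρ.2 θ).le
    · exact integrableOn_const (by rw [Real.volume_Ioo]; exact ENNReal.ofReal_ne_top)
    · filter_upwards [hf] with θ hθ
      exact hθ.norm.pow _
  have h3 : ∀ᶠ ρ : ℝ in 𝓝[<] 1, ∑' k, ‖tc (fun z => φ z ^ N) k‖ ^ 2 * ρ ^ (2 * k) =
      (2 * Real.pi)⁻¹ * ∫ θ in Ioo 0 (2 * Real.pi), ‖φ ((ρ : ℂ) * circleMap 0 1 θ)‖ ^ (2 * N) := by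
    filter_upwards [hev] with ρ hρ
    rw [(parseval (h := fun z => φ z ^ N) (hd.pow N) hρ.1 hρ.2).tsum_eq, Real.circleAverage_def, smul_eq_mul,
      intervalIntegral.integral_of_le (by positivity), integral_Ioc_eq_integral_Ioo]
    congr 1
    apply setIntegral_congr_fun measurableSet_Ioo
    intro θ _
    simp only
    rw [norm_pow, ← pow_mul, mul_comm N 2]
  exact tendsto_nhds_unique (h1.congr' h3) h2

lemma chi_pow_lim {x : ℝ} (h0 : 0 ≤ x) (h1 : x ≤ 1) :
    Tendsto (fun N : ℕ => x ^ (2 * N)) atTop (𝓝 (if x = 1 then 1 else 0)) := by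
  by_cases h : x = 1
  · rw [if_pos h, h]
    simp only [one_pow]
    exact tendsto_const_nhds
  · rw [if_neg h]
    have h2 : x < 1 := lt_of_le_of_ne h1 h
    have h3 : Tendsto (fun N : ℕ => (x ^ 2) ^ N) atTop (𝓝 0) :=
      tendsto_pow_atTop_nhds_zero_of_lt_one (by positivity) (by nlinarith)
    refine h3.congr (fun N => ?_)
    rw [← pow_mul]

include hd hm in
lemma mass_lim {f : ℝ → ℂ} (hfm : StronglyMeasurable f) (hf1 : ∀ θ, ‖f θ‖ ≤ 1)
    (hf : ∀ᵐ θ ∂(volume.restrict (Ioo 0 (2 * Real.pi))),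
      Tendsto (fun r : ℝ => φ ((r : ℂ) * circleMap 0 1 θ)) (𝓝[<] 1) (𝓝 (f θ))) :
    Tendsto (Mn φ) atTop (𝓝 ((2 * Real.pi)⁻¹ * ∫ θ in Ioo 0 (2 * Real.pi), (if ‖f θ‖ = 1 then (1 : ℝ) else 0))) := by
  have h1 : Mn φ = fun N => (2 * Real.pi)⁻¹ * ∫ θ in Ioo 0 (2 * Real.pi), ‖f θ‖ ^ (2 * N) := by
    funext N
    exact mass_eq hd hm hf1 hf N
  rw [h1]
  apply Tendsto.const_mul
  apply tendsto_integral_of_dominated_convergence (fun _ => (1 : ℝ))
  · intro N
    exact (hfm.norm.pow _).aestronglyMeasurable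
  · exact integrableOn_const (by rw [Real.volume_Ioo]; exact ENNReal.ofReal_ne_top)
  · intro N
    filter_upwards with θ
    rw [norm_pow, norm_norm]
    exact pow_le_one₀ (norm_nonneg _) (hf1 θ)
  · filter_upwards with θ
    exact chi_pow_lim (norm_nonneg _) (hf1 θ)

lemma qp_lim_one {s : ℝ} (h0 : 1 / 2 < s) (h1 : s ≤ 1) :
    Tendsto (fun K : ℕ => (qp K (2 ^ (K + 1))).eval s) atTop (𝓝 1) := by
  have h2 : Tendsto (fun K : ℕ => Real.exp (-((2 * s) ^ (K + 1)))) atTop (𝓝 0) := by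
    apply Real.tendsto_exp_neg_atTop_nhds_zero.comp
    exact (tendsto_pow_atTop_atTop_of_one_lt (by linarith)).comp (tendsto_add_atTop_nat 1)
  have h3 : Tendsto (fun K : ℕ => (1 - s ^ (K + 1)) ^ (2 ^ (K + 1))) atTop (𝓝 0) := by
    refine squeeze_zero (fun K => ?_) (fun K => ?_) h2
    · have : s ^ (K + 1) ≤ 1 := pow_le_one₀ (by linarith) h1
      apply pow_nonneg
      linarith
    · have := pow_upper h0.le h1 K 1
      rw [Nat.cast_one, one_mul, one_mul] at this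
      exact this
  have h4 := h3.const_sub 1
  rw [sub_zero] at h4
  refine h4.congr (fun K => ?_)
  rw [qp_eval]

lemma qp_lim_ind {s : ℝ} (h0 : 0 ≤ s) (h1 : s ≤ 1) :
    Tendsto (fun K : ℕ => (qp K ((K + 1) * 2 ^ (K + 1))).eval s) atTop (𝓝 (if 1 / 2 ≤ s then 1 else 0)) := by
  by_cases h : 1 / 2 ≤ s
  · rw [if_pos h]
    have h2 : Tendsto (fun K : ℕ => Real.exp (-((K + 1 : ℕ) : ℝ))) atTop (𝓝 0) := by
      apply Real.tendsto_exp_neg_atTop_nhds_zero.comp
      exact tendsto_natCast_atTop_atTop.comp (tendsto_add_atTop_nat 1)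
    have h3 : Tendsto (fun K : ℕ => (1 - s ^ (K + 1)) ^ ((K + 1) * 2 ^ (K + 1))) atTop (𝓝 0) := by
      refine squeeze_zero (fun K => ?_) (fun K => ?_) h2
      · have : s ^ (K + 1) ≤ 1 := pow_le_one₀ (by linarith) h1
        apply pow_nonneg
        linarith
      · exact pow_upper' h h1 K (K + 1)
    have h4 := h3.const_sub 1
    rw [sub_zero] at h4
    refine h4.congr (fun K => ?_)
    rw [qp_eval]
  · rw [if_neg h]
    push Not at h
    have h2 : Tendsto (fun K : ℕ => ((K + 1 : ℕ) : ℝ) * (2 * s) ^ (K + 1)) atTop (𝓝 0) :=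
      (tendsto_self_mul_const_pow_of_abs_lt_one (by rw [abs_lt]; constructor <;> linarith)).comp
        (tendsto_add_atTop_nat 1)
    refine squeeze_zero (fun K => (qp_bounds _ _ h0 h1).1) (fun K => ?_) h2
    rw [qp_eval]
    have h3 : s ^ (K + 1) ≤ 1 := pow_le_one₀ h0 h1
    have h4 := one_add_mul_le_pow (a := -(s ^ (K + 1))) (by linarith) ((K + 1) * 2 ^ (K + 1))
    have h5 : (((K + 1) * 2 ^ (K + 1) : ℕ) : ℝ) * -(s ^ (K + 1)) = -(((K + 1 : ℕ) : ℝ) * (2 * s) ^ (K + 1)) := by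
      rw [mul_pow]
      push_cast
      ring
    rw [h5] at h4
    have h6 : (1 + -(s ^ (K + 1))) = 1 - s ^ (K + 1) := by ring
    rw [h6] at h4
    linarith

include hd hm in
/-- the tail masses tend to zero exactly when the boundary condition holds -/
theorem tail_iff (hrot : ¬ ∃ c : ℂ, ‖c‖ = 1 ∧ ∀ z ∈ ball (0 : ℂ) 1, φ z = c * z) :
    Tendsto (Tn φ) atTop (𝓝 0) ↔ ∀ᵐ θ ∂(volume.restrict (Ioo 0 (2 * Real.pi))),
      (∃ w : ℂ, ‖w‖ = 1 ∧ Tendsto (fun r : ℝ => φ ((r : ℂ) * circleMap 0 1 θ)) (𝓝[<] 1) (𝓝 w)) →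
      (∃ c < 1, ∃ᶠ r : ℝ in 𝓝[<] 1, 1 - ‖φ (r * circleMap 0 1 θ)‖ ≤ c * (1 - r)) := by
  have hpi := Real.pi_pos
  obtain ⟨σ, hσm, hσ1, hσ2, hσ3, hσ4, hσ5⟩ := exists_sigma hd hm
  have hnull := half_null hd hm hrot hσm hσ3
  obtain ⟨f, hfm, hf1, hf⟩ := fatou hd hm
  obtain ⟨I, hI⟩ : ∃ I : Set ℝ, I = Ioo 0 (2 * Real.pi) := ⟨_, rfl⟩
  have hIm : MeasurableSet I := by rw [hI]; exact measurableSet_Ioo
  have hIfin : volume I ≠ ⊤ := by rw [hI, Real.volume_Ioo]; exact ENNReal.ofReal_ne_top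
  obtain ⟨χ, hχ⟩ : ∃ χ : ℝ → ℝ, χ = fun θ => if ‖f θ‖ = 1 then (1 : ℝ) else 0 := ⟨_, rfl⟩
  have hχm : Measurable χ := by
    rw [hχ]
    exact Measurable.ite (measurableSet_eq_fun hfm.norm.measurable measurable_const)
      measurable_const measurable_const
  have hχ1 : ∀ θ, 0 ≤ χ θ ∧ χ θ ≤ 1 := by
    intro θ
    rw [hχ]
    simp only
    split_ifs <;> norm_num
  -- integrability helper
  have hint : ∀ g : ℝ → ℝ, Measurable g → (∀ θ, 0 ≤ g θ ∧ g θ ≤ 1) → IntegrableOn g I := by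
    intro g hg hg1
    apply Measure.integrableOn_of_bounded hIfin hg.aestronglyMeasurable (M := 1)
    filter_upwards with θ
    rw [Real.norm_of_nonneg (hg1 θ).1]
    exact (hg1 θ).2
  have hqm : ∀ K m, Measurable (fun θ => (qp K m).eval (σ θ)) := by
    intro K m
    exact (qp K m).continuous.measurable.comp hσm
  have hq1 : ∀ K m θ, 0 ≤ (qp K m).eval (σ θ) ∧ (qp K m).eval (σ θ) ≤ 1 :=
    fun K m θ => qp_bounds K m (hσ1 θ).1 (hσ1 θ).2
  have hmass : Tendsto (Mn φ) atTop (𝓝 ((2 * Real.pi)⁻¹ * ∫ θ in I, χ θ)) := by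
    rw [hI, hχ]
    exact mass_lim hd hm hfm hf1 hf
  have hspec : ∀ K m, Tendsto (fun N => ∑ j ∈ (qp K m).support, (qp K m).coeff j * Iav φ N j) atTop
      (𝓝 ((2 * Real.pi)⁻¹ * ∫ θ in I, (qp K m).eval (σ θ))) := by
    intro K m
    have := spec_lim hd hm hσm hσ1 hσ2 (qp K m) (qp_coeff K m)
    rwa [intervalIntegral.integral_of_le (by positivity), integral_Ioc_eq_integral_Ioo, ← hI] at this
  rw [← hI] at hf ⊢
  -- a.e. facts
  have hσf : ∀ᵐ θ ∂(volume.restrict I), 0 < σ θ → χ θ = 1 := by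
    filter_upwards [hf] with θ hθ h
    have h1 := hσ5 θ h
    have h2 := tendsto_nhds_unique h1 hθ.norm
    rw [hχ]
    simp only
    rw [if_pos h2.symm]
  have hhalf : ∀ᵐ θ ∂(volume.restrict I), σ θ ≠ 1 / 2 := by
    rw [ae_restrict_iff' hIm, ae_iff]
    rw [← hI] at hnull
    convert hnull using 2
    ext x
    simp only [mem_setOf_eq, mem_inter_iff, mem_preimage, mem_singleton_iff]
    tauto
  have hiff : (∀ᵐ θ ∂(volume.restrict I),
      (∃ w : ℂ, ‖w‖ = 1 ∧ Tendsto (fun r : ℝ => φ ((r : ℂ) * circleMap 0 1 θ)) (𝓝[<] 1) (𝓝 w)) →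
      (∃ c < 1, ∃ᶠ r : ℝ in 𝓝[<] 1, 1 - ‖φ (r * circleMap 0 1 θ)‖ ≤ c * (1 - r))) ↔
      ∀ᵐ θ ∂(volume.restrict I), χ θ = 1 → 1 / 2 < σ θ := by
    constructor
    · intro h
      filter_upwards [h, hf] with θ h1 h2 h3
      rw [hσ4 θ]
      apply h1
      refine ⟨f θ, ?_, h2⟩
      by_contra hne
      rw [hχ] at h3
      simp only at h3
      rw [if_neg hne] at h3
      norm_num at h3
    · intro h
      filter_upwards [h, hf] with θ h1 h2 h3
      obtain ⟨w, hw1, hw2⟩ := h3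
      rw [← hσ4 θ]
      apply h1
      have : f θ = w := tendsto_nhds_unique h2 hw2
      rw [hχ]
      simp only
      rw [this, if_pos hw1]
  rw [hiff]
  constructor
  · -- tail to zero implies the condition
    intro hT
    have hle : ∀ K : ℕ, (1 - Real.exp (-((K + 1 : ℕ) : ℝ))) * ((2 * Real.pi)⁻¹ * ∫ θ in I, χ θ) ≤
        (2 * Real.pi)⁻¹ * ∫ θ in I, (qp K ((K + 1) * 2 ^ (K + 1))).eval (σ θ) := by
      intro K
      have h1 : Tendsto (fun N => (1 - Real.exp (-((K + 1 : ℕ) : ℝ))) * (Mn φ N - Tn φ N)) atTop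
          (𝓝 ((1 - Real.exp (-((K + 1 : ℕ) : ℝ))) * ((2 * Real.pi)⁻¹ * (∫ θ in I, χ θ) - 0))) :=
        (hmass.sub hT).const_mul _
      rw [sub_zero] at h1
      apply le_of_tendsto_of_tendsto h1 (hspec K _)
      filter_upwards [eventually_gt_atTop 0] with N hN
      exact head_le hd hm hN K
    obtain ⟨ψ, hψ⟩ : ∃ ψ : ℝ → ℝ, ψ = fun θ => if 1 / 2 ≤ σ θ then (1 : ℝ) else 0 := ⟨_, rfl⟩
    have hψm : Measurable ψ := by
      rw [hψ]
      exact Measurable.ite (measurableSet_le measurable_const hσm) measurable_const measurable_const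
    have hψ1 : ∀ θ, 0 ≤ ψ θ ∧ ψ θ ≤ 1 := by
      intro θ
      rw [hψ]
      simp only
      split_ifs <;> norm_num
    have hlim1 : Tendsto (fun K : ℕ => ∫ θ in I, (qp K ((K + 1) * 2 ^ (K + 1))).eval (σ θ)) atTop
        (𝓝 (∫ θ in I, ψ θ)) := by
      apply tendsto_integral_of_dominated_convergence (fun _ => (1 : ℝ))
      · intro K
        exact (hqm K _).aestronglyMeasurable
      · exact integrableOn_const hIfin
      · intro K
        filter_upwards with θ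
        rw [Real.norm_of_nonneg (hq1 K _ θ).1]
        exact (hq1 K _ θ).2
      · filter_upwards with θ
        rw [hψ]
        exact qp_lim_ind (hσ1 θ).1 (hσ1 θ).2
    have hlim2 : Tendsto (fun K : ℕ => (1 - Real.exp (-((K + 1 : ℕ) : ℝ))) * ((2 * Real.pi)⁻¹ * ∫ θ in I, χ θ)) atTop
        (𝓝 ((1 - 0) * ((2 * Real.pi)⁻¹ * ∫ θ in I, χ θ))) := by
      apply Tendsto.mul_const
      apply Tendsto.const_sub
      apply Real.tendsto_exp_neg_atTop_nhds_zero.comp
      exact tendsto_natCast_atTop_atTop.comp (tendsto_add_atTop_nat 1)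
    have hfin := le_of_tendsto_of_tendsto' hlim2 (hlim1.const_mul _) hle
    rw [sub_zero, one_mul] at hfin
    have hfin2 : ∫ θ in I, χ θ ≤ ∫ θ in I, ψ θ :=
      le_of_mul_le_mul_left hfin (by positivity)
    have hψχ : ∀ᵐ θ ∂(volume.restrict I), 0 ≤ χ θ - ψ θ := by
      filter_upwards [hσf] with θ h
      by_cases h2 : 1 / 2 ≤ σ θ
      · rw [h (by linarith)]
        linarith [(hψ1 θ).2]
      · have : ψ θ = 0 := by rw [hψ]; simp only; rw [if_neg h2]
        rw [this]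
        linarith [(hχ1 θ).1]
    have hzero : ∫ θ in I, (χ θ - ψ θ) = 0 := by
      apply le_antisymm
      · rw [integral_sub (hint χ hχm hχ1) (hint ψ hψm hψ1)]
        linarith
      · exact integral_nonneg_of_ae hψχ
    rw [integral_eq_zero_iff_of_nonneg_ae hψχ ((hint χ hχm hχ1).sub (hint ψ hψm hψ1))] at hzero
    filter_upwards [hzero, hhalf] with θ h1 h2 h3
    have h4 : χ θ - ψ θ = 0 := h1
    rw [h3] at h4
    have h5 : ψ θ = 1 := by linarith
    have h6 : 1 / 2 ≤ σ θ := by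
      by_contra hne
      rw [hψ] at h5
      simp only at h5
      rw [if_neg hne] at h5
      norm_num at h5
    exact lt_of_le_of_ne h6 (Ne.symm h2)
  · intro hcond
    have hTnn : ∀ N, 0 ≤ Tn φ N := fun N => tsum_nonneg (fun k => by positivity)
    have hlim1 : Tendsto (fun K : ℕ => ∫ θ in I, (χ θ - (qp K (2 ^ (K + 1))).eval (σ θ))) atTop
        (𝓝 (∫ _θ in I, (0 : ℝ))) := by
      apply tendsto_integral_of_dominated_convergence (fun _ => (1 : ℝ))
      · intro K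
        exact (hχm.sub (hqm K _)).aestronglyMeasurable
      · exact integrableOn_const hIfin
      · intro K
        filter_upwards with θ
        rw [Real.norm_eq_abs, abs_le]
        constructor <;> linarith [(hq1 K (2 ^ (K + 1)) θ).1, (hq1 K (2 ^ (K + 1)) θ).2, (hχ1 θ).1, (hχ1 θ).2]
      · filter_upwards [hcond, hσf] with θ h1 h2
        by_cases h3 : χ θ = 1
        · have h4 := (qp_lim_one (h1 h3) (hσ1 θ).2).const_sub 1
          rw [sub_self] at h4
          rw [h3]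
          exact h4
        · have h4 : σ θ = 0 := by
            by_contra hne
            exact h3 (h2 (lt_of_le_of_ne (hσ1 θ).1 (Ne.symm hne)))
          have h5 : χ θ = 0 := by
            rw [hχ] at h3 ⊢
            simp only at h3 ⊢
            by_cases h6 : ‖f θ‖ = 1
            · rw [if_pos h6] at h3; exact absurd rfl h3
            · rw [if_neg h6]
          have h6 : ∀ K : ℕ, χ θ - (qp K (2 ^ (K + 1))).eval (σ θ) = 0 := by
            intro K
            rw [h5, h4, qp_eval]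
            simp
          simp only [h6]
          exact tendsto_const_nhds
    rw [integral_zero] at hlim1
    rw [tendsto_order]
    constructor
    · intro a ha
      filter_upwards with N
      linarith [hTnn N]
    · intro ε hε
      have he2 : 0 < Real.exp (-2) := Real.exp_pos _
      obtain ⟨K, hK⟩ := (hlim1.eventually (gt_mem_nhds (show 0 < 2 * Real.pi * (Real.exp (-2) * ε) by positivity))).exists
      have h1 := hmass.sub (hspec K (2 ^ (K + 1)))
      have h2 : (2 * Real.pi)⁻¹ * (∫ θ in I, χ θ) - (2 * Real.pi)⁻¹ * (∫ θ in I, (qp K (2 ^ (K + 1))).eval (σ θ)) <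
          Real.exp (-2) * ε := by
        rw [← mul_sub, ← integral_sub (hint χ hχm hχ1) (hint _ (hqm K _) (hq1 K _)),
          inv_mul_lt_iff₀ (by positivity)]
        exact hK
      filter_upwards [h1.eventually (gt_mem_nhds h2), eventually_gt_atTop 0] with N h3 h4
      have h5 := tail_le hd hm h4 K
      have h6 : Real.exp (-2) * Tn φ N < Real.exp (-2) * ε := lt_of_le_of_lt h5 h3
      exact lt_of_mul_lt_mul_left h6 he2.le

end

end Pool.Agent.H6.NS
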