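import Mathlib

set_option autoImplicit false

namespace Pool.Agent.H6.SAT

open Filter Topology

/-- The Hardy space `H²` of the unit disc, realised as the Hilbert space of square-summable sequences of
Taylor coefficients. -/
abbrev H2 : Type := lp (fun _ : ℕ => ℂ) 2

/-- The value at `z` of the analytic function whose sequence of Taylor coefficients is `f`. -/
noncomputable def ev (f : H2) (z : ℂ) : ℂ := ∑' n : ℕ, f n * z ^ n

/-- `S` is the operator `M_z` of multiplication by the coordinate function on `H²`. -/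
def IsShift (S : H2 →L[ℂ] H2) : Prop :=
  ∀ (f : H2) (z : ℂ), ‖z‖ < 1 → ev (S f) z = z * ev f z

/-- `T` is the composition operator `C_φ f = f ∘ φ` on `H²`. -/
def IsCompositionOperator (φ : ℂ → ℂ) (T : H2 →L[ℂ] H2) : Prop :=
  ∀ (f : H2) (z : ℂ), ‖z‖ < 1 → ev (T f) z = ev f (φ z)

/-- `T` is strongly asymptotically Toeplitz (with respect to the shift `S`): the sequence `S*ⁿ T Sⁿ`
converges in the strong operator topology. -/
def IsSAT (S T : H2 →L[ℂ] H2) : Prop :=
  ∃ L : H2 →L[ℂ] H2, ∀ f : H2, Tendsto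
    (fun n : ℕ => ((ContinuousLinearMap.adjoint S) ^ n * T * S ^ n) f) atTop (𝓝 (L f))

/-- `φ` has a radial limit at `ζ`, of modulus one. -/
def UnimodularAt (φ : ℂ → ℂ) (ζ : ℂ) : Prop :=
  ∃ w : ℂ, ‖w‖ = 1 ∧ Tendsto (fun r : ℝ => φ ((r : ℂ) * ζ)) (𝓝[<] 1) (𝓝 w)

/-- The modulus `|φ'(ζ)| ∈ [0, ∞]` of the angular derivative at the boundary point `ζ`, in the
Julia–Caratheodory form `liminf_{z → ζ} (1 - |φ z|) / (1 - |z|)`. -/
noncomputable def angDeriv (φ : ℂ → ℂ) (ζ : ℂ) : ENNReal :=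
  liminf (fun z : ℂ => ENNReal.ofReal ((1 - ‖φ z‖) / (1 - ‖z‖))) (𝓝[Metric.ball 0 1] ζ)

end Pool.Agent.H6.SAT
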