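import Mathlib
import Pool.Agent.H6.SA3
import Pool.Agent.H6.SATDefs

set_option autoImplicit false

namespace Pool.Agent.H6.NS

open Complex Metric Filter Topology ComplexConjugate MeasureTheory Set
open Pool.Agent.H6.SAT

section

variable {φ : ℂ → ℂ} (hd : DifferentiableOn ℂ φ (ball 0 1))
  (hm : Set.MapsTo φ (ball 0 1) (ball 0 1)) {ζ : ℂ} (hζ : ‖ζ‖ = 1)

include hd hm hζ in
lemma julia_of_freq {c : ℝ} (h : ∃ᶠ z in 𝓝[ball 0 1] ζ, 1 - ‖φ z‖ ≤ c * (1 - ‖z‖)) :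
    ∃ b : ℂ, ‖b‖ = 1 ∧ Julia φ ζ b c := by
  have hne : NeBot (𝓝[ball 0 1] ζ ⊓ 𝓟 {z | 1 - ‖φ z‖ ≤ c * (1 - ‖z‖)}) := by
    rw [← frequently_iff_neBot]
    exact h
  obtain ⟨U, hU⟩ := Ultrafilter.exists_le (𝓝[ball 0 1] ζ ⊓ 𝓟 {z | 1 - ‖φ z‖ ≤ c * (1 - ‖z‖)})
  have hU1 : ∀ᶠ z in (U : Filter ℂ), z ∈ ball (0 : ℂ) 1 :=
    (hU.trans inf_le_left) self_mem_nhdsWithin
  have hU2 : ∀ᶠ z in (U : Filter ℂ), 1 - ‖φ z‖ ≤ c * (1 - ‖z‖) :=
    (hU.trans inf_le_right) (mem_principal_self _)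
  have hUid : Tendsto (fun z : ℂ => z) (U : Filter ℂ) (𝓝 ζ) :=
    hU.trans (inf_le_left.trans nhdsWithin_le_nhds)
  obtain ⟨b, hb1, hb⟩ : ∃ b ∈ closedBall (0 : ℂ) 1, Tendsto φ (U : Filter ℂ) (𝓝 b) := by
    have hc := (isCompact_closedBall (0 : ℂ) 1).ultrafilter_le_nhds (U.map φ) (by
      rw [le_principal_iff, Ultrafilter.mem_coe, Ultrafilter.mem_map]
      filter_upwards [hU1] with z hz
      rw [Set.mem_preimage]
      exact ball_subset_closedBall (hm hz))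
    obtain ⟨b, hb1, hb2⟩ := hc
    exact ⟨b, hb1, hb2⟩
  have hzn : Tendsto (fun z : ℂ => ‖z‖) (U : Filter ℂ) (𝓝 1) := by
    have := hUid.norm
    rwa [hζ] at this
  have hbn : ‖b‖ = 1 := by
    apply le_antisymm (mem_closedBall_zero_iff.1 hb1)
    have h1 : Tendsto (fun z : ℂ => 1 - ‖φ z‖) (U : Filter ℂ) (𝓝 (1 - ‖b‖)) := hb.norm.const_sub 1
    have h2 : Tendsto (fun z : ℂ => c * (1 - ‖z‖)) (U : Filter ℂ) (𝓝 (c * (1 - 1))) :=
      (hzn.const_sub 1).const_mul c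
    have := le_of_tendsto_of_tendsto h1 h2 hU2
    linarith
  refine ⟨b, hbn, ?_⟩
  intro x hx
  have hx1 : 0 < 1 - ‖x‖ ^ 2 := by nlinarith [norm_nonneg x]
  have hφx : ‖φ x‖ < 1 := phi_lt hm hx
  have hL : Tendsto (fun w : ℂ => ‖1 - conj (φ w) * φ x‖ ^ 2 * (1 - ‖x‖ ^ 2)) (U : Filter ℂ)
      (𝓝 (‖1 - conj b * φ x‖ ^ 2 * (1 - ‖x‖ ^ 2))) := by
    have h1 : Tendsto (fun w : ℂ => conj (φ w)) (U : Filter ℂ) (𝓝 (conj b)) :=
      (Complex.continuous_conj.tendsto b).comp hb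
    exact (((h1.mul_const (φ x)).const_sub 1).norm.pow 2).mul_const _
  have hR : Tendsto (fun w : ℂ => (c * (1 + ‖φ w‖) / (1 + ‖w‖)) * (1 - ‖φ x‖ ^ 2) *
      ‖1 - conj w * x‖ ^ 2) (U : Filter ℂ)
      (𝓝 ((c * (1 + 1) / (1 + 1)) * (1 - ‖φ x‖ ^ 2) * ‖1 - conj ζ * x‖ ^ 2)) := by
    have h1 : Tendsto (fun w : ℂ => c * (1 + ‖φ w‖) / (1 + ‖w‖)) (U : Filter ℂ)
        (𝓝 (c * (1 + 1) / (1 + 1))) := by
      have h3 : Tendsto (fun w : ℂ => ‖φ w‖) (U : Filter ℂ) (𝓝 1) := by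
        have := hb.norm
        rwa [hbn] at this
      exact ((h3.const_add 1).const_mul c).div (hzn.const_add 1) (by norm_num)
    have h2 : Tendsto (fun w : ℂ => conj w) (U : Filter ℂ) (𝓝 (conj ζ)) :=
      (Complex.continuous_conj.tendsto _).comp hUid
    exact (h1.mul_const _).mul (((h2.mul_const x).const_sub 1).norm.pow 2)
  have e : c * (1 + 1) / (1 + 1) = c := by ring
  rw [e] at hR
  apply le_of_tendsto_of_tendsto hL hR
  filter_upwards [hU1, hU2] with w hw1 hw2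
  have hw : ‖w‖ < 1 := mem_ball_zero_iff.1 hw1
  have hsp := schwarzPick hd hm hx (w := w) hw
  have hw3 : 0 < 1 - ‖w‖ ^ 2 := by nlinarith [norm_nonneg w]
  have hw4 : 1 - ‖φ w‖ ^ 2 ≤ (c * (1 + ‖φ w‖) / (1 + ‖w‖)) * (1 - ‖w‖ ^ 2) := by
    have h5 : (c * (1 + ‖φ w‖) / (1 + ‖w‖)) * (1 - ‖w‖ ^ 2) = (c * (1 - ‖w‖)) * (1 + ‖φ w‖) := by
      have : 1 + ‖w‖ ≠ 0 := by linarith [norm_nonneg w]
      field_simp
      ring
    rw [h5]
    have h6 : 1 - ‖φ w‖ ^ 2 = (1 - ‖φ w‖) * (1 + ‖φ w‖) := by ring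
    rw [h6]
    exact mul_le_mul_of_nonneg_right hw2 (by linarith [norm_nonneg (φ w)])
  have h7 : 0 ≤ (1 - ‖φ x‖ ^ 2) * ‖1 - conj w * x‖ ^ 2 := by
    apply mul_nonneg _ (by positivity)
    nlinarith [norm_nonneg (φ x)]
  have h8 : (‖1 - conj (φ w) * φ x‖ ^ 2 * (1 - ‖x‖ ^ 2)) * (1 - ‖w‖ ^ 2) ≤
      ((c * (1 + ‖φ w‖) / (1 + ‖w‖)) * (1 - ‖φ x‖ ^ 2) * ‖1 - conj w * x‖ ^ 2) * (1 - ‖w‖ ^ 2) := by
    calc (‖1 - conj (φ w) * φ x‖ ^ 2 * (1 - ‖x‖ ^ 2)) * (1 - ‖w‖ ^ 2) =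
          ‖1 - conj (φ w) * φ x‖ ^ 2 * ((1 - ‖x‖ ^ 2) * (1 - ‖w‖ ^ 2)) := by ring
      _ ≤ (1 - ‖φ x‖ ^ 2) * (1 - ‖φ w‖ ^ 2) * ‖1 - conj w * x‖ ^ 2 := hsp
      _ = (1 - ‖φ w‖ ^ 2) * ((1 - ‖φ x‖ ^ 2) * ‖1 - conj w * x‖ ^ 2) := by ring
      _ ≤ ((c * (1 + ‖φ w‖) / (1 + ‖w‖)) * (1 - ‖w‖ ^ 2)) * ((1 - ‖φ x‖ ^ 2) * ‖1 - conj w * x‖ ^ 2) :=
          mul_le_mul_of_nonneg_right hw4 h7
      _ = _ := by ring
  exact le_of_mul_le_mul_right h8 hw3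

include hm hζ in
lemma ratio_le_of_julia {b : ℂ} {D : ℝ} (hb : ‖b‖ = 1) (hD : 0 ≤ D) (hJ : Julia φ ζ b D) {r : ℝ}
    (hr0 : 0 < r) (hr1 : r < 1) : (1 - ‖φ (r * ζ)‖) ≤ 2 * D / (1 + r) * (1 - r) := by
  have hφ1 := norm_lt hm hζ hr0 hr1
  obtain ⟨t, ht⟩ : ∃ t, t = 1 - conj b * φ ((r : ℂ) * ζ) := ⟨_, rfl⟩
  have h1 : 1 - ‖φ ((r : ℂ) * ζ)‖ ≤ t.re := by
    rw [ht, sub_re, one_re]
    have : (conj b * φ ((r : ℂ) * ζ)).re ≤ ‖conj b * φ ((r : ℂ) * ζ)‖ := re_le_norm _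
    rw [norm_mul, RCLike.norm_conj, hb, one_mul] at this
    linarith
  have h2 : t.re ≤ ‖t‖ := re_le_norm _
  have hrn : ‖(r : ℂ) * ζ‖ = r := by
    rw [norm_mul, hζ, mul_one, Complex.norm_real, Real.norm_of_nonneg hr0.le]
  have hj := hJ ((r : ℂ) * ζ) (by rw [hrn]; exact hr1)
  rw [← ht, hrn] at hj
  have hζζ : conj ζ * ((r : ℂ) * ζ) = (r : ℂ) := by
    have : conj ζ * ζ = 1 := by
      rw [← Complex.normSq_eq_conj_mul_self, Complex.normSq_eq_norm_sq, hζ]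
      norm_num
    calc conj ζ * ((r : ℂ) * ζ) = (r : ℂ) * (conj ζ * ζ) := by ring
      _ = (r : ℂ) := by rw [this, mul_one]
  rw [hζζ] at hj
  have h1r : ‖(1 : ℂ) - (r : ℂ)‖ = 1 - r := by
    rw [← Complex.ofReal_one, ← Complex.ofReal_sub, Complex.norm_real, Real.norm_of_nonneg (by linarith)]
  rw [h1r] at hj
  have ht0 : 0 < ‖t‖ := by linarith
  have h3 : 1 - ‖φ ((r : ℂ) * ζ)‖ ^ 2 ≤ 2 * ‖t‖ := by
    nlinarith [norm_nonneg (φ ((r : ℂ) * ζ))]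
  have h4 : ‖t‖ ^ 2 * (1 - r ^ 2) ≤ D * (2 * ‖t‖) * (1 - r) ^ 2 := by
    refine hj.trans ?_
    have : D * (1 - ‖φ ((r : ℂ) * ζ)‖ ^ 2) ≤ D * (2 * ‖t‖) := mul_le_mul_of_nonneg_left h3 hD
    exact mul_le_mul_of_nonneg_right this (by positivity)
  have h5 : ‖t‖ * (1 + r) ≤ 2 * D * (1 - r) := by
    have hp : 0 < ‖t‖ * (1 - r) := mul_pos ht0 (by linarith)
    have : (‖t‖ * (1 - r)) * (‖t‖ * (1 + r)) ≤ (‖t‖ * (1 - r)) * (2 * D * (1 - r)) := by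
      nlinarith [h4]
    exact le_of_mul_le_mul_left this hp
  rw [div_mul_eq_mul_div, le_div_iff₀ (by linarith)]
  nlinarith

include hd hm hζ in
lemma angDeriv_lt_one_iff : angDeriv φ ζ < 1 ↔
    ∃ c < 1, ∃ᶠ r : ℝ in 𝓝[<] 1, 1 - ‖φ (r * ζ)‖ ≤ c * (1 - r) := by
  have hev : ∀ᶠ r : ℝ in 𝓝[<] 1, 0 < r ∧ r < 1 := by
    filter_upwards [Ioo_mem_nhdsLT (show (0 : ℝ) < 1 by norm_num)] with r hr
    exact hr
  have hnr : ∀ r : ℝ, 0 < r → ‖(r : ℂ) * ζ‖ = r := by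
    intro r hr
    rw [norm_mul, hζ, mul_one, Complex.norm_real, Real.norm_of_nonneg hr.le]
  constructor
  · intro h
    obtain ⟨b, hb1, hb2⟩ := exists_between h
    have hfr := frequently_lt_of_liminf_lt (h := hb1)
    have hbt : b ≠ ⊤ := ne_top_of_lt hb2
    have hb3 : b.toReal < 1 := by
      have := (ENNReal.toReal_lt_toReal hbt ENNReal.one_ne_top).2 hb2
      simpa using this
    have hfr2 : ∃ᶠ z in 𝓝[ball 0 1] ζ, 1 - ‖φ z‖ ≤ b.toReal * (1 - ‖z‖) := by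
      refine (hfr.and_eventually self_mem_nhdsWithin).mono ?_
      rintro z ⟨h1, h2⟩
      have hz : ‖z‖ < 1 := mem_ball_zero_iff.1 h2
      have h3 : (1 - ‖φ z‖) / (1 - ‖z‖) ≤ b.toReal := by
        have h4 := (ENNReal.toReal_lt_toReal ENNReal.ofReal_ne_top hbt).2 h1
        rw [ENNReal.toReal_ofReal (div_nonneg (by linarith [phi_lt hm hz]) (by linarith))] at h4
        exact h4.le
      rwa [div_le_iff₀ (by linarith)] at h3
    obtain ⟨w, hw1, hJ⟩ := julia_of_freq hd hm hζ hfr2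
    have hD : 0 ≤ b.toReal := ENNReal.toReal_nonneg
    refine ⟨(b.toReal + 1) / 2, by linarith, ?_⟩
    apply Eventually.frequently
    have hlim : Tendsto (fun r : ℝ => 2 * b.toReal / (1 + r)) (𝓝[<] 1) (𝓝 b.toReal) := by
      have h1 : Tendsto (fun r : ℝ => 2 * b.toReal / (1 + r)) (𝓝 1) (𝓝 (2 * b.toReal / (1 + 1))) := by
        apply Tendsto.div tendsto_const_nhds
        · exact tendsto_id.const_add 1
        · norm_num
      have e : 2 * b.toReal / (1 + 1) = b.toReal := by ring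
      rw [e] at h1
      exact h1.mono_left nhdsWithin_le_nhds
    filter_upwards [hlim.eventually (gt_mem_nhds (show b.toReal < (b.toReal + 1) / 2 by linarith)), hev]
      with r h1 h2
    refine (ratio_le_of_julia hm hζ hw1 hD hJ h2.1 h2.2).trans ?_
    exact mul_le_mul_of_nonneg_right h1.le (by linarith [h2.2])
  · rintro ⟨c, hc, hfr⟩
    have hmap : Tendsto (fun r : ℝ => (r : ℂ) * ζ) (𝓝[<] 1) (𝓝[ball 0 1] ζ) := by
      rw [tendsto_nhdsWithin_iff]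
      constructor
      · have h1 : Tendsto (fun r : ℝ => (r : ℂ) * ζ) (𝓝 1) (𝓝 (((1 : ℝ) : ℂ) * ζ)) := by
          apply Continuous.tendsto
          fun_prop
        rw [Complex.ofReal_one, one_mul] at h1
        exact h1.mono_left nhdsWithin_le_nhds
      · filter_upwards [hev] with r hr
        rw [mem_ball_zero_iff, hnr r hr.1]
        exact hr.2
    have hc1 : ENNReal.ofReal c < 1 := by
      rw [ENNReal.ofReal_lt_one]; exact hc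
    refine lt_of_le_of_lt ?_ hc1
    apply liminf_le_of_frequently_le'
    apply hmap.frequently
    refine (hfr.and_eventually hev).mono ?_
    rintro r ⟨h1, h2⟩
    apply ENNReal.ofReal_le_ofReal
    rw [hnr r h2.1, div_le_iff₀ (by linarith [h2.2])]
    exact h1

end

/-- restatement of the tail criterion with the definitions -/
theorem tail_iff' {φ : ℂ → ℂ} (hd : DifferentiableOn ℂ φ (ball 0 1))
    (hm : Set.MapsTo φ (ball 0 1) (ball 0 1))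
    (hrot : ¬ ∃ c : ℂ, ‖c‖ = 1 ∧ ∀ z ∈ ball (0 : ℂ) 1, φ z = c * z) :
    Tendsto (Tn φ) atTop (𝓝 0) ↔ ∀ᵐ θ ∂(volume.restrict (Ioo 0 (2 * Real.pi))),
      UnimodularAt φ (circleMap 0 1 θ) → angDeriv φ (circleMap 0 1 θ) < 1 := by
  rw [tail_iff hd hm hrot]
  have : ∀ θ : ℝ, (angDeriv φ (circleMap 0 1 θ) < 1 ↔
      ∃ c < 1, ∃ᶠ r : ℝ in 𝓝[<] 1, 1 - ‖φ (r * circleMap 0 1 θ)‖ ≤ c * (1 - r)) :=
    fun θ => angDeriv_lt_one_iff hd hm (by simp)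
  simp only [this]
  rfl

/-- a rotation does not satisfy the boundary condition -/
lemma rot_not {φ : ℂ → ℂ} (hd : DifferentiableOn ℂ φ (ball 0 1))
    (hm : Set.MapsTo φ (ball 0 1) (ball 0 1)) {c : ℂ} (hc : ‖c‖ = 1)
    (hφ : ∀ z ∈ ball (0 : ℂ) 1, φ z = c * z) :
    ¬ ∀ᵐ θ ∂(volume.restrict (Ioo 0 (2 * Real.pi))),
      UnimodularAt φ (circleMap 0 1 θ) → angDeriv φ (circleMap 0 1 θ) < 1 := by
  intro h
  have hpi := Real.pi_pos
  have hne : (ae (volume.restrict (Ioo 0 (2 * Real.pi)))).NeBot := by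
    rw [ae_neBot, Ne, Measure.restrict_eq_zero, Real.volume_Ioo]
    simp [hpi]
  obtain ⟨θ, hθ⟩ := h.exists
  have hev : ∀ᶠ r : ℝ in 𝓝[<] 1, 0 < r ∧ r < 1 := by
    filter_upwards [Ioo_mem_nhdsLT (show (0 : ℝ) < 1 by norm_num)] with r hr
    exact hr
  have hnr : ∀ r : ℝ, 0 < r → ‖(r : ℂ) * circleMap 0 1 θ‖ = r := by
    intro r hr
    rw [norm_mul, norm_circleMap_zero, abs_one, mul_one, Complex.norm_real, Real.norm_of_nonneg hr.le]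
  have hval : ∀ᶠ r : ℝ in 𝓝[<] 1, φ ((r : ℂ) * circleMap 0 1 θ) = c * ((r : ℂ) * circleMap 0 1 θ) := by
    filter_upwards [hev] with r hr
    apply hφ
    rw [mem_ball_zero_iff, hnr r hr.1]
    exact hr.2
  have hun : UnimodularAt φ (circleMap 0 1 θ) := by
    refine ⟨c * circleMap 0 1 θ, by rw [norm_mul, hc, norm_circleMap_zero, abs_one, mul_one], ?_⟩
    have h1 : Tendsto (fun r : ℝ => c * ((r : ℂ) * circleMap 0 1 θ)) (𝓝 1)
        (𝓝 (c * (((1 : ℝ) : ℂ) * circleMap 0 1 θ))) := by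
      apply Continuous.tendsto
      fun_prop
    rw [Complex.ofReal_one, one_mul] at h1
    exact (h1.mono_left nhdsWithin_le_nhds).congr' (hval.mono (fun r hr => hr.symm))
  have h1 := hθ hun
  rw [angDeriv_lt_one_iff hd hm (by simp)] at h1
  obtain ⟨c', hc', hfr⟩ := h1
  obtain ⟨r, hr1, hr2, hr3⟩ := (hfr.and_eventually (hval.and hev)).exists
  rw [hr2, norm_mul, hc, one_mul, hnr r hr3.1] at hr1
  nlinarith [hr3.2]

end Pool.Agent.H6.NS
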