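import Mathlib
import Pool.Agent.H6.SA4

set_option autoImplicit false

namespace Pool.Agent.H6.NS

open Complex Metric Filter Topology ComplexConjugate MeasureTheory Set
open Pool.Agent.H6.SAT

lemma h2_hasSum (f : H2) : HasSum (fun n => ‖f n‖ ^ 2) (‖f‖ ^ 2) := by
  have := lp.hasSum_norm (p := 2) (by norm_num) f
  simpa using this

lemma h2_mem {c : ℕ → ℂ} (h : Summable (fun n => ‖c n‖ ^ 2)) : Memℓp c 2 := by
  apply memℓp_gen
  simpa using h

lemma h2_norm_le {f : H2} {C : ℝ} (hC : 0 ≤ C) (h : ∑' n, ‖f n‖ ^ 2 ≤ C ^ 2) : ‖f‖ ≤ C := by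
  rw [(h2_hasSum f).tsum_eq] at h
  exact le_of_sq_le_sq h hC

lemma h2_coeff_le (f : H2) (n : ℕ) : ‖f n‖ ≤ ‖f‖ := lp.norm_apply_le_norm (by norm_num) f n

lemma ev_hasSum (f : H2) {z : ℂ} (hz : ‖z‖ < 1) : HasSum (fun n => f n * z ^ n) (ev f z) := by
  apply Summable.hasSum
  apply Summable.of_norm_bounded (g := fun n => ‖f‖ * ‖z‖ ^ n)
  · exact (summable_geometric_of_lt_one (norm_nonneg _) hz).mul_left _
  · intro n
    rw [norm_mul, norm_pow]
    exact mul_le_mul_of_nonneg_right (h2_coeff_le f n) (by positivity)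

lemma ev_bound (f : H2) {z : ℂ} (hz : ‖z‖ < 1) : ‖ev f z‖ ≤ ‖f‖ * (1 - ‖z‖)⁻¹ := by
  have h1 : HasSum (fun n : ℕ => ‖f‖ * ‖z‖ ^ n) (‖f‖ * (1 - ‖z‖)⁻¹) :=
    (hasSum_geometric_of_lt_one (norm_nonneg _) hz).mul_left _
  refine (ev_hasSum f hz).norm_le_of_bounded h1 (fun n => ?_)
  rw [norm_mul, norm_pow]
  exact mul_le_mul_of_nonneg_right (h2_coeff_le f n) (by positivity)

lemma ev_diff (f : H2) : DifferentiableOn ℂ (ev f) (ball 0 1) := by
  intro z hz
  have hz1 : ‖z‖ < 1 := mem_ball_zero_iff.1 hz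
  obtain ⟨r, hr1, hr2⟩ := exists_between hz1
  have h1 : DifferentiableOn ℂ (fun w => ∑' n : ℕ, f n * w ^ n) (ball 0 r) := by
    apply differentiableOn_tsum_of_summable_norm (u := fun n => ‖f‖ * r ^ n)
    · exact (summable_geometric_of_lt_one ((norm_nonneg z).trans hr1.le) hr2).mul_left _
    · intro n
      fun_prop
    · exact isOpen_ball
    · intro n w hw
      rw [norm_mul, norm_pow]
      have : ‖w‖ ^ n ≤ r ^ n := pow_le_pow_left₀ (norm_nonneg _) (mem_ball_zero_iff.1 hw).le n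
      exact mul_le_mul (h2_coeff_le f n) this (by positivity) (norm_nonneg _)
  have h2 : DifferentiableAt ℂ (ev f) z := h1.differentiableAt (isOpen_ball.mem_nhds (mem_ball_zero_iff.2 hr1))
  exact h2.differentiableWithinAt

lemma coeff_zero {c : ℕ → ℂ} (h : ∀ z : ℂ, ‖z‖ < 1 → HasSum (fun k => c k * z ^ k) 0) (k : ℕ) : c k = 0 := by
  have hhalf : ‖(1 / 2 : ℂ)‖ = 1 / 2 := by norm_num
  have hs : Summable (fun k => ‖c k * (1 / 2 : ℂ) ^ k‖) :=
    (h (1 / 2) (by rw [hhalf]; norm_num)).summable.norm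
  have h1 := parseval' hs (H := fun _ => 0) (by
    intro z hz
    have h2 := h (1 / 2 * z) (by rw [norm_mul, hhalf, hz]; norm_num)
    refine h2.congr_fun (fun k => ?_)
    rw [mul_pow]
    ring)
  have h3 : Real.circleAverage (fun _ : ℂ => ‖(0 : ℂ)‖ ^ 2) 0 1 = 0 := by
    rw [Real.circleAverage_def]
    simp
  rw [h3, hasSum_zero_iff_of_nonneg (fun k => by positivity)] at h1
  have h4 := congrFun h1 k
  simp only [Pi.zero_apply] at h4
  have h5 : c k * (1 / 2 : ℂ) ^ k = 0 := by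
    rw [← norm_eq_zero]
    exact pow_eq_zero_iff (two_ne_zero) |>.1 h4
  rcases mul_eq_zero.1 h5 with h6 | h6
  · exact h6
  · exact absurd h6 (pow_ne_zero _ (by norm_num))

lemma ev_inj {f g : H2} (h : ∀ z : ℂ, ‖z‖ < 1 → ev f z = ev g z) : f = g := by
  ext k
  have h1 : ∀ z : ℂ, ‖z‖ < 1 → HasSum (fun k => (f k - g k) * z ^ k) 0 := by
    intro z hz
    have h2 := (ev_hasSum f hz).sub (ev_hasSum g hz)
    rw [h z hz, sub_self] at h2
    refine h2.congr_fun (fun k => ?_)
    ring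
  exact sub_eq_zero.1 (coeff_zero h1 k)

lemma ev_tc {f : H2} {h : ℂ → ℂ} (hh : DifferentiableOn ℂ h (ball 0 1))
    (he : ∀ z : ℂ, ‖z‖ < 1 → ev f z = h z) (k : ℕ) : f k = tc h k := by
  have h1 : ∀ z : ℂ, ‖z‖ < 1 → HasSum (fun k => (f k - tc h k) * z ^ k) 0 := by
    intro z hz
    have h2 := (ev_hasSum f hz).sub (tc_hasSum hh hz)
    rw [he z hz, sub_self] at h2
    refine h2.congr_fun (fun k => ?_)
    ring
  exact sub_eq_zero.1 (coeff_zero h1 k)

lemma ev_add (f g : H2) {z : ℂ} (hz : ‖z‖ < 1) : ev (f + g) z = ev f z + ev g z := by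
  have h1 := (ev_hasSum f hz).add (ev_hasSum g hz)
  have h2 := ev_hasSum (f + g) hz
  refine h2.unique (h1.congr_fun (fun n => ?_))
  rw [lp.coeFn_add, Pi.add_apply]
  ring

lemma ev_smul (c : ℂ) (f : H2) {z : ℂ} (hz : ‖z‖ < 1) : ev (c • f) z = c * ev f z := by
  have h1 := (ev_hasSum f hz).mul_left c
  have h2 := ev_hasSum (c • f) hz
  refine h2.unique (h1.congr_fun (fun n => ?_))
  rw [lp.coeFn_smul, Pi.smul_apply, smul_eq_mul]
  ring

/-- shifted sequence -/
noncomputable def shc (f : H2) (n : ℕ) : ℂ := if n = 0 then 0 else f (n - 1)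

lemma shc_hasSum (f : H2) : HasSum (fun n => ‖shc f n‖ ^ 2) (‖f‖ ^ 2) := by
  have h := (hasSum_nat_add_iff (f := fun n => ‖shc f n‖ ^ 2) 1).1 (by
    have := h2_hasSum f
    refine this.congr_fun (fun n => ?_)
    unfold shc
    simp)
  have e : ∑ i ∈ Finset.range 1, ‖shc f i‖ ^ 2 = 0 := by
    simp [shc]
  rwa [e, add_zero] at h

noncomputable def shf (f : H2) : H2 := ⟨shc f, h2_mem (shc_hasSum f).summable⟩

lemma shf_apply (f : H2) (n : ℕ) : shf f n = shc f n := rfl

lemma shf_norm (f : H2) : ‖shf f‖ = ‖f‖ := by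
  have h1 := h2_hasSum (shf f)
  have h2 := shc_hasSum f
  have h3 : ‖shf f‖ ^ 2 = ‖f‖ ^ 2 := h1.unique h2
  exact (sq_eq_sq₀ (norm_nonneg _) (norm_nonneg _)).1 h3

lemma shf_ev (f : H2) {z : ℂ} (hz : ‖z‖ < 1) : ev (shf f) z = z * ev f z := by
  have h1 := ev_hasSum (shf f) hz
  have h2 := (hasSum_nat_add_iff (f := fun n => shf f n * z ^ n) (g := z * ev f z) 1).1 (by
    have := (ev_hasSum f hz).mul_left z
    refine this.congr_fun (fun n => ?_)
    rw [shf_apply]
    unfold shc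
    simp only [Nat.add_eq_zero_iff, one_ne_zero, and_false, if_false, Nat.add_sub_cancel]
    ring)
  have e : ∑ i ∈ Finset.range 1, shf f i * z ^ i = 0 := by
    rw [Finset.sum_range_one, shf_apply]
    unfold shc
    simp
  rw [e, add_zero] at h2
  exact h1.unique h2

noncomputable def shL : H2 →L[ℂ] H2 :=
  LinearMap.mkContinuous
    { toFun := shf
      map_add' := by
        intro f g
        apply ev_inj
        intro z hz
        rw [shf_ev _ hz, ev_add _ _ hz, ev_add _ _ hz, shf_ev _ hz, shf_ev _ hz]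
        ring
      map_smul' := by
        intro c f
        apply ev_inj
        intro z hz
        rw [RingHom.id_apply, shf_ev _ hz, ev_smul _ _ hz, ev_smul _ _ hz, shf_ev _ hz]
        ring } 1 (by
        intro f
        rw [one_mul]
        exact (shf_norm f).le)

lemma shL_apply (f : H2) : shL f = shf f := rfl

lemma shL_isShift : IsShift shL := by
  intro f z hz
  rw [shL_apply]
  exact shf_ev f hz

lemma shift_eq {S : H2 →L[ℂ] H2} (hS : IsShift S) : S = shL := by
  ext1 f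
  apply ev_inj
  intro z hz
  rw [hS f z hz, shL_isShift f z hz]

theorem shift_unique : ∃! S : H2 →L[ℂ] H2, IsShift S :=
  ⟨shL, shL_isShift, fun _ h => shift_eq h⟩

lemma shL_succ (f : H2) (n : ℕ) : shL f (n + 1) = f n := by
  rw [shL_apply, shf_apply]
  unfold shc
  simp

lemma shL_single (n : ℕ) : shL (lp.single 2 n (1 : ℂ)) = lp.single 2 (n + 1) (1 : ℂ) := by
  ext k
  rcases Nat.eq_zero_or_pos k with h0 | hk
  · rw [h0, shL_apply, shf_apply]
    unfold shc
    rw [if_pos rfl, lp.single_apply_ne]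
    omega
  · obtain ⟨m, rfl⟩ : ∃ m, k = m + 1 := ⟨k - 1, by omega⟩
    rw [shL_succ]
    by_cases h : m = n
    · rw [h, lp.single_apply_self, lp.single_apply_self]
    · rw [lp.single_apply_ne _ _ _ h, lp.single_apply_ne]
      omega

lemma adj_apply (g : H2) (n : ℕ) : (ContinuousLinearMap.adjoint shL g) n = g (n + 1) := by
  have h1 : inner ℂ (lp.single 2 n (1 : ℂ) : H2) (ContinuousLinearMap.adjoint shL g) =
      (ContinuousLinearMap.adjoint shL g) n := by
    rw [lp.inner_single_left]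
    simp
  have h2 : inner ℂ (lp.single 2 (n + 1) (1 : ℂ) : H2) g = g (n + 1) := by
    rw [lp.inner_single_left]
    simp
  rw [← h1, ContinuousLinearMap.adjoint_inner_right, shL_single, h2]

lemma shL_pow (f : H2) (n k : ℕ) : (shL ^ n) f (k + n) = f k := by
  induction n generalizing k with
  | zero => simp
  | succ n ih =>
    rw [pow_succ', mul_apply_eq_comp, ← add_assoc, shL_succ, ih]

lemma adj_pow (g : H2) (n k : ℕ) : ((ContinuousLinearMap.adjoint shL) ^ n) g k = g (k + n) := by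
  induction n generalizing k with
  | zero => simp
  | succ n ih =>
    rw [pow_succ', mul_apply_eq_comp, adj_apply, ih, add_assoc, add_comm 1 n]

lemma shL_pow_single (n j : ℕ) : (shL ^ n) (lp.single 2 j (1 : ℂ)) = lp.single 2 (j + n) (1 : ℂ) := by
  induction n with
  | zero => simp
  | succ n ih =>
    rw [pow_succ', mul_apply_eq_comp, ih, shL_single, add_assoc]

lemma shL_norm (f : H2) : ‖shL f‖ = ‖f‖ := shf_norm f

lemma shL_pow_norm (n : ℕ) (f : H2) : ‖(shL ^ n) f‖ = ‖f‖ := by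
  induction n with
  | zero => simp
  | succ n ih => rw [pow_succ', mul_apply_eq_comp, shL_norm, ih]

lemma adj_norm (g : H2) : ‖ContinuousLinearMap.adjoint shL g‖ ≤ ‖g‖ := by
  have h1 : ‖ContinuousLinearMap.adjoint shL‖ ≤ 1 := by
    rw [LinearIsometryEquiv.norm_map]
    apply ContinuousLinearMap.opNorm_le_bound _ zero_le_one
    intro f
    rw [shL_norm, one_mul]
  have h2 := (ContinuousLinearMap.adjoint shL).le_opNorm g
  have h3 : ‖ContinuousLinearMap.adjoint shL‖ * ‖g‖ ≤ 1 * ‖g‖ := mul_le_mul_of_nonneg_right h1 (norm_nonneg _)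
  linarith

lemma adj_pow_norm (n : ℕ) (g : H2) : ‖((ContinuousLinearMap.adjoint shL) ^ n) g‖ ≤ ‖g‖ := by
  induction n with
  | zero => simp
  | succ n ih =>
    rw [pow_succ', mul_apply_eq_comp]
    exact (adj_norm _).trans ih

lemma ev_single (j : ℕ) {z : ℂ} (hz : ‖z‖ < 1) : ev (lp.single 2 j (1 : ℂ)) z = z ^ j := by
  have h1 := ev_hasSum (lp.single 2 j (1 : ℂ)) hz
  have h2 : HasSum (fun n => (lp.single 2 j (1 : ℂ) : H2) n * z ^ n) ((lp.single 2 j (1 : ℂ) : H2) j * z ^ j) := by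
    apply hasSum_single
    intro n hn
    rw [lp.single_apply_ne _ _ _ hn, zero_mul]
  rw [lp.single_apply_self, one_mul] at h2
  exact h1.unique h2

end Pool.Agent.H6.NS
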