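import Mathlib
import Pool.Agent.H6.SA5

set_option autoImplicit false

namespace Pool.Agent.H6.NS

open Complex Metric Filter Topology ComplexConjugate MeasureTheory Set
open Pool.Agent.H6.SAT

/-- Herglotz integral of a real function -/
noncomputable def HzU (u : ℂ → ℝ) (z : ℂ) : ℂ :=
  Real.circleAverage (fun x => herglotzRieszKernel 0 z x • (u x : ℂ)) 0 1

lemma HzU_diff {u : ℂ → ℝ} (hu : Continuous fun θ : ℝ => u (circleMap 0 1 θ)) :
    DifferentiableOn ℂ (HzU u) (ball 0 1) := by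
  apply differentiableOn_circleAverage_herglotzRieszKernel_smul
  unfold CircleIntegrable
  exact (Complex.continuous_ofReal.comp hu).intervalIntegrable _ _

lemma re_HzU {u : ℂ → ℝ} (hu : Continuous fun θ : ℝ => u (circleMap 0 1 θ)) {z : ℂ} (hz : ‖z‖ < 1) :
    (HzU u z).re = (2 * Real.pi)⁻¹ * ∫ θ in (0 : ℝ)..(2 * Real.pi), Pk z θ * u (circleMap 0 1 θ) := by
  unfold HzU
  rw [Real.circleAverage_def, Complex.smul_re, smul_eq_mul]
  congr 1
  have hint : IntervalIntegrable (fun θ : ℝ => herglotzRieszKernel 0 z (circleMap 0 1 θ) • (u (circleMap 0 1 θ) : ℂ))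
      volume 0 (2 * Real.pi) := by
    apply Continuous.intervalIntegrable
    have h1 : Continuous (fun θ : ℝ => herglotzRieszKernel 0 z (circleMap 0 1 θ)) := by
      simp only [herglotzRieszKernel_def, sub_zero]
      apply Continuous.div
      · fun_prop
      · fun_prop
      · exact circle_sub_ne hz
    simp only [smul_eq_mul]
    exact h1.mul (Complex.continuous_ofReal.comp hu)
  have h := Complex.reCLM.intervalIntegral_comp_comm hint
  simp only [Complex.reCLM_apply] at h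
  rw [← h]
  apply intervalIntegral.integral_congr
  intro θ _
  simp only [smul_eq_mul]
  have h2 : Pk z θ = (herglotzRieszKernel 0 z (circleMap 0 1 θ)).re := by
    have := @poissonKernel_eq_re_herglotzRieszKernel 0 z
    have h3 := congrFun this (circleMap 0 1 θ)
    unfold Pk
    rw [poissonKernel_def, sub_zero, sub_zero] at h3
    simp only [norm_circleMap_zero, abs_one, one_pow] at h3
    rw [h3]
    rfl
  rw [mul_re, ofReal_im, mul_zero, sub_zero, h2, ofReal_re]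

lemma circ_cont {g : ℂ → ℂ} (hg : DiffContOnCl ℂ g (ball 0 1)) :
    Continuous fun θ : ℝ => g (circleMap 0 1 θ) := by
  have h1 : ContinuousOn g (closedBall 0 1) := by
    have := hg.continuousOn
    rwa [closure_ball (0 : ℂ) one_ne_zero] at this
  apply h1.comp_continuous (continuous_circleMap 0 1)
  intro θ
  rw [mem_closedBall_zero_iff]
  simp

lemma pk_poisson {g : ℂ → ℂ} (hg : DiffContOnCl ℂ g (ball 0 1)) {w : ℂ} (hw : ‖w‖ < 1) :
    ∫ θ in (0 : ℝ)..(2 * Real.pi), (Pk w θ : ℂ) * g (circleMap 0 1 θ) = (2 * Real.pi : ℝ) * g w := by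
  have hpi := Real.pi_pos
  have h2 := DiffContOnCl.circleAverage_poissonKernel_smul (c := 0) (R := 1) (w := w) hg
    (mem_ball_zero_iff.2 hw)
  rw [← h2, Real.circleAverage_def, Complex.real_smul, ← mul_assoc]
  have e : ((2 * Real.pi : ℝ) : ℂ) * (((2 * Real.pi)⁻¹ : ℝ) : ℂ) = 1 := by
    rw [← Complex.ofReal_mul, mul_inv_cancel₀ (by positivity), Complex.ofReal_one]
  rw [e, one_mul]
  apply intervalIntegral.integral_congr
  intro θ _
  simp only [Pi.smul_apply']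
  unfold Pk
  rw [poissonKernel_def, sub_zero, sub_zero]
  simp

lemma pois_sq {g : ℂ → ℂ} (hg : DiffContOnCl ℂ g (ball 0 1)) {w : ℂ} (hw : ‖w‖ < 1) :
    ‖g w‖ ^ 2 ≤ (2 * Real.pi)⁻¹ * ∫ θ in (0 : ℝ)..(2 * Real.pi), Pk w θ * ‖g (circleMap 0 1 θ)‖ ^ 2 := by
  have hpi := Real.pi_pos
  have hgc := circ_cont hg
  have hPc := Pk_cont hw
  have hnn : 0 ≤ ∫ θ in (0 : ℝ)..(2 * Real.pi), Pk w θ * ‖g (circleMap 0 1 θ) - g w‖ ^ 2 := by
    apply intervalIntegral.integral_nonneg (by positivity)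
    intro θ _
    exact mul_nonneg (Pk_pos hw θ).le (by positivity)
  have hexp : ∀ θ : ℝ, Pk w θ * ‖g (circleMap 0 1 θ) - g w‖ ^ 2 =
      Pk w θ * ‖g (circleMap 0 1 θ)‖ ^ 2 - 2 * (conj (g w) * ((Pk w θ : ℂ) * g (circleMap 0 1 θ))).re +
      Pk w θ * ‖g w‖ ^ 2 := by
    intro θ
    rw [Complex.sq_norm, Complex.sq_norm, Complex.sq_norm, Complex.normSq_apply, Complex.normSq_apply,
      Complex.normSq_apply]
    simp only [sub_re, sub_im, mul_re, mul_im, conj_re, conj_im, ofReal_re, ofReal_im]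
    ring
  simp only [hexp] at hnn
  have hi1 : IntervalIntegrable (fun θ : ℝ => Pk w θ * ‖g (circleMap 0 1 θ)‖ ^ 2) volume 0 (2 * Real.pi) :=
    (hPc.mul (hgc.norm.pow 2)).intervalIntegrable _ _
  have hc2 : Continuous (fun θ : ℝ => conj (g w) * ((Pk w θ : ℂ) * g (circleMap 0 1 θ))) :=
    continuous_const.mul ((Complex.continuous_ofReal.comp hPc).mul hgc)
  have hi2 : IntervalIntegrable (fun θ : ℝ => (conj (g w) * ((Pk w θ : ℂ) * g (circleMap 0 1 θ))).re) volume 0 (2 * Real.pi) :=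
    (Complex.continuous_re.comp hc2).intervalIntegrable _ _
  have hi3 : IntervalIntegrable (fun θ : ℝ => Pk w θ * ‖g w‖ ^ 2) volume 0 (2 * Real.pi) :=
    (hPc.mul continuous_const).intervalIntegrable _ _
  rw [intervalIntegral.integral_add (hi1.sub (hi2.const_mul 2)) hi3,
    intervalIntegral.integral_sub hi1 (hi2.const_mul 2), intervalIntegral.integral_const_mul,
    intervalIntegral.integral_mul_const, Pk_int hw] at hnn
  have h4 : ∫ θ in (0 : ℝ)..(2 * Real.pi), (conj (g w) * ((Pk w θ : ℂ) * g (circleMap 0 1 θ))).re =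
      2 * Real.pi * ‖g w‖ ^ 2 := by
    have h := Complex.reCLM.intervalIntegral_comp_comm (hc2.intervalIntegrable (μ := volume) 0 (2 * Real.pi))
    simp only [Complex.reCLM_apply] at h
    rw [h, intervalIntegral.integral_const_mul, pk_poisson hg hw]
    have e : conj (g w) * (((2 * Real.pi : ℝ) : ℂ) * g w) = ((2 * Real.pi * ‖g w‖ ^ 2 : ℝ) : ℂ) := by
      have : conj (g w) * g w = ((‖g w‖ ^ 2 : ℝ) : ℂ) := by
        rw [← Complex.normSq_eq_conj_mul_self, Complex.normSq_eq_norm_sq]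
      calc conj (g w) * (((2 * Real.pi : ℝ) : ℂ) * g w) = ((2 * Real.pi : ℝ) : ℂ) * (conj (g w) * g w) := by ring
        _ = _ := by rw [this]; push_cast; ring
    rw [e, ofReal_re]
  rw [h4] at hnn
  rw [le_inv_mul_iff₀ (by positivity)]
  linarith

lemma Pk_le {w : ℂ} (hw : ‖w‖ < 1) (θ : ℝ) : Pk w θ ≤ (1 + ‖w‖) / (1 - ‖w‖) := by
  unfold Pk
  have h1 : 1 - ‖w‖ ≤ ‖circleMap 0 1 θ - w‖ := by
    have := norm_sub_norm_le (circleMap 0 1 θ) w
    rw [norm_circleMap_zero, abs_one] at this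
    exact this
  have h2 : (1 - ‖w‖) ^ 2 ≤ ‖circleMap 0 1 θ - w‖ ^ 2 := pow_le_pow_left₀ (by linarith) h1 2
  have h3 : 0 < (1 - ‖w‖) ^ 2 := pow_pos (by linarith) 2
  have h4 : (1 - ‖w‖ ^ 2) = (1 - ‖w‖) * (1 + ‖w‖) := by ring
  calc (1 - ‖w‖ ^ 2) / ‖circleMap 0 1 θ - w‖ ^ 2 ≤ (1 - ‖w‖ ^ 2) / (1 - ‖w‖) ^ 2 := by
        apply div_le_div_of_nonneg_left _ h3 h2
        nlinarith [norm_nonneg w]
    _ = (1 + ‖w‖) / (1 - ‖w‖) := by
        have : 1 - ‖w‖ ≠ 0 := by linarith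
        rw [h4]
        field_simp

section

variable {φ : ℂ → ℂ} (hd : DifferentiableOn ℂ φ (ball 0 1))
  (hm : Set.MapsTo φ (ball 0 1) (ball 0 1))

include hd hm in
lemma littlewood {g : ℂ → ℂ} (hg : DiffContOnCl ℂ g (ball 0 1)) {ρ : ℝ} (h0 : 0 < ρ) (h1 : ρ < 1) :
    Real.circleAverage (fun z => ‖g (φ (ρ * z))‖ ^ 2) 0 1 ≤
      (1 + ‖φ 0‖) / (1 - ‖φ 0‖) * Real.circleAverage (fun z => ‖g z‖ ^ 2) 0 1 := by
  have hpi := Real.pi_pos
  obtain ⟨u, hu⟩ : ∃ u : ℂ → ℝ, u = fun z => ‖g z‖ ^ 2 := ⟨_, rfl⟩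
  have huc : Continuous fun θ : ℝ => u (circleMap 0 1 θ) := by
    rw [hu]
    exact (circ_cont hg).norm.pow 2
  have hHd := HzU_diff huc
  have hρn : ‖(ρ : ℂ)‖ = ρ := by rw [Complex.norm_real, Real.norm_of_nonneg h0.le]
  have hφ0 : ‖φ 0‖ < 1 := phi_lt hm (by simp)
  have hφρ : ∀ θ : ℝ, ‖φ ((ρ : ℂ) * circleMap 0 1 θ)‖ < 1 := norm_circle_lt hm h0 h1
  have hpt : ∀ θ : ℝ, ‖g (φ ((ρ : ℂ) * circleMap 0 1 θ))‖ ^ 2 ≤ (HzU u (φ ((ρ : ℂ) * circleMap 0 1 θ))).re := by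
    intro θ
    rw [re_HzU huc (hφρ θ), hu]
    exact pois_sq hg (hφρ θ)
  have hcomp : DifferentiableOn ℂ (fun z : ℂ => HzU u (φ ((ρ : ℂ) * z))) (closedBall 0 1) := by
    have h2 : DifferentiableOn ℂ (fun z : ℂ => φ ((ρ : ℂ) * z)) (closedBall 0 1) := by
      apply hd.comp (by fun_prop)
      intro z hz
      rw [mem_closedBall_zero_iff] at hz
      rw [mem_ball_zero_iff, norm_mul, hρn]
      nlinarith [norm_nonneg z]
    apply hHd.comp h2
    intro z hz
    rw [mem_closedBall_zero_iff] at hz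
    rw [mem_ball_zero_iff]
    apply phi_lt hm
    rw [norm_mul, hρn]
    nlinarith [norm_nonneg z]
  have hdc : DiffContOnCl ℂ (fun z : ℂ => HzU u (φ ((ρ : ℂ) * z))) (ball 0 |1|) := by
    rw [abs_one]
    apply DifferentiableOn.diffContOnCl
    rw [closure_ball (0 : ℂ) one_ne_zero]
    exact hcomp
  have hmean := hdc.circleAverage
  rw [Real.circleAverage_def] at hmean
  have hHc : Continuous (fun θ : ℝ => HzU u (φ ((ρ : ℂ) * circleMap 0 1 θ))) := by
    apply hcomp.continuousOn.comp_continuous (continuous_circleMap 0 1)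
    intro θ
    rw [mem_closedBall_zero_iff]; simp
  have hre := Complex.reCLM.intervalIntegral_comp_comm (hHc.intervalIntegrable (μ := volume) 0 (2 * Real.pi))
  simp only [Complex.reCLM_apply] at hre
  have hmean2 : (2 * Real.pi)⁻¹ * ∫ θ in (0 : ℝ)..(2 * Real.pi), (HzU u (φ ((ρ : ℂ) * circleMap 0 1 θ))).re =
      (HzU u (φ 0)).re := by
    have := congrArg Complex.re hmean
    rw [Complex.smul_re, smul_eq_mul, mul_zero] at this
    rw [hre]
    exact this
  have hgφc : Continuous (fun θ : ℝ => ‖g (φ ((ρ : ℂ) * circleMap 0 1 θ))‖ ^ 2) := by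
    apply Continuous.pow
    apply Continuous.norm
    apply (hg.differentiableOn.continuousOn).comp_continuous (cont_circle hd h0 h1)
    intro θ
    exact mem_ball_zero_iff.2 (hφρ θ)
  calc Real.circleAverage (fun z => ‖g (φ (ρ * z))‖ ^ 2) 0 1
      = (2 * Real.pi)⁻¹ * ∫ θ in (0 : ℝ)..(2 * Real.pi), ‖g (φ ((ρ : ℂ) * circleMap 0 1 θ))‖ ^ 2 := by
        rw [Real.circleAverage_def, smul_eq_mul]
    _ ≤ (2 * Real.pi)⁻¹ * ∫ θ in (0 : ℝ)..(2 * Real.pi), (HzU u (φ ((ρ : ℂ) * circleMap 0 1 θ))).re := by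
        apply mul_le_mul_of_nonneg_left _ (by positivity)
        apply intervalIntegral.integral_mono (by positivity) (hgφc.intervalIntegrable _ _)
          ((Complex.continuous_re.comp hHc).intervalIntegrable _ _)
        exact hpt
    _ = (HzU u (φ 0)).re := hmean2
    _ = (2 * Real.pi)⁻¹ * ∫ θ in (0 : ℝ)..(2 * Real.pi), Pk (φ 0) θ * u (circleMap 0 1 θ) := re_HzU huc hφ0
    _ ≤ (2 * Real.pi)⁻¹ * ∫ θ in (0 : ℝ)..(2 * Real.pi), (1 + ‖φ 0‖) / (1 - ‖φ 0‖) * u (circleMap 0 1 θ) := by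
        apply mul_le_mul_of_nonneg_left _ (by positivity)
        apply intervalIntegral.integral_mono (by positivity)
          (((Pk_cont hφ0).mul huc).intervalIntegrable _ _) ((continuous_const.mul huc).intervalIntegrable _ _)
        intro θ
        apply mul_le_mul_of_nonneg_right (Pk_le hφ0 θ)
        rw [hu]
        positivity
    _ = (1 + ‖φ 0‖) / (1 - ‖φ 0‖) * Real.circleAverage (fun z => ‖g z‖ ^ 2) 0 1 := by
        rw [intervalIntegral.integral_const_mul, Real.circleAverage_def, smul_eq_mul, hu]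
        ring

lemma dilate_dc (f : H2) {R : ℝ} (h0 : 0 < R) (h1 : R < 1) :
    DiffContOnCl ℂ (fun z : ℂ => ev f ((R : ℂ) * z)) (ball 0 1) := by
  have hRn : ‖(R : ℂ)‖ = R := by rw [Complex.norm_real, Real.norm_of_nonneg h0.le]
  apply DifferentiableOn.diffContOnCl
  rw [closure_ball (0 : ℂ) one_ne_zero]
  apply (ev_diff f).comp (by fun_prop)
  intro z hz
  rw [mem_closedBall_zero_iff] at hz
  rw [mem_ball_zero_iff, norm_mul, hRn]
  nlinarith [norm_nonneg z]

lemma dilate_avg (f : H2) {R : ℝ} (h0 : 0 < R) (h1 : R < 1) :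
    Real.circleAverage (fun z => ‖ev f ((R : ℂ) * z)‖ ^ 2) 0 1 ≤ ‖f‖ ^ 2 := by
  have h2 := parseval (ev_diff f) h0 h1
  have h3 := h2_hasSum f
  refine hasSum_le (fun k => ?_) h2 h3
  rw [← ev_tc (ev_diff f) (fun z _ => rfl) k]
  exact mul_le_of_le_one_right (by positivity) (pow_le_one₀ h0.le h1.le)

include hd hm in
lemma comp_avg (f : H2) {ρ : ℝ} (h0 : 0 < ρ) (h1 : ρ < 1) :
    Real.circleAverage (fun z => ‖ev f (φ (ρ * z))‖ ^ 2) 0 1 ≤
      (1 + ‖φ 0‖) / (1 - ‖φ 0‖) * ‖f‖ ^ 2 := by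
  have hφ0 : ‖φ 0‖ < 1 := phi_lt hm (by simp)
  have hC : 0 ≤ (1 + ‖φ 0‖) / (1 - ‖φ 0‖) := div_nonneg (by positivity) (by linarith)
  have hev : ∀ᶠ r : ℝ in 𝓝[<] 1, 0 < r ∧ r < 1 := by
    filter_upwards [Ioo_mem_nhdsLT (show (0 : ℝ) < 1 by norm_num)] with r hr
    exact hr
  have hle : ∀ᶠ R : ℝ in 𝓝[<] 1, Real.circleAverage (fun z => ‖ev f ((R : ℂ) * φ (ρ * z))‖ ^ 2) 0 1 ≤
      (1 + ‖φ 0‖) / (1 - ‖φ 0‖) * ‖f‖ ^ 2 := by
    filter_upwards [hev] with R hR
    refine (littlewood hd hm (dilate_dc f hR.1 hR.2) h0 h1).trans ?_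
    exact mul_le_mul_of_nonneg_left (dilate_avg f hR.1 hR.2) hC
  -- uniform bound on the circle
  obtain ⟨q, hq0, hq1, hq⟩ : ∃ q : ℝ, 0 ≤ q ∧ q < 1 ∧ ∀ θ : ℝ, ‖φ ((ρ : ℂ) * circleMap 0 1 θ)‖ ≤ q := by
    obtain ⟨x, hx, hmax⟩ := (isCompact_sphere (0 : ℂ) ρ).exists_isMaxOn
      (NormedSpace.sphere_nonempty.2 h0.le)
      ((hd.continuousOn.mono (fun z hz => by
        rw [mem_ball_zero_iff, mem_sphere_zero_iff_norm.1 hz]; exact h1)).norm)
    refine ⟨‖φ x‖, norm_nonneg _, phi_lt hm (by rw [mem_sphere_zero_iff_norm.1 hx]; exact h1), ?_⟩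
    intro θ
    apply hmax
    rw [mem_sphere_zero_iff_norm, norm_mul, Complex.norm_real, Real.norm_of_nonneg h0.le,
      norm_circleMap_zero, abs_one, mul_one]
  have hlim : Tendsto (fun R : ℝ => Real.circleAverage (fun z => ‖ev f ((R : ℂ) * φ (ρ * z))‖ ^ 2) 0 1) (𝓝[<] 1)
      (𝓝 (Real.circleAverage (fun z => ‖ev f (φ (ρ * z))‖ ^ 2) 0 1)) := by
    simp only [Real.circleAverage_def]
    apply Tendsto.const_smul
    apply intervalIntegral.tendsto_integral_filter_of_dominated_convergence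
      (fun _ => (‖f‖ * (1 - q)⁻¹) ^ 2)
    · filter_upwards [hev] with R hR
      apply Continuous.aestronglyMeasurable
      apply Continuous.pow
      apply Continuous.norm
      apply (ev_diff f).continuousOn.comp_continuous
        (show Continuous (fun θ : ℝ => (R : ℂ) * φ ((ρ : ℂ) * circleMap 0 1 θ)) from
          continuous_const.mul (cont_circle hd h0 h1))
      intro θ
      rw [mem_ball_zero_iff, norm_mul, Complex.norm_real, Real.norm_of_nonneg hR.1.le]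
      have := norm_circle_lt hm h0 h1 θ
      nlinarith [norm_nonneg (φ ((ρ : ℂ) * circleMap 0 1 θ)), hR.1, hR.2]
    · filter_upwards [hev] with R hR
      filter_upwards with θ _
      rw [norm_pow, norm_norm]
      apply pow_le_pow_left₀ (norm_nonneg _)
      have h3 : ‖(R : ℂ) * φ ((ρ : ℂ) * circleMap 0 1 θ)‖ ≤ q := by
        rw [norm_mul, Complex.norm_real, Real.norm_of_nonneg hR.1.le]
        have := hq θ
        nlinarith [norm_nonneg (φ ((ρ : ℂ) * circleMap 0 1 θ)), hR.1, hR.2]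
      refine (ev_bound f (lt_of_le_of_lt h3 hq1)).trans ?_
      apply mul_le_mul_of_nonneg_left _ (norm_nonneg _)
      apply inv_anti₀ (by linarith)
      linarith
    · exact intervalIntegrable_const
    · filter_upwards with θ _
      have hc : ContinuousAt (ev f) (φ ((ρ : ℂ) * circleMap 0 1 θ)) :=
        (ev_diff f).continuousOn.continuousAt (isOpen_ball.mem_nhds (mem_ball_zero_iff.2 (norm_circle_lt hm h0 h1 θ)))
      have h3 : Tendsto (fun R : ℝ => (R : ℂ) * φ ((ρ : ℂ) * circleMap 0 1 θ)) (𝓝[<] 1)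
          (𝓝 (φ ((ρ : ℂ) * circleMap 0 1 θ))) := by
        have h4 : Tendsto (fun R : ℝ => (R : ℂ) * φ ((ρ : ℂ) * circleMap 0 1 θ)) (𝓝 1)
            (𝓝 (((1 : ℝ) : ℂ) * φ ((ρ : ℂ) * circleMap 0 1 θ))) := by
          apply Continuous.tendsto
          fun_prop
        rw [Complex.ofReal_one, one_mul] at h4
        exact h4.mono_left nhdsWithin_le_nhds
      exact ((hc.tendsto.comp h3).norm).pow 2
  exact le_of_tendsto hlim hle

lemma tc_sq_bound {h : ℂ → ℂ} (hh : DifferentiableOn ℂ h (ball 0 1)) {B : ℝ}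
    (hb : ∀ ρ : ℝ, 0 < ρ → ρ < 1 → Real.circleAverage (fun z => ‖h (ρ * z)‖ ^ 2) 0 1 ≤ B) :
    Summable (fun k : ℕ => ‖tc h k‖ ^ 2) ∧ ∑' k : ℕ, ‖tc h k‖ ^ 2 ≤ B := by
  have hfin : ∀ s : Finset ℕ, ∑ k ∈ s, ‖tc h k‖ ^ 2 ≤ B := by
    intro s
    have h1 : ∀ᶠ ρ : ℝ in 𝓝[<] 1, ∑ k ∈ s, ‖tc h k‖ ^ 2 * ρ ^ (2 * k) ≤ B := by
      filter_upwards [Ioo_mem_nhdsLT (show (0 : ℝ) < 1 by norm_num)] with ρ hρ
      have h2 := parseval hh hρ.1 hρ.2
      have hρ0 := hρ.1
      refine (sum_le_hasSum s (fun k _ => by positivity) h2).trans ?_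
      exact hb ρ hρ.1 hρ.2
    have h2 : Tendsto (fun ρ : ℝ => ∑ k ∈ s, ‖tc h k‖ ^ 2 * ρ ^ (2 * k)) (𝓝[<] 1)
        (𝓝 (∑ k ∈ s, ‖tc h k‖ ^ 2 * 1 ^ (2 * k))) := by
      apply tendsto_finsetSum
      intro k _
      apply Tendsto.const_mul
      exact ((continuous_pow (2 * k)).tendsto (1 : ℝ)).mono_left nhdsWithin_le_nhds
    have h3 := le_of_tendsto h2 h1
    simpa using h3
  have hs := summable_of_sum_le (f := fun k : ℕ => ‖tc h k‖ ^ 2) (fun k => by positivity) hfin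
  exact ⟨hs, hs.tsum_le_of_sum_le hfin⟩

include hd hm in
lemma comp_diff (f : H2) : DifferentiableOn ℂ (fun z => ev f (φ z)) (ball 0 1) :=
  (ev_diff f).comp hd hm

include hd hm in
/-- Littlewood's theorem: existence of the bounded composition operator -/
theorem comp_unique : ∃! T : H2 →L[ℂ] H2, IsCompositionOperator φ T := by
  have hφ0 : ‖φ 0‖ < 1 := phi_lt hm (by simp)
  obtain ⟨C, hC⟩ : ∃ C : ℝ, C = (1 + ‖φ 0‖) / (1 - ‖φ 0‖) := ⟨_, rfl⟩
  have hC0 : 0 ≤ C := by rw [hC]; exact div_nonneg (by positivity) (by linarith)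
  have hb : ∀ f : H2, Summable (fun k : ℕ => ‖tc (fun z => ev f (φ z)) k‖ ^ 2) ∧
      ∑' k : ℕ, ‖tc (fun z => ev f (φ z)) k‖ ^ 2 ≤ C * ‖f‖ ^ 2 := by
    intro f
    apply tc_sq_bound (comp_diff hd hm f)
    intro ρ h0 h1
    rw [hC]
    exact comp_avg hd hm f h0 h1
  obtain ⟨T0, hT0⟩ : ∃ T0 : H2 → H2, T0 = fun f => ⟨fun k => tc (fun z => ev f (φ z)) k, h2_mem (hb f).1⟩ := ⟨_, rfl⟩
  have hT0k : ∀ f k, T0 f k = tc (fun z => ev f (φ z)) k := by
    intro f k; rw [hT0]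
  have hT0ev : ∀ f z, ‖z‖ < 1 → ev (T0 f) z = ev f (φ z) := by
    intro f z hz
    have h1 := ev_hasSum (T0 f) hz
    have h2 := tc_hasSum (comp_diff hd hm f) hz
    refine h1.unique (h2.congr_fun (fun k => ?_))
    rw [hT0k]
  have hφ1 : ∀ z : ℂ, ‖z‖ < 1 → ‖φ z‖ < 1 := fun z hz => phi_lt hm hz
  refine ⟨LinearMap.mkContinuous
    { toFun := T0
      map_add' := by
        intro f g
        apply ev_inj
        intro z hz
        rw [hT0ev _ _ hz, ev_add _ _ hz, ev_add _ _ (hφ1 z hz), hT0ev _ _ hz, hT0ev _ _ hz]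
      map_smul' := by
        intro c f
        apply ev_inj
        intro z hz
        rw [RingHom.id_apply, hT0ev _ _ hz, ev_smul _ _ hz, ev_smul _ _ (hφ1 z hz), hT0ev _ _ hz] } (Real.sqrt C) ?_, ?_, ?_⟩
  · intro f
    apply h2_norm_le (by positivity)
    have h1 : ∑' n, ‖(T0 f) n‖ ^ 2 ≤ C * ‖f‖ ^ 2 := by
      simp only [hT0k]
      exact (hb f).2
    rw [mul_pow, Real.sq_sqrt hC0]
    exact h1
  · intro f z hz
    exact hT0ev f z hz
  · intro T' hT'
    ext1 f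
    apply ev_inj
    intro z hz
    rw [hT' f z hz]
    exact (hT0ev f z hz).symm

end

end Pool.Agent.H6.NS
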