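import Mathlib
import Pool.Agent.H6.SA6

set_option autoImplicit false

namespace Pool.Agent.H6.NS

open Complex Metric Filter Topology ComplexConjugate MeasureTheory Set
open Pool.Agent.H6.SAT

/-- the compressed operators -/
noncomputable def An (T : H2 →L[ℂ] H2) (n : ℕ) : H2 →L[ℂ] H2 :=
  (ContinuousLinearMap.adjoint shL) ^ n * T * shL ^ n

lemma An_apply (T : H2 →L[ℂ] H2) (n : ℕ) (f : H2) :
    An T n f = ((ContinuousLinearMap.adjoint shL) ^ n) (T ((shL ^ n) f)) := rfl

lemma An_norm (T : H2 →L[ℂ] H2) (n : ℕ) (f : H2) : ‖An T n f‖ ≤ ‖T‖ * ‖f‖ := by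
  rw [An_apply]
  refine (adj_pow_norm n _).trans ?_
  refine (T.le_opNorm _).trans ?_
  rw [shL_pow_norm]

section

variable {φ : ℂ → ℂ} (hd : DifferentiableOn ℂ φ (ball 0 1))
  (hm : Set.MapsTo φ (ball 0 1) (ball 0 1)) {T : H2 →L[ℂ] H2} (hT : IsCompositionOperator φ T)

include hd hm hT in
lemma T_single (j k : ℕ) : T (lp.single 2 j (1 : ℂ)) k = tc (fun z => φ z ^ j) k := by
  apply ev_tc (h := fun z => φ z ^ j) (hd.pow j)
  intro z hz
  rw [hT _ z hz, ev_single j (phi_lt hm hz)]

include hd hm hT in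
lemma An_single (n j k : ℕ) : An T n (lp.single 2 j (1 : ℂ)) k = tc (fun z => φ z ^ (n + j)) (n + k) := by
  rw [An_apply, adj_pow, shL_pow_single, T_single hd hm hT, add_comm j n, add_comm k n]

include hd hm hT in
lemma An_single_norm (n j : ℕ) : ‖An T n (lp.single 2 j (1 : ℂ))‖ ^ 2 =
    ∑' k, ‖tc (fun z => φ z ^ (n + j)) (n + k)‖ ^ 2 := by
  rw [← (h2_hasSum _).tsum_eq]
  apply tsum_congr
  intro k
  rw [An_single hd hm hT]

include hd hm hT in
lemma An_zero_norm (n : ℕ) : ‖An T n (lp.single 2 0 (1 : ℂ))‖ ^ 2 = Tn φ n := by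
  rw [An_single_norm hd hm hT]
  rfl

include hd hm hT in
lemma An_j_norm (n j : ℕ) : ‖An T n (lp.single 2 j (1 : ℂ))‖ ^ 2 =
    ∑ i ∈ Finset.range j, ‖tc (fun z => φ z ^ (n + j)) (n + i)‖ ^ 2 + Tn φ (n + j) := by
  rw [An_single_norm hd hm hT]
  have hs : Summable (fun k => ‖tc (fun z => φ z ^ (n + j)) (n + k)‖ ^ 2) := by
    have := (summable_nat_add_iff n).2 (pow_summable hd hm (n + j))
    refine this.congr (fun k => ?_)
    rw [add_comm k n]
  rw [← hs.sum_add_tsum_nat_add j]
  congr 1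
  unfold Tn
  apply tsum_congr
  intro k
  congr 3
  omega

include hd hm hT in
lemma strong_zero (hrot : ¬ ∃ c : ℂ, ‖c‖ = 1 ∧ ∀ z ∈ ball (0 : ℂ) 1, φ z = c * z)
    (hTn : Tendsto (Tn φ) atTop (𝓝 0)) (f : H2) : Tendsto (fun n => An T n f) atTop (𝓝 0) := by
  have hbasis : ∀ j : ℕ, Tendsto (fun n => An T n (lp.single 2 j (1 : ℂ))) atTop (𝓝 0) := by
    intro j
    rw [tendsto_zero_iff_norm_tendsto_zero]
    have h1 : Tendsto (fun n => ‖An T n (lp.single 2 j (1 : ℂ))‖ ^ 2) atTop (𝓝 0) := by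
      simp only [An_j_norm hd hm hT]
      have h2 : Tendsto (fun n => ∑ i ∈ Finset.range j, ‖tc (fun z => φ z ^ (n + j)) (n + i)‖ ^ 2) atTop
          (𝓝 (∑ i ∈ Finset.range j, 0)) := by
        apply tendsto_finsetSum
        intro i _
        have := ((wat hd hm hrot j i).norm).pow 2
        rw [norm_zero, zero_pow two_ne_zero] at this
        exact this
      rw [Finset.sum_const_zero] at h2
      have h3 := h2.add (hTn.comp (tendsto_add_atTop_nat j))
      rw [add_zero] at h3
      exact h3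
    have h4 := h1.sqrt
    rw [Real.sqrt_zero] at h4
    refine h4.congr (fun n => ?_)
    rw [Real.sqrt_sq (norm_nonneg _)]
  rw [Metric.tendsto_atTop']
  intro ε hε
  obtain ⟨M, hM⟩ : ∃ M : ℝ, M = ‖T‖ + 1 := ⟨_, rfl⟩
  have hM0 : 0 < M := by rw [hM]; linarith [norm_nonneg T]
  have hMT : ‖T‖ ≤ M := by rw [hM]; linarith
  have hs : HasSum (fun i => lp.single 2 i (f i)) f := lp.hasSum_single (by norm_num) f
  have hs2 := hs.tendsto_sum_nat
  rw [Metric.tendsto_atTop'] at hs2
  obtain ⟨m, hm'⟩ := hs2 (ε / (2 * M)) (by positivity)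
  have hclose := hm' (m + 1) (Nat.lt_succ_self m)
  obtain ⟨g, hg⟩ : ∃ g : H2, g = ∑ i ∈ Finset.range (m + 1), lp.single 2 i (f i) := ⟨_, rfl⟩
  rw [← hg, dist_eq_norm] at hclose
  have hglim : Tendsto (fun n => An T n g) atTop (𝓝 0) := by
    have h1 : ∀ n, An T n g = ∑ i ∈ Finset.range (m + 1), f i • An T n (lp.single 2 i (1 : ℂ)) := by
      intro n
      rw [hg, map_sum]
      apply Finset.sum_congr rfl
      intro i _
      rw [← map_smul]
      congr 1
      rw [← lp.single_smul, smul_eq_mul, mul_one]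
    simp only [h1]
    have h2 : Tendsto (fun n => ∑ i ∈ Finset.range (m + 1), f i • An T n (lp.single 2 i (1 : ℂ))) atTop
        (𝓝 (∑ i ∈ Finset.range (m + 1), f i • (0 : H2))) := by
      apply tendsto_finsetSum
      intro i _
      exact (hbasis i).const_smul _
    simpa using h2
  rw [tendsto_zero_iff_norm_tendsto_zero] at hglim
  obtain ⟨N, hN⟩ := (hglim.eventually (gt_mem_nhds (show 0 < ε / 2 by positivity))).exists_forall_of_atTop
  refine ⟨N, fun n hn => ?_⟩
  rw [dist_zero_right]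
  have h1 := hN n hn.le
  have h2 : An T n f = An T n g - An T n (g - f) := by
    rw [map_sub]; abel
  have h3 : ‖An T n (g - f)‖ ≤ M * (ε / (2 * M)) := by
    refine (An_norm T n _).trans ?_
    exact mul_le_mul hMT hclose.le (norm_nonneg _) hM0.le
  have h4 : M * (ε / (2 * M)) = ε / 2 := by field_simp
  rw [h4] at h3
  rw [h2]
  refine lt_of_le_of_lt (norm_sub_le _ _) ?_
  linarith

include hd hm hT in
theorem sat_iff : IsSAT shL T ↔ (∀ z ∈ ball (0 : ℂ) 1, φ z = z) ∨
    ∀ᵐ θ ∂(volume.restrict (Ioo 0 (2 * Real.pi))),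
      UnimodularAt φ (circleMap 0 1 θ) → angDeriv φ (circleMap 0 1 θ) < 1 := by
  constructor
  · rintro ⟨L, hL⟩
    have hL' : ∀ f, Tendsto (fun n => An T n f) atTop (𝓝 (L f)) := hL
    by_cases hrot : ∃ c : ℂ, ‖c‖ = 1 ∧ ∀ z ∈ ball (0 : ℂ) 1, φ z = c * z
    · left
      obtain ⟨c, hc, hφ⟩ := hrot
      have h1 : ∀ n : ℕ, An T n (lp.single 2 0 (1 : ℂ)) 0 = c ^ n := by
        intro n
        rw [An_single hd hm hT, add_zero]
        -- coefficient of the monomial
        have h2 : (c ^ n • (lp.single 2 n (1 : ℂ)) : H2) n = tc (fun z => φ z ^ n) n := by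
          apply ev_tc (h := fun z => φ z ^ n) (hd.pow n)
          intro z hz
          rw [ev_smul _ _ hz, ev_single n hz, hφ z (mem_ball_zero_iff.2 hz), mul_pow]
        rw [← h2, lp.coeFn_smul, Pi.smul_apply, lp.single_apply_self, smul_eq_mul, mul_one]
      have h2 : Tendsto (fun n : ℕ => c ^ n) atTop (𝓝 (L (lp.single 2 0 (1 : ℂ)) 0)) := by
        have h3 := hL' (lp.single 2 0 (1 : ℂ))
        rw [tendsto_iff_norm_sub_tendsto_zero] at h3 ⊢
        refine squeeze_zero (fun _ => norm_nonneg _) (fun n => ?_) h3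
        have h4 := h2_coeff_le (An T n (lp.single 2 0 (1 : ℂ)) - L (lp.single 2 0 (1 : ℂ))) 0
        rw [lp.coeFn_sub, Pi.sub_apply, h1] at h4
        exact h4
      obtain ⟨l, hl⟩ : ∃ l, l = L (lp.single 2 0 (1 : ℂ)) 0 := ⟨_, rfl⟩
      rw [← hl] at h2
      have hln : ‖l‖ = 1 := by
        have h3 := h2.norm
        have h4 : Tendsto (fun n : ℕ => ‖c ^ n‖) atTop (𝓝 1) := by
          have : ∀ n : ℕ, ‖c ^ n‖ = 1 := by
            intro n; rw [norm_pow, hc, one_pow]
          simp only [this]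
          exact tendsto_const_nhds
        exact tendsto_nhds_unique h3 h4
      have h3 : Tendsto (fun n : ℕ => c ^ (n + 1)) atTop (𝓝 l) := h2.comp (tendsto_add_atTop_nat 1)
      have h4 : Tendsto (fun n : ℕ => c ^ (n + 1)) atTop (𝓝 (l * c)) := by
        simp only [pow_succ]
        exact h2.mul_const c
      have h5 := tendsto_nhds_unique h3 h4
      have hl0 : l ≠ 0 := by
        intro h0; rw [h0, norm_zero] at hln; norm_num at hln
      have hc1 : c = 1 := by
        have : l * (c - 1) = 0 := by linear_combination -h5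
        rcases mul_eq_zero.1 this with h6 | h6
        · exact absurd h6 hl0
        · exact sub_eq_zero.1 h6
      intro z hz
      rw [hφ z hz, hc1, one_mul]
    · right
      rw [← tail_iff' hd hm hrot]
      have hLe : L (lp.single 2 0 (1 : ℂ)) = 0 := by
        ext k
        have h1 : Tendsto (fun n : ℕ => An T n (lp.single 2 0 (1 : ℂ)) k) atTop
            (𝓝 (L (lp.single 2 0 (1 : ℂ)) k)) := by
          have h3 := hL' (lp.single 2 0 (1 : ℂ))
          rw [tendsto_iff_norm_sub_tendsto_zero] at h3 ⊢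
          refine squeeze_zero (fun _ => norm_nonneg _) (fun n => ?_) h3
          have h4 := h2_coeff_le (An T n (lp.single 2 0 (1 : ℂ)) - L (lp.single 2 0 (1 : ℂ))) k
          rw [lp.coeFn_sub, Pi.sub_apply] at h4
          exact h4
        simp only [An_single hd hm hT] at h1
        have h2 := wat hd hm hrot 0 k
        rw [tendsto_nhds_unique h1 h2]
        rfl
      have h1 := (hL' (lp.single 2 0 (1 : ℂ))).norm.pow 2
      rw [hLe, norm_zero, zero_pow two_ne_zero] at h1
      simp only [An_zero_norm hd hm hT] at h1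
      exact h1
  · rintro (hid | hae)
    · refine ⟨ContinuousLinearMap.id ℂ H2, fun f => ?_⟩
      have hTid : ∀ g, T g = g := by
        intro g
        apply ev_inj
        intro z hz
        rw [hT g z hz, hid z (mem_ball_zero_iff.2 hz)]
      have h1 : ∀ n, An T n f = f := by
        intro n
        ext k
        rw [An_apply, adj_pow, hTid, shL_pow]
      have h2 : Tendsto (fun n => An T n f) atTop (𝓝 f) := by
        simp only [h1]
        exact tendsto_const_nhds
      exact h2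
    · have hrot : ¬ ∃ c : ℂ, ‖c‖ = 1 ∧ ∀ z ∈ ball (0 : ℂ) 1, φ z = c * z := by
        rintro ⟨c, hc, hφ⟩
        exact rot_not hd hm hc hφ hae
      have hTn := (tail_iff' hd hm hrot).2 hae
      exact ⟨0, fun f => strong_zero hd hm hT hrot hTn f⟩

end

end Pool.Agent.H6.NS
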