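import Mathlib
import Pool.Agent.H6.SA7

set_option autoImplicit false

namespace Pool.Agent.H6.NS

open Complex Metric Filter Topology ComplexConjugate MeasureTheory Set
open Pool.Agent.H6.SAT

section

variable {φ : ℂ → ℂ} (hd : DifferentiableOn ℂ φ (ball 0 1))
  (hm : Set.MapsTo φ (ball 0 1) (ball 0 1)) {T : H2 →L[ℂ] H2} (hT : IsCompositionOperator φ T)

include hd hm hT in
theorem sat_iff2 : (∀ f : H2, ∃ g : H2, Tendsto (fun n => An T n f) atTop (𝓝 g)) ↔
    (∀ z ∈ ball (0 : ℂ) 1, φ z = z) ∨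
    ∀ᵐ θ ∂(volume.restrict (Ioo 0 (2 * Real.pi))),
      UnimodularAt φ (circleMap 0 1 θ) → angDeriv φ (circleMap 0 1 θ) < 1 := by
  constructor
  · intro h
    choose L hL' using h
    by_cases hrot : ∃ c : ℂ, ‖c‖ = 1 ∧ ∀ z ∈ ball (0 : ℂ) 1, φ z = c * z
    · left
      obtain ⟨c, hc, hφ⟩ := hrot
      have h1 : ∀ n : ℕ, An T n (lp.single 2 0 (1 : ℂ)) 0 = c ^ n := by
        intro n
        rw [An_single hd hm hT, add_zero]
        have h2 : (c ^ n • (lp.single 2 n (1 : ℂ)) : H2) n = tc (fun z => φ z ^ n) n := by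
          apply ev_tc (h := fun z => φ z ^ n) (hd.pow n)
          intro z hz
          rw [ev_smul _ _ hz, ev_single n hz, hφ z (mem_ball_zero_iff.2 hz), mul_pow]
        rw [← h2, lp.coeFn_smul, Pi.smul_apply, lp.single_apply_self, smul_eq_mul, mul_one]
      have h2 : Tendsto (fun n : ℕ => c ^ n) atTop (𝓝 (L (lp.single 2 0 (1 : ℂ)) 0)) := by
        have h3 := hL' (lp.single 2 0 (1 : ℂ))
        rw [tendsto_iff_norm_sub_tendsto_zero] at h3 ⊢
        refine squeeze_zero (fun _ => norm_nonneg _) (fun n => ?_) h3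
        have h4 := h2_coeff_le (An T n (lp.single 2 0 (1 : ℂ)) - L (lp.single 2 0 (1 : ℂ))) 0
        rw [lp.coeFn_sub, Pi.sub_apply, h1] at h4
        exact h4
      obtain ⟨l, hl⟩ : ∃ l, l = L (lp.single 2 0 (1 : ℂ)) 0 := ⟨_, rfl⟩
      rw [← hl] at h2
      have hln : ‖l‖ = 1 := by
        have h3 := h2.norm
        have h4 : Tendsto (fun n : ℕ => ‖c ^ n‖) atTop (𝓝 1) := by
          have : ∀ n : ℕ, ‖c ^ n‖ = 1 := by
            intro n; rw [norm_pow, hc, one_pow]
          simp only [this]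
          exact tendsto_const_nhds
        exact tendsto_nhds_unique h3 h4
      have h3 : Tendsto (fun n : ℕ => c ^ (n + 1)) atTop (𝓝 l) := h2.comp (tendsto_add_atTop_nat 1)
      have h4 : Tendsto (fun n : ℕ => c ^ (n + 1)) atTop (𝓝 (l * c)) := by
        simp only [pow_succ]
        exact h2.mul_const c
      have h5 := tendsto_nhds_unique h3 h4
      have hl0 : l ≠ 0 := by
        intro h0; rw [h0, norm_zero] at hln; norm_num at hln
      have hc1 : c = 1 := by
        have : l * (c - 1) = 0 := by linear_combination -h5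
        rcases mul_eq_zero.1 this with h6 | h6
        · exact absurd h6 hl0
        · exact sub_eq_zero.1 h6
      intro z hz
      rw [hφ z hz, hc1, one_mul]
    · right
      rw [← tail_iff' hd hm hrot]
      have hLe : L (lp.single 2 0 (1 : ℂ)) = 0 := by
        ext k
        have h1 : Tendsto (fun n : ℕ => An T n (lp.single 2 0 (1 : ℂ)) k) atTop
            (𝓝 (L (lp.single 2 0 (1 : ℂ)) k)) := by
          have h3 := hL' (lp.single 2 0 (1 : ℂ))
          rw [tendsto_iff_norm_sub_tendsto_zero] at h3 ⊢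
          refine squeeze_zero (fun _ => norm_nonneg _) (fun n => ?_) h3
          have h4 := h2_coeff_le (An T n (lp.single 2 0 (1 : ℂ)) - L (lp.single 2 0 (1 : ℂ))) k
          rw [lp.coeFn_sub, Pi.sub_apply] at h4
          exact h4
        simp only [An_single hd hm hT] at h1
        have h2 := wat hd hm hrot 0 k
        rw [tendsto_nhds_unique h1 h2]
        rfl
      have h1 := (hL' (lp.single 2 0 (1 : ℂ))).norm.pow 2
      rw [hLe, norm_zero, zero_pow two_ne_zero] at h1
      simp only [An_zero_norm hd hm hT] at h1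
      exact h1
  · intro h f
    obtain ⟨L, hL⟩ := (sat_iff hd hm hT).2 h
    exact ⟨L f, hL f⟩

end

/-- elementary membership in the Hardy space -/
def MemH2 (f : ℂ → ℂ) : Prop :=
  DifferentiableOn ℂ f (ball 0 1) ∧ Summable fun k : ℕ => ‖tc f k‖ ^ 2

lemma exists_lp {f : ℂ → ℂ} (hf : MemH2 f) : ∃ F : H2, (∀ k, F k = tc f k) ∧ ∀ z, ‖z‖ < 1 → ev F z = f z := by
  refine ⟨⟨fun k => tc f k, h2_mem hf.2⟩, fun k => rfl, ?_⟩
  intro z hz
  exact (ev_hasSum _ hz).unique (tc_hasSum hf.1 hz)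

lemma memH2_ev (F : H2) : MemH2 (ev F) ∧ ∀ k, tc (ev F) k = F k := by
  have h : ∀ k, F k = tc (ev F) k := fun k => ev_tc (ev_diff F) (fun z _ => rfl) k
  refine ⟨⟨ev_diff F, ?_⟩, fun k => (h k).symm⟩
  simp only [← h]
  exact (h2_hasSum F).summable

lemma ev_shL_pow (n : ℕ) (F : H2) {z : ℂ} (hz : ‖z‖ < 1) : ev ((shL ^ n) F) z = z ^ n * ev F z := by
  induction n with
  | zero => simp
  | succ n ih =>
    rw [pow_succ', mul_apply_eq_comp, shL_isShift _ z hz, ih]
    ring

/-- the final characterisation in elementary terms -/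
theorem final {φ : ℂ → ℂ} (hd : DifferentiableOn ℂ φ (ball 0 1))
    (hm : Set.MapsTo φ (ball 0 1) (ball 0 1)) :
    (∀ f, MemH2 f → MemH2 (fun z => f (φ z))) ∧
    ((∀ f, MemH2 f → ∃ g, MemH2 g ∧
      (∀ n : ℕ, Summable fun k : ℕ => ‖tc (fun z => φ z ^ n * f (φ z)) (n + k) - tc g k‖ ^ 2) ∧
      Tendsto (fun n : ℕ => ∑' k : ℕ, ‖tc (fun z => φ z ^ n * f (φ z)) (n + k) - tc g k‖ ^ 2) atTop (𝓝 0)) ↔
      ((∀ z ∈ ball (0 : ℂ) 1, φ z = z) ∨
        ∀ᵐ θ ∂(volume.restrict (Ioo 0 (2 * Real.pi))),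
          UnimodularAt φ (circleMap 0 1 θ) → angDeriv φ (circleMap 0 1 θ) < 1)) := by
  obtain ⟨T, hT, _⟩ := comp_unique hd hm
  have hcoef : ∀ f, MemH2 f → ∀ F : H2, (∀ z, ‖z‖ < 1 → ev F z = f z) → ∀ n k,
      An T n F k = tc (fun z => φ z ^ n * f (φ z)) (n + k) := by
    intro f hf F hF n k
    rw [An_apply, adj_pow, add_comm k n]
    apply ev_tc (h := fun z => φ z ^ n * f (φ z)) ((hd.pow n).mul (hf.1.comp hd hm))
    intro z hz
    rw [hT _ z hz, ev_shL_pow n F (phi_lt hm hz), hF _ (phi_lt hm hz)]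
  constructor
  · intro f hf
    obtain ⟨F, _, hF2⟩ := exists_lp hf
    refine ⟨hf.1.comp hd hm, ?_⟩
    have h1 : ∀ k, T F k = tc (fun z => f (φ z)) k := by
      intro k
      apply ev_tc (h := fun z => f (φ z)) (hf.1.comp hd hm)
      intro z hz
      rw [hT _ z hz, hF2 _ (phi_lt hm hz)]
    simp only [← h1]
    exact (h2_hasSum (T F)).summable
  · rw [← sat_iff2 hd hm hT]
    constructor
    · intro h F
      obtain ⟨hmem, htc⟩ := memH2_ev F
      obtain ⟨g, hg, hs, hlim⟩ := h (ev F) hmem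
      obtain ⟨G, hG1, _⟩ := exists_lp hg
      refine ⟨G, ?_⟩
      rw [tendsto_iff_norm_sub_tendsto_zero]
      have h1 : ∀ n, ‖An T n F - G‖ ^ 2 = ∑' k : ℕ, ‖tc (fun z => φ z ^ n * ev F (φ z)) (n + k) - tc g k‖ ^ 2 := by
        intro n
        rw [← (h2_hasSum _).tsum_eq]
        apply tsum_congr
        intro k
        rw [lp.coeFn_sub, Pi.sub_apply, hG1, hcoef (ev F) hmem F (fun z _ => rfl)]
      simp only [← h1] at hlim
      have h4 := hlim.sqrt
      rw [Real.sqrt_zero] at h4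
      refine h4.congr (fun n => ?_)
      rw [Real.sqrt_sq (norm_nonneg _)]
    · intro h f hf
      obtain ⟨F, _, hF2⟩ := exists_lp hf
      obtain ⟨G, hG⟩ := h F
      obtain ⟨hmem, htc⟩ := memH2_ev G
      have h1 : ∀ n k, tc (fun z => φ z ^ n * f (φ z)) (n + k) - tc (ev G) k = (An T n F - G : H2) k := by
        intro n k
        rw [lp.coeFn_sub, Pi.sub_apply, htc, hcoef f hf F hF2]
      refine ⟨ev G, hmem, ?_, ?_⟩
      · intro n
        simp only [h1]
        exact (h2_hasSum _).summable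
      · simp only [h1, (h2_hasSum _).tsum_eq]
        rw [tendsto_iff_norm_sub_tendsto_zero] at hG
        have := hG.pow 2
        rw [zero_pow two_ne_zero] at this
        exact this

end Pool.Agent.H6.NS
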