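import Mathlib

namespace Pool.Agent.H6.SQF

open Finset MvPolynomial

variable {K : Type*} [Field K]

/-- weights on subsets -/
noncomputable def Wt (t ω : Fin 7 → K) (s : Finset (Fin 7)) : K :=
  (∏ i ∈ s, ω i) * ∏ i ∈ s, ∏ j ∈ s.erase i, (t i - t j)

lemma Wt_insert (t ω : Fin 7 → K) (T : Finset (Fin 7)) (i : Fin 7) (hi : i ∉ T) :
    Wt t ω (insert i T) = Wt t ω T * (ω i * ∏ m ∈ T, ((t i - t m) * (t m - t i))) := by
  unfold Wt
  rw [Finset.prod_insert hi, Finset.prod_insert hi, Finset.erase_insert hi]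
  have : ∏ x ∈ T, ∏ j ∈ (insert i T).erase x, (t x - t j) =
      ∏ x ∈ T, ((t x - t i) * ∏ j ∈ T.erase x, (t x - t j)) := by
    refine Finset.prod_congr rfl fun x hx => ?_
    have hxi : x ≠ i := fun h => hi (h ▸ hx)
    rw [Finset.erase_insert_of_ne (Ne.symm hxi), Finset.prod_insert]
    intro h
    exact hi (Finset.mem_of_mem_erase h)
  rw [this, Finset.prod_mul_distrib, Finset.prod_mul_distrib]
  ring

lemma lagr (t : Fin 7 → K) (ht : Function.Injective t) (P : Polynomial K)
    (hP : P.degree < 6) :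
    ∑ i, P.eval (t i) * (∏ j ∈ univ.erase i, (t i - t j))⁻¹ = 0 := by
  have h1 := Lagrange.coeff_eq_sum (s := (univ : Finset (Fin 7))) (v := t) ht.injOn (P := P)
    (lt_of_lt_of_le hP (by norm_num))
  have h2 : P.coeff (#(univ : Finset (Fin 7)) - 1) = 0 := by
    refine Polynomial.coeff_eq_zero_of_degree_lt ?_
    simpa using hP
  rw [h2] at h1
  simp only [div_eq_mul_inv] at h1
  exact h1.symm

lemma pair_sum (t a ω : Fin 7 → K) (ht : Function.Injective t)
    (hω : ∀ i, a i * ω i = (∏ j ∈ univ.erase i, (t i - t j))⁻¹)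
    (T : Finset (Fin 7)) (hT : T.card = 2) (e : ℕ) (he : e ≤ 1) :
    ∑ i ∈ Tᶜ, (a i * t i ^ e) * Wt t ω (insert i T) = 0 := by
  have h1 : ∀ i ∈ Tᶜ, (a i * t i ^ e) * Wt t ω (insert i T) =
      Wt t ω T * ((Polynomial.X ^ e * ∏ m ∈ T, ((Polynomial.X - Polynomial.C (t m)) *
        (Polynomial.C (t m) - Polynomial.X))).eval (t i) *
        (∏ j ∈ univ.erase i, (t i - t j))⁻¹) := by
    intro i hi
    rw [Wt_insert t ω T i (by simpa using hi), ← hω i]
    simp only [Polynomial.eval_mul, Polynomial.eval_pow, Polynomial.eval_X, Polynomial.eval_prod,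
      Polynomial.eval_sub, Polynomial.eval_C]
    ring
  rw [Finset.sum_congr rfl h1, ← Finset.mul_sum]
  have h2 : ∑ i ∈ Tᶜ, ((Polynomial.X ^ e * ∏ m ∈ T, ((Polynomial.X - Polynomial.C (t m)) *
        (Polynomial.C (t m) - Polynomial.X))).eval (t i) *
        (∏ j ∈ univ.erase i, (t i - t j))⁻¹) =
      ∑ i, ((Polynomial.X ^ e * ∏ m ∈ T, ((Polynomial.X - Polynomial.C (t m)) *
        (Polynomial.C (t m) - Polynomial.X))).eval (t i) *
        (∏ j ∈ univ.erase i, (t i - t j))⁻¹) := by
    refine Finset.sum_subset (Finset.subset_univ _) fun i _ hi => ?_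
    have hi' : i ∈ T := by simpa using hi
    have : (∏ m ∈ T, ((Polynomial.X - Polynomial.C (t m)) *
        (Polynomial.C (t m) - Polynomial.X))).eval (t i) = 0 := by
      rw [Polynomial.eval_prod]
      exact Finset.prod_eq_zero hi' (by simp)
    rw [Polynomial.eval_mul, this]
    simp
  rw [h2, lagr t ht, mul_zero]
  obtain ⟨j, k, hjk, rfl⟩ := Finset.card_eq_two.mp hT
  rw [Finset.prod_pair hjk]
  have h3 : ∀ m : Fin 7, ((Polynomial.X - Polynomial.C (t m)) *
        (Polynomial.C (t m) - Polynomial.X) : Polynomial K).degree ≤ 2 := by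
    intro m
    refine (Polynomial.degree_mul_le _ _).trans ?_
    have e1 : (Polynomial.X - Polynomial.C (t m) : Polynomial K).degree = 1 :=
      Polynomial.degree_X_sub_C _
    have e2 : (Polynomial.C (t m) - Polynomial.X : Polynomial K).degree = 1 := by
      rw [← neg_sub, Polynomial.degree_neg]
      exact Polynomial.degree_X_sub_C _
    rw [e1, e2]; norm_num
  refine lt_of_le_of_lt (Polynomial.degree_mul_le _ _) ?_
  refine lt_of_le_of_lt (add_le_add (Polynomial.degree_X_pow_le e)
    ((Polynomial.degree_mul_le _ _).trans (add_le_add (h3 j) (h3 k)))) ?_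
  interval_cases e <;> norm_num

/-- indicator exponent -/
noncomputable def ind (s : Finset (Fin 7)) : Fin 7 →₀ ℕ := Finsupp.indicator s fun _ _ => 1

lemma ind_apply (s : Finset (Fin 7)) (i : Fin 7) : ind s i = if i ∈ s then 1 else 0 := by
  unfold ind
  rw [Finsupp.indicator_apply]
  split_ifs <;> rfl

/-- the functional -/
noncomputable def L (t ω : Fin 7 → K) : MvPolynomial (Fin 7) K →ₗ[K] K :=
  ∑ s ∈ powersetCard 3 (univ : Finset (Fin 7)), Wt t ω s • MvPolynomial.lcoeff K (ind s)

lemma L_apply (t ω : Fin 7 → K) (p : MvPolynomial (Fin 7) K) : L t ω p =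
    ∑ s ∈ powersetCard 3 (univ : Finset (Fin 7)), Wt t ω s * p.coeff (ind s) := by
  simp [L]

lemma L_sq (t ω : Fin 7 → K) (g : MvPolynomial (Fin 7) K) (i : Fin 7) :
    L t ω (g * X i ^ 2) = 0 := by
  rw [L_apply]
  refine Finset.sum_eq_zero fun s _ => ?_
  rw [X_pow_eq_monomial, coeff_mul_monomial', if_neg, mul_zero]
  intro h
  have h1 := h i
  rw [Finsupp.single_eq_same, ind_apply] at h1
  split_ifs at h1 <;> omega

lemma L_lin (t a ω : Fin 7 → K) (ht : Function.Injective t)
    (hω : ∀ i, a i * ω i = (∏ j ∈ univ.erase i, (t i - t j))⁻¹) (e : ℕ) (he : e ≤ 1)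
    (g : MvPolynomial (Fin 7) K) :
    L t ω (g * ∑ i, C (a i * t i ^ e) * X i) = 0 := by
  rw [L_apply]
  have h1 : ∀ s ∈ powersetCard 3 (univ : Finset (Fin 7)),
      Wt t ω s * (g * ∑ i, C (a i * t i ^ e) * X i).coeff (ind s) =
      ∑ i ∈ s, (a i * t i ^ e) * Wt t ω s * g.coeff (ind (s.erase i)) := by
    intro s hs
    rw [Finset.mul_sum, coeff_sum, Finset.mul_sum]
    rw [← Finset.sum_subset (Finset.subset_univ s)]
    · refine Finset.sum_congr rfl fun i hi => ?_
      have h2 : g * (C (a i * t i ^ e) * X i) = C (a i * t i ^ e) * (g * X i) := by ring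
      rw [h2, coeff_C_mul, coeff_mul_X', if_pos]
      · have h3 : ind s - Finsupp.single i 1 = ind (s.erase i) := by
          ext j
          rw [Finsupp.tsub_apply, ind_apply, ind_apply, Finsupp.single_apply]
          by_cases hij : i = j
          · subst hij; simp [hi]
          · simp [hij, Ne.symm hij]
        rw [h3]; ring
      · rw [Finsupp.mem_support_iff, ind_apply, if_pos hi]; norm_num
    · intro i _ hi
      have h2 : g * (C (a i * t i ^ e) * X i) = C (a i * t i ^ e) * (g * X i) := by ring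
      rw [h2, coeff_C_mul, coeff_mul_X', if_neg]
      · ring
      · rw [Finsupp.mem_support_iff, ind_apply, if_neg hi]; simp
  rw [Finset.sum_congr rfl h1, Finset.sum_sigma']
  have h2 : ∑ x ∈ (powersetCard 3 (univ : Finset (Fin 7))).sigma fun s => s,
      (a x.2 * t x.2 ^ e) * Wt t ω x.1 * g.coeff (ind (x.1.erase x.2)) =
      ∑ x ∈ (powersetCard 2 (univ : Finset (Fin 7))).sigma fun T => Tᶜ,
      (a x.2 * t x.2 ^ e) * Wt t ω (insert x.2 x.1) * g.coeff (ind x.1) := by
    refine Finset.sum_bij' (fun x _ => ⟨x.1.erase x.2, x.2⟩) (fun x _ => ⟨insert x.2 x.1, x.2⟩)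
      ?_ ?_ ?_ ?_ ?_
    · rintro ⟨s, i⟩ hx
      simp only [Finset.mem_sigma, Finset.mem_powersetCard_univ] at hx ⊢
      refine ⟨by rw [Finset.card_erase_of_mem hx.2, hx.1], by simp⟩
    · rintro ⟨T, i⟩ hx
      simp only [Finset.mem_sigma, Finset.mem_powersetCard_univ, Finset.mem_compl] at hx ⊢
      refine ⟨by rw [Finset.card_insert_of_notMem hx.2, hx.1], by simp⟩
    · rintro ⟨s, i⟩ hx
      simp only [Finset.mem_sigma] at hx
      simp [Finset.insert_erase hx.2]
    · rintro ⟨T, i⟩ hx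
      simp only [Finset.mem_sigma, Finset.mem_compl] at hx
      simp [Finset.erase_insert hx.2]
    · rintro ⟨s, i⟩ hx
      simp only [Finset.mem_sigma] at hx
      simp [Finset.insert_erase hx.2]
  rw [h2, ← Finset.sum_sigma' (powersetCard 2 (univ : Finset (Fin 7))) (fun T => Tᶜ)
    (fun T i => (a i * t i ^ e) * Wt t ω (insert i T) * g.coeff (ind T))]
  refine Finset.sum_eq_zero fun T hT => ?_
  rw [← Finset.sum_mul, pair_sum t a ω ht hω T (by simpa using hT) e he, zero_mul]

lemma L_X (t ω : Fin 7 → K) (ht : Function.Injective t) (hω0 : ∀ i, ω i ≠ 0) :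
    L t ω (X 0 * X 1 * X 2) ≠ 0 := by
  intro h1
  rw [L_apply] at h1
  have h2 : (X 0 * X 1 * X 2 : MvPolynomial (Fin 7) K) = monomial (ind {0, 1, 2}) 1 := by
    have e : ind {0, 1, 2} = Finsupp.single 0 1 + Finsupp.single 1 1 + Finsupp.single 2 1 := by
      ext i
      rw [ind_apply, Finsupp.add_apply, Finsupp.add_apply, Finsupp.single_apply,
        Finsupp.single_apply, Finsupp.single_apply]
      revert i
      decide
    rw [e]
    simp only [X, monomial_mul, one_mul]
  rw [h2, Finset.sum_eq_single {0, 1, 2}] at h1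
  · rw [coeff_monomial, if_pos rfl, mul_one] at h1
    unfold Wt at h1
    rw [mul_eq_zero, Finset.prod_eq_zero_iff, Finset.prod_eq_zero_iff] at h1
    rcases h1 with ⟨i, _, hi⟩ | ⟨i, _, hi⟩
    · exact hω0 i hi
    · rw [Finset.prod_eq_zero_iff] at hi
      obtain ⟨j, hj, hij⟩ := hi
      exact (Finset.ne_of_mem_erase hj) (ht (sub_eq_zero.mp hij)).symm
  · intro s _ hs
    rw [coeff_monomial, if_neg, mul_zero]
    intro he
    apply hs
    ext i
    have := DFunLike.congr_fun he i
    rw [ind_apply, ind_apply] at this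
    by_cases h3 : i ∈ s <;> by_cases h4 : i ∈ ({0, 1, 2} : Finset (Fin 7)) <;> simp_all
  · intro h
    exact absurd (by decide) h

end Pool.Agent.H6.SQF
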