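import Pool.Agent.H6.SRDefs

namespace Pool.Agent.H6.SR

open MvPolynomial Pool.Agent.H6.SRDefs

/-- shelling data -/
structure Shell {W : Type} (Δ : Set (Finset W)) (s : ℕ) (F R : Fin s → Finset W) : Prop where
  hF : ∀ j, F j ∈ Δ
  hdown : ∀ C ∈ Δ, ∀ D, D ⊆ C → D ∈ Δ
  hRF : ∀ j, R j ⊆ F j
  hcov : ∀ C ∈ Δ, ∃ j, R j ⊆ C ∧ C ⊆ F j
  hord : ∀ i j, i < j → ¬ R j ⊆ F i

section
variable {W : Type} [DecidableEq W] {Δ : Set (Finset W)} {s : ℕ} {F R : Fin s → Finset W}

def L {B : Type*} [CommRing B] (x : W → B) (R : Fin s → Finset W) (t : ℕ) : Ideal B :=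
  Ideal.span {b | ∃ i : Fin s, t ≤ i.val ∧ b = ∏ v ∈ R i, x v}

theorem out (h : Shell Δ s F R) {B : Type*} [CommRing B] (x : W → B)
    (hx : ∀ C, C ∉ Δ → ∏ v ∈ C, x v = 0) (j : Fin s) (v : W) (hv : v ∉ F j) :
    x v * ∏ u ∈ R j, x u ∈ L x R (j.val + 1) := by
  have hvR : v ∉ R j := fun hh => hv (h.hRF j hh)
  rw [← Finset.prod_insert (f := x) hvR]
  by_cases hC : insert v (R j) ∈ Δ
  · obtain ⟨i, hi1, hi2⟩ := h.hcov _ hC
    have hji : ¬ i < j := fun hlt => h.hord i j hlt ((Finset.subset_insert _ _).trans hi2)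
    have hne : i ≠ j := by
      rintro rfl
      exact hv (hi2 (Finset.mem_insert_self _ _))
    have hlt : j < i := lt_of_le_of_ne (not_lt.1 hji) (Ne.symm hne)
    rw [← Finset.prod_sdiff hi1]
    exact Ideal.mul_mem_left _ _ (Ideal.subset_span ⟨i, hlt, rfl⟩)
  · rw [hx _ hC]
    exact Ideal.zero_mem _

theorem L_le {B : Type*} [CommRing B] (x : W → B) (R : Fin s → Finset W) (j : Fin s) :
    L x R j.val = L x R (j.val + 1) ⊔ Ideal.span {∏ v ∈ R j, x v} := by
  unfold L
  rw [← Ideal.span_union]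
  congr 1
  ext b
  constructor
  · rintro ⟨i, hi, rfl⟩
    rcases Nat.lt_or_ge j.val i.val with h1 | h1
    · exact Or.inl ⟨i, h1, rfl⟩
    · right
      have : i = j := Fin.ext (le_antisymm h1 hi)
      subst this
      rfl
  · rintro (⟨i, hi, rfl⟩ | rfl)
    · exact ⟨i, by omega, rfl⟩
    · exact ⟨j, le_rfl, rfl⟩

theorem L_top (h : Shell Δ s F R) {B : Type*} [CommRing B] (x : W → B) (he : ∅ ∈ Δ) :
    L x R 0 = ⊤ := by
  obtain ⟨j, hj, _⟩ := h.hcov _ he
  rw [Ideal.eq_top_iff_one]
  refine Ideal.subset_span ⟨j, Nat.zero_le _, ?_⟩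
  rw [Finset.subset_empty.1 hj, Finset.prod_empty]

theorem L_bot {B : Type*} [CommRing B] (x : W → B) (R : Fin s → Finset W) : L x R s = ⊥ := by
  unfold L
  rw [Ideal.span_eq_bot]
  rintro b ⟨i, hi, rfl⟩
  exact absurd i.2 (by omega)

/-- spanning lemma -/
theorem L_span {K T B : Type*} [Field K] [CommRing T] [CommRing B] [Algebra K T] [Algebra K B]
    [Algebra T B] [IsScalarTower K T B]
    (x : W → B) (hsurj : Function.Surjective (aeval x : MvPolynomial W K →ₐ[K] B))
    (t : Fin s → W → T)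
    (ht : ∀ j v, x v * ∏ u ∈ R j, x u - algebraMap T B (t j v) * ∏ u ∈ R j, x u
      ∈ L x R (j.val + 1)) (k : ℕ) (hk : k ≤ s) :
    ∀ b ∈ L x R k, b ∈ Submodule.span T {b | ∃ i : Fin s, k ≤ i.val ∧ b = ∏ v ∈ R i, x v} := by
  obtain ⟨n, rfl⟩ : ∃ n, k = s - n := ⟨s - k, by omega⟩
  clear hk
  induction n with
  | zero =>
    intro b hb
    rw [Nat.sub_zero, L_bot] at hb
    rw [Ideal.mem_bot.1 hb]
    exact Submodule.zero_mem _
  | succ n ih =>
    intro b hb
    rcases Nat.lt_or_ge n s with hn | hn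
    · have e1 : s - (n + 1) + 1 = s - n := by omega
      set j : Fin s := ⟨s - (n + 1), by omega⟩ with hj
      have hjv : j.val = s - (n + 1) := rfl
      have hmono : Submodule.span T {b | ∃ i : Fin s, s - n ≤ i.val ∧ b = ∏ v ∈ R i, x v} ≤
          Submodule.span T {b | ∃ i : Fin s, s - (n+1) ≤ i.val ∧ b = ∏ v ∈ R i, x v} := by
        apply Submodule.span_mono
        rintro b ⟨i, hi, rfl⟩
        exact ⟨i, by omega, rfl⟩
      rw [← hjv, L_le, hjv, e1] at hb
      obtain ⟨a, ha, c, hc, rfl⟩ := Submodule.mem_sup.1 hb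
      obtain ⟨f, rfl⟩ := Ideal.mem_span_singleton'.1 hc
      obtain ⟨p, rfl⟩ := hsurj f
      refine Submodule.add_mem _ (hmono (ih a ha)) ?_
      have key : ∀ p : MvPolynomial W K, aeval x p * ∏ u ∈ R j, x u -
          algebraMap T B (aeval (t j) p) * ∏ u ∈ R j, x u ∈ L x R (s - n) := by
        intro p
        induction p using MvPolynomial.induction_on with
        | C a =>
          have : aeval x (C a) = algebraMap T B (aeval (t j) (C a)) := by
            rw [aeval_C, aeval_C, ← IsScalarTower.algebraMap_apply]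
          rw [this, sub_self]
          exact Ideal.zero_mem _
        | add p q hp hq =>
          have := Ideal.add_mem _ hp hq
          convert this using 1
          rw [map_add, map_add, map_add]; ring
        | mul_X p v hp =>
          have h1 := Ideal.mul_mem_left _ (x v) hp
          have h2 := Ideal.mul_mem_left _ (algebraMap T B (aeval (t j) p)) (ht j v)
          rw [hjv, e1] at h2
          have := Ideal.add_mem _ h1 h2
          convert this using 1
          rw [map_mul, map_mul, map_mul, aeval_X, aeval_X]; ring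
      have h3 := hmono (ih _ (key p))
      have h4 : algebraMap T B (aeval (t j) p) * ∏ u ∈ R j, x u ∈
          Submodule.span T {b | ∃ i : Fin s, s - (n+1) ≤ i.val ∧ b = ∏ v ∈ R i, x v} := by
        rw [← Algebra.smul_def]
        exact Submodule.smul_mem _ _ (Submodule.subset_span ⟨j, le_rfl, rfl⟩)
      have := Submodule.add_mem _ h3 h4
      rwa [sub_add_cancel] at this
    · have e1 : s - (n + 1) = s - n := by omega
      rw [e1] at hb ⊢
      exact ih b hb

end

end Pool.Agent.H6.SR
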