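import Pool.Agent.H6.SR1

namespace Pool.Agent.H6.SR

open MvPolynomial Pool.Agent.H6.SRDefs

section
variable {W : Type} [DecidableEq W] {Δ : Set (Finset W)} {s : ℕ} {F R : Fin s → Finset W}

theorem prod_zero (K : Type) [Field K] {C : Finset W} (hC : C ∉ Δ) :
    ∏ v ∈ C, Ideal.Quotient.mk (srIdeal K Δ) (X v) = 0 := by
  rw [← map_prod, Ideal.Quotient.eq_zero_iff_mem]
  exact Ideal.subset_span ⟨C, hC, rfl⟩

/-- restriction to a facet, through the colouring -/
noncomputable def rho (K : Type) [Field K] (col : W → Fin 3) (G : Finset W) :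
    MvPolynomial W K →ₐ[K] MvPolynomial (Fin 3) K :=
  aeval (fun v => if v ∈ G then X (col v) else 0)

theorem rho_kill (K : Type) [Field K] (col : W → Fin 3) (h : Shell Δ s F R) (i : Fin s) :
    ∀ p ∈ srIdeal K Δ, rho K col (F i) p = 0 := by
  intro p hp
  have : srIdeal K Δ ≤ RingHom.ker (rho K col (F i) : MvPolynomial W K →+* MvPolynomial (Fin 3) K) := by
    unfold srIdeal
    rw [Ideal.span_le]
    rintro q ⟨C, hC, rfl⟩
    have hns : ¬ C ⊆ F i := fun hh => hC (h.hdown _ (h.hF i) _ hh)
    obtain ⟨v, hv, hv2⟩ := Finset.not_subset.1 hns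
    change rho K col (F i) _ = 0
    rw [map_prod]
    apply Finset.prod_eq_zero hv
    simp [rho, hv2]
  exact this hp

noncomputable def rhoQ (K : Type) [Field K] (col : W → Fin 3) (h : Shell Δ s F R) (i : Fin s) :
    (MvPolynomial W K ⧸ srIdeal K Δ) →ₐ[K] MvPolynomial (Fin 3) K :=
  Ideal.Quotient.liftₐ (srIdeal K Δ) (rho K col (F i)) (rho_kill K col h i)

theorem rhoQ_mk (K : Type) [Field K] (col : W → Fin 3) (h : Shell Δ s F R) (i : Fin s)
    (p : MvPolynomial W K) :
    rhoQ K col h i (Ideal.Quotient.mk _ p) = rho K col (F i) p := rfl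

/-- the coloured parameters -/
noncomputable def th (K : Type) [Field K] [Fintype W] (col : W → Fin 3) (c : Fin 3) :
    MvPolynomial W K :=
  ∑ v ∈ Finset.univ.filter (fun v => col v = c), X v

structure Coloured (s : ℕ) (F : Fin s → Finset W) (col : W → Fin 3) : Prop where
  inj : ∀ j, ∀ u ∈ F j, ∀ v ∈ F j, col u = col v → u = v
  surj : ∀ j c, ∃ v ∈ F j, col v = c

variable [Fintype W]

theorem rho_th (K : Type) [Field K] {col : W → Fin 3} (hc : Coloured s F col) (i : Fin s)
    (c : Fin 3) : rho K col (F i) (th K col c) = X c := by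
  obtain ⟨v, hv, hvc⟩ := hc.surj i c
  unfold th
  rw [map_sum, Finset.sum_eq_single v]
  · simp [rho, hv, hvc]
  · intro u hu huv
    have hu' : col u = c := (Finset.mem_filter.1 hu).2
    have : u ∉ F i := fun hh => huv (hc.inj i u hh v hv (hu'.trans hvc.symm))
    simp [rho, this]
  · intro hn
    exact (hn (by simp [hvc])).elim

noncomputable def strMap (K : Type) [Field K] (Δ : Set (Finset W)) (col : W → Fin 3) :
    MvPolynomial (Fin 3) K →ₐ[K] (MvPolynomial W K ⧸ srIdeal K Δ) :=
  aeval (fun c => Ideal.Quotient.mk (srIdeal K Δ) (th K col c))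

theorem rhoQ_str (K : Type) [Field K] {col : W → Fin 3} (h : Shell Δ s F R)
    (hc : Coloured s F col) (i : Fin s) (p : MvPolynomial (Fin 3) K) :
    rhoQ K col h i (strMap K Δ col p) = p := by
  have : (rhoQ K col h i).comp (strMap K Δ col) = AlgHom.id K _ := by
    apply MvPolynomial.algHom_ext
    intro c
    rw [AlgHom.comp_apply, strMap, aeval_X, rhoQ_mk, rho_th K hc]
    rfl
  exact DFunLike.congr_fun this p

theorem li_aux (K : Type) [Field K] {col : W → Fin 3} (h : Shell Δ s F R)
    (hc : Coloured s F col) (g : Fin s → MvPolynomial (Fin 3) K)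
    (hg : ∑ j, strMap K Δ col (g j) * ∏ v ∈ R j, Ideal.Quotient.mk (srIdeal K Δ) (X v) = 0) :
    ∀ j, g j = 0 := by
  have key : ∀ n : ℕ, ∀ j : Fin s, j.val = n → g j = 0 := by
    intro n
    induction n using Nat.strong_induction_on with
    | _ n ih =>
      intro j hj
      have h1 := congrArg (rhoQ K col h j) hg
      rw [map_zero, map_sum, Finset.sum_eq_single j] at h1
      · rw [map_mul, rhoQ_str K h hc, map_prod] at h1
        rcases mul_eq_zero.1 h1 with h2 | h2
        · exact h2
        · exfalso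
          rw [Finset.prod_eq_zero_iff] at h2
          obtain ⟨v, hv, hv2⟩ := h2
          rw [rhoQ_mk] at hv2
          simp [rho, h.hRF j hv] at hv2
      · intro i _ hij
        rcases lt_or_gt_of_ne hij with hlt | hlt
        · rw [ih i.val (by rw [← hj]; exact hlt) i rfl]
          simp
        · rw [map_mul, map_prod]
          obtain ⟨v, hv, hv2⟩ := Finset.not_subset.1 (h.hord j i hlt)
          rw [Finset.prod_eq_zero hv, mul_zero]
          rw [rhoQ_mk]
          simp [rho, hv2]
      · intro hn
        exact absurd (Finset.mem_univ _) hn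
  exact fun j => key j.val j rfl

theorem ht_col (K : Type) [Field K] {col : W → Fin 3} (h : Shell Δ s F R)
    (hc : Coloured s F col) {B : Type*} [CommRing B] (q : MvPolynomial W K →+* B)
    (hq : ∀ C, C ∉ Δ → ∏ v ∈ C, q (X v) = 0) (j : Fin s) (v : W) :
    q (X v) * ∏ u ∈ R j, q (X u) -
      (if v ∈ F j then q (th K col (col v)) else 0) * ∏ u ∈ R j, q (X u) ∈
      L (fun u => q (X u)) R (j.val + 1) := by
  by_cases hv : v ∈ F j
  · rw [if_pos hv]
    have e1 : th K col (col v) = X v +
        ∑ u ∈ (Finset.univ.filter (fun u => col u = col v)).erase v, X u := by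
      unfold th
      rw [Finset.add_sum_erase]
      exact Finset.mem_filter.2 ⟨Finset.mem_univ _, rfl⟩
    rw [e1, map_add, map_sum, ← sub_mul]
    have e2 : q (X v) - (q (X v) + ∑ u ∈ (Finset.univ.filter (fun u => col u = col v)).erase v, q (X u))
        = - ∑ u ∈ (Finset.univ.filter (fun u => col u = col v)).erase v, q (X u) := by ring
    rw [e2, neg_mul, Finset.sum_mul]
    apply neg_mem
    apply Ideal.sum_mem
    intro u hu
    rw [Finset.mem_erase, Finset.mem_filter] at hu
    refine out h (fun u => q (X u)) hq j u ?_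
    intro hh
    exact hu.1 (hc.inj j u hh v hv hu.2.2)
  · rw [if_neg hv, zero_mul, sub_zero]
    exact out h (fun u => q (X u)) hq j v hv

end
end Pool.Agent.H6.SR
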