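import Pool.Agent.H6.SR2

namespace Pool.Agent.H6.SR

open MvPolynomial Pool.Agent.H6.SRDefs

theorem wreg (K : Type) [Field K] :
    RingTheory.Sequence.IsWeaklyRegular (MvPolynomial (Fin 3) K)
      (List.ofFn fun i : Fin 3 => (X i : MvPolynomial (Fin 3) K)) := by
  constructor
  intro i hi
  rw [isSMulRegular_quotient_iff_mem_of_smul_mem]
  have hi3 : i < 3 := by simpa using hi
  have e1 : (List.ofFn fun i : Fin 3 => (X i : MvPolynomial (Fin 3) K))[i]'hi = X ⟨i, hi3⟩ := by
    rw [List.getElem_ofFn]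
  have e2 : (Ideal.ofList ((List.ofFn fun i : Fin 3 => (X i : MvPolynomial (Fin 3) K)).take i)) •
      (⊤ : Submodule (MvPolynomial (Fin 3) K) (MvPolynomial (Fin 3) K)) =
      Ideal.span (MvPolynomial.X '' {c : Fin 3 | c.val < i}) := by
    rw [smul_eq_mul]
    have : (⊤ : Submodule (MvPolynomial (Fin 3) K) (MvPolynomial (Fin 3) K)) =
      (⊤ : Ideal (MvPolynomial (Fin 3) K)) := rfl
    rw [this, Ideal.mul_top]
    unfold Ideal.ofList
    congr 1
    ext p
    rcases i with _ | _ | _ | i
    · simp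
    · simp [List.ofFn_succ]
    · simp [List.ofFn_succ]
      constructor
      · rintro (h | h)
        · exact ⟨0, by decide, h.symm⟩
        · exact ⟨1, by decide, h.symm⟩
      · rintro ⟨c, hc, rfl⟩
        fin_cases c
        · left; rfl
        · right; rfl
        · simp at hc
    · omega
  rw [e1]
  intro x hx
  rw [e2] at hx ⊢
  rw [smul_eq_mul] at hx
  erw [mem_ideal_span_X_image] at hx ⊢
  intro m hm
  have h1 : m + Finsupp.single (⟨i, hi3⟩ : Fin 3) 1 ∈
      ((X (⟨i, hi3⟩ : Fin 3) : MvPolynomial (Fin 3) K) * x).support := by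
    rw [mem_support_iff, mul_comm, coeff_mul_X]
    exact mem_support_iff.1 hm
  obtain ⟨c, hc, hc2⟩ := hx _ h1
  refine ⟨c, hc, ?_⟩
  have hne : (⟨i, hi3⟩ : Fin 3) ≠ c := by
    rintro rfl
    simp at hc
  rw [Finsupp.add_apply, Finsupp.single_eq_of_ne (Ne.symm hne), add_zero] at hc2
  exact hc2

section
variable {W : Type} [DecidableEq W] [Fintype W] {Δ : Set (Finset W)} {s : ℕ}
  {F R : Fin s → Finset W}

theorem th_hom (K : Type) [Field K] (col : W → Fin 3) (c : Fin 3) :
    (th K col c).IsHomogeneous 1 := by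
  unfold th
  apply IsHomogeneous.sum
  intro v _
  exact isHomogeneous_X K v

theorem hasDim {col : W → Fin 3} (h : Shell Δ s F R)
    (hc : Coloured s F col) (he : ∅ ∈ Δ) : HasDim Δ 3 := by
  have hcard : ∀ j, (F j).card = 3 := by
    intro j
    have : (F j).image col = Finset.univ := by
      ext c
      simp only [Finset.mem_image, Finset.mem_univ, iff_true]
      exact hc.surj j c
    rw [← Finset.card_image_of_injOn (f := col) (s := F j)
      (fun u hu v hv huv => hc.inj j u hu v hv huv), this]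
    rfl
  constructor
  · intro C hC
    obtain ⟨j, _, hj⟩ := h.hcov C hC
    exact (Finset.card_le_card hj).trans (hcard j).le
  · obtain ⟨j, _, _⟩ := h.hcov _ he
    exact ⟨F j, h.hF j, hcard j⟩

theorem aeval_mk_surj (K : Type) [Field K] (J : Ideal (MvPolynomial W K)) :
    Function.Surjective (aeval (fun v => Ideal.Quotient.mk J (X v)) :
      MvPolynomial W K →ₐ[K] (MvPolynomial W K ⧸ J)) := by
  have : (aeval (fun v => Ideal.Quotient.mk J (X v)) :
      MvPolynomial W K →ₐ[K] (MvPolynomial W K ⧸ J)) = Ideal.Quotient.mkₐ K J := by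
    apply MvPolynomial.algHom_ext
    intro v
    rw [aeval_X]
    rfl
  rw [this]
  exact Ideal.Quotient.mkₐ_surjective K J

/-- the coloured parameters have finite quotient -/
theorem fin_th (K : Type) [Field K] {col : W → Fin 3} (h : Shell Δ s F R)
    (hc : Coloured s F col) (he : ∅ ∈ Δ) :
    Module.Finite K (MvPolynomial W K ⧸ artIdeal K Δ (th K col)) := by
  set J := artIdeal K Δ (th K col) with hJ
  have hx : ∀ C, C ∉ Δ → ∏ v ∈ C, Ideal.Quotient.mk J (X v) = 0 := by
    intro C hC
    rw [← map_prod, Ideal.Quotient.eq_zero_iff_mem]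
    exact Ideal.mem_sup_left (Ideal.subset_span ⟨C, hC, rfl⟩)
  have hz : ∀ c, Ideal.Quotient.mk J (th K col c) = 0 := by
    intro c
    rw [Ideal.Quotient.eq_zero_iff_mem]
    exact Ideal.mem_sup_right (Ideal.subset_span ⟨c, rfl⟩)
  have := L_span (K := K) (T := K) (R := R) (fun v => Ideal.Quotient.mk J (X v))
    (aeval_mk_surj K J) (fun _ _ => 0) (by
      intro j v
      have := ht_col K h hc (Ideal.Quotient.mk J) hx j v
      simpa [hz] using this) 0 (Nat.zero_le _)
  rw [L_top h _ he] at this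
  have htop : Submodule.span K {b | ∃ i : Fin s, 0 ≤ i.val ∧ b = ∏ v ∈ R i,
      Ideal.Quotient.mk J (X v)} = ⊤ := by
    rw [eq_top_iff]
    intro b _
    exact this b Submodule.mem_top
  refine ⟨?_⟩
  rw [← htop]
  apply Submodule.fg_span
  apply Set.Finite.subset (Set.finite_range (fun i : Fin s => ∏ v ∈ R i, Ideal.Quotient.mk J (X v)))
  rintro b ⟨i, _, rfl⟩
  exact ⟨i, rfl⟩

theorem ofList_smul_top {Q : Type*} [CommRing Q] (rs : List Q) :
    (Ideal.ofList rs • (⊤ : Submodule Q Q)) = Ideal.ofList rs := by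
  rw [smul_eq_mul]
  exact Ideal.mul_top _

theorem top_ne (K : Type) [Field K] {col : W → Fin 3} (h : Shell Δ s F R)
    (hc : Coloured s F col) (he : ∅ ∈ Δ) :
    (⊤ : Submodule (MvPolynomial W K ⧸ srIdeal K Δ) (MvPolynomial W K ⧸ srIdeal K Δ)) ≠
    Ideal.ofList (List.ofFn fun i : Fin 3 => Ideal.Quotient.mk (srIdeal K Δ) (th K col i)) •
    (⊤ : Submodule (MvPolynomial W K ⧸ srIdeal K Δ) (MvPolynomial W K ⧸ srIdeal K Δ)) := by
  rw [ofList_smul_top]
  intro htop
  obtain ⟨j, _, _⟩ := h.hcov _ he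
  have h5 : (1 : MvPolynomial W K ⧸ srIdeal K Δ) ∈ (Ideal.ofList
      (List.ofFn fun i : Fin 3 => Ideal.Quotient.mk (srIdeal K Δ) (th K col i))) := by
    rw [← htop]
    exact Submodule.mem_top
  have h7 : Ideal.ofList (List.ofFn fun i : Fin 3 => Ideal.Quotient.mk (srIdeal K Δ) (th K col i)) ≤
      RingHom.ker ((aeval (fun _ => (0:K)) : MvPolynomial (Fin 3) K →ₐ[K] K).comp
        (rhoQ K col h j) : (MvPolynomial W K ⧸ srIdeal K Δ) →ₐ[K] K).toRingHom := by
    unfold Ideal.ofList
    rw [Ideal.span_le]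
    intro r hr
    rw [Set.mem_setOf_eq, List.mem_ofFn] at hr
    obtain ⟨i, rfl⟩ := hr
    change (aeval (fun _ => (0:K))) (rhoQ K col h j _) = 0
    rw [rhoQ_mk, rho_th K hc, aeval_X]
  have h8 := h7 h5
  rw [RingHom.mem_ker, map_one] at h8
  exact one_ne_zero h8

theorem isCM (K : Type) [Field K] {col : W → Fin 3} (h : Shell Δ s F R)
    (hc : Coloured s F col) (he : ∅ ∈ Δ) : IsCohenMacaulay K Δ := by
  refine ⟨3, th K col, ⟨hasDim h hc he, th_hom K col, fin_th K h hc he⟩, ?_⟩
  letI alg : Algebra (MvPolynomial (Fin 3) K) (MvPolynomial W K ⧸ srIdeal K Δ) :=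
    (strMap K Δ col).toRingHom.toAlgebra
  have halg : ∀ p, algebraMap (MvPolynomial (Fin 3) K) (MvPolynomial W K ⧸ srIdeal K Δ) p =
    strMap K Δ col p := fun p => rfl
  haveI : IsScalarTower K (MvPolynomial (Fin 3) K) (MvPolynomial W K ⧸ srIdeal K Δ) := by
    apply IsScalarTower.of_algebraMap_eq
    intro a
    rw [halg]
    exact ((strMap K Δ col).commutes a).symm
  have hfree : Module.Free (MvPolynomial (Fin 3) K) (MvPolynomial W K ⧸ srIdeal K Δ) := by
    have hli : LinearIndependent (MvPolynomial (Fin 3) K)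
        (fun j : Fin s => ∏ v ∈ R j, Ideal.Quotient.mk (srIdeal K Δ) (X v)) := by
      rw [Fintype.linearIndependent_iff]
      intro g hg
      apply li_aux K h hc g
      simpa [Algebra.smul_def, halg] using hg
    have := L_span (K := K) (T := MvPolynomial (Fin 3) K) (R := R)
      (fun v => Ideal.Quotient.mk (srIdeal K Δ) (X v))
      (aeval_mk_surj K (srIdeal K Δ)) (fun j v => if v ∈ F j then X (col v) else 0) (by
      intro j v
      have := ht_col K h hc (Ideal.Quotient.mk (srIdeal K Δ)) (fun C hC => prod_zero K hC) j v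
      have e : algebraMap (MvPolynomial (Fin 3) K) (MvPolynomial W K ⧸ srIdeal K Δ)
        (if v ∈ F j then X (col v) else 0) =
        (if v ∈ F j then Ideal.Quotient.mk (srIdeal K Δ) (th K col (col v)) else 0) := by
        split_ifs with h1
        · rw [halg]; simp [strMap]
        · simp
      rw [e]
      exact this) 0 (Nat.zero_le _)
    rw [L_top h _ he] at this
    refine Module.Free.of_basis (Module.Basis.mk hli ?_)
    intro b _
    have h2 := this b Submodule.mem_top
    refine Submodule.span_mono ?_ h2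
    rintro b ⟨i, _, rfl⟩
    exact ⟨i, rfl⟩
  have h1 := (wreg K).of_flat (S := MvPolynomial W K ⧸ srIdeal K Δ)
  have e3 : (List.ofFn fun i : Fin 3 => (X i : MvPolynomial (Fin 3) K)).map
      (algebraMap (MvPolynomial (Fin 3) K) (MvPolynomial W K ⧸ srIdeal K Δ)) =
      List.ofFn fun i : Fin 3 => Ideal.Quotient.mk (srIdeal K Δ) (th K col i) := by
    rw [List.map_ofFn]
    congr 1
    funext i
    rw [Function.comp_apply, halg]
    simp [strMap]
  rw [e3] at h1
  exact ⟨h1, top_ne K h hc he⟩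

end
end Pool.Agent.H6.SR
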