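import Pool.Agent.H6.SR3

namespace Pool.Agent.H6.SR

open MvPolynomial Pool.Agent.H6.SRDefs

section
variable {W : Type} [DecidableEq W] [Fintype W] {K : Type} [Field K]

/-- linear coefficient -/
noncomputable def lc (p : MvPolynomial W K) (v : W) : K := coeff (Finsupp.single v 1) p

theorem lin_expand {p : MvPolynomial W K} (hp : p.IsHomogeneous 1) :
    p = ∑ v, C (lc p v) * X v := by
  ext m
  rw [coeff_sum]
  by_cases hm : m.degree = 1
  · obtain ⟨w, hw⟩ : ∃ w, m = Finsupp.single w 1 := by
      have hne : m ≠ 0 := by rintro rfl; simp at hm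
      obtain ⟨w, hw⟩ := Finsupp.ne_iff.1 hne
      refine ⟨w, ?_⟩
      have hle : Finsupp.single w 1 ≤ m := by
        rw [Finsupp.single_le_iff]
        exact Nat.one_le_iff_ne_zero.2 hw
      obtain ⟨m', rfl⟩ := exists_add_of_le hle
      rw [map_add, Finsupp.degree_single] at hm
      have : m'.degree = 0 := by omega
      rw [Finsupp.degree_eq_zero_iff] at this
      rw [this, add_zero]
    subst hw
    rw [Finset.sum_eq_single w]
    · rw [coeff_C_mul, coeff_X]; simp [lc]
    · intro v _ hv
      rw [coeff_C_mul, coeff_X', if_neg, mul_zero]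
      intro h
      exact hv ((Finsupp.single_left_injective one_ne_zero) h)
    · intro h; exact absurd (Finset.mem_univ _) h
  · rw [hp.coeff_eq_zero hm]
    symm
    apply Finset.sum_eq_zero
    intro v _
    rw [coeff_C_mul, coeff_X', if_neg, mul_zero]
    rintro rfl
    exact hm (by simp)

theorem poly_not_finite : ¬ Module.Finite K (Polynomial K) := by
  intro h
  have h1 : IsIntegral K (Polynomial.X : Polynomial K) := IsIntegral.of_finite K _
  exact Polynomial.transcendental_X K h1.isAlgebraic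

theorem det_ne {Δ : Set (Finset W)} {θ : Fin 3 → MvPolynomial W K}
    (hdown : ∀ C ∈ Δ, ∀ D, D ⊆ C → D ∈ Δ)
    (hθ : ∀ i, (θ i).IsHomogeneous 1)
    (hfin : Module.Finite K (MvPolynomial W K ⧸ artIdeal K Δ θ))
    (f : Fin 3 → W) (hf : Function.Injective f) (hfΔ : Finset.univ.image f ∈ Δ) :
    (Matrix.of (fun i c => lc (θ i) (f c))).det ≠ 0 := by
  intro hdet
  obtain ⟨p, hp, hMp⟩ := Matrix.exists_mulVec_eq_zero_iff.2 hdet
  obtain ⟨c0, hc0⟩ := Function.ne_iff.1 hp
  set p' : W → K := fun v => ∑ c, if f c = v then p c else 0 with hp'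
  have hp'f : ∀ c, p' (f c) = p c := by
    intro c
    rw [hp']
    simp only
    rw [Finset.sum_eq_single c]
    · simp
    · intro b _ hb
      rw [if_neg (fun h => hb (hf h))]
    · intro h; exact absurd (Finset.mem_univ _) h
  have hp'0 : ∀ v, v ∉ Finset.univ.image f → p' v = 0 := by
    intro v hv
    apply Finset.sum_eq_zero
    intro c _
    rw [if_neg]
    intro h
    exact hv (Finset.mem_image.2 ⟨c, Finset.mem_univ _, h⟩)
  let φ : MvPolynomial W K →ₐ[K] Polynomial K :=
    aeval (fun v => Polynomial.C (p' v) * Polynomial.X)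
  have hφX : ∀ v, φ (X v) = Polynomial.C (p' v) * Polynomial.X := fun v => aeval_X _ _
  have hker : artIdeal K Δ θ ≤ RingHom.ker φ.toRingHom := by
    unfold artIdeal
    rw [sup_le_iff]
    constructor
    · unfold srIdeal
      rw [Ideal.span_le]
      rintro q ⟨C, hC, rfl⟩
      have hns : ¬ C ⊆ Finset.univ.image f := fun hh => hC (hdown _ hfΔ _ hh)
      obtain ⟨v, hv, hv2⟩ := Finset.not_subset.1 hns
      change φ _ = 0
      rw [map_prod]
      apply Finset.prod_eq_zero hv
      rw [hφX, hp'0 v hv2]; simp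
    · rw [Ideal.span_le]
      rintro q ⟨i, rfl⟩
      change φ _ = 0
      rw [lin_expand (hθ i), map_sum]
      have e1 : ∀ v, φ (C (lc (θ i) v) * X v) =
          Polynomial.C (lc (θ i) v * p' v) * Polynomial.X := by
        intro v
        rw [map_mul, hφX, map_mul, ← mul_assoc]
        congr 2
        exact φ.commutes _
      simp_rw [e1]
      rw [← Finset.sum_mul, ← map_sum]
      have e2 : ∑ v, lc (θ i) v * p' v = 0 := by
        have e3 : ∑ v, lc (θ i) v * p' v = ∑ v ∈ Finset.univ.image f, lc (θ i) v * p' v := by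
          symm
          apply Finset.sum_subset (Finset.subset_univ _)
          intro v _ hv
          rw [hp'0 v hv, mul_zero]
        rw [e3, Finset.sum_image (fun a _ b _ h => hf h)]
        have := congrFun hMp i
        simp only [Matrix.mulVec, dotProduct, Matrix.of_apply, Pi.zero_apply] at this
        rw [← this]
        apply Finset.sum_congr rfl
        intro c _
        rw [hp'f]
      rw [e2]; simp
  let ψ : (MvPolynomial W K ⧸ artIdeal K Δ θ) →ₐ[K] Polynomial K :=
    Ideal.Quotient.liftₐ _ φ hker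
  have hsurj : Function.Surjective ψ := by
    intro q
    have h1 : ∀ q : Polynomial K, ∃ r : MvPolynomial W K, φ r = q := by
      intro q
      induction q using Polynomial.induction_on' with
      | add p q hp hq =>
        obtain ⟨a, rfl⟩ := hp
        obtain ⟨b, rfl⟩ := hq
        exact ⟨a + b, map_add _ _ _⟩
      | monomial n a =>
        refine ⟨C a * (C ((p c0)⁻¹) * X (f c0)) ^ n, ?_⟩
        have e1 : ∀ a, φ (C a) = Polynomial.C a := fun a => φ.commutes a
        rw [map_mul, map_pow, map_mul, e1, e1, hφX, hp'f, ← mul_assoc, ← map_mul,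
          inv_mul_cancel₀ hc0, map_one, one_mul, Polynomial.C_mul_X_pow_eq_monomial]
    obtain ⟨r, hr⟩ := h1 q
    exact ⟨Ideal.Quotient.mk _ r, hr⟩
  exact poly_not_finite (Module.Finite.of_surjective ψ.toLinearMap hsurj)

/-- a vertex of a facet is, modulo the parameters, a combination of the other vertices -/
theorem facet_rel {Δ : Set (Finset W)} {θ : Fin 3 → MvPolynomial W K}
    (hdown : ∀ C ∈ Δ, ∀ D, D ⊆ C → D ∈ Δ)
    (hθ : ∀ i, (θ i).IsHomogeneous 1)
    (hfin : Module.Finite K (MvPolynomial W K ⧸ artIdeal K Δ θ))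
    (f : Fin 3 → W) (hf : Function.Injective f) (hfΔ : Finset.univ.image f ∈ Δ)
    (v : W) (hv : v ∈ Finset.univ.image f) :
    ∃ q : W → K, Ideal.Quotient.mk (artIdeal K Δ θ) (X v) =
      ∑ u ∈ (Finset.univ.image f)ᶜ, Ideal.Quotient.mk (artIdeal K Δ θ) (C (q u)) *
        Ideal.Quotient.mk (artIdeal K Δ θ) (X u) := by
  have hdet := det_ne hdown hθ hfin f hf hfΔ
  obtain ⟨c0, _, rfl⟩ := Finset.mem_image.1 hv
  set M : Matrix (Fin 3) (Fin 3) K := Matrix.of (fun i c => lc (θ i) (f c)) with hM
  set μ : Fin 3 → K := fun i => M⁻¹ c0 i with hμ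
  have hmul : ∀ c, ∑ i, μ i * lc (θ i) (f c) = if c0 = c then 1 else 0 := by
    intro c
    have h1 : M⁻¹ * M = 1 := Matrix.nonsing_inv_mul M (isUnit_iff_ne_zero.2 hdet)
    have h2 := congrFun (congrFun h1 c0) c
    rw [Matrix.mul_apply, Matrix.one_apply] at h2
    rw [← h2]
    rfl
  refine ⟨fun u => - ∑ i, μ i * lc (θ i) u, ?_⟩
  have h0 : Ideal.Quotient.mk (artIdeal K Δ θ) (∑ i, C (μ i) * θ i) = 0 := by
    rw [Ideal.Quotient.eq_zero_iff_mem]
    apply Ideal.sum_mem
    intro i _
    apply Ideal.mul_mem_left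
    exact Ideal.mem_sup_right (Ideal.subset_span ⟨i, rfl⟩)
  have h1 : (∑ i, C (μ i) * θ i) = ∑ v, C (∑ i, μ i * lc (θ i) v) * X v := by
    have : ∀ i, C (μ i) * θ i = ∑ v, C (μ i) * (C (lc (θ i) v) * X v) := by
      intro i
      conv_lhs => rw [lin_expand (hθ i)]
      rw [Finset.mul_sum]
    simp_rw [this]
    rw [Finset.sum_comm]
    apply Finset.sum_congr rfl
    intro v _
    rw [map_sum, Finset.sum_mul]
    apply Finset.sum_congr rfl
    intro i _
    rw [C_mul]; ring
  rw [h1, ← Finset.sum_add_sum_compl (Finset.univ.image f), Finset.sum_image (fun a _ b _ h => hf h)] at h0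
  have h2 : ∑ c, C (∑ i, μ i * lc (θ i) (f c)) * X (f c) = (X (f c0) : MvPolynomial W K) := by
    rw [Finset.sum_eq_single c0]
    · rw [hmul]; simp
    · intro b _ hb
      rw [hmul, if_neg (Ne.symm hb)]; simp
    · intro h; exact absurd (Finset.mem_univ _) h
  rw [h2, map_add] at h0
  rw [eq_neg_of_add_eq_zero_left h0, map_sum, ← Finset.sum_neg_distrib]
  apply Finset.sum_congr rfl
  intro u _
  rw [map_mul, C_neg, map_neg]; ring

end
end Pool.Agent.H6.SR
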