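import Pool.Agent.H6.SR4

namespace Pool.Agent.H6.SR

open MvPolynomial Pool.Agent.H6.SRDefs

section
variable {W : Type} [DecidableEq W] [Fintype W] {K : Type} [Field K]
  {Δ : Set (Finset W)} {s : ℕ} {F R : Fin s → Finset W}

/-- degree-two products with a pendant vertex lie in a small space -/
theorem pend_deg2 {A : Type} [CommRing A] [Algebra K A] (x : W → A)
    (h : Shell Δ s F R) (hx : ∀ C, C ∉ Δ → ∏ v ∈ C, x v = 0)
    (hrel : ∀ j, ∀ v ∈ F j, ∃ q : W → K, x v = ∑ u ∈ (F j)ᶜ, algebraMap K A (q u) * x u)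
    (t : ℕ) (hcard : ∀ j : Fin s, t ≤ j.val → (R j).card = 1 ∨ (R j).card = 2)
    (D : Submodule K A)
    (hD : ∀ j : Fin s, t ≤ j.val → (R j).card = 2 → ∏ v ∈ R j, x v ∈ D) :
    ∀ j : Fin s, t ≤ j.val → (R j).card = 1 → ∀ v, x v * ∏ u ∈ R j, x u ∈ D := by
  have key : ∀ n : ℕ, ∀ j : Fin s, s - j.val = n → t ≤ j.val → (R j).card = 1 →
      ∀ v, x v * ∏ u ∈ R j, x u ∈ D := by
    intro n
    induction n using Nat.strong_induction_on with
    | _ n ih =>
      intro j hn htj hcj
      have hout : ∀ v, v ∉ F j → x v * ∏ u ∈ R j, x u ∈ D := by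
        intro v hv
        have hvR : v ∉ R j := fun hh => hv (h.hRF j hh)
        rw [← Finset.prod_insert (f := x) hvR]
        by_cases hC : insert v (R j) ∈ Δ
        · obtain ⟨i, hi1, hi2⟩ := h.hcov _ hC
          have hji : ¬ i < j := fun hlt => h.hord i j hlt ((Finset.subset_insert _ _).trans hi2)
          have hne : i ≠ j := by
            rintro rfl
            exact hv (hi2 (Finset.mem_insert_self _ _))
          have hlt : j < i := lt_of_le_of_ne (not_lt.1 hji) (Ne.symm hne)
          have hti : t ≤ i.val := htj.trans (le_of_lt hlt)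
          have hcC : (insert v (R j)).card = 2 := by
            rw [Finset.card_insert_of_notMem hvR, hcj]
          rcases hcard i hti with h1 | h1
          · rw [← Finset.prod_sdiff hi1]
            have hc2 : (insert v (R j) \ R i).card = 1 := by
              rw [Finset.card_sdiff_of_subset hi1, hcC, h1]
            obtain ⟨w, hw⟩ := Finset.card_eq_one.1 hc2
            rw [hw, Finset.prod_singleton]
            refine ih (s - i.val) ?_ i rfl hti h1 w
            have := i.2
            have h3 : j.val < i.val := hlt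
            omega
          · have : R i = insert v (R j) := Finset.eq_of_subset_of_card_le hi1 (by rw [hcC, h1])
            rw [← this]
            exact hD i hti h1
        · rw [hx _ hC]
          exact D.zero_mem
      intro v
      by_cases hv : v ∈ F j
      · obtain ⟨q, hq⟩ := hrel j v hv
        rw [hq, Finset.sum_mul]
        apply Submodule.sum_mem
        intro u hu
        rw [mul_assoc, ← Algebra.smul_def]
        apply D.smul_mem
        exact hout u (Finset.mem_compl.1 hu)
      · exact hout v hv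
  exact fun j => key _ j rfl

/-- linear forms in the pendant vertices are nonzero in the quotient -/
theorem pend_ne {θ : Fin 3 → MvPolynomial W K}
    (hdown : ∀ C ∈ Δ, ∀ D, D ⊆ C → D ∈ Δ)
    (hs : ∀ v, {v} ∈ Δ) (he : ∅ ∈ Δ)
    (hθ : ∀ i, (θ i).IsHomogeneous 1)
    (hfin : Module.Finite K (MvPolynomial W K ⧸ artIdeal K Δ θ))
    (f : Fin 3 → W) (hf : Function.Injective f) (hfΔ : Finset.univ.image f ∈ Δ)
    {n : ℕ} (u : Fin n → W) (hu : Function.Injective u) (huf : ∀ k c, u k ≠ f c)
    (c : Fin n → K) (hc : c ≠ 0) :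
    ∑ k, C (c k) * X (u k) ∉ artIdeal K Δ θ := by
  intro hmem
  have hdet := det_ne hdown hθ hfin f hf hfΔ
  obtain ⟨k0, hk0⟩ := Function.ne_iff.1 hc
  set M : Matrix (Fin 3) (Fin 3) K := Matrix.of (fun i c => lc (θ i) (f c)) with hM
  set y : Fin 3 → K := M⁻¹.mulVec (fun i => - lc (θ i) (u k0)) with hy
  have hMy : M.mulVec y = (fun i => - lc (θ i) (u k0)) := by
    rw [hy, Matrix.mulVec_mulVec, Matrix.mul_nonsing_inv M (isUnit_iff_ne_zero.2 hdet),
      Matrix.one_mulVec]
  set p : W → K := fun v => (if v = u k0 then 1 else 0) + ∑ c, if f c = v then y c else 0 with hp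
  have hpf : ∀ c, p (f c) = y c := by
    intro c
    rw [hp]
    simp only
    rw [if_neg (fun h => huf k0 c h.symm), zero_add, Finset.sum_eq_single c]
    · simp
    · intro b _ hb
      rw [if_neg (fun h => hb (hf h))]
    · intro h; exact absurd (Finset.mem_univ _) h
  have hpu : ∀ k, p (u k) = if k = k0 then 1 else 0 := by
    intro k
    rw [hp]
    simp only
    have : ∑ c, (if f c = u k then y c else 0) = 0 := by
      apply Finset.sum_eq_zero
      intro c _
      rw [if_neg (fun h => huf k c h.symm)]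
    rw [this, add_zero]
    by_cases hk : k = k0
    · rw [if_pos hk, if_pos (by rw [hk])]
    · rw [if_neg hk, if_neg (fun h => hk (hu h))]
  have hp0 : ∀ v, v ∉ insert (u k0) (Finset.univ.image f) → p v = 0 := by
    intro v hv
    rw [Finset.mem_insert, not_or] at hv
    rw [hp]
    simp only
    rw [if_neg hv.1, zero_add]
    apply Finset.sum_eq_zero
    intro c _
    rw [if_neg]
    intro h
    exact hv.2 (Finset.mem_image.2 ⟨c, Finset.mem_univ _, h⟩)
  let φ : MvPolynomial W K →ₐ[K] DualNumber K := aeval (fun v => p v • DualNumber.eps)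
  have hφX : ∀ v, φ (X v) = p v • DualNumber.eps := fun v => aeval_X _ _
  have hker : artIdeal K Δ θ ≤ RingHom.ker φ.toRingHom := by
    unfold artIdeal
    rw [sup_le_iff]
    constructor
    · unfold srIdeal
      rw [Ideal.span_le]
      rintro q ⟨C, hC, rfl⟩
      change φ _ = 0
      rw [map_prod]
      have hne : C.Nonempty := by
        rw [Finset.nonempty_iff_ne_empty]
        rintro rfl
        exact hC he
      obtain ⟨a, ha⟩ := hne
      have hne2 : (C.erase a).Nonempty := by
        rw [Finset.nonempty_iff_ne_empty]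
        intro h0
        apply hC
        have h00 := Finset.insert_erase ha
        rw [h0] at h00
        rw [← h00]
        exact hs a
      obtain ⟨b, hb⟩ := hne2
      rw [← Finset.mul_prod_erase _ _ ha, ← Finset.mul_prod_erase _ _ hb, ← mul_assoc, hφX, hφX,
        smul_mul_smul_comm, DualNumber.eps_mul_eps, smul_zero, zero_mul]
    · rw [Ideal.span_le]
      rintro q ⟨i, rfl⟩
      change φ _ = 0
      rw [lin_expand (hθ i), map_sum]
      have e1 : ∀ v, φ (C (lc (θ i) v) * X v) = (lc (θ i) v * p v) • DualNumber.eps := by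
        intro v
        rw [← smul_eq_C_mul, map_smul, hφX, smul_smul]
      simp_rw [e1]
      rw [← Finset.sum_smul]
      have e2 : ∑ v, lc (θ i) v * p v = 0 := by
        have e3 : ∑ v, lc (θ i) v * p v =
            ∑ v ∈ insert (u k0) (Finset.univ.image f), lc (θ i) v * p v := by
          symm
          apply Finset.sum_subset (Finset.subset_univ _)
          intro v _ hv
          rw [hp0 v hv, mul_zero]
        have hnot : u k0 ∉ Finset.univ.image f := by
          intro h
          obtain ⟨c, _, hc⟩ := Finset.mem_image.1 h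
          exact huf k0 c hc.symm
        rw [e3, Finset.sum_insert hnot, Finset.sum_image (fun a _ b _ h => hf h), hpu, if_pos rfl]
        have := congrFun hMy i
        simp only [Matrix.mulVec, dotProduct] at this
        have e4 : ∑ c, lc (θ i) (f c) * p (f c) = - lc (θ i) (u k0) := by
          rw [← this]
          apply Finset.sum_congr rfl
          intro c _
          rw [hpf]; rfl
        rw [e4]; ring
      rw [e2, zero_smul]
  have h1 : φ (∑ k, C (c k) * X (u k)) = 0 := hker hmem
  rw [map_sum] at h1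
  have e1 : ∀ k, φ (C (c k) * X (u k)) = (c k * p (u k)) • DualNumber.eps := by
    intro k
    rw [← smul_eq_C_mul, map_smul, hφX, smul_smul]
  simp_rw [e1] at h1
  rw [← Finset.sum_smul, Finset.sum_eq_single k0, hpu, if_pos rfl, mul_one] at h1
  · have := congrArg TrivSqZeroExt.snd h1
    rw [TrivSqZeroExt.snd_smul, DualNumber.snd_eps] at this
    simp at this
    exact hk0 this
  · intro k _ hk
    rw [hpu, if_neg hk, mul_zero]
  · intro h; exact absurd (Finset.mem_univ _) h

/-- failure of injectivity -/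
theorem not_inj {θ : Fin 3 → MvPolynomial W K} (h : Shell Δ s F R)
    (hs : ∀ v, {v} ∈ Δ) (he : ∅ ∈ Δ)
    (hθ : ∀ i, (θ i).IsHomogeneous 1)
    (hfin : Module.Finite K (MvPolynomial W K ⧸ artIdeal K Δ θ))
    (f : Fin s → Fin 3 → W) (hf : ∀ j, Function.Injective (f j))
    (hfF : ∀ j, F j = Finset.univ.image (f j))
    (t : ℕ) (hcard : ∀ j : Fin s, t ≤ j.val → (R j).card = 1 ∨ (R j).card = 2)
    (j0 : Fin s) (u : Fin 4 → W) (hu : Function.Injective u) (huf : ∀ k c, u k ≠ f j0 c)
    (hR1 : ∀ k, ∃ j : Fin s, t ≤ j.val ∧ R j = {u k})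
    (ja jb : Fin s) (hR2 : ∀ j : Fin s, t ≤ j.val → (R j).card = 2 → j = ja ∨ j = jb)
    (l : MvPolynomial W K) (hl : l.IsHomogeneous 1) :
    ¬ MulInj (artIdeal K Δ θ) l 1 := by
  intro hinj
  set J := artIdeal K Δ θ with hJ
  set x : W → (MvPolynomial W K ⧸ J) := fun v => Ideal.Quotient.mk J (X v) with hx
  set D : Submodule K (MvPolynomial W K ⧸ J) :=
    Submodule.span K (Set.range ![∏ v ∈ R ja, x v, ∏ v ∈ R jb, x v]) with hD
  have hx0 : ∀ C, C ∉ Δ → ∏ v ∈ C, x v = 0 := by
    intro C hC
    rw [hx]
    simp only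
    rw [← map_prod, Ideal.Quotient.eq_zero_iff_mem]
    exact Ideal.mem_sup_left (Ideal.subset_span ⟨C, hC, rfl⟩)
  have hmain := pend_deg2 (K := K) x h hx0 (by
    intro j v hv
    have hfj : Finset.univ.image (f j) ∈ Δ := by rw [← hfF]; exact h.hF j
    rw [hfF] at hv ⊢
    obtain ⟨q, hq⟩ := facet_rel h.hdown hθ hfin (f j) (hf j) hfj v hv
    exact ⟨q, hq⟩) t hcard D (by
    intro j hj1 hj2
    apply Submodule.subset_span
    rcases hR2 j hj1 hj2 with rfl | rfl
    · exact ⟨0, rfl⟩
    · exact ⟨1, rfl⟩)
  have hlu : ∀ k, Ideal.Quotient.mk J l * x (u k) ∈ D := by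
    intro k
    obtain ⟨j, hj, hj2⟩ := hR1 k
    have e1 : x (u k) = ∏ v ∈ R j, x v := by rw [hj2, Finset.prod_singleton]
    rw [e1, lin_expand hl, map_sum, Finset.sum_mul]
    apply Submodule.sum_mem
    intro v _
    rw [map_mul, mul_assoc]
    have : Ideal.Quotient.mk J (C (lc l v)) = algebraMap K (MvPolynomial W K ⧸ J) (lc l v) := rfl
    rw [this, ← Algebra.smul_def]
    apply D.smul_mem
    exact hmain j hj (by rw [hj2, Finset.card_singleton]) v
  -- the linear map
  let T : (Fin 4 → K) →ₗ[K] D :=
    { toFun := fun c => ⟨∑ k, c k • (Ideal.Quotient.mk J l * x (u k)),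
        Submodule.sum_mem _ (fun k _ => D.smul_mem _ (hlu k))⟩
      map_add' := by
        intro a b
        apply Subtype.ext
        simp [add_smul, Finset.sum_add_distrib]
      map_smul' := by
        intro a b
        apply Subtype.ext
        simp [mul_smul, Finset.smul_sum] }
  have hDfin : Module.Finite K D := by
    rw [hD]
    exact Module.Finite.span_of_finite K (Set.toFinite _)
  have hDrank : Module.finrank K D ≤ 2 := by
    rw [hD]
    exact (finrank_range_le_card (R := K) ![∏ v ∈ R ja, x v, ∏ v ∈ R jb, x v]).trans (by simp)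
  have hker : LinearMap.ker T ≠ ⊥ := by
    apply LinearMap.ker_ne_bot_of_finrank_lt
    rw [Module.finrank_fin_fun]
    omega
  obtain ⟨c, hc, hc0⟩ := (Submodule.ne_bot_iff _).1 hker
  have h1 : ∑ k, c k • (Ideal.Quotient.mk J l * x (u k)) = 0 := congrArg Subtype.val hc
  have hfh : (∑ k, C (c k) * X (u k) : MvPolynomial W K).IsHomogeneous 1 := by
    apply IsHomogeneous.sum
    intro k _
    exact isHomogeneous_C_mul_X _ _
  have h2 : l * ∑ k, C (c k) * X (u k) ∈ J := by
    rw [← Ideal.Quotient.eq_zero_iff_mem, ← h1, Finset.mul_sum, map_sum]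
    apply Finset.sum_congr rfl
    intro k _
    rw [map_mul, map_mul]
    have hsm : ∀ (a : K) (b : MvPolynomial W K ⧸ J), a • b = Ideal.Quotient.mk J (C a) * b := by
      intro a b
      obtain ⟨b', rfl⟩ := Ideal.Quotient.mk_surjective b
      rw [← map_mul, ← smul_eq_C_mul]; rfl
    rw [hsm]; ring
  have h3 := hinj _ hfh h2
  exact pend_ne h.hdown hs he hθ hfin (f j0) (hf j0) (by rw [← hfF]; exact h.hF j0) u hu huf c hc0 h3

end
end Pool.Agent.H6.SR
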