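import Pool.Agent.H6.SR5

namespace Pool.Agent.H6.SR

open MvPolynomial Pool.Agent.H6.SRDefs

section
variable {W : Type} [DecidableEq W] [Fintype W] {K : Type} [Field K]
  {Δ : Set (Finset W)}

/-- the exponent of `X (b i) * X (b j)` -/
noncomputable def ex {n : ℕ} (b : Fin n → W) (x : Fin n × Fin n) : W →₀ ℕ :=
  Finsupp.single (b x.1) 1 + Finsupp.single (b x.2) 1

/-- coefficient extraction -/
noncomputable def pr (K : Type) [Field K] {n : ℕ} (b : Fin n → W) (Idx : Finset (Fin n × Fin n)) :
    MvPolynomial W K →ₗ[K] (Idx → K) where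
  toFun p := fun x => coeff (ex b x.1) p
  map_add' p q := by funext x; simp
  map_smul' a p := by funext x; simp

/-- base part of the linear part -/
noncomputable def bl {n : ℕ} (b : Fin n → W) (p : MvPolynomial W K) : MvPolynomial W K :=
  ∑ i, C (lc p (b i)) * X (b i)

theorem lc_bl {n : ℕ} {b : Fin n → W} (hb : Function.Injective b) (p : MvPolynomial W K) (i : Fin n) :
    lc (bl b p) (b i) = lc p (b i) := by
  unfold bl
  have : ∀ v, lc (∑ i, C (lc p (b i)) * X (b i) : MvPolynomial W K) v =
      ∑ i, lc p (b i) * (if b i = v then 1 else 0) := by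
    intro v
    unfold lc
    rw [coeff_sum]
    apply Finset.sum_congr rfl
    intro j _
    rw [coeff_C_mul, coeff_X']
    congr 1
    by_cases h : b j = v
    · rw [if_pos h, if_pos (by rw [h])]
    · rw [if_neg h, if_neg]
      intro h2
      exact h ((Finsupp.single_left_injective one_ne_zero) h2)
  rw [this, Finset.sum_eq_single i]
  · simp
  · intro j _ hj
    rw [if_neg (fun h => hj (hb h)), mul_zero]
  · intro h; exact absurd (Finset.mem_univ _) h

theorem pr_mul_X {n : ℕ} {b : Fin n → W} (hb : Function.Injective b)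
    (Idx : Finset (Fin n × Fin n)) (p : MvPolynomial W K) (v : W) :
    pr K b Idx (p * X v) = pr K b Idx (bl b p * X v) := by
  funext x
  change coeff (ex b x.1) (p * X v) = coeff (ex b x.1) (bl b p * X v)
  rw [coeff_mul_X', coeff_mul_X']
  by_cases hv : v ∈ (ex b x.1).support
  · rw [if_pos hv, if_pos hv]
    obtain ⟨i, hi⟩ : ∃ i, ex b x.1 - Finsupp.single v 1 = Finsupp.single (b i) 1 := by
      have hv2 : v = b x.1.1 ∨ v = b x.1.2 := by
        by_contra hcon
        rw [not_or] at hcon
        rw [Finsupp.mem_support_iff] at hv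
        apply hv
        unfold ex
        rw [Finsupp.add_apply, Finsupp.single_eq_of_ne hcon.1, Finsupp.single_eq_of_ne hcon.2,
          add_zero]
      rcases hv2 with rfl | rfl
      · exact ⟨x.1.2, by unfold ex; rw [add_tsub_cancel_left]⟩
      · exact ⟨x.1.1, by unfold ex; rw [add_tsub_cancel_right]⟩
    rw [hi]
    exact (lc_bl hb p i).symm
  · rw [if_neg hv, if_neg hv]

theorem pr_mul_lin {n : ℕ} {b : Fin n → W} (hb : Function.Injective b)
    (Idx : Finset (Fin n × Fin n)) (p q : MvPolynomial W K) (hq : q.IsHomogeneous 1) :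
    pr K b Idx (p * q) = pr K b Idx (bl b p * q) := by
  rw [lin_expand hq, Finset.mul_sum, Finset.mul_sum, map_sum, map_sum]
  apply Finset.sum_congr rfl
  intro v _
  have e : ∀ r : MvPolynomial W K, r * (C (lc q v) * X v) = lc q v • (r * X v) := by
    intro r
    rw [smul_eq_C_mul]; ring
  rw [e, e, map_smul, map_smul, pr_mul_X hb]

theorem pr_sr {n : ℕ} (b : Fin n → W) (Idx : Finset (Fin n × Fin n))
    (hdown : ∀ C ∈ Δ, ∀ D, D ⊆ C → D ∈ Δ)
    (hIdx : ∀ x ∈ Idx, {b x.1, b x.2} ∈ Δ) (r : MvPolynomial W K) (hr : r ∈ srIdeal K Δ) :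
    pr K b Idx r = 0 := by
  have key : ∀ r ∈ srIdeal K Δ, ∀ a, pr K b Idx (a * r) = 0 := by
    intro r hr
    unfold srIdeal at hr
    induction hr using Submodule.span_induction with
    | mem x hx =>
      obtain ⟨C, hC, rfl⟩ := hx
      intro a
      funext x
      change coeff (ex b x.1) (a * ∏ v ∈ C, X v) = 0
      have hns : ¬ C ⊆ {b x.1.1, b x.1.2} := fun hh => hC (hdown _ (hIdx _ x.2) _ hh)
      obtain ⟨v, hv, hv2⟩ := Finset.not_subset.1 hns
      rw [← Finset.mul_prod_erase _ _ hv, mul_left_comm, coeff_X_mul', if_neg]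
      rw [Finset.mem_insert, Finset.mem_singleton, not_or] at hv2
      rw [Finsupp.notMem_support_iff]
      unfold ex
      rw [Finsupp.add_apply, Finsupp.single_eq_of_ne hv2.1, Finsupp.single_eq_of_ne hv2.2,
        add_zero]
    | zero => intro a; simp
    | add x y _ _ hx hy =>
      intro a
      rw [mul_add, map_add, hx, hy, add_zero]
    | smul c x _ hx =>
      intro a
      rw [smul_eq_mul, ← mul_assoc]
      exact hx _
  have := key r hr 1
  rwa [one_mul] at this

/-- failure of surjectivity -/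
theorem not_surj {θ : Fin 3 → MvPolynomial W K}
    (hdown : ∀ C ∈ Δ, ∀ D, D ⊆ C → D ∈ Δ)
    (hθ : ∀ i, (θ i).IsHomogeneous 1)
    (hfin : Module.Finite K (MvPolynomial W K ⧸ artIdeal K Δ θ))
    (f : Fin 3 → W) (hf : Function.Injective f) (hfΔ : Finset.univ.image f ∈ Δ)
    {n : ℕ} (b : Fin n → W) (hb : Function.Injective b) (hfb : ∀ c, ∃ i, f c = b i)
    (Idx : Finset (Fin n × Fin n)) (hIdx : ∀ x ∈ Idx, {b x.1, b x.2} ∈ Δ)
    (hIdx2 : ∀ x ∈ Idx, x.1 ≤ x.2) (hcardI : 4 * n < Idx.card + 4)
    (l : MvPolynomial W K) (hl : l.IsHomogeneous 1) :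
    ¬ MulSurj (artIdeal K Δ θ) l 1 := by
  intro hsurj
  have hdet := det_ne hdown hθ hfin f hf hfΔ
  set M : Matrix (Fin 3) (Fin 3) K := Matrix.of (fun i c => lc (θ i) (f c)) with hM
  have hexinj : ∀ x ∈ Idx, ∀ y ∈ Idx, ex b x = ex b y → x = y := by
    intro x hx y hy hxy
    unfold ex at hxy
    rcases (Finsupp.single_add_single_eq_single_add_single one_ne_zero one_ne_zero).1 hxy with
      h1 | h1 | h1
    · exact Prod.ext (hb h1.1) (hb h1.2)
    · have e1 := hb h1.2.1
      have e2 := hb h1.2.2
      have h3 := hIdx2 x hx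
      have h4 := hIdx2 y hy
      rw [e1, e2] at h3
      have h5 : y.1 = y.2 := le_antisymm h4 h3
      exact Prod.ext (e1.trans h5.symm) (e2.trans h5)
    · exact absurd h1.1 (by norm_num)
  -- the four multipliers
  let Θ : Fin 4 → MvPolynomial W K := ![l, θ 0, θ 1, θ 2]
  have hΘ : ∀ k, (Θ k).IsHomogeneous 1 := by
    intro k
    fin_cases k
    · exact hl
    · exact hθ 0
    · exact hθ 1
    · exact hθ 2
  let lf : (Fin n → K) → MvPolynomial W K := fun y => ∑ i, C (y i) * X (b i)
  have hbl : ∀ p : MvPolynomial W K, bl b p = lf (fun i => lc p (b i)) := fun p => rfl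
  let Φ : (Fin 4 → Fin n → K) →ₗ[K] (Idx → K) :=
    { toFun := fun y => ∑ k, pr K b Idx (lf (y k) * Θ k)
      map_add' := by
        intro y z
        rw [← Finset.sum_add_distrib]
        apply Finset.sum_congr rfl
        intro k _
        rw [← map_add, ← add_mul]
        congr 2
        simp only [lf, Pi.add_apply, map_add, add_mul, Finset.sum_add_distrib]
      map_smul' := by
        intro a y
        rw [RingHom.id_apply, Finset.smul_sum]
        apply Finset.sum_congr rfl
        intro k _
        rw [← map_smul, ← smul_mul_assoc]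
        congr 2
        simp only [lf, Pi.smul_apply, smul_eq_mul, map_mul, Finset.smul_sum]
        apply Finset.sum_congr rfl
        intro i _
        rw [smul_eq_C_mul, mul_assoc] }
  have hΦ : ∀ y, Φ y = ∑ k, pr K b Idx (lf (y k) * Θ k) := fun y => rfl
  have hΦsurj : Function.Surjective Φ := by
    intro z
    set g : MvPolynomial W K := ∑ x : Idx, monomial (ex b x.1) (z x) with hg
    have hgh : g.IsHomogeneous 2 := by
      apply IsHomogeneous.sum
      intro x _
      apply isHomogeneous_monomial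
      unfold ex
      simp
    have hgz : pr K b Idx g = z := by
      funext x
      change coeff (ex b x.1) g = z x
      rw [hg, coeff_sum, Finset.sum_eq_single x]
      · rw [coeff_monomial, if_pos rfl]
      · intro y _ hyx
        rw [coeff_monomial, if_neg]
        intro h
        exact hyx (Subtype.ext (hexinj _ y.2 _ x.2 h))
      · intro h; exact absurd (Finset.mem_univ _) h
    obtain ⟨p, hp, hgp⟩ := hsurj g hgh
    unfold artIdeal at hgp
    obtain ⟨r1, hr1, r2, hr2, hr⟩ := Submodule.mem_sup.1 hgp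
    obtain ⟨c, hc⟩ := (Ideal.mem_span_range_iff_exists_fun).1 hr2
    have hgeq : g = l * p + (r1 + r2) := by rw [hr]; ring
    refine ⟨![fun i => lc p (b i), fun i => lc (c 0) (b i), fun i => lc (c 1) (b i),
      fun i => lc (c 2) (b i)], ?_⟩
    rw [hΦ, Fin.sum_univ_four, ← hgz, hgeq, ← hc, Fin.sum_univ_three]
    simp only [map_add]
    rw [pr_sr b Idx hdown hIdx r1 hr1, zero_add, mul_comm l p, pr_mul_lin hb Idx p l hl,
      pr_mul_lin hb Idx _ _ (hθ 0), pr_mul_lin hb Idx _ _ (hθ 1), pr_mul_lin hb Idx _ _ (hθ 2),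
      hbl, hbl, hbl, hbl]
    simp only [Θ, Matrix.cons_val_zero, Matrix.cons_val_one, Matrix.cons_val]
    ring
  -- four independent relations
  have hcomm : ∀ p q : MvPolynomial W K, p.IsHomogeneous 1 → q.IsHomogeneous 1 →
      pr K b Idx (lf (fun i => lc p (b i)) * q) = pr K b Idx (lf (fun i => lc q (b i)) * p) := by
    intro p q hp hq
    rw [← hbl, ← hbl, ← pr_mul_lin hb Idx p q hq, ← pr_mul_lin hb Idx q p hp, mul_comm]
  let a : Fin 3 → Fin n → K := fun i k => lc (θ i) (b k)
  let lv : Fin n → K := fun k => lc l (b k)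
  let κ : (Fin 4 → K) →ₗ[K] (Fin 4 → Fin n → K) :=
    { toFun := fun c => ![c 0 • a 0 + c 1 • a 1 + c 2 • a 2, - (c 0 • lv) - (c 3 • a 1),
        - (c 1 • lv) + c 3 • a 0, - (c 2 • lv)]
      map_add' := by
        intro c d
        funext k
        fin_cases k
        · simp [add_smul]; abel
        · simp [add_smul]; abel
        · simp [add_smul]; abel
        · simp [add_smul]; abel
      map_smul' := by
        intro c d
        funext k
        fin_cases k
        · simp [mul_smul, smul_add]
        · simp [mul_smul, smul_sub]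
        · simp [mul_smul, smul_add]
        · simp [mul_smul] }
  have hindep : ∀ c : Fin 3 → K, (∑ i, c i • a i = 0) → c = 0 := by
    intro c hc
    have h1 : Matrix.vecMul c M = 0 := by
      funext j
      obtain ⟨i, hi⟩ := hfb j
      have := congrFun hc i
      rw [Matrix.vecMul, dotProduct]
      rw [Finset.sum_apply] at this
      simp only [Pi.smul_apply, smul_eq_mul, Pi.zero_apply] at this
      rw [Pi.zero_apply, ← this]
      apply Finset.sum_congr rfl
      intro k _
      rw [hM, Matrix.of_apply, hi]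
    exact Matrix.eq_zero_of_vecMul_eq_zero hdet h1
  have hκ : Function.Injective κ := by
    rw [← LinearMap.ker_eq_bot, LinearMap.ker_eq_bot']
    intro c hc
    have h0 : c 0 • a 0 + c 1 • a 1 + c 2 • a 2 = 0 := congrFun hc 0
    have h1 : - (c 0 • lv) - (c 3 • a 1) = 0 := congrFun hc 1
    have h2 := hindep ![c 0, c 1, c 2] (by rw [Fin.sum_univ_three]; exact h0)
    have c0 : c 0 = 0 := congrFun h2 0
    have c1 : c 1 = 0 := congrFun h2 1
    have c2 : c 2 = 0 := congrFun h2 2
    rw [c0, zero_smul, neg_zero, zero_sub, neg_eq_zero] at h1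
    have h3 := hindep ![0, c 3, 0] (by rw [Fin.sum_univ_three]; simpa using h1)
    have c3 : c 3 = 0 := congrFun h3 1
    funext k
    fin_cases k
    · exact c0
    · exact c1
    · exact c2
    · exact c3
  have hlfadd : ∀ y z, lf (y + z) = lf y + lf z := by
    intro y z
    simp only [lf, Pi.add_apply, map_add, add_mul, Finset.sum_add_distrib]
  have hlfsm : ∀ (a : K) y, lf (a • y) = a • lf y := by
    intro a y
    simp only [lf, Pi.smul_apply, smul_eq_mul, map_mul, Finset.smul_sum]
    apply Finset.sum_congr rfl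
    intro i _
    rw [smul_eq_C_mul, mul_assoc]
  have hlfneg : ∀ y, lf (-y) = - lf y := by
    intro y
    have := hlfsm (-1) y
    simpa using this
  have hlfsub : ∀ y z, lf (y - z) = lf y - lf z := by
    intro y z
    rw [sub_eq_add_neg, hlfadd, hlfneg, sub_eq_add_neg]
  have hker : ∀ c, Φ (κ c) = 0 := by
    intro c
    rw [hΦ, Fin.sum_univ_four]
    change pr K b Idx (lf (c 0 • a 0 + c 1 • a 1 + c 2 • a 2) * l) +
      pr K b Idx (lf (- (c 0 • lv) - (c 3 • a 1)) * θ 0) +
      pr K b Idx (lf (- (c 1 • lv) + c 3 • a 0) * θ 1) +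
      pr K b Idx (lf (- (c 2 • lv)) * θ 2) = 0
    simp only [hlfadd, hlfsm, hlfneg, hlfsub, add_mul, sub_mul, neg_mul, smul_mul_assoc, map_add,
      map_sub, map_neg, map_smul]
    have h0 := hcomm (θ 0) l (hθ 0) hl
    have h1 := hcomm (θ 1) l (hθ 1) hl
    have h2 := hcomm (θ 2) l (hθ 2) hl
    have h3 := hcomm (θ 1) (θ 0) (hθ 1) (hθ 0)
    change pr K b Idx (lf (a 0) * l) = pr K b Idx (lf lv * θ 0) at h0
    change pr K b Idx (lf (a 1) * l) = pr K b Idx (lf lv * θ 1) at h1
    change pr K b Idx (lf (a 2) * l) = pr K b Idx (lf lv * θ 2) at h2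
    change pr K b Idx (lf (a 1) * θ 0) = pr K b Idx (lf (a 0) * θ 1) at h3
    rw [h0, h1, h2, h3]
    abel
  have hrn := LinearMap.finrank_range_add_finrank_ker Φ
  rw [LinearMap.range_eq_top.2 hΦsurj, finrank_top, Module.finrank_fintype_fun_eq_card,
    Fintype.card_coe] at hrn
  have hdom : Module.finrank K (Fin 4 → Fin n → K) = 4 * n := by
    rw [Module.finrank_pi_fintype]
    simp
  rw [hdom] at hrn
  have h4 : 4 ≤ Module.finrank K (LinearMap.ker Φ) := by
    let κ' : (Fin 4 → K) →ₗ[K] LinearMap.ker Φ :=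
      κ.codRestrict (LinearMap.ker Φ) (fun c => hker c)
    have hκ' : Function.Injective κ' := by
      intro c d h
      exact hκ (congrArg Subtype.val h)
    have := LinearMap.finrank_le_finrank_of_injective hκ'
    rwa [Module.finrank_fin_fun] at this
  omega

end
end Pool.Agent.H6.SR
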