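import Pool.Agent.H6.SR7

namespace Pool.Agent.H6.SR

open MvPolynomial Pool.Agent.H6.SRDefs

theorem fvc_inj (j : Fin 48) : Function.Injective (fun c => ce (fv j c)) := by
  intro c d h
  have e1 := congrArg rank (ce_inj h)
  rwa [fv_rank, fv_rank] at e1

theorem RR_card (j : Fin 48) :
    (RR j).card = (Finset.univ.filter (fun c => rk j c = true)).card :=
  Finset.card_image_of_injective _ (fvc_inj j)

theorem card_dec : ∀ j : Fin 48, 42 ≤ j.val →
    (Finset.univ.filter (fun c => rk j c = true)).card = 1 ∨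
    (Finset.univ.filter (fun c => rk j c = true)).card = 2 := by
  decide +kernel

theorem card2_dec : ∀ j : Fin 48, 42 ≤ j.val →
    (Finset.univ.filter (fun c => rk j c = true)).card = 2 → j = 43 ∨ j = 47 := by
  decide +kernel

def uu : Fin 4 → Fin 25 := ![24, 22, 21, 23]

def jj : Fin 4 → Fin 48 := ![42, 44, 45, 46]

theorem jj_dec : ∀ k : Fin 4, 42 ≤ (jj k).val ∧
    (Finset.univ.filter (fun c => rk (jj k) c = true)).image (fv (jj k)) = {uu k} := by
  decide +kernel

theorem uu_inj : ∀ k l : Fin 4, uu k = uu l → k = l := by decide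

theorem uu_ne : ∀ k : Fin 4, ∀ c : Fin 3, uu k ≠ fv 0 c := by decide +kernel

theorem RR_jj (k : Fin 4) : RR (jj k) = {ce (uu k)} := by
  have h := (jj_dec k).2
  unfold RR
  have : (fun c => ce (fv (jj k) c)) = ce ∘ (fv (jj k)) := rfl
  rw [this, ← Finset.image_image, h, Finset.image_singleton]

def bb (i : Fin 21) : Fin 25 := Fin.castLE (by norm_num) i

def IdxS : Finset (Fin 21 × Fin 21) :=
  Finset.univ.filter (fun x => x.1 ≤ x.2 ∧ (le (bb x.1) (bb x.2) || le (bb x.2) (bb x.1)) = true)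

theorem IdxS_card : IdxS.card = 81 := by
  decide +kernel

theorem fv0_base : ∀ c : Fin 3, ∃ i : Fin 21, fv 0 c = bb i := by
  decide +kernel

theorem bb_inj : Function.Injective bb := Fin.castLE_injective (by norm_num)

theorem pair_mem {i j : Fin 25} (h : le i j = true ∨ le j i = true) :
    ({ce i, ce j} : Finset (Cell gam)) ∈ sd gam := by
  intro σ hσ τ hτ hne
  rw [Finset.mem_coe, Finset.mem_insert, Finset.mem_singleton] at hσ hτ
  rcases hσ with rfl | rfl <;> rcases hτ with rfl | rfl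
  · exact absurd rfl hne
  · rcases h with h | h
    · exact Or.inl ((ce_le _ _).2 h)
    · exact Or.inr ((ce_le _ _).2 h)
  · rcases h with h | h
    · exact Or.inr ((ce_le _ _).2 h)
    · exact Or.inl ((ce_le _ _).2 h)
  · exact absurd rfl hne

theorem dim_unique {W : Type} {Δ : Set (Finset W)} {d e : ℕ} (h1 : HasDim Δ d) (h2 : HasDim Δ e) :
    d = e := by
  obtain ⟨C, hC, hC2⟩ := h1.2
  obtain ⟨D, hD, hD2⟩ := h2.2
  have := h2.1 C hC
  have := h1.1 D hD
  omega

theorem noWLP (K : Type) [Field K] (d : ℕ) (θ : Fin d → MvPolynomial (Cell gam) K)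
    (hθ : IsLsop K (sd gam) θ) : ¬ HasWLP (artIdeal K (sd gam) θ) := by
  let _ : Fintype (Cell gam) := Fintype.ofSurjective ce ce_surj
  have hd := dim_unique hθ.1 (hasDim shell coloured empty_mem)
  subst hd
  rintro ⟨l, hl, hW⟩
  rcases hW 1 with h1 | h1
  · refine not_inj (K := K) shell sing_mem empty_mem hθ.2.1 hθ.2.2 (fun j c => ce (fv j c)) fvc_inj
      (fun j => rfl) 42 ?_ 0 (fun k => ce (uu k)) ?_ ?_ ?_ 43 47 ?_ l hl h1
    · intro j hj
      rw [RR_card]
      exact card_dec j hj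
    · intro k l h
      exact uu_inj k l (ce_inj h)
    · intro k c h
      exact uu_ne k c (ce_inj h)
    · intro k
      exact ⟨jj k, (jj_dec k).1, RR_jj k⟩
    · intro j hj hj2
      rw [RR_card] at hj2
      exact card2_dec j hj hj2
  · refine not_surj (K := K) shell.hdown hθ.2.1 hθ.2.2 (fun c => ce (fv 0 c)) (fvc_inj 0)
      (FF_mem 0) (fun i => ce (bb i)) (fun i j h => bb_inj (ce_inj h)) ?_ IdxS ?_ ?_ ?_ l hl h1
    · intro c
      obtain ⟨i, hi⟩ := fv0_base c
      exact ⟨i, by rw [hi]⟩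
    · intro x hx
      have := (Finset.mem_filter.1 hx).2.2
      rw [Bool.or_eq_true] at this
      exact pair_mem this
    · intro x hx
      exact (Finset.mem_filter.1 hx).2.1
    · rw [IdxS_card]; norm_num

theorem main : ∃ (V : Type) (_ : Finite V) (Γ : AbstractSimplicialComplex V),
    ∀ (K : Type) [Field K], IsCohenMacaulay K (sd Γ) ∧
      ∀ (d : ℕ) (θ : Fin d → MvPolynomial (Cell Γ) K),
        IsLsop K (sd Γ) θ → ¬ HasWLP (artIdeal K (sd Γ) θ) := by
  refine ⟨Fin 6, inferInstance, gam, ?_⟩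
  intro K _
  let _ : Fintype (Cell gam) := Fintype.ofSurjective ce ce_surj
  exact ⟨isCM K shell coloured empty_mem, noWLP K⟩

end Pool.Agent.H6.SR
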