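import Mathlib

/-!
Stanley-Reisner rings, barycentric subdivisions of finite simplicial complexes,
linear systems of parameters, the Cohen-Macaulay property and the weak Lefschetz property.
-/

namespace Pool.Agent.H6.SRDefs

open MvPolynomial

/-- The (nonempty closed) cells of a simplicial complex `Γ`: its nonempty faces. -/
abbrev Cell {V : Type} (Γ : AbstractSimplicialComplex V) : Type :=
  {σ : Finset V // σ ∈ Γ.faces}

/-- The faces (the empty one included) of the barycentric subdivision `sd(Γ)`:
the finite sets of cells of `Γ` that are chains for inclusion. -/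
def sd {V : Type} (Γ : AbstractSimplicialComplex V) : Set (Finset (Cell Γ)) :=
  {C | IsChain (fun σ τ : Cell Γ => σ.1 ⊆ τ.1) (C : Set (Cell Γ))}

/-- `Δ` (given by the set of its faces, the empty one included) has dimension `d - 1`. -/
def HasDim {W : Type} (Δ : Set (Finset W)) (d : ℕ) : Prop :=
  (∀ C ∈ Δ, C.card ≤ d) ∧ ∃ C ∈ Δ, C.card = d

/-- The Stanley-Reisner ideal `I_Δ`, generated by the monomials of the non-faces. -/
noncomputable def srIdeal (K : Type) [Field K] {W : Type} (Δ : Set (Finset W)) :
    Ideal (MvPolynomial W K) :=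
  Ideal.span {p | ∃ C : Finset W, C ∉ Δ ∧ p = ∏ v ∈ C, X v}

/-- The ideal `I_Δ + (Θ)`. -/
noncomputable def artIdeal (K : Type) [Field K] {W : Type} (Δ : Set (Finset W)) {d : ℕ}
    (θ : Fin d → MvPolynomial W K) : Ideal (MvPolynomial W K) :=
  srIdeal K Δ ⊔ Ideal.span (Set.range θ)

/-- `θ` is a linear system of parameters of `K[Δ]`: `d = dim Δ + 1` linear forms such that
`S / (I_Δ + (Θ))` has finite `K`-dimension. -/
def IsLsop (K : Type) [Field K] {W : Type} (Δ : Set (Finset W)) {d : ℕ}
    (θ : Fin d → MvPolynomial W K) : Prop :=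
  HasDim Δ d ∧ (∀ i, (θ i).IsHomogeneous 1) ∧
    Module.Finite K (MvPolynomial W K ⧸ artIdeal K Δ θ)

/-- `K[Δ]` is Cohen-Macaulay: some linear system of parameters is a regular sequence. -/
def IsCohenMacaulay (K : Type) [Field K] {W : Type} (Δ : Set (Finset W)) : Prop :=
  ∃ (d : ℕ) (θ : Fin d → MvPolynomial W K), IsLsop K Δ θ ∧
    RingTheory.Sequence.IsRegular (MvPolynomial W K ⧸ srIdeal K Δ)
      (List.ofFn fun i => Ideal.Quotient.mk (srIdeal K Δ) (θ i))

/-- For a homogeneous ideal `J` with quotient `A`, multiplication by `l : A_i → A_{i+1}`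
is injective. -/
def MulInj {K W : Type} [Field K] (J : Ideal (MvPolynomial W K)) (l : MvPolynomial W K)
    (i : ℕ) : Prop :=
  ∀ f : MvPolynomial W K, f.IsHomogeneous i → l * f ∈ J → f ∈ J

/-- For a homogeneous ideal `J` with quotient `A`, multiplication by `l : A_i → A_{i+1}`
is surjective. -/
def MulSurj {K W : Type} [Field K] (J : Ideal (MvPolynomial W K)) (l : MvPolynomial W K)
    (i : ℕ) : Prop :=
  ∀ g : MvPolynomial W K, g.IsHomogeneous (i + 1) →
    ∃ f : MvPolynomial W K, f.IsHomogeneous i ∧ g - l * f ∈ J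

/-- The weak Lefschetz property of the graded algebra `A = S / J`: for some linear form `l`
every map `l : A_i → A_{i+1}` is injective or surjective. -/
def HasWLP {K W : Type} [Field K] (J : Ideal (MvPolynomial W K)) : Prop :=
  ∃ l : MvPolynomial W K, l.IsHomogeneous 1 ∧ ∀ i : ℕ, MulInj J l i ∨ MulSurj J l i

end Pool.Agent.H6.SRDefs
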