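import Mathlib

/-! Trigonometric sums at the points `2π / 4^j`. -/

namespace Pool.Agent.H6.TS

open ComplexConjugate

/-- `exp(2 π i n / 4^j)` -/
noncomputable def E (n j : ℕ) : ℂ := Complex.exp (2 * Real.pi * Complex.I * n / 4 ^ j)

theorem E_norm (n j : ℕ) : ‖E n j‖ = 1 := by
  unfold E
  have : (2 * Real.pi * Complex.I * n / 4 ^ j : ℂ) = ((2 * Real.pi * n / 4 ^ j : ℝ) : ℂ) * Complex.I := by
    push_cast; ring
  rw [this, Complex.norm_exp_ofReal_mul_I]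

theorem E_period (n q : ℕ) {j L : ℕ} (h : j ≤ L) : E (n + 4 ^ L * q) j = E n j := by
  unfold E
  obtain ⟨i, rfl⟩ := Nat.exists_eq_add_of_le h
  have h4 : (4 : ℂ) ^ j ≠ 0 := pow_ne_zero _ (by norm_num)
  have : (2 * Real.pi * Complex.I * ((n + 4 ^ (j + i) * q : ℕ) : ℂ) / 4 ^ j : ℂ) =
      2 * Real.pi * Complex.I * n / 4 ^ j + ((4 ^ i * q : ℕ) : ℂ) * (2 * Real.pi * Complex.I) := by
    push_cast
    rw [pow_add]
    field_simp
  rw [this, Complex.exp_add, Complex.exp_nat_mul_two_pi_mul_I, mul_one]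

theorem E_step (n d L : ℕ) : E (n + 4 ^ L * d) (L + 1) = E n (L + 1) * Complex.I ^ d := by
  unfold E
  have h4 : (4 : ℂ) ^ L ≠ 0 := pow_ne_zero _ (by norm_num)
  have : (2 * Real.pi * Complex.I * ((n + 4 ^ L * d : ℕ) : ℂ) / 4 ^ (L + 1) : ℂ) =
      2 * Real.pi * Complex.I * n / 4 ^ (L + 1) + (d : ℂ) * (Real.pi / 2 * Complex.I) := by
    push_cast
    rw [pow_succ]
    field_simp
    ring
  rw [this, Complex.exp_add, Complex.exp_nat_mul, Complex.exp_pi_div_two_mul_I]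

theorem dir (w e : ℂ) (he : ‖e‖ = 1) : ∃ d : ℕ, (e * Complex.I ^ d * conj w).re ≤ -‖w‖ / 2 := by
  by_contra hcon
  push Not at hcon
  set u := e * conj w with hu
  have hun : ‖u‖ = ‖w‖ := by rw [hu, norm_mul, he, one_mul, RCLike.norm_conj]
  have hsq : u.re ^ 2 + u.im ^ 2 = ‖w‖ ^ 2 := by
    rw [← hun, ← Complex.normSq_eq_norm_sq, Complex.normSq_apply]; ring
  have h0 := hcon 0
  have h1 := hcon 1
  have h2 := hcon 2
  have h3 := hcon 3
  have e0 : e * Complex.I ^ 0 * conj w = u := by rw [hu]; ring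
  have e1 : e * Complex.I ^ 1 * conj w = u * Complex.I := by rw [hu]; ring
  have e2 : e * Complex.I ^ 2 * conj w = -u := by rw [hu, Complex.I_sq]; ring
  have e3 : e * Complex.I ^ 3 * conj w = -(u * Complex.I) := by
    rw [hu, pow_succ, Complex.I_sq]; ring
  rw [e0] at h0
  rw [e1, Complex.mul_I_re] at h1
  rw [e2, Complex.neg_re] at h2
  rw [e3, Complex.neg_re, Complex.mul_I_re] at h3
  have hw := norm_nonneg w
  nlinarith

/-- partial sums of the Fourier coefficient -/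
noncomputable def W (n L : ℕ) : ℂ := ∑ j ∈ Finset.range (L + 1), ((19 / 20 : ℝ) ^ j : ℝ) * E n j

theorem W_succ (n L : ℕ) : W n (L + 1) = W n L + ((19 / 20 : ℝ) ^ (L + 1) : ℝ) * E n (L + 1) := by
  unfold W
  rw [Finset.sum_range_succ]

theorem W_period (n q : ℕ) {j L : ℕ} (h : j ≤ L) : W (n + 4 ^ L * q) j = W n j := by
  unfold W
  apply Finset.sum_congr rfl
  intro i hi
  rw [E_period n q (by rw [Finset.mem_range] at hi; omega)]

theorem grow {B : ℝ} (hB : B = 2 ∨ B = 4) {w z : ℂ} {ρ : ℝ} (hρ : 0 < ρ) (hw : ‖w‖ ≤ B * ρ)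
    (hz : ‖z‖ = 1) (hd : (z * conj w).re ≤ -‖w‖ / 2) :
    ‖w + ((ρ * (19 / 20) : ℝ) : ℂ) * z‖ ≤ B * (ρ * (19 / 20)) := by
  set m : ℝ := ρ * (19 / 20) with hm
  have hm0 : 0 < m := by positivity
  have e : ‖w + (m : ℂ) * z‖ ^ 2 = ‖w‖ ^ 2 + 2 * m * (z * conj w).re + m ^ 2 := by
    rw [← Complex.normSq_eq_norm_sq, ← Complex.normSq_eq_norm_sq]
    have hz2 : Complex.normSq z = 1 := by rw [Complex.normSq_eq_norm_sq, hz]; norm_num
    rw [Complex.normSq_apply] at hz2 ⊢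
    rw [Complex.normSq_apply]
    simp only [Complex.add_re, Complex.add_im, Complex.mul_re, Complex.mul_im, Complex.ofReal_re,
      Complex.ofReal_im, Complex.conj_re, Complex.conj_im]
    linear_combination m ^ 2 * hz2
  have hn := norm_nonneg w
  have hBm : 0 ≤ B * m := by rcases hB with h | h <;> rw [h] <;> positivity
  rw [← sq_le_sq₀ (norm_nonneg _) hBm, e]
  have hρm : ρ = m * (20 / 19) := by rw [hm]; ring
  rw [hρm] at hw
  rcases hB with h | h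
  · rw [h] at hw ⊢
    rcases le_total ‖w‖ m with h1 | h1
    · nlinarith
    · nlinarith
  · rw [h] at hw ⊢
    rcases le_total ‖w‖ m with h1 | h1
    · nlinarith
    · nlinarith

/-- greedy extension by one digit -/
theorem ext1 {B : ℝ} (hB : B = 2 ∨ B = 4) (n L : ℕ) (h : ‖W n L‖ ≤ B * (19 / 20) ^ L) :
    ∃ d : ℕ, ‖W (n + 4 ^ L * d) (L + 1)‖ ≤ B * (19 / 20) ^ (L + 1) := by
  obtain ⟨d, hd⟩ := dir (W n L) (E n (L + 1)) (E_norm _ _)
  refine ⟨d, ?_⟩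
  rw [W_succ, W_period n d le_rfl, pow_succ]
  apply grow hB (by positivity) h (E_norm _ _)
  rw [E_step]
  exact hd

theorem extL {B : ℝ} (hB : B = 2 ∨ B = 4) (n k : ℕ) (h : ‖W n k‖ ≤ B * (19 / 20) ^ k) (i : ℕ) :
    ∃ d : ℕ, ‖W (n + 4 ^ k * d) (k + i)‖ ≤ B * (19 / 20) ^ (k + i) := by
  induction i with
  | zero => exact ⟨0, by simpa using h⟩
  | succ i ih =>
    obtain ⟨d, hd⟩ := ih
    obtain ⟨e, he⟩ := ext1 hB _ _ hd
    refine ⟨d + 4 ^ i * e, ?_⟩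
    have : n + 4 ^ k * (d + 4 ^ i * e) = n + 4 ^ k * d + 4 ^ (k + i) * e := by
      rw [pow_add]; ring
    rw [this]
    exact he

/-- the conjugate Fourier coefficient -/
noncomputable def M (n : ℕ) : ℂ := ∑' j : ℕ, ((19 / 20 : ℝ) ^ j : ℝ) * E n j

theorem M_summable (n : ℕ) : Summable (fun j : ℕ => (((19 / 20 : ℝ) ^ j : ℝ) : ℂ) * E n j) := by
  apply Summable.of_norm
  have : (fun j : ℕ => ‖(((19 / 20 : ℝ) ^ j : ℝ) : ℂ) * E n j‖) = fun j => (19 / 20 : ℝ) ^ j := by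
    funext j
    rw [norm_mul, E_norm, mul_one, Complex.norm_real, Real.norm_of_nonneg (by positivity)]
  rw [this]
  exact summable_geometric_of_lt_one (by norm_num) (by norm_num)

theorem M_sub (n L : ℕ) : ‖M n - W n L‖ ≤ 20 * (19 / 20) ^ (L + 1) := by
  have h := (M_summable n).sum_add_tsum_nat_add (L + 1)
  have e : M n - W n L = ∑' i : ℕ, ((((19 / 20 : ℝ) ^ (i + (L + 1)) : ℝ) : ℂ) * E n (i + (L + 1))) := by
    unfold M W
    rw [← h]
    ring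
  rw [e]
  have hs : HasSum (fun i : ℕ => (19 / 20 : ℝ) ^ (L + 1) * (19 / 20) ^ i) ((19 / 20) ^ (L + 1) * (1 - 19 / 20)⁻¹) :=
    (hasSum_geometric_of_lt_one (by norm_num) (by norm_num)).mul_left _
  have := tsum_of_norm_bounded (f := fun i : ℕ => ((((19 / 20 : ℝ) ^ (i + (L + 1)) : ℝ) : ℂ) * E n (i + (L + 1)))) hs (by
    intro i
    rw [norm_mul, E_norm, mul_one, Complex.norm_real, Real.norm_of_nonneg (by positivity), pow_add]
    apply le_of_eq; ring)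
  refine this.trans (le_of_eq ?_)
  norm_num
  ring

theorem M_bound (n L : ℕ) (h : ‖W n L‖ ≤ 4 * (19 / 20) ^ L) : ‖M n‖ ≤ 24 * (19 / 20) ^ L := by
  have h1 := M_sub n L
  have h2 : ‖M n‖ ≤ ‖M n - W n L‖ + ‖W n L‖ := by
    have := norm_add_le (M n - W n L) (W n L)
    simpa using this
  rw [pow_succ] at h1
  have : (0 : ℝ) < (19 / 20) ^ L := by positivity
  nlinarith

theorem M_zero : M 0 = 20 := by
  unfold M
  have : (fun j : ℕ => (((19 / 20 : ℝ) ^ j : ℝ) : ℂ) * E 0 j) = fun j => (((19 / 20 : ℝ) ^ j : ℝ) : ℂ) := by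
    funext j
    simp [E]
  rw [this, ← Complex.ofReal_tsum, tsum_geometric_of_lt_one (by norm_num) (by norm_num)]
  norm_num

theorem small_pow (δ : ℝ) (hδ : 0 < δ) (k : ℕ) : ∃ i : ℕ, 24 * (19 / 20 : ℝ) ^ (k + i) ≤ δ := by
  obtain ⟨i, hi⟩ := exists_pow_lt_of_lt_one (show 0 < δ / 24 by positivity) (show (19 / 20 : ℝ) < 1 by norm_num)
  refine ⟨i, ?_⟩
  have : (19 / 20 : ℝ) ^ (k + i) ≤ (19 / 20) ^ i :=
    pow_le_pow_of_le_one (by norm_num) (by norm_num) (by omega)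
  linarith

/-- two residue classes agreeing up to level `k` and different at level `k + 1`, with small
coefficients -/
theorem two_classes (k : ℕ) (δ : ℝ) (hδ : 0 < δ) : ∃ n1 n2 L : ℕ, ∃ z1 z2 : ℂ, 1 ≤ ‖z2 - z1‖ ∧
    (∀ q q' j : ℕ, j ≤ k → E (n1 + 4 ^ L * q) j = E (n2 + 4 ^ L * q') j) ∧
    (∀ q : ℕ, E (n1 + 4 ^ L * q) (k + 1) = z1) ∧ (∀ q : ℕ, E (n2 + 4 ^ L * q) (k + 1) = z2) ∧
    (∀ q : ℕ, ‖M (n1 + 4 ^ L * q)‖ ≤ δ) ∧ (∀ q : ℕ, ‖M (n2 + 4 ^ L * q)‖ ≤ δ) := by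
  obtain ⟨d, hd⟩ := extL (B := 2) (Or.inl rfl) 0 0 (by
    unfold W
    simp only [zero_add, Finset.range_one, Finset.sum_singleton, pow_zero]
    rw [norm_mul, E_norm]; simp) k
  simp only [zero_add] at hd
  set n0 := 4 ^ 0 * d with hn0
  have hb : ∀ e : ℕ, ‖W (n0 + 4 ^ k * e) (k + 1)‖ ≤ 4 * (19 / 20) ^ (k + 1) := by
    intro e
    rw [W_succ, W_period n0 e le_rfl]
    refine (norm_add_le _ _).trans ?_
    rw [norm_mul, E_norm, mul_one, Complex.norm_real, Real.norm_of_nonneg (by positivity), pow_succ]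
    have : (0 : ℝ) < (19 / 20) ^ k := by positivity
    nlinarith
  obtain ⟨i, hi⟩ := small_pow δ hδ (k + 1)
  have key : ∀ e : ℕ, ∃ n : ℕ, (∀ q j : ℕ, j ≤ k + 1 → E (n + 4 ^ (k + 1 + i) * q) j = E (n0 + 4 ^ k * e) j) ∧
      (∀ q : ℕ, ‖M (n + 4 ^ (k + 1 + i) * q)‖ ≤ δ) := by
    intro e
    obtain ⟨s, hs⟩ := extL (B := 4) (Or.inr rfl) (n0 + 4 ^ k * e) (k + 1) (hb e) i
    refine ⟨n0 + 4 ^ k * e + 4 ^ (k + 1) * s, ?_, ?_⟩
    · intro q j hj
      rw [E_period _ _ (by omega), E_period _ _ hj]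
    · intro q
      refine (M_bound _ (k + 1 + i) ?_).trans hi
      rw [W_period _ _ le_rfl]
      exact hs
  obtain ⟨n1, h1, h1'⟩ := key 0
  obtain ⟨n2, h2, h2'⟩ := key 1
  refine ⟨n1, n2, k + 1 + i, E n0 (k + 1), E n0 (k + 1) * Complex.I, ?_, ?_, ?_, ?_, h1', h2'⟩
  · have : E n0 (k + 1) * Complex.I - E n0 (k + 1) = E n0 (k + 1) * (Complex.I - 1) := by ring
    rw [this, norm_mul, E_norm, one_mul]
    have h := Complex.abs_im_le_norm (Complex.I - 1)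
    simpa using h
  · intro q q' j hj
    rw [h1 q j (by omega), h2 q' j (by omega), E_period _ _ hj, E_period _ _ hj]
  · intro q
    rw [h1 q _ le_rfl]; simp
  · intro q
    rw [h2 q _ le_rfl, E_step]; simp

end Pool.Agent.H6.TS
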