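import Pool.Agent.H6.TS1

namespace Pool.Agent.H6.TS

/-- partial sum of the series with coefficients `a` at the point `2π/4^j` -/
noncomputable def S (a : ℕ → ℂ) (m j : ℕ) : ℂ := ∑ n ∈ Finset.range m, a n * E n j

/-- total pairing mass -/
noncomputable def V (a : ℕ → ℂ) (m : ℕ) : ℝ := ∑ n ∈ Finset.range m, ‖a n‖ * ‖M n‖

theorem S_stable {a : ℕ → ℂ} {N m : ℕ} (ha : ∀ n, N ≤ n → a n = 0) (h : N ≤ m) (j : ℕ) :
    S a m j = S a N j := by
  unfold S
  obtain ⟨i, rfl⟩ := Nat.exists_eq_add_of_le h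
  rw [Finset.sum_range_add]
  have : ∑ x ∈ Finset.range i, a (N + x) * E (N + x) j = 0 := by
    apply Finset.sum_eq_zero
    intro x _
    rw [ha _ (by omega), zero_mul]
  rw [this, add_zero]

theorem V_stable {a : ℕ → ℂ} {N m : ℕ} (ha : ∀ n, N ≤ n → a n = 0) (h : N ≤ m) :
    V a m = V a N := by
  unfold V
  obtain ⟨i, rfl⟩ := Nat.exists_eq_add_of_le h
  rw [Finset.sum_range_add]
  have : ∑ x ∈ Finset.range i, ‖a (N + x)‖ * ‖M (N + x)‖ = 0 := by
    apply Finset.sum_eq_zero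
    intro x _
    rw [ha _ (by omega), norm_zero, zero_mul]
  rw [this, add_zero]

/-- add one term at the frequency `p` -/
noncomputable def addT (a : ℕ → ℂ) (p : ℕ) (c : ℂ) : ℕ → ℂ := Function.update a p c

theorem addT_spec {a : ℕ → ℂ} {N p : ℕ} (ha : ∀ n, N ≤ n → a n = 0) (hp : N ≤ p) (c : ℂ) :
    (∀ n, p + 1 ≤ n → addT a p c n = 0) ∧ (∀ n < N, addT a p c n = a n) ∧
    (∀ n, N ≤ n → ‖addT a p c n‖ ≤ ‖c‖) ∧
    (∀ m j, N ≤ m → m ≤ p → S (addT a p c) m j = S a N j) ∧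
    (∀ j, S (addT a p c) (p + 1) j = S a N j + c * E p j) ∧
    V (addT a p c) (p + 1) = V a N + ‖c‖ * ‖M p‖ := by
  have hS : ∀ m j, N ≤ m → m ≤ p → S (addT a p c) m j = S a N j := by
    intro m j h1 h2
    rw [← S_stable ha h1 j]
    unfold S addT
    apply Finset.sum_congr rfl
    intro n hn
    rw [Finset.mem_range] at hn
    rw [Function.update_of_ne (by omega)]
  have hV : V (addT a p c) p = V a N := by
    rw [← V_stable ha hp]
    unfold V addT
    apply Finset.sum_congr rfl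
    intro n hn
    rw [Finset.mem_range] at hn
    rw [Function.update_of_ne (by omega)]
  refine ⟨?_, ?_, ?_, hS, ?_, ?_⟩
  · intro n hn
    unfold addT
    rw [Function.update_of_ne (by omega), ha n (by omega)]
  · intro n hn
    unfold addT
    rw [Function.update_of_ne (by omega)]
  · intro n hn
    unfold addT
    by_cases h : n = p
    · rw [h, Function.update_self]
    · rw [Function.update_of_ne h, ha n hn, norm_zero]; exact norm_nonneg c
  · intro j
    have := hS p j hp le_rfl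
    unfold S at this ⊢
    rw [Finset.sum_range_succ, this]
    unfold addT
    rw [Function.update_self]
  · unfold V at hV ⊢
    rw [Finset.sum_range_succ, hV]
    unfold addT
    rw [Function.update_self]

/-- add a pair of terms with opposite coefficients -/
theorem pair {a : ℕ → ℂ} {N p p' : ℕ} (ha : ∀ n, N ≤ n → a n = 0) (hp : N ≤ p) (hpp : p < p')
    (c : ℂ) : ∃ a' : ℕ → ℂ, (∀ n, p' + 1 ≤ n → a' n = 0) ∧ (∀ n < N, a' n = a n) ∧
    (∀ n, N ≤ n → ‖a' n‖ ≤ ‖c‖) ∧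
    (∀ m j, N ≤ m → E p j = E p' j → ‖S a' m j - S a N j‖ ≤ ‖c‖) ∧
    (∀ j, S a' (p' + 1) j = S a N j + c * (E p' j - E p j)) ∧
    V a' (p' + 1) = V a N + ‖c‖ * ‖M p‖ + ‖c‖ * ‖M p'‖ := by
  obtain ⟨b1, b2, b3, b4, b5, b6⟩ := addT_spec ha hp (-c)
  set b := addT a p (-c) with hb
  obtain ⟨c1, c2, c3, c4, c5, c6⟩ := addT_spec b1 (show p + 1 ≤ p' by omega) c
  refine ⟨addT b p' c, c1, ?_, ?_, ?_, ?_, ?_⟩
  · intro n hn
    rw [c2 n (by omega), b2 n hn]
  · intro n hn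
    by_cases h : n < p + 1
    · rw [c2 n h]
      have := b3 n hn
      rwa [norm_neg] at this
    · exact c3 n (by omega)
  · intro m j hm hE
    by_cases h1 : m ≤ p
    · have e : S (addT b p' c) m j = S b m j := by
        unfold S
        apply Finset.sum_congr rfl
        intro n hn
        rw [Finset.mem_range] at hn
        rw [c2 n (by omega)]
      rw [e, b4 m j hm h1, sub_self, norm_zero]; exact norm_nonneg c
    · by_cases h2 : m ≤ p'
      · rw [c4 m j (by omega) h2, b5]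
        have : S a N j + -c * E p j - S a N j = -(c * E p j) := by ring
        rw [this, norm_neg, norm_mul, E_norm, mul_one]
      · rw [S_stable c1 (by omega), c5, b5, hE]
        have : S a N j + -c * E p' j + c * E p' j - S a N j = 0 := by ring
        rw [this, norm_zero]; exact norm_nonneg c
  · intro j
    rw [c5, b5]; ring
  · rw [c6, b6, norm_neg]

/-- add `i` pairs -/
theorem pairs {n1 n2 L k : ℕ} {z1 z2 : ℂ} {δ : ℝ} 
    (hE : ∀ q q' j : ℕ, j ≤ k → E (n1 + 4 ^ L * q) j = E (n2 + 4 ^ L * q') j)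
    (hz1 : ∀ q : ℕ, E (n1 + 4 ^ L * q) (k + 1) = z1) (hz2 : ∀ q : ℕ, E (n2 + 4 ^ L * q) (k + 1) = z2)
    (h1 : ∀ q : ℕ, ‖M (n1 + 4 ^ L * q)‖ ≤ δ) (h2 : ∀ q : ℕ, ‖M (n2 + 4 ^ L * q)‖ ≤ δ)
    {a : ℕ → ℂ} {N : ℕ} (ha : ∀ n, N ≤ n → a n = 0) (c : ℂ) (i : ℕ) :
    ∃ N' : ℕ, N ≤ N' ∧ ∃ a' : ℕ → ℂ, (∀ n, N' ≤ n → a' n = 0) ∧ (∀ n < N, a' n = a n) ∧
    (∀ n, N ≤ n → ‖a' n‖ ≤ ‖c‖) ∧
    (∀ m j, N ≤ m → j ≤ k → ‖S a' m j - S a N j‖ ≤ ‖c‖) ∧
    (∀ j, j ≤ k → S a' N' j = S a N j) ∧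
    S a' N' (k + 1) = S a N (k + 1) + i * (c * (z2 - z1)) ∧
    V a' N' ≤ V a N + i * (2 * ‖c‖ * δ) := by
  induction i with
  | zero =>
    refine ⟨N, le_rfl, a, ha, fun _ _ => rfl, ?_, ?_, fun _ _ => rfl, by simp, by simp⟩
    · intro n hn
      rw [ha n hn, norm_zero]; exact norm_nonneg c
    · intro m j hm _
      rw [S_stable ha hm, sub_self, norm_zero]; exact norm_nonneg c
  | succ i ih =>
    obtain ⟨N1, hN1, a1, s1, s2, s3, s4, s5, s6, s7⟩ := ih
    have hpos : 0 < 4 ^ L := by positivity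
    set p := n1 + 4 ^ L * N1 with hp
    set p' := n2 + 4 ^ L * (p + 1) with hp'
    have hpN : N1 ≤ p := by
      rw [hp]; nlinarith
    have hpp : p < p' := by
      rw [hp']; nlinarith
    obtain ⟨a', t1, t2, t3, t4, t5, t6⟩ := pair s1 hpN hpp c
    refine ⟨p' + 1, by omega, a', t1, ?_, ?_, ?_, ?_, ?_, ?_⟩
    · intro n hn
      rw [t2 n (by omega), s2 n hn]
    · intro n hn
      by_cases h : n < N1
      · rw [t2 n h]; exact s3 n hn
      · exact t3 n (by omega)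
    · intro m j hm hj
      by_cases h : m < N1
      · have e : S a' m j = S a1 m j := by
          unfold S
          apply Finset.sum_congr rfl
          intro n hn
          rw [Finset.mem_range] at hn
          rw [t2 n (by omega)]
        rw [e]; exact s4 m j hm hj
      · have := t4 m j (by omega) (hE _ _ j hj)
        rwa [s5 j hj] at this
    · intro j hj
      rw [t5, hE N1 (p + 1) j hj, s5 j hj]; ring
    · rw [t5, s6, hz1, hz2]; push_cast; ring
    · rw [t6]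
      have e1 := h1 N1
      have e2 := h2 (p + 1)
      rw [← hp] at e1
      rw [← hp'] at e2
      have hc := norm_nonneg c
      push_cast
      nlinarith

/-- the main step -/
theorem step {a : ℕ → ℂ} {N k : ℕ} (ha : ∀ n, N ≤ n → a n = 0) (h0 : ∀ j, j ≤ k → S a N j = 0)
    {ε : ℝ} (hε : 0 < ε) : ∃ N' : ℕ, N < N' ∧ ∃ a' : ℕ → ℂ, (∀ n, N' ≤ n → a' n = 0) ∧
    (∀ n < N, a' n = a n) ∧ (∀ n, N ≤ n → ‖a' n‖ ≤ ε) ∧
    (∀ m j, N ≤ m → j ≤ k → ‖S a' m j‖ ≤ ε) ∧ (∀ j, j ≤ k + 1 → S a' N' j = 0) ∧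
    V a' N' ≤ V a N + ε := by
  -- `T` is the value to be removed
  set T := S a N (k + 1) with hT
  have hTn := norm_nonneg T
  obtain ⟨n1, n2, L, z1, z2, hz, hE, hz1, hz2, h1, h2⟩ := two_classes k (ε / (2 * (‖T‖ + 1)))
    (by positivity)
  obtain ⟨i, hi⟩ := exists_nat_gt (‖T‖ / ε)
  have hi0 : (0 : ℝ) < i := lt_of_le_of_lt (by positivity) hi
  have hzz : z2 - z1 ≠ 0 := by
    intro h
    rw [h, norm_zero] at hz
    linarith
  set c : ℂ := -T / (i * (z2 - z1)) with hc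
  have hi0' : (i : ℂ) ≠ 0 := by exact_mod_cast hi0.ne'
  have hcT : (i : ℂ) * (c * (z2 - z1)) = -T := by
    rw [hc]; field_simp
  have hcn : i * ‖c‖ ≤ ‖T‖ := by
    rw [hc, norm_div, norm_neg, norm_mul, Complex.norm_natCast, mul_div_assoc']
    rw [div_le_iff₀ (by positivity)]
    nlinarith [mul_nonneg hTn hi0.le]
  have hcε : ‖c‖ ≤ ε := by
    rw [div_lt_iff₀ hε] at hi
    by_contra hcon
    push Not at hcon
    nlinarith
  obtain ⟨N', hN', a', s1, s2, s3, s4, s5, s6, s7⟩ := pairs hE hz1 hz2 h1 h2 ha c i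
  refine ⟨N' + 1, by omega, a', fun n hn => s1 n (by omega), s2, fun n hn => (s3 n hn).trans hcε, ?_, ?_, ?_⟩
  · intro m j hm hj
    have := s4 m j hm hj
    rw [h0 j hj, sub_zero] at this
    exact this.trans hcε
  · intro j hj
    rw [S_stable s1 (by omega)]
    rcases Nat.lt_or_ge j (k + 1) with h | h
    · rw [s5 j (by omega), h0 j (by omega)]
    · have : j = k + 1 := by omega
      rw [this, s6, hcT, ← hT, add_neg_cancel]
  · rw [V_stable s1 (by omega)]
    refine s7.trans ?_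
    have : i * (2 * ‖c‖ * (ε / (2 * (‖T‖ + 1)))) ≤ ε := by
      have e : i * (2 * ‖c‖ * (ε / (2 * (‖T‖ + 1)))) = (i * ‖c‖) * ε / (‖T‖ + 1) := by
        field_simp
      rw [e, div_le_iff₀ (by positivity)]
      nlinarith
    linarith

/-- the starting polynomial `1 - e^{i n t}` -/
theorem start : ∃ N : ℕ, 0 < N ∧ ∃ a : ℕ → ℂ, (∀ n, N ≤ n → a n = 0) ∧ a 0 = 1 ∧
    (∀ j, j ≤ 0 → S a N j = 0) ∧ V a N ≤ 20 + 1 := by
  obtain ⟨n1, n2, L, z1, z2, hz, hE, hz1, hz2, h1, h2⟩ := two_classes 0 1 one_pos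
  have hpos : 0 < 4 ^ L := by positivity
  set p := n1 + 4 ^ L * 1 with hp
  have hp0 : 0 < p := by omega
  have s0 : ∀ n, 1 ≤ n → (Function.update (0 : ℕ → ℂ) 0 1) n = 0 := by
    intro n hn
    rw [Function.update_of_ne (by omega)]; rfl
  obtain ⟨t1, t2, t3, t4, t5, t6⟩ := addT_spec s0 (show 1 ≤ p by omega) (-1)
  have hE0 : ∀ n : ℕ, E n 0 = 1 := by
    intro n
    unfold E
    have : (2 * Real.pi * Complex.I * n / 4 ^ 0 : ℂ) = (n : ℂ) * (2 * Real.pi * Complex.I) := by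
      rw [pow_zero]; ring
    rw [this, Complex.exp_nat_mul_two_pi_mul_I]
  refine ⟨p + 1, by omega, _, t1, ?_, ?_, ?_⟩
  · rw [t2 0 (by omega), Function.update_self]
  · intro j hj
    have hj0 : j = 0 := by omega
    rw [hj0, t5, hE0]
    unfold S
    simp [hE0]
  · rw [t6]
    have : V (Function.update (0 : ℕ → ℂ) 0 1) 1 = 20 := by
      unfold V
      simp [M_zero]
    rw [this]
    have := h1 1
    rw [← hp] at this
    simpa using this

end Pool.Agent.H6.TS
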