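import Pool.Agent.H6.TS2

namespace Pool.Agent.H6.TS

open Filter Topology

noncomputable def eps (k : ℕ) : ℝ := (1 / 2) ^ (k + 1)

theorem eps_pos (k : ℕ) : 0 < eps k := by unfold eps; positivity

theorem eps_anti {k l : ℕ} (h : k ≤ l) : eps l ≤ eps k := by
  unfold eps
  exact pow_le_pow_of_le_one (by norm_num) (by norm_num) (by omega)

/-- a stage of the construction -/
structure St (k : ℕ) where
  N : ℕ
  a : ℕ → ℂ
  supp : ∀ n, N ≤ n → a n = 0
  zero : ∀ j, j ≤ k → S a N j = 0

theorem st0 : ∃ s : St 0, 0 < s.N ∧ s.a 0 = 1 ∧ V s.a s.N ≤ 21 := by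
  obtain ⟨N, hN, a, h1, h2, h3, h4⟩ := start
  exact ⟨⟨N, a, h1, h3⟩, hN, h2, by norm_num at h4; exact h4⟩

theorem next {k : ℕ} (s : St k) : ∃ s' : St (k + 1), s.N < s'.N ∧ (∀ n < s.N, s'.a n = s.a n) ∧
    (∀ n, s.N ≤ n → ‖s'.a n‖ ≤ eps k) ∧ (∀ m j, s.N ≤ m → j ≤ k → ‖S s'.a m j‖ ≤ eps k) ∧
    V s'.a s'.N ≤ V s.a s.N + eps k := by
  obtain ⟨N', hN, a', h1, h2, h3, h4, h5, h6⟩ := step s.supp s.zero (eps_pos k)
  exact ⟨⟨N', a', h1, h5⟩, hN, h2, h3, h4, h6⟩

noncomputable def sq (k : ℕ) : St k := Nat.rec st0.choose (fun _ s => (next s).choose) k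

theorem sq_zero : 0 < (sq 0).N ∧ (sq 0).a 0 = 1 ∧ V (sq 0).a (sq 0).N ≤ 21 := st0.choose_spec

theorem sq_succ (k : ℕ) : (sq k).N < (sq (k + 1)).N ∧ (∀ n < (sq k).N, (sq (k + 1)).a n = (sq k).a n) ∧
    (∀ n, (sq k).N ≤ n → ‖(sq (k + 1)).a n‖ ≤ eps k) ∧
    (∀ m j, (sq k).N ≤ m → j ≤ k → ‖S (sq (k + 1)).a m j‖ ≤ eps k) ∧
    V (sq (k + 1)).a (sq (k + 1)).N ≤ V (sq k).a (sq k).N + eps k := (next (sq k)).choose_spec

theorem N_mono {k l : ℕ} (h : k ≤ l) : (sq k).N ≤ (sq l).N := by
  induction l, h using Nat.le_induction with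
  | base => exact le_rfl
  | succ l _ ih => exact ih.trans (sq_succ l).1.le

theorem N_gt (k : ℕ) : k < (sq k).N := by
  induction k with
  | zero => exact sq_zero.1
  | succ k ih => have := (sq_succ k).1; omega

theorem agree {k l : ℕ} (h : k ≤ l) {n : ℕ} (hn : n < (sq k).N) : (sq l).a n = (sq k).a n := by
  induction l, h using Nat.le_induction with
  | base => rfl
  | succ l hl ih =>
    rw [(sq_succ l).2.1 n (lt_of_lt_of_le hn (N_mono hl)), ih]

/-- the coefficients -/
noncomputable def A (n : ℕ) : ℂ := (sq n).a n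

theorem A_eq {k n : ℕ} (hn : n < (sq k).N) : A n = (sq k).a n := by
  unfold A
  rcases le_total n k with h | h
  · exact (agree h (N_gt n)).symm
  · exact agree h hn

theorem S_congr {a b : ℕ → ℂ} {m : ℕ} (h : ∀ n < m, a n = b n) (j : ℕ) : S a m j = S b m j := by
  unfold S
  apply Finset.sum_congr rfl
  intro n hn
  rw [Finset.mem_range] at hn
  rw [h n hn]

theorem A_small {k n : ℕ} (hn : (sq k).N ≤ n) : ‖A n‖ ≤ eps k := by
  have key : ∀ l, k ≤ l → ‖(sq l).a n‖ ≤ eps k := by
    intro l hl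
    induction l, hl using Nat.le_induction with
    | base => rw [(sq k).supp n hn, norm_zero]; exact (eps_pos k).le
    | succ l hl ih =>
      by_cases h : n < (sq l).N
      · rw [(sq_succ l).2.1 n h]; exact ih
      · exact ((sq_succ l).2.2.1 n (by omega)).trans (eps_anti hl)
  have hkn : k ≤ n := by have := N_gt k; omega
  exact key n hkn

theorem S_small {k m j : ℕ} (hm : (sq k).N ≤ m) (hj : j ≤ k) : ‖S A m j‖ ≤ eps k := by
  have key : ∀ l, k ≤ l → ‖S (sq l).a m j‖ ≤ eps k := by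
    intro l hl
    induction l, hl using Nat.le_induction with
    | base => rw [S_stable (sq k).supp hm, (sq k).zero j hj, norm_zero]; exact (eps_pos k).le
    | succ l hl ih =>
      by_cases h : m < (sq l).N
      · rw [S_congr (b := (sq l).a) (fun n hn => (sq_succ l).2.1 n (by omega))]; exact ih
      · exact ((sq_succ l).2.2.2.1 m j (by omega) (by omega)).trans (eps_anti hl)
  have hkm : k ≤ m := by have := N_gt k; omega
  rw [S_congr (b := (sq m).a) (fun n hn => A_eq (lt_trans hn (N_gt m)))]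
  exact key m hkm

theorem V_seq (k : ℕ) : V (sq k).a (sq k).N ≤ 22 - 2 * eps k := by
  induction k with
  | zero =>
    have := sq_zero.2.2
    unfold eps
    norm_num
    linarith
  | succ k ih =>
    have := (sq_succ k).2.2.2.2
    have e : eps (k + 1) = eps k / 2 := by unfold eps; rw [pow_succ (1 / 2 : ℝ) (k + 1)]; ring
    rw [e]
    linarith

theorem V_bound (m : ℕ) : V A m ≤ 22 := by
  have h1 : V A m ≤ V A (sq m).N := by
    unfold V
    apply Finset.sum_le_sum_of_subset_of_nonneg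
    · intro n hn
      rw [Finset.mem_range] at hn ⊢
      exact lt_trans hn (N_gt m)
    · intro i _ _
      positivity
  have h2 : V A (sq m).N = V (sq m).a (sq m).N := by
    unfold V
    apply Finset.sum_congr rfl
    intro n hn
    rw [Finset.mem_range] at hn
    rw [A_eq hn]
  have := V_seq m
  have := eps_pos m
  linarith

theorem eps_tendsto : Tendsto eps atTop (𝓝 0) := by
  unfold eps
  exact (tendsto_add_atTop_iff_nat 1).2 (tendsto_pow_atTop_nhds_zero_of_lt_one (by norm_num) (by norm_num))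

theorem A_tendsto : Tendsto A atTop (𝓝 0) := by
  rw [Metric.tendsto_atTop]
  intro e he
  obtain ⟨k, hk⟩ := (Metric.tendsto_atTop.1 eps_tendsto) e he
  refine ⟨(sq k).N, fun n hn => ?_⟩
  have h1 := A_small hn
  have h2 := hk k le_rfl
  rw [Real.dist_eq, sub_zero, abs_of_pos (eps_pos k)] at h2
  rw [dist_zero_right]
  linarith

theorem S_tendsto (j : ℕ) : Tendsto (fun m => S A m j) atTop (𝓝 0) := by
  rw [Metric.tendsto_atTop]
  intro e he
  obtain ⟨k, hk⟩ := (Metric.tendsto_atTop.1 eps_tendsto) e he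
  refine ⟨(sq (max k j)).N, fun m hm => ?_⟩
  have h1 := S_small hm (le_max_right k j)
  have h2 := hk (max k j) (le_max_left k j)
  rw [Real.dist_eq, sub_zero, abs_of_pos (eps_pos _)] at h2
  rw [dist_zero_right]
  linarith

theorem A_zero : A 0 = 1 := sq_zero.2.1

theorem AM_summable : Summable (fun n => ‖A n‖ * ‖M n‖) :=
  summable_of_sum_range_le (c := 22) (fun n => by positivity) (fun n => V_bound n)

theorem AM_ne : ∑' n, A n * M n ≠ 0 := by
  have hs : Summable (fun n => ‖A n * M n‖) := by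
    have : (fun n => ‖A n * M n‖) = fun n => ‖A n‖ * ‖M n‖ := by
      funext n; rw [norm_mul]
    rw [this]; exact AM_summable
  have hs' : Summable (fun n => A n * M n) := hs.of_norm
  have h0 : A 0 * M 0 = 20 := by rw [A_zero, M_zero, one_mul]
  have h1 := hs'.tsum_eq_zero_add
  have h2 := hs.tsum_eq_zero_add
  have h3 : ∑' n, ‖A n * M n‖ ≤ 22 := by
    apply hs.tsum_le_of_sum_range_le
    intro n
    have := V_bound n
    unfold V at this
    simpa only [norm_mul] using this
  have h4 : ‖∑' n, A (n + 1) * M (n + 1)‖ ≤ ∑' n, ‖A (n + 1) * M (n + 1)‖ :=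
    norm_tsum_le_tsum_norm ((summable_nat_add_iff 1).2 hs)
  rw [h0] at h1 h2
  have h5 : ‖(20 : ℂ)‖ = 20 := by norm_num
  rw [h5] at h2
  intro h
  rw [h] at h1
  have h6 : ∑' n, A (n + 1) * M (n + 1) = -20 := by linear_combination -h1
  rw [h6, norm_neg, h5] at h4
  linarith

end Pool.Agent.H6.TS
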