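import Pool.Agent.H6.TS3

namespace Pool.Agent.H6.TS

open Filter Topology MeasureTheory

/-- the point `2π/4^j` of the circle -/
noncomputable def pt (j : ℕ) : AddCircle (2 * Real.pi) := ((2 * Real.pi / 4 ^ j : ℝ) : AddCircle (2 * Real.pi))

noncomputable def mu : Measure (AddCircle (2 * Real.pi)) :=
  Measure.sum (fun j : ℕ => ENNReal.ofReal ((19 / 20 : ℝ) ^ j) • Measure.dirac (pt j))

theorem fourier_pt (n j : ℕ) : fourier (n : ℤ) (pt j) = E n j := by
  unfold pt E
  rw [fourier_coe_apply]
  congr 1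
  have hpi : (Real.pi : ℂ) ≠ 0 := by exact_mod_cast Real.pi_ne_zero
  push_cast
  field_simp

theorem pt_zero : pt 0 = 0 := by
  unfold pt
  rw [pow_zero, div_one]
  exact AddCircle.coe_period _

theorem pt_tendsto : Tendsto pt atTop (𝓝 0) := by
  have h1 : Tendsto (fun j : ℕ => (2 * Real.pi / 4 ^ j : ℝ)) atTop (𝓝 0) := by
    have := (tendsto_pow_atTop_nhds_zero_of_lt_one (r := (1 / 4 : ℝ)) (by norm_num) (by norm_num)).const_mul (2 * Real.pi)
    rw [mul_zero] at this
    refine this.congr (fun j => ?_)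
    rw [div_pow, one_pow]; ring
  have h2 : Continuous (fun x : ℝ => (x : AddCircle (2 * Real.pi))) := AddCircle.continuous_mk' _
  exact (h2.tendsto 0).comp h1

theorem F_closed : IsClosed (Set.range pt) := by
  haveI : Fact (0 < 2 * Real.pi) := ⟨Real.two_pi_pos⟩
  have h := pt_tendsto.isCompact_insert_range
  have e : insert 0 (Set.range pt) = Set.range pt := Set.insert_eq_of_mem ⟨0, pt_zero⟩
  rw [e] at h
  exact h.isClosed

theorem mu_int (n : ℕ) : ∫ t, fourier (n : ℤ) t ∂mu = M n := by
  unfold mu M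
  rw [integral_sum_dirac (fun i => ENNReal.ofReal_ne_top)]
  congr 1
  funext j
  rw [ENNReal.toReal_ofReal (by positivity), fourier_pt, Complex.real_smul]

theorem mu_fin : IsFiniteMeasure mu := by
  constructor
  unfold mu
  rw [Measure.sum_apply _ MeasurableSet.univ]
  simp only [Measure.smul_apply, measure_univ, smul_eq_mul, mul_one]
  rw [← ENNReal.ofReal_tsum_of_nonneg (fun n => by positivity)
    (summable_geometric_of_lt_one (by norm_num) (by norm_num))]
  exact ENNReal.ofReal_lt_top

theorem mu_supp : mu (Set.range pt)ᶜ = 0 := by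
  unfold mu
  rw [Measure.sum_apply _ F_closed.measurableSet.compl]
  rw [ENNReal.tsum_eq_zero]
  intro j
  rw [Measure.smul_apply, Measure.dirac_apply' _ F_closed.measurableSet.compl]
  simp

/-- the coefficients indexed by the integers -/
noncomputable def co (n : ℤ) : ℂ := if 0 ≤ n then A n.toNat else 0

theorem co_nat (n : ℕ) : co n = A n := by
  unfold co
  rw [if_pos (Int.natCast_nonneg n), Int.toNat_natCast]

theorem co_neg (n : ℤ) (h : n < 0) : co n = 0 := by
  unfold co
  rw [if_neg (by omega)]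

theorem co_tendsto : Tendsto co cofinite (𝓝 0) := by
  rw [Int.cofinite_eq, tendsto_sup]
  constructor
  · refine tendsto_const_nhds.congr' ?_
    filter_upwards [eventually_lt_atBot 0] with n hn
    rw [co_neg n hn]
  · have h : Tendsto (fun n : ℤ => A n.toNat) atTop (𝓝 0) :=
      A_tendsto.comp (tendsto_atTop.2 fun b => by
        filter_upwards [eventually_ge_atTop (b : ℤ)] with n hn
        omega)
    refine h.congr' ?_
    filter_upwards [eventually_ge_atTop 0] with n hn
    unfold co
    rw [if_pos hn]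

theorem sum_eq (N j : ℕ) : ∑ n ∈ Finset.Icc (-(N : ℤ)) N, co n * fourier n (pt j) = S A (N + 1) j := by
  have h1 : ∑ n ∈ Finset.Icc (-(N : ℤ)) N, co n * fourier n (pt j) =
      ∑ n ∈ (Finset.range (N + 1)).map Nat.castEmbedding, co n * fourier (n : ℤ) (pt j) := by
    symm
    apply Finset.sum_subset
    · intro n hn
      rw [Finset.mem_map] at hn
      obtain ⟨m, hm, rfl⟩ := hn
      rw [Finset.mem_range] at hm
      rw [Finset.mem_Icc]
      simp only [Nat.castEmbedding_apply]
      omega
    · intro n hn hn'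
      rw [Finset.mem_Icc] at hn
      have : n < 0 := by
        by_contra hcon
        apply hn'
        rw [Finset.mem_map]
        refine ⟨n.toNat, ?_, ?_⟩
        · rw [Finset.mem_range]; omega
        · simp only [Nat.castEmbedding_apply]; omega
      rw [co_neg n this, zero_mul]
  rw [h1, Finset.sum_map]
  unfold S
  apply Finset.sum_congr rfl
  intro n _
  simp only [Nat.castEmbedding_apply]
  rw [co_nat, fourier_pt]

theorem inj : Function.Injective (fun n : ℕ => -(n : ℤ)) := by
  intro a b h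
  simpa using h

theorem outside (n : ℤ) (h : n ∉ Set.range (fun n : ℕ => -(n : ℤ))) : co (-n) = 0 := by
  apply co_neg
  by_contra hcon
  exact h ⟨n.natAbs, by show -(n.natAbs : ℤ) = n; omega⟩

theorem main : ∃ (F : Set (AddCircle (2 * Real.pi))) (a : ℤ → ℂ)
    (μ : Measure (AddCircle (2 * Real.pi))),
    IsClosed F ∧ IsFiniteMeasure μ ∧ μ Fᶜ = 0 ∧ Tendsto a cofinite (𝓝 0) ∧
    (∀ t ∈ F, Tendsto (fun N : ℕ => ∑ n ∈ Finset.Icc (-(N : ℤ)) N, a n * fourier n t) atTop (𝓝 0)) ∧
    Summable (fun n : ℤ => ‖∫ t, fourier (-n) t ∂μ‖ * ‖a (-n)‖) ∧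
    ∑' n : ℤ, (∫ t, fourier (-n) t ∂μ) * a (-n) ≠ 0 := by
  refine ⟨Set.range pt, co, mu, F_closed, mu_fin, mu_supp, co_tendsto, ?_, ?_, ?_⟩
  · rintro t ⟨j, rfl⟩
    have h : Tendsto (fun N : ℕ => S A (N + 1) j) atTop (𝓝 0) := (tendsto_add_atTop_iff_nat 1).2 (S_tendsto j)
    exact h.congr fun N => (sum_eq N j).symm
  · have h : Summable ((fun n : ℤ => ‖∫ t, fourier (-n) t ∂mu‖ * ‖co (-n)‖) ∘ fun n : ℕ => -(n : ℤ)) := by
      refine AM_summable.congr fun n => ?_
      simp only [Function.comp_apply, neg_neg]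
      rw [mu_int, co_nat, mul_comm]
    rw [inj.summable_iff] at h
    · exact h
    · intro n hn
      rw [outside n hn, norm_zero, mul_zero]
  · have h : ∑' n : ℤ, (∫ t, fourier (-n) t ∂mu) * co (-n) = ∑' n : ℕ, A n * M n := by
      rw [← inj.tsum_eq (f := fun n : ℤ => (∫ t, fourier (-n) t ∂mu) * co (-n))]
      · congr 1
        funext n
        simp only [neg_neg]
        rw [mu_int, co_nat, mul_comm]
      · intro n hn
        by_contra hcon
        apply hn
        show (∫ t, fourier (-n) t ∂mu) * co (-n) = 0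
        rw [outside n hcon, mul_zero]
    rw [h]
    exact AM_ne

end Pool.Agent.H6.TS
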