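import Mathlib
import Pool.Agent.H6.FG4

namespace Pool.Agent.H6.UPA

open scoped InnerProductSpace

variable {X : Type*} {E : Type*} [NormedAddCommGroup E] [InnerProductSpace ℂ E] [CompleteSpace E]
  (b : HilbertBasis X ℂ E)

/-- permuted basis -/
noncomputable def pb (σ : Equiv.Perm X) : HilbertBasis X ℂ E :=
  HilbertBasis.mk (v := fun c => b (σ c)) (b.orthonormal.comp σ σ.injective) (by
    have : Set.range (fun c => b (σ c)) = Set.range b := by
      ext v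
      constructor
      · rintro ⟨c, rfl⟩; exact ⟨σ c, rfl⟩
      · rintro ⟨c, rfl⟩; exact ⟨σ.symm c, by simp⟩
    rw [this, b.dense_span])

lemma pb_apply (σ : Equiv.Perm X) (c : X) : pb b σ c = b (σ c) := by
  unfold pb
  rw [HilbertBasis.coe_mk]

/-- permutation unitary -/
noncomputable def iso (σ : Equiv.Perm X) : E ≃ₗᵢ[ℂ] E := b.repr.trans (pb b σ).repr.symm

/-- permutation unitary as an operator -/
noncomputable def op (σ : Equiv.Perm X) : E →L[ℂ] E :=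
  (iso b σ).toContinuousLinearEquiv.toContinuousLinearMap

lemma op_apply (σ : Equiv.Perm X) (v : E) : op b σ v = iso b σ v := rfl

lemma op_basis (σ : Equiv.Perm X) (c : X) : op b σ (b c) = b (σ c) := by
  classical
  rw [op_apply, iso, LinearIsometryEquiv.trans_apply, HilbertBasis.repr_self,
    HilbertBasis.repr_symm_single, pb_apply]

variable {b} in
lemma ext_basis {x y : E →L[ℂ] E} (h : ∀ c, x (b c) = y (b c)) : x = y := by
  refine ContinuousLinearMap.ext_on (s := Set.range b) ?_ ?_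
  · have := b.dense_span
    rw [Submodule.dense_iff_topologicalClosure_eq_top]
    exact this
  · rintro _ ⟨c, rfl⟩
    exact h c

lemma op_mul (σ τ : Equiv.Perm X) : op b σ * op b τ = op b (σ * τ) := by
  refine ext_basis (b := b) fun c => ?_
  rw [ContinuousLinearMap.mul_apply, op_basis, op_basis, op_basis]
  rfl

lemma op_one : op b 1 = 1 := by
  refine ext_basis (b := b) fun c => ?_
  rw [op_basis]
  rfl

lemma op_inner (σ : Equiv.Perm X) (v w : E) : ⟪op b σ v, op b σ w⟫_ℂ = ⟪v, w⟫_ℂ :=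
  (iso b σ).inner_map_map v w

lemma op_norm (σ : Equiv.Perm X) (v : E) : ‖op b σ v‖ = ‖v‖ := (iso b σ).norm_map v

lemma op_op_inv (σ : Equiv.Perm X) (v : E) : op b σ (op b σ⁻¹ v) = v := by
  have := congrArg (fun x => x v) (op_mul b σ σ⁻¹)
  simp only [mul_inv_cancel, op_one] at this
  exact this

lemma op_inv_op (σ : Equiv.Perm X) (v : E) : op b σ⁻¹ (op b σ v) = v := by
  have := congrArg (fun x => x v) (op_mul b σ⁻¹ σ)
  simp only [inv_mul_cancel, op_one] at this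
  exact this

lemma star_op (σ : Equiv.Perm X) : star (op b σ) = op b σ⁻¹ := by
  rw [ContinuousLinearMap.star_eq_adjoint]
  symm
  rw [ContinuousLinearMap.eq_adjoint_iff]
  intro x y
  rw [← op_inner b σ, op_op_inv]

lemma inner_op_basis (σ : Equiv.Perm X) (c : X) (v : E) : ⟪b (σ c), op b σ v⟫_ℂ = ⟪b c, v⟫_ℂ := by
  rw [← op_basis, op_inner]

/-- squared coefficients -/
noncomputable def q (v : E) (c : X) : ℝ := ‖⟪b c, v⟫_ℂ‖ ^ 2

lemma q_nonneg (v : E) (c : X) : 0 ≤ q b v c := by unfold q; positivity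

lemma hasSum_q (v : E) : HasSum (q b v) (‖v‖ ^ 2) := by
  have h := b.hasSum_inner_mul_inner v v
  have h2 : ∀ c, ⟪v, b c⟫_ℂ * ⟪b c, v⟫_ℂ = ((q b v c : ℝ) : ℂ) := by
    intro c
    rw [← inner_conj_symm, q, Complex.conj_mul']
    push_cast
    rfl
  simp only [h2] at h
  rw [inner_self_eq_norm_sq_to_K] at h
  have h3 := Complex.hasSum_re h
  simpa [← Complex.ofReal_pow] using h3

/-- mass of a set -/
noncomputable def S (C : Set X) (v : E) : ℝ := ∑' c, C.indicator (q b v) c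

lemma summ (C : Set X) (v : E) : Summable (C.indicator (q b v)) :=
  (hasSum_q b v).summable.indicator C

lemma S_add_compl (C : Set X) (v : E) : S b C v + S b Cᶜ v = ‖v‖ ^ 2 := by
  unfold S
  rw [← (summ b C v).tsum_add (summ b Cᶜ v), ← (hasSum_q b v).tsum_eq]
  congr 1
  funext c
  by_cases h : c ∈ C <;> simp [h]

lemma S_add_le {C D A : Set X} (hCD : Disjoint C D) (hC : C ⊆ A) (hD : D ⊆ A) (v : E) :
    S b C v + S b D v ≤ S b A v := by
  unfold S
  rw [← (summ b C v).tsum_add (summ b D v)]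
  refine ((summ b C v).add (summ b D v)).tsum_le_tsum (fun c => ?_) (summ b A v)
  by_cases h : c ∈ C
  · have h2 : c ∉ D := fun h2 => Set.disjoint_left.mp hCD h h2
    simp [h, h2, hC h]
  · by_cases h2 : c ∈ D
    · simp [h, h2, hD h2]
    · simp only [Set.indicator_of_notMem h, Set.indicator_of_notMem h2, add_zero]
      exact Set.indicator_nonneg (fun x _ => q_nonneg b v x) c

lemma q_le (v w : E) (c : X) : q b w c ≤ 11 / 10 * q b v c + 11 * q b (w - v) c := by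
  unfold q
  have h : ⟪b c, w⟫_ℂ = ⟪b c, v⟫_ℂ + ⟪b c, w - v⟫_ℂ := by
    rw [← inner_add_right]; congr 1; abel
  have h1 : ‖⟪b c, w⟫_ℂ‖ ≤ ‖⟪b c, v⟫_ℂ‖ + ‖⟪b c, w - v⟫_ℂ‖ := by
    rw [h]; exact norm_add_le _ _
  have h2 := norm_nonneg ⟪b c, w⟫_ℂ
  have h3 := norm_nonneg ⟪b c, v⟫_ℂ
  have h4 := norm_nonneg ⟪b c, w - v⟫_ℂ
  nlinarith [sq_nonneg (‖⟪b c, v⟫_ℂ‖ - 10 * ‖⟪b c, w - v⟫_ℂ‖)]

lemma S_le (C : Set X) (v w : E) : S b C w ≤ 11 / 10 * S b C v + 11 * ‖w - v‖ ^ 2 := by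
  have h1 : S b C (w - v) ≤ ‖w - v‖ ^ 2 := by
    rw [← S_add_compl b C (w - v)]
    have : 0 ≤ S b Cᶜ (w - v) := tsum_nonneg fun c =>
      Set.indicator_nonneg (fun x _ => q_nonneg b _ x) c
    linarith
  have h2 : S b C w ≤ 11 / 10 * S b C v + 11 * S b C (w - v) := by
    unfold S
    rw [← tsum_mul_left, ← tsum_mul_left,
      ← ((summ b C v).mul_left _).tsum_add ((summ b C (w - v)).mul_left _)]
    refine (summ b C w).tsum_le_tsum (fun c => ?_)
      (((summ b C v).mul_left _).add ((summ b C (w - v)).mul_left _))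
    by_cases h : c ∈ C
    · simp only [Set.indicator_of_mem h]; exact q_le b v w c
    · simp [h]
  linarith

lemma S_op {σ : Equiv.Perm X} {C D : Set X} (h : ∀ c ∈ C, σ c ∈ D) (v : E) :
    S b C v ≤ S b D (op b σ v) := by
  unfold S
  rw [← σ.tsum_eq (D.indicator (q b (op b σ v)))]
  refine (summ b C v).tsum_le_tsum (fun c => ?_) ((summ b D _).comp_injective σ.injective)
  by_cases hc : c ∈ C
  · simp only [Function.comp, Set.indicator_of_mem hc, Set.indicator_of_mem (h c hc)]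
    unfold q
    rw [inner_op_basis]
  · rw [Set.indicator_of_notMem hc]
    exact Set.indicator_nonneg (fun x _ => q_nonneg b _ x) _

/-- one ping-pong generator -/
lemma mass_ge {σ : Equiv.Perm X} {A P Q : Set X} (hP : P ⊆ A) (hQ : Q ⊆ A) (hPQ : Disjoint P Q)
    (h1 : ∀ c ∉ A, σ c ∈ P) (h2 : ∀ c ∉ A, σ⁻¹ c ∈ Q) (v : E) (ε : ℝ)
    (hε : ‖op b σ v - v‖ ≤ ε) :
    2 * ‖v‖ ^ 2 ≤ 31 / 10 * S b A v + 22 * ε ^ 2 := by
  have e1 : S b Aᶜ v ≤ S b P (op b σ v) := S_op b h1 v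
  have e2 : S b Aᶜ v ≤ S b Q (op b σ⁻¹ v) := S_op b h2 v
  have e3 := S_le b P v (op b σ v)
  have e4 := S_le b Q v (op b σ⁻¹ v)
  have e5 : ‖op b σ⁻¹ v - v‖ ≤ ε := by
    have : op b σ⁻¹ v - v = - (op b σ⁻¹ (op b σ v - v)) := by
      rw [map_sub, op_inv_op]; abel
    rw [this, norm_neg, op_norm]
    exact hε
  have e6 := S_add_le b hPQ hP hQ v
  have e7 := S_add_compl b A v
  have e8 : ‖op b σ v - v‖ ^ 2 ≤ ε ^ 2 := pow_le_pow_left₀ (norm_nonneg _) hε 2
  have e9 : ‖op b σ⁻¹ v - v‖ ^ 2 ≤ ε ^ 2 := pow_le_pow_left₀ (norm_nonneg _) e5 2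
  nlinarith

/-- no almost invariant vectors -/
lemma no_inv {σ τ : Equiv.Perm X} {A P Q B P' Q' : Set X} (hP : P ⊆ A) (hQ : Q ⊆ A)
    (hPQ : Disjoint P Q) (h1 : ∀ c ∉ A, σ c ∈ P) (h2 : ∀ c ∉ A, σ⁻¹ c ∈ Q)
    (hP' : P' ⊆ B) (hQ' : Q' ⊆ B) (hPQ' : Disjoint P' Q') (h1' : ∀ c ∉ B, τ c ∈ P')
    (h2' : ∀ c ∉ B, τ⁻¹ c ∈ Q') (hAB : Disjoint A B) (v : E) (ε : ℝ)
    (hε : ‖op b σ v - v‖ ≤ ε) (hε' : ‖op b τ v - v‖ ≤ ε) :
    ‖v‖ ^ 2 ≤ 49 * ε ^ 2 := by
  have e1 := mass_ge b hP hQ hPQ h1 h2 v ε hε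
  have e2 := mass_ge b hP' hQ' hPQ' h1' h2' v ε hε'
  have e3 : S b A v + S b B v ≤ S b Set.univ v := S_add_le b hAB (Set.subset_univ _)
    (Set.subset_univ _) v
  have e4 : S b Set.univ v = ‖v‖ ^ 2 := by
    unfold S
    rw [Set.indicator_univ]
    exact (hasSum_q b v).tsum_eq
  nlinarith

end Pool.Agent.H6.UPA
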