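import Mathlib

/-! Tracial von Neumann algebras, tracial ultrapowers, ucp maps: the notions of the question. -/

namespace Pool.Agent.H6.UPDefs

open scoped InnerProductSpace
open Filter Topology

/-- A von Neumann algebra on `H` with a faithful normal tracial state. A normal state is given
by countably many vectors with square sum one, `τ x = ∑ ⟨ξ_k, x ξ_k⟩`. -/
structure TracialVN (H : Type) [NormedAddCommGroup H] [InnerProductSpace ℂ H]
    [CompleteSpace H] where
  alg : VonNeumannAlgebra H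
  vec : ℕ → H
  summable_vec : Summable fun k => ‖vec k‖ ^ 2
  unit_vec : ∑' k, ‖vec k‖ ^ 2 = 1
  tracial : ∀ x ∈ alg, ∀ y ∈ alg,
    ∑' k, ⟪vec k, (x * y) (vec k)⟫_ℂ = ∑' k, ⟪vec k, (y * x) (vec k)⟫_ℂ
  faithful : ∀ x ∈ alg, ∑' k, ⟪vec k, (star x * x) (vec k)⟫_ℂ = 0 → x = 0

variable {H : Type} [NormedAddCommGroup H] [InnerProductSpace ℂ H] [CompleteSpace H]
variable {K : Type} [NormedAddCommGroup K] [InnerProductSpace ℂ K] [CompleteSpace K]

/-- The type of elements of the algebra. -/
abbrev El (T : TracialVN H) : Type := T.alg.toStarSubalgebra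

/-- The trace. -/
noncomputable def tr (T : TracialVN H) (x : El T) : ℂ :=
  ∑' k, ⟪T.vec k, (x : H →L[ℂ] H) (T.vec k)⟫_ℂ

/-- The norm `‖x‖_2 = τ(x* x)^(1/2)`. -/
noncomputable def norm2 (T : TracialVN H) (x : El T) : ℝ := √ (tr T (star x * x)).re

/-- A norm-bounded sequence. -/
def Bdd (T : TracialVN H) (x : ℕ → El T) : Prop :=
  ∃ C : ℝ, ∀ n, ‖(x n : H →L[ℂ] H)‖ ≤ C

/-- Two sequences define the same element of the tracial ultrapower. -/
def UEq (U : Ultrafilter ℕ) (T : TracialVN H) (x y : ℕ → El T) : Prop :=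
  Tendsto (fun n => norm2 T (x n - y n)) U (𝓝 0)

/-- II_1 factor: trivial centre and infinite dimension (a faithful normal tracial state is
part of the data). -/
def IsII1Factor (T : TracialVN H) : Prop :=
  (∀ z : El T, (∀ x : El T, z * x = x * z) → ∃ c : ℂ, z = c • 1) ∧
    ¬ FiniteDimensional ℂ (El T)

/-- An embedding of `M` into the ultrapower of `N`: `toFun x` is a representing sequence of the
image of `x`; a unital *-homomorphism preserving the trace and the 2-norm (hence injective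
and normal). -/
structure Emb (U : Ultrafilter ℕ) (M : TracialVN K) (N : TracialVN H) where
  toFun : El M → ℕ → El N
  bdd : ∀ x, Bdd N (toFun x)
  map_one : UEq U N (toFun 1) 1
  map_add : ∀ x y, UEq U N (toFun (x + y)) (toFun x + toFun y)
  map_smul : ∀ (c : ℂ) x, UEq U N (toFun (c • x)) (c • toFun x)
  map_mul : ∀ x y, UEq U N (toFun (x * y)) (toFun x * toFun y)
  map_star : ∀ x, UEq U N (toFun (star x)) (star (toFun x))
  map_tr : ∀ x, Tendsto (fun n => tr N (toFun x n)) U (𝓝 (tr M x))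
  map_norm2 : ∀ x, Tendsto (fun n => norm2 N (toFun x n)) U (𝓝 (norm2 M x))

/-- Unital completely positive maps (all the operator matrices `[φ(x_i* x_j)]` are
positive). -/
structure IsUCP (T : TracialVN H) (φ : El T →ₗ[ℂ] El T) : Prop where
  unital : φ 1 = 1
  cp : ∀ (m : ℕ) (x : Fin m → El T) (v : Fin m → H),
    ∃ r : ℝ, 0 ≤ r ∧
      ∑ i, ∑ j, ⟪v i, (φ (star (x i) * x j) : H →L[ℂ] H) (v j)⟫_ℂ = (r : ℂ)

/-- The ultraproduct of the maps `φ n` is well defined on the ultrapower. -/
def WellDef (U : Ultrafilter ℕ) (T : TracialVN H) (φ : ℕ → El T →ₗ[ℂ] El T) : Prop :=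
  (∀ x, Bdd T x → Bdd T (fun n => φ n (x n))) ∧
  ∀ x y, Bdd T x → Bdd T y → UEq U T x y →
    UEq U T (fun n => φ n (x n)) (fun n => φ n (y n))

/-- `u` represents a unitary of the ultrapower. -/
def IsUnitarySeq (U : Ultrafilter ℕ) (T : TracialVN H) (u : ℕ → El T) : Prop :=
  Bdd T u ∧ UEq U T (star u * u) 1 ∧ UEq U T (u * star u) 1

end Pool.Agent.H6.UPDefs
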