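import Mathlib
import Pool.Agent.H6.UPA
import Pool.Agent.H6.UPDefs

namespace Pool.Agent.H6.UPB

open scoped InnerProductSpace
open Pool.Agent.H6.UPA Pool.Agent.H6.UPDefs FreeGroup

abbrev G : Type := FreeGroup (Fin 4)
abbrev X : Type := G × Bool

/-- swap 0,2 and 1,3 -/
def sw4 : Fin 4 ≃ Fin 4 := Equiv.addRight (2 : Fin 4)

/-- the automorphism -/
def θ : G ≃* G := FreeGroup.freeGroupCongr sw4

lemma θ_of (i : Fin 4) : θ (of i) = of (i + 2) := by
  unfold θ
  rw [FreeGroup.freeGroupCongr_apply, FreeGroup.map.of]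
  rfl

def R (s : G) : Equiv.Perm X where
  toFun c := (c.1 * s⁻¹, c.2)
  invFun c := (c.1 * s, c.2)
  left_inv c := by simp
  right_inv c := by simp

def Lm (h : G) : Equiv.Perm X where
  toFun c := (h * c.1, c.2)
  invFun c := (h⁻¹ * c.1, c.2)
  left_inv c := by simp
  right_inv c := by simp

def Th : Equiv.Perm X where
  toFun c := (θ c.1, c.2)
  invFun c := (θ.symm c.1, c.2)
  left_inv c := by simp
  right_inv c := by simp

def Sw : Equiv.Perm X where
  toFun c := (c.1, !c.2)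
  invFun c := (c.1, !c.2)
  left_inv c := by simp
  right_inv c := by simp

@[simp] lemma R_apply (s : G) (c : X) : R s c = (c.1 * s⁻¹, c.2) := rfl
@[simp] lemma Lm_apply (s : G) (c : X) : Lm s c = (s * c.1, c.2) := rfl
@[simp] lemma Th_apply (c : X) : Th c = (θ c.1, c.2) := rfl
@[simp] lemma Sw_apply (c : X) : Sw c = (c.1, !c.2) := rfl
@[simp] lemma R_inv_apply (s : G) (c : X) : (R s)⁻¹ c = (c.1 * s, c.2) := rfl
@[simp] lemma Lm_inv_apply (s : G) (c : X) : (Lm s)⁻¹ c = (s⁻¹ * c.1, c.2) := rfl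
@[simp] lemma Th_inv_apply (c : X) : Th⁻¹ c = (θ.symm c.1, c.2) := rfl
@[simp] lemma Sw_inv_apply (c : X) : Sw⁻¹ c = (c.1, !c.2) := rfl

lemma R_inv (s : G) : (R s)⁻¹ = R s⁻¹ := by
  ext c <;> simp

lemma Sw_inv : Sw⁻¹ = Sw := by
  ext c <;> simp

variable {E : Type} [NormedAddCommGroup E] [InnerProductSpace ℂ E] [CompleteSpace E]
  (b : HilbertBasis X ℂ E)

/-- closed span of the basis vectors with second coordinate `i` -/
noncomputable def Ks (i : Bool) : Submodule ℂ E := (Submodule.span ℂ (b '' {c | c.2 ≠ i}))ᗮ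

instance (i : Bool) : CompleteSpace (Ks b i) :=
  (Submodule.isClosed_orthogonal _).completeSpace_coe

/-- projection on the vectors with second coordinate `i` -/
noncomputable def P (i : Bool) : E →L[ℂ] E := (Ks b i).starProjection

lemma P_same (i : Bool) (c : X) (h : c.2 = i) : P b i (b c) = b c := by
  unfold P
  rw [Submodule.starProjection_eq_self_iff]
  unfold Ks
  rw [Submodule.mem_orthogonal]
  intro u hu
  refine Submodule.span_induction (p := fun u _ => ⟪u, b c⟫_ℂ = 0) ?_ ?_ ?_ ?_ hu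
  · rintro _ ⟨d, hd, rfl⟩
    have hdc : d ≠ c := by rintro rfl; exact hd h
    exact b.orthonormal.2 hdc
  · simp
  · intro x y _ _ hx hy
    rw [inner_add_left, hx, hy, add_zero]
  · intro a x _ hx
    rw [inner_smul_left, hx, mul_zero]

lemma P_diff (i : Bool) (c : X) (h : c.2 ≠ i) : P b i (b c) = 0 := by
  unfold P
  rw [Submodule.starProjection_apply_eq_zero_iff]
  unfold Ks
  exact Submodule.le_orthogonal_orthogonal _ (Submodule.subset_span ⟨c, h, rfl⟩)

lemma P_basis (i : Bool) (c : X) : P b i (b c) = if c.2 = i then b c else 0 := by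
  split_ifs with h
  · exact P_same b i c h
  · exact P_diff b i c h

lemma star_P (i : Bool) : star (P b i) = P b i :=
  (isSelfAdjoint_starProjection (Ks b i)).star_eq

lemma P_add : P b false + P b true = 1 := by
  refine ext_basis (b := b) fun c => ?_
  rw [ContinuousLinearMap.add_apply, P_basis, P_basis]
  rcases c with ⟨g, i⟩
  cases i <;> simp

lemma P_mul_self (i : Bool) : P b i * P b i = P b i := by
  refine ext_basis (b := b) fun c => ?_
  show P b i (P b i (b c)) = P b i (b c)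
  rw [P_basis]
  split_ifs with h
  · rw [P_basis, if_pos h]
  · rw [map_zero]

lemma P_mul_ne {i j : Bool} (h : i ≠ j) : P b i * P b j = 0 := by
  refine ext_basis (b := b) fun c => ?_
  show P b i (P b j (b c)) = 0
  rw [P_basis]
  split_ifs with h'
  · rw [P_basis, if_neg (by rw [h']; exact h.symm)]
  · rw [map_zero]

lemma P_comm (σ : Equiv.Perm X) (hσ : ∀ c, (σ c).2 = c.2) (i : Bool) :
    P b i * op b σ = op b σ * P b i := by
  refine ext_basis (b := b) fun c => ?_
  show P b i (op b σ (b c)) = op b σ (P b i (b c))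
  rw [op_basis, P_basis, P_basis, hσ]
  split_ifs
  · rw [op_basis]
  · rw [map_zero]

lemma P_Sw (i : Bool) : op b Sw * P b i = P b (!i) * op b Sw := by
  refine ext_basis (b := b) fun c => ?_
  show op b Sw (P b i (b c)) = P b (!i) (op b Sw (b c))
  rw [op_basis, P_basis, P_basis]
  rcases c with ⟨g, j⟩
  cases i <;> cases j <;> simp [op_basis]

lemma op_comm {σ τ : Equiv.Perm X} (h : σ * τ = τ * σ) : op b σ * op b τ = op b τ * op b σ := by
  rw [op_mul, op_mul, h]

lemma R_Lm (s h : G) : R s * Lm h = Lm h * R s := by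
  ext c <;> simp [mul_assoc]

lemma R_Sw (s : G) : R s * Sw = Sw * R s := by
  ext c <;> simp

lemma Lm_Sw (s : G) : Lm s * Sw = Sw * Lm s := by
  ext c <;> simp

lemma Th_Sw : Th * Sw = Sw * Th := by
  ext c <;> simp

lemma Th_R (s : G) : Th * R s = R (θ s) * Th := by
  ext c <;> simp

lemma Th_Lm (s : G) : Th * Lm s = Lm (θ s) * Th := by
  ext c <;> simp

/-- von Neumann algebra of operators commuting with a set -/
noncomputable def vn (S : Set (E →L[ℂ] E)) : VonNeumannAlgebra E where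
  toStarSubalgebra := StarSubalgebra.centralizer ℂ S
  centralizer_centralizer' := by
    show Set.centralizer (Set.centralizer ((StarSubalgebra.centralizer ℂ S : StarSubalgebra ℂ _) :
      Set (E →L[ℂ] E))) = (StarSubalgebra.centralizer ℂ S : StarSubalgebra ℂ _)
    rw [StarSubalgebra.coe_centralizer, Set.centralizer_centralizer_centralizer]

lemma mem_vn {S : Set (E →L[ℂ] E)} {x : E →L[ℂ] E} :
    x ∈ vn S ↔ ∀ g ∈ S, g * x = x * g ∧ star g * x = x * star g :=
  StarSubalgebra.mem_centralizer_iff ℂ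

/-- the algebra N -/
noncomputable def algN : VonNeumannAlgebra E := vn (Set.range fun s => op b (R s))

/-- the algebra M -/
noncomputable def algM : VonNeumannAlgebra E :=
  vn ((Set.range fun s => op b (R s)) ∪ {P b false, op b Sw})

lemma mem_N {x : E →L[ℂ] E} : x ∈ algN b ↔ ∀ s, op b (R s) * x = x * op b (R s) := by
  unfold algN
  rw [mem_vn]
  constructor
  · intro h s
    exact (h _ ⟨s, rfl⟩).1
  · rintro h _ ⟨s, rfl⟩
    refine ⟨h s, ?_⟩
    simp only [star_op, R_inv]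
    exact h s⁻¹

lemma mem_M {x : E →L[ℂ] E} : x ∈ algM b ↔ (∀ s, op b (R s) * x = x * op b (R s)) ∧
    P b false * x = x * P b false ∧ op b Sw * x = x * op b Sw := by
  unfold algM
  rw [mem_vn]
  constructor
  · intro h
    exact ⟨fun s => (h _ (Or.inl ⟨s, rfl⟩)).1, (h _ (Or.inr (Or.inl rfl))).1,
      (h _ (Or.inr (Or.inr rfl))).1⟩
  · rintro ⟨h1, h2, h3⟩ g (⟨s, rfl⟩ | rfl | rfl)
    · refine ⟨h1 s, ?_⟩
      simp only [star_op, R_inv]
      exact h1 s⁻¹
    · rw [star_P]; exact ⟨h2, h2⟩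
    · rw [star_op, Sw_inv]; exact ⟨h3, h3⟩

lemma M_le_N {x : E →L[ℂ] E} (h : x ∈ algM b) : x ∈ algN b := (mem_N b).mpr ((mem_M b).mp h).1

/-- the two cyclic vectors -/
noncomputable def e0 (i : Bool) : E := b (1, i)

lemma basis_eq (g : G) (i : Bool) : b (g, i) = op b (R g⁻¹) (e0 b i) := by
  unfold e0
  rw [op_basis]; simp

/-- matrix coefficient invariance -/
lemma coeff_inv {x : E →L[ℂ] E} (hx : x ∈ algN b) (s : G) (c d : X) :
    ⟪b (R s c), x (b (R s d))⟫_ℂ = ⟪b c, x (b d)⟫_ℂ := by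
  have h := (mem_N b).mp hx s
  have h1 : x (op b (R s) (b d)) = op b (R s) (x (b d)) := by
    have := congrArg (fun y => y (b d)) h
    exact this.symm
  rw [← op_basis b (R s) d, h1, inner_op_basis]

lemma trace_sum {x y : E →L[ℂ] E} (i : Bool) :
    ⟪e0 b i, (x * y) (e0 b i)⟫_ℂ =
      ∑ j : Bool, ∑' g : G, ⟪e0 b i, x (b (g, j))⟫_ℂ * ⟪b (g, j), y (e0 b i)⟫_ℂ := by
  have h1 : ⟪e0 b i, (x * y) (e0 b i)⟫_ℂ =
      ∑' c : X, ⟪e0 b i, x (b c)⟫_ℂ * ⟪b c, y (e0 b i)⟫_ℂ := by
    have h2 := b.tsum_inner_mul_inner (star x (e0 b i)) (y (e0 b i))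
    have h3 : ∀ c, ⟪star x (e0 b i), b c⟫_ℂ = ⟪e0 b i, x (b c)⟫_ℂ := by
      intro c
      rw [ContinuousLinearMap.star_eq_adjoint, ContinuousLinearMap.adjoint_inner_left]
    simp only [h3] at h2
    rw [h2, ContinuousLinearMap.star_eq_adjoint, ContinuousLinearMap.adjoint_inner_left]
    rfl
  have hs : Summable fun c : X => ⟪e0 b i, x (b c)⟫_ℂ * ⟪b c, y (e0 b i)⟫_ℂ := by
    have h2 := b.summable_inner_mul_inner (star x (e0 b i)) (y (e0 b i))
    refine h2.congr fun c => ?_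
    rw [ContinuousLinearMap.star_eq_adjoint, ContinuousLinearMap.adjoint_inner_left]
  rw [h1, ← (Equiv.prodComm Bool G).tsum_eq, ← tsum_fintype (L := .unconditional _)]
  exact ((Equiv.prodComm Bool G).summable_iff.mpr hs).tsum_prod

lemma tracial {x y : E →L[ℂ] E} (hx : x ∈ algN b) (hy : y ∈ algN b) :
    ∑ i, ⟪e0 b i, (x * y) (e0 b i)⟫_ℂ = ∑ i, ⟪e0 b i, (y * x) (e0 b i)⟫_ℂ := by
  simp only [trace_sum]
  rw [Finset.sum_comm]
  refine Finset.sum_congr rfl fun j _ => Finset.sum_congr rfl fun i _ => ?_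
  rw [← (Equiv.inv G).tsum_eq]
  congr 1
  funext g
  have h1 : ⟪e0 b i, x (b (g⁻¹, j))⟫_ℂ = ⟪b (g, i), x (e0 b j)⟫_ℂ := by
    have := coeff_inv b hx g⁻¹ (1, i) (g⁻¹, j)
    simp only [R_apply, inv_inv, one_mul, inv_mul_cancel] at this
    exact this.symm
  have h2 : ⟪b (g⁻¹, j), y (e0 b i)⟫_ℂ = ⟪e0 b j, y (b (g, i))⟫_ℂ := by
    have := coeff_inv b hy g⁻¹ (g⁻¹, j) (1, i)
    simp only [R_apply, inv_inv, one_mul, inv_mul_cancel] at this
    exact this.symm
  simp only [Equiv.inv_apply]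
  rw [h1, h2, mul_comm]

end Pool.Agent.H6.UPB
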