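import Mathlib
import Pool.Agent.H6.UPB

namespace Pool.Agent.H6.UPC

open scoped InnerProductSpace
open Pool.Agent.H6.UPA Pool.Agent.H6.UPB Pool.Agent.H6.UPDefs FreeGroup
open Filter Topology

variable {E : Type} [NormedAddCommGroup E] [InnerProductSpace ℂ E] [CompleteSpace E]
  (b : HilbertBasis X ℂ E)

lemma norm_e0 (i : Bool) : ‖e0 b i‖ = 1 := b.orthonormal.1 _

/-- the vectors defining the trace -/
noncomputable def vec (k : ℕ) : E :=
  if k = 0 then (((√2)⁻¹ : ℝ) : ℂ) • e0 b false
  else if k = 1 then (((√2)⁻¹ : ℝ) : ℂ) • e0 b true else 0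

lemma vec_ge {k : ℕ} (hk : k ∉ Finset.range 2) : vec b k = 0 := by
  unfold vec
  have h1 : k ≠ 0 := by rintro rfl; simp at hk
  have h2 : k ≠ 1 := by rintro rfl; simp at hk
  rw [if_neg h1, if_neg h2]

lemma vec_zero : vec b 0 = (((√2)⁻¹ : ℝ) : ℂ) • e0 b false := by simp [vec]
lemma vec_one : vec b 1 = (((√2)⁻¹ : ℝ) : ℂ) • e0 b true := by simp [vec]

lemma rr : ((((√2)⁻¹ : ℝ) : ℂ)) * (((√2)⁻¹ : ℝ) : ℂ) = 1 / 2 := by
  rw [← Complex.ofReal_mul, ← mul_inv, Real.mul_self_sqrt (by norm_num)]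
  push_cast; norm_num

lemma tr_vec (z : E →L[ℂ] E) :
    ∑' k, ⟪vec b k, z (vec b k)⟫_ℂ = 1 / 2 * ∑ i, ⟪e0 b i, z (e0 b i)⟫_ℂ := by
  rw [tsum_eq_sum (s := Finset.range 2)]
  · rw [Finset.sum_range_succ, Finset.sum_range_one, vec_zero, vec_one, Fintype.sum_bool]
    simp only [map_smul, inner_smul_left, inner_smul_right, Complex.conj_ofReal]
    linear_combination (⟪e0 b false, z (e0 b false)⟫_ℂ + ⟪e0 b true, z (e0 b true)⟫_ℂ) * rr
  · intro k hk
    rw [vec_ge b hk]; simp

lemma summ_vec : Summable fun k => ‖vec b k‖ ^ 2 :=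
  summable_of_ne_finset_zero (s := Finset.range 2) fun k hk => by rw [vec_ge b hk]; simp

lemma unit_vec : ∑' k, ‖vec b k‖ ^ 2 = 1 := by
  rw [tsum_eq_sum (s := Finset.range 2)]
  · rw [Finset.sum_range_succ, Finset.sum_range_one, vec_zero, vec_one, norm_smul, norm_smul,
      norm_e0, norm_e0, Complex.norm_real, Real.norm_eq_abs, mul_one, sq_abs, inv_pow,
      Real.sq_sqrt (by norm_num)]
    norm_num
  · intro k hk
    rw [vec_ge b hk]; simp

lemma inner_star_mul (x : E →L[ℂ] E) (v : E) : ⟪v, (star x * x) v⟫_ℂ = ((‖x v‖ ^ 2 : ℝ) : ℂ) := by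
  show ⟪v, star x (x v)⟫_ℂ = _
  rw [ContinuousLinearMap.star_eq_adjoint, ContinuousLinearMap.adjoint_inner_right,
    inner_self_eq_norm_sq_to_K]
  simp

lemma commR {x : E →L[ℂ] E} (hx : x ∈ algN b) (g : G) (i : Bool) :
    x (b (g, i)) = op b (R g⁻¹) (x (e0 b i)) := by
  rw [basis_eq]
  have := congrArg (fun y => y (e0 b i)) ((mem_N b).mp hx g⁻¹)
  exact this.symm

/-- `N` or a subalgebra, with the trace -/
noncomputable def mkT (A : VonNeumannAlgebra E) (hA : ∀ x ∈ A, x ∈ algN b) : TracialVN E where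
  alg := A
  vec := vec b
  summable_vec := summ_vec b
  unit_vec := unit_vec b
  tracial := by
    intro x hx y hy
    rw [tr_vec, tr_vec, tracial b (hA x hx) (hA y hy)]
  faithful := by
    intro x hx h
    rw [tr_vec] at h
    simp only [inner_star_mul, Fintype.sum_bool] at h
    rw [← Complex.ofReal_add] at h
    have h2 : ‖x (e0 b true)‖ ^ 2 + ‖x (e0 b false)‖ ^ 2 = 0 := by
      rcases mul_eq_zero.mp h with h | h
      · norm_num at h
      · exact_mod_cast h
    have hp1 : 0 ≤ ‖x (e0 b true)‖ ^ 2 := by positivity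
    have hp2 : 0 ≤ ‖x (e0 b false)‖ ^ 2 := by positivity
    have h3 : ‖x (e0 b true)‖ ^ 2 = 0 := by linarith
    have h4 : ‖x (e0 b false)‖ ^ 2 = 0 := by linarith
    have h5 : x (e0 b true) = 0 := by simpa using h3
    have h6 : x (e0 b false) = 0 := by simpa using h4
    refine ext_basis (b := b) fun c => ?_
    rcases c with ⟨g, i⟩
    rw [commR b (hA x hx)]
    cases i
    · rw [h6]; simp
    · rw [h5]; simp

lemma norm2_eq (A : VonNeumannAlgebra E) (hA : ∀ x ∈ A, x ∈ algN b) (x : El (mkT b A hA)) :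
    norm2 (mkT b A hA) x = √ (1 / 2 * ∑ i, ‖(x : E →L[ℂ] E) (e0 b i)‖ ^ 2) := by
  unfold norm2 tr
  congr 1
  have : ∀ k, ⟪(mkT b A hA).vec k, ((star x * x : El (mkT b A hA)) : E →L[ℂ] E)
      ((mkT b A hA).vec k)⟫_ℂ = ⟪vec b k, (star (x : E →L[ℂ] E) * (x : E →L[ℂ] E)) (vec b k)⟫_ℂ :=
    fun k => rfl
  simp only [this]
  rw [tr_vec]
  simp only [inner_star_mul, Fintype.sum_bool]
  rw [← Complex.ofReal_add]
  have h2 : (1 / 2 : ℂ) = ((1 / 2 : ℝ) : ℂ) := by push_cast; norm_num
  rw [h2, ← Complex.ofReal_mul, Complex.ofReal_re]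

lemma norm2_ge (A : VonNeumannAlgebra E) (hA : ∀ x ∈ A, x ∈ algN b) (x : El (mkT b A hA))
    (i : Bool) : ‖(x : E →L[ℂ] E) (e0 b i)‖ ≤ 2 * norm2 (mkT b A hA) x := by
  rw [norm2_eq]
  have h1 : ‖(x : E →L[ℂ] E) (e0 b i)‖ ^ 2 ≤ ∑ i, ‖(x : E →L[ℂ] E) (e0 b i)‖ ^ 2 :=
    Finset.single_le_sum (f := fun i => ‖(x : E →L[ℂ] E) (e0 b i)‖ ^ 2)
      (fun i _ => by positivity) (Finset.mem_univ i)
  have h2 : ‖(x : E →L[ℂ] E) (e0 b i)‖ / 2 ≤ √ (1 / 2 * ∑ i, ‖(x : E →L[ℂ] E) (e0 b i)‖ ^ 2) := by
    apply Real.le_sqrt_of_sq_le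
    nlinarith
  linarith

lemma norm2_le (A : VonNeumannAlgebra E) (hA : ∀ x ∈ A, x ∈ algN b) (x : El (mkT b A hA)) :
    norm2 (mkT b A hA) x ≤ ‖(x : E →L[ℂ] E) (e0 b false)‖ + ‖(x : E →L[ℂ] E) (e0 b true)‖ := by
  rw [norm2_eq, Fintype.sum_bool]
  apply Real.sqrt_le_iff.mpr
  refine ⟨by positivity, ?_⟩
  nlinarith [norm_nonneg ((x : E →L[ℂ] E) (e0 b false)), norm_nonneg ((x : E →L[ℂ] E) (e0 b true))]

lemma norm2_nonneg (T : TracialVN E) (x : El T) : 0 ≤ norm2 T x := Real.sqrt_nonneg _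

lemma ueq_iff (U : Ultrafilter ℕ) (A : VonNeumannAlgebra E) (hA : ∀ x ∈ A, x ∈ algN b)
    (x y : ℕ → El (mkT b A hA)) : UEq U (mkT b A hA) x y ↔
    ∀ i, Tendsto (fun n => ‖((x n - y n : El (mkT b A hA)) : E →L[ℂ] E) (e0 b i)‖) U (𝓝 0) := by
  constructor
  · intro h i
    have h2 : Tendsto (fun n => 2 * norm2 (mkT b A hA) (x n - y n)) U (𝓝 0) := by
      simpa using h.const_mul 2
    exact squeeze_zero (fun n => norm_nonneg _) (fun n => norm2_ge b A hA _ i) h2
  · intro h
    have h2 := (h false).add (h true)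
    rw [add_zero] at h2
    exact squeeze_zero (fun n => norm2_nonneg _ _) (fun n => norm2_le b A hA _) h2

/-- the 2-norm of the adjoint -/
lemma norm2_star (A : VonNeumannAlgebra E) (hA : ∀ x ∈ A, x ∈ algN b) (x : El (mkT b A hA)) :
    norm2 (mkT b A hA) (star x) = norm2 (mkT b A hA) x := by
  unfold norm2 tr
  congr 2
  have h := (mkT b A hA).tracial (x : E →L[ℂ] E) x.2 (star (x : E →L[ℂ] E)) (star x).2
  have e : star (star x) = x := star_star x
  rw [e]
  exact h

/-- central elements are scalar -/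
lemma central {x : E →L[ℂ] E} (hx : x ∈ algN b) (hP : P b false * x = x * P b false)
    (hS : op b Sw * x = x * op b Sw) (hL : ∀ h, op b (Lm h) * x = x * op b (Lm h)) :
    ∃ c : ℂ, x = c • 1 := by
  set v := x (e0 b false) with hv
  have h1 : ∀ g, ⟪b (g, true), v⟫_ℂ = 0 := by
    intro g
    have e1 : v = P b false v := by
      have := congrArg (fun y => y (e0 b false)) hP
      have e2 : P b false (e0 b false) = e0 b false := P_same b false _ rfl
      have this' : P b false (x (e0 b false)) = x (P b false (e0 b false)) := this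
      rw [e2] at this'
      exact this'.symm
    rw [e1]
    have : ⟪b (g, true), P b false v⟫_ℂ = ⟪P b false (b (g, true)), v⟫_ℂ := by
      rw [← ContinuousLinearMap.adjoint_inner_left, ← ContinuousLinearMap.star_eq_adjoint, star_P]
    rw [this, P_diff b false _ (by simp), inner_zero_left]
  have h2 : ∀ h : G, op b (Lm h * R h) v = v := by
    intro h
    have e1 : op b (Lm h * R h) (e0 b false) = e0 b false := by
      unfold e0
      rw [op_basis]
      congr 1
      simp
    have e2 : op b (Lm h * R h) * x = x * op b (Lm h * R h) := by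
      rw [← op_mul, mul_assoc, (mem_N b).mp hx h, ← mul_assoc, hL h, mul_assoc]
    have := congrArg (fun y => y (e0 b false)) e2
    have this' : op b (Lm h * R h) (x (e0 b false)) = x (op b (Lm h * R h) (e0 b false)) := this
    rw [e1] at this'
    exact this'
  have h3 : ∀ g : G, g ≠ 1 → ⟪b (g, false), v⟫_ℂ = 0 := by
    intro g hg
    obtain ⟨k, hk⟩ := Pool.Agent.H6.FG4.icc g hg
    have e1 : ∀ n : ℕ, q b v ((of k) ^ n * g * ((of k) ^ n)⁻¹, false) = q b v (g, false) := by
      intro n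
      unfold q
      have := inner_op_basis b (Lm ((of k) ^ n) * R ((of k) ^ n)) (g, false) v
      rw [h2] at this
      have e3 : (Lm ((of k) ^ n) * R ((of k) ^ n)) (g, false) =
          ((of k) ^ n * g * ((of k) ^ n)⁻¹, false) := by
        simp [mul_assoc]
      rw [e3] at this
      rw [this]
    have e2 : Summable fun n : ℕ => q b v ((of k) ^ n * g * ((of k) ^ n)⁻¹, false) := by
      have hinj : Function.Injective
          fun n : ℕ => (((of k) ^ n * g * ((of k) ^ n)⁻¹, false) : X) := by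
        intro m n hmn
        exact hk (congrArg Prod.fst hmn)
      exact (hasSum_q b v).summable.comp_injective hinj
    simp only [e1] at e2
    rw [summable_const_iff] at e2
    unfold q at e2
    simpa using e2
  have h4 : v = ⟪e0 b false, v⟫_ℂ • e0 b false := by
    rw [← sub_eq_zero, ← _root_.norm_eq_zero]
    have h5 := hasSum_q b (v - ⟪e0 b false, v⟫_ℂ • e0 b false)
    have h6 : q b (v - ⟪e0 b false, v⟫_ℂ • e0 b false) = fun _ => 0 := by
      funext c
      unfold q
      rcases c with ⟨g, i⟩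
      rw [inner_sub_right, inner_smul_right]
      cases i
      · by_cases hg : g = 1
        · subst hg
          have : ⟪b (1, false), e0 b false⟫_ℂ = 1 := by
            unfold e0
            rw [inner_self_eq_norm_sq_to_K, b.orthonormal.1]; simp
          rw [this]
          unfold e0
          simp
        · have : ⟪b (g, false), e0 b false⟫_ℂ = 0 := by
            unfold e0
            exact b.orthonormal.2 (by simp [hg])
          rw [this, h3 g hg]; simp
      · have : ⟪b (g, true), e0 b false⟫_ℂ = 0 := by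
          unfold e0
          exact b.orthonormal.2 (by simp)
        rw [this, h1 g]; simp
    rw [h6] at h5
    have := h5.unique hasSum_zero
    simpa using this
  refine ⟨⟪e0 b false, v⟫_ℂ, ?_⟩
  have h7 : ∀ g, x (b (g, false)) = ⟪e0 b false, v⟫_ℂ • b (g, false) := by
    intro g
    rw [commR b hx, ← hv, h4, map_smul, ← basis_eq]
    rw [← h4]
  refine ext_basis (b := b) fun c => ?_
  rcases c with ⟨g, i⟩
  show x (b (g, i)) = ⟪e0 b false, v⟫_ℂ • b (g, i)
  cases i
  · exact h7 g
  · have e1 : b (g, true) = op b Sw (b (g, false)) := by rw [op_basis]; simp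
    have e2 : x (op b Sw (b (g, false))) = op b Sw (x (b (g, false))) := by
      have := congrArg (fun y => y (b (g, false))) hS
      exact this.symm
    rw [e1, e2, h7, map_smul]

lemma Lm_mem (h : G) : op b (Lm h) ∈ algM b := by
  rw [mem_M]
  refine ⟨fun s => op_comm b (R_Lm s h), P_comm b _ (fun c => rfl) false,
    op_comm b (Lm_Sw h).symm⟩

lemma P_mem (i : Bool) : P b i ∈ algN b := by
  rw [mem_N]
  exact fun s => (P_comm b _ (fun c => rfl) i).symm

lemma Sw_mem : op b Sw ∈ algN b := by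
  rw [mem_N]
  exact fun s => op_comm b (R_Sw s)

lemma not_fd (A : VonNeumannAlgebra E) (hA : ∀ x ∈ A, x ∈ algN b)
    (hL : ∀ h, op b (Lm h) ∈ A) : ¬ FiniteDimensional ℂ (El (mkT b A hA)) := by
  intro hfd
  have hli : LinearIndependent ℂ (fun h : G => (⟨op b (Lm h), hL h⟩ : El (mkT b A hA))) := by
    let F : El (mkT b A hA) →ₗ[ℂ] E :=
      { toFun := fun x => (x : E →L[ℂ] E) (e0 b false)
        map_add' := fun x y => rfl
        map_smul' := fun c x => rfl }
    refine LinearIndependent.of_comp F ?_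
    have : (F ∘ fun h : G => (⟨op b (Lm h), hL h⟩ : El (mkT b A hA))) =
        fun h : G => b (h, false) := by
      funext h
      show op b (Lm h) (e0 b false) = b (h, false)
      unfold e0
      rw [op_basis]; simp
    rw [this]
    exact b.orthonormal.linearIndependent.comp (fun h : G => ((h, false) : X))
      (fun g h hgh => congrArg Prod.fst hgh)
  have hfin : Finite G := hli.finite
  haveI : Infinite G := inferInstance
  exact not_finite G

end Pool.Agent.H6.UPC
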