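import Mathlib
import Pool.Agent.H6.UPC

namespace Pool.Agent.H6.UPD

open scoped InnerProductSpace
open Pool.Agent.H6.UPA Pool.Agent.H6.UPB Pool.Agent.H6.UPC Pool.Agent.H6.UPDefs FreeGroup
open Filter Topology

variable {E : Type} [NormedAddCommGroup E] [InnerProductSpace ℂ E] [CompleteSpace E]
  (b : HilbertBasis X ℂ E)

/-- conjugation by the permutation given by the automorphism -/
noncomputable def tw (x : E →L[ℂ] E) : E →L[ℂ] E := op b Th * x * op b Th⁻¹

lemma inv_mul_Th : op b Th⁻¹ * op b Th = 1 := by rw [op_mul, inv_mul_cancel, op_one]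
lemma mul_inv_Th : op b Th * op b Th⁻¹ = 1 := by rw [op_mul, mul_inv_cancel, op_one]

lemma tw_mul (x y : E →L[ℂ] E) : tw b (x * y) = tw b x * tw b y := by
  unfold tw
  calc op b Th * (x * y) * op b Th⁻¹ = op b Th * x * 1 * y * op b Th⁻¹ := by noncomm_ring
    _ = op b Th * x * (op b Th⁻¹ * op b Th) * y * op b Th⁻¹ := by rw [inv_mul_Th]
    _ = _ := by noncomm_ring

lemma tw_star (x : E →L[ℂ] E) : star (tw b x) = tw b (star x) := by
  unfold tw
  rw [star_mul, star_mul, star_op, star_op, inv_inv, mul_assoc]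

lemma tw_add (x y : E →L[ℂ] E) : tw b (x + y) = tw b x + tw b y := by
  unfold tw; noncomm_ring

lemma tw_smul (c : ℂ) (x : E →L[ℂ] E) : tw b (c • x) = c • tw b x := by
  unfold tw
  rw [mul_smul_comm, smul_mul_assoc]

lemma tw_one : tw b 1 = 1 := by
  unfold tw
  rw [mul_one, mul_inv_Th]

lemma tw_comm {x y : E →L[ℂ] E} (h : x * y = y * x) : tw b x * tw b y = tw b y * tw b x := by
  rw [← tw_mul, ← tw_mul, h]

lemma tw_op (σ : Equiv.Perm X) : tw b (op b σ) = op b (Th * σ * Th⁻¹) := by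
  unfold tw
  rw [op_mul, op_mul]

lemma tw_P (i : Bool) : tw b (P b i) = P b i := by
  unfold tw
  rw [← P_comm b Th (fun c => rfl) i, mul_assoc, mul_inv_Th, mul_one]

lemma tw_mem {x : E →L[ℂ] E} (hx : x ∈ algM b) : tw b x ∈ algM b := by
  rw [mem_M] at hx ⊢
  obtain ⟨h1, h2, h3⟩ := hx
  refine ⟨fun s => ?_, ?_, ?_⟩
  · have e : tw b (op b (R (θ.symm s))) = op b (R s) := by
      rw [tw_op]
      congr 1
      rw [mul_inv_eq_iff_eq_mul, Th_R, MulEquiv.apply_symm_apply]
    rw [← e]
    exact tw_comm b (h1 _)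
  · have e := tw_comm b h2
    rwa [tw_P] at e
  · have e : tw b (op b Sw) = op b Sw := by
      rw [tw_op]
      congr 1
      rw [mul_inv_eq_iff_eq_mul, Th_Sw]
    have e2 := tw_comm b h3
    rwa [e] at e2

lemma P_true : P b true = 1 - P b false := by
  rw [← P_add b]; abel

lemma PM {x : E →L[ℂ] E} (hx : x ∈ algM b) (i : Bool) : P b i * x = x * P b i := by
  have h := ((mem_M b).mp hx).2.1
  cases i
  · exact h
  · rw [P_true, sub_mul, mul_sub, h, one_mul, mul_one]

/-- first embedding -/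
noncomputable def p1 (x : E →L[ℂ] E) : E →L[ℂ] E := P b false * x + P b true * tw b x

lemma block_mul {A : Type*} [Ring A] {p q x y z w : A} (hp : p * p = p) (hq : q * q = q)
    (hpq : p * q = 0) (hqp : q * p = 0) (hx : p * x = x * p) (hx' : q * x = x * q)
    (hz : p * z = z * p) (hz' : q * z = z * q) :
    (p * x + q * z) * (p * y + q * w) = p * (x * y) + q * (z * w) := by
  have e1 : (p * x) * (p * y) = p * (x * y) := by
    calc (p * x) * (p * y) = p * (x * p) * y := by noncomm_ring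
      _ = p * (p * x) * y := by rw [hx]
      _ = (p * p) * (x * y) := by noncomm_ring
      _ = _ := by rw [hp]
  have e2 : (p * x) * (q * w) = 0 := by
    calc (p * x) * (q * w) = p * (x * q) * w := by noncomm_ring
      _ = p * (q * x) * w := by rw [hx']
      _ = (p * q) * (x * w) := by noncomm_ring
      _ = _ := by rw [hpq, zero_mul]
  have e3 : (q * z) * (p * y) = 0 := by
    calc (q * z) * (p * y) = q * (z * p) * y := by noncomm_ring
      _ = q * (p * z) * y := by rw [hz]
      _ = (q * p) * (z * y) := by noncomm_ring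
      _ = _ := by rw [hqp, zero_mul]
  have e4 : (q * z) * (q * w) = q * (z * w) := by
    calc (q * z) * (q * w) = q * (z * q) * w := by noncomm_ring
      _ = q * (q * z) * w := by rw [hz']
      _ = (q * q) * (z * w) := by noncomm_ring
      _ = _ := by rw [hq]
  rw [add_mul, mul_add, mul_add, e1, e2, e3, e4]
  abel

lemma p1_mul {x y : E →L[ℂ] E} (hx : x ∈ algM b) :
    p1 b (x * y) = p1 b x * p1 b y := by
  unfold p1
  rw [tw_mul]
  exact (block_mul (P_mul_self b _) (P_mul_self b _) (P_mul_ne b (by simp))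
    (P_mul_ne b (by simp)) (PM b hx _) (PM b hx _) (PM b (tw_mem b hx) _)
    (PM b (tw_mem b hx) _)).symm

lemma p1_star {x : E →L[ℂ] E} (hx : x ∈ algM b) : p1 b (star x) = star (p1 b x) := by
  unfold p1
  have h1 : star x ∈ algM b := star_mem hx
  rw [star_add, star_mul, star_mul, star_P, star_P, tw_star, PM b h1,
    PM b (tw_mem b h1)]

lemma p1_add (x y : E →L[ℂ] E) : p1 b (x + y) = p1 b x + p1 b y := by
  unfold p1
  rw [tw_add]; noncomm_ring

lemma p1_smul (c : ℂ) (x : E →L[ℂ] E) : p1 b (c • x) = c • p1 b x := by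
  unfold p1
  rw [tw_smul, mul_smul_comm, mul_smul_comm, smul_add]

lemma p1_one : p1 b 1 = 1 := by
  unfold p1
  rw [tw_one, mul_one, mul_one, P_add]

lemma p1_mem {x : E →L[ℂ] E} (hx : x ∈ algM b) : p1 b x ∈ algN b := by
  unfold p1
  exact add_mem (mul_mem (P_mem b _) (M_le_N b hx)) (mul_mem (P_mem b _)
    (M_le_N b (tw_mem b hx)))

/-- the factor `M` -/
noncomputable def TM : TracialVN E := mkT b (algM b) (fun _ h => M_le_N b h)
/-- the factor `N` -/
noncomputable def TN : TracialVN E := mkT b (algN b) (fun _ h => h)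

/-- first embedding, as a map -/
noncomputable def f1 (x : El (TM b)) : El (TN b) := ⟨p1 b x, p1_mem b x.2⟩
/-- second embedding, as a map -/
noncomputable def f2 (x : El (TM b)) : El (TN b) := ⟨(x : E →L[ℂ] E), M_le_N b x.2⟩

lemma tr_eq (A : VonNeumannAlgebra E) (hA : ∀ x ∈ A, x ∈ algN b) (x : El (mkT b A hA)) :
    tr (mkT b A hA) x = 1 / 2 * ∑ i, ⟪e0 b i, (x : E →L[ℂ] E) (e0 b i)⟫_ℂ := tr_vec b _

lemma P_inner (i : Bool) (v w : E) : ⟪v, P b i w⟫_ℂ = ⟪P b i v, w⟫_ℂ := by
  rw [← ContinuousLinearMap.adjoint_inner_left, ← ContinuousLinearMap.star_eq_adjoint, star_P]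

lemma tr_f1 (x : El (TM b)) : tr (TN b) (f1 b x) = tr (TM b) x := by
  unfold TN TM
  rw [tr_eq, tr_eq]
  congr 1
  simp only [Fintype.sum_bool]
  have h0 : ⟪e0 b false, ((f1 b x : El (TN b)) : E →L[ℂ] E) (e0 b false)⟫_ℂ =
      ⟪e0 b false, (x : E →L[ℂ] E) (e0 b false)⟫_ℂ := by
    show ⟪e0 b false, P b false ((x : E →L[ℂ] E) (e0 b false)) +
      P b true (tw b x (e0 b false))⟫_ℂ = _
    rw [inner_add_right, P_inner, P_inner]
    have e1 : P b false (e0 b false) = e0 b false := P_same b _ _ rfl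
    have e2 : P b true (e0 b false) = 0 := P_diff b _ _ (by simp)
    rw [e1, e2, inner_zero_left, add_zero]
  have h1 : ⟪e0 b true, ((f1 b x : El (TN b)) : E →L[ℂ] E) (e0 b true)⟫_ℂ =
      ⟪e0 b true, (x : E →L[ℂ] E) (e0 b true)⟫_ℂ := by
    show ⟪e0 b true, P b false ((x : E →L[ℂ] E) (e0 b true)) +
      P b true (op b Th ((x : E →L[ℂ] E) (op b Th⁻¹ (e0 b true))))⟫_ℂ = _
    rw [inner_add_right, P_inner, P_inner]
    have e1 : P b false (e0 b true) = 0 := P_diff b _ _ (by simp)
    have e2 : P b true (e0 b true) = e0 b true := P_same b _ _ rfl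
    have e3 : op b Th⁻¹ (e0 b true) = e0 b true := by
      unfold e0; rw [op_basis]; congr 1
    have e4 : op b Th (e0 b true) = e0 b true := by
      unfold e0; rw [op_basis]; congr 1
    rw [e1, e2, inner_zero_left, zero_add, e3]
    conv_lhs => rw [← e4]
    rw [op_inner, e4]
  rw [h0, h1]

lemma norm2_zero (T : TracialVN E) : norm2 T 0 = 0 := by
  unfold norm2 tr
  simp

lemma ueq_refl (U : Ultrafilter ℕ) (T : TracialVN E) (x : ℕ → El T) : UEq U T x x := by
  unfold UEq
  simp only [sub_self, norm2_zero]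
  exact tendsto_const_nhds

lemma ueq_of_eq (U : Ultrafilter ℕ) (T : TracialVN E) {x y : ℕ → El T} (h : x = y) :
    UEq U T x y := by
  rw [h]; exact ueq_refl U T y

/-- embedding given by constant sequences -/
noncomputable def cEmb (U : Ultrafilter ℕ) (M N : TracialVN E) (f : El M → El N)
    (h1 : f 1 = 1) (h2 : ∀ x y, f (x + y) = f x + f y) (h3 : ∀ (c : ℂ) x, f (c • x) = c • f x)
    (h4 : ∀ x y, f (x * y) = f x * f y) (h5 : ∀ x, f (star x) = star (f x))
    (h6 : ∀ x, tr N (f x) = tr M x) : Emb U M N where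
  toFun x := fun _ => f x
  bdd x := ⟨‖(f x : E →L[ℂ] E)‖, fun _ => le_rfl⟩
  map_one := ueq_of_eq U N (by funext n; exact h1)
  map_add x y := ueq_of_eq U N (by funext n; exact h2 x y)
  map_smul c x := ueq_of_eq U N (by funext n; exact h3 c x)
  map_mul x y := ueq_of_eq U N (by funext n; exact h4 x y)
  map_star x := ueq_of_eq U N (by funext n; exact h5 x)
  map_tr x := by rw [h6]; exact tendsto_const_nhds
  map_norm2 x := by
    have : norm2 N (f x) = norm2 M x := by
      unfold norm2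
      rw [← h5, ← h4, h6]
    rw [this]; exact tendsto_const_nhds

noncomputable def π1 (U : Ultrafilter ℕ) : Emb U (TM b) (TN b) :=
  cEmb U (TM b) (TN b) (f1 b) (Subtype.ext (p1_one b))
    (fun x y => Subtype.ext (p1_add b _ _)) (fun c x => Subtype.ext (p1_smul b c _))
    (fun x y => Subtype.ext (p1_mul b x.2)) (fun x => Subtype.ext (p1_star b x.2)) (tr_f1 b)

noncomputable def π2 (U : Ultrafilter ℕ) : Emb U (TM b) (TN b) :=
  cEmb U (TM b) (TN b) (f2 b) rfl (fun _ _ => rfl) (fun _ _ => rfl) (fun _ _ => rfl)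
    (fun _ => rfl) (fun _ => rfl)

/-- the ucp map on operators -/
noncomputable def ph (y : E →L[ℂ] E) : E →L[ℂ] E :=
  P b false * y * P b false + op b Sw * (P b false * y * P b false) * op b Sw

lemma ph_mem {y : E →L[ℂ] E} (hy : y ∈ algN b) : ph b y ∈ algN b := by
  unfold ph
  exact add_mem (mul_mem (mul_mem (P_mem b _) hy) (P_mem b _))
    (mul_mem (mul_mem (Sw_mem b) (mul_mem (mul_mem (P_mem b _) hy) (P_mem b _))) (Sw_mem b))

lemma Sw_Sw : op b Sw * op b Sw = 1 := by
  have h : Sw * Sw = 1 := by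
    ext c <;> simp
  rw [op_mul, h, op_one]

lemma ph_one : ph b 1 = 1 := by
  unfold ph
  rw [mul_one, P_mul_self, P_Sw, mul_assoc, Sw_Sw, mul_one]
  exact P_add b

/-- the ucp map -/
noncomputable def φ : El (TN b) →ₗ[ℂ] El (TN b) where
  toFun y := ⟨ph b y, ph_mem b y.2⟩
  map_add' x y := by
    apply Subtype.ext
    show ph b ((x : E →L[ℂ] E) + y) = ph b x + ph b y
    unfold ph; noncomm_ring
  map_smul' c x := by
    apply Subtype.ext
    show ph b (c • (x : E →L[ℂ] E)) = c • ph b x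
    unfold ph
    simp only [mul_smul_comm, smul_mul_assoc, smul_add]

lemma ucp : IsUCP (TN b) (φ b) where
  unital := Subtype.ext (ph_one b)
  cp := by
    intro m x v
    refine ⟨‖∑ j, (x j : E →L[ℂ] E) (P b false (v j))‖ ^ 2 +
      ‖∑ j, (x j : E →L[ℂ] E) (P b false (op b Sw (v j)))‖ ^ 2, by positivity, ?_⟩
    have h1 : ∀ i j, ⟪v i, ((φ b (star (x i) * x j) : El (TN b)) : E →L[ℂ] E) (v j)⟫_ℂ =
        ⟪(x i : E →L[ℂ] E) (P b false (v i)), (x j : E →L[ℂ] E) (P b false (v j))⟫_ℂ +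
        ⟪(x i : E →L[ℂ] E) (P b false (op b Sw (v i))),
          (x j : E →L[ℂ] E) (P b false (op b Sw (v j)))⟫_ℂ := by
      intro i j
      show ⟪v i, P b false (star (x i : E →L[ℂ] E) ((x j : E →L[ℂ] E) (P b false (v j)))) +
        op b Sw (P b false (star (x i : E →L[ℂ] E) ((x j : E →L[ℂ] E)
          (P b false (op b Sw (v j))))))⟫_ℂ = _
      rw [inner_add_right, P_inner, ContinuousLinearMap.star_eq_adjoint,
        ContinuousLinearMap.adjoint_inner_right]
      congr 1
      have e : v i = op b Sw (op b Sw (v i)) := by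
        have := congrArg (fun y => y (v i)) (Sw_Sw b)
        exact this.symm
      conv_lhs => rw [e]
      rw [op_inner, P_inner, ContinuousLinearMap.adjoint_inner_right]
    simp only [h1, Finset.sum_add_distrib]
    have h2 : ∀ w : Fin m → E, ∑ i, ∑ j, ⟪w i, w j⟫_ℂ = ((‖∑ j, w j‖ ^ 2 : ℝ) : ℂ) := by
      intro w
      have : ⟪∑ i, w i, ∑ j, w j⟫_ℂ = ∑ i, ∑ j, ⟪w i, w j⟫_ℂ := by
        rw [sum_inner]
        refine Finset.sum_congr rfl fun i _ => ?_
        rw [inner_sum]
      rw [← this, inner_self_eq_norm_sq_to_K]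
      simp
    rw [h2 (fun i => (x i : E →L[ℂ] E) (P b false (v i))),
      h2 (fun i => (x i : E →L[ℂ] E) (P b false (op b Sw (v i))))]
    push_cast
    rfl

end Pool.Agent.H6.UPD
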