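import Mathlib
import Pool.Agent.H6.UPD

namespace Pool.Agent.H6.UPE

open scoped InnerProductSpace
open Pool.Agent.H6.UPA Pool.Agent.H6.UPB Pool.Agent.H6.UPC Pool.Agent.H6.UPD
open Pool.Agent.H6.UPDefs FreeGroup
open Filter Topology

variable {E : Type} [NormedAddCommGroup E] [InnerProductSpace ℂ E] [CompleteSpace E]
  (b : HilbertBasis X ℂ E)

lemma ph_false (y : E →L[ℂ] E) : ph b y (e0 b false) = P b false (y (e0 b false)) := by
  show P b false (y (P b false (e0 b false))) +
    op b Sw (P b false (y (P b false (op b Sw (e0 b false))))) = _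
  have e1 : P b false (e0 b false) = e0 b false := P_same b _ _ rfl
  have e2 : op b Sw (e0 b false) = e0 b true := by unfold e0; rw [op_basis]; rfl
  have e3 : P b false (e0 b true) = 0 := P_diff b _ _ (by simp)
  rw [e1, e2, e3, map_zero, map_zero, map_zero, add_zero]

lemma ph_true (y : E →L[ℂ] E) :
    ph b y (e0 b true) = op b Sw (P b false (y (e0 b false))) := by
  show P b false (y (P b false (e0 b true))) +
    op b Sw (P b false (y (P b false (op b Sw (e0 b true))))) = _
  have e1 : P b false (e0 b false) = e0 b false := P_same b _ _ rfl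
  have e2 : op b Sw (e0 b true) = e0 b false := by unfold e0; rw [op_basis]; rfl
  have e3 : P b false (e0 b true) = 0 := P_diff b _ _ (by simp)
  rw [e3, map_zero, map_zero, zero_add, e2, e1]

lemma ph_le (y : E →L[ℂ] E) (i : Bool) :
    ‖ph b y (e0 b i)‖ ≤ ‖P b false‖ * ‖y (e0 b false)‖ := by
  cases i
  · rw [ph_false]; exact ContinuousLinearMap.le_opNorm _ _
  · rw [ph_true, op_norm]; exact ContinuousLinearMap.le_opNorm _ _

lemma wellDef (U : Ultrafilter ℕ) : WellDef U (TN b) (fun _ => φ b) := by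
  constructor
  · rintro x ⟨C, hC⟩
    refine ⟨‖P b false‖ * C * ‖P b false‖ +
      ‖op b Sw‖ * (‖P b false‖ * C * ‖P b false‖) * ‖op b Sw‖, fun n => ?_⟩
    show ‖P b false * (x n : E →L[ℂ] E) * P b false +
      op b Sw * (P b false * (x n : E →L[ℂ] E) * P b false) * op b Sw‖ ≤ _
    have h1 : ‖P b false * (x n : E →L[ℂ] E) * P b false‖ ≤ ‖P b false‖ * C * ‖P b false‖ := by
      refine (_root_.norm_mul_le _ _).trans ?_
      refine mul_le_mul_of_nonneg_right ?_ (norm_nonneg _)
      exact (_root_.norm_mul_le _ _).trans (mul_le_mul_of_nonneg_left (hC n) (norm_nonneg _))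
    refine (norm_add_le _ _).trans (add_le_add h1 ?_)
    refine (_root_.norm_mul_le _ _).trans (mul_le_mul_of_nonneg_right ?_ (norm_nonneg _))
    exact (_root_.norm_mul_le _ _).trans (mul_le_mul_of_nonneg_left h1 (norm_nonneg _))
  · intro x y _ _ h
    unfold TN at h ⊢
    rw [ueq_iff] at h ⊢
    intro i
    have h2 : Tendsto (fun n => ‖P b false‖ * ‖((x n - y n : El (TN b)) : E →L[ℂ] E)
        (e0 b false)‖) U (𝓝 0) := by
      have := (h false).const_mul ‖P b false‖
      rwa [mul_zero] at this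
    refine squeeze_zero (fun n => norm_nonneg _) (fun n => ?_) h2
    have e : ((φ b (x n) - φ b (y n) : El (TN b)) : E →L[ℂ] E) =
        ph b ((x n - y n : El (TN b)) : E →L[ℂ] E) := by
      rw [← map_sub]; rfl
    have := ph_le b ((x n - y n : El (TN b)) : E →L[ℂ] E) i
    rw [← e] at this
    exact this

lemma ph_p1 {x : E →L[ℂ] E} (hx : x ∈ algM b) : ph b (p1 b x) = x := by
  have h1 : P b false * p1 b x * P b false = P b false * x := by
    unfold p1
    calc P b false * (P b false * x + P b true * tw b x) * P b false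
        = (P b false * P b false) * (x * P b false) +
          (P b false * P b true) * tw b x * P b false := by noncomm_ring
      _ = P b false * (P b false * x) := by
          rw [P_mul_self, P_mul_ne b (by simp : false ≠ true), zero_mul, zero_mul, add_zero,
            PM b hx]
      _ = (P b false * P b false) * x := by noncomm_ring
      _ = _ := by rw [P_mul_self]
  unfold ph
  rw [h1]
  have h2 : op b Sw * (P b false * x) * op b Sw = P b true * x := by
    calc op b Sw * (P b false * x) * op b Sw = (op b Sw * P b false) * (x * op b Sw) := by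
          noncomm_ring
      _ = (P b (!false) * op b Sw) * (op b Sw * x) := by
          rw [P_Sw, ((mem_M b).mp hx).2.2]
      _ = P b (!false) * (op b Sw * op b Sw) * x := by noncomm_ring
      _ = _ := by rw [Sw_Sw, mul_one]; rfl
  rw [h2, ← add_mul, P_add, one_mul]

lemma phi_pi (U : Ultrafilter ℕ) (x : El (TM b)) :
    UEq U (TN b) (fun n => φ b ((π1 b U).toFun x n)) ((π2 b U).toFun x) := by
  refine ueq_of_eq U _ ?_
  funext n
  exact Subtype.ext (ph_p1 b x.2)

/-- letters -/
lemma sigma_apply (h : G) (c : X) : (R (θ h) * Lm h) c = (h * c.1 * (θ h)⁻¹, c.2) := by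
  simp

lemma sigma_inv_apply (h : G) (c : X) : (R (θ h) * Lm h)⁻¹ c = (h⁻¹ * c.1 * θ h, c.2) := by
  rw [mul_inv_rev]
  show (Lm h)⁻¹ ((R (θ h))⁻¹ c) = _
  rw [R_inv_apply, Lm_inv_apply]
  simp [mul_assoc]

/-- words starting with the letter `(k, β)` -/
def W (k : Fin 4) (β : Bool) : Set X := {c | c.1.toWord.head? = some (k, β)}

lemma W_disj {k l : Fin 4} {β γ : Bool} (h : (k, β) ≠ (l, γ)) : Disjoint (W k β) (W l γ) := by
  rw [Set.disjoint_left]
  intro c h1 h2
  have h1' : c.1.toWord.head? = some (k, β) := h1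
  have h2' : c.1.toWord.head? = some (l, γ) := h2
  rw [h1'] at h2'
  exact h (Option.some.inj h2')

lemma step (k : Fin 4) (c : X) (hc : c ∉ W k true ∪ W k false) :
    (R (θ (of k)) * Lm (of k)) c ∈ W k true ∧ (R (θ (of k)) * Lm (of k))⁻¹ c ∈ W k false := by
  have hk' : ∀ k : Fin 4, k ≠ k + 2 := by decide
  have hk := hk' k
  rw [Set.mem_union, not_or] at hc
  have e1 : (mk [(k, true)] : G) = of k := rfl
  have e2 : (mk [(k, false)] : G) = (of k)⁻¹ := by rw [of, inv_mk]; rfl
  have e3 : (mk [(k + 2, true)] : G) = of (k + 2) := rfl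
  have e4 : (mk [(k + 2, false)] : G) = (of (k + 2))⁻¹ := by rw [of, inv_mk]; rfl
  constructor
  · rw [sigma_apply, θ_of, ← e1, ← e4]
    exact Pool.Agent.H6.FG4.head_conj k (k + 2) hk true false c.1 hc.2
  · rw [sigma_inv_apply, θ_of, ← e2, ← e3]
    exact Pool.Agent.H6.FG4.head_conj k (k + 2) hk false true c.1 hc.1

lemma no_inv_vec (v : E) (ε : ℝ) (h : ∀ k : Fin 4, ‖op b (R (θ (of k)) * Lm (of k)) v - v‖ ≤ ε) :
    ‖v‖ ^ 2 ≤ 49 * ε ^ 2 := by
  refine no_inv b (σ := R (θ (of 0)) * Lm (of 0)) (τ := R (θ (of 1)) * Lm (of 1))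
    (A := W 0 true ∪ W 0 false) (P := W 0 true) (Q := W 0 false)
    (B := W 1 true ∪ W 1 false) (P' := W 1 true) (Q' := W 1 false)
    Set.subset_union_left Set.subset_union_right (W_disj (by simp))
    (fun c hc => (step 0 c hc).1) (fun c hc => (step 0 c hc).2)
    Set.subset_union_left Set.subset_union_right (W_disj (by simp))
    (fun c hc => (step 1 c hc).1) (fun c hc => (step 1 c hc).2) ?_ v ε (h 0) (h 1)
  rw [Set.disjoint_union_left, Set.disjoint_union_right, Set.disjoint_union_right]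
  exact ⟨⟨W_disj (by simp), W_disj (by simp)⟩, ⟨W_disj (by simp), W_disj (by simp)⟩⟩

/-- right multiplication by a bounded sequence preserves null sequences -/
lemma null_mul_right (U : Ultrafilter ℕ) (z u : ℕ → El (TN b)) (hu : Bdd (TN b) u)
    (hz : Tendsto (fun n => norm2 (TN b) (z n)) U (𝓝 0)) (i : Bool) :
    Tendsto (fun n => ‖((z n * u n : El (TN b)) : E →L[ℂ] E) (e0 b i)‖) U (𝓝 0) := by
  obtain ⟨C, hC⟩ := hu
  have hC' : ∀ n, ‖(star (u n : E →L[ℂ] E))‖ ≤ C := fun n => by rw [norm_star]; exact hC n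
  have h1 : ∀ n, norm2 (TN b) (z n * u n) ≤ C * (4 * norm2 (TN b) (z n)) := by
    intro n
    have e1 : norm2 (TN b) (z n * u n) = norm2 (TN b) (star (u n) * star (z n)) := by
      rw [← star_mul]
      exact (norm2_star b _ _ _).symm
    rw [e1]
    refine (norm2_le b _ _ _).trans ?_
    have e2 : ∀ i, ‖((star (u n) * star (z n) : El (TN b)) : E →L[ℂ] E) (e0 b i)‖ ≤
        C * (2 * norm2 (TN b) (z n)) := by
      intro i
      show ‖star (u n : E →L[ℂ] E) (((star (z n) : El (TN b)) : E →L[ℂ] E) (e0 b i))‖ ≤ _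
      refine (ContinuousLinearMap.le_opNorm _ _).trans ?_
      have e3 := norm2_ge b _ (fun _ h => h) (star (z n)) i
      have e4 : norm2 (TN b) (star (z n)) = norm2 (TN b) (z n) := norm2_star b _ _ _
      have e5 : ‖((star (z n) : El (TN b)) : E →L[ℂ] E) (e0 b i)‖ ≤ 2 * norm2 (TN b) (z n) := by
        rw [← e4]; exact e3
      exact mul_le_mul (hC' n) e5 (norm_nonneg _) ((norm_nonneg _).trans (hC' n))
    have := add_le_add (e2 false) (e2 true)
    linarith
  have h2 : Tendsto (fun n => 2 * (C * (4 * norm2 (TN b) (z n)))) U (𝓝 0) := by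
    have := ((hz.const_mul 4).const_mul C).const_mul 2
    simpa using this
  refine squeeze_zero (fun n => norm_nonneg _) (fun n => ?_) h2
  refine (norm2_ge b _ (fun _ h => h) (z n * u n) i).trans ?_
  have := h1 n
  have h3 : norm2 (mkT b (algN b) (fun _ h => h)) (z n * u n) = norm2 (TN b) (z n * u n) := rfl
  rw [h3]
  linarith

theorem not_conj (U : Ultrafilter ℕ) (u : ℕ → El (TN b)) (hu : IsUnitarySeq U (TN b) u)
    (h : ∀ x : El (TM b), UEq U (TN b) (u * (π1 b U).toFun x * star u) ((π2 b U).toFun x)) :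
    False := by
  obtain ⟨hb, h1, h2⟩ := hu
  have hb' := hb
  obtain ⟨C, hC⟩ := hb
  have hC0 : 0 ≤ C := (norm_nonneg _).trans (hC 0)
  -- u*u - 1 is small on e0
  have h1' := (ueq_iff b U _ _ _ _).mp h1
  -- intertwining
  have key : ∀ (x : El (TM b)), Tendsto (fun n =>
      ‖(u n : E →L[ℂ] E) (p1 b x (e0 b true)) - (x : E →L[ℂ] E) ((u n : E →L[ℂ] E) (e0 b true))‖)
      U (𝓝 0) := by
    intro x
    have hx := h x
    have hA := null_mul_right b U (fun n => (u * (π1 b U).toFun x * star u) n -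
      (π2 b U).toFun x n) u hb' hx true
    -- second part: u π1(x) (1 - u* u)
    have hB : Tendsto (fun n => (‖p1 b x‖ * C) *
        norm2 (TN b) ((star u * u) n - (1 : ℕ → El (TN b)) n)) U (𝓝 0) := by
      simpa using h1.const_mul (‖p1 b x‖ * C)
    have hBB : Tendsto (fun n => ‖(u n : E →L[ℂ] E) (p1 b x
        (((((star u * u) n - (1 : ℕ → El (TN b)) n) : El (TN b)) : E →L[ℂ] E)
          (e0 b true)))‖) U (𝓝 0) := by
      have h3 : Tendsto (fun n => (C * ‖p1 b x‖) * ‖((((star u * u) n -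
          (1 : ℕ → El (TN b)) n) : El (TN b)) : E →L[ℂ] E) (e0 b true)‖) U (𝓝 0) := by
        have := (h1' true).const_mul (C * ‖p1 b x‖)
        rwa [mul_zero] at this
      refine squeeze_zero (fun n => norm_nonneg _) (fun n => ?_) h3
      refine (ContinuousLinearMap.le_opNorm _ _).trans ?_
      have e1 := ContinuousLinearMap.le_opNorm (p1 b x) (((((star u * u) n -
          (1 : ℕ → El (TN b)) n) : El (TN b)) : E →L[ℂ] E) (e0 b true))
      rw [mul_assoc]
      exact mul_le_mul (hC n) e1 (norm_nonneg _) hC0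
    have hsum := hA.add hBB
    rw [add_zero] at hsum
    refine squeeze_zero (fun n => norm_nonneg _) (fun n => ?_) hsum
    have e : (u n : E →L[ℂ] E) (p1 b x (e0 b true)) -
        (x : E →L[ℂ] E) ((u n : E →L[ℂ] E) (e0 b true)) =
        (((((u * (π1 b U).toFun x * star u) n - (π2 b U).toFun x n) * u n : El (TN b))) :
          E →L[ℂ] E) (e0 b true) -
        (u n : E →L[ℂ] E) (p1 b x (((((star u * u) n - (1 : ℕ → El (TN b)) n) : El (TN b)) :
          E →L[ℂ] E) (e0 b true))) := by
      show _ = ((u n : E →L[ℂ] E) (p1 b x (star (u n : E →L[ℂ] E) ((u n : E →L[ℂ] E)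
        (e0 b true)))) - (x : E →L[ℂ] E) ((u n : E →L[ℂ] E) (e0 b true))) -
        (u n : E →L[ℂ] E) (p1 b x (star (u n : E →L[ℂ] E) ((u n : E →L[ℂ] E) (e0 b true)) -
          e0 b true))
      rw [map_sub, map_sub]
      abel
    rw [e]
    exact norm_sub_le _ _
  -- specialise to group elements
  have key2 : ∀ k : Fin 4, Tendsto (fun n =>
      ‖op b (R (θ (of k)) * Lm (of k)) ((u n : E →L[ℂ] E) (e0 b true)) -
        (u n : E →L[ℂ] E) (e0 b true)‖) U (𝓝 0) := by
    intro k
    have := key ⟨op b (Lm (of k)), Lm_mem b (of k)⟩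
    refine this.congr fun n => ?_
    have e1 : p1 b (op b (Lm (of k))) (e0 b true) = op b (R (θ (of k))⁻¹) (e0 b true) := by
      show P b false (op b (Lm (of k)) (e0 b true)) + P b true (tw b (op b (Lm (of k)))
        (e0 b true)) = _
      have e2 : tw b (op b (Lm (of k))) = op b (Lm (θ (of k))) := by
        rw [tw_op]
        congr 1
        rw [mul_inv_eq_iff_eq_mul, Th_Lm]
      rw [e2]
      unfold e0
      rw [op_basis, op_basis, op_basis, P_diff b false _ (by simp), P_same b true _ (by simp),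
        zero_add]
      congr 1
    have e3 : (u n : E →L[ℂ] E) (op b (R (θ (of k))⁻¹) (e0 b true)) =
        op b (R (θ (of k))⁻¹) ((u n : E →L[ℂ] E) (e0 b true)) := by
      have := congrArg (fun y => y (e0 b true)) ((mem_N b).mp (u n).2 (θ (of k))⁻¹)
      exact this.symm
    show ‖(u n : E →L[ℂ] E) (p1 b (op b (Lm (of k))) (e0 b true)) -
      op b (Lm (of k)) ((u n : E →L[ℂ] E) (e0 b true))‖ = _
    rw [e1, e3, ← op_norm b (R (θ (of k))), map_sub]
    have e4 : op b (R (θ (of k))) (op b (R (θ (of k))⁻¹) ((u n : E →L[ℂ] E) (e0 b true))) =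
        (u n : E →L[ℂ] E) (e0 b true) := by
      rw [← R_inv]; exact op_op_inv b _ _
    have e5 : op b (R (θ (of k))) (op b (Lm (of k)) ((u n : E →L[ℂ] E) (e0 b true))) =
        op b (R (θ (of k)) * Lm (of k)) ((u n : E →L[ℂ] E) (e0 b true)) := by
      rw [← op_mul]; rfl
    rw [e4, e5, norm_sub_rev]
  -- pick n
  have ev1 : ∀ᶠ n in (U : Filter ℕ), ∀ k : Fin 4,
      ‖op b (R (θ (of k)) * Lm (of k)) ((u n : E →L[ℂ] E) (e0 b true)) -
        (u n : E →L[ℂ] E) (e0 b true)‖ < 1 / 20 := by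
    rw [Filter.eventually_all]
    exact fun k => (key2 k).eventually_lt_const (by norm_num)
  have ev2 : ∀ᶠ n in (U : Filter ℕ), ‖((((star u * u) n - (1 : ℕ → El (TN b)) n) :
      El (TN b)) : E →L[ℂ] E) (e0 b true)‖ < 1 / 2 :=
    (h1' true).eventually_lt_const (by norm_num)
  obtain ⟨n, hn1, hn2⟩ := (ev1.and ev2).exists
  have hv := no_inv_vec b ((u n : E →L[ℂ] E) (e0 b true)) (1 / 20) (fun k => (hn1 k).le)
  have e6 : ⟪e0 b true, ((((star u * u) n - (1 : ℕ → El (TN b)) n) :
      El (TN b)) : E →L[ℂ] E) (e0 b true)⟫_ℂ =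
      ((‖(u n : E →L[ℂ] E) (e0 b true)‖ ^ 2 - 1 : ℝ) : ℂ) := by
    show ⟪e0 b true, (star (u n : E →L[ℂ] E) * (u n : E →L[ℂ] E)) (e0 b true) - e0 b true⟫_ℂ = _
    rw [inner_sub_right, inner_star_mul, inner_self_eq_norm_sq_to_K, norm_e0]
    push_cast
    simp
  have e7 : |‖(u n : E →L[ℂ] E) (e0 b true)‖ ^ 2 - 1| ≤ 1 / 2 := by
    have := norm_inner_le_norm (𝕜 := ℂ) (e0 b true) (((((star u * u) n -
      (1 : ℕ → El (TN b)) n) : El (TN b)) : E →L[ℂ] E) (e0 b true))
    rw [e6, norm_e0, one_mul, Complex.norm_real] at this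
    exact this.trans hn2.le
  have e8 := (abs_le.mp e7).1
  norm_num at hv
  linarith

end Pool.Agent.H6.UPE
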