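import Mathlib

/-! Tracial von Neumann algebras, tracial ultrapowers, ucp maps: the notions of the question. -/

namespace Pool.Agent.H6.UQDefs

open scoped InnerProductSpace
open Filter Topology

variable {H : Type} [NormedAddCommGroup H] [InnerProductSpace ℂ H] [CompleteSpace H]

/-- The positive functional `x ↦ ∑ ⟨ξ_k, x ξ_k⟩` on operators. -/
noncomputable def vecTr (ξ : ℕ → H) (x : H →L[ℂ] H) : ℂ := ∑' k, ⟪ξ k, x (ξ k)⟫_ℂ

/-- A von Neumann algebra on `H` with a faithful normal tracial state. A normal state is given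
by countably many vectors with square sum one, `τ x = ∑ ⟨ξ_k, x ξ_k⟩`. -/
structure TracialVN (H : Type) [NormedAddCommGroup H] [InnerProductSpace ℂ H]
    [CompleteSpace H] where
  alg : VonNeumannAlgebra H
  vec : ℕ → H
  hasSum_vec : HasSum (fun k => ‖vec k‖ ^ 2) 1
  tracial : ∀ x ∈ alg, ∀ y ∈ alg, vecTr vec (x * y) = vecTr vec (y * x)
  faithful : ∀ x ∈ alg, vecTr vec (star x * x) = 0 → x = 0

/-- The norm `‖x‖_2 = τ(x* x)^(1/2)`. -/
noncomputable def norm2 (T : TracialVN H) (x : H →L[ℂ] H) : ℝ :=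
  √ (vecTr T.vec (star x * x)).re

/-- A norm-bounded sequence in the algebra. -/
def Bdd (T : TracialVN H) (x : ℕ → H →L[ℂ] H) : Prop :=
  (∀ n, x n ∈ T.alg) ∧ ∃ C : ℝ, ∀ n, ‖x n‖ ≤ C

/-- Two sequences define the same element of the tracial ultrapower. -/
def UEq (U : Ultrafilter ℕ) (T : TracialVN H) (x y : ℕ → H →L[ℂ] H) : Prop :=
  Tendsto (fun n => norm2 T (x n - y n)) U (𝓝 0)

/-- II_1 factor: trivial centre and infinite dimension (a faithful normal tracial state is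
part of the data). -/
def IsII1Factor (T : TracialVN H) : Prop :=
  (∀ z ∈ T.alg, (∀ x ∈ T.alg, z * x = x * z) → ∃ c : ℂ, z = c • 1) ∧
  ∀ m : ℕ, ∃ f : Fin m → H →L[ℂ] H, (∀ i, f i ∈ T.alg) ∧
    ∀ c : Fin m → ℂ, ∑ i, c i • f i = 0 → ∀ i, c i = 0

/-- An embedding of `M` into the ultrapower of `N`: `π x` is a representing sequence of the
image of `x` in `M`; a unital *-homomorphism preserving the trace and the 2-norm (hence
injective and normal). -/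
structure IsEmb (U : Ultrafilter ℕ) (M N : TracialVN H)
    (π : (H →L[ℂ] H) → ℕ → H →L[ℂ] H) : Prop where
  bdd : ∀ x ∈ M.alg, Bdd N (π x)
  map_one : UEq U N (π 1) (fun _ => 1)
  map_add : ∀ x ∈ M.alg, ∀ y ∈ M.alg, UEq U N (π (x + y)) (fun n => π x n + π y n)
  map_smul : ∀ c : ℂ, ∀ x ∈ M.alg, UEq U N (π (c • x)) (fun n => c • π x n)
  map_mul : ∀ x ∈ M.alg, ∀ y ∈ M.alg, UEq U N (π (x * y)) (fun n => π x n * π y n)
  map_star : ∀ x ∈ M.alg, UEq U N (π (star x)) (fun n => star (π x n))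
  map_tr : ∀ x ∈ M.alg, Tendsto (fun n => vecTr N.vec (π x n)) U (𝓝 (vecTr M.vec x))
  map_norm2 : ∀ x ∈ M.alg, Tendsto (fun n => norm2 N (π x n)) U (𝓝 (norm2 M x))

/-- Unital completely positive maps of the algebra (all the operator matrices `[φ(x_i* x_j)]`
are positive). -/
structure IsUCP (T : TracialVN H) (φ : (H →L[ℂ] H) → H →L[ℂ] H) : Prop where
  mem : ∀ x ∈ T.alg, φ x ∈ T.alg
  add : ∀ x ∈ T.alg, ∀ y ∈ T.alg, φ (x + y) = φ x + φ y
  smul : ∀ c : ℂ, ∀ x ∈ T.alg, φ (c • x) = c • φ x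
  unital : φ 1 = 1
  cp : ∀ (m : ℕ) (x : Fin m → H →L[ℂ] H) (v : Fin m → H), (∀ i, x i ∈ T.alg) →
    ∃ r : ℝ, 0 ≤ r ∧ ∑ i, ∑ j, ⟪v i, φ (star (x i) * x j) (v j)⟫_ℂ = (r : ℂ)

/-- The ultraproduct of the maps `φ n` is well defined on the ultrapower. -/
def WellDef (U : Ultrafilter ℕ) (T : TracialVN H) (φ : ℕ → (H →L[ℂ] H) → H →L[ℂ] H) : Prop :=
  (∀ x, Bdd T x → Bdd T (fun n => φ n (x n))) ∧
  ∀ x y, Bdd T x → Bdd T y → UEq U T x y →
    UEq U T (fun n => φ n (x n)) (fun n => φ n (y n))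

/-- `u` represents a unitary of the ultrapower. -/
def IsUnitarySeq (U : Ultrafilter ℕ) (T : TracialVN H) (u : ℕ → H →L[ℂ] H) : Prop :=
  Bdd T u ∧ UEq U T (fun n => star (u n) * u n) (fun _ => 1) ∧
    UEq U T (fun n => u n * star (u n)) (fun _ => 1)

/-- Unitary conjugacy of the embeddings `π₁` and `π₂` in the ultrapower. -/
def UnitarilyConj (U : Ultrafilter ℕ) (M N : TracialVN H)
    (π₁ π₂ : (H →L[ℂ] H) → ℕ → H →L[ℂ] H) : Prop :=
  ∃ u : ℕ → H →L[ℂ] H, IsUnitarySeq U N u ∧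
    ∀ x ∈ M.alg, UEq U N (fun n => u n * π₁ x n * star (u n)) (π₂ x)

/-- The ultraproduct of `φ` is a well defined map of `N^U` with `Φ ∘ π₁ = π₂`, all `φ n` being
ucp. -/
def UcpConj (U : Ultrafilter ℕ) (M N : TracialVN H)
    (π₁ π₂ : (H →L[ℂ] H) → ℕ → H →L[ℂ] H) : Prop :=
  ∃ φ : ℕ → (H →L[ℂ] H) → H →L[ℂ] H, (∀ n, IsUCP N (φ n)) ∧ WellDef U N φ ∧
    ∀ x ∈ M.alg, UEq U N (fun n => φ n (π₁ x n)) (π₂ x)

/-- `M` and `N` carry a counterexample for the ultrafilter `U`. -/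
def Counter (U : Ultrafilter ℕ) (M N : TracialVN H) : Prop :=
  ∃ π₁ π₂ : (H →L[ℂ] H) → ℕ → H →L[ℂ] H, IsEmb U M N π₁ ∧ IsEmb U M N π₂ ∧
    UcpConj U M N π₁ π₂ ∧ ¬ UnitarilyConj U M N π₁ π₂

end Pool.Agent.H6.UQDefs
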