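import Mathlib
import Pool.Agent.H6.UPE
import Pool.Agent.H6.UQDefs

namespace Pool.Agent.H6.UPF

open scoped InnerProductSpace
open Filter Topology
open Pool.Agent.H6.UPA Pool.Agent.H6.UPB Pool.Agent.H6.UPC Pool.Agent.H6.UPD

variable {H : Type} [NormedAddCommGroup H] [InnerProductSpace ℂ H] [CompleteSpace H]

/-- conversion -/
noncomputable def cv (T : UPDefs.TracialVN H) : UQDefs.TracialVN H where
  alg := T.alg
  vec := T.vec
  hasSum_vec := by
    have := T.summable_vec.hasSum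
    rwa [T.unit_vec] at this
  tracial := T.tracial
  faithful := T.faithful

lemma norm2_cv (T : UPDefs.TracialVN H) (x : UPDefs.El T) :
    UQDefs.norm2 (cv T) (x : H →L[ℂ] H) = UPDefs.norm2 T x := rfl

/-- extension of a function on elements to operators -/
noncomputable def ext {M : UPDefs.TracialVN H} {β : Type} (z : β) (f : UPDefs.El M → β) :
    (H →L[ℂ] H) → β := by
  classical
  exact fun x => if h : x ∈ M.alg then f ⟨x, h⟩ else z

lemma ext_mem {M : UPDefs.TracialVN H} {β : Type} (z : β) (f : UPDefs.El M → β)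
    {x : H →L[ℂ] H} (h : x ∈ M.alg) : ext z f x = f ⟨x, h⟩ := by
  unfold ext
  rw [dif_pos h]

lemma emb {U : Ultrafilter ℕ} {M N : UPDefs.TracialVN H} (π : UPDefs.Emb U M N) :
    UQDefs.IsEmb U (cv M) (cv N)
      (ext (M := M) (fun _ => 0) (fun x n => (π.toFun x n : H →L[ℂ] H))) where
  bdd := by
    intro x hx
    rw [ext_mem _ _ hx]
    exact ⟨fun n => (π.toFun ⟨x, hx⟩ n).2, π.bdd ⟨x, hx⟩⟩
  map_one := by
    rw [ext_mem _ _ (one_mem M.alg)]
    exact π.map_one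
  map_add := by
    intro x hx y hy
    rw [ext_mem _ _ hx, ext_mem _ _ hy, ext_mem _ _ (add_mem hx hy)]
    exact π.map_add ⟨x, hx⟩ ⟨y, hy⟩
  map_smul := by
    intro c x hx
    have h : c • x ∈ M.alg := M.alg.toStarSubalgebra.smul_mem hx c
    rw [ext_mem _ _ hx, ext_mem _ _ h]
    exact π.map_smul c ⟨x, hx⟩
  map_mul := by
    intro x hx y hy
    rw [ext_mem _ _ hx, ext_mem _ _ hy, ext_mem _ _ (mul_mem hx hy)]
    exact π.map_mul ⟨x, hx⟩ ⟨y, hy⟩
  map_star := by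
    intro x hx
    rw [ext_mem _ _ hx, ext_mem _ _ (star_mem hx)]
    exact π.map_star ⟨x, hx⟩
  map_tr := by
    intro x hx
    rw [ext_mem _ _ hx]
    exact π.map_tr ⟨x, hx⟩
  map_norm2 := by
    intro x hx
    rw [ext_mem _ _ hx]
    exact π.map_norm2 ⟨x, hx⟩

lemma ucp {T : UPDefs.TracialVN H} (φ : UPDefs.El T →ₗ[ℂ] UPDefs.El T) (h : UPDefs.IsUCP T φ) :
    UQDefs.IsUCP (cv T) (ext (M := T) 0 (fun x => (φ x : H →L[ℂ] H))) where
  mem := by
    intro x hx
    rw [ext_mem _ _ hx]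
    exact (φ ⟨x, hx⟩).2
  add := by
    intro x hx y hy
    rw [ext_mem _ _ hx, ext_mem _ _ hy, ext_mem _ _ (add_mem hx hy)]
    exact congrArg Subtype.val (φ.map_add ⟨x, hx⟩ ⟨y, hy⟩)
  smul := by
    intro c x hx
    have h : c • x ∈ T.alg := T.alg.toStarSubalgebra.smul_mem hx c
    rw [ext_mem _ _ hx, ext_mem _ _ h]
    exact congrArg Subtype.val (φ.map_smul c ⟨x, hx⟩)
  unital := by
    rw [ext_mem _ _ (one_mem T.alg)]
    exact congrArg Subtype.val h.unital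
  cp := by
    intro m x v hx
    obtain ⟨r, hr, e⟩ := h.cp m (fun i => ⟨x i, hx i⟩) v
    refine ⟨r, hr, ?_⟩
    rw [← e]
    refine Finset.sum_congr rfl fun i _ => Finset.sum_congr rfl fun j _ => ?_
    rw [ext_mem _ _ (mul_mem (star_mem (hx i)) (hx j))]
    rfl

lemma wd {U : Ultrafilter ℕ} {T : UPDefs.TracialVN H} (φ : UPDefs.El T →ₗ[ℂ] UPDefs.El T)
    (h : UPDefs.WellDef U T (fun _ => φ)) :
    UQDefs.WellDef U (cv T) (fun _ => ext (M := T) 0 (fun x => (φ x : H →L[ℂ] H))) := by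
  have e : ∀ (x : ℕ → H →L[ℂ] H) (hx : ∀ n, x n ∈ T.alg),
      (fun n => ext (M := T) 0 (fun x => (φ x : H →L[ℂ] H)) (x n)) =
      fun n => (φ ⟨x n, hx n⟩ : H →L[ℂ] H) := by
    intro x hx
    funext n
    rw [ext_mem _ _ (hx n)]
  constructor
  · intro x hx
    rw [e x hx.1]
    exact ⟨fun n => (φ ⟨x n, hx.1 n⟩).2, h.1 (fun n => ⟨x n, hx.1 n⟩) hx.2⟩
  · intro x y hx hy hxy
    show UQDefs.UEq U (cv T) (fun n => ext (M := T) 0 (fun x => (φ x : H →L[ℂ] H)) (x n))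
      (fun n => ext (M := T) 0 (fun x => (φ x : H →L[ℂ] H)) (y n))
    rw [e x hx.1, e y hy.1]
    exact h.2 (fun n => ⟨x n, hx.1 n⟩) (fun n => ⟨y n, hy.1 n⟩) hx.2 hy.2 hxy

end Pool.Agent.H6.UPF
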