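import Mathlib
import Pool.Agent.H6.UQDefs
import Pool.Agent.H6.UPF

namespace Pool.Agent.H6.UPG

open Pool.Agent.H6.UQDefs

/-- The answer to the question is no, with both algebras II_1 factors on a separable space. -/
theorem main :
    ∃ (H : Type) (_ : NormedAddCommGroup H) (_ : InnerProductSpace ℂ H) (_ : CompleteSpace H)
      (M N : TracialVN H),
      TopologicalSpace.SeparableSpace H ∧ IsII1Factor M ∧ IsII1Factor N ∧
      ∀ U : Ultrafilter ℕ, Counter U M N := by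
  let E := lp (fun _ : Pool.Agent.H6.UPB.X => ℂ) 2
  let b : HilbertBasis Pool.Agent.H6.UPB.X ℂ E :=
    HilbertBasis.ofRepr (LinearIsometryEquiv.refl ℂ E)
  have hfac : ∀ (A : VonNeumannAlgebra E) (hA : ∀ x ∈ A, x ∈ Pool.Agent.H6.UPB.algN b)
      (hL : ∀ h, Pool.Agent.H6.UPA.op b (Pool.Agent.H6.UPB.Lm h) ∈ A)
      (hP : ∀ z ∈ A, (∀ x ∈ A, z * x = x * z) →
        Pool.Agent.H6.UPB.P b false * z = z * Pool.Agent.H6.UPB.P b false ∧
        Pool.Agent.H6.UPA.op b Pool.Agent.H6.UPB.Sw * z =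
          z * Pool.Agent.H6.UPA.op b Pool.Agent.H6.UPB.Sw),
      IsII1Factor (Pool.Agent.H6.UPF.cv (Pool.Agent.H6.UPC.mkT b A hA)) := by
    intro A hA hL hP
    refine ⟨?_, ?_⟩
    · intro z hz hzc
      exact Pool.Agent.H6.UPC.central b (hA z hz) (hP z hz hzc).1 (hP z hz hzc).2
        (fun h => (hzc _ (hL h)).symm)
    · intro m
      obtain ⟨g, hg⟩ : ∃ g : ℕ → Pool.Agent.H6.UPB.G, Function.Injective g :=
        ⟨Infinite.natEmbedding _, (Infinite.natEmbedding _).injective⟩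
      refine ⟨fun i => Pool.Agent.H6.UPA.op b (Pool.Agent.H6.UPB.Lm (g i)),
        fun i => hL _, ?_⟩
      intro c hc i
      have hli : LinearIndependent ℂ (fun i : Fin m => b ((g i, false) :
          Pool.Agent.H6.UPB.X)) :=
        b.orthonormal.linearIndependent.comp
          (fun i : Fin m => ((g i, false) : Pool.Agent.H6.UPB.X))
          (fun i j hij => Fin.ext (hg (congrArg Prod.fst hij)))
      rw [Fintype.linearIndependent_iff] at hli
      refine hli c ?_ i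
      have h2 := congrArg (fun y => y (Pool.Agent.H6.UPB.e0 b false)) hc
      simp only [ContinuousLinearMap.zero_apply] at h2
      rw [← h2, ContinuousLinearMap.sum_apply]
      refine Finset.sum_congr rfl fun i _ => ?_
      show c i • b ((g i, false) : Pool.Agent.H6.UPB.X) =
        c i • Pool.Agent.H6.UPA.op b (Pool.Agent.H6.UPB.Lm (g i)) (Pool.Agent.H6.UPB.e0 b false)
      unfold Pool.Agent.H6.UPB.e0
      rw [Pool.Agent.H6.UPA.op_basis]
      congr 2
      simp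
  refine ⟨E, inferInstance, inferInstance, inferInstance,
    Pool.Agent.H6.UPF.cv (Pool.Agent.H6.UPD.TM b),
    Pool.Agent.H6.UPF.cv (Pool.Agent.H6.UPD.TN b), ?_, ?_, ?_, ?_⟩
  · have h1 : (Set.range b).Countable := Set.countable_range b
    have h2 : TopologicalSpace.IsSeparable
        (Submodule.span ℂ (Set.range b) : Set E) := h1.isSeparable.span
    have h3 := h2.closure
    have h4 : closure (Submodule.span ℂ (Set.range b) : Set E) = Set.univ := by
      have := b.dense_span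
      rw [← Submodule.topologicalClosure_coe, this]
      rfl
    rw [h4] at h3
    exact TopologicalSpace.isSeparable_univ_iff.mp h3
  · refine hfac _ _ (fun h => Pool.Agent.H6.UPC.Lm_mem b h) ?_
    intro z hz _
    have hzM := (Pool.Agent.H6.UPB.mem_M b).mp hz
    exact hzM.2
  · refine hfac _ _ (fun h => Pool.Agent.H6.UPB.M_le_N b (Pool.Agent.H6.UPC.Lm_mem b h)) ?_
    intro z _ hzc
    exact ⟨(hzc _ (Pool.Agent.H6.UPC.P_mem b false)).symm,
      (hzc _ (Pool.Agent.H6.UPC.Sw_mem b)).symm⟩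
  · intro U
    refine ⟨_, _, Pool.Agent.H6.UPF.emb (Pool.Agent.H6.UPD.π1 b U),
      Pool.Agent.H6.UPF.emb (Pool.Agent.H6.UPD.π2 b U),
      ⟨_, fun _ => Pool.Agent.H6.UPF.ucp _ (Pool.Agent.H6.UPD.ucp b),
      Pool.Agent.H6.UPF.wd _ (Pool.Agent.H6.UPE.wellDef b U), ?_⟩, ?_⟩
    · intro x hx
      have h1 := Pool.Agent.H6.UPE.phi_pi b U ⟨x, hx⟩
      have hx' : x ∈ (Pool.Agent.H6.UPD.TM b).alg := hx
      rw [Pool.Agent.H6.UPF.ext_mem (M := Pool.Agent.H6.UPD.TM b) _ _ hx',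
        Pool.Agent.H6.UPF.ext_mem (M := Pool.Agent.H6.UPD.TM b) _ _ hx']
      have e : ∀ n, Pool.Agent.H6.UPF.ext (M := Pool.Agent.H6.UPD.TN b) 0
          (fun x => (Pool.Agent.H6.UPD.φ b x : E →L[ℂ] E))
          (((Pool.Agent.H6.UPD.π1 b U).toFun ⟨x, hx⟩ n : Pool.Agent.H6.UPDefs.El
            (Pool.Agent.H6.UPD.TN b)) : E →L[ℂ] E) =
          (Pool.Agent.H6.UPD.φ b ((Pool.Agent.H6.UPD.π1 b U).toFun ⟨x, hx⟩ n) :
            E →L[ℂ] E) := by
        intro n
        rw [Pool.Agent.H6.UPF.ext_mem _ _ ((Pool.Agent.H6.UPD.π1 b U).toFun ⟨x, hx⟩ n).2]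
      simp only [e]
      exact h1
    · rintro ⟨u, hu, h⟩
      refine Pool.Agent.H6.UPE.not_conj b U (fun n => ⟨u n, hu.1.1 n⟩)
        ⟨hu.1.2, hu.2.1, hu.2.2⟩ ?_
      intro x
      have hx := h x.1 x.2
      have hx' : x.1 ∈ (Pool.Agent.H6.UPD.TM b).alg := x.2
      rw [Pool.Agent.H6.UPF.ext_mem (M := Pool.Agent.H6.UPD.TM b) _ _ hx',
        Pool.Agent.H6.UPF.ext_mem (M := Pool.Agent.H6.UPD.TM b) _ _ hx'] at hx
      exact hx

end Pool.Agent.H6.UPG
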