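import Mathlib
import Pool.Agent.H6.SA5

set_option autoImplicit false

namespace Pool.Agent.H6.WC

open Complex Metric Filter Topology ComplexConjugate Set
open Pool.Agent.H6.NS Pool.Agent.H6.SAT

/-! ### Wolff's lemma -/

lemma scale_strict {r : ℝ} (h0 : 0 < r) (h1 : r < 1) {a b : ℂ} (ha : ‖a‖ < 1) (hb : ‖b‖ < 1) (hab : a ≠ b) :
    ‖(r : ℂ) * a - r * b‖ ^ 2 * ‖1 - conj b * a‖ ^ 2 < ‖a - b‖ ^ 2 * ‖1 - conj ((r : ℂ) * b) * (r * a)‖ ^ 2 := by
  have e1 : (r : ℂ) * a - r * b = r * (a - b) := by ring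
  have e2 : conj ((r : ℂ) * b) * (r * a) = ((r ^ 2 : ℝ) : ℂ) * (conj b * a) := by
    rw [map_mul, Complex.conj_ofReal]; push_cast; ring
  rw [e1, e2, norm_mul, Complex.norm_real, Real.norm_of_nonneg h0.le, mul_pow]
  obtain ⟨t, ht⟩ : ∃ t, t = conj b * a := ⟨_, rfl⟩
  rw [← ht]
  have htn : ‖t‖ < 1 := by
    rw [ht, norm_mul, RCLike.norm_conj]
    nlinarith [norm_nonneg a, norm_nonneg b]
  have hpos : 0 < ‖a - b‖ ^ 2 := by
    have := norm_pos_iff.2 (sub_ne_zero.2 hab)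
    positivity
  have key : r ^ 2 * ‖1 - t‖ ^ 2 < ‖1 - ((r ^ 2 : ℝ) : ℂ) * t‖ ^ 2 := by
    have hs : t.re ^ 2 + t.im ^ 2 < 1 := by
      have := Complex.sq_norm t
      rw [Complex.normSq_apply] at this
      nlinarith [norm_nonneg t]
    rw [Complex.sq_norm, Complex.sq_norm, Complex.normSq_apply, Complex.normSq_apply]
    simp only [sub_re, sub_im, one_re, one_im, Complex.re_ofReal_mul, Complex.im_ofReal_mul]
    have hr2 : r ^ 2 < 1 := by nlinarith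
    have h3 : 0 < (1 - r ^ 2) * (1 - r ^ 2 * (t.re ^ 2 + t.im ^ 2)) := by
      apply mul_pos (by linarith)
      have : r ^ 2 * (t.re ^ 2 + t.im ^ 2) ≤ 1 * (t.re ^ 2 + t.im ^ 2) :=
        mul_le_mul_of_nonneg_right hr2.le (by positivity)
      linarith
    nlinarith
  nlinarith

section

variable {φ : ℂ → ℂ} (hd : DifferentiableOn ℂ φ (ball 0 1))
  (hm : Set.MapsTo φ (ball 0 1) (ball 0 1))

include hd hm in
lemma sp_dist {z w : ℂ} (hz : ‖z‖ < 1) (hw : ‖w‖ < 1) :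
    ‖φ z - φ w‖ ^ 2 * ‖1 - conj w * z‖ ^ 2 ≤ ‖z - w‖ ^ 2 * ‖1 - conj (φ w) * φ z‖ ^ 2 := by
  have h := schwarzPick hd hm hz hw
  have e1 := moebius_identity z w
  have e2 := moebius_identity (φ z) (φ w)
  rw [← e1] at h
  rw [← e2] at h
  nlinarith

include hd hm in
lemma fix_r {r : ℝ} (h0 : 0 < r) (h1 : r < 1) : ∃ z : ℂ, ‖z‖ ≤ r ∧ (r : ℂ) * φ z = z := by
  obtain ⟨g, hg⟩ : ∃ g : ℂ → ℂ, g = fun z => (r : ℂ) * φ z := ⟨_, rfl⟩
  have hgr : ∀ z, ‖z‖ < 1 → ‖g z‖ ≤ r := by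
    intro z hz
    rw [hg]
    simp only
    rw [norm_mul, Complex.norm_real, Real.norm_of_nonneg h0.le]
    exact mul_le_of_le_one_right h0.le (phi_lt hm hz).le
  have hsub : closedBall (0 : ℂ) r ⊆ ball 0 1 := closedBall_subset_ball h1
  have hgc : ContinuousOn g (closedBall 0 r) := by
    rw [hg]
    exact continuousOn_const.mul (hd.continuousOn.mono hsub)
  obtain ⟨P, hP⟩ : ∃ P : ℂ → ℝ, P = fun z => ‖z - g z‖ ^ 2 / ‖1 - conj (g z) * z‖ ^ 2 := ⟨_, rfl⟩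
  have hne : ∀ z ∈ closedBall (0 : ℂ) r, 1 - conj (g z) * z ≠ 0 := by
    intro z hz
    have hz1 : ‖z‖ < 1 := lt_of_le_of_lt (mem_closedBall_zero_iff.1 hz) h1
    exact one_sub_ne hz1 (lt_of_le_of_lt (hgr z hz1) h1)
  have hPc : ContinuousOn P (closedBall 0 r) := by
    rw [hP]
    apply ContinuousOn.div
    · exact ((continuousOn_id.sub hgc).norm).pow 2
    · exact ((continuousOn_const.sub ((Complex.continuous_conj.comp_continuousOn hgc).mul continuousOn_id)).norm).pow 2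
    · intro z hz
      have := norm_pos_iff.2 (hne z hz)
      positivity
  obtain ⟨z, hz, hmin⟩ := (isCompact_closedBall (0 : ℂ) r).exists_isMinOn
    ⟨0, mem_closedBall_self h0.le⟩ hPc
  have hzr : ‖z‖ ≤ r := mem_closedBall_zero_iff.1 hz
  have hz1 : ‖z‖ < 1 := by linarith
  refine ⟨z, hzr, ?_⟩
  by_contra hcon
  obtain ⟨w, hw⟩ : ∃ w, w = g z := ⟨_, rfl⟩
  have hwr : ‖w‖ ≤ r := by rw [hw]; exact hgr z hz1
  have hw1 : ‖w‖ < 1 := by linarith
  have hzw : z ≠ w := by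
    intro h
    apply hcon
    rw [hw, hg] at h
    exact h.symm
  have hle := hmin (mem_closedBall_zero_iff.2 hwr)
  have hlt : P w < P z := by
    rw [hP]
    simp only
    rw [← hw]
    have hp1 : 0 < ‖1 - conj (g w) * w‖ ^ 2 := by
      have := norm_pos_iff.2 (hne w (mem_closedBall_zero_iff.2 hwr)); positivity
    have hp2 : 0 < ‖1 - conj w * z‖ ^ 2 := by
      have := norm_pos_iff.2 (one_sub_ne hz1 hw1); positivity
    rw [div_lt_div_iff₀ hp1 hp2]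
    -- ‖w - g w‖² ‖1 - conj w z‖² < ‖z - w‖² ‖1 - conj (g w) w‖²
    have hzw0 : 0 < ‖z - w‖ ^ 2 := by
      have := norm_pos_iff.2 (sub_ne_zero.2 hzw); positivity
    have hsp := sp_dist hd hm hz1 hw1
    by_cases hφ : φ z = φ w
    · have : w - g w = 0 := by
        have : w = g w := by
          conv_lhs => rw [hw]
          rw [hg]
          simp only
          rw [hφ]
        exact sub_eq_zero.2 this
      rw [this, norm_zero]
      have := mul_pos hzw0 hp1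
      simpa using this
    · have hs := scale_strict h0 h1 (phi_lt hm hz1) (phi_lt hm hw1) hφ
      have hwg : w = (r : ℂ) * φ z := by rw [hw, hg]
      have hgw : g w = (r : ℂ) * φ w := by rw [hg]
      rw [hgw]
      conv_lhs => rw [show ‖w - (r : ℂ) * φ w‖ = ‖(r : ℂ) * φ z - r * φ w‖ by rw [← hwg]]
      conv_rhs => rw [show ‖1 - conj ((r : ℂ) * φ w) * w‖ = ‖1 - conj ((r : ℂ) * φ w) * (r * φ z)‖ by rw [← hwg]]
      have hp3 : 0 < ‖1 - conj (φ w) * φ z‖ ^ 2 := by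
        have := norm_pos_iff.2 (one_sub_ne (phi_lt hm hz1) (phi_lt hm hw1)); positivity
      obtain ⟨A, hA⟩ : ∃ A, A = ‖(r : ℂ) * φ z - r * φ w‖ ^ 2 := ⟨_, rfl⟩
      obtain ⟨B, hB⟩ : ∃ B, B = ‖1 - conj ((r : ℂ) * φ w) * (r * φ z)‖ ^ 2 := ⟨_, rfl⟩
      obtain ⟨C, hC⟩ : ∃ C, C = ‖1 - conj (φ w) * φ z‖ ^ 2 := ⟨_, rfl⟩
      obtain ⟨D, hD⟩ : ∃ D, D = ‖φ z - φ w‖ ^ 2 := ⟨_, rfl⟩
      obtain ⟨F, hF⟩ : ∃ F, F = ‖1 - conj w * z‖ ^ 2 := ⟨_, rfl⟩
      obtain ⟨G, hG⟩ : ∃ G, G = ‖z - w‖ ^ 2 := ⟨_, rfl⟩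
      rw [← hA, ← hB, ← hC, ← hD] at hs
      rw [← hC, ← hD, ← hF, ← hG] at hsp
      rw [← hC] at hp3
      rw [← hF] at hp2
      rw [← hA, ← hB, ← hF, ← hG]
      have hBnn : 0 ≤ B := by rw [hB]; positivity
      -- A C < D B, D F ≤ G C
      have h5 : (A * F) * C < (G * B) * C := by
        calc (A * F) * C = (A * C) * F := by ring
          _ < (D * B) * F := mul_lt_mul_of_pos_right hs hp2
          _ = (D * F) * B := by ring
          _ ≤ (G * C) * B := mul_le_mul_of_nonneg_right hsp hBnn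
          _ = (G * B) * C := by ring
      exact lt_of_mul_lt_mul_right h5 hp3.le
  exact absurd hle (not_le.2 hlt)

include hd hm in
/-- Wolff's lemma -/
theorem wolff (hfix : ∀ p ∈ ball (0 : ℂ) 1, φ p ≠ p) : ∃ ω : ℂ, ‖ω‖ = 1 ∧ Julia φ ω ω 1 := by
  have hr : ∀ n : ℕ, (0 : ℝ) < 1 - 1 / ((n : ℝ) + 2) ∧ 1 - 1 / ((n : ℝ) + 2) < 1 := by
    intro n
    have h2 : (0 : ℝ) < (n : ℝ) + 2 := by positivity
    have h3 : 1 / ((n : ℝ) + 2) < 1 := by rw [div_lt_one h2]; linarith [(Nat.cast_nonneg n : (0 : ℝ) ≤ n)]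
    have h4 : 0 < 1 / ((n : ℝ) + 2) := by positivity
    constructor <;> linarith
  have hz := fun n : ℕ => fix_r hd hm (hr n).1 (hr n).2
  choose z hzr hzf using hz
  have hz1 : ∀ n, ‖z n‖ < 1 := fun n => lt_of_le_of_lt (hzr n) (hr n).2
  obtain ⟨ω, hω, ν, hν, hlim⟩ := (isCompact_closedBall (0 : ℂ) 1).tendsto_subseq
    (fun n => mem_closedBall_zero_iff.2 (hz1 n).le)
  have hrlim : Tendsto (fun n : ℕ => 1 - 1 / ((n : ℝ) + 2)) atTop (𝓝 1) := by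
    have h1 : Tendsto (fun n : ℕ => 1 / (((n + 1 : ℕ) : ℝ) + 1)) atTop (𝓝 0) :=
      (tendsto_one_div_add_atTop_nhds_zero_nat (𝕜 := ℝ)).comp (tendsto_add_atTop_nat 1)
    have h2 := h1.const_sub 1
    rw [sub_zero] at h2
    refine h2.congr (fun n => ?_)
    push_cast
    ring
  have hφlim : Tendsto (fun n => φ (z (ν n))) atTop (𝓝 ω) := by
    have h1 : Tendsto (fun n => (((1 - 1 / (((ν n : ℕ) : ℝ) + 2))⁻¹ : ℝ) : ℂ) * z (ν n)) atTop
        (𝓝 (((1⁻¹ : ℝ) : ℂ) * ω)) := by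
      apply Tendsto.mul _ hlim
      apply (Complex.continuous_ofReal.tendsto _).comp
      exact (hrlim.comp hν.tendsto_atTop).inv₀ one_ne_zero
    have e : ((1⁻¹ : ℝ) : ℂ) * ω = ω := by simp
    rw [e] at h1
    refine h1.congr (fun n => ?_)
    have h2 := hzf (ν n)
    have h3 : (((1 - 1 / (((ν n : ℕ) : ℝ) + 2)) : ℝ) : ℂ) ≠ 0 := by
      exact_mod_cast (hr (ν n)).1.ne'
    conv_lhs => rw [← h2]
    rw [Complex.ofReal_inv, ← mul_assoc, inv_mul_cancel₀ h3, one_mul]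
  have hω1 : ‖ω‖ = 1 := by
    by_contra hne
    have hlt : ‖ω‖ < 1 := lt_of_le_of_ne (mem_closedBall_zero_iff.1 hω) hne
    have hc : ContinuousAt φ ω := hd.continuousOn.continuousAt (isOpen_ball.mem_nhds (mem_ball_zero_iff.2 hlt))
    have h1 : Tendsto (fun n => φ (z (ν n))) atTop (𝓝 (φ ω)) := hc.tendsto.comp hlim
    exact hfix ω (mem_ball_zero_iff.2 hlt) (tendsto_nhds_unique h1 hφlim)
  refine ⟨ω, hω1, ?_⟩
  intro x hx
  have hL : Tendsto (fun n => ‖1 - conj (φ (z (ν n))) * φ x‖ ^ 2 * (1 - ‖x‖ ^ 2)) atTop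
      (𝓝 (‖1 - conj ω * φ x‖ ^ 2 * (1 - ‖x‖ ^ 2))) := by
    have h1 : Tendsto (fun n => conj (φ (z (ν n)))) atTop (𝓝 (conj ω)) :=
      (Complex.continuous_conj.tendsto ω).comp hφlim
    exact (((h1.mul_const (φ x)).const_sub 1).norm.pow 2).mul_const _
  have hR : Tendsto (fun n => 1 * (1 - ‖φ x‖ ^ 2) * ‖1 - conj (z (ν n)) * x‖ ^ 2) atTop
      (𝓝 (1 * (1 - ‖φ x‖ ^ 2) * ‖1 - conj ω * x‖ ^ 2)) := by
    have h1 : Tendsto (fun n => conj (z (ν n))) atTop (𝓝 (conj ω)) :=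
      (Complex.continuous_conj.tendsto ω).comp hlim
    exact (((h1.mul_const x).const_sub 1).norm.pow 2).const_mul _
  refine le_of_tendsto_of_tendsto' hL hR (fun n => ?_)
  obtain ⟨w, hw⟩ : ∃ w, w = z (ν n) := ⟨_, rfl⟩
  rw [← hw]
  have hw1 : ‖w‖ < 1 := by rw [hw]; exact hz1 _
  have hwφ : ‖w‖ ≤ ‖φ w‖ := by
    have h2 := congrArg norm (hzf (ν n))
    rw [← hw, norm_mul, Complex.norm_real, Real.norm_of_nonneg (hr (ν n)).1.le] at h2
    rw [← h2]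
    exact mul_le_of_le_one_left (norm_nonneg _) (hr (ν n)).2.le
  have hsp := schwarzPick hd hm hx hw1
  have hw3 : 0 < 1 - ‖w‖ ^ 2 := by nlinarith [norm_nonneg w]
  have hw4 : 1 - ‖φ w‖ ^ 2 ≤ 1 - ‖w‖ ^ 2 := by nlinarith [norm_nonneg w, norm_nonneg (φ w)]
  have hφx : ‖φ x‖ < 1 := phi_lt hm hx
  have h7 : 0 ≤ (1 - ‖φ x‖ ^ 2) * ‖1 - conj w * x‖ ^ 2 := by
    apply mul_nonneg _ (by positivity)
    nlinarith [norm_nonneg (φ x)]
  have h8 : (‖1 - conj (φ w) * φ x‖ ^ 2 * (1 - ‖x‖ ^ 2)) * (1 - ‖w‖ ^ 2) ≤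
      (1 * (1 - ‖φ x‖ ^ 2) * ‖1 - conj w * x‖ ^ 2) * (1 - ‖w‖ ^ 2) := by
    calc (‖1 - conj (φ w) * φ x‖ ^ 2 * (1 - ‖x‖ ^ 2)) * (1 - ‖w‖ ^ 2) =
          ‖1 - conj (φ w) * φ x‖ ^ 2 * ((1 - ‖x‖ ^ 2) * (1 - ‖w‖ ^ 2)) := by ring
      _ ≤ (1 - ‖φ x‖ ^ 2) * (1 - ‖φ w‖ ^ 2) * ‖1 - conj w * x‖ ^ 2 := hsp
      _ = (1 - ‖φ w‖ ^ 2) * ((1 - ‖φ x‖ ^ 2) * ‖1 - conj w * x‖ ^ 2) := by ring
      _ ≤ (1 - ‖w‖ ^ 2) * ((1 - ‖φ x‖ ^ 2) * ‖1 - conj w * x‖ ^ 2) :=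
          mul_le_mul_of_nonneg_right hw4 h7
      _ = _ := by ring
  exact le_of_mul_le_mul_right h8 hw3

end

/-! ### Hilbert space part -/

section

variable {E : Type*} [NormedAddCommGroup E] [InnerProductSpace ℂ E] [CompleteSpace E]

/-- value at `z` of the function with Taylor coefficients `⟪b n, f⟫` -/
noncomputable def val (b : HilbertBasis ℕ ℂ E) (f : E) (z : ℂ) : ℂ := ∑' n : ℕ, inner ℂ (b n) f * z ^ n

variable (b : HilbertBasis ℕ ℂ E)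

lemma val_eq (f : E) (z : ℂ) : val b f z = ev (b.repr f) z := by
  unfold val ev
  apply tsum_congr
  intro n
  rw [b.repr_apply_apply]

lemma exists_ker {w : ℂ} (hw : ‖w‖ < 1) : ∃ k : E, (∀ f, inner ℂ k f = val b f w) ∧
    ‖k‖ ^ 2 = (1 - ‖w‖ ^ 2)⁻¹ := by
  have hgeo : HasSum (fun n : ℕ => ‖(conj w) ^ n‖ ^ 2) (1 - ‖w‖ ^ 2)⁻¹ := by
    have h1 : ‖w‖ ^ 2 < 1 := by nlinarith [norm_nonneg w]
    have := hasSum_geometric_of_lt_one (by positivity : (0 : ℝ) ≤ ‖w‖ ^ 2) h1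
    refine this.congr_fun (fun n => ?_)
    rw [norm_pow, RCLike.norm_conj, ← pow_mul, ← pow_mul, mul_comm]
  obtain ⟨x, hx⟩ : ∃ x : H2, ∀ n, x n = (conj w) ^ n := ⟨⟨fun n => (conj w) ^ n, h2_mem hgeo.summable⟩, fun n => rfl⟩
  refine ⟨b.repr.symm x, ?_, ?_⟩
  · intro f
    rw [val_eq, ← b.repr.inner_map_map, LinearIsometryEquiv.apply_symm_apply, lp.inner_eq_tsum]
    unfold ev
    apply tsum_congr
    intro n
    rw [hx, RCLike.inner_apply, map_pow, Complex.conj_conj]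
  · rw [LinearIsometryEquiv.norm_map, ← (h2_hasSum x).tsum_eq, ← hgeo.tsum_eq]
    apply tsum_congr
    intro n
    rw [hx]

lemma val_basis (n : ℕ) (z : ℂ) (hz : ‖z‖ < 1) : val b (b n) z = z ^ n := by
  rw [val_eq, b.repr_self, ev_single n hz]

lemma val_zero_imp {f : E} (h : ∀ z : ℂ, ‖z‖ < 1 → val b f z = 0) : f = 0 := by
  have h1 : b.repr f = 0 := by
    apply ev_inj
    intro z hz
    rw [← val_eq, h z hz]
    have h2 := ev_hasSum (0 : H2) hz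
    have h3 : HasSum (fun n => ((0 : H2) n) * z ^ n) 0 := by
      simp only [lp.coeFn_zero, Pi.zero_apply, zero_mul]
      exact hasSum_zero
    exact h3.unique h2
  exact (map_eq_zero_iff _ b.repr.injective).1 h1

lemma val_diff (f : E) : DifferentiableOn ℂ (val b f) (ball 0 1) := by
  have : val b f = ev (b.repr f) := by
    funext z; exact val_eq b f z
  rw [this]
  exact ev_diff _

/-- compactness makes the adjoint small on normalised kernels -/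
lemma small_ker {K : ℂ → E} (hK1 : ∀ w, ‖w‖ < 1 → ∀ f, inner ℂ (K w) f = val b f w)
    (hK2 : ∀ w, ‖w‖ < 1 → ‖K w‖ ^ 2 = (1 - ‖w‖ ^ 2)⁻¹) {T : E →L[ℂ] E} (hc : IsCompactOperator T)
    {ε : ℝ} (hε : 0 < ε) : ∃ δ > 0, ∀ w : ℂ, ‖w‖ < 1 → 1 - δ < ‖w‖ →
      ‖ContinuousLinearMap.adjoint T (K w)‖ ^ 2 ≤ ε * ‖K w‖ ^ 2 := by
  by_contra hcon
  push Not at hcon
  have hseq : ∀ n : ℕ, ∃ w : ℂ, ‖w‖ < 1 ∧ 1 - 1 / ((n : ℝ) + 1) < ‖w‖ ∧
      ε * ‖K w‖ ^ 2 < ‖ContinuousLinearMap.adjoint T (K w)‖ ^ 2 := by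
    intro n
    exact hcon (1 / ((n : ℝ) + 1)) (by positivity)
  choose w hw1 hw2 hw3 using hseq
  have hKpos : ∀ n, 0 < ‖K (w n)‖ := by
    intro n
    have h1 := hK2 (w n) (hw1 n)
    have h2 : 0 < (1 - ‖w n‖ ^ 2)⁻¹ := by
      apply inv_pos.2
      nlinarith [norm_nonneg (w n), hw1 n]
    rw [← h1] at h2
    refine lt_of_le_of_ne (norm_nonneg _) (fun h => ?_)
    rw [← h] at h2
    norm_num at h2
  obtain ⟨x, hx⟩ : ∃ x : ℕ → E, x = fun n => ((‖K (w n)‖⁻¹ : ℝ) : ℂ) • K (w n) := ⟨_, rfl⟩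
  have hxn : ∀ n, ‖x n‖ = 1 := by
    intro n
    rw [hx]
    simp only
    rw [norm_smul, Complex.norm_real, Real.norm_of_nonneg (inv_nonneg.2 (norm_nonneg _)),
      inv_mul_cancel₀ (hKpos n).ne']
  have hinv : Tendsto (fun n => ‖K (w n)‖⁻¹) atTop (𝓝 0) := by
    have h1 : Tendsto (fun n => (‖K (w n)‖⁻¹) ^ 2) atTop (𝓝 0) := by
      have h2 : ∀ n, (‖K (w n)‖⁻¹) ^ 2 = 1 - ‖w n‖ ^ 2 := by
        intro n
        rw [inv_pow, hK2 _ (hw1 n), inv_inv]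
      simp only [h2]
      have h3 : Tendsto (fun n => ‖w n‖) atTop (𝓝 1) := by
        have h4 : Tendsto (fun n : ℕ => 1 - 1 / ((n : ℝ) + 1)) atTop (𝓝 (1 - 0)) :=
          (tendsto_one_div_add_atTop_nhds_zero_nat (𝕜 := ℝ)).const_sub 1
        rw [sub_zero] at h4
        exact tendsto_of_tendsto_of_tendsto_of_le_of_le h4 tendsto_const_nhds (fun n => (hw2 n).le)
          (fun n => (hw1 n).le)
      have h5 := (h3.pow 2).const_sub 1
      have e : (1 : ℝ) - 1 ^ 2 = 0 := by norm_num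
      rwa [e] at h5
    have h2 := h1.sqrt
    rw [Real.sqrt_zero] at h2
    refine h2.congr (fun n => ?_)
    rw [Real.sqrt_sq (inv_nonneg.2 (norm_nonneg _))]
  have hweak0 : ∀ i, Tendsto (fun n => inner ℂ (x n) (b i)) atTop (𝓝 0) := by
    intro i
    rw [tendsto_zero_iff_norm_tendsto_zero]
    refine squeeze_zero (fun _ => norm_nonneg _) (fun n => ?_) hinv
    rw [hx]
    simp only
    rw [inner_smul_left, hK1 _ (hw1 n), val_basis b i _ (hw1 n), norm_mul, Complex.conj_ofReal,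
      Complex.norm_real, Real.norm_of_nonneg (inv_nonneg.2 (norm_nonneg _)), norm_pow]
    exact mul_le_of_le_one_right (inv_nonneg.2 (norm_nonneg _)) (pow_le_one₀ (norm_nonneg _) (hw1 n).le)
  have hweak : ∀ g, Tendsto (fun n => inner ℂ (x n) g) atTop (𝓝 0) := by
    intro g
    rw [Metric.tendsto_atTop']
    intro η hη
    have hs := (b.hasSum_repr g).tendsto_sum_nat
    rw [Metric.tendsto_atTop'] at hs
    obtain ⟨m, hm'⟩ := hs (η / 2) (by positivity)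
    have hclose := hm' (m + 1) (Nat.lt_succ_self m)
    obtain ⟨p, hp⟩ : ∃ p : E, p = ∑ i ∈ Finset.range (m + 1), b.repr g i • b i := ⟨_, rfl⟩
    rw [← hp, dist_eq_norm] at hclose
    have hplim : Tendsto (fun n => inner ℂ (x n) p) atTop (𝓝 0) := by
      have h1 : ∀ n, inner ℂ (x n) p = ∑ i ∈ Finset.range (m + 1), b.repr g i * inner ℂ (x n) (b i) := by
        intro n
        rw [hp, inner_sum]
        apply Finset.sum_congr rfl
        intro i _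
        rw [inner_smul_right]
      simp only [h1]
      have h2 : Tendsto (fun n => ∑ i ∈ Finset.range (m + 1), b.repr g i * inner ℂ (x n) (b i)) atTop
          (𝓝 (∑ i ∈ Finset.range (m + 1), b.repr g i * 0)) := by
        apply tendsto_finsetSum
        intro i _
        exact (hweak0 i).const_mul _
      simpa using h2
    rw [tendsto_zero_iff_norm_tendsto_zero] at hplim
    obtain ⟨N, hN⟩ := (hplim.eventually (gt_mem_nhds (show 0 < η / 2 by positivity))).exists_forall_of_atTop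
    refine ⟨N, fun n hn => ?_⟩
    rw [dist_zero_right]
    have h1 := hN n hn.le
    have h2 : inner ℂ (x n) g = inner ℂ (x n) p - inner ℂ (x n) (p - g) := by
      rw [inner_sub_right]; ring
    have h3 : ‖inner ℂ (x n) (p - g)‖ ≤ η / 2 := by
      refine (norm_inner_le_norm _ _).trans ?_
      rw [hxn, one_mul]
      exact hclose.le
    rw [h2]
    refine lt_of_le_of_lt (norm_sub_le _ _) ?_
    linarith
  have hA : IsCompactOperator (T ∘ ContinuousLinearMap.adjoint T) := hc.comp_clm (ContinuousLinearMap.adjoint T)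
  have hA' : IsCompactOperator (T.comp (ContinuousLinearMap.adjoint T)) := hA
  have hcomp := IsCompactOperator.isCompact_closure_image_closedBall
    (f := ((T.comp (ContinuousLinearMap.adjoint T) : E →L[ℂ] E) : E →ₗ[ℂ] E)) hA' 1
  obtain ⟨y, _, ν, hν, hy⟩ := hcomp.tendsto_subseq (x := fun n => T (ContinuousLinearMap.adjoint T (x n)))
    (fun n => subset_closure ⟨x n, by rw [mem_closedBall_zero_iff]; exact (hxn n).le, rfl⟩)
  have hy0 : y = 0 := by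
    apply ext_inner_right ℂ
    intro g
    rw [inner_zero_left]
    have h1 : Tendsto (fun n => inner ℂ (T (ContinuousLinearMap.adjoint T (x (ν n)))) g) atTop (𝓝 (inner ℂ y g)) :=
      hy.inner tendsto_const_nhds
    have h2 : Tendsto (fun n => inner ℂ (T (ContinuousLinearMap.adjoint T (x (ν n)))) g) atTop (𝓝 0) := by
      have h3 := (hweak (T (ContinuousLinearMap.adjoint T g))).comp hν.tendsto_atTop
      refine h3.congr (fun n => ?_)
      simp only [Function.comp]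
      rw [← ContinuousLinearMap.adjoint_inner_left, ContinuousLinearMap.adjoint_inner_right]
    exact tendsto_nhds_unique h1 h2
  have hlim0 : Tendsto (fun n => ‖T (ContinuousLinearMap.adjoint T (x (ν n)))‖) atTop (𝓝 0) := by
    have := hy.norm
    rw [hy0, norm_zero] at this
    exact this
  have hge : ∀ n, ε ≤ ‖T (ContinuousLinearMap.adjoint T (x (ν n)))‖ := by
    intro n
    obtain ⟨m, hm'⟩ : ∃ m, m = ν n := ⟨_, rfl⟩
    rw [← hm']
    have h1 : ‖ContinuousLinearMap.adjoint T (x m)‖ ^ 2 ≤ ‖T (ContinuousLinearMap.adjoint T (x m))‖ := by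
      have h2 : (inner ℂ (T (ContinuousLinearMap.adjoint T (x m))) (x m) : ℂ) =
          inner ℂ (ContinuousLinearMap.adjoint T (x m)) (ContinuousLinearMap.adjoint T (x m)) := by
        rw [ContinuousLinearMap.adjoint_inner_right]
      have h3 : ‖(inner ℂ (T (ContinuousLinearMap.adjoint T (x m))) (x m) : ℂ)‖ ≤
          ‖T (ContinuousLinearMap.adjoint T (x m))‖ := by
        refine (norm_inner_le_norm _ _).trans ?_
        rw [hxn, mul_one]
      rw [h2, inner_self_eq_norm_sq_to_K] at h3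
      rw [norm_pow] at h3
      simpa using h3
    refine le_trans ?_ h1
    have h4 : ‖ContinuousLinearMap.adjoint T (x m)‖ ^ 2 =
        (‖K (w m)‖⁻¹) ^ 2 * ‖ContinuousLinearMap.adjoint T (K (w m))‖ ^ 2 := by
      rw [hx]
      simp only
      rw [map_smul, norm_smul, Complex.norm_real, Real.norm_of_nonneg (inv_nonneg.2 (norm_nonneg _)), mul_pow]
    rw [h4]
    have h5 := (hw3 m).le
    have h6 : 0 < ‖K (w m)‖ ^ 2 := pow_pos (hKpos m) 2
    rw [inv_pow, inv_mul_eq_div, le_div_iff₀ h6]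
    exact h5
  have := ge_of_tendsto' hlim0 hge
  linarith

/-- main theorem: no non-zero eigenvalue -/
theorem no_eigen {ψ φ : ℂ → ℂ} (hd : DifferentiableOn ℂ φ (ball 0 1))
    (hm : Set.MapsTo φ (ball 0 1) (ball 0 1)) (hfix : ∀ p ∈ ball (0 : ℂ) 1, φ p ≠ p) {T : E →L[ℂ] E}
    (hT : ∀ (f : E) (z : ℂ), ‖z‖ < 1 → val b (T f) z = ψ z * val b f (φ z)) (hc : IsCompactOperator T)
    {lam : ℂ} (hl : lam ≠ 0) {f : E} (hf : T f = lam • f) : f = 0 := by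
  obtain ⟨ω, hω, hJ⟩ := wolff hd hm hfix
  have hKex : ∀ w : ℂ, ∃ k : E, ‖w‖ < 1 → (∀ f, inner ℂ k f = val b f w) ∧ ‖k‖ ^ 2 = (1 - ‖w‖ ^ 2)⁻¹ := by
    intro w
    by_cases hw : ‖w‖ < 1
    · obtain ⟨k, hk⟩ := exists_ker b hw
      exact ⟨k, fun _ => hk⟩
    · exact ⟨0, fun h => absurd h hw⟩
  choose K hK using hKex
  have hlp : 0 < ‖lam‖ := norm_pos_iff.2 hl
  obtain ⟨δ, hδ, hsm⟩ := small_ker b (fun w hw => (hK w hw).1) (fun w hw => (hK w hw).2) hc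
    (show 0 < ‖lam‖ ^ 2 / 2 by positivity)
  have hadj : ∀ w, ‖w‖ < 1 → ContinuousLinearMap.adjoint T (K w) = conj (ψ w) • K (φ w) := by
    intro w hw
    apply ext_inner_right ℂ
    intro g
    rw [ContinuousLinearMap.adjoint_inner_left, (hK w hw).1, hT g w hw, inner_smul_left,
      (hK (φ w) (phi_lt hm hw)).1, Complex.conj_conj]
  have hψ : ∀ w, ‖w‖ < 1 → 1 - δ < ‖w‖ → ‖ψ w‖ ^ 2 * (1 - ‖w‖ ^ 2) ≤ ‖lam‖ ^ 2 / 2 * (1 - ‖φ w‖ ^ 2) := by
    intro w hw hwδ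
    have h1 := hsm w hw hwδ
    rw [hadj w hw, norm_smul, RCLike.norm_conj, mul_pow, (hK w hw).2, (hK (φ w) (phi_lt hm hw)).2] at h1
    have h2 : 0 < 1 - ‖w‖ ^ 2 := by nlinarith [norm_nonneg w]
    have h3 : 0 < 1 - ‖φ w‖ ^ 2 := by nlinarith [norm_nonneg (φ w), phi_lt hm hw]
    rw [← div_eq_mul_inv, ← div_eq_mul_inv, div_le_div_iff₀ h3 h2] at h1
    exact h1
  have heig : ∀ z, ‖z‖ < 1 → lam * val b f z = ψ z * val b f (φ z) := by
    intro z hz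
    rw [← hT f z hz, hf, val_eq, val_eq, map_smul, ev_smul _ _ hz]
  have hbd : ∀ z, ‖z‖ < 1 → ‖val b f z‖ ^ 2 * (1 - ‖z‖ ^ 2) ≤ ‖f‖ ^ 2 := by
    intro z hz
    have h1 : ‖val b f z‖ ≤ ‖K z‖ * ‖f‖ := by
      rw [← (hK z hz).1 f]
      exact norm_inner_le_norm _ _
    have h2 : ‖val b f z‖ ^ 2 ≤ ‖K z‖ ^ 2 * ‖f‖ ^ 2 := by
      rw [← mul_pow]
      exact pow_le_pow_left₀ (norm_nonneg _) h1 2
    rw [(hK z hz).2] at h2
    have h3 : 0 < 1 - ‖z‖ ^ 2 := by nlinarith [norm_nonneg z]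
    calc ‖val b f z‖ ^ 2 * (1 - ‖z‖ ^ 2) ≤ ((1 - ‖z‖ ^ 2)⁻¹ * ‖f‖ ^ 2) * (1 - ‖z‖ ^ 2) :=
          mul_le_mul_of_nonneg_right h2 h3.le
      _ = ‖f‖ ^ 2 := by field_simp
  -- the horodisc
  obtain ⟨H, hH⟩ : ∃ H : Set ℂ, H = {z | ‖z‖ < 1 ∧ ‖1 - conj ω * z‖ ^ 2 < δ / 2 * (1 - ‖z‖ ^ 2)} := ⟨_, rfl⟩
  have hHφ : ∀ z ∈ H, φ z ∈ H := by
    intro z hz
    rw [hH] at hz ⊢
    obtain ⟨hz1, hz2⟩ := hz
    refine ⟨phi_lt hm hz1, ?_⟩
    have h1 := hJ z hz1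
    rw [one_mul] at h1
    have h2 : 0 < 1 - ‖z‖ ^ 2 := by nlinarith [norm_nonneg z]
    have h3 : 0 < 1 - ‖φ z‖ ^ 2 := by nlinarith [norm_nonneg (φ z), phi_lt hm hz1]
    have h4 : ‖1 - conj ω * φ z‖ ^ 2 * (1 - ‖z‖ ^ 2) < (δ / 2 * (1 - ‖φ z‖ ^ 2)) * (1 - ‖z‖ ^ 2) := by
      refine lt_of_le_of_lt h1 ?_
      have := mul_lt_mul_of_pos_left hz2 h3
      linarith
    exact lt_of_mul_lt_mul_right h4 h2.le
  have hHδ : ∀ z ∈ H, 1 - δ < ‖z‖ := by
    intro z hz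
    rw [hH] at hz
    obtain ⟨hz1, hz2⟩ := hz
    have h1 : 1 - ‖z‖ ≤ ‖1 - conj ω * z‖ := by
      have := norm_sub_norm_le (1 : ℂ) (conj ω * z)
      rw [norm_mul, RCLike.norm_conj, hω, one_mul, norm_one] at this
      exact this
    have h2 : (1 - ‖z‖) ^ 2 < δ / 2 * (1 - ‖z‖ ^ 2) :=
      lt_of_le_of_lt (pow_le_pow_left₀ (by linarith) h1 2) hz2
    have h3 : 0 < 1 - ‖z‖ := by linarith
    have h4 : (1 - ‖z‖) * (1 - ‖z‖) < (1 - ‖z‖) * (δ / 2 * (1 + ‖z‖)) := by nlinarith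
    have h5 := lt_of_mul_lt_mul_left h4 h3.le
    nlinarith
  have hiter : ∀ n : ℕ, ∀ z ∈ H, ‖val b f z‖ ^ 2 * (1 - ‖z‖ ^ 2) ≤ ‖f‖ ^ 2 * (1 / 2) ^ n := by
    intro n
    induction n with
    | zero =>
      intro z hz
      rw [pow_zero, mul_one]
      rw [hH] at hz
      exact hbd z hz.1
    | succ n ih =>
      intro z hz
      have h1 := ih (φ z) (hHφ z hz)
      have hδz := hHδ z hz
      have hz1 : ‖z‖ < 1 := by rw [hH] at hz; exact hz.1
      have h2 := hψ z hz1 hδz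
      have h3 : ‖lam‖ ^ 2 * ‖val b f z‖ ^ 2 = ‖ψ z‖ ^ 2 * ‖val b f (φ z)‖ ^ 2 := by
        rw [← mul_pow, ← mul_pow, ← norm_mul, ← norm_mul, heig z hz1]
      have h4 : ‖lam‖ ^ 2 * (‖val b f z‖ ^ 2 * (1 - ‖z‖ ^ 2)) ≤
          ‖lam‖ ^ 2 * (1 / 2 * (‖val b f (φ z)‖ ^ 2 * (1 - ‖φ z‖ ^ 2))) := by
        calc ‖lam‖ ^ 2 * (‖val b f z‖ ^ 2 * (1 - ‖z‖ ^ 2)) =
              (‖ψ z‖ ^ 2 * (1 - ‖z‖ ^ 2)) * ‖val b f (φ z)‖ ^ 2 := by
                rw [← mul_assoc, h3]; ring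
          _ ≤ (‖lam‖ ^ 2 / 2 * (1 - ‖φ z‖ ^ 2)) * ‖val b f (φ z)‖ ^ 2 :=
              mul_le_mul_of_nonneg_right h2 (by positivity)
          _ = _ := by ring
      have h5 := le_of_mul_le_mul_left h4 (by positivity : 0 < ‖lam‖ ^ 2)
      have e : (1 / 2 : ℝ) ^ (n + 1) = (1 / 2) ^ n * (1 / 2) := pow_succ _ _
      rw [e]
      linarith
  have hzeroH : ∀ z ∈ H, val b f z = 0 := by
    intro z hz
    have hz1 : ‖z‖ < 1 := by rw [hH] at hz; exact hz.1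
    have h1 : Tendsto (fun n : ℕ => ‖f‖ ^ 2 * (1 / 2 : ℝ) ^ n) atTop (𝓝 (‖f‖ ^ 2 * 0)) :=
      (tendsto_pow_atTop_nhds_zero_of_lt_one (by norm_num) (by norm_num)).const_mul _
    rw [mul_zero] at h1
    have h2 := ge_of_tendsto' h1 (fun n => hiter n z hz)
    have h3 : 0 < 1 - ‖z‖ ^ 2 := by nlinarith [norm_nonneg z]
    have h4 : ‖val b f z‖ ^ 2 ≤ 0 := by
      by_contra hne
      push Not at hne
      have := mul_pos hne h3
      linarith
    have h5 : ‖val b f z‖ ^ 2 = 0 := le_antisymm h4 (by positivity)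
    exact norm_eq_zero.1 ((pow_eq_zero_iff two_ne_zero).1 h5)
  -- H is a nonempty open set
  obtain ⟨z0, hz0⟩ : ∃ z0, z0 ∈ H := by
    obtain ⟨s, hs⟩ : ∃ s : ℝ, s = min (1 / 2) (δ / 4) := ⟨_, rfl⟩
    have hs0 : 0 < s := by rw [hs]; positivity
    have hs1 : s ≤ 1 / 2 := by rw [hs]; exact min_le_left _ _
    have hs2 : s ≤ δ / 4 := by rw [hs]; exact min_le_right _ _
    refine ⟨((1 - s : ℝ) : ℂ) * ω, ?_⟩
    have hn : ‖((1 - s : ℝ) : ℂ) * ω‖ = 1 - s := by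
      rw [norm_mul, hω, mul_one, Complex.norm_real, Real.norm_of_nonneg (by linarith)]
    rw [hH]
    refine ⟨by rw [hn]; linarith, ?_⟩
    rw [hn]
    have e : 1 - conj ω * (((1 - s : ℝ) : ℂ) * ω) = (s : ℂ) := by
      have : conj ω * ω = 1 := by
        rw [← Complex.normSq_eq_conj_mul_self, Complex.normSq_eq_norm_sq, hω]
        norm_num
      calc 1 - conj ω * (((1 - s : ℝ) : ℂ) * ω) = 1 - ((1 - s : ℝ) : ℂ) * (conj ω * ω) := by ring
        _ = (s : ℂ) := by rw [this]; push_cast; ring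
    rw [e, Complex.norm_real, Real.norm_of_nonneg hs0.le]
    have h6 : 3 / 2 * s ≤ 1 - (1 - s) ^ 2 := by nlinarith
    have h7 : δ / 2 * (3 / 2 * s) ≤ δ / 2 * (1 - (1 - s) ^ 2) := mul_le_mul_of_nonneg_left h6 (by positivity)
    have h8 : s * s ≤ s * (δ / 4) := mul_le_mul_of_nonneg_left hs2 hs0.le
    have h9 : 0 < s * s := by positivity
    nlinarith
  have hz01 : ‖z0‖ < 1 := by rw [hH] at hz0; exact hz0.1
  have hev : val b f =ᶠ[𝓝 z0] 0 := by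
    have h1 : ∀ᶠ z in 𝓝 z0, ‖z‖ < 1 := (continuous_norm.tendsto z0).eventually (gt_mem_nhds hz01)
    have h2 : ∀ᶠ z in 𝓝 z0, ‖1 - conj ω * z‖ ^ 2 - δ / 2 * (1 - ‖z‖ ^ 2) < 0 := by
      have hcont : Continuous (fun z : ℂ => ‖1 - conj ω * z‖ ^ 2 - δ / 2 * (1 - ‖z‖ ^ 2)) := by fun_prop
      apply (hcont.tendsto z0).eventually (gt_mem_nhds _)
      rw [hH] at hz0
      linarith [hz0.2]
    filter_upwards [h1, h2] with z h3 h4
    apply hzeroH
    rw [hH]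
    exact ⟨h3, by linarith⟩
  have hana : AnalyticOnNhd ℂ (val b f) (ball 0 1) := (val_diff b f).analyticOnNhd isOpen_ball
  have hall := hana.eqOn_zero_of_preconnected_of_eventuallyEq_zero
    (convex_ball (0 : ℂ) 1).isPreconnected (mem_ball_zero_iff.2 hz01) hev
  apply val_zero_imp b
  intro z hz
  exact hall (mem_ball_zero_iff.2 hz)

/-- the spectrum -/
theorem spectrum_eq {ψ φ : ℂ → ℂ} (hd : DifferentiableOn ℂ φ (ball 0 1))
    (hm : Set.MapsTo φ (ball 0 1) (ball 0 1)) (hfix : ∀ p ∈ ball (0 : ℂ) 1, φ p ≠ p) {T : E →L[ℂ] E}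
    (hT : ∀ (f : E) (z : ℂ), ‖z‖ < 1 → val b (T f) z = ψ z * val b f (φ z)) (hc : IsCompactOperator T) :
    spectrum ℂ T = {0} := by
  have hsub : spectrum ℂ T ⊆ {0} := by
    intro lam hlam
    rw [mem_singleton_iff]
    by_contra hne
    have h1 := (hc.hasEigenvalue_iff_mem_spectrum hne).2 hlam
    obtain ⟨f, hf⟩ := h1.exists_hasEigenvector
    have h2 : T f = lam • f := hf.apply_eq_smul
    exact hf.2 (no_eigen b hd hm hfix hT hc hne h2)
  have hnt : Nontrivial E := by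
    refine ⟨b 0, 0, ?_⟩
    intro h
    have := b.orthonormal.1 0
    rw [h, norm_zero] at this
    norm_num at this
  have hne : (spectrum ℂ T).Nonempty := spectrum.nonempty T
  exact (Set.subset_singleton_iff_eq.1 hsub).resolve_left hne.ne_empty

end

end Pool.Agent.H6.WC
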